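import Pool.Agent.BAC.TrSub

/-!
BAC / U5 (blueprint 1.3). Integral Artin-Schreier generators.

`E < E'` both Galois over `K`, `[E':K] = p [E:K]`. `H = {σ ∈ Gal(E'/K) | σ|_E = id}`
(`= (E restricted).fixingSubgroup`) has order `p`; let `σ` be a generator. By `tr_subgroup` there is
`θ ∈ R_E'` with `∑_{i<p} σ^i θ = 1`. Put `w = - ∑_{i<p} i σ^i θ`: then
`σ w = - ∑ i σ^(i+1) θ = - ∑ (i-1) σ^i θ = w + 1` (indices modulo `p`; `i` as an element of `F_p ⊆ E'`).
`w` is integral, `σ (w ^ p - w) = w ^ p - w`, so `w ^ p - w ∈ E` (fixed field of `H` is `E`), it is integral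
(`mem_Rint_of_map`). `w ∉ E`. `E' = E ⊔ K(w)`: `E < E ⊔ K(w) ≤ E'` and the index is prime (degrees).
-/

namespace BAC

open Polynomial WithZero IntermediateField Pool.Agent.Helper32

variable {p : ℕ} [hp : Fact p.Prime] {k K Ω : Type*} [Field k] [Field K]
  [Field Ω] [Algebra k K] [Algebra K Ω] [Algebra k Ω] [IsScalarTower k K Ω] [CharP k p]
  [CharP K p] [CharP Ω p] {x : K}

theorem as_gen {E E' : IntermediateField K Ω} [FiniteDimensional K E'] [IsGalois K E]
    [IsGalois K E'] (hE : E ≤ E') (hd : Module.finrank K E' = p * Module.finrank K E)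
    (h : TrOne k x E') : ∃ (w : Ω) (f : E), w ∈ E' ∧ w ∉ E ∧ w ^ p - w = (f : Ω) ∧
      f ∈ Rint k (algebraMap K E x) ∧ E' = E ⊔ IntermediateField.adjoin K {w} := by
  classical
  haveI : CharP E' p := charP_of_injective_algebraMap (algebraMap K E').injective p
  set E₀ : IntermediateField K E' := IntermediateField.restrict hE with hE₀
  set H : Subgroup (E' ≃ₐ[K] E') := E₀.fixingSubgroup with hH
  have hcard : Nat.card H = p := by
    rw [hH, IsGalois.card_fixingSubgroup_eq_finrank]
    have h1 : Module.finrank K E₀ = Module.finrank K E :=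
      (IntermediateField.restrict_algEquiv hE).toLinearEquiv.finrank_eq.symm
    have h2 := Module.finrank_mul_finrank K E₀ E'
    rw [h1, hd, mul_comm p] at h2
    have h3 : 0 < Module.finrank K E := by
      rw [← h1]
      exact Module.finrank_pos
    exact Nat.eq_of_mul_eq_mul_left h3 h2
  haveI : Fintype H := Fintype.ofFinite H
  obtain ⟨θ, hθ, hsum⟩ := tr_subgroup h H
  let χ : H ≃* Multiplicative (ZMod p) := mulEquivOfPrimeCardEq (p := p) hcard (by
    rw [Nat.card_eq_fintype_card, Fintype.card_multiplicative, ZMod.card])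
  let c : ZMod p →+* E' := ZMod.castHom dvd_rfl E'
  have hcσ : ∀ (σ : E' ≃ₐ[K] E') (z : ZMod p), σ (c z) = c z := fun σ z =>
    DFunLike.congr_fun (Subsingleton.elim ((σ : E' →+* E').comp c) c) z
  have hcp : ∀ z : ZMod p, c z ^ p = c z := fun z => by rw [← map_pow, ZMod.pow_card]
  let w : E' := -∑ τ : H, c (χ τ).toAdd * (τ : E' ≃ₐ[K] E') θ
  have hw : ∀ σ : H, (σ : E' ≃ₐ[K] E') w = w + c (χ σ).toAdd := by
    intro σ
    have h1 : (σ : E' ≃ₐ[K] E') w =
        -∑ τ : H, c (χ τ).toAdd * ((σ * τ : H) : E' ≃ₐ[K] E') θ := by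
      change (σ : E' ≃ₐ[K] E') (-∑ τ : H, c (χ τ).toAdd * (τ : E' ≃ₐ[K] E') θ) = _
      rw [map_neg, map_sum]
      congr 1
      refine Finset.sum_congr rfl fun τ _ => ?_
      rw [map_mul, hcσ]
      rfl
    have h2 : ∑ τ : H, c (χ τ).toAdd * ((σ * τ : H) : E' ≃ₐ[K] E') θ =
        ∑ τ : H, c (χ (σ⁻¹ * τ)).toAdd * (τ : E' ≃ₐ[K] E') θ := by
      rw [← Equiv.sum_comp (Equiv.mulLeft σ)
        (fun τ : H => c (χ (σ⁻¹ * τ)).toAdd * (τ : E' ≃ₐ[K] E') θ)]
      refine Finset.sum_congr rfl fun τ _ => ?_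
      simp only [Equiv.coe_mulLeft, inv_mul_cancel_left]
    have h3 : ∀ τ : H, c (χ (σ⁻¹ * τ)).toAdd * (τ : E' ≃ₐ[K] E') θ =
        c (χ τ).toAdd * (τ : E' ≃ₐ[K] E') θ - c (χ σ).toAdd * (τ : E' ≃ₐ[K] E') θ := by
      intro τ
      rw [map_mul, map_inv, toAdd_mul, toAdd_inv, map_add, map_neg]
      ring
    rw [h1, h2, Finset.sum_congr rfl fun τ _ => h3 τ, Finset.sum_sub_distrib, ← Finset.mul_sum,
      hsum]
    change _ = -∑ τ : H, c (χ τ).toAdd * (τ : E' ≃ₐ[K] E') θ + c (χ σ).toAdd
    ring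
  have hwR : w ∈ Rint k (algebraMap K E' x) := by
    refine neg_mem (sum_mem fun τ _ => mul_mem ?_ ?_)
    · have h1 : c (χ τ).toAdd = algebraMap k E' (ZMod.castHom dvd_rfl k (χ τ).toAdd) := by
        exact (DFunLike.congr_fun (Subsingleton.elim
          ((algebraMap k E').comp (ZMod.castHom dvd_rfl k)) c) _).symm
      rw [h1]
      exact (Rint k (algebraMap K E' x)).algebraMap_mem _
    · have h1 := map_mem_Rint (((τ : E' ≃ₐ[K] E') : E' →ₐ[K] E').restrictScalars k) hθ
      have h2 : (((τ : E' ≃ₐ[K] E') : E' →ₐ[K] E').restrictScalars k) (algebraMap K E' x) =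
          algebraMap K E' x := (τ : E' ≃ₐ[K] E').commutes x
      rw [h2] at h1
      exact h1
  have hfix : ∀ y : E', (∀ σ : H, (σ : E' ≃ₐ[K] E') y = y) → (y : Ω) ∈ E := by
    intro y hy
    have h1 : y ∈ IntermediateField.fixedField E₀.fixingSubgroup := by
      rw [IntermediateField.mem_fixedField_iff]
      intro σ hσ
      exact hy ⟨σ, hσ⟩
    rw [IsGalois.fixedField_fixingSubgroup] at h1
    exact (IntermediateField.mem_restrict hE y).1 h1
  have hfix' : ∀ (σ : H) (y : E'), (y : Ω) ∈ E → (σ : E' ≃ₐ[K] E') y = y := by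
    intro σ y hy
    have h1 : y ∈ E₀ := (IntermediateField.mem_restrict hE y).2 hy
    exact (IntermediateField.mem_fixingSubgroup_iff E₀ σ.1).1 σ.2 y h1
  have hf : ((w ^ p - w : E') : Ω) ∈ E := by
    refine hfix _ fun σ => ?_
    rw [map_sub, map_pow, hw, add_pow_char, hcp]
    ring
  have hinj : ∀ σ : H, (σ : E' ≃ₐ[K] E') w = w → σ = 1 := by
    intro σ hσ
    rw [hw] at hσ
    have h1 : c (χ σ).toAdd = 0 := by
      have h2 : w + c (χ σ).toAdd = w + 0 := by rw [hσ, add_zero]
      exact add_left_cancel h2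
    have h2 : (χ σ).toAdd = 0 := c.injective (h1.trans (map_zero c).symm)
    have h3 : χ σ = 1 := h2
    exact (MulEquiv.map_eq_one_iff χ).1 h3
  refine ⟨(w : Ω), ⟨((w ^ p - w : E') : Ω), hf⟩, w.2, ?_, by push_cast; rfl, ?_, ?_⟩
  · intro hwE
    have h1 : ∀ σ : H, σ = 1 := fun σ => hinj σ (hfix' σ w hwE)
    haveI : Subsingleton H := ⟨fun a b => by rw [h1 a, h1 b]⟩
    have h2 : Nat.card H ≤ 1 := Finite.card_le_one_iff_subsingleton.2 inferInstance
    rw [hcard] at h2
    have := hp.out.one_lt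
    omega
  · have h1 := mem_Rint_of_map (k := k) ((IntermediateField.inclusion hE).restrictScalars k)
      (x := algebraMap K E x) (a := ⟨((w ^ p - w : E') : Ω), hf⟩)
    apply h1
    have h2 : ((IntermediateField.inclusion hE).restrictScalars k) (algebraMap K E x) =
        algebraMap K E' x := (IntermediateField.inclusion hE).commutes x
    have h3 : ((IntermediateField.inclusion hE).restrictScalars k)
        ⟨((w ^ p - w : E') : Ω), hf⟩ = w ^ p - w := rfl
    rw [h2, h3]
    exact sub_mem (pow_mem hwR p) hwR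
  · have hM : E ⊔ IntermediateField.adjoin K {(w : Ω)} ≤ E' := by
      refine sup_le hE ?_
      rw [IntermediateField.adjoin_le_iff, Set.singleton_subset_iff]
      exact w.2
    refine le_antisymm ?_ hM
    have h1 : (IntermediateField.restrict hM).fixingSubgroup = ⊥ := by
      rw [eq_bot_iff]
      intro σ hσ
      rw [IntermediateField.mem_fixingSubgroup_iff] at hσ
      have h2 : σ ∈ H := by
        rw [hH, IntermediateField.mem_fixingSubgroup_iff]
        intro y hy
        exact hσ y ((IntermediateField.mem_restrict hM y).2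
          ((le_sup_left : E ≤ _) ((IntermediateField.mem_restrict hE y).1 hy)))
      have h3 : σ w = w := hσ w ((IntermediateField.mem_restrict hM w).2
        ((le_sup_right : IntermediateField.adjoin K {(w : Ω)} ≤ _)
          (IntermediateField.mem_adjoin_simple_self K (w : Ω))))
      have h4 := hinj ⟨σ, h2⟩ h3
      exact Subgroup.mem_bot.2 (congrArg Subtype.val h4)
    intro y hy
    have h2 : (⟨y, hy⟩ : E') ∈ IntermediateField.restrict hM := by
      rw [← IsGalois.fixedField_fixingSubgroup (IntermediateField.restrict hM), h1,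
        IntermediateField.mem_fixedField_iff]
      intro σ hσ
      rw [Subgroup.mem_bot.1 hσ]
      rfl
    exact (IntermediateField.mem_restrict hM _).1 h2

end BAC
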