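import Mathlib

/-!
BAC / G9. Bases adapted to a filtration of a finite-dimensional vector space.

`W 0 = ⊤ ≥ W 1 ≥ ... ≥ W q = ⊥`. Downward induction on `m`: a basis of `W m` adapted to `W m ≥ W (m+1) ≥ ...`:
extend the basis of `W (m+1)` to a basis of `W m` (`Basis.extend`, or: a linearly independent set of `W (m+1)`
spanning it extends to one of `W m`), new vectors get degree `m`. (Work with finite linearly independent
families of `V`: there are `s : Set V`, `d : V → ℕ` with `s` linearly independent and
`W j = span {v ∈ s | j ≤ d v}` for all `j ≥ m`; `span s = W m`.) At the end `m = 0`, index by `Fin n`.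
-/

namespace BAC

private theorem adapted_aux {F V : Type*} [Field F] [AddCommGroup V] [Module F V]
    (W : ℕ → Submodule F V) (hW : Antitone W) {q : ℕ} (hq : W q = ⊥) (i : ℕ) :
    i ≤ q → ∃ (s : Set V) (d : V → ℕ), LinearIndepOn F id s ∧ (∀ v ∈ s, q - i ≤ d v ∧ d v < q) ∧
      ∀ j, q - i ≤ j → W j = Submodule.span F {v | v ∈ s ∧ j ≤ d v} := by
  classical
  induction i with
  | zero =>
    intro _
    refine ⟨∅, fun _ => 0, linearIndepOn_empty F id, fun v hv => absurd hv (Set.notMem_empty v), ?_⟩
    intro j hj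
    have h1 : W j = ⊥ := le_bot_iff.1 (hq ▸ hW hj)
    have h2 : {v : V | v ∈ (∅ : Set V) ∧ j ≤ (fun _ => 0 : V → ℕ) v} = ∅ := by
      ext v
      simp
    rw [h1, h2, Submodule.span_empty]
  | succ i ih =>
    intro hi
    obtain ⟨s, d, hs, hd, hspan⟩ := ih (by omega)
    have hm : q - i = q - (i + 1) + 1 := by omega
    rw [hm] at hd hspan
    obtain ⟨m, hmd⟩ : ∃ m, m = q - (i + 1) := ⟨_, rfl⟩
    rw [← hmd] at hd hspan ⊢
    have hst : s ⊆ (W m : Set V) := by
      intro v hv
      have h1 : v ∈ W (m + 1) := by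
        rw [hspan (m + 1) le_rfl]
        exact Submodule.subset_span ⟨hv, (hd v hv).1⟩
      exact hW (Nat.le_succ m) h1
    obtain ⟨b, hbt, hsb, htb, hb⟩ := exists_linearIndepOn_id_extension hs hst
    refine ⟨b, fun v => if v ∈ s then d v else m, hb, ?_, ?_⟩
    · intro v _
      by_cases hv : v ∈ s
      · simp only [if_pos hv]
        exact ⟨by have := (hd v hv).1; omega, (hd v hv).2⟩
      · simp only [if_neg hv]
        omega
    · intro j hj
      rcases Nat.eq_or_lt_of_le hj with rfl | hlt
      · have h1 : {v | v ∈ b ∧ m ≤ if v ∈ s then d v else m} = b := by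
          ext v
          simp only [Set.mem_ofPred_eq, and_iff_left_iff_imp]
          intro _
          split_ifs with hv
          · have := (hd v hv).1
            omega
          · exact le_rfl
        rw [h1]
        exact le_antisymm (fun v hv => htb hv) (Submodule.span_le.2 hbt)
      · have h1 : {v | v ∈ b ∧ j ≤ if v ∈ s then d v else m} = {v | v ∈ s ∧ j ≤ d v} := by
          ext v
          simp only [Set.mem_ofPred_eq]
          constructor
          · rintro ⟨_, h2⟩
            by_cases hv : v ∈ s
            · rw [if_pos hv] at h2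
              exact ⟨hv, h2⟩
            · rw [if_neg hv] at h2
              omega
          · rintro ⟨hv, h2⟩
            rw [if_pos hv]
            exact ⟨hsb hv, h2⟩
        rw [h1]
        exact hspan j hlt

theorem exists_adapted_basis {F V : Type*} [Field F] [AddCommGroup V] [Module F V]
    [FiniteDimensional F V] (W : ℕ → Submodule F V) (hW : Antitone W) (h0 : W 0 = ⊤) {q : ℕ}
    (hq : W q = ⊥) : ∃ (n : ℕ) (b : Module.Basis (Fin n) F V) (d : Fin n → ℕ),
      (∀ i, d i < q) ∧ ∀ m, W m = Submodule.span F {v | ∃ i, m ≤ d i ∧ v = b i} := by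
  classical
  obtain ⟨s, d, hs, hd, hspan⟩ := adapted_aux W hW hq q le_rfl
  rw [Nat.sub_self] at hd hspan
  have hfin : s.Finite := LinearIndependent.setFinite hs
  have : Fintype s := hfin.fintype
  have htop : ⊤ ≤ Submodule.span F (Set.range (fun v : s => (v : V))) := by
    rw [Subtype.range_coe, ← h0, hspan 0 le_rfl]
    exact Submodule.span_mono fun v hv => hv.1
  have hli : LinearIndependent F (fun v : s => (v : V)) := hs
  obtain ⟨e⟩ : Nonempty (s ≃ Fin (Fintype.card s)) := ⟨Fintype.equivFin s⟩
  refine ⟨Fintype.card s, (Module.Basis.mk hli htop).reindex e, fun i => d (e.symm i : V),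
    fun i => (hd _ (e.symm i).2).2, ?_⟩
  intro m
  rw [hspan m (Nat.zero_le m)]
  congr 1
  ext v
  simp only [Set.mem_ofPred_eq, Module.Basis.reindex_apply, Module.Basis.mk_apply]
  constructor
  · rintro ⟨hv, h1⟩
    refine ⟨e ⟨v, hv⟩, ?_, ?_⟩
    · rw [Equiv.symm_apply_apply]
      exact h1
    · rw [Equiv.symm_apply_apply]
  · rintro ⟨i, h1, rfl⟩
    exact ⟨(e.symm i).2, h1⟩

end BAC
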