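import Pool.Agent.BAC.Defs

/-!
BAC, group theory part: definitions (blueprint section 3).
-/

namespace BAC

/-- lower central series, `gam G 0 = gam G 1 = G`, `gam G 2 = [G, G]` -/
def gam (G : Type*) [Group G] (n : ℕ) : Subgroup G :=
  (⊤ : Subgroup G).lowerCentralSeries (n - 1)

/-- finite `p`-restricted N-series (`S 1 = G`) -/
structure NSer (p : ℕ) {G : Type*} [Group G] (S : ℕ → Subgroup G) : Prop where
  one : S 1 = ⊤
  anti : Antitone S
  comm : ∀ i j, ⁅S i, S j⁆ ≤ S (i + j)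
  pow : ∀ i, ∀ g ∈ S i, g ^ p ∈ S (p * i)
  bot : ∃ m, S m = ⊥

/-- the span in `F_p[G]` of the products `(g_1 - 1) ... (g_r - 1)`, `g_i ∈ S w_i`, `∑ w_i ≥ m` -/
noncomputable def NJ (p : ℕ) {G : Type*} [Group G] (S : ℕ → Subgroup G) (m : ℕ) :
    Submodule (ZMod p) (MonoidAlgebra (ZMod p) G) :=
  Submodule.span (ZMod p) {a | ∃ l : List (ℕ × G), (∀ y ∈ l, y.2 ∈ S y.1) ∧
    m ≤ (l.map Prod.fst).sum ∧
    a = (l.map (fun y => MonoidAlgebra.of (ZMod p) G y.2 - 1)).prod}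

end BAC
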