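import Pool.Agent.BAC.MatFr
import Pool.Agent.BAC.GDefs

/-!
BAC / S1 (blueprint 5.1, 5.2). Approximation of a hom `c` by `u (r σ)` modulo a normal subgroup `Z`.

`mem_CZ`: for `1 ≤ m`, `Z` a subgroup, the set of the `b` with `JJ d m b` and
`∃ z ∈ Z, JJ d (m+1) (u z - 1 - b)` is a subspace: for `z, z'`: `u z - 1, u z' - 1 ∈ JJ d m`, `uni_prod_mod`; multiples:
`ZMod p` multiples are repeated sums. It contains all `b` with `JJ d (m+1) b` (`z = 1`).
`cz_wd`: `u z (1 + b) = u z' (1 + b')` (cancel `u γ`, which is invertible: `u γ⁻¹ * u γ = 1`), so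
`u (z'⁻¹ z) (1 + b) = 1 + b'`, `u (z'⁻¹ z) - 1 = (1 + b')(1 + b)⁻¹ - 1 = b' - b` mod `JJ d (m+1)`; or directly:
`u (z'⁻¹ z) - 1 =: a`, `a (1 + b) = b' - b`, so `a = (b' - b) - a b` and first `JJ d m a` (`uni_inv`), then
`JJ d (m+1) (a - (b' - b))`.
`appr_char`: choose `z σ` and `b σ := u ((r σ * z σ)⁻¹) * c σ - 1`. Additivity:
`c (σ τ) = u (rσ z)(1 + b) u(rτ z')(1 + b') = u (rσ z rτ z') (1 + b'' )(1 + b')` with
`b'' = (u (rτ z'))⁻¹ b (u (rτ z')) = b` mod `JJ d (m+1)` (`uni_mul_mod`, `mul_uni_mod`, `Rep.one`),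
`rσ z rτ z' = r(σ τ) z''`, `z'' ∈ Z` (normal), so `(1 + b'')(1 + b') = 1 + (b + b' + JJ d (m+1))`; compare with
`c (σ τ) = u (r (σ τ) z₃) (1 + b (σ τ))` by `cz_wd`; `lam` kills `CZ ⊇ JJ d (m+1)`.
If `r σ ∈ Z`, `c σ = 1`: `1 = u (1 * 1) (1 + 0)` and `c σ = u (1 * (r σ * z)) (1 + b σ)`: `cz_wd`.
-/

namespace BAC

variable {p : ℕ} [hp : Fact p.Prime] {I : Type*} [Fintype I] [DecidableEq I]

/-- the symbols at level `m` of the elements of `Z` -/
def CZ (d : I → ℕ) {Γ : Type*} [Group Γ] (u : Γ →* Matrix I I (ZMod p)) (Z : Subgroup Γ)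
    (m : ℕ) : Submodule (ZMod p) (Matrix I I (ZMod p)) :=
  Submodule.span (ZMod p) {b | JJ d m b ∧ ∃ z ∈ Z, JJ d (m + 1) (u z - 1 - b)}

/-- `c` is approximated by `u (r σ)` modulo `Z` up to level `m` -/
def Appr (d : I → ℕ) {Γ : Type*} [Group Γ] (u : Γ →* Matrix I I (ZMod p)) (Z : Subgroup Γ)
    {S : Type*} (r : S → Γ) (m : ℕ) (c : S → Matrix I I (ZMod p)) : Prop :=
  ∀ σ, ∃ z ∈ Z, JJ d m (u ((r σ * z)⁻¹) * c σ - 1)

variable {d : I → ℕ} {Γ : Type*} [Group Γ] {u : Γ →* Matrix I I (ZMod p)} {Z : Subgroup Γ}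

private theorem ap_add {m : ℕ} (hm : 1 ≤ m) {b b' : Matrix I I (ZMod p)}
    (h : JJ d m b ∧ ∃ z ∈ Z, JJ d (m + 1) (u z - 1 - b))
    (h' : JJ d m b' ∧ ∃ z ∈ Z, JJ d (m + 1) (u z - 1 - b')) :
    JJ d m (b + b') ∧ ∃ z ∈ Z, JJ d (m + 1) (u z - 1 - (b + b')) := by
  obtain ⟨h1, z, hz, h2⟩ := h
  obtain ⟨h1', z', hz', h2'⟩ := h'
  refine ⟨h1.add h1', z * z', mul_mem hz hz', ?_⟩
  have e1 : JJ d m (u z - 1) := by
    have h3 := (h2.mono (Nat.le_succ m)).add h1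
    rwa [sub_add_cancel] at h3
  have e2 : JJ d m (u z' - 1) := by
    have h3 := (h2'.mono (Nat.le_succ m)).add h1'
    rwa [sub_add_cancel] at h3
  have h3 := ((uni_prod_mod hm e1 e2).add h2).add h2'
  have h4 : u (z * z') - 1 - (b + b') =
      u z * u z' - 1 - (u z - 1) - (u z' - 1) + (u z - 1 - b) + (u z' - 1 - b') := by
    rw [map_mul]
    abel
  rw [h4]
  exact h3

private theorem ap_zero {m : ℕ} : JJ d m (0 : Matrix I I (ZMod p)) ∧
    ∃ z ∈ Z, JJ d (m + 1) (u z - 1 - (0 : Matrix I I (ZMod p))) := by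
  refine ⟨JJ.zero, 1, one_mem Z, ?_⟩
  rw [map_one, sub_self, sub_self]
  exact JJ.zero

theorem mem_CZ (hu : Rep p d u) {m : ℕ} (hm : 1 ≤ m) {b : Matrix I I (ZMod p)} :
    b ∈ CZ d u Z m ↔ JJ d m b ∧ ∃ z ∈ Z, JJ d (m + 1) (u z - 1 - b) := by
  constructor
  · intro h
    unfold CZ at h
    induction h using Submodule.span_induction with
    | mem x hx => exact hx
    | zero => exact ap_zero
    | add x y _ _ hx hy => exact ap_add hm hx hy
    | smul a x _ hx =>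
      have h1 : ∀ n : ℕ, JJ d m (n • x) ∧ ∃ z ∈ Z, JJ d (m + 1) (u z - 1 - n • x) := by
        intro n
        induction n with
        | zero => rw [zero_smul]; exact ap_zero
        | succ n ih => rw [succ_nsmul]; exact ap_add hm ih hx
      have h2 : a • x = a.val • x := by
        conv_lhs => rw [← ZMod.natCast_zmod_val a]
        exact Nat.cast_smul_eq_nsmul _ _ _
      rw [h2]
      exact h1 _
  · intro h
    exact Submodule.subset_span h

theorem JJ_mem_CZ {m : ℕ} {b : Matrix I I (ZMod p)} (hb : JJ d (m + 1) b) : b ∈ CZ d u Z m := by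
  refine Submodule.subset_span ⟨hb.mono (Nat.le_succ m), 1, one_mem Z, ?_⟩
  rw [map_one, sub_self, zero_sub]
  exact hb.neg


private theorem ap_inv (g : Γ) : u g⁻¹ * u g = 1 := by
  rw [← map_mul, inv_mul_cancel, map_one]


private theorem ap_inv' (g : Γ) : u g * u g⁻¹ = 1 := by
  rw [← map_mul, mul_inv_cancel, map_one]

theorem cz_wd (hu : Rep p d u) {m : ℕ} (hm : 1 ≤ m) {γ z z' : Γ} (hz : z ∈ Z) (hz' : z' ∈ Z)
    {b b' : Matrix I I (ZMod p)} (hb : JJ d m b) (hb' : JJ d m b')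
    (h : u (γ * z) * (1 + b) = u (γ * z') * (1 + b')) : b - b' ∈ CZ d u Z m := by
  obtain ⟨a, ha⟩ : ∃ a, a = u (z'⁻¹ * z) - 1 := ⟨_, rfl⟩
  have h1 : u (z'⁻¹ * z) * (1 + b) = 1 + b' := by
    have h2 : u ((γ * z')⁻¹) * (u (γ * z) * (1 + b)) = u ((γ * z')⁻¹) * (u (γ * z') * (1 + b')) := by
      rw [h]
    rw [← mul_assoc, ← mul_assoc, ← map_mul, ← map_mul, inv_mul_cancel, map_one, one_mul] at h2
    rw [← h2]
    congr 2
    group
  have h2 : a + b + a * b = b' := by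
    have h3 : u (z'⁻¹ * z) = 1 + a := by rw [ha]; abel
    rw [h3] at h1
    have h4 : (1 + a) * (1 + b) = 1 + (a + b + a * b) := by noncomm_ring
    rw [h4] at h1
    exact add_left_cancel h1
  have ha1 : JJ d 1 a := by rw [ha]; exact hu.one _
  have hab : JJ d (m + 1) (a * b) := by
    have h3 := ha1.mul hb
    rwa [add_comm] at h3
  have h3 : b' - b ∈ CZ d u Z m := by
    refine Submodule.subset_span ⟨hb'.sub hb, z'⁻¹ * z, mul_mem (inv_mem hz') hz, ?_⟩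
    rw [← ha]
    have h4 : a - (b' - b) = -(a * b) := by
      rw [← h2]
      abel
    rw [h4]
    exact hab.neg
  have h4 := Submodule.neg_mem _ h3
  rwa [neg_sub] at h4

theorem appr_char (hu : Rep p d u) [Z.Normal] {S : Type*} [Group S] (r : S →* Γ)
    (c : S →* Matrix I I (ZMod p)) {m : ℕ} (hm : 1 ≤ m) (h : Appr d u Z r m c) :
    ∃ b : S → Matrix I I (ZMod p), (∀ σ, JJ d m (b σ)) ∧
      (∀ σ, ∃ z ∈ Z, c σ = u (r σ * z) * (1 + b σ)) ∧
      ∀ lam : Matrix I I (ZMod p) →ₗ[ZMod p] ZMod p, (∀ M ∈ CZ d u Z m, lam M = 0) →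
        (∀ σ τ, lam (b (σ * τ)) = lam (b σ) + lam (b τ)) ∧
        ∀ σ, r σ ∈ Z → c σ = 1 → lam (b σ) = 0 := by
  choose z hz hzb using h
  obtain ⟨b, hb⟩ : ∃ b : S → Matrix I I (ZMod p),
    ∀ σ, b σ = u ((r σ * z σ)⁻¹) * c σ - 1 := ⟨_, fun σ => rfl⟩
  have hbJ : ∀ σ, JJ d m (b σ) := fun σ => by rw [hb]; exact hzb σ
  have hcb : ∀ σ, c σ = u (r σ * z σ) * (1 + b σ) := by
    intro σ
    rw [hb, add_sub_cancel, ← mul_assoc, ap_inv', one_mul]
  refine ⟨b, hbJ, fun σ => ⟨z σ, hz σ, hcb σ⟩, fun lam hlam => ⟨fun σ τ => ?_, fun σ hσ hc => ?_⟩⟩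
  · obtain ⟨g', hg'⟩ : ∃ g', g' = r τ * z τ := ⟨_, rfl⟩
    obtain ⟨b'', hb''⟩ : ∃ b'', b'' = u g'⁻¹ * b σ * u g' := ⟨_, rfl⟩
    have h1 : JJ d (m + 1) (b'' - b σ) := by
      have h2 := uni_mul_mod (hu.one g'⁻¹) (hbJ σ)
      have h3 : JJ d m (u g'⁻¹ * b σ) := by
        have h4 := (h2.mono (Nat.le_succ m)).add (hbJ σ)
        rwa [sub_add_cancel] at h4
      have h4 := (mul_uni_mod (hu.one g') h3).add h2
      rwa [sub_add_sub_cancel, ← hb''] at h4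
    have hb''J : JJ d m b'' := by
      have h4 := (h1.mono (Nat.le_succ m)).add (hbJ σ)
      rwa [sub_add_cancel] at h4
    have h2 : JJ d (m + 1) (b'' * b τ) := by
      refine (hb''J.mul (hbJ τ)).mono ?_
      omega
    have hBJ : JJ d m (b'' + b τ + b'' * b τ) :=
      (hb''J.add (hbJ τ)).add (h2.mono (Nat.le_succ m))
    have hzz : (r τ)⁻¹ * z σ * r τ * z τ ∈ Z := by
      refine mul_mem ?_ (hz τ)
      have := (inferInstance : Z.Normal).conj_mem (z σ) (hz σ) (r τ)⁻¹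
      rwa [inv_inv] at this
    have h3 : u (r (σ * τ) * ((r τ)⁻¹ * z σ * r τ * z τ)) * (1 + (b'' + b τ + b'' * b τ)) =
        u (r (σ * τ) * z (σ * τ)) * (1 + b (σ * τ)) := by
      rw [← hcb, map_mul c, hcb σ, hcb τ, ← hg']
      have e1 : r (σ * τ) * ((r τ)⁻¹ * z σ * r τ * z τ) = r σ * z σ * g' := by
        rw [map_mul, hg']
        group
      have e2 : (1 : Matrix I I (ZMod p)) + (b'' + b τ + b'' * b τ) = (1 + b'') * (1 + b τ) := by
        noncomm_ring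
      have e3 : u g' * (1 + b'') = (1 + b σ) * u g' := by
        rw [hb'', mul_add, mul_one, ← mul_assoc, ← mul_assoc, ap_inv', one_mul, add_mul, one_mul]
      rw [e1, e2, map_mul u (r σ * z σ) g', mul_assoc (u (r σ * z σ)), ← mul_assoc (u g'), e3]
      simp only [mul_assoc]
    have h4 := hlam _ (cz_wd hu hm hzz (hz _) hBJ (hbJ _) h3)
    rw [map_sub, map_add, map_add, hlam _ (JJ_mem_CZ h2), add_zero, sub_eq_zero] at h4
    have h5 := hlam _ (JJ_mem_CZ h1)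
    rw [map_sub, sub_eq_zero] at h5
    rw [← h4, h5]
  · have h1 : u (1 * (r σ * z σ)) * (1 + b σ) = u (1 * 1) * (1 + 0) := by
      rw [one_mul, ← hcb, hc, one_mul, map_one, add_zero, one_mul]
    have h2 := hlam _ (cz_wd hu hm (mul_mem hσ (hz σ)) (one_mem Z) (hbJ σ) JJ.zero h1)
    rwa [sub_zero] at h2

/-- start of the approximation -/
theorem appr_one (hu : Rep p d u) {S : Type*} [Group S] (r : S → Γ)
    (c : S → Matrix I I (ZMod p)) (hc : ∀ σ, JJ d 1 (c σ - 1)) : Appr d u Z r 1 c := by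
  intro σ
  exact ⟨1, one_mem Z, uni_mul (hu.one _) (hc σ)⟩

/-- end of the approximation -/
theorem appr_end (hu : Rep p d u) {S : Type*} [Group S] (r : S → Γ)
    (c : S → Matrix I I (ZMod p)) (h : Appr d u Z r p c) :
    ∀ σ, ∃ z ∈ Z, c σ = u (r σ * z) := by
  intro σ
  obtain ⟨z, hz, h1⟩ := h σ
  refine ⟨z, hz, ?_⟩
  have h2 := JJ.eq_zero hu.lt h1
  rw [sub_eq_zero] at h2
  have h3 : u (r σ * z) * (u ((r σ * z)⁻¹) * c σ) = u (r σ * z) * 1 := by rw [h2]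
  rwa [← mul_assoc, ap_inv', one_mul, mul_one] at h3

end BAC
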