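import Pool.Agent.BAC.Defs

/-!
BAC / H1 (blueprint, conventions). Fields attached to homomorphisms of the Galois group.

`Ω / K` is Galois (`IsSepClosure` : normal and separable; `IsGalois K Ω`). `mem_of_fx`: Galois
correspondence: for `E` finite or not, `a ∈ Ω` fixed by all `σ` fixing `E` is in `E`
(`InfiniteGalois.fixedField_fixingSubgroup`, `IntermediateField.mem_fixedField_iff`; or: `Ω / E` is
Galois, so `a ∉ E` is moved by an automorphism of `Ω / E`). `exists_fx_lift`: for `E / K` finite Galois every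
automorphism of `E` lifts to `Ω` (`AlgEquiv.restrictNormalHom_surjective`).
`exists_fieldOf`: `F` finite Galois, `r` a hom trivial on `Fx F`: `r` factors through `Gal(F/K)`; `E :=` the elements
of `F` fixed by all `σ` with `r σ = 1` (a normal subgroup): Galois over `K`, `Fx E σ ↔ r σ = 1`: if `Fx E σ`, then
`σ|_F` is in the image of the kernel (Galois correspondence for `F / K`), so `r σ = 1`. The degree of `E` is
the order of `Gal(Ω/K) / ker r ≅ range r`.
`fieldOf_le`: `mem_of_fx`. `FieldOf.galois`: `E` with `FieldOf r E`: for `σ ∈ Gal`, `a ∈ E`: `σ a` is fixed by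
`ker r` (normal), so `σ a ∈ E`; `Ω/K` normal and `σ E ≤ E` for all `σ` implies `E / K` normal.
-/

namespace BAC

open IntermediateField

variable {k K Ω : Type*} [Field k] [Field K]
  [Field Ω] [Algebra k K] [Algebra K Ω] [Algebra k Ω] [IsScalarTower k K Ω] [IsSepClosure K Ω]

theorem isGalois_sepClosure : IsGalois K Ω := inferInstance

omit [IsSepClosure K Ω] in
private theorem fx_iff_mem {E : IntermediateField K Ω} {σ : Ω ≃ₐ[K] Ω} :
    Fx E σ ↔ σ ∈ E.fixingSubgroup := by
  rw [IntermediateField.mem_fixingSubgroup_iff]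
  rfl

theorem mem_of_fx {E : IntermediateField K Ω} {a : Ω} (h : ∀ σ : Ω ≃ₐ[K] Ω, Fx E σ → σ a = a) :
    a ∈ E := by
  rw [← InfiniteGalois.fixedField_fixingSubgroup E, IntermediateField.mem_fixedField_iff]
  intro σ hσ
  exact h σ (fx_iff_mem.2 hσ)

theorem le_of_fx {E E' : IntermediateField K Ω} (h : ∀ σ : Ω ≃ₐ[K] Ω, Fx E' σ → Fx E σ) :
    E ≤ E' := fun a ha => mem_of_fx fun σ hσ => h σ hσ a ha

theorem isGalois_of_stable {E : IntermediateField K Ω}
    (h : ∀ (σ : Ω ≃ₐ[K] Ω), ∀ a ∈ E, σ a ∈ E) : IsGalois K E := by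
  have hn : Normal K E := by
    rw [IntermediateField.normal_iff_forall_map_le']
    rintro σ _ ⟨a, ha, rfl⟩
    exact h σ a ha
  have hs : Algebra.IsSeparable K E := Algebra.isSeparable_tower_bot_of_isSeparable K E Ω
  exact ⟨⟩

theorem stable_of_isGalois {E : IntermediateField K Ω} [IsGalois K E] (σ : Ω ≃ₐ[K] Ω) {a : Ω}
    (ha : a ∈ E) : σ a ∈ E := by
  have hn : Normal K E := inferInstance
  rw [IntermediateField.normal_iff_forall_map_le'] at hn
  exact hn σ ⟨a, ha, rfl⟩

theorem fx_sup {E E' : IntermediateField K Ω} {σ : Ω ≃ₐ[K] Ω} :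
    Fx (E ⊔ E') σ ↔ Fx E σ ∧ Fx E' σ := by
  rw [fx_iff_mem, fx_iff_mem, fx_iff_mem, IntermediateField.fixingSubgroup_sup, Subgroup.mem_inf]

theorem fx_adjoin {s : Set Ω} {σ : Ω ≃ₐ[K] Ω} :
    Fx (IntermediateField.adjoin K s) σ ↔ ∀ a ∈ s, σ a = a := by
  constructor
  · intro h a ha
    exact h a (IntermediateField.subset_adjoin K s ha)
  · intro h a ha
    have h1 : IntermediateField.adjoin K s ≤
        IntermediateField.fixedField (Subgroup.zpowers σ) := by
      rw [IntermediateField.adjoin_le_iff]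
      intro b hb
      change b ∈ IntermediateField.fixedField (Subgroup.zpowers σ)
      rw [IntermediateField.mem_fixedField_iff]
      intro τ hτ
      have h2 : Subgroup.zpowers σ ≤ MulAction.stabilizer (Ω ≃ₐ[K] Ω) b := by
        rw [Subgroup.zpowers_le]
        exact h b hb
      exact h2 hτ
    have h3 := h1 ha
    rw [IntermediateField.mem_fixedField_iff] at h3
    exact h3 σ (Subgroup.mem_zpowers σ)

theorem FieldOf.galois {G : Type*} [Group G] {r : (Ω ≃ₐ[K] Ω) →* G}
    {E : IntermediateField K Ω} (h : FieldOf r E) : IsGalois K E := by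
  apply isGalois_of_stable
  intro σ a ha
  apply mem_of_fx
  intro τ hτ
  have h1 : r (σ⁻¹ * τ * σ) = 1 := by
    rw [map_mul, map_mul, (h τ).2 hτ, mul_one, ← map_mul, inv_mul_cancel, map_one]
  have h2 := (h _).1 h1 a ha
  have h3 : (σ⁻¹ * τ * σ) a = σ.symm (τ (σ a)) := rfl
  rw [h3] at h2
  have h4 := congrArg σ h2
  rwa [AlgEquiv.apply_symm_apply] at h4

omit [IsSepClosure K Ω] in
private theorem FieldOf.ker_eq {G : Type*} [Group G] {r : (Ω ≃ₐ[K] Ω) →* G}
    {E : IntermediateField K Ω} [Normal K E] (h : FieldOf r E) :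
    (AlgEquiv.restrictNormalHom (F := K) (K₁ := Ω) E).ker = r.ker := by
  rw [IntermediateField.restrictNormalHom_ker]
  ext σ
  rw [← fx_iff_mem, MonoidHom.mem_ker]
  exact (h σ).symm

theorem FieldOf.finrank {G : Type*} [Group G] {r : (Ω ≃ₐ[K] Ω) →* G}
    {E : IntermediateField K Ω} [FiniteDimensional K E] (h : FieldOf r E) :
    Module.finrank K E = Nat.card r.range := by
  have hg : IsGalois K E := h.galois
  rw [← IsGalois.card_aut_eq_finrank K E]
  exact Nat.card_congr ((QuotientGroup.quotientKerEquivOfSurjective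
    (AlgEquiv.restrictNormalHom (F := K) (K₁ := Ω) E)
    (AlgEquiv.restrictNormalHom_surjective Ω)).symm.trans
    ((QuotientGroup.quotientMulEquivOfEq h.ker_eq).trans
      (QuotientGroup.quotientKerEquivRange r))).toEquiv

/-- a surjective hom with field `E` identifies `Gal(E/K)` -/
theorem FieldOf.gal_equiv {G : Type*} [Group G] {r : (Ω ≃ₐ[K] Ω) →* G}
    (hr : Function.Surjective r) {E : IntermediateField K Ω} [FiniteDimensional K E]
    [Normal K E] (h : FieldOf r E) :
    ∃ e : (E ≃ₐ[K] E) ≃* G, ∀ σ : Ω ≃ₐ[K] Ω, e (σ.restrictNormal E) = r σ := by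
  let e1 := QuotientGroup.quotientKerEquivOfSurjective
    (AlgEquiv.restrictNormalHom (F := K) (K₁ := Ω) E) (AlgEquiv.restrictNormalHom_surjective Ω)
  have he1 : ∀ σ : Ω ≃ₐ[K] Ω, e1 (QuotientGroup.mk σ) = σ.restrictNormal E := fun σ => rfl
  refine ⟨e1.symm.trans ((QuotientGroup.quotientMulEquivOfEq h.ker_eq).trans
    (QuotientGroup.quotientKerEquivOfSurjective r hr)), fun σ => ?_⟩
  rw [← he1, MulEquiv.trans_apply, MulEquiv.symm_apply_apply]
  rfl

theorem exists_fieldOf {G : Type*} [Group G] (r : (Ω ≃ₐ[K] Ω) →* G) (F : IntermediateField K Ω)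
    [FiniteDimensional K F] [IsGalois K F] (hr : ∀ σ, Fx F σ → r σ = 1) :
    ∃ E : IntermediateField K Ω, E ≤ F ∧ IsGalois K E ∧ FieldOf r E ∧
      Module.finrank K E = Nat.card r.range := by
  let E : IntermediateField K Ω := IntermediateField.fixedField r.ker
  have hmem : ∀ a, a ∈ E ↔ ∀ σ, r σ = 1 → σ a = a := by
    intro a
    change a ∈ IntermediateField.fixedField r.ker ↔ _
    rw [IntermediateField.mem_fixedField_iff]
    rfl
  have hEF : E ≤ F := by
    intro a ha
    apply mem_of_fx
    intro σ hσ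
    exact (hmem a).1 ha σ (hr σ hσ)
  have hfo : FieldOf r E := by
    intro σ
    constructor
    · intro h a ha
      exact (hmem a).1 ha σ h
    · intro h
      let H' := Subgroup.map (AlgEquiv.restrictNormalHom (F := K) (K₁ := Ω) F) r.ker
      have h1 : AlgEquiv.restrictNormalHom (F := K) (K₁ := Ω) F σ ∈ H' := by
        rw [← IntermediateField.fixingSubgroup_fixedField H',
          IntermediateField.mem_fixingSubgroup_iff]
        intro x hx
        rw [IntermediateField.mem_fixedField_iff] at hx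
        apply Subtype.ext
        rw [AlgEquiv.restrictNormalHom_apply]
        apply h
        rw [hmem]
        intro τ hτ
        have h2 := hx (AlgEquiv.restrictNormalHom (F := K) (K₁ := Ω) F τ) ⟨τ, hτ, rfl⟩
        have h3 := congrArg (fun y : F => (y : Ω)) h2
        rwa [AlgEquiv.restrictNormalHom_apply] at h3
      obtain ⟨τ, hτ, hτσ⟩ := h1
      have h4 : Fx F (τ⁻¹ * σ) := by
        intro a ha
        have h5 : ((AlgEquiv.restrictNormalHom (F := K) (K₁ := Ω) F τ) ⟨a, ha⟩ : F) =
            ((AlgEquiv.restrictNormalHom (F := K) (K₁ := Ω) F σ) ⟨a, ha⟩ : F) := by rw [hτσ]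
        have h6 := congrArg (fun y : F => (y : Ω)) h5
        rw [AlgEquiv.restrictNormalHom_apply, AlgEquiv.restrictNormalHom_apply] at h6
        change τ.symm (σ a) = a
        rw [← h6]
        exact AlgEquiv.symm_apply_apply τ a
      have h7 := hr _ h4
      rw [map_mul, map_inv, (show r τ = 1 from hτ), inv_one, one_mul] at h7
      exact h7
  have hfin : FiniteDimensional K E :=
    FiniteDimensional.of_injective (IntermediateField.inclusion hEF).toLinearMap
      (IntermediateField.inclusion_injective hEF)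
  exact ⟨E, hEF, hfo.galois, hfo, hfo.finrank⟩

end BAC
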