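import Pool.Agent.BAC.LangSolve
import Pool.Agent.BAC.HomField

/-!
BAC / L2 (blueprint 4.5). Changing a Lang torsor at level `m`.

`V` = the submodule of `b` with `JJ d m b`. Choose (`exists_dual`) `b_1, ..., b_r` with `JJ d m (b_s)` and functionals
`lam_1, ..., lam_r` on all matrices, vanishing on `Cc`, such that `lam_s (b_t) = δ_st` and
`M - ∑ lam_s (M) b_s ∈ Cc` for all `M` with `JJ d m M`. (A basis of the image of `V` in `Mat / Cc`, its dual
basis extended to `Mat / Cc`, representatives in `V`.)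
By `hlin`: `e_s ∈ k`, `w_s ∈ Ω` with `w_s ^ p - w_s = e_s x`, `σ w_s = w_s + lam_s (β σ)`.
`E = ∑ e_s b_s` (over `k`), `h = ∑ w_s b_s` (over `Ω`; `b_s` cast by `toM`), `Fr h - h = x E`
(`Fr_smul`, `Fr_toM`), `JJ d m h`, `JJ d m E`. `Dm' = Dm + E`.
`a := Ex (x Dm)`, `a' := Ex (x Dm')`, `a' = a + x E` mod `JJ d (m+1)` (`Ex_mod`). `u := g⁻¹ a⁻¹ a' g`: mod
`JJ d (m+1)`: `a⁻¹ a' = 1 + a⁻¹ (x E) = 1 + x E` (`uni_mul_mod`), `u = 1 + x E` (`conj_mod`).
`u₂ := (Fr (1 + h))⁻¹ u (1 + h)`: `u (1 + h) - Fr (1 + h) = (1 + xE)(1 + h) - 1 - Fr h = x E + h - Fr h + x E h = 0`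
mod `JJ d (m+1)` (`m ≥ 1`), so `u₂ = 1` mod `JJ d (m+1)`. `lang_solve` (level `m + 1`): `Y`, `JJ d (m+1) (Y - 1)`,
`Fr Y = u₂ Y`. `X = (1 + h) Y`: `Fr X = Fr (1+h) u₂ Y = u X`. `g' = g X`: `Fr g' = a g u X = a' g X = a' g'`.
`exists_lang`: `c'`. `toM (c' σ) = g'⁻¹ (g'.map σ) = X⁻¹ (toM (c σ)) (X.map σ)
= toM (c σ) (1 - h + h.map σ + JJ d (m+1))`, and `h.map σ - h = toM (∑ lam_s (β σ) b_s)`, `= β σ` mod `Cc`.
So over `F_p` (`JJ_toM`, `toM_inj`): `(c σ)⁻¹ c' σ - 1 - ∑ lam_s (β σ) b_s ∈ JJ d (m+1) ≤ Cc`; the difference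
`t = (c σ)⁻¹ c' σ - 1 - β σ` is in `Cc`.
-/

namespace BAC

open IntermediateField

section

variable {p : ℕ} [hp : Fact p.Prime] {I : Type*} [Fintype I] [DecidableEq I] {d : I → ℕ}

private theorem lst_Fr_sum {A : Type*} [Field A] [CharP A p] {ι : Type*} (s : Finset ι)
    (f : ι → Matrix I I A) : Fr p (∑ i ∈ s, f i) = ∑ i ∈ s, Fr p (f i) := by
  classical
  induction s using Finset.induction_on with
  | empty =>
    rw [Finset.sum_empty, Finset.sum_empty]
    ext i j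
    change (0 : A) ^ p = 0
    exact zero_pow hp.out.ne_zero
  | insert a s ha ih => rw [Finset.sum_insert ha, Finset.sum_insert ha, Fr_add, ih]

private theorem lst_toM_sum {A : Type*} [Field A] [CharP A p] {ι : Type*} (s : Finset ι)
    (f : ι → Matrix I I (ZMod p)) : toM p A (∑ i ∈ s, f i) = ∑ i ∈ s, toM p A (f i) := by
  classical
  induction s using Finset.induction_on with
  | empty =>
    rw [Finset.sum_empty, Finset.sum_empty]
    ext i j
    change (((0 : ZMod p).val : ℕ) : A) = 0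
    rw [ZMod.val_zero, Nat.cast_zero]
  | insert a s ha ih => rw [Finset.sum_insert ha, Finset.sum_insert ha, toM_add, ih]

private theorem lst_toM_smul {A : Type*} [Field A] [CharP A p] (a : ZMod p)
    (M : Matrix I I (ZMod p)) : toM p A (a • M) = ((a.val : ℕ) : A) • toM p A M := by
  ext i j
  exact val_mul_cast a (M i j)

private theorem map_toM_sum {A A' : Type*} [Field A] [CharP A p] [Field A'] [CharP A' p]
    {f : A →+* A'} {ι : Type*} {s : Finset ι} {e : ι → A} {b : ι → Matrix I I (ZMod p)} :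
    (∑ i ∈ s, e i • toM p A (b i)).map f = ∑ i ∈ s, f (e i) • toM p A' (b i) := by
  ext i j
  rw [Matrix.map_apply, Matrix.sum_apply, Matrix.sum_apply, map_sum]
  refine Finset.sum_congr rfl fun s _ => ?_
  rw [Matrix.smul_apply, Matrix.smul_apply, smul_eq_mul, smul_eq_mul, map_mul]
  congr 1
  exact map_natCast f _

theorem exists_dual {m : ℕ} (Cc : Submodule (ZMod p) (Matrix I I (ZMod p)))
    (hC2 : ∀ M ∈ Cc, JJ d m M) :
    ∃ (r : ℕ) (b : Fin r → Matrix I I (ZMod p))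
      (lam : Fin r → (Matrix I I (ZMod p) →ₗ[ZMod p] ZMod p)),
      (∀ s, JJ d m (b s)) ∧ (∀ s, ∀ M ∈ Cc, lam s M = 0) ∧
      ∀ M, JJ d m M → M - ∑ s, lam s M • b s ∈ Cc := by
  classical
  set V : Submodule (ZMod p) (Matrix I I (ZMod p)) :=
    { carrier := {M | JJ d m M}
      add_mem' := fun hM hN => JJ.add hM hN
      zero_mem' := JJ.zero
      smul_mem' := fun a M hM => JJ.smul a hM } with hV
  set W := V.map Cc.mkQ with hW
  set B := Module.finBasis (ZMod p) W with hB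
  have h1 : ∀ s, ∃ b : Matrix I I (ZMod p), JJ d m b ∧ Cc.mkQ b = (B s : _ ⧸ Cc) := by
    intro s
    obtain ⟨b, hb, hb'⟩ := (B s).2
    exact ⟨b, hb, hb'⟩
  choose b hb hb' using h1
  have h2 : ∀ s, ∃ g : (Matrix I I (ZMod p) ⧸ Cc) →ₗ[ZMod p] ZMod p,
      g.comp W.subtype = B.coord s := fun s => LinearMap.exists_extend (B.coord s)
  choose g hg using h2
  refine ⟨_, b, fun s => (g s).comp Cc.mkQ, hb, fun s M hM => ?_, fun M hM => ?_⟩
  · rw [LinearMap.comp_apply, Submodule.mkQ_apply, (Submodule.Quotient.mk_eq_zero Cc).2 hM,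
      map_zero]
  · rw [← Submodule.Quotient.mk_eq_zero, ← Submodule.mkQ_apply, map_sub, map_sum, sub_eq_zero]
    have hMW : Cc.mkQ M ∈ W := ⟨M, hM, rfl⟩
    have h3 := congrArg (W.subtype) (B.sum_repr ⟨Cc.mkQ M, hMW⟩)
    rw [map_sum] at h3
    refine (Eq.trans ?_ h3).symm
    refine Finset.sum_congr rfl fun s _ => ?_
    rw [map_smul, map_smul, hb', LinearMap.comp_apply]
    congr 1
    exact LinearMap.congr_fun (hg s) ⟨Cc.mkQ M, hMW⟩

end

variable {p : ℕ} [hp : Fact p.Prime] {k K Ω : Type*} [Field k] [Field K]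
  [Field Ω] [Algebra k K] [Algebra K Ω] [Algebra k Ω] [IsScalarTower k K Ω] [CharP k p]
  [CharP K p] [CharP Ω p] [IsSepClosure K Ω] {x : K}
  {I : Type*} [Fintype I] [DecidableEq I] {d : I → ℕ}

theorem lang_step (hd : ∀ i, d i < p)
    {Dm : Matrix I I k} {g : Matrix I I Ω} {c : (Ω ≃ₐ[K] Ω) →* Matrix I I (ZMod p)}
    (hL : Lang p x d Dm g c) {m : ℕ} (hm : 1 ≤ m)
    (Cc : Submodule (ZMod p) (Matrix I I (ZMod p))) (hC1 : ∀ M, JJ d (m + 1) M → M ∈ Cc)
    (hC2 : ∀ M ∈ Cc, JJ d m M) (β : (Ω ≃ₐ[K] Ω) → Matrix I I (ZMod p))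
    (hβ : ∀ σ, JJ d m (β σ))
    (hlin : ∀ lam : Matrix I I (ZMod p) →ₗ[ZMod p] ZMod p, (∀ M ∈ Cc, lam M = 0) →
      LinC (k := k) p x (fun σ => lam (β σ))) :
    ∃ (Dm' : Matrix I I k) (g' : Matrix I I Ω) (c' : (Ω ≃ₐ[K] Ω) →* Matrix I I (ZMod p)),
      Lang p x d Dm' g' c' ∧ ∀ σ, ∃ t ∈ Cc, c' σ = c σ * (1 + β σ + t) := by
  classical
  have hsc : IsSepClosed Ω := IsSepClosure.sep_closed K
  obtain ⟨r, b, lam, hb, hlamC, hdual⟩ := exists_dual (m := m) Cc hC2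
  choose e w hw1 hw2 using fun s => hlin (lam s) (hlamC s)
  set X0 : Ω := algebraMap K Ω x with hX0
  set E : Matrix I I k := ∑ s, e s • toM p k (b s) with hE
  set h : Matrix I I Ω := ∑ s, w s • toM p Ω (b s) with hh
  set M0 : Matrix I I Ω := X0 • Dm.map (algebraMap k Ω) with hM0
  set N : Matrix I I Ω := X0 • E.map (algebraMap k Ω) with hN
  have hEJ : JJ d m E := JJ.sum _ _ fun s _ => (JJ_toM.2 (hb s)).smul _
  have hhJ : JJ d m h := JJ.sum _ _ fun s _ => (JJ_toM.2 (hb s)).smul _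
  have hNJ : JJ d m N := (hEJ.map (algebraMap k Ω) (map_zero _)).smul _
  have hM0J : JJ d 1 M0 := (hL.hD.map (algebraMap k Ω) (map_zero _)).smul _
  have hNh : Fr p h - h = N := by
    rw [hN, hE, hh, lst_Fr_sum, ← Finset.sum_sub_distrib]
    have h1 : (∑ s, e s • toM p k (b s)).map (algebraMap k Ω) =
        ∑ s, algebraMap k Ω (e s) • toM p Ω (b s) := by
      rw [← map_toM_sum (p := p) (f := algebraMap k Ω)]
    rw [h1, Finset.smul_sum]
    refine Finset.sum_congr rfl fun s _ => ?_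
    rw [Fr_smul, Fr_toM, ← sub_smul, hw1, smul_smul, mul_comm]
  have hD' : JJ d 1 (Dm + E) := hL.hD.add (JJ.mono hm hEJ)
  have hDm' : X0 • (Dm + E).map (algebraMap k Ω) = M0 + N := by
    rw [Matrix.map_add _ (map_add (algebraMap k Ω)), smul_add]
  set a : Matrix I I Ω := Ex p M0 with ha
  set a' : Matrix I I Ω := Ex p (M0 + N) with ha'
  have haJ : JJ d 1 (a - 1) := Ex_uni le_rfl hM0J
  have hmod : JJ d (m + 1) (a' - a - N) := Ex_mod hm hM0J hNJ
  have hgJ : JJ d 1 (g - 1) := hL.hg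
  have hai := uni_inv_mul hd haJ
  have hai' := uni_mul_inv hd haJ
  have hgi := uni_inv_mul hd hgJ
  have hgi' := uni_mul_inv hd hgJ
  have haiJ : JJ d 1 (a⁻¹ - 1) := uni_inv hd le_rfl haJ
  set P : Matrix I I Ω := a⁻¹ * a' - 1 with hP
  have hP1 : JJ d (m + 1) (P - N) := by
    have h1 : P - N = a⁻¹ * (a' - a - N) + (a⁻¹ * N - N) := by
      rw [hP, mul_sub, mul_sub, hai]
      abel
    rw [h1]
    have h2 := (JJ.zero_of_uni haiJ).mul hmod
    rw [zero_add] at h2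
    exact h2.add (uni_mul_mod haiJ hNJ)
  have hPJ : JJ d m P := by
    have h1 : P = (P - N) + N := by abel
    rw [h1]
    exact (JJ.mono (Nat.le_succ m) hP1).add hNJ
  set u : Matrix I I Ω := g⁻¹ * (a⁻¹ * a') * g with hu
  have hu1 : u - 1 = g⁻¹ * P * g := by
    rw [hu, hP, mul_sub, sub_mul, mul_one, hgi]
  have huN : JJ d (m + 1) (u - 1 - N) := by
    have h1 : u - 1 - N = (g⁻¹ * P * g - P) + (P - N) := by
      rw [hu1]
      abel
    rw [h1]
    exact (conj_mod hd hgJ hPJ).1.add hP1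
  have huJ : JJ d m (u - 1) := by
    have h1 : u - 1 = (u - 1 - N) + N := by abel
    rw [h1]
    exact (JJ.mono (Nat.le_succ m) huN).add hNJ
  have h1hJ : JJ d m (1 + h - 1) := by
    rw [add_sub_cancel_left]
    exact hhJ
  have hFJ : JJ d m (Fr p (1 + h) - 1) := uni_Fr h1hJ
  have hFJ1 : JJ d 1 (Fr p (1 + h) - 1) := JJ.mono hm hFJ
  have hFi := uni_inv_mul hd hFJ1
  have hFi' := uni_mul_inv hd hFJ1
  set F : Matrix I I Ω := Fr p (1 + h) with hF
  set u₂ : Matrix I I Ω := F⁻¹ * u * (1 + h) with hu₂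
  have hu₂J : JJ d (m + 1) (u₂ - 1) := by
    have h1 : u₂ - 1 = F⁻¹ * ((u - 1 - N) + (u - 1) * h) := by
      have h2 : (u - 1 - N) + (u - 1) * h = u * (1 + h) - F := by
        rw [hF, Fr_add, Fr_one, ← hNh]
        noncomm_ring
      rw [h2, mul_sub, hFi, ← mul_assoc]
    rw [h1]
    have h3 := (JJ.zero_of_uni (uni_inv hd le_rfl hFJ1)).mul
      (huN.add (JJ.mono (by omega : m + 1 ≤ m + m) (huJ.mul hhJ)))
    rw [zero_add] at h3
    exact h3
  obtain ⟨Y, hYJ, hY⟩ := lang_solve hd (Nat.le_add_left 1 m) hu₂J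
  set X : Matrix I I Ω := (1 + h) * Y with hX
  have hXh : JJ d (m + 1) (X - 1 - h) := by
    have h1 : X - 1 - h = (1 + h) * (Y - 1) := by
      rw [hX, mul_sub, mul_one]
      abel
    rw [h1]
    have h2 := (JJ.zero_of_uni h1hJ).mul hYJ
    rw [zero_add] at h2
    exact h2
  have hXJ : JJ d m (X - 1) := by
    have h1 : X - 1 = (X - 1 - h) + h := by abel
    rw [h1]
    exact (JJ.mono (Nat.le_succ m) hXh).add hhJ
  have hFX : Fr p X = u * X := by
    rw [hX, Fr_mul, hY, hu₂, ← hF, ← mul_assoc, ← mul_assoc, ← mul_assoc, hFi', one_mul,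
      mul_assoc]
  have hg'J : JJ d 1 (g * X - 1) := uni_mul hgJ (JJ.mono hm hXJ)
  have hFg' : Fr p (g * X) = Ex p (X0 • (Dm + E).map (algebraMap k Ω)) * (g * X) := by
    rw [hDm', ← ha', Fr_mul, hFX, hL.eq, ← hX0, ← hM0, ← ha, hu]
    calc a * g * (g⁻¹ * (a⁻¹ * a') * g * X) = a * (g * g⁻¹) * (a⁻¹ * a') * g * X := by
          simp only [mul_assoc]
      _ = (a * a⁻¹) * a' * g * X := by rw [hgi', mul_one]; simp only [mul_assoc]
      _ = a' * (g * X) := by rw [hai', one_mul, mul_assoc]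
  obtain ⟨c', hL'⟩ := exists_lang hd hD' hg'J hFg'
  refine ⟨Dm + E, g * X, c', hL', fun σ => ?_⟩
  -- comparison
  set f : Ω →+* Ω := (σ : Ω →+* Ω) with hf
  have hfσ : ∀ M : Matrix I I Ω, M.map σ = M.map f := fun M => rfl
  set C : Matrix I I Ω := toM p Ω (c σ) with hC
  set C' : Matrix I I Ω := toM p Ω (c' σ) with hC'
  set B : Matrix I I (ZMod p) := ∑ s, lam s (β σ) • b s with hB
  have hCJ : JJ d 1 (C - 1) := by
    rw [hC, ← toM_one (p := p), ← toM_sub]
    exact JJ_toM.2 (hL.hc σ)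
  have hCJ' : JJ d 1 (C' - 1) := by
    rw [hC', ← toM_one (p := p), ← toM_sub]
    exact JJ_toM.2 (hL'.hc σ)
  have hXC : X * C' = C * X.map f := by
    have h1 := hL'.gal σ
    rw [hfσ, Matrix.map_mul, ← hfσ g, hL.gal σ] at h1
    have h2 := congrArg (fun M => g⁻¹ * M) h1
    simp only [← mul_assoc] at h2
    rw [hgi, one_mul, one_mul] at h2
    exact h2.symm
  have hhf : h.map f - h = toM p Ω B := by
    have h1 : h.map f = ∑ s, σ (w s) • toM p Ω (b s) := by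
      exact map_toM_sum (p := p) (f := f) (s := Finset.univ) (e := w) (b := b)
    rw [h1, hh, ← Finset.sum_sub_distrib, hB, lst_toM_sum]
    refine Finset.sum_congr rfl fun s _ => ?_
    rw [hw2, add_smul, add_sub_cancel_left, lst_toM_smul]
  have hXf : JJ d (m + 1) (X.map f - 1 - h.map f) := by
    have h1 : X.map f - 1 - h.map f = (X - 1 - h).map f := by
      have h2 : (1 : Matrix I I Ω).map f = 1 := Matrix.map_one f (map_zero f) (map_one f)
      rw [Matrix.map_sub f (map_sub f), Matrix.map_sub f (map_sub f), h2]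
    rw [h1]
    exact hXh.map f (map_zero f)
  have hhfJ : JJ d m (h.map f) := hhJ.map f (map_zero f)
  have hXfJ : JJ d m (X.map f - 1) := by
    have h1 : X.map f - 1 = (X.map f - 1 - h.map f) + h.map f := by abel
    rw [h1]
    exact (JJ.mono (Nat.le_succ m) hXf).add hhfJ
  have hdiff : JJ d (m + 1) (C' - C - toM p Ω B) := by
    have h1 : C' - C - toM p Ω B = (C * (X.map f - 1) - (X.map f - 1)) -
        ((X - 1) * C' - (X - 1)) + (X.map f - 1 - h.map f) - (X - 1 - h) := by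
      rw [← hhf, mul_sub, sub_mul, ← hXC]
      noncomm_ring
    rw [h1]
    exact (((uni_mul_mod hCJ hXfJ).sub (mul_uni_mod hCJ' hXJ)).add hXf).sub hXh
  have hdiff' : JJ d (m + 1) (c' σ - c σ - B) := by
    rw [hC, hC', ← toM_sub, ← toM_sub] at hdiff
    exact JJ_toM.1 hdiff
  have hBJ : JJ d m B := JJ.sum _ _ fun s _ => (hb s).smul _
  have hcJ := hL.hc σ
  have hci := uni_inv_mul hd hcJ
  have hci' := uni_mul_inv hd hcJ
  have hciJ : JJ d 1 ((c σ)⁻¹ - 1) := uni_inv hd le_rfl hcJ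
  refine ⟨(c σ)⁻¹ * c' σ - 1 - β σ, ?_, ?_⟩
  · have h1 : (c σ)⁻¹ * c' σ - 1 - β σ =
        ((c σ)⁻¹ * (c' σ - c σ - B) + ((c σ)⁻¹ * B - B)) - (β σ - B) := by
      rw [mul_sub, mul_sub, hci]
      abel
    rw [h1]
    refine sub_mem (hC1 _ ?_) (hdual _ (hβ σ))
    have h2 := (JJ.zero_of_uni hciJ).mul hdiff'
    rw [zero_add] at h2
    exact h2.add (uni_mul_mod hciJ hBJ)
  · have h1 : (1 : Matrix I I (ZMod p)) + β σ + ((c σ)⁻¹ * c' σ - 1 - β σ) =
        (c σ)⁻¹ * c' σ := by abel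
    rw [h1, ← mul_assoc, hci', one_mul]

end BAC
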