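import Pool.Agent.BAC.Appr
import Pool.Agent.BAC.LStep

/-!
BAC / S2 (blueprint 5.1, 5.2). One approximation step.

`lang_step` with `Cc = CZ d u Z m`, `β = - b` (`lam (- b σ) = (- lam) (b σ)`, `- lam` kills `CZ` too, so `hlin` for
`- lam`). `c' σ = c σ (1 - b σ + t) = u (r σ z) (1 + b σ) (1 - b σ + t) = u (r σ z) (1 + t')`, `t' = t` mod
`JJ d (m+1)` (`uni_prod_mod`); by `mem_CZ` there is `z' ∈ Z` with `u z' = 1 + t'` mod `JJ d (m+1)`, so
`u (z'⁻¹) (1 + t') = 1` mod `JJ d (m+1)` (`u z'⁻¹ * u z' = 1`), and `u ((r σ z z')⁻¹) c' σ = u (z'⁻¹) (1 + t')`.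
Last claim: `c' σ - c σ = c σ (- b σ + t) ∈ JJ d m` (`hL.hc`, `mem_CZ`).
-/

namespace BAC

open IntermediateField

variable {p : ℕ} [hp : Fact p.Prime] {k K Ω : Type*} [Field k] [Field K]
  [Field Ω] [Algebra k K] [Algebra K Ω] [Algebra k Ω] [IsScalarTower k K Ω] [CharP k p]
  [CharP K p] [CharP Ω p] [IsSepClosure K Ω] {x : K}
  {I : Type*} [Fintype I] [DecidableEq I] {d : I → ℕ} {Γ : Type*} [Group Γ]
  {u : Γ →* Matrix I I (ZMod p)} {Z : Subgroup Γ}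

theorem appr_step (hu : Rep p d u)
    {Dm : Matrix I I k} {g : Matrix I I Ω} {c : (Ω ≃ₐ[K] Ω) →* Matrix I I (ZMod p)}
    (hL : Lang p x d Dm g c) (r : (Ω ≃ₐ[K] Ω) →* Γ) {m : ℕ} (hm : 1 ≤ m)
    (b : (Ω ≃ₐ[K] Ω) → Matrix I I (ZMod p)) (hb : ∀ σ, JJ d m (b σ))
    (hcb : ∀ σ, ∃ z ∈ Z, c σ = u (r σ * z) * (1 + b σ))
    (hlin : ∀ lam : Matrix I I (ZMod p) →ₗ[ZMod p] ZMod p, (∀ M ∈ CZ d u Z m, lam M = 0) →
      LinC (k := k) p x (fun σ => lam (b σ))) :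
    ∃ (Dm' : Matrix I I k) (g' : Matrix I I Ω) (c' : (Ω ≃ₐ[K] Ω) →* Matrix I I (ZMod p)),
      Lang p x d Dm' g' c' ∧ Appr d u Z r (m + 1) c' ∧ ∀ σ, JJ d m (c' σ - c σ) := by
  obtain ⟨Dm', g', c', hL', h⟩ := lang_step (k := k) (K := K) (Ω := Ω) (x := x) hu.lt hL hm
    (CZ d u Z m) (fun M hM => JJ_mem_CZ hM) (fun M hM => ((mem_CZ hu hm).1 hM).1)
    (fun σ => - b σ) (fun σ => (hb σ).neg) (fun lam hlam => by
      have h1 := hlin (-lam) (fun M hM => by rw [LinearMap.neg_apply, hlam M hM, neg_zero])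
      have e : (fun σ => lam (- b σ)) = fun σ => (-lam) (b σ) := by
        funext σ
        rw [LinearMap.neg_apply, map_neg]
      rw [e]
      exact h1)
  refine ⟨Dm', g', c', hL', ?_, ?_⟩
  · intro σ
    obtain ⟨z, hz, hcz⟩ := hcb σ
    obtain ⟨t, ht, hct⟩ := h σ
    have ht1 : JJ d m t := ((mem_CZ hu hm).1 ht).1
    obtain ⟨t', ht'⟩ : ∃ t', t' = (1 + b σ) * (1 + - b σ + t) - 1 := ⟨_, rfl⟩
    have h1 : JJ d (m + 1) (t' - t) := by
      have h2 := uni_prod_mod (d := d) (g := 1 + b σ) (h := 1 + - b σ + t) hm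
        (by rw [add_sub_cancel_left]; exact hb σ)
        (by
          have e : 1 + - b σ + t - 1 = - b σ + t := by abel
          rw [e]
          exact (hb σ).neg.add ht1)
      have e : (1 + b σ) * (1 + - b σ + t) - 1 - (1 + b σ - 1) - (1 + - b σ + t - 1) = t' - t := by
        rw [ht']
        abel
      rw [e] at h2
      exact h2
    have h3 : t' ∈ CZ d u Z m := by
      have h4 := (CZ d u Z m).add_mem (JJ_mem_CZ (u := u) (Z := Z) h1) ht
      rw [sub_add_cancel] at h4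
      exact h4
    obtain ⟨-, z', hz', h5⟩ := (mem_CZ hu hm).1 h3
    refine ⟨z * z', Z.mul_mem hz hz', ?_⟩
    have e1 : u ((r σ * (z * z'))⁻¹) * c' σ = u z'⁻¹ * (1 + t') := by
      have e2 : (r σ * (z * z'))⁻¹ = z'⁻¹ * (r σ * z)⁻¹ := by group
      have e3 : u (r σ * z)⁻¹ * u (r σ * z) = 1 := by
        rw [← map_mul, inv_mul_cancel, map_one]
      rw [hct, hcz, e2, map_mul]
      calc u z'⁻¹ * u (r σ * z)⁻¹ * (u (r σ * z) * (1 + b σ) * (1 + - b σ + t))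
          = u z'⁻¹ * (u (r σ * z)⁻¹ * u (r σ * z)) * ((1 + b σ) * (1 + - b σ + t)) := by
            simp only [mul_assoc]
        _ = u z'⁻¹ * (1 + t') := by
            rw [e3, ht', mul_one, add_sub_cancel]
    have e4 : u z'⁻¹ * (1 + t') - 1 = - (u z'⁻¹ * (u z' - 1 - t')) := by
      have e5 : u z'⁻¹ * u z' = 1 := by
        rw [← map_mul, inv_mul_cancel, map_one]
      rw [mul_sub, mul_sub, e5, mul_add, mul_one]
      abel
    rw [e1, e4]
    have h6 := (JJ.mul (JJ.zero_of_uni (hu.one z'⁻¹)) h5).neg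
    rw [zero_add] at h6
    exact h6
  · intro σ
    obtain ⟨t, ht, hct⟩ := h σ
    have ht1 : JJ d m t := ((mem_CZ hu hm).1 ht).1
    have e : c' σ - c σ = c σ * (- b σ + t) := by
      rw [hct, mul_add, mul_add, mul_add, mul_one]
      abel
    rw [e]
    have h6 := JJ.mul (JJ.zero_of_uni (hL.hc σ)) ((hb σ).neg.add ht1)
    rw [zero_add] at h6
    exact h6

end BAC
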