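import Pool.Agent.BAC.Defs

/-!
BAC / A6. The base level `K = k(x)` with `κ = -1`.

`B.lev : IsLevel p k x 0 0 vK`, `vK x = exp 1`. Every `a ∈ K` is a quotient of polynomials in `x`
(`B.gen`: `IntermediateField.mem_adjoin_simple_iff` or `IntermediateField.adjoin_simple...`), and
`vK (aeval x q) = exp (natDegree q)` for `q ≠ 0` (`vK (x ^ i) = exp i`, constants have value `1`, distinct
values; or induction). `D (aeval x q) = aeval x (derivative q)` (`Derivation.map_aeval` and `D x = 1`), so
`vK (D (aeval x q)) ≤ exp (deg q - 1)`, and for `a = f/g`, `D a = (D f g - f D g)/g ^ 2`: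
`vK (D a) ≤ exp (-1) vK a`. Equality when `p ∤ j = deg f - deg g`: the leading coefficient of
`f' g - f g'` in degree `deg f + deg g - 1` is `(deg f - deg g) lc f lc g ≠ 0`.
`fin`, `gen`: `B.lev.dim` with `g = 0`: the subspace `S` has finrank `0`, so `S = ⊥` and every `a` is
`r + o`; hence `Wm k x vK 0 = ⊤` and the quotient is trivial: `2 * 0 = -1 + 1`.
-/

namespace BAC

open Polynomial WithZero Pool.Agent.Helper32

private theorem bl_val {p : ℕ} [hp : Fact p.Prime] {k K : Type*} [Field k] [Field K] [Algebra k K]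
    {x : K} {vK : VI K} (B : Base p k x vK) {q : k[X]} (hq : q ≠ 0) :
    vK (aeval x q) = exp (q.natDegree : ℤ) := by
  have hx : vK x = exp 1 := by
    have := B.lev.v_x
    rwa [pow_zero] at this
  have hxi : ∀ i : ℕ, vK (x ^ i) = exp (i : ℤ) := by
    intro i
    rw [map_pow, hx, ← exp_nsmul, nsmul_eq_mul, mul_one]
  rw [aeval_eq_sum_range, Finset.sum_range_succ]
  have h1 : vK (q.coeff q.natDegree • x ^ q.natDegree) = exp (q.natDegree : ℤ) := by
    rw [Algebra.smul_def, map_mul, B.lev.v_const _ (by
      rw [coeff_natDegree]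
      exact leadingCoeff_ne_zero.2 hq), one_mul, hxi]
  have h2 : vK (∑ i ∈ Finset.range q.natDegree, q.coeff i • x ^ i) < exp (q.natDegree : ℤ) := by
    refine Valuation.map_sum_lt _ exp_ne_zero fun i hi => ?_
    rw [Algebra.smul_def, map_mul]
    calc vK (algebraMap k K (q.coeff i)) * vK (x ^ i) ≤ 1 * vK (x ^ i) := by
          gcongr
          exact B.lev.v_const_le _
      _ = exp (i : ℤ) := by rw [one_mul, hxi]
      _ < exp (q.natDegree : ℤ) := by
          rw [exp_lt_exp]
          exact_mod_cast Finset.mem_range.1 hi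
  rw [Valuation.map_add_eq_of_lt_right _ (by rw [h1]; exact h2), h1]

private theorem bl_der {p : ℕ} [hp : Fact p.Prime] {k K : Type*} [Field k] [Field K] [Algebra k K]
    {x : K} {vK : VI K} (B : Base p k x vK) (D : Derivation k K K) (hD : D x = 1) (q : k[X]) :
    vK (D (aeval x q)) ≤ exp ((q.natDegree : ℤ) - 1) := by
  rw [Derivation.map_aeval, hD, smul_eq_mul, mul_one]
  by_cases h0 : derivative q = 0
  · rw [h0, map_zero, map_zero]
    exact zero_le
  · rw [bl_val B h0, exp_le_exp]
    have h1 : q.natDegree ≠ 0 := by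
      intro h
      rw [natDegree_eq_zero] at h
      obtain ⟨c, rfl⟩ := h
      exact h0 derivative_C
    have h2 := natDegree_derivative_lt h1
    omega

private theorem bl_le {p : ℕ} [hp : Fact p.Prime] {k K : Type*} [Field k] [Field K] [Algebra k K]
    {x : K} {vK : VI K} (B : Base p k x vK) (D : Derivation k K K) (hD : D x = 1) (a : K) :
    vK (D a) ≤ exp (-1) * vK a := by
  have ha : a ∈ IntermediateField.adjoin k {x} := by
    rw [B.gen]
    exact IntermediateField.mem_top
  obtain ⟨f, g, rfl⟩ := (IntermediateField.mem_adjoin_simple_iff _ _).1 ha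
  by_cases hg : g = 0
  · rw [hg, map_zero, div_zero, map_zero, map_zero]
    exact zero_le
  by_cases hf : f = 0
  · rw [hf, map_zero, zero_div, map_zero, map_zero]
    exact zero_le
  have hvg := bl_val B hg
  have hvf := bl_val B hf
  have hg0 : aeval x g ≠ 0 := by
    intro h
    rw [h, map_zero] at hvg
    exact exp_ne_zero hvg.symm
  have h1 : aeval x g * D (aeval x f / aeval x g) =
      D (aeval x f) - (aeval x f / aeval x g) * D (aeval x g) := by
    have h2 := D.leibniz (aeval x f / aeval x g) (aeval x g)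
    rw [div_mul_cancel₀ _ hg0, smul_eq_mul, smul_eq_mul] at h2
    rw [h2]
    ring
  have h3 : vK (aeval x g * D (aeval x f / aeval x g)) ≤ exp ((f.natDegree : ℤ) - 1) := by
    rw [h1]
    refine (Valuation.map_sub _ _ _).trans (max_le (bl_der B D hD f) ?_)
    rw [map_mul, map_div₀, hvf, hvg]
    calc exp (f.natDegree : ℤ) / exp (g.natDegree : ℤ) * vK (D (aeval x g)) ≤
          exp (f.natDegree : ℤ) / exp (g.natDegree : ℤ) * exp ((g.natDegree : ℤ) - 1) := by
          gcongr
          exact bl_der B D hD g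
      _ = exp ((f.natDegree : ℤ) - 1) := by
          rw [← exp_sub, ← exp_add]
          congr 1
          ring
  rw [map_mul, hvg] at h3
  have h5 : vK (aeval x f / aeval x g) = exp ((f.natDegree : ℤ) - (g.natDegree : ℤ)) := by
    rw [map_div₀, hvf, hvg, ← exp_sub]
  rw [h5, ← exp_add]
  have h4 : vK (D (aeval x f / aeval x g)) =
      exp (-(g.natDegree : ℤ)) * (exp (g.natDegree : ℤ) * vK (D (aeval x f / aeval x g))) := by
    rw [← mul_assoc, ← exp_add, neg_add_cancel, exp_zero, one_mul]
  rw [h4]
  calc exp (-(g.natDegree : ℤ)) * (exp (g.natDegree : ℤ) * vK (D (aeval x f / aeval x g))) ≤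
        exp (-(g.natDegree : ℤ)) * exp ((f.natDegree : ℤ) - 1) := by gcongr
    _ = exp (-1 + ((f.natDegree : ℤ) - (g.natDegree : ℤ))) := by
        rw [← exp_add]
        congr 1
        ring

theorem base_lvl {p : ℕ} [hp : Fact p.Prime] {k K : Type*} [Field k] [Field K] [Algebra k K]
    [CharP k p] {x : K} {vK : VI K} (B : Base p k x vK) (D : Derivation k K K) (hD : D x = 1) :
    Lvl p k x D 0 (-1) vK := by
  have hx : vK x = exp 1 := by
    have := B.lev.v_x
    rwa [pow_zero] at this
  have hx0 : x ≠ 0 := by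
    intro h
    rw [h, map_zero] at hx
    exact exp_ne_zero hx.symm
  have htop : Wm k x vK 0 = ⊤ := by
    rw [eq_top_iff]
    intro a _
    obtain ⟨S, hS, hS0, hS1⟩ := B.lev.dim
    have hSb : S = ⊥ := Submodule.finrank_eq_zero.1 (Nat.le_zero.1 hS0)
    obtain ⟨r, hr, s, hs, hrs⟩ := hS1 a
    rw [hSb, Submodule.mem_bot] at hs
    rw [hs, sub_zero] at hrs
    have h1 : a = r + (a - r) := by ring
    rw [h1]
    refine add_mem (Submodule.subset_span (Or.inl hr)) (Submodule.subset_span (Or.inr ?_))
    simpa using hrs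
  have hsub : Subsingleton (K ⧸ Wm k x vK 0) := by
    exact Submodule.Quotient.subsingleton_iff.2 htop
  refine ⟨⟨0, B.lev⟩, hD, bl_le B D hD, fun a j ha hj => ?_, inferInstance, ?_⟩
  · have hvx : vK (x ^ j) = exp j := by
      rw [map_zpow₀, hx, ← exp_zsmul, smul_eq_mul, mul_one]
    have hj0 : ((j : ℤ) : k) ≠ 0 := by
      intro h
      exact hj ((CharP.intCast_eq_zero_iff k p j).1 h)
    obtain ⟨c, hc⟩ := B.lev.approx (a := a) (b := x ^ j) (zpow_ne_zero _ hx0) (by rw [ha, hvx])
    rw [hvx] at hc
    have hc0 : c ≠ 0 := by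
      intro h
      rw [h, map_zero, zero_mul, sub_zero, ha] at hc
      exact lt_irrefl _ hc
    have h1 : D (algebraMap k K c * x ^ j) = algebraMap k K (c * j) * x ^ (j - 1) := by
      rw [D.leibniz, D.map_algebraMap, smul_zero, add_zero, D.leibniz_zpow, hD, smul_eq_mul,
        smul_eq_mul, mul_one, map_mul, map_intCast, zsmul_eq_mul]
      ring
    have h2 : vK (D (algebraMap k K c * x ^ j)) = exp (-1 + j) := by
      rw [h1, map_mul, B.lev.v_const _ (mul_ne_zero hc0 hj0), one_mul, map_zpow₀, hx, ← exp_zsmul,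
        smul_eq_mul, mul_one]
      congr 1
      ring
    have h3 : vK (D (a - algebraMap k K c * x ^ j)) < exp (-1 + j) := by
      refine (bl_le B D hD _).trans_lt ?_
      rw [exp_add]
      exact mul_lt_mul_of_pos_left hc exp_pos
    have h4 : D a = D (a - algebraMap k K c * x ^ j) + D (algebraMap k K c * x ^ j) := by
      rw [← map_add]
      congr 1
      ring
    rw [h4, Valuation.map_add_eq_of_lt_right _ (by rw [h2]; exact h3), h2]
  · rw [Module.finrank_zero_of_subsingleton]
    simp

end BAC
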