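import Pool.Agent.BAC.Defs

/-!
BAC / C1 (blueprint 2.1). The conductor of the lift of an Artin-Schreier class.

`hR`: `c₀` with `v (f - (c₀ ^ p - c₀)) = exp m`; replace `f` by `f₁ = f - (c₀^p - c₀)`, so `v f₁ = exp m`
(at the end add `c₀` back). In `F`: `v' (f₁) = exp (p m)`, `v' (D' f₁) = v (D f₁) ^ p = exp (p (m + κ))`
(`L.eq`, since `p ∤ m`). `L'.lev` and `IsLevel.reduce` (with bound `p m`) give `c ∈ F` such that
`f' = f₁ - (c ^ p - c)` satisfies `v' f' < 1`, or `v' f' = exp m'` with `0 < m'`, `p ∤ m'`, `m' ≤ p m`. In both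
cases `v' (c ^ p - c) ≤ exp (p m)`, hence `v' c ≤ exp m` (if `v' c > 1` then
`v' (c ^ p - c) = v' c ^ p`). `D' f' = D' f₁ + D' c` (char p: `D' (c ^ p) = 0`), and
`v' (D' c) ≤ exp (κ' + m) < exp (p (m + κ))` as `κ' = p κ + (p-1) l` and `l < m`. So
`v' (D' f') = exp (p (m + κ))`. If `v' f' < 1` then `v' (D' f') ≤ exp κ' v' f' ≤ exp κ'`, but
`κ' = p κ + (p-1) l < p κ + p m`: contradiction. Otherwise `L'.eq` gives `m' + κ' = p (m + κ)`, i.e.
`m' = p m - (p-1) l`.
-/

namespace BAC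

open Polynomial WithZero Pool.Agent.Helper32


section aux

variable {p : ℕ} [hp : Fact p.Prime] {E : Type*} [Field E]

theorem wp_val_of_gt {v : VI E} {c : E} (h1 : 1 < v c) : v (c ^ p - c) = v c ^ p := by
  have h2 : v c < v (c ^ p) := by
    rw [map_pow]
    exact lt_self_pow₀ h1 hp.out.one_lt
  rw [Valuation.map_sub_eq_of_lt_left v h2, map_pow]

omit hp in
theorem wp_val_le_one {v : VI E} {c : E} (h1 : v c ≤ 1) : v (c ^ p - c) ≤ 1 := by
  refine (v.map_sub _ _).trans (max_le ?_ h1)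
  rw [map_pow]
  exact pow_le_one₀ zero_le h1

theorem val_le_of_wp_le {v : VI E} {c : E} {m : ℤ} (hm : 0 ≤ m)
    (h : v (c ^ p - c) ≤ exp ((p : ℤ) * m)) : v c ≤ exp m := by
  by_cases h1 : v c ≤ 1
  · refine h1.trans ?_
    rw [← exp_zero, exp_le_exp]; exact hm
  · rw [not_le] at h1
    rw [wp_val_of_gt h1] at h
    by_contra hlt
    rw [not_le] at hlt
    have h3 : exp m ^ p < v c ^ p := pow_lt_pow_left₀ hlt zero_le hp.out.ne_zero
    rw [← exp_nsmul, nsmul_eq_mul] at h3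
    exact absurd h (not_le.mpr h3)

/-- a valuation of some `c ^ p - c`, if it is `exp m` with `m > 0`, then `p ∣ m` -/
theorem dvd_of_wp_val {v : VI E} {c : E} {m : ℤ} (hm : 0 < m)
    (h : v (c ^ p - c) = exp m) : (p : ℤ) ∣ m := by
  by_cases h1 : v c ≤ 1
  · have h2 := wp_val_le_one (p := p) h1
    rw [h, ← exp_zero, exp_le_exp] at h2
    omega
  · rw [not_le] at h1
    rw [wp_val_of_gt h1] at h
    have hc0 : v c ≠ 0 := (lt_trans zero_lt_one h1).ne'
    rw [← exp_log hc0, ← exp_nsmul, nsmul_eq_mul] at h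
    exact ⟨log (v c), (exp_injective h).symm⟩

end aux

theorem red_step {p : ℕ} [hp : Fact p.Prime] {k E F : Type*} [Field k] [IsAlgClosed k] [Field E]
    [Field F] [Algebra k E] [Algebra k F] [Algebra E F] [IsScalarTower k E F] [CharP k p]
    [CharP E p] [CharP F p] {x : E} {D : Derivation k E E} {n : ℕ} {κ : ℤ} {v : VI E}
    (L : Lvl p k x D n κ v) {D' : Derivation k F F} {n' : ℕ} {κ' : ℤ} {v' : VI F}
    (L' : Lvl p k (algebraMap E F x) D' n' κ' v')
    (hD' : ∀ a : E, D' (algebraMap E F a) = algebraMap E F (D a))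
    (hv : ∀ a : E, v' (algebraMap E F a) = v a ^ p) {l : ℤ} (hl0 : 0 < l)
    (hκ : κ' = p * κ + (p - 1) * l) {f : E} {m : ℤ} (hR : Red p v f m) (hlm : l < m) :
    Red p v' (algebraMap E F f) (p * m - (p - 1) * l) := by
  obtain ⟨hm0, hpm, c₀, hc₀⟩ := hR
  have hp1 : (1 : ℤ) < p := by exact_mod_cast hp.out.one_lt
  set f₁ := f - (c₀ ^ p - c₀) with hf₁
  have hv1 : v' (algebraMap E F f₁) = exp ((p : ℤ) * m) := by
    rw [hv, hc₀, ← exp_nsmul, nsmul_eq_mul]
  have hD1 : v' (D' (algebraMap E F f₁)) = exp ((p : ℤ) * (κ + m)) := by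
    rw [hD', hv, L.eq f₁ m hc₀ hpm, ← exp_nsmul, nsmul_eq_mul]
  obtain ⟨g', lev'⟩ := L'.lev
  have hcast : ((p * m.toNat : ℕ) : ℤ) = (p : ℤ) * m := by
    push_cast
    rw [Int.toNat_of_nonneg hm0.le]
  obtain ⟨c, hc⟩ := lev'.reduce (p * m.toNat) (algebraMap E F f₁) (by rw [hv1, hcast])
  set f' := algebraMap E F f₁ - (c ^ p - c) with hf'
  have hf'le : v' f' ≤ exp ((p : ℤ) * m) := by
    rcases hc with hc | ⟨l', hl'0, hl'p, hl'm, hv'⟩
    · refine hc.le.trans ?_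
      rw [← exp_zero, exp_le_exp]
      positivity
    · rw [hv', exp_le_exp, ← hcast]
      exact hl'm
  have hwc : v' (c ^ p - c) ≤ exp ((p : ℤ) * m) := by
    have h1 : c ^ p - c = algebraMap E F f₁ - f' := by rw [hf']; ring
    rw [h1]
    exact (v'.map_sub _ _).trans (max_le hv1.le hf'le)
  have hvc : v' c ≤ exp m := val_le_of_wp_le hm0.le hwc
  have hDcp : D' (c ^ p) = 0 := by
    rw [Derivation.leibniz_pow, nsmul_eq_mul, CharP.cast_eq_zero, zero_mul]
  have hDf' : D' f' = D' (algebraMap E F f₁) + D' c := by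
    rw [hf', map_sub D' (algebraMap E F f₁), map_sub D' (c ^ p) c, hDcp]; ring
  have hDc : v' (D' c) < exp ((p : ℤ) * (κ + m)) := by
    calc v' (D' c) ≤ exp κ' * v' c := L'.le c
      _ ≤ exp κ' * exp m := by gcongr
      _ = exp (κ' + m) := by rw [exp_add]
      _ < exp ((p : ℤ) * (κ + m)) := by
          rw [exp_lt_exp, hκ]
          nlinarith
  have hvDf' : v' (D' f') = exp ((p : ℤ) * (κ + m)) := by
    rw [hDf', Valuation.map_add_eq_of_lt_left v' (by rw [hD1]; exact hDc), hD1]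
  rcases hc with hc | ⟨l', hl'0, hl'p, hl'm, hv'⟩
  · exfalso
    have h1 : exp ((p : ℤ) * (κ + m)) ≤ exp κ' := by
      rw [← hvDf']
      calc v' (D' f') ≤ exp κ' * v' f' := L'.le f'
        _ ≤ exp κ' * 1 := by gcongr
        _ = exp κ' := mul_one _
    rw [exp_le_exp, hκ] at h1
    nlinarith
  · have h1 := L'.eq f' l' hv' hl'p
    rw [hvDf'] at h1
    have h2 : (p : ℤ) * (κ + m) = κ' + l' := exp_injective h1
    have h3 : (p : ℤ) * m - (p - 1) * l = l' := by
      rw [hκ] at h2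
      linarith
    rw [h3]
    refine ⟨hl'0, hl'p, algebraMap E F c₀ + c, ?_⟩
    have h4 : algebraMap E F f - ((algebraMap E F c₀ + c) ^ p - (algebraMap E F c₀ + c)) = f' := by
      rw [wp_add, hf', hf₁, map_sub, map_sub, map_pow]; ring
    rw [h4]
    exact hv'

/-- a reduced order cannot be improved -/
theorem Red.le_of_le {p : ℕ} [hp : Fact p.Prime] {E : Type*} [Field E] [CharP E p] {v : VI E}
    {f c : E} {m l : ℤ} (h : Red p v f m) (h' : v (f - (c ^ p - c)) ≤ exp l) : m ≤ l := by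
  obtain ⟨hm0, hpm, c₀, hc₀⟩ := h
  by_contra hlt
  rw [not_le] at hlt
  apply hpm
  refine dvd_of_wp_val (v := v) (c := c - c₀) hm0 ?_
  have h1 : (c - c₀) ^ p - (c - c₀) = (f - (c₀ ^ p - c₀)) - (f - (c ^ p - c)) := by
    rw [wp_sub]; ring
  have h2 : v (f - (c ^ p - c)) < v (f - (c₀ ^ p - c₀)) := by
    rw [hc₀]
    exact lt_of_le_of_lt h' (exp_lt_exp.mpr hlt)
  rw [h1, Valuation.map_sub_eq_of_lt_left v h2, hc₀]

/-- reduced orders are determined by the class -/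
theorem Red.unique {p : ℕ} [hp : Fact p.Prime] {E : Type*} [Field E] [CharP E p] {v : VI E}
    {f : E} {m m' : ℤ} (h : Red p v f m) (h' : Red p v f m') : m = m' := by
  obtain ⟨-, -, c₁, hc₁⟩ := id h
  obtain ⟨-, -, c₂, hc₂⟩ := id h'
  exact le_antisymm (h.le_of_le hc₂.le) (h'.le_of_le hc₁.le)

end BAC
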