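import Pool.Agent.BAC.UStep
import Pool.Agent.BAC.RedStep

/-!
BAC / C2 (blueprint 2.2, 2.3). `Big` and `Small`.

`Big.mono`: induction on `n` (the degree of `E`) with `UU.between`. If `E₁ = E`, `TT.unique`. Otherwise
`E₁ ≤ E₂ ≤ E` with `[E:E₂] = p`, `NN` for `E₂` (`UU.NN_mono`), `Big` for `E₂` by induction:
`m₂ ≥ p^n₂ - κ₂`. `UU.step` for `E₂ ≤ E`: `l < p^n₂ - κ₂ ≤ m₂` (`cond_lt`, `TT.kappa`). `red_step` (`E` as an
`E₂`-algebra via `inclusion`, derivations from `lvl`) gives `Red` for `E` with `m = p m₂ - (p-1) l`, and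
`m + κ = p (m₂ + κ₂) ≥ p ^ (n₂ + 1)`.
`Big.not_small`: `Red.le_of_le`.
`Small.sub`: add the `c`'s, `l = max l₁ l₂` (`f - (c ^ p - c)` is additive in `(f, c)`: `wp_sub`).
`small_of_mem`: `w ∈ E`: `c = w`, `f - (c ^ p - c) = 0`, `l = p ^ n - κ - 1`.
`small_of_step`: `w ∉ E`, `E' = E ⊔ K(w)` in `U` with `NN`: `E'` has degree `p [E:K]`
(`asData_adjoin`, or: `w` has degree `p` over `E`), so `n' = n + 1`. `UU.step`: `w'`, `f'`, `c'`, `l`,
`l < p ^ n - κ` (`cond_lt`). For the generator `σ` of `Gal(E'/E)`: `σ w - w = i`, `σ w' - w' = i'`, nonzero elements of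
`F_p`; `j = i / i'`, `w - j w' ∈ E`, so `w ^ p - w = j f' + (e ^ p - e)`, `e = w - j w'`, and
`w^p - w - (c ^ p - c) = j (f' - (c' ^ p - c'))` for `c = j c' + e`.
-/

namespace BAC

open Polynomial WithZero IntermediateField Pool.Agent.Helper32

variable {p : ℕ} [hp : Fact p.Prime] {k K Ω : Type*} [Field k] [IsAlgClosed k] [Field K]
  [Field Ω] [Algebra k K] [Algebra K Ω] [Algebra k Ω] [IsScalarTower k K Ω] [CharP k p]
  [CharP K p] [CharP Ω p] [IsSepClosure K Ω] {x : K} {vK : VI K} {D : Derivation k Ω Ω}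

private theorem bm_step (B : Base p k x vK) (hD : D (algebraMap K Ω x) = 1)
    {E₂ E : IntermediateField K Ω} {n₂ : ℕ} {κ₂ κ : ℤ} {v₂ : VI E₂} {v : VI E}
    (U₂ : UU p k x D E₂ n₂ κ₂ v₂) (U : UU p k x D E (n₂ + 1) κ v) (hE₂ : E₂ ≤ E)
    (hN : NN p (n₂ + 1) κ) {f : Ω} (hf : Big p E₂ n₂ κ₂ v₂ f) : Big p E (n₂ + 1) κ v f := by
  obtain ⟨hf₂, m₂, hm₂, hR⟩ := hf
  obtain ⟨l, w, f', c, hl0, hlp, hκ, -, -, -, -, -, hv, -, -⟩ := UU.step B hD U₂ U hE₂
  have hκ₂ : -1 ≤ κ₂ := TT.kappa U₂.toTT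
  have hlt : l < (p : ℤ) ^ n₂ - κ₂ := (cond_lt hp.out.two_le hκ₂ hl0 hκ hN).2
  have hc1 : CharP E₂ p := charP_of_injective_algebraMap (algebraMap K E₂).injective p
  have hc2 : CharP E p := charP_of_injective_algebraMap (algebraMap K E).injective p
  obtain ⟨D₂, hD₂, L₂⟩ := U₂.lvl
  obtain ⟨D', hD', L'⟩ := U.lvl
  let : Algebra E₂ E := (inclusion hE₂).toRingHom.toAlgebra
  have : IsScalarTower k E₂ E := IsScalarTower.of_algebraMap_eq fun a => rfl
  have h1 := red_step (k := k) (E := E₂) (F := E) (x := algebraMap K E₂ x) L₂ (D' := D')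
    (n' := n₂ + 1) (κ' := κ) (v' := v) L' (fun a => by
      apply Subtype.ext
      rw [hD']
      exact (hD₂ a).symm) hv hl0 hκ hR (lt_of_lt_of_le hlt hm₂)
  refine ⟨hE₂ hf₂, (p : ℤ) * m₂ - (p - 1) * l, ?_, h1⟩
  rw [hκ, pow_succ]
  have hp0 : (0 : ℤ) < p := by exact_mod_cast hp.out.pos
  nlinarith

theorem Big.mono (B : Base p k x vK) (hD : D (algebraMap K Ω x) = 1)
    {E₁ E : IntermediateField K Ω} {n₁ n : ℕ} {κ₁ κ : ℤ} {v₁ : VI E₁} {v : VI E}
    (U₁ : UU p k x D E₁ n₁ κ₁ v₁) (U : UU p k x D E n κ v) (hE : E₁ ≤ E) (hN : NN p n κ)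
    {f : Ω} (hf : Big p E₁ n₁ κ₁ v₁ f) : Big p E n κ v f := by
  induction n generalizing E κ with
  | zero =>
    by_cases hne : E₁ = E
    · subst hne
      obtain ⟨rfl, rfl, rfl⟩ := TT.unique U₁.toTT U.toTT
      exact hf
    · obtain ⟨E₂, n₂, κ₂, v₂, -, -, h, -⟩ := UU.between B hD U₁ U hE hne
      omega
  | succ n ih =>
    by_cases hne : E₁ = E
    · subst hne
      obtain ⟨rfl, rfl, rfl⟩ := TT.unique U₁.toTT U.toTT
      exact hf
    · obtain ⟨E₂, n₂, κ₂, v₂, h1, h2, h3, U₂⟩ := UU.between B hD U₁ U hE hne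
      obtain rfl : n = n₂ := by omega
      have hN₂ : NN p n κ₂ := UU.NN_mono B hD U₂ U h2 hN
      exact bm_step B hD U₂ U h2 hN (ih U₂ h1 hN₂)

theorem Big.not_small {E : IntermediateField K Ω} {n : ℕ} {κ : ℤ} {v : VI E} {f : Ω}
    (h : Big p E n κ v f) (h' : Small p E n κ v f) : False := by
  have hc1 : CharP E p := charP_of_injective_algebraMap (algebraMap K E).injective p
  obtain ⟨hf, m, hm, hR⟩ := h
  obtain ⟨hf', c, l, hl, hv⟩ := h'
  have := Red.le_of_le hR hv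
  omega

theorem Small.sub {E : IntermediateField K Ω} {n : ℕ} {κ : ℤ} {v : VI E} {f f' : Ω}
    (h : Small p E n κ v f) (h' : Small p E n κ v f') : Small p E n κ v (f - f') := by
  have hc1 : CharP E p := charP_of_injective_algebraMap (algebraMap K E).injective p
  obtain ⟨hf, c, l, hl, hv⟩ := h
  obtain ⟨hf', c', l', hl', hv'⟩ := h'
  refine ⟨sub_mem hf hf', c - c', max l l', max_lt hl hl', ?_⟩
  have h1 : (⟨f - f', sub_mem hf hf'⟩ : E) - ((c - c') ^ p - (c - c')) =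
      (⟨f, hf⟩ - (c ^ p - c)) - (⟨f', hf'⟩ - (c' ^ p - c')) := by
    rw [wp_sub]
    have : (⟨f - f', sub_mem hf hf'⟩ : E) = ⟨f, hf⟩ - ⟨f', hf'⟩ := rfl
    rw [this]
    ring
  rw [h1]
  refine (Valuation.map_sub _ _ _).trans (max_le (hv.trans ?_) (hv'.trans ?_))
  · exact exp_le_exp.2 (le_max_left _ _)
  · exact exp_le_exp.2 (le_max_right _ _)

theorem Small.congr {E : IntermediateField K Ω} {n : ℕ} {κ : ℤ} {v : VI E} {f : Ω}
    (h : Small p E n κ v f) {c : Ω} (hc : c ∈ E) : Small p E n κ v (f + (c ^ p - c)) := by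
  have hc1 : CharP E p := charP_of_injective_algebraMap (algebraMap K E).injective p
  obtain ⟨hf, c₁, l, hl, hv⟩ := h
  have h0 : f + (c ^ p - c) ∈ E := add_mem hf (sub_mem (pow_mem hc p) hc)
  refine ⟨h0, c₁ + ⟨c, hc⟩, l, hl, ?_⟩
  have h1 : (⟨f + (c ^ p - c), h0⟩ : E) - ((c₁ + ⟨c, hc⟩) ^ p - (c₁ + ⟨c, hc⟩)) =
      ⟨f, hf⟩ - (c₁ ^ p - c₁) := by
    rw [wp_add]
    have : (⟨f + (c ^ p - c), h0⟩ : E) = ⟨f, hf⟩ + ((⟨c, hc⟩ : E) ^ p - ⟨c, hc⟩) := rfl
    rw [this]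
    ring
  rw [h1]
  exact hv

theorem small_of_mem {E : IntermediateField K Ω} {n : ℕ} {κ : ℤ} {v : VI E} {w : Ω}
    (hw : w ∈ E) : Small p E n κ v (w ^ p - w) := by
  refine ⟨sub_mem (pow_mem hw p) hw, ⟨w, hw⟩, (p : ℤ) ^ n - κ - 1, by omega, ?_⟩
  have h1 : (⟨w ^ p - w, sub_mem (pow_mem hw p) hw⟩ : E) = (⟨w, hw⟩ : E) ^ p - ⟨w, hw⟩ := rfl
  rw [h1, sub_self, map_zero]
  exact zero_le

omit [IsSepClosure K Ω] in
private theorem bm_lin {E : IntermediateField K Ω} {w w' : Ω} {f f' : E}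
    (hw : w ^ p - w = (f : Ω)) (hw' : w' ^ p - w' = (f' : Ω)) (hwE' : w' ∉ E)
    (hmem : w ∈ IntermediateField.adjoin E {w'}) : ∃ j : ℕ, w - (j : Ω) * w' ∈ E := by
  have hc1 : CharP E p := charP_of_injective_algebraMap (algebraMap K E).injective p
  have hc2 : CharP ↥(IntermediateField.adjoin E {w'}) p :=
    charP_of_injective_algebraMap (algebraMap E ↥(IntermediateField.adjoin E {w'})).injective p
  have h₀ := asData_adjoin (p := p) hw' hwE'
  obtain ⟨τ, hτ⟩ := h₀.exists_tau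
  set W : ↥(IntermediateField.adjoin E {w'}) := ⟨w, hmem⟩ with hW
  set W' : ↥(IntermediateField.adjoin E {w'}) := ⟨w', mem_adjoin_simple_self E w'⟩ with hW'
  have h1 : W ^ p - W = algebraMap E _ f := by
    apply Subtype.ext
    exact hw
  have h2 : (τ W - W) ^ p = τ W - W := by
    have h3 : (τ W - W) ^ p - (τ W - W) = 0 := by
      rw [wp_sub, h1, ← map_pow, ← map_sub, h1, AlgHom.commutes, sub_self]
    exact sub_eq_zero.1 h3
  obtain ⟨i, hi⟩ := exists_zmod_of_pow_eq (p := p) h2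
  have hi' : τ W - W = ((i.val : ℕ) : ↥(IntermediateField.adjoin E {w'})) := by
    rw [hi]
    conv_lhs => rw [← ZMod.natCast_zmod_val i, map_natCast]
  refine ⟨i.val, ?_⟩
  set y : ↥(IntermediateField.adjoin E {w'}) := W - (i.val : ℕ) * W' with hy
  have h4 : τ y - y = 0 := by
    rw [hy, map_sub, map_mul, map_natCast, hτ]
    have : τ W = W + ((i.val : ℕ) : ↥(IntermediateField.adjoin E {w'})) := by rw [← hi']; ring
    rw [this]
    ring
  have h5 : delta (h₀.rep y) = 0 := by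
    rw [← h₀.rep_tau_sub hτ, h4]
    exact h₀.rep_eq (by simp [hp.out.pos]) (by simp)
  have h6 : (h₀.rep y).natDegree = 0 := by
    by_contra hne
    obtain ⟨d, hd⟩ := Nat.exists_eq_succ_of_ne_zero hne
    have h7 := coeff_delta (f := h₀.rep y) (d := d) hd.le
    rw [h5, coeff_zero] at h7
    have h8 := h₀.rep_natDegree y
    rw [hd] at h8
    have h9 : (((d + 1 : ℕ)) : E) ≠ 0 := natCast_ne_zero_of_lt (p := p) (Nat.succ_pos d) h8
    have h10 : (h₀.rep y).coeff (d + 1) ≠ 0 := by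
      have h11 : h₀.rep y ≠ 0 := by
        intro h
        rw [h, natDegree_zero] at hd
        omega
      have h12 := leadingCoeff_ne_zero.2 h11
      rwa [leadingCoeff, hd] at h12
    exact (mul_ne_zero h9 h10) h7.symm
  have h7 : y = algebraMap E _ ((h₀.rep y).coeff 0) := by
    have h8 := h₀.aeval_rep y
    have h9 := eq_C_of_natDegree_eq_zero h6
    generalize h₀.rep y = r at *
    rw [h9, aeval_C] at h8
    exact h8.symm
  have h8 : w - ((i.val : ℕ) : Ω) * w' = ((h₀.rep y).coeff 0 : E) := by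
    have := congrArg (fun z : ↥(IntermediateField.adjoin E {w'}) => (z : Ω)) h7
    exact this
  rw [h8]
  exact ((h₀.rep y).coeff 0).2

theorem small_of_step (B : Base p k x vK) (hD : D (algebraMap K Ω x) = 1)
    {E : IntermediateField K Ω} {n n' : ℕ} {κ κ' : ℤ} {v : VI E}
    (U : UU p k x D E n κ v) {w : Ω} (hw : w ^ p - w ∈ E) (hwE : w ∉ E)
    {v' : VI ↥(E ⊔ IntermediateField.adjoin K {w})}
    (U' : UU p k x D (E ⊔ IntermediateField.adjoin K {w}) n' κ' v') (hN : NN p n' κ') :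
    Small p E n κ v (w ^ p - w) := by
  have hc1 : CharP E p := charP_of_injective_algebraMap (algebraMap K E).injective p
  -- the degree
  have h₀ := asData_adjoin (p := p) (f := ⟨w ^ p - w, hw⟩) rfl hwE
  have hfin : FiniteDimensional K E := U.fin
  have hn : n' = n + 1 := by
    have h1 : Module.finrank K ↥(IntermediateField.adjoin E {w}) =
        Module.finrank K ↥(E ⊔ IntermediateField.adjoin K {w}) :=
      (adjEquiv E w).toLinearEquiv.finrank_eq
    have h2 := Module.finrank_mul_finrank K E ↥(IntermediateField.adjoin E {w})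
    rw [h₀.finrank, U.rank, h1, U'.rank, ← pow_succ] at h2
    exact (Nat.pow_right_injective hp.out.two_le h2).symm
  subst hn
  obtain ⟨l, w', f', c', hl0, hlp, hκ, hw'1, hw'2, hw'3, -, hv, -, -, hsup⟩ :=
    UU.step B hD U U' le_sup_left
  have hκ1 : -1 ≤ κ := TT.kappa U.toTT
  have hlt : l < (p : ℤ) ^ n - κ := (cond_lt hp.out.two_le hκ1 hl0 hκ hN).2
  have hmem : w ∈ IntermediateField.adjoin E {w'} := by
    have h1 : w ∈ E ⊔ IntermediateField.adjoin K {w'} := by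
      rw [← hsup]
      exact (le_sup_right : IntermediateField.adjoin K {w} ≤ _) (mem_adjoin_simple_self K w)
    rwa [← restrictScalars_adjoin_eq_sup, mem_restrictScalars] at h1
  obtain ⟨j, hj⟩ := bm_lin (f := ⟨w ^ p - w, hw⟩) rfl hw'3 hw'2 hmem
  refine ⟨hw, (j : E) * c' + ⟨_, hj⟩, l, hlt, ?_⟩
  have hval : (⟨w ^ p - w, hw⟩ : E) - (((j : E) * c' + ⟨_, hj⟩) ^ p - ((j : E) * c' + ⟨_, hj⟩)) =
      (j : E) * (f' - (c' ^ p - c')) := by
    apply Subtype.ext
    have h2 : ((j : Ω)) ^ p = j := natCast_pow_char (p := p) j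
    have h3 : ((((⟨w ^ p - w, hw⟩ : E) - (((j : E) * c' + ⟨w - (j : Ω) * w', hj⟩) ^ p -
        ((j : E) * c' + ⟨w - (j : Ω) * w', hj⟩)) : E)) : Ω) =
        w ^ p - w - (((j : Ω) * c' + (w - (j : Ω) * w')) ^ p -
          ((j : Ω) * c' + (w - (j : Ω) * w'))) := by
      push_cast
      rfl
    have h4 : (((j : E) * (f' - (c' ^ p - c')) : E) : Ω) =
        (j : Ω) * ((f' : Ω) - ((c' : Ω) ^ p - c')) := by
      push_cast
      rfl
    rw [h3, h4, ← hw'3, add_pow_char, sub_pow_char, mul_pow, mul_pow, h2]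
    ring
  rw [hval, map_mul]
  obtain ⟨D₁, -, L₁⟩ := U.lvl
  obtain ⟨g, L⟩ := L₁.lev
  have hj1 : v (j : E) ≤ 1 := by
    have h1 := L.v_const_le (j : k)
    rwa [map_natCast] at h1
  calc v (j : E) * v (f' - (c' ^ p - c')) ≤ 1 * exp l := by
        rw [hv]
        gcongr
    _ = exp l := one_mul _

end BAC
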