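import Pool.Agent.BAC.GamComm

/-!
BAC / G12 (blueprint 3.6). Two facts on finite `p`-groups.

`class_bound`: `gam G 2 = commutator G` has order `p ^ n`. Claim: `gam G (2 + j)` has order `≤ p ^ (n - j)` for
`j ≤ n`: if `gam G i ≠ ⊥` then `gam G (i+1) < gam G i` (`G` is nilpotent: otherwise the series would be
constant `≠ ⊥`), and orders are powers of `p`. So `gam G (2 + n) = ⊥` and `2 + n ≤ p`.
`frattini_sup`: a proper subgroup `A` of a finite `p`-group is contained in a normal subgroup `M` of index `p`
(maximal subgroups of nilpotent groups are normal, simple `p`-groups have order `p`), `G / M` is abelian,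
so `commutator G ≤ M` and `A ⊔ commutator G ≤ M`.
-/

namespace BAC

private theorem cb_card_lt {p : ℕ} [hp : Fact p.Prime] {G : Type*} [Group G] [Finite G]
    (hG : IsPGroup p G) {K H : Subgroup G} (h : K < H) : Nat.card K * p ≤ Nat.card H := by
  obtain ⟨a, ha⟩ := (IsPGroup.iff_card (p := p)).1 (hG.to_subgroup K)
  obtain ⟨b, hb⟩ := (IsPGroup.iff_card (p := p)).1 (hG.to_subgroup H)
  have h1 : Nat.card K < Nat.card H :=
    lt_of_le_of_ne (Subgroup.card_le_of_le h.le)
      (fun e => h.ne (Subgroup.eq_of_le_of_card_ge h.le e.ge))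
  rw [ha, hb] at h1 ⊢
  have h2 : a < b := (Nat.pow_lt_pow_iff_right hp.out.one_lt).1 h1
  rw [← pow_succ]
  exact Nat.pow_le_pow_right hp.out.pos h2

theorem class_bound {p : ℕ} [hp : Fact p.Prime] {G : Type*} [Group G] [Finite G]
    (hG : IsPGroup p G) {n : ℕ} (hn : Nat.card (commutator G) = p ^ n) (hnp : n + 2 ≤ p) :
    gam G p = ⊥ := by
  have hnil : Group.IsNilpotent G := hG.isNilpotent
  obtain ⟨N, hN⟩ := Subgroup.nilpotent_iff_lowerCentralSeries.1 hnil
  have hlt : ∀ j, (⊤ : Subgroup G).lowerCentralSeries j ≠ ⊥ →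
      (⊤ : Subgroup G).lowerCentralSeries (j + 1) < (⊤ : Subgroup G).lowerCentralSeries j := by
    intro j hj
    refine lt_of_le_of_ne (Subgroup.lowerCentralSeries_antitone _ (Nat.le_succ j)) ?_
    intro h
    have h1 : ∀ m, (⊤ : Subgroup G).lowerCentralSeries (j + m) =
        (⊤ : Subgroup G).lowerCentralSeries j := by
      intro m
      induction m with
      | zero => rfl
      | succ m ih =>
        rw [← add_assoc, Subgroup.lowerCentralSeries_succ, ih, ← Subgroup.lowerCentralSeries_succ, h]
    apply hj
    rw [← h1 N, eq_bot_iff, ← hN]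
    exact Subgroup.lowerCentralSeries_antitone _ (Nat.le_add_left N j)
  have hcl : ∀ j, (⊤ : Subgroup G).lowerCentralSeries (1 + j) = ⊥ ∨
      Nat.card ((⊤ : Subgroup G).lowerCentralSeries (1 + j)) * p ^ j ≤ p ^ n := by
    intro j
    induction j with
    | zero =>
      right
      rw [add_zero, pow_zero, mul_one, Subgroup.top_lowerCentralSeries_one, hn]
    | succ j ih =>
      rcases ih with ih | ih
      · left
        rw [eq_bot_iff, ← ih]
        exact Subgroup.lowerCentralSeries_antitone _ (by omega)
      · by_cases h0 : (⊤ : Subgroup G).lowerCentralSeries (1 + j) = ⊥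
        · left
          rw [eq_bot_iff, ← h0]
          exact Subgroup.lowerCentralSeries_antitone _ (by omega)
        · right
          have h1 := cb_card_lt hG (hlt _ h0)
          rw [← add_assoc]
          calc Nat.card ((⊤ : Subgroup G).lowerCentralSeries (1 + j + 1)) * p ^ (j + 1)
              = Nat.card ((⊤ : Subgroup G).lowerCentralSeries (1 + j + 1)) * p * p ^ j := by
                rw [pow_succ]
                ring
            _ ≤ Nat.card ((⊤ : Subgroup G).lowerCentralSeries (1 + j)) * p ^ j :=
                Nat.mul_le_mul_right _ h1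
            _ ≤ p ^ n := ih
  have hbot : (⊤ : Subgroup G).lowerCentralSeries (1 + n) = ⊥ := by
    rcases hcl n with h | h
    · exact h
    · have hpos : 0 < p ^ n := Nat.pow_pos hp.out.pos
      have h1 : Nat.card ((⊤ : Subgroup G).lowerCentralSeries (1 + n)) ≤ 1 := by
        by_contra hcon
        have h2 : 2 * p ^ n ≤ Nat.card ((⊤ : Subgroup G).lowerCentralSeries (1 + n)) * p ^ n :=
          Nat.mul_le_mul_right _ (by omega)
        omega
      exact Subgroup.eq_bot_of_card_le _ h1
  unfold gam
  rw [eq_bot_iff, ← hbot]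
  exact Subgroup.lowerCentralSeries_antitone _ (by omega)

theorem frattini_sup {p : ℕ} [hp : Fact p.Prime] {G : Type*} [Group G] [Finite G]
    (hG : IsPGroup p G) (A : Subgroup G) (hA : A ⊔ commutator G = ⊤) : A = ⊤ := by
  rcases eq_top_or_exists_le_coatom A with h | ⟨M, hM, hAM⟩
  · exact h
  · exfalso
    have hnil : Group.IsNilpotent G := hG.isNilpotent
    have hnorm : M.Normal :=
      Subgroup.NormalizerCondition.normal_of_coatom M Group.normalizerCondition_of_isNilpotent hM
    have hq : IsPGroup p (G ⧸ M) := hG.to_quotient M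
    have hnt : Nontrivial (G ⧸ M) := QuotientGroup.nontrivial_iff.2 hM.1
    have hc := hq.center_nontrivial
    have h1 : M < (Subgroup.center (G ⧸ M)).comap (QuotientGroup.mk' M) := by
      refine lt_of_le_of_ne ?_ ?_
      · intro x hx
        rw [Subgroup.mem_comap, QuotientGroup.mk'_apply, (QuotientGroup.eq_one_iff x).2 hx]
        exact Subgroup.one_mem _
      · intro h
        obtain ⟨⟨z, hz⟩, hz1⟩ := exists_ne (1 : Subgroup.center (G ⧸ M))
        obtain ⟨x, rfl⟩ := QuotientGroup.mk'_surjective M z
        apply hz1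
        have h2 : x ∈ M := by
          rw [h]
          exact hz
        apply Subtype.ext
        exact (QuotientGroup.eq_one_iff x).2 h2
    have h2 := hM.2 _ h1
    have hle : commutator G ≤ M := by
      rw [← Subgroup.Normal.quotient_commutative_iff_commutator_le]
      refine ⟨⟨fun a c => ?_⟩⟩
      obtain ⟨x, rfl⟩ := QuotientGroup.mk'_surjective M a
      have h3 : x ∈ (Subgroup.center (G ⧸ M)).comap (QuotientGroup.mk' M) := by
        rw [h2]
        exact Subgroup.mem_top x
      exact (Subgroup.mem_center_iff.1 h3 c).symm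
    exact hM.1 (eq_top_iff.2 (hA ▸ sup_le hAM hle))

end BAC
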