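import Pool.Agent.BAC.BigMono

/-!
BAC / C3 (blueprint 2.4, 2.5). Polynomials and the Witt polynomial are `Big`.

`big_pol`: for `⊥` (`TT.bot`, `n = 0`, `κ = -1`, and `⊥ ≤ E`; `⊥ / K` is Galois): `f = q(x)`,
`v f = vK (q(x)) = exp (deg q)`, `a = deg q ≥ 2 = p^0 - (-1)`, `p ∤ a` by `hq` (the leading coefficient is
nonzero): `Red` with `c = 0`. Then `Big.mono`.
`big_witt`: `E₁ = ⊥ ⊔ K(w₁)`: `w₁ ∉ ⊥`: `e x` is not of the form `a ^ p - a`, `a ∈ K` (order `1`). `TT.adj` with
`f = e x`: `l` with `v (e x - (c^p - c)) = exp l`; `Red.unique` with `c = 0` gives `l = 1`, so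
`κ₁ = -p + (p - 1) = -1`, `n₁ = 1`. `v₁ (w₁) = exp 1`: `v₁ (w₁)^p = v₁ (w₁ ^ p) = v₁ (w₁ + e x) = v₁ (e x) =
exp p`. `E₁` is Galois over `K` (`w₁ + i` are the conjugates). Let `S(X) = CC p X (X ^ p - X) ∈ F_p[X]`:
`e x = w₁ ^ p - w₁` so `CC p w₁ (e x) = S(w₁)`. Degree `p (p-1) + 1`, leading coefficient `-1`: in
`-∑_{0<i<p} (binom(p,i)/p) X^i (X^p - X)^(p-i)` the term `i = 1` has degree `1 + p (p-1)` with coefficient
`-1`, the others smaller degree. `D w₁ = - e` (`w₁ ^ p - w₁ = e x`), `D (S(w₁)) = - e S'(w₁)`, and `S'` has degree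
`p (p-1)`, leading coefficient `-(p(p-1)+1) = -1`. So `v₁ (D S(w₁)) = exp (p (p-1))`. With `ψ = S(w₁) - q(x)`,
`D (q(x)) = q'(x)`, `v₁ = exp (p (deg q - 1))` (if `deg q ≥ 1`; `deg q` is prime to `p`, or `q = 0`): different
from `exp (p (p-1))` as `deg q ≠ p`. So `v₁ (D ψ) = exp (max (p (p-1)) (p (deg q - 1)))`. `M :=` order of `ψ`
`≤ max (p(p-1)+1) (p deg q)`. `IsLevel.reduce`: `c ∈ E₁` with `ψ' = ψ - (c ^ p - c)` reduced; `v₁ c ≤ exp (M/p)`
(real quotient: `v₁ c ^ p ≤ exp M`), `v₁ (D c) ≤ exp (-1) v₁ c`, and in both cases (`deg q < p`, `deg q > p`)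
`v₁ (D c) < v₁ (D ψ)`: if `deg q < p`: `v₁ (D c) ^ p ≤ exp (M - p) = exp (p (p-1) + 1 - p)`, smaller than
`exp (p · p (p-1))`; if `deg q > p`: `v₁ (D c) ^ p ≤ exp (p deg q - p) < exp (p · p (deg q - 1))`. So
`v₁ (D ψ') = v₁ (D ψ) ≥ exp (p (p-1))`. If `v₁ ψ' ≤ 1` then `v₁ (D ψ') ≤ exp (-1)`: contradiction; so
`v₁ ψ' = exp m`, `p ∤ m`, `m - 1 ≥ p (p-1) ≥ p`, `m ≥ p + 1 = p ^ 1 - κ₁`. Then `Big.mono` for `E₁ ≤ E`
(`UU` for `E₁`: `TT.adj` and Galois).
`CC_cocycle`, `CC_symm`, ...: polynomial identities: `p CC(X,Y) = X^p + Y^p - (X+Y)^p` in `ℤ[X,Y,Z]`, which is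
torsion free; then map to any commutative ring (`CC` is the image of an integral polynomial:
`MvPolynomial.aeval`).
-/

namespace BAC

open Polynomial WithZero IntermediateField Pool.Agent.Helper32

/-! ### valuations of polynomials -/

section abstract_part

private theorem val_aeval {k E : Type*} [Field k] [Field E] [Algebra k E] (v : VI E)
    (hc : ∀ c : k, c ≠ 0 → v (algebraMap k E c) = 1) {y : E} {m : ℤ} (hm : 0 < m)
    (hy : v y = exp m) : ∀ (n : ℕ) (q : k[X]), q ≠ 0 → q.natDegree = n →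
      v (aeval y q) = exp (m * n) := by
  intro n
  induction n using Nat.strong_induction_on with
  | _ n ih =>
    intro q hq hn
    have hlc : q.leadingCoeff ≠ 0 := leadingCoeff_ne_zero.2 hq
    have hdec := q.eraseLead_add_C_mul_X_pow
    have htop : v (aeval y (C q.leadingCoeff * X ^ q.natDegree)) = exp (m * n) := by
      rw [map_mul, aeval_C, map_pow, aeval_X, map_mul, hc _ hlc, one_mul, map_pow, hy, hn,
        ← exp_nsmul, nsmul_eq_mul, mul_comm]
    rw [← hdec, map_add]
    rcases q.eraseLead_natDegree_lt_or_eraseLead_eq_zero with h | h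
    · by_cases h0 : q.eraseLead = 0
      · rw [h0, map_zero, zero_add]
        exact htop
      · have h1 := ih _ (by omega) q.eraseLead h0 rfl
        rw [Valuation.map_add_eq_of_lt_right]
        · exact htop
        · rw [h1, htop, exp_lt_exp]
          have h2 : ((q.eraseLead.natDegree : ℕ) : ℤ) < n := by
            rw [← hn]
            exact_mod_cast h
          exact mul_lt_mul_of_pos_left h2 hm
    · rw [h, map_zero, zero_add]
      exact htop

private theorem v_wp {E : Type*} [Field E] (v : VI E) {p : ℕ} (hp : 2 ≤ p) {y : E}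
    (h : 1 < v y) : v (y ^ p - y) = v y ^ p := by
  have h1 : v y < v (y ^ p) := by
    rw [map_pow]
    calc v y = v y ^ 1 := (pow_one _).symm
      _ < v y ^ p := pow_lt_pow_right₀ h (by omega)
  rw [Valuation.map_sub_eq_of_lt_left v h1, map_pow]

variable {p : ℕ} [hp : Fact p.Prime] {k E : Type*} [Field k] [Field E] [Algebra k E]
  [CharP k p] [CharP E p]

/-- the polynomial `C(X, X ^ p - X)` -/
private noncomputable def SS (p : ℕ) (k : Type*) [Field k] : k[X] := CC p X (X ^ p - X)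

omit hp [CharP k p] [CharP E p] in
private theorem aeval_SS (y : E) : aeval y (SS p k) = CC p y (y ^ p - y) := by
  unfold SS CC
  rw [map_neg, map_sum]
  simp only [map_mul, map_natCast, map_pow, aeval_X, map_sub]

private theorem wp_monic (k : Type*) [Field k] [CharP k p] : (X ^ p - X : k[X]).Monic := by
  have := AS_monic (p := p) (0 : k)
  rwa [C_0, sub_zero] at this

private theorem wp_natDegree (k : Type*) [Field k] : (X ^ p - X : k[X]).natDegree = p := by
  have := AS_natDegree (p := p) (0 : k)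
  rwa [C_0, sub_zero] at this

omit [CharP k p] in
private theorem term_deg (c : k[X]) (hc : c.natDegree = 0) (i : ℕ) :
    (c * X ^ i * (X ^ p - X) ^ (p - i)).natDegree ≤ i + p * (p - i) := by
  refine (natDegree_mul_le).trans ?_
  have h1 : (c * X ^ i).natDegree ≤ i := by
    refine natDegree_mul_le.trans ?_
    rw [hc, zero_add]
    exact natDegree_X_pow_le i
  have h2 : ((X ^ p - X : k[X]) ^ (p - i)).natDegree ≤ p * (p - i) := by
    refine natDegree_pow_le.trans ?_
    rw [wp_natDegree, mul_comm]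
  exact add_le_add h1 h2

omit [CharP k p] in
private theorem SS_natDegree_le : (SS p k).natDegree ≤ p * (p - 1) + 1 := by
  have hp2 := hp.out.two_le
  unfold SS CC
  rw [natDegree_neg]
  refine natDegree_sum_le_of_forall_le _ _ fun i hi => ?_
  rw [Finset.mem_Ico] at hi
  refine (term_deg _ (natDegree_natCast _) i).trans ?_
  obtain ⟨t, ht⟩ : ∃ t, p = i + t := ⟨p - i, by omega⟩
  have h1 : p - i = t := by omega
  rw [h1]
  obtain ⟨j, hj⟩ : ∃ j, i = j + 1 := ⟨i - 1, by omega⟩
  have h2 : p - 1 = j + t := by omega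
  rw [h2, hj]
  nlinarith [Nat.zero_le (p * j)]

private theorem SS_coeff : (SS p k).coeff (p * (p - 1) + 1) = -1 := by
  have hp2 := hp.out.two_le
  unfold SS CC
  rw [coeff_neg, finsetSum_coeff, Finset.sum_eq_single 1]
  · rw [Nat.choose_one_right, Nat.div_self (by omega), Nat.cast_one, one_mul, pow_one, mul_comm,
      coeff_mul_X]
    have h1 : ((X ^ p - X : k[X]) ^ (p - 1)).Monic := (wp_monic k).pow (p - 1)
    have h2 : ((X ^ p - X : k[X]) ^ (p - 1)).natDegree = p * (p - 1) := by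
      rw [(wp_monic k).natDegree_pow, wp_natDegree, mul_comm]
    rw [← h2, h1.coeff_natDegree]
  · intro i hi hne
    rw [Finset.mem_Ico] at hi
    refine coeff_eq_zero_of_natDegree_lt
      ((term_deg _ (natDegree_natCast _) i).trans_lt ?_)
    obtain ⟨t, ht⟩ : ∃ t, p = i + t := ⟨p - i, by omega⟩
    have h1 : p - i = t := by omega
    rw [h1]
    obtain ⟨j, hj⟩ : ∃ j, i = j + 2 := ⟨i - 2, by omega⟩
    have h2 : p - 1 = j + 1 + t := by omega
    rw [h2, hj]
    nlinarith [Nat.zero_le (p * j)]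
  · intro h
    exact absurd (Finset.mem_Ico.2 ⟨le_rfl, by omega⟩) h

private theorem SS_facts : SS p k ≠ 0 ∧ (SS p k).natDegree = p * (p - 1) + 1 ∧
    derivative (SS p k) ≠ 0 ∧ (derivative (SS p k)).natDegree = p * (p - 1) := by
  have hc := SS_coeff (p := p) (k := k)
  have h1 : SS p k ≠ 0 := by
    intro h
    rw [h, coeff_zero] at hc
    exact one_ne_zero (neg_eq_zero.1 hc.symm)
  have h2 : (SS p k).natDegree = p * (p - 1) + 1 := by
    refine le_antisymm SS_natDegree_le (le_natDegree_of_ne_zero ?_)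
    rw [hc]
    exact neg_ne_zero.2 one_ne_zero
  have h3 : (derivative (SS p k)).coeff (p * (p - 1)) = -1 := by
    rw [coeff_derivative, hc]
    push_cast
    rw [CharP.cast_eq_zero, zero_mul, zero_add, mul_one]
  have h4 : derivative (SS p k) ≠ 0 := by
    intro h
    rw [h, coeff_zero] at h3
    exact one_ne_zero (neg_eq_zero.1 h3.symm)
  refine ⟨h1, h2, h4, le_antisymm ?_ (le_natDegree_of_ne_zero ?_)⟩
  · have := natDegree_derivative_le (SS p k)
    omega
  · rw [h3]
    exact neg_ne_zero.2 one_ne_zero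

omit hp in
/-- degrees of polynomials without exponents divisible by `p` -/
private theorem q_facts {q : k[X]} (hq : ∀ i, p ∣ i → q.coeff i = 0) (hq0 : q ≠ 0) :
    ¬ p ∣ q.natDegree ∧ 1 ≤ q.natDegree ∧ derivative q ≠ 0 ∧
      (derivative q).natDegree = q.natDegree - 1 := by
  have h1 : ¬ p ∣ q.natDegree := by
    intro h
    have h2 := hq _ h
    rw [coeff_natDegree] at h2
    exact (leadingCoeff_ne_zero.2 hq0) h2
  have h2 : 1 ≤ q.natDegree := by
    by_contra h
    apply h1
    have : q.natDegree = 0 := by omega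
    rw [this]
    exact dvd_zero p
  have h3 : (derivative q).coeff (q.natDegree - 1) ≠ 0 := by
    rw [coeff_derivative]
    have h4 : q.natDegree - 1 + 1 = q.natDegree := by omega
    have h5 : ((q.natDegree - 1 : ℕ) : k) + 1 = ((q.natDegree : ℕ) : k) := by
      rw [← Nat.cast_add_one, h4]
    rw [h4, h5]
    refine mul_ne_zero ?_ ?_
    · rw [coeff_natDegree]
      exact leadingCoeff_ne_zero.2 hq0
    · intro h
      exact h1 ((CharP.cast_eq_zero_iff k p _).1 h)
  refine ⟨h1, h2, ?_, le_antisymm (natDegree_derivative_le q) (le_natDegree_of_ne_zero h3)⟩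
  intro h
  rw [h, coeff_zero] at h3
  exact h3 rfl

private theorem witt_core [IsAlgClosed k] {x : E} {D : Derivation k E E} {v : VI E}
    (L : Lvl p k x D 1 (-1) v) {e : k} (he : e ≠ 0) {y : E}
    (hy : y ^ p - y = algebraMap k E e * x) {q : k[X]} (hq : ∀ i, p ∣ i → q.coeff i = 0) :
    ∃ m : ℤ, (p : ℤ) ^ 1 - (-1) ≤ m ∧
      Red p v (CC p y (algebraMap k E e * x) - aeval x q) m := by
  have hp2 := hp.out.two_le
  have hp2' : (2 : ℤ) ≤ p := by exact_mod_cast hp2
  obtain ⟨g, hL⟩ := L.lev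
  have hvc : ∀ c : k, c ≠ 0 → v (algebraMap k E c) = 1 := hL.v_const
  have hvx : v x = exp (p : ℤ) := by
    rw [hL.v_x, pow_one]
  have hvex : v (algebraMap k E e * x) = exp (p : ℤ) := by
    rw [map_mul, hvc e he, one_mul, hvx]
  -- the order of `y`
  have hy1 : 1 < v y := by
    by_contra h
    push Not at h
    have h1 : v (y ^ p - y) ≤ 1 :=
      Valuation.map_sub_le v (by rw [map_pow]; exact pow_le_one₀ zero_le h) h
    rw [hy, hvex, ← exp_zero, exp_le_exp] at h1
    omega
  have hvy : v y = exp (1 : ℤ) := by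
    have h1 := v_wp v hp2 hy1
    rw [hy, hvex] at h1
    have h0 : v y ≠ 0 := (zero_lt_one.trans hy1).ne'
    rw [← exp_log h0, ← exp_nsmul, exp_inj, nsmul_eq_mul] at h1
    have h2 : log (v y) = 1 := by
      have h3 : (p : ℤ) * log (v y) = p * 1 := by rw [← h1, mul_one]
      exact mul_left_cancel₀ (by omega) h3
    rw [← exp_log h0, h2]
  -- derivatives
  have hDy : D y = -algebraMap k E e := by
    have h1 := congrArg D hy
    rw [map_sub, D.leibniz_pow, D.leibniz, D.map_algebraMap, L.Dx, smul_zero, add_zero,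
      nsmul_eq_mul, CharP.cast_eq_zero, zero_mul, zero_sub, smul_eq_mul, mul_one] at h1
    rw [← h1, neg_neg]
  obtain ⟨ψ, hψ⟩ : ∃ ψ : E, ψ = aeval y (SS p k) - aeval x q := ⟨_, rfl⟩
  have hψ' : CC p y (algebraMap k E e * x) - aeval x q = ψ := by
    rw [hψ, aeval_SS, hy]
  rw [hψ']
  obtain ⟨hS0, hSd, hS'0, hS'd⟩ := SS_facts (p := p) (k := k)
  have hpp : ((p * (p - 1) : ℕ) : ℤ) = p * (p - 1) := by
    push_cast [Nat.cast_sub (by omega : 1 ≤ p)]
    ring
  have hvS : v (aeval y (SS p k)) = exp ((p : ℤ) * (p - 1) + 1) := by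
    rw [val_aeval v hvc one_pos hvy _ _ hS0 hSd, one_mul]
    congr 1
    push_cast [Nat.cast_sub (by omega : 1 ≤ p)]
    ring
  have hDψ : D ψ = -(algebraMap k E e * aeval y (derivative (SS p k))) -
      aeval x (derivative q) := by
    rw [hψ, map_sub, D.map_aeval, D.map_aeval, L.Dx, hDy, smul_eq_mul, smul_eq_mul, mul_one]
    ring
  have hva : v (-(algebraMap k E e * aeval y (derivative (SS p k)))) =
      exp ((p : ℤ) * (p - 1)) := by
    rw [Valuation.map_neg, map_mul, hvc e he, one_mul,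
      val_aeval v hvc one_pos hvy _ _ hS'0 hS'd, one_mul, hpp]
  have hW : exp ((p : ℤ) * (p - 1)) ≤ v (D ψ) ∧
      (q ≠ 0 → exp ((p : ℤ) * (q.natDegree - 1)) ≤ v (D ψ)) := by
    by_cases hq0 : q = 0
    · rw [hDψ, hq0, derivative_zero, map_zero, sub_zero, hva]
      exact ⟨le_rfl, fun h => absurd rfl h⟩
    · obtain ⟨h1, h2, h3, h4⟩ := q_facts hq hq0
      have hvb : v (aeval x (derivative q)) = exp ((p : ℤ) * (q.natDegree - 1)) := by
        rw [val_aeval v hvc (by omega) hvx _ _ h3 h4]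
        congr 2
        push_cast [Nat.cast_sub h2]
        ring
      have hne : v (-(algebraMap k E e * aeval y (derivative (SS p k)))) ≠
          v (aeval x (derivative q)) := by
        rw [hva, hvb, Ne, exp_inj]
        intro h
        have h5 := mul_left_cancel₀ (by omega : (p : ℤ) ≠ 0) h
        apply h1
        have h6 : q.natDegree = p := by omega
        rw [h6]
      have h7 : v (D ψ) = max (exp ((p : ℤ) * (p - 1))) (exp ((p : ℤ) * (q.natDegree - 1))) := by
        rw [hDψ]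
        rcases lt_or_gt_of_ne hne with h8 | h8
        · rw [Valuation.map_sub_eq_of_lt_right v h8, hvb, max_eq_right]
          rw [← hva, ← hvb]
          exact h8.le
        · rw [Valuation.map_sub_eq_of_lt_left v h8, hva, max_eq_left]
          rw [← hva, ← hvb]
          exact h8.le
      rw [h7]
      exact ⟨le_max_left _ _, fun _ => le_max_right _ _⟩
  -- the order of `ψ`
  obtain ⟨M, hM⟩ : ∃ M : ℕ, M = max (p * (p - 1) + 1) (p * q.natDegree) := ⟨_, rfl⟩
  have hψM : v ψ ≤ exp (M : ℤ) := by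
    rw [hψ]
    refine Valuation.map_sub_le v ?_ ?_
    · rw [hvS, exp_le_exp, ← hpp]
      have : p * (p - 1) + 1 ≤ M := by
        rw [hM]
        exact le_max_left _ _
      exact_mod_cast this
    · by_cases hq0 : q = 0
      · rw [hq0, map_zero, map_zero]
        exact zero_le
      · rw [val_aeval v hvc (by omega) hvx _ _ hq0 rfl, exp_le_exp]
        have : p * q.natDegree ≤ M := by
          rw [hM]
          exact le_max_right _ _
        exact_mod_cast this
  obtain ⟨h, hh⟩ := hL.reduce M ψ hψM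
  have hred : v (ψ - (h ^ p - h)) ≤ exp (M : ℤ) := by
    rcases hh with hh | ⟨l, -, -, hlM, hl⟩
    · refine hh.le.trans ?_
      rw [← exp_zero, exp_le_exp]
      exact Int.natCast_nonneg M
    · rw [hl, exp_le_exp]
      exact hlM
  have hwp : v (h ^ p - h) ≤ exp (M : ℤ) := by
    have h1 : h ^ p - h = ψ - (ψ - (h ^ p - h)) := by ring
    rw [h1]
    exact Valuation.map_sub_le v hψM hred
  have hhM : v h ^ p ≤ exp (M : ℤ) := by
    by_cases h1 : v h ≤ 1
    · refine (pow_le_one₀ zero_le h1).trans ?_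
      rw [← exp_zero, exp_le_exp]
      exact Int.natCast_nonneg M
    · push Not at h1
      rw [← v_wp v hp2 h1]
      exact hwp
  have hDh : v (D h) < v (D ψ) := by
    by_cases h0 : h = 0
    · rw [h0, map_zero, map_zero]
      exact lt_of_lt_of_le (zero_lt_iff.2 exp_ne_zero) hW.1
    · have hv0 : v h ≠ 0 := (Valuation.ne_zero_iff v).2 h0
      obtain ⟨j, hj⟩ : ∃ j : ℤ, v h = exp j := ⟨log (v h), (exp_log hv0).symm⟩
      rw [hj, ← exp_nsmul, exp_le_exp, nsmul_eq_mul] at hhM
      have h1 : v (D h) ≤ exp (j - 1) := by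
        refine (L.le h).trans ?_
        rw [hj, ← exp_add, exp_le_exp]
        omega
      refine h1.trans_lt ?_
      rcases le_total (p * q.natDegree) (p * (p - 1) + 1) with h2 | h2
      · rw [hM, max_eq_left h2] at hhM
        refine lt_of_lt_of_le ?_ hW.1
        rw [exp_lt_exp]
        have h3 : (p : ℤ) * j ≤ p * (p - 1) + 1 := by
          rw [← hpp]
          exact_mod_cast hhM
        have h4 : j < p := by
          by_contra h5
          push Not at h5
          nlinarith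
        nlinarith
      · rw [hM, max_eq_right h2] at hhM
        have h3 : (p : ℤ) * j ≤ p * q.natDegree := by exact_mod_cast hhM
        have h4 : j ≤ q.natDegree := by
          by_contra h5
          push Not at h5
          nlinarith
        have hq0 : q ≠ 0 := by
          intro h5
          rw [h5, natDegree_zero, mul_zero] at h2
          omega
        by_cases h6 : q.natDegree ≤ 1
        · refine lt_of_lt_of_le ?_ hW.1
          rw [exp_lt_exp]
          have h7 : ((q.natDegree : ℕ) : ℤ) ≤ 1 := by exact_mod_cast h6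
          nlinarith
        · refine lt_of_lt_of_le ?_ (hW.2 hq0)
          rw [exp_lt_exp]
          have h7 : (2 : ℤ) ≤ ((q.natDegree : ℕ) : ℤ) := by
            push Not at h6
            exact_mod_cast h6
          nlinarith
  have hDψ' : v (D (ψ - (h ^ p - h))) = v (D ψ) := by
    have h1 : D (ψ - (h ^ p - h)) = D ψ + D h := by
      rw [map_sub, map_sub, D.leibniz_pow, nsmul_eq_mul, CharP.cast_eq_zero, zero_mul]
      ring
    rw [h1, Valuation.map_add_eq_of_lt_left v hDh]
  have hge : exp ((p : ℤ) * (p - 1)) ≤ v (D (ψ - (h ^ p - h))) := by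
    rw [hDψ']
    exact hW.1
  rcases hh with hh | ⟨l, hl0, hlp, -, hl⟩
  · exfalso
    have h1 := hge.trans (L.le _)
    have h2 : exp (-1 : ℤ) * v (ψ - (h ^ p - h)) ≤ exp (-1 : ℤ) := by
      calc exp (-1 : ℤ) * v (ψ - (h ^ p - h)) ≤ exp (-1 : ℤ) * 1 := mul_le_mul_right hh.le _
        _ = _ := mul_one _
    have h3 := h1.trans h2
    rw [exp_le_exp] at h3
    nlinarith
  · refine ⟨l, ?_, hl0, hlp, h, hl⟩
    have h1 := L.eq _ l hl hlp
    rw [h1, exp_le_exp] at hge
    rw [pow_one]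
    nlinarith

end abstract_part

variable {p : ℕ} [hp : Fact p.Prime] {k K Ω : Type*} [Field k] [IsAlgClosed k] [Field K]
  [Field Ω] [Algebra k K] [Algebra K Ω] [Algebra k Ω] [IsScalarTower k K Ω] [CharP k p]
  [CharP K p] [CharP Ω p] [IsSepClosure K Ω] {x : K} {vK : VI K} {D : Derivation k Ω Ω}

theorem big_pol (B : Base p k x vK) (hD : D (algebraMap K Ω x) = 1)
    {E : IntermediateField K Ω} {n : ℕ} {κ : ℤ} {v : VI E}
    (U : UU p k x D E n κ v) (hN : NN p n κ) {q : k[X]} (hq : ∀ i, p ∣ i → q.coeff i = 0)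
    (hd : 2 ≤ q.natDegree) : Big p E n κ v (algebraMap K Ω (aeval x q)) := by
  obtain ⟨v₀, T₀, hv₀⟩ := TT.bot (p := p) (k := k) (x := x) (D := D) B hD
  have hgal : IsGalois K (⊥ : IntermediateField K Ω) :=
    IsGalois.of_algEquiv (botEquiv K Ω).symm
  have U₀ : UU p k x D (⊥ : IntermediateField K Ω) 0 (-1) v₀ := ⟨T₀, hgal⟩
  have hq0 : q ≠ 0 := by
    rintro rfl
    rw [natDegree_zero] at hd
    omega
  obtain ⟨h1, h2, -, -⟩ := q_facts hq hq0
  have hbase := B.lev
  have hvx : vK x = exp (1 : ℤ) := by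
    rw [hbase.v_x, pow_zero]
  refine Big.mono B hD U₀ U bot_le hN ⟨IntermediateField.algebraMap_mem _ _, q.natDegree, ?_, ?_, ?_, 0, ?_⟩
  · rw [pow_zero]
    have : (2 : ℤ) ≤ q.natDegree := by exact_mod_cast hd
    linarith
  · exact_mod_cast h2
  · exact_mod_cast h1
  · rw [zero_pow hp.out.ne_zero, sub_zero, sub_zero]
    have h3 := hv₀ (aeval x q)
    rw [val_aeval vK hbase.v_const one_pos hvx _ _ hq0 rfl, one_mul] at h3
    exact h3

theorem big_witt (B : Base p k x vK) (hD : D (algebraMap K Ω x) = 1)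
    {E : IntermediateField K Ω} {n : ℕ} {κ : ℤ} {v : VI E}
    (U : UU p k x D E n κ v) (hN : NN p n κ) {e : k} (he : e ≠ 0) {w₁ : Ω} (hw₁ : w₁ ∈ E)
    (hw : w₁ ^ p - w₁ = algebraMap k Ω e * algebraMap K Ω x)
    {q : k[X]} (hq : ∀ i, p ∣ i → q.coeff i = 0) :
    Big p E n κ v (CC p w₁ (algebraMap k Ω e * algebraMap K Ω x) -
      algebraMap K Ω (aeval x q)) := by
  obtain ⟨v₀, T₀, hv₀⟩ := TT.bot (p := p) (k := k) (x := x) (D := D) B hD
  have hbase := B.lev
  have hvx : vK x = exp (1 : ℤ) := by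
    rw [hbase.v_x, pow_zero]
  obtain ⟨f₀, hf₀⟩ : ∃ f₀ : K, f₀ = algebraMap k K e * x := ⟨_, rfl⟩
  have hvf₀ : vK f₀ = exp (1 : ℤ) := by
    rw [hf₀, map_mul, hbase.v_const e he, one_mul, hvx]
  have hp1 : ¬ (p : ℤ) ∣ 1 := by
    intro h
    have h1 : p ∣ 1 := by exact_mod_cast h
    exact hp.out.one_lt.ne' (Nat.dvd_one.1 h1)
  have hf₀Ω : algebraMap K Ω f₀ = algebraMap k Ω e * algebraMap K Ω x := by
    rw [hf₀, map_mul, ← IsScalarTower.algebraMap_apply]
  have hnp : ∀ a : K, a ^ p - a ≠ f₀ := by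
    intro a ha
    have h1 : Red p vK f₀ 1 := ⟨one_pos, hp1, 0, by
      rw [zero_pow hp.out.ne_zero, sub_zero, sub_zero]
      exact hvf₀⟩
    have h2 := Red.le_of_le h1 (c := a) (l := 0) (by
      rw [ha, sub_self, map_zero]
      exact zero_le)
    omega
  have hwbot : w₁ ∉ (⊥ : IntermediateField K Ω) := by
    intro h
    obtain ⟨a, rfl⟩ := mem_bot.1 h
    apply hnp a
    apply (algebraMap K Ω).injective
    rw [map_sub, map_pow, hw, hf₀Ω]
  obtain ⟨f₁, hf₁⟩ : ∃ f₁ : (⊥ : IntermediateField K Ω), f₁ = algebraMap K _ f₀ := ⟨_, rfl⟩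
  have hf₁R : f₁ ∈ Rint k (algebraMap K (⊥ : IntermediateField K Ω) x) := by
    have h1 : f₁ = algebraMap k (⊥ : IntermediateField K Ω) e *
        algebraMap K (⊥ : IntermediateField K Ω) x := by
      apply Subtype.ext
      rw [hf₁]
      exact hf₀Ω
    rw [h1]
    exact mul_mem (Subalgebra.algebraMap_mem _ e) (self_mem_Rint _)
  obtain ⟨l, c, v₁, hl0, hlp, hlc, hv₁, ⟨-, -⟩, T₁⟩ := T₀.adj B hD (w := w₁) (f := f₁) (by
    rw [hw, hf₁, ← hf₀Ω]
    rfl) hf₁R hwbot
  have hv₀f : v₀ f₁ = exp (1 : ℤ) := by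
    rw [hf₁, hv₀, hvf₀]
  have hl1 : l = 1 := by
    have h1 : Red p v₀ f₁ 1 := ⟨one_pos, hp1, 0, by
      rw [zero_pow hp.out.ne_zero, sub_zero, sub_zero]
      exact hv₀f⟩
    exact Red.unique ⟨hl0, hlp, c, hlc⟩ h1
  have hκ : (p : ℤ) * (-1) + (p - 1) * l = -1 := by
    rw [hl1]
    ring
  rw [hκ, zero_add] at T₁
  -- the field `E₁`
  have hmem : w₁ ∈ (⊥ : IntermediateField K Ω) ⊔ IntermediateField.adjoin K {w₁} :=
    (le_sup_right : IntermediateField.adjoin K {w₁} ≤ _) (mem_adjoin_simple_self K w₁)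
  obtain ⟨y, hy⟩ : ∃ y : ↥((⊥ : IntermediateField K Ω) ⊔ IntermediateField.adjoin K {w₁}),
      (y : Ω) = w₁ := ⟨⟨w₁, hmem⟩, rfl⟩
  have hyeq : y ^ p - y = algebraMap K _ f₀ := by
    apply Subtype.ext
    change (y : Ω) ^ p - (y : Ω) = algebraMap K Ω f₀
    rw [hy, hw, hf₀Ω]
  have hAS : ASData p y f₀ := by
    refine ⟨hyeq, hnp, ?_⟩
    rw [eq_top_iff]
    intro z _
    have hint : IsIntegral K w₁ := by
      refine ⟨X ^ p - X - C f₀, AS_monic f₀, ?_⟩
      simp [hw, hf₀Ω]
    have h1 := adjoin_simple_toSubalgebra_of_isAlgebraic hint.isAlgebraic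
    have h2 : (z : Ω) ∈ Algebra.adjoin K {w₁} := by
      rw [← h1]
      exact (bot_sup_eq (IntermediateField.adjoin K {w₁})).le z.2
    rw [Algebra.adjoin_singleton_eq_range_aeval] at h2 ⊢
    obtain ⟨r, hr⟩ := h2
    refine ⟨r, ?_⟩
    apply Subtype.ext
    rw [← hr]
    have h4 := aeval_algHom_apply
      (IntermediateField.val ((⊥ : IntermediateField K Ω) ⊔ IntermediateField.adjoin K {w₁})) y r
    rw [coe_val, hy] at h4
    exact h4.symm
  have hcE : CharP ↥((⊥ : IntermediateField K Ω) ⊔ IntermediateField.adjoin K {w₁}) p :=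
    charP_of_injective_algebraMap (algebraMap K _).injective p
  have hgal : IsGalois K ↥((⊥ : IntermediateField K Ω) ⊔ IntermediateField.adjoin K {w₁}) :=
    hAS.isGalois
  have U₁ : UU p k x D ((⊥ : IntermediateField K Ω) ⊔ IntermediateField.adjoin K {w₁}) 1 (-1)
      v₁ := ⟨T₁, hgal⟩
  obtain ⟨D', -, L₁⟩ := T₁.lvl
  obtain ⟨m, hm, hR⟩ := witt_core L₁ he (y := y) (by
    rw [hyeq]
    apply Subtype.ext
    exact hf₀Ω) hq
  obtain ⟨ψ, hψ⟩ : ∃ ψ : ↥((⊥ : IntermediateField K Ω) ⊔ IntermediateField.adjoin K {w₁}),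
      ψ = CC p y (algebraMap k _ e * algebraMap K _ x) - aeval (algebraMap K _ x) q := ⟨_, rfl⟩
  have hψΩ : (ψ : Ω) = CC p w₁ (algebraMap k Ω e * algebraMap K Ω x) -
      algebraMap K Ω (aeval x q) := by
    have h1 : (ψ : Ω) = (IntermediateField.val _).toRingHom ψ := rfl
    rw [h1, hψ, map_sub]
    congr 1
    · unfold CC
      rw [map_neg, map_sum]
      congr 1
      refine Finset.sum_congr rfl fun i _ => ?_
      rw [map_mul, map_mul, map_natCast, map_pow, map_pow, map_mul]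
      have h2 : (IntermediateField.val _).toRingHom y = w₁ := hy
      rw [h2]
      rfl
    · have h2 : aeval (algebraMap K Ω x) q = algebraMap K Ω (aeval x q) := by
        rw [aeval_algebraMap_apply]
      rw [← h2]
      have h3 := aeval_algebraMap_apply
        (↥((⊥ : IntermediateField K Ω) ⊔ IntermediateField.adjoin K {w₁})) x q
      rw [h3, h2]
      rfl
  have hbig : Big p ((⊥ : IntermediateField K Ω) ⊔ IntermediateField.adjoin K {w₁}) 1 (-1) v₁
      (CC p w₁ (algebraMap k Ω e * algebraMap K Ω x) - algebraMap K Ω (aeval x q)) := by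
    rw [← hψΩ]
    refine ⟨ψ.2, m, hm, ?_⟩
    have h1 : (⟨(ψ : Ω), ψ.2⟩ : ↥((⊥ : IntermediateField K Ω) ⊔
        IntermediateField.adjoin K {w₁})) = ψ := rfl
    rw [h1, hψ]
    exact hR
  refine Big.mono B hD U₁ U ?_ hN hbig
  rw [bot_sup_eq, adjoin_simple_le_iff]
  exact hw₁

end BAC
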