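import Pool.Agent.BAC.MatFrq

/-!
BAC / B4 (blueprint 4.3 (a), (c)). Bounds for the entries of a Lang torsor.

`v xL = exp (p l)`, entries of `D` are constants (`v ≤ 1`). `ent_bd`: strong induction on `d i - d j`.
`d i < d j`: `g i j = 0`; `d i = d j`: `1` or `0`. Otherwise
`(g i j)^p - g i j = ∑_{a ≠ i} (Ex (x D) - 1) i a * g a j`; nonzero terms have `d j ≤ d a < d i`;
`v ((Ex (x D) - 1) i a) ≤ exp (p l (d i - d a))`: entries of `(x D)^s` vanish unless `s ≤ d i - d a` and have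
`v ≤ exp (p l s)`, the factorials are constants (`v ≤ 1`: `v` of the inverse of a natural number prime to
`p`: hypothesis `hc` applied to `(s! : k)⁻¹`); `v (g a j) ≤ exp (l (d a - d j)) ≤ exp (p l (d a - d j))`. So
`v ((g i j)^p - g i j) ≤ exp (p l (d i - d j))`, hence `v (g i j) ≤ exp (l (d i - d j))` (otherwise `v (g i j) > 1`
and `v (g^p - g) = v (g)^p`). Inverse: `g⁻¹ = ∑_{s<p} (1 - g)^s` (`uni_inv_eq`), the bound
`exp (l (d i - d j))` is multiplicative along products of matrices.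
`conj_bd`: `g1 = Fr (p^e) g`, `g1⁻¹ = Fr (p^e) g⁻¹` (`Frq_inv`): entries `v ≤ exp (q l (d i - d j))`, `q = p ^ e`. The
entry `(i, j)` of `g1⁻¹ * D1 * g1` is a sum of terms with `d i ≥ d a ≥ d b + 1 > d b ≥ d j` and
`v ≤ exp (q l (d i - d a)) exp (q l (d b - d j)) ≤ exp (q l (d i - d j - 1)) ≤ exp (q l (p - 2))`.
`u_bd`: `v y ≤ exp (- (q l (p - 2) + 1))`: `M' = g1⁻¹ * (y • D1) * g1` has entries `v < 1`, `JJ d 1 M'`, and
`Ex p M' = g1⁻¹ * Ex p (y • D1) * g1` (`Ex_conj`): entries of `Ex p M' - 1` have `v < 1`.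
-/

namespace BAC

open WithZero

section vb

variable {I : Type*} [Fintype I] [DecidableEq I] {d : I → ℕ} {L : Type*} [Field L] {v : VI L}

/-- filtration and bound for the valuations of the entries -/
def VB (v : VI L) (d : I → ℕ) (c : ℤ) (t : ℕ) (M : Matrix I I L) : Prop :=
  JJ d t M ∧ ∀ i j, v (M i j) ≤ exp (c * ((d i : ℤ) - d j - t))

theorem VB.mul {c : ℤ} {t t' : ℕ} {M N : Matrix I I L} (hM : VB v d c t M)
    (hN : VB v d c t' N) : VB v d c (t + t') (M * N) := by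
  refine ⟨hM.1.mul hN.1, fun i j => ?_⟩
  rw [Matrix.mul_apply]
  refine Valuation.map_sum_le _ fun a _ => ?_
  rw [map_mul]
  refine (mul_le_mul' (hM.2 i a) (hN.2 a j)).trans ?_
  rw [← exp_add]
  refine le_of_eq ?_
  congr 1
  push_cast
  ring

theorem VB.sum {ι : Type*} {c : ℤ} {t : ℕ} (s : Finset ι) (f : ι → Matrix I I L)
    (h : ∀ i ∈ s, VB v d c t (f i)) : VB v d c t (∑ i ∈ s, f i) := by
  refine ⟨JJ.sum s f fun i hi => (h i hi).1, fun i j => ?_⟩
  rw [Matrix.sum_apply]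
  exact Valuation.map_sum_le _ fun a ha => (h a ha).2 i j

theorem VB.one {c : ℤ} : VB v d c 0 (1 : Matrix I I L) := by
  refine ⟨JJ.one, fun i j => ?_⟩
  by_cases h : i = j
  · subst h
    rw [Matrix.one_apply_eq, map_one, sub_self, Nat.cast_zero, sub_zero, mul_zero, exp_zero]
  · rw [Matrix.one_apply_ne h, map_zero]
    exact zero_le

theorem VB.neg {c : ℤ} {t : ℕ} {M : Matrix I I L} (hM : VB v d c t M) : VB v d c t (-M) :=
  ⟨hM.1.neg, fun i j => by
    rw [Matrix.neg_apply, Valuation.map_neg]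
    exact hM.2 i j⟩

theorem VB.add {c : ℤ} {t : ℕ} {M N : Matrix I I L} (hM : VB v d c t M)
    (hN : VB v d c t N) : VB v d c t (M + N) :=
  ⟨hM.1.add hN.1, fun i j => by
    rw [Matrix.add_apply]
    exact Valuation.map_add_le _ (hM.2 i j) (hN.2 i j)⟩

theorem VB.sub {c : ℤ} {t : ℕ} {M N : Matrix I I L} (hM : VB v d c t M)
    (hN : VB v d c t N) : VB v d c t (M - N) := by
  rw [sub_eq_add_neg]
  exact hM.add hN.neg

theorem VB.pow {c : ℤ} {M : Matrix I I L} (hM : VB v d c 0 M) (s : ℕ) : VB v d c 0 (M ^ s) := by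
  induction s with
  | zero =>
    rw [pow_zero]
    exact VB.one
  | succ s ih =>
    rw [pow_succ]
    exact ih.mul hM

theorem VB.smul {c : ℤ} {t : ℕ} {M : Matrix I I L} (hM : VB v d c t M) {a : L} (ha : v a ≤ 1) :
    VB v d c t (a • M) := by
  refine ⟨JJ.smul a hM.1, fun i j => ?_⟩
  rw [Matrix.smul_apply, smul_eq_mul, map_mul]
  exact (mul_le_mul' ha (hM.2 i j)).trans (by rw [one_mul])

/-- constants -/
theorem VB.const {k : Type*} [Field k] [Algebra k L]
    (hc : ∀ c : k, v (algebraMap k L c) ≤ 1) {c : ℤ} (hc0 : 0 ≤ c) {t : ℕ} {D : Matrix I I k}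
    (hD : JJ d t D) : VB v d c t (D.map (algebraMap k L)) := by
  refine ⟨JJ.map _ (map_zero _) hD, fun i j => ?_⟩
  rw [Matrix.map_apply]
  by_cases h : D i j = 0
  · rw [h, map_zero, map_zero]
    exact zero_le
  · have h1 := hD i j h
    refine (hc _).trans ?_
    rw [← exp_zero, exp_le_exp]
    exact mul_nonneg hc0 (by omega)

end vb

variable {p : ℕ} [hp : Fact p.Prime] {I : Type*} [Fintype I] [DecidableEq I] {d : I → ℕ}
  {k L : Type*} [Field k] [Field L] [Algebra k L] [CharP k p] [CharP L p] {v : VI L}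

/-- the truncated exponential has bounded entries -/
theorem VB.Ex (hc : ∀ c : k, v (algebraMap k L c) ≤ 1) {c : ℤ} {M : Matrix I I L}
    (hM : VB v d c 0 M) : VB v d c 0 (BAC.Ex p M) := by
  unfold BAC.Ex
  refine VB.sum _ _ fun s _ => (hM.pow s).smul ?_
  have h := hc ((s.factorial : k)⁻¹)
  rwa [map_inv₀, map_natCast] at h

theorem as_bd {y : L} {m : ℕ} (h : v (y ^ p - y) ≤ exp ((p : ℤ) * m)) : v y ≤ exp (m : ℤ) := by
  by_contra hcon
  rw [not_le] at hcon
  have hp2 := hp.out.two_le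
  have h1 : 1 < v y := by
    refine lt_of_le_of_lt ?_ hcon
    rw [← exp_zero, exp_le_exp]
    exact Int.natCast_nonneg m
  have h2 : v y < v (y ^ p) := by
    rw [map_pow]
    exact lt_self_pow₀ h1 (by omega)
  have h3 : v (y ^ p - y) = v (y ^ p) := by
    rw [Valuation.map_sub_swap]
    exact Valuation.map_sub_eq_of_lt_right v h2
  rw [h3, map_pow] at h
  have h4 : exp ((p : ℤ) * m) = (exp (m : ℤ) : WithZero (Multiplicative ℤ)) ^ p := by
    rw [← exp_nsmul]
    congr 1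
  rw [h4] at h
  exact absurd h (not_le.mpr (pow_lt_pow_left₀ hcon zero_le (by omega)))

theorem ent_bd_VB (hc : ∀ c : k, v (algebraMap k L c) ≤ 1) {xL : L} {l : ℕ}
    (hx : v xL = exp ((p : ℤ) * l)) {Dm : Matrix I I k} (hD : JJ d 1 Dm) {g : Matrix I I L}
    (hg : JJ d 1 (g - 1)) (h : Fr p g = Ex p (xL • Dm.map (algebraMap k L)) * g) :
    VB v d (l : ℤ) 0 g := by
  have hg0 : JJ d 0 g := JJ.zero_of_uni hg
  have hpl : (0 : ℤ) ≤ (p : ℤ) * l := by positivity
  -- the matrix `xL D`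
  have hxD1 : JJ d 1 (xL • Dm.map (algebraMap k L)) :=
    JJ.smul xL (JJ.map _ (map_zero _) hD)
  have hxD : VB v d ((p : ℤ) * l) 0 (xL • Dm.map (algebraMap k L)) := by
    refine ⟨hxD1.mono (Nat.zero_le 1), fun i j => ?_⟩
    rw [Matrix.smul_apply, smul_eq_mul, map_mul, hx]
    have h1 := (VB.const hc hpl hD).2 i j
    refine (mul_le_mul' le_rfl h1).trans ?_
    rw [← exp_add]
    refine le_of_eq ?_
    congr 1
    push_cast
    ring
  have hE : VB v d ((p : ℤ) * l) 0 (BAC.Ex p (xL • Dm.map (algebraMap k L))) := VB.Ex hc hxD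
  have hE1 : JJ d 1 (BAC.Ex p (xL • Dm.map (algebraMap k L)) - 1) := Ex_uni le_rfl hxD1
  refine ⟨hg0, ?_⟩
  have key : ∀ (n : ℕ) (i j : I), d i = n → v (g i j) ≤ exp ((l : ℤ) * ((d i : ℤ) - d j)) := by
    intro n
    induction n using Nat.strong_induction_on with
    | _ n ih =>
      intro i j hin
      by_cases hij : g i j = 0
      · rw [hij, map_zero]
        exact zero_le
      have hdij : d j ≤ d i := by
        have := hg0 i j hij
        omega
      obtain ⟨m, hm⟩ : ∃ m : ℕ, (m : ℤ) = (l : ℤ) * ((d i : ℤ) - d j) :=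
        ⟨l * (d i - d j), by
          push_cast [Nat.cast_sub hdij]
          ring⟩
      rw [← hm]
      refine as_bd (p := p) ?_
      have h1 : (g i j) ^ p = ∑ a, BAC.Ex p (xL • Dm.map (algebraMap k L)) i a * g a j := by
        have := congrFun (congrFun h i) j
        rw [Matrix.mul_apply] at this
        exact this
      have h2 : (g i j) ^ p - g i j = ∑ a ∈ Finset.univ.erase i,
          BAC.Ex p (xL • Dm.map (algebraMap k L)) i a * g a j := by
        rw [h1, ← Finset.add_sum_erase _ _ (Finset.mem_univ i), uni_diag hE1, one_mul,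
          add_sub_cancel_left]
      rw [h2]
      refine Valuation.map_sum_le _ fun a ha => ?_
      have hai : a ≠ i := (Finset.mem_erase.mp ha).1
      by_cases hEa : BAC.Ex p (xL • Dm.map (algebraMap k L)) i a = 0
      · rw [hEa, zero_mul, map_zero]
        exact zero_le
      by_cases hga : g a j = 0
      · rw [hga, mul_zero, map_zero]
        exact zero_le
      have h3 := uni_off hE1 hai.symm hEa
      have h4 := hg0 a j hga
      have h5 := ih (d a) (by omega) a j rfl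
      rw [map_mul]
      refine (mul_le_mul' (hE.2 i a) h5).trans ?_
      rw [← exp_add, exp_le_exp, hm]
      have h6 : (l : ℤ) * ((d a : ℤ) - d j) ≤ (p : ℤ) * l * ((d a : ℤ) - d j) := by
        refine mul_le_mul_of_nonneg_right ?_ (by omega)
        have hp1 : (1 : ℤ) ≤ p := by exact_mod_cast hp.out.one_lt.le
        nlinarith [Int.natCast_nonneg l]
      have h7 : (p : ℤ) * ((l : ℤ) * ((d i : ℤ) - d j)) =
          (p : ℤ) * l * ((d i : ℤ) - d a) + (p : ℤ) * l * ((d a : ℤ) - d j) := by ring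
      rw [h7, Nat.cast_zero, sub_zero]
      omega
  intro i j
  rw [Nat.cast_zero, sub_zero]
  exact key (d i) i j rfl

theorem ent_bd_inv (hd : ∀ i, d i < p) {c : ℤ} {g : Matrix I I L}
    (hg : JJ d 1 (g - 1)) (h : VB v d c 0 g) : VB v d c 0 g⁻¹ := by
  rw [uni_inv_eq hd hg]
  exact VB.sum _ _ fun s _ => (VB.one.sub h).pow s

theorem ent_bd (hd : ∀ i, d i < p) (hc : ∀ c : k, v (algebraMap k L c) ≤ 1) {xL : L} {l : ℕ}
    (hx : v xL = exp ((p : ℤ) * l)) {Dm : Matrix I I k} (hD : JJ d 1 Dm) {g : Matrix I I L}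
    (hg : JJ d 1 (g - 1)) (h : Fr p g = Ex p (xL • Dm.map (algebraMap k L)) * g) (i j : I) :
    v (g i j) ≤ exp ((l : ℤ) * ((d i : ℤ) - d j)) ∧
      v (g⁻¹ i j) ≤ exp ((l : ℤ) * ((d i : ℤ) - d j)) := by
  have h1 := ent_bd_VB hc hx hD hg h
  have h2 := ent_bd_inv hd hg h1
  have h3 := h1.2 i j
  have h4 := h2.2 i j
  rw [Nat.cast_zero, sub_zero] at h3 h4
  exact ⟨h3, h4⟩

theorem u_bd (hd : ∀ i, d i < p) (hc : ∀ c : k, v (algebraMap k L c) ≤ 1) {xL : L} {l : ℕ}
    (hx : v xL = exp ((p : ℤ) * l)) {Dm : Matrix I I k} (hD : JJ d 1 Dm) {g : Matrix I I L}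
    (hg : JJ d 1 (g - 1)) (h : Fr p g = Ex p (xL • Dm.map (algebraMap k L)) * g) (e : ℕ)
    {D1 : Matrix I I k} (hD1 : JJ d 1 D1) {y : L}
    (hy : v y ≤ exp (-((p : ℤ) ^ e * l * ((p : ℤ) - 2) + 1))) :
    JJ d 1 ((Fr (p ^ e) g)⁻¹ * Ex p (y • D1.map (algebraMap k L)) * Fr (p ^ e) g - 1) ∧
      ∀ i j, v (((Fr (p ^ e) g)⁻¹ * Ex p (y • D1.map (algebraMap k L)) * Fr (p ^ e) g - 1) i j)
        < 1 := by
  set c : ℤ := (p : ℤ) ^ e * l with hcdef
  have hc0 : 0 ≤ c := by positivity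
  have hg1 := ent_bd_VB hc hx hD hg h
  set g1 := Fr (p ^ e) g with hg1def
  have hu : JJ d 1 (g1 - 1) := uni_Frq e hg
  have hVg1 : VB v d c 0 g1 := by
    refine ⟨JJ.zero_of_uni hu, fun i j => ?_⟩
    change v ((g i j) ^ (p ^ e)) ≤ _
    rw [map_pow]
    refine (pow_le_pow_left₀ zero_le (hg1.2 i j) _).trans ?_
    rw [← exp_nsmul]
    refine le_of_eq ?_
    congr 1
    rw [nsmul_eq_mul, hcdef]
    push_cast
    ring
  have hVi : VB v d c 0 g1⁻¹ := ent_bd_inv hd hu hVg1
  have hVD : VB v d c 1 (D1.map (algebraMap k L)) := VB.const hc hc0 hD1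
  have hVM : VB v d c 1 (g1⁻¹ * D1.map (algebraMap k L) * g1) := by
    have := (hVi.mul hVD).mul hVg1
    rwa [zero_add, add_zero] at this
  -- the conjugated matrix
  set M : Matrix I I L := g1⁻¹ * (y • D1.map (algebraMap k L)) * g1 with hM
  have hM' : M = y • (g1⁻¹ * D1.map (algebraMap k L) * g1) := by
    rw [hM, mul_smul_comm, smul_mul_assoc]
  have hMJ : JJ d 1 M := by
    rw [hM']
    exact JJ.smul y hVM.1
  have hMv : ∀ i j, v (M i j) ≤ exp (-1 : ℤ) := by
    intro i j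
    by_cases h0 : M i j = 0
    · rw [h0, map_zero]
      exact zero_le
    have h1 := hMJ i j h0
    have h2 := hd i
    rw [hM', Matrix.smul_apply, smul_eq_mul, map_mul]
    refine (mul_le_mul' hy (hVM.2 i j)).trans ?_
    rw [← exp_add, exp_le_exp]
    have h3 : c * ((d i : ℤ) - d j - (1 : ℕ)) ≤ c * ((p : ℤ) - 2) := by
      refine mul_le_mul_of_nonneg_left ?_ hc0
      push_cast
      omega
    linarith
  have hex : Ex p M = g1⁻¹ * Ex p (y • D1.map (algebraMap k L)) * g1 :=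
    Ex_conj (uni_mul_inv hd hu) (uni_inv_mul hd hu) _
  rw [← hex]
  refine ⟨Ex_uni le_rfl hMJ, fun i j => ?_⟩
  have hm1 : (exp (-1 : ℤ) : WithZero (Multiplicative ℤ)) < 1 := by
    rw [← exp_zero, exp_lt_exp]
    norm_num
  have hpow : ∀ (s : ℕ) (i j : I), v ((M ^ (s + 1)) i j) ≤ exp (-1 : ℤ) := by
    intro s
    induction s with
    | zero =>
      intro i j
      rw [zero_add, pow_one]
      exact hMv i j
    | succ s ih =>
      intro i j
      rw [pow_succ, Matrix.mul_apply]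
      refine Valuation.map_sum_le _ fun a _ => ?_
      rw [map_mul]
      refine (mul_le_mul' (ih i a) ((hMv a j).trans hm1.le)).trans ?_
      rw [mul_one]
  refine lt_of_le_of_lt ?_ hm1
  obtain ⟨q, hq⟩ : ∃ q, p = q + 1 := ⟨p - 1, by
    have := hp.out.pos
    omega⟩
  have h1 : Ex p M - 1 = ∑ s ∈ Finset.range q, (((s + 1).factorial : L)⁻¹) • M ^ (s + 1) := by
    unfold Ex
    conv_lhs => rw [hq]
    rw [Finset.sum_range_succ', pow_zero, Nat.factorial_zero, Nat.cast_one, inv_one, one_smul,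
      add_sub_cancel_right]
  rw [h1, Matrix.sum_apply]
  refine Valuation.map_sum_le _ fun s _ => ?_
  rw [Matrix.smul_apply, smul_eq_mul, map_mul]
  have h2 := hc (((s + 1).factorial : k)⁻¹)
  rw [map_inv₀, map_natCast] at h2
  refine (mul_le_mul' h2 (hpow s i j)).trans ?_
  rw [one_mul]

end BAC
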