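import Pool.Agent.BAC.LangSolve

/-!
BAC / B5 (blueprint 4.3 (c), (d)). The embedding `ψ`.

`exists_psi0`: `K = k(x)`: `k[X] → M`, `c ↦ c ^ (p^e)`, `X ↦ y` (`Polynomial.eval₂RingHom` with
`(algebraMap k M).comp (iterateFrobenius k p e)`) is injective: a relation `∑ (c_i^q) y^i = 0` is an algebraic
relation for `y` over `k` unless all `c_i = 0`. Extend to the fraction field: `K ≅ RatFunc k`
(`B.gen`, `B.trans`; or: every element of `K` is a quotient of polynomials in `x`; e.g.
`IsLocalization.lift` with `IsFractionRing k[X] K` for the algebra structure given by `aeval x`).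
`exists_psi`: `L / K` algebraic, so `ψ₀` extends to `ψ : L → AlgebraicClosure M` (`IsAlgClosed.lift`, `AlgebraicClosure M` as a
`K`-algebra via `ψ₀`). `(g.map ψ)` and `g'` (in the algebraic closure) satisfy the same equation
`Fr G = (U.map ψ₀) G`: `lang_ker` gives `γ` with `g.map ψ = g' * toM γ`, so `ψ (g i j) ∈ M`; as `L` is generated by
the `g i j` over `K` and `ψ₀ (K) ⊆ M`, `ψ (L) ⊆ M` (the preimage of the range of `M` is an intermediate field):
restrict the codomain.
-/

namespace BAC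

open WithZero Polynomial Pool.Agent.Helper32

variable {p : ℕ} [hp : Fact p.Prime] {I : Type*} [Fintype I] [DecidableEq I] {d : I → ℕ}
  {k K L M : Type*} [Field k] [Field K] [Field L] [Field M] [Algebra k K] [Algebra K L]
  [Algebra k M] [CharP k p] [CharP K p] [CharP L p] [CharP M p] {x : K} {vK : VI K}

theorem exists_psi0 (B : Base p k x vK) {y : M} (hy : Transcendental k y) (e : ℕ) :
    ∃ ψ₀ : K →+* M, (∀ c : k, ψ₀ (algebraMap k K c) = algebraMap k M c ^ (p ^ e)) ∧
      ψ₀ x = y := by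
  classical
  obtain ⟨f, hf⟩ : ∃ f : k[X] →+* M, f = eval₂RingHom ((algebraMap k M).comp
      (iterateFrobenius k p e)) y := ⟨_, rfl⟩
  have hfC : ∀ c : k, f (C c) = algebraMap k M c ^ (p ^ e) := by
    intro c
    rw [hf, coe_eval₂RingHom, eval₂_C, RingHom.comp_apply, iterateFrobenius_def, map_pow]
  have hfX : f X = y := by
    rw [hf, coe_eval₂RingHom, eval₂_X]
  have hfinj : Function.Injective f := by
    rw [injective_iff_map_eq_zero]
    intro q hq
    have h1 : aeval y (q.map (iterateFrobenius k p e)) = 0 := by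
      rw [aeval_def, eval₂_map]
      rw [hf, coe_eval₂RingHom] at hq
      exact hq
    have h2 : q.map (iterateFrobenius k p e) = 0 := by
      by_contra h3
      exact hy ⟨_, h3, h1⟩
    exact (Polynomial.map_eq_zero _).1 h2
  let _ : Algebra k[X] K := (aeval x : k[X] →ₐ[k] K).toRingHom.toAlgebra
  have hmap : ∀ q : k[X], algebraMap k[X] K q = aeval x q := fun q => rfl
  have hfaith : FaithfulSMul k[X] K := by
    rw [faithfulSMul_iff_algebraMap_injective, injective_iff_map_eq_zero]
    intro q hq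
    rw [hmap] at hq
    by_contra h3
    exact B.trans ⟨q, h3, hq⟩
  have hfrac : IsFractionRing k[X] K := by
    apply IsFractionRing.of_field
    intro z
    have hz : z ∈ IntermediateField.adjoin k {x} := by
      rw [B.gen]
      exact IntermediateField.mem_top
    obtain ⟨r, s, hrs⟩ := (IntermediateField.mem_adjoin_simple_iff k z).1 hz
    exact ⟨r, s, hrs⟩
  refine ⟨IsFractionRing.lift hfinj, ?_, ?_⟩
  · intro c
    have h1 : algebraMap k K c = algebraMap k[X] K (C c) := by
      rw [hmap, aeval_C]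
    rw [h1, IsFractionRing.lift_algebraMap, hfC]
  · have h1 : x = algebraMap k[X] K X := by
      rw [hmap, aeval_X]
    conv_lhs => rw [h1]
    rw [IsFractionRing.lift_algebraMap, hfX]

private theorem uni_map' {I : Type*} [DecidableEq I] {d : I → ℕ} {A B : Type*} [Field A]
    [Field B] (f : A →+* B) (N : Matrix I I A) (hN : JJ d 1 (N - 1)) : JJ d 1 (N.map f - 1) := by
  have h1 : N.map f - 1 = (N - 1).map f := by
    ext i j
    rw [Matrix.sub_apply, Matrix.map_apply, Matrix.map_apply, Matrix.sub_apply, map_sub]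
    congr 1
    rcases eq_or_ne i j with rfl | hij
    · rw [Matrix.one_apply_eq, Matrix.one_apply_eq, map_one]
    · rw [Matrix.one_apply_ne hij, Matrix.one_apply_ne hij, map_zero]
  rw [h1]
  intro i j hij
  refine hN i j fun h => hij ?_
  rw [Matrix.map_apply, h, map_zero]

theorem exists_psi [Algebra.IsAlgebraic K L] (hd : ∀ i, d i < p) (ψ₀ : K →+* M)
    {U : Matrix I I K} (hU : JJ d 1 (U - 1)) {g : Matrix I I L} (hg : JJ d 1 (g - 1))
    (h : Fr p g = U.map (algebraMap K L) * g)
    (hgen : IntermediateField.adjoin K {a : L | ∃ i j, a = g i j} = ⊤) {g' : Matrix I I M}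
    (hg' : JJ d 1 (g' - 1)) (h' : Fr p g' = U.map ψ₀ * g') :
    ∃ ψ : L →+* M, (∀ a : K, ψ (algebraMap K L a) = ψ₀ a) ∧
      ∃ γ : Matrix I I (ZMod p), g.map ψ = g' * toM p M γ := by
  classical
  obtain ⟨ι, hι⟩ : ∃ ι : M →+* AlgebraicClosure M, ι = algebraMap M (AlgebraicClosure M) :=
    ⟨_, rfl⟩
  have hcM : CharP (AlgebraicClosure M) p :=
    charP_of_injective_algebraMap (algebraMap M (AlgebraicClosure M)).injective p
  let _ : Algebra K (AlgebraicClosure M) := (ι.comp ψ₀).toAlgebra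
  have hmap : ∀ a : K, algebraMap K (AlgebraicClosure M) a = ι (ψ₀ a) := fun a => rfl
  obtain ⟨Ψ, hΨ⟩ : ∃ Ψ : L →ₐ[K] AlgebraicClosure M, Ψ = IsAlgClosed.lift := ⟨_, rfl⟩
  obtain ⟨ψ, hψ⟩ : ∃ ψ : L →+* AlgebraicClosure M, ∀ a, ψ a = Ψ a := ⟨Ψ.toRingHom, fun a => rfl⟩
  have hψK : ∀ a : K, ψ (algebraMap K L a) = ι (ψ₀ a) := by
    intro a
    rw [hψ, Ψ.commutes, hmap]
  have hU' : JJ d 1 ((U.map ψ₀).map ι - 1) := uni_map' ι _ (uni_map' ψ₀ _ hU)
  have h1 : Fr p (g'.map ι) = (U.map ψ₀).map ι * g'.map ι := by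
    rw [← Fr_map, h', Matrix.map_mul]
  have h2 : Fr p (g.map ψ) = (U.map ψ₀).map ι * g.map ψ := by
    rw [← Fr_map, h, Matrix.map_mul]
    congr 1
    ext i j
    rw [Matrix.map_apply, Matrix.map_apply, Matrix.map_apply, Matrix.map_apply, hψK]
  obtain ⟨γ, -, hγ⟩ := lang_ker (p := p) hd hU' (uni_map' ι g' hg') (uni_map' ψ g hg) h1 h2
  have h3 : g.map ψ = (g' * toM p M γ).map ι := by
    rw [hγ, Matrix.map_mul, map_toM]
  have hr : ∀ a : L, ∃ m : M, ι m = ψ a := by
    intro a
    have ha : a ∈ IntermediateField.adjoin K {a : L | ∃ i j, a = g i j} := by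
      rw [hgen]
      exact IntermediateField.mem_top
    refine IntermediateField.adjoin_induction K
      (p := fun a _ => ∃ m : M, ι m = ψ a) ?_ ?_ ?_ ?_ ?_ ha
    · rintro a ⟨i, j, rfl⟩
      refine ⟨(g' * toM p M γ) i j, ?_⟩
      have h4 := congrFun (congrFun h3 i) j
      rw [Matrix.map_apply, Matrix.map_apply] at h4
      exact h4.symm
    · intro a
      exact ⟨ψ₀ a, (hψK a).symm⟩
    · rintro a b _ _ ⟨m, hm⟩ ⟨n, hn⟩
      exact ⟨m + n, by rw [map_add, map_add, hm, hn]⟩
    · rintro a _ ⟨m, hm⟩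
      exact ⟨m⁻¹, by rw [map_inv₀, map_inv₀, hm]⟩
    · rintro a b _ _ ⟨m, hm⟩ ⟨n, hn⟩
      exact ⟨m * n, by rw [map_mul, map_mul, hm, hn]⟩
  choose φ hφ using hr
  have hinj : Function.Injective ι := ι.injective
  refine ⟨{ toFun := φ, map_one' := ?_, map_mul' := ?_, map_zero' := ?_, map_add' := ?_ }, ?_, γ,
    ?_⟩
  · apply hinj
    rw [hφ, map_one, map_one]
  · intro a b
    apply hinj
    rw [hφ, map_mul, map_mul, hφ, hφ]
  · apply hinj
    rw [hφ, map_zero, map_zero]
  · intro a b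
    apply hinj
    rw [hφ, map_add, map_add, hφ, hφ]
  · intro a
    apply hinj
    exact (hφ _).trans (hψK a)
  · ext i j
    apply hinj
    have h4 := congrFun (congrFun h3 i) j
    rw [Matrix.map_apply, Matrix.map_apply] at h4
    rw [← h4]
    exact hφ _

end BAC
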