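import Pool.Agent.BAC.MatFr

/-!
BAC / B2 (blueprint 4.3 (c)). Matrix version of Hensel's lemma for `Fr X = u X`.

As `lang_solve` (`LangSolve.lean`): for `1 ≤ s ≤ p` there is `X_s` with `JJ d 1 (X_s - 1)`,
`vM ((X_s - 1) i j) < 1`, `R_s := Fr X_s - u X_s ∈ JJ d s` (automatically `vM (R_s i j) < 1`). `s = 1`: `X = 1`,
`R = 1 - u`. Step: `h i j` with `h ^ p - h = - R_s i j`, `vM (h i j) < 1` (`hAS`), `h i j = 0` if `R_s i j = 0`;
`X_(s+1) = X_s + h`, `R_(s+1) = R_s + Fr h - u h = - (u - 1) h`. At `s = p` it is zero.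
-/

namespace BAC

open WithZero

section small

variable {p : ℕ} [hp : Fact p.Prime] {I : Type*} [Fintype I] [DecidableEq I] {M : Type*} [Field M]
  {vM : VI M}

omit [Fintype I] [DecidableEq I] hp in
private theorem sm_add {A B : Matrix I I M} (hA : ∀ i j, vM (A i j) < 1)
    (hB : ∀ i j, vM (B i j) < 1) (i j : I) : vM ((A + B) i j) < 1 :=
  vM.map_add_lt (hA i j) (hB i j)

omit [Fintype I] [DecidableEq I] hp in
private theorem sm_neg {A : Matrix I I M} (hA : ∀ i j, vM (A i j) < 1) (i j : I) :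
    vM ((-A) i j) < 1 := by
  rw [Matrix.neg_apply, Valuation.map_neg]
  exact hA i j

omit [DecidableEq I] hp in
private theorem sm_mul {A B : Matrix I I M} (hA : ∀ i j, vM (A i j) < 1)
    (hB : ∀ i j, vM (B i j) < 1) (i j : I) : vM ((A * B) i j) < 1 := by
  rw [Matrix.mul_apply]
  refine vM.map_sum_lt one_ne_zero fun l _ => ?_
  rw [map_mul]
  exact mul_lt_one' (hA i l) (hB l j)

omit [Fintype I] [DecidableEq I] in
private theorem sm_Fr {A : Matrix I I M} (hA : ∀ i j, vM (A i j) < 1) (i j : I) :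
    vM ((Fr p A) i j) < 1 := by
  change vM ((A i j) ^ p) < 1
  rw [map_pow]
  exact pow_lt_one₀ zero_le (hA i j) hp.out.ne_zero

end small

theorem mat_hensel {p : ℕ} [hp : Fact p.Prime] {I : Type*} [Fintype I] [DecidableEq I]
    {d : I → ℕ} (hd : ∀ i, d i < p) {M : Type*} [Field M] [CharP M p] (vM : VI M)
    (hAS : ∀ φ : M, vM φ < 1 → ∃ w, vM w < 1 ∧ w ^ p - w = φ) {u : Matrix I I M}
    (hu : JJ d 1 (u - 1)) (hv : ∀ i j, vM ((u - 1) i j) < 1) :
    ∃ X : Matrix I I M, JJ d 1 (X - 1) ∧ (∀ i j, vM ((X - 1) i j) < 1) ∧ Fr p X = u * X := by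
  classical
  have key : ∀ s : ℕ, ∃ X : Matrix I I M, JJ d 1 (X - 1) ∧ (∀ i j, vM ((X - 1) i j) < 1) ∧
      JJ d (s + 1) (Fr p X - u * X) := by
    intro s
    induction s with
    | zero =>
      refine ⟨1, ?_, fun i j => ?_, ?_⟩
      · rw [sub_self]
        exact JJ.zero
      · rw [sub_self, Matrix.zero_apply, map_zero]
        exact zero_lt_one
      · rw [Fr_one, mul_one]
        have := hu.neg
        rwa [neg_sub] at this
    | succ s ih =>
      obtain ⟨X, h1, h2, h3⟩ := ih
      obtain ⟨R, hR⟩ : ∃ R, R = Fr p X - u * X := ⟨_, rfl⟩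
      rw [← hR] at h3
      have hRs : ∀ i j, vM (R i j) < 1 := by
        have e : R = Fr p (X - 1) + -((u - 1) + (X - 1) + (u - 1) * (X - 1)) := by
          rw [hR, Fr_sub, Fr_one]
          noncomm_ring
        rw [e]
        exact sm_add (sm_Fr h2) (sm_neg (sm_add (sm_add hv h2) (sm_mul hv h2)))
      have hw : ∀ i j, ∃ w, vM w < 1 ∧ w ^ p - w = -R i j ∧ (R i j = 0 → w = 0) := by
        intro i j
        by_cases h0 : R i j = 0
        · refine ⟨0, ?_, ?_, fun _ => rfl⟩
          · rw [map_zero]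
            exact zero_lt_one
          · rw [h0, zero_pow hp.out.ne_zero, sub_zero, neg_zero]
        · obtain ⟨w, hw1, hw2⟩ := hAS (-R i j) (by rw [Valuation.map_neg]; exact hRs i j)
          exact ⟨w, hw1, hw2, fun h => absurd h h0⟩
      choose w hw1 hw2 hw3 using hw
      obtain ⟨H, hH⟩ : ∃ H : Matrix I I M, ∀ i j, H i j = w i j := ⟨Matrix.of w, fun _ _ => rfl⟩
      have hHs : ∀ i j, vM (H i j) < 1 := fun i j => by rw [hH]; exact hw1 i j
      have hHJ : JJ d (s + 1) H := by
        intro i j hij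
        refine h3 i j fun h0 => hij ?_
        rw [hH, hw3 i j h0]
      have hHF : Fr p H - H = -R := by
        ext i j
        change (H i j) ^ p - H i j = -R i j
        rw [hH, hw2]
      refine ⟨X + H, ?_, ?_, ?_⟩
      · rw [add_sub_right_comm]
        exact h1.add (hHJ.mono (by omega))
      · rw [add_sub_right_comm]
        exact sm_add h2 hHs
      · have e : Fr p (X + H) - u * (X + H) = -((u - 1) * H) := by
          have e1 : Fr p (X + H) - u * (X + H) = R + (Fr p H - H) - (u - 1) * H := by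
            rw [hR, Fr_add]
            noncomm_ring
          rw [e1, hHF]
          abel
        rw [e]
        have h4 := (hu.mul hHJ).neg
        rwa [add_comm 1 (s + 1)] at h4
  obtain ⟨X, h1, h2, h3⟩ := key (p - 1)
  refine ⟨X, h1, h2, ?_⟩
  rw [Nat.sub_add_cancel hp.out.one_le] at h3
  exact sub_eq_zero.1 (JJ.eq_zero hd h3)

end BAC
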