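import Pool.Agent.BAC.Defs

/-!
BAC / A7. The derivation `d/dx` on the separable closure.

`der_ext` (uniqueness): `L / K` algebraic separable, `K = k(x)`. A `k`-derivation `δ : L → M` with `δ x = 0`
is zero: on `k[x]` by `Derivation.map_aeval`-type computation, on quotients, so on `K`
(`Base.gen`); for `a ∈ L` with minimal polynomial `m` over `K`: `0 = δ (m a) = m' (a) δ a`, `m' (a) ≠ 0`
(`Separable.aeval_derivative_ne_zero`); `M` is a vector space over the field `L`.
`exists_der`: first on `K` (`K ≅ RatFunc k` or the fraction field of `k[X]`, the derivative of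
polynomials extends to fractions; or use `Differential`-type results), then to `Ω`: Mathlib has formally
etale separable algebraic extensions (`Algebra.FormallyEtale.of_isSeparable`) and the bijection of
derivations for formally etale algebras (Kaehler differentials of `k → K → Ω`); alternatively define
`D a = - (m ^ D) (a) / m' (a)`.
`der_mem`: `a ∈ E`, minimal polynomial `m` over `K` (coefficients `c_i ∈ K`): `D a` is
`- (∑ D (c_i) a ^ i) / m' (a) ∈ K(a)`; and `D` maps `K` into `K` because `D` restricted to `K` is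
determined by `D x = 1` (on `k[x]` it is the derivative).
`der_gal`: `σ⁻¹ D σ` is a derivation with value `1` at `x`; uniqueness (`der_ext`).
`der_restr`: restriction to `E`.
-/

namespace BAC

open Polynomial WithZero IntermediateField Pool.Agent.Helper32

/-- extension of derivations along formally etale algebras -/
private lemma ext_der (R S T : Type*) [CommRing R] [CommRing S] [CommRing T] [Algebra R S]
    [Algebra R T] [Algebra S T] [IsScalarTower R S T] [Algebra.FormallyEtale S T]
    (d : Derivation R S S) :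
    ∃ D : Derivation R T T, ∀ s, D (algebraMap S T s) = algebraMap S T (d s) := by
  obtain ⟨f, hf⟩ : ∃ f : Ω[S⁄R] →ₗ[S] T, f = (Algebra.linearMap S T) ∘ₗ d.liftKaehlerDifferential :=
    ⟨_, rfl⟩
  obtain ⟨F, hF⟩ : ∃ F : Ω[T⁄R] →ₗ[T] T, F = (f.liftBaseChange T) ∘ₗ
    (KaehlerDifferential.tensorKaehlerEquivOfFormallyEtale R S T).symm.toLinearMap := ⟨_, rfl⟩
  refine ⟨F.compDer (KaehlerDifferential.D R T), fun s => ?_⟩
  change F (KaehlerDifferential.D R T (algebraMap S T s)) = _
  rw [hF, LinearMap.comp_apply, LinearEquiv.coe_coe,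
    KaehlerDifferential.tensorKaehlerEquivOfFormallyEtale_symm_D_algebraMap,
    LinearMap.liftBaseChange_one_tmul, hf, LinearMap.comp_apply,
    Derivation.liftKaehlerDifferential_comp_D, Algebra.linearMap_apply]

theorem der_ext {p : ℕ} {k K L M : Type*} [Field k] [Field K] [Field L] [Algebra k K]
    [Algebra K L] [Algebra k L] [IsScalarTower k K L] [Algebra.IsSeparable K L] [AddCommGroup M]
    [Module k M] [Module L M] [IsScalarTower k L M] {x : K} {vK : VI K} (B : Base p k x vK)
    (δ : Derivation k L M) (h : δ (algebraMap K L x) = 0) : δ = 0 := by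
  -- `δ` vanishes on `K`
  have h1 : ∀ r : k[X], δ (algebraMap K L (aeval x r)) = 0 := by
    intro r
    rw [← aeval_algebraMap_apply, Derivation.map_aeval, h, smul_zero]
  have h2 : ∀ c : K, δ (algebraMap K L c) = 0 := by
    intro c
    have hc : c ∈ IntermediateField.adjoin k {x} := by
      rw [B.gen]
      exact IntermediateField.mem_top
    obtain ⟨r, s, hrs⟩ := (IntermediateField.mem_adjoin_simple_iff k c).1 hc
    by_cases hs : aeval x s = 0
    · rw [hrs, hs, div_zero, map_zero, map_zero]
    · have h3 : c * aeval x s = aeval x r := by rw [hrs, div_mul_cancel₀ _ hs]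
      have h4 := congrArg (fun y => δ (algebraMap K L y)) h3
      simp only [map_mul, Derivation.leibniz, h1, smul_zero, zero_add] at h4
      have h5 : algebraMap K L (aeval x s) ≠ 0 := by
        rwa [Ne, map_eq_zero]
      exact (smul_eq_zero.1 h4).resolve_left h5
  letI : Module K M := Module.compHom M (algebraMap K L)
  haveI : IsScalarTower K L M := ⟨fun a b c => by
    rw [Algebra.smul_def, mul_smul]
    rfl⟩
  have h3 : ∀ (c : K) (a : L), δ (c • a) = c • δ a := by
    intro c a
    rw [Algebra.smul_def, Derivation.leibniz, h2, smul_zero, add_zero]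
    rfl
  obtain ⟨δ', hδ'⟩ : ∃ δ' : Derivation K L M, ∀ a, δ' a = δ a :=
    ⟨Derivation.mk' { toFun := δ, map_add' := map_add δ, map_smul' := h3 }
      (fun a b => δ.leibniz a b), fun a => rfl⟩
  ext a
  have hsep := Algebra.IsSeparable.isSeparable K a
  have h4 := δ'.map_aeval (minpoly K a) a
  rw [minpoly.aeval, map_zero] at h4
  rw [← hδ', Derivation.coe_zero, Pi.zero_apply]
  exact (smul_eq_zero.1 h4.symm).resolve_left
    (Polynomial.Separable.aeval_derivative_ne_zero hsep (minpoly.aeval K a))

theorem exists_der {p : ℕ} {k K Ω : Type*} [Field k] [Field K] [Field Ω] [Algebra k K]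
    [Algebra K Ω] [Algebra k Ω] [IsScalarTower k K Ω] [Algebra.IsSeparable K Ω] {x : K} {vK : VI K}
    (B : Base p k x vK) : ∃ D : Derivation k Ω Ω, D (algebraMap K Ω x) = 1 := by
  letI : Algebra k[X] K := (aeval x : k[X] →ₐ[k] K).toRingHom.toAlgebra
  letI : Algebra k[X] Ω := ((algebraMap K Ω).comp (algebraMap k[X] K)).toAlgebra
  have hK : ∀ r : k[X], algebraMap k[X] K r = aeval x r := fun r => rfl
  haveI : IsScalarTower k[X] K Ω := IsScalarTower.of_algebraMap_eq' rfl
  haveI : IsScalarTower k k[X] Ω := IsScalarTower.of_algebraMap_eq fun c => by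
    rw [IsScalarTower.algebraMap_apply k[X] K Ω, hK, Polynomial.algebraMap_eq, aeval_C,
      ← IsScalarTower.algebraMap_apply k K Ω]
  haveI : IsLocalization (nonZeroDivisors k[X]) K := by
    have hinj : Function.Injective (algebraMap k[X] K) := by
      have := transcendental_iff_injective.1 B.trans
      exact this
    refine ⟨?_, ?_, ?_⟩
    · rintro ⟨y, hy⟩
      rw [isUnit_iff_ne_zero]
      exact (map_ne_zero_iff _ hinj).2 (nonZeroDivisors.ne_zero hy)
    · intro c
      have hc : c ∈ IntermediateField.adjoin k {x} := by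
        rw [B.gen]
        exact IntermediateField.mem_top
      obtain ⟨r, s, hrs⟩ := (IntermediateField.mem_adjoin_simple_iff k c).1 hc
      by_cases hs : aeval x s = 0
      · refine ⟨(0, 1), ?_⟩
        rw [hrs, hs, div_zero]
        simp
      · have hs0 : s ≠ 0 := by
          rintro rfl
          exact hs (map_zero _)
        refine ⟨(r, ⟨s, mem_nonZeroDivisors_of_ne_zero hs0⟩), ?_⟩
        rw [hK, hK]
        change c * aeval x s = aeval x r
        rw [hrs, div_mul_cancel₀ _ hs]
    · intro a b hab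
      exact ⟨1, by rw [hinj hab]⟩
  haveI : Algebra.FormallyEtale k[X] K :=
    Algebra.FormallyEtale.of_isLocalization (nonZeroDivisors k[X])
  haveI : Algebra.FormallyEtale K Ω := Algebra.FormallyEtale.of_isSeparable K Ω
  haveI : Algebra.FormallyEtale k[X] Ω := Algebra.FormallyEtale.comp k[X] K Ω
  obtain ⟨D, hD⟩ := ext_der k k[X] Ω Polynomial.derivative'
  refine ⟨D, ?_⟩
  have h1 := hD X
  rw [IsScalarTower.algebraMap_apply k[X] K Ω, hK, aeval_X] at h1
  rw [h1]
  simp

theorem der_restr {p : ℕ} {k K Ω : Type*} [Field k] [Field K] [Field Ω] [Algebra k K]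
    [Algebra K Ω] [Algebra k Ω] [IsScalarTower k K Ω] [Algebra.IsSeparable K Ω] {x : K} {vK : VI K}
    (B : Base p k x vK) {D : Derivation k Ω Ω} (hD : D (algebraMap K Ω x) = 1)
    (E : IntermediateField K Ω) : ∃ D' : Derivation k E E, ∀ a : E, ((D' a : E) : Ω) = D a := by
  obtain ⟨D', hD'⟩ := exists_der (Ω := E) B
  refine ⟨D', ?_⟩
  obtain ⟨δ, hδ⟩ : ∃ δ : Derivation k E Ω, ∀ a : E, δ a = ((D' a : E) : Ω) - D a :=
    ⟨Derivation.mk' ((E.val.toLinearMap.restrictScalars k ∘ₗ (D' : E →ₗ[k] E)) -
      ((D : Ω →ₗ[k] Ω) ∘ₗ (E.val.toLinearMap.restrictScalars k))) (fun a b => by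
        change ((D' (a * b) : E) : Ω) - D ((a * b : E) : Ω) =
          (a : Ω) * (((D' b : E) : Ω) - D b) + (b : Ω) * (((D' a : E) : Ω) - D a)
        rw [Derivation.leibniz]
        push_cast
        rw [Derivation.leibniz]
        simp only [smul_eq_mul]
        push_cast
        ring), fun a => rfl⟩
  have h1 : δ = 0 := by
    haveI : IsScalarTower k E Ω := IsScalarTower.of_algebraMap_eq fun c => rfl
    refine der_ext B δ ?_
    rw [hδ, hD']
    have : ((algebraMap K E x : E) : Ω) = algebraMap K Ω x := rfl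
    rw [this, hD]
    simp
  intro a
  have h2 := hδ a
  rw [h1, Derivation.coe_zero, Pi.zero_apply] at h2
  exact (sub_eq_zero.1 h2.symm)

theorem der_mem {p : ℕ} {k K Ω : Type*} [Field k] [Field K] [Field Ω] [Algebra k K]
    [Algebra K Ω] [Algebra k Ω] [IsScalarTower k K Ω] [Algebra.IsSeparable K Ω] {x : K} {vK : VI K}
    (B : Base p k x vK) {D : Derivation k Ω Ω} (hD : D (algebraMap K Ω x) = 1)
    (E : IntermediateField K Ω) {a : Ω} (ha : a ∈ E) : D a ∈ E := by
  obtain ⟨D', hD'⟩ := der_restr B hD E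
  rw [← hD' ⟨a, ha⟩]
  exact (D' ⟨a, ha⟩).2

theorem der_gal {p : ℕ} {k K Ω : Type*} [Field k] [Field K] [Field Ω] [Algebra k K]
    [Algebra K Ω] [Algebra k Ω] [IsScalarTower k K Ω] [Algebra.IsSeparable K Ω] {x : K} {vK : VI K}
    (B : Base p k x vK) {D : Derivation k Ω Ω} (hD : D (algebraMap K Ω x) = 1)
    (σ : Ω ≃ₐ[K] Ω) (a : Ω) : D (σ a) = σ (D a) := by
  obtain ⟨δ, hδ⟩ : ∃ δ : Derivation k Ω Ω, ∀ a : Ω, δ a = σ.symm (D (σ a)) - D a :=
    ⟨Derivation.mk' ((σ.symm.toLinearMap.restrictScalars k) ∘ₗ (D : Ω →ₗ[k] Ω) ∘ₗ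
      (σ.toLinearMap.restrictScalars k) - (D : Ω →ₗ[k] Ω)) (fun a b => by
        change σ.symm (D (σ (a * b))) - D (a * b) =
          a * (σ.symm (D (σ b)) - D b) + b * (σ.symm (D (σ a)) - D a)
        rw [map_mul, Derivation.leibniz, Derivation.leibniz]
        simp only [smul_eq_mul, map_add, map_mul, AlgEquiv.symm_apply_apply]
        ring), fun a => rfl⟩
  have h1 : δ = 0 := by
    refine der_ext B δ ?_
    rw [hδ, AlgEquiv.commutes, hD, map_one, sub_self]
  have h2 := hδ a
  rw [h1, Derivation.coe_zero, Pi.zero_apply] at h2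
  have h3 := sub_eq_zero.1 h2.symm
  rw [← h3, AlgEquiv.apply_symm_apply]

end BAC
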