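import Pool.Agent.BAC.ExtVal
import Pool.Agent.BAC.Der

/-!
BAC / B6 (blueprint 4.3 (e)). Valuation and derivation under `ψ`.

`psi_val`: `V = {a ∈ L | vM (ψ a) ≤ 1}` is a valuation subring containing `k` and not `x`, so by `IsLevel.unique` it
is `v.valuationSubring`; `val_pow` (for the valuation `vM.comap ψ`) gives `vM (ψ a) = v a ^ r`; at `x`:
`exp (p^n) ^ r = exp (p^n) ^ q`, so `r = q`.
`psi_der`: `δ a = DM (ψ a) - DM (ψ x) * ψ (D a)`. Make `M` an `L`-module by `ψ` and a `k`-module by
`ψ ∘ algebraMap k L` (`Module.compHom`; use a type synonym of `M` to avoid clashes). `DM (ψ (c)) = DM (c ^ (p^e)) = 0`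
(`e ≥ 1`, `M` has characteristic `p`), `D c = 0`, so `δ` is a derivation over `k` for the twisted structure,
`δ x = 0` (`D x = 1`), and `der_ext` gives `δ = 0`.
-/

set_option linter.unusedSectionVars false

namespace BAC

open WithZero Polynomial Pool.Agent.Helper32

variable {p : ℕ} [hp : Fact p.Prime] {k K L M : Type*} [Field k] [Field K] [Field L] [Field M]
  [Algebra k K] [Algebra K L] [Algebra k L] [IsScalarTower k K L]
  [Algebra k M] [CharP k p] [CharP K p] [CharP L p] [CharP M p] {x : K} {vK : VI K}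
  {D : Derivation k L L} {n : ℕ} {κ : ℤ} {v : VI L}

theorem psi_val (Lv : Lvl p k (algebraMap K L x) D n κ v) (vM : VI M)
    (hc : ∀ c : k, vM (algebraMap k M c) ≤ 1) (ψ : L →+* M) (e : ℕ)
    (hψ : ∀ c : k, ψ (algebraMap k L c) = algebraMap k M c ^ (p ^ e))
    (hx : vM (ψ (algebraMap K L x)) = v (algebraMap K L x) ^ (p ^ e)) :
    ∀ a : L, vM (ψ a) = v a ^ (p ^ e) := by
  obtain ⟨g, lev⟩ := Lv.lev
  have hp0 : 0 < p := hp.out.pos
  have hpe : p ^ e ≠ 0 := (pow_pos hp0 e).ne'
  have h1 := lev.unique (vM.comap ψ).valuationSubring (fun c => by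
      rw [Valuation.mem_valuationSubring_iff, Valuation.comap_apply, hψ, map_pow]
      exact pow_le_one₀ zero_le (hc c)) (fun h => by
      rw [Valuation.mem_valuationSubring_iff, Valuation.comap_apply, hx, lev.v_x,
        ← exp_nsmul, ← exp_zero, exp_le_exp, nsmul_eq_mul] at h
      have h2 : (0 : ℤ) < ((p ^ e : ℕ) : ℤ) * (p : ℤ) ^ n := by positivity
      omega)
  have h2 : ∀ a, (vM.comap ψ) a ≤ 1 ↔ v a ≤ 1 := by
    intro a
    rw [← Valuation.mem_valuationSubring_iff, ← Valuation.mem_valuationSubring_iff, h1]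
  obtain ⟨r, hr, h3⟩ := val_pow h2 lev.v_unif
  have h4 := h3 (algebraMap K L x)
  rw [Valuation.comap_apply, hx, lev.v_x, ← exp_nsmul, ← exp_nsmul, exp_inj, nsmul_eq_mul,
    nsmul_eq_mul] at h4
  have h5 : ((p : ℤ) ^ n) ≠ 0 := by positivity
  have h6 : ((p ^ e : ℕ) : ℤ) = (r : ℤ) := mul_right_cancel₀ h5 h4
  have h7 : p ^ e = r := by exact_mod_cast h6
  intro a
  rw [← Valuation.comap_apply, h3, h7]

/-- type synonym for the twisted module structures -/
private def Tw (M : Type*) : Type _ := M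

private instance (M : Type*) [Field M] : AddCommGroup (Tw M) := inferInstanceAs (AddCommGroup M)

private instance (M : Type*) [Field M] : Module M (Tw M) := inferInstanceAs (Module M M)

theorem psi_der (B : Base p k x vK) [Algebra.IsSeparable K L]
    (hD : D (algebraMap K L x) = 1) (DM : Derivation k M M) (ψ : L →+* M) {e : ℕ} (he : 1 ≤ e)
    (hψ : ∀ c : k, ψ (algebraMap k L c) = algebraMap k M c ^ (p ^ e)) :
    ∀ a : L, DM (ψ a) = DM (ψ (algebraMap K L x)) * ψ (D a) := by
  let : Module L (Tw M) := Module.compHom (Tw M) ψ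
  let : Module k (Tw M) := Module.compHom (Tw M) (ψ.comp (algebraMap k L))
  have : IsScalarTower k L (Tw M) := ⟨fun c a m => by
    change ψ (c • a) • m = ψ (algebraMap k L c) • (ψ a • m)
    rw [Algebra.smul_def, map_mul, mul_smul]⟩
  have h0 : ∀ c : k, DM (ψ (algebraMap k L c)) = 0 := by
    intro c
    rw [hψ, Derivation.leibniz_pow]
    have h1 : ((p ^ e : ℕ) : M) = 0 := by
      rw [Nat.cast_pow, CharP.cast_eq_zero, zero_pow (by omega)]
    rw [nsmul_eq_mul, h1, zero_mul]
  obtain ⟨δ, hδ⟩ : ∃ δ : Derivation k L (Tw M), ∀ a : L,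
      δ a = (DM (ψ a) - DM (ψ (algebraMap K L x)) * ψ (D a) : M) :=
    ⟨Derivation.mk'
      { toFun := fun a => (DM (ψ a) - DM (ψ (algebraMap K L x)) * ψ (D a) : M)
        map_add' := fun a b => by
          change (DM (ψ (a + b)) - DM (ψ (algebraMap K L x)) * ψ (D (a + b)) : M) =
            (DM (ψ a) - DM (ψ (algebraMap K L x)) * ψ (D a)) +
            (DM (ψ b) - DM (ψ (algebraMap K L x)) * ψ (D b))
          rw [map_add, map_add, map_add, map_add]
          ring
        map_smul' := fun c a => by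
          change (DM (ψ (c • a)) - DM (ψ (algebraMap K L x)) * ψ (D (c • a)) : M) =
            ψ (algebraMap k L c) * (DM (ψ a) - DM (ψ (algebraMap K L x)) * ψ (D a))
          rw [D.map_smul, Algebra.smul_def, Algebra.smul_def, map_mul ψ, map_mul ψ,
            Derivation.leibniz, h0, smul_zero, add_zero, smul_eq_mul]
          ring }
      (fun a b => by
        change (DM (ψ (a * b)) - DM (ψ (algebraMap K L x)) * ψ (D (a * b)) : M) =
          ψ a * (DM (ψ b) - DM (ψ (algebraMap K L x)) * ψ (D b)) +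
          ψ b * (DM (ψ a) - DM (ψ (algebraMap K L x)) * ψ (D a))
        rw [map_mul, Derivation.leibniz, Derivation.leibniz, map_add, smul_eq_mul, smul_eq_mul,
          smul_eq_mul, smul_eq_mul, map_mul, map_mul]
        ring), fun a => rfl⟩
  have h1 : δ = 0 := by
    refine der_ext B δ ?_
    rw [hδ, hD, map_one, mul_one, sub_self]
    rfl
  intro a
  have h2 := hδ a
  rw [h1, Derivation.coe_zero, Pi.zero_apply] at h2
  exact sub_eq_zero.1 h2.symm

end BAC
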