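import Pool.Agent.BAC.Compl
import Pool.Agent.BAC.MHensel
import Pool.Agent.BAC.EntBd
import Pool.Agent.BAC.LPsi
import Pool.Agent.BAC.PsiVal

/-!
BAC / B7 (blueprint 4.3). THE LANG BOUND `(q - 1) κ ≤ p^n (b + 1 - q)`, `q = p^e`, `b + 1 - q = (p-2) p^(e-1) + 2`.

`q = p ^ e`, `e ≥ 2`, `s := (p - 2) p^(e-1) + 1` (`= b - q`), `l = p^(n-1)`, `v x = exp (p l)`. `xL = algebraMap K L x`.
`y = (xL⁻¹)^s`, `x' = xL^q + y` (`v x' = exp (q p^n)`, `s ≥ 1`). `D1 = Fr (p^e) Dm`, `g1 = Fr (p^e) g`: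
`Fr p g1 = Ex p (xL^q • D1) * g1` (`Fr_Frq`, `Frq_Ex`, `Frq_smul`, Frobenius and `algebraMap` commute).
`u = g1⁻¹ * Ex p (y • D1) * g1`, `u_bd`: `v y = exp (-p l s) ≤ exp (-(q l (p-2) + 1))` since
`p l s = q l (p - 2) + p l`. `exists_completion`: `M`, `vM`, `DM`. `mat_hensel` for the image of `u` in `M`: `X`.
`g' = g1 X` (in `M`): `Fr p g' = Ex (x^q D1) g1 u X = Ex (x^q D1) Ex (y D1) g1 X = Ex (x' D1) g'` (`Ex_add`).
`exists_psi0` with `e` and `y := x'` (as an element of `M`; it is transcendental over `k`: `k` is algebraically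
closed, an algebraic element of `M` over `k` is in `k` and has `vM ≤ 1`, but `vM x' > 1`): `ψ₀`.
`exists_psi` with `U = Ex p (x • Dm)` over `K` (`U.map ψ₀ = Ex p (x' • D1)`: `Ex_map`): `ψ : L → M`.
`psi_val` (`vM (ψ xL) = vM x' = exp (q p^n) = v xL ^ q`): `vM (ψ a) = v a ^ q`. `psi_der`. `DM x' = DM y =
- s x^(-s-1) ` and `s = 1` in `L` (`e ≥ 2`: `p ∣ p^(e-1)`), `vM (DM x') = exp (- p^n (s + 1))`. Let `v t = exp (-1)`:
`v (D t) = exp (κ - 1)` (`Lv.eq`). `vM (DM (ψ t)) = exp (- p^n (s+1) + q (κ - 1)) ≤ exp κ vM (ψ t) = exp (κ - q)`. So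
`q κ - κ ≤ p^n (s + 1)`.
-/

namespace BAC

open WithZero Polynomial Pool.Agent.Helper32

theorem lang_bound {p : ℕ} [hp : Fact p.Prime] {I : Type*} [Fintype I] [DecidableEq I]
    {d : I → ℕ} {k K L : Type*} [Field k] [IsAlgClosed k] [Field K] [Field L] [Algebra k K]
    [Algebra K L] [Algebra k L] [IsScalarTower k K L] [CharP k p] [CharP K p] [CharP L p]
    [Algebra.IsSeparable K L] {x : K} {vK : VI K} {D : Derivation k L L} {n : ℕ} {κ : ℤ}
    {v : VI L} (B : Base p k x vK) (Lv : Lvl p k (algebraMap K L x) D n κ v) (hn : 1 ≤ n)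
    (hd : ∀ i, d i < p) {Dm : Matrix I I k} (hD : JJ d 1 Dm) {g : Matrix I I L}
    (hg : JJ d 1 (g - 1))
    (h : Fr p g = Ex p (algebraMap K L x • Dm.map (algebraMap k L)) * g)
    (hgen : IntermediateField.adjoin K {a : L | ∃ i j, a = g i j} = ⊤) {e : ℕ} (he : 2 ≤ e) :
    ((p : ℤ) ^ e - 1) * κ ≤ (p : ℤ) ^ n * (((p : ℤ) - 2) * (p : ℤ) ^ (e - 1) + 2) := by
  classical
  have hp2 := hp.out.two_le
  obtain ⟨lv, hlv⟩ := Lv.lev
  -- numbers
  obtain ⟨l, hl⟩ : ∃ l : ℕ, l = p ^ (n - 1) := ⟨_, rfl⟩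
  obtain ⟨q, hq⟩ : ∃ q : ℕ, q = p ^ e := ⟨_, rfl⟩
  obtain ⟨r, hr⟩ : ∃ r : ℕ, r = p ^ (e - 1) := ⟨_, rfl⟩
  obtain ⟨s, hs⟩ : ∃ s : ℕ, s = (p - 2) * r + 1 := ⟨_, rfl⟩
  have hpl : p * l = p ^ n := by
    rw [hl, ← pow_succ', Nat.sub_add_cancel hn]
  have hpr : p * r = q := by
    rw [hr, hq, ← pow_succ', Nat.sub_add_cancel (by omega)]
  have hl0 : 0 < l := by rw [hl]; exact pow_pos hp.out.pos _
  have hr0 : 0 < r := by rw [hr]; exact pow_pos hp.out.pos _
  have hq0 : 0 < q := by rw [hq]; exact pow_pos hp.out.pos _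
  have hpl' : (p : ℤ) * l = (p : ℤ) ^ n := by exact_mod_cast hpl
  have hpr' : (p : ℤ) * r = q := by exact_mod_cast hpr
  have hs' : (s : ℤ) = ((p : ℤ) - 2) * r + 1 := by
    rw [hs]
    push_cast [Nat.cast_sub hp2]
    ring
  have hc : ∀ c : k, v (algebraMap k L c) ≤ 1 := by
    intro c
    by_cases h0 : c = 0
    · rw [h0, map_zero, map_zero]
      exact zero_le
    · exact (hlv.v_const c h0).le
  obtain ⟨xL, hxL⟩ : ∃ xL : L, xL = algebraMap K L x := ⟨_, rfl⟩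
  have hvx : v xL = exp ((p : ℤ) * l) := by
    rw [hxL, hlv.v_x, hpl']
  have hx0 : xL ≠ 0 := by
    intro h0
    rw [h0, map_zero] at hvx
    exact exp_ne_zero hvx.symm
  obtain ⟨y, hy⟩ : ∃ y : L, y = (xL⁻¹) ^ s := ⟨_, rfl⟩
  have hvy : v y = exp (-((p : ℤ) * l * s)) := by
    rw [hy, map_pow, map_inv₀, hvx, ← exp_neg, ← exp_nsmul, nsmul_eq_mul]
    congr 1
    ring
  have hvy' : v y ≤ exp (-((p : ℤ) ^ e * l * ((p : ℤ) - 2) + 1)) := by
    have h1 : (p : ℤ) ^ e = p * r := by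
      rw [hpr', hq]
      push_cast
      rfl
    have h2 : (0 : ℤ) < l := by exact_mod_cast hl0
    have h3 : (2 : ℤ) ≤ p := by exact_mod_cast hp2
    rw [hvy, exp_le_exp, h1, hs']
    nlinarith
  obtain ⟨x', hx'⟩ : ∃ x' : L, x' = xL ^ q + y := ⟨_, rfl⟩
  have hvx' : v x' = exp ((q : ℤ) * (p : ℤ) ^ n) := by
    have h1 : v (xL ^ q) = exp ((q : ℤ) * (p : ℤ) ^ n) := by
      rw [map_pow, hvx, ← exp_nsmul, nsmul_eq_mul, hpl']
    have h2 : v y < v (xL ^ q) := by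
      rw [h1, hvy, exp_lt_exp]
      have h3 : (0 : ℤ) < (p : ℤ) ^ n := by
        have : (0 : ℤ) < p := by exact_mod_cast hp.out.pos
        positivity
      have h4 : (0 : ℤ) < q := by exact_mod_cast hq0
      rw [hpl']
      have h5 : 0 < (q : ℤ) * (p : ℤ) ^ n := mul_pos h4 h3
      have h6 : 0 ≤ (p : ℤ) ^ n * (s : ℤ) := mul_nonneg h3.le (Int.natCast_nonneg s)
      omega
    rw [hx', Valuation.map_add_eq_of_lt_left v h2, h1]
  -- matrices
  rw [← hxL] at h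
  obtain ⟨D1, hD1⟩ : ∃ D1 : Matrix I I k, D1 = Fr (p ^ e) Dm := ⟨_, rfl⟩
  have hJD1 : JJ d 1 D1 := by rw [hD1]; exact JJ_Frq e hD
  have hD1L : D1.map (algebraMap k L) = Fr (p ^ e) (Dm.map (algebraMap k L)) := by
    ext i j
    rw [hD1]
    simp only [Fr, Matrix.map_apply, map_pow]
  obtain ⟨g1, hg1⟩ : ∃ g1 : Matrix I I L, g1 = Fr (p ^ e) g := ⟨_, rfl⟩
  have hg1u : JJ d 1 (g1 - 1) := by rw [hg1]; exact uni_Frq e hg
  have hdet : IsUnit g1.det := uni_isUnit hd hg1u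
  have hFg1 : Fr p g1 = Ex p (xL ^ q • D1.map (algebraMap k L)) * g1 := by
    rw [hg1, Fr_Frq, h, Frq_mul, Frq_Ex, Frq_smul, hD1L, hq]
  obtain ⟨w, hw⟩ : ∃ w : Matrix I I L, w = g1⁻¹ * Ex p (y • D1.map (algebraMap k L)) * g1 :=
    ⟨_, rfl⟩
  obtain ⟨hwu, hwv⟩ := u_bd hd hc hvx hD hg h e hJD1 hvy'
  rw [← hg1, ← hw] at hwu
  rw [← hg1, ← hw] at hwv
  -- completion
  obtain ⟨M, iM1, iM2, iM3, iM4, vM, DM, hvM, hDM, hleM, hASM⟩ :=
    exists_completion (k := k) v hlv.v_unif D κ Lv.le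
  have hchar : CharP M p := charP_of_injective_algebraMap (algebraMap L M).injective p
  obtain ⟨φ, hφ⟩ : ∃ φ : L →+* M, φ = algebraMap L M := ⟨_, rfl⟩
  have hφk : ∀ c : k, φ (algebraMap k L c) = algebraMap k M c := by
    intro c
    rw [hφ, ← IsScalarTower.algebraMap_apply]
  have hvφ : ∀ a, vM (φ a) = v a := by
    intro a
    rw [hφ, hvM]
  have hDφ : ∀ a, DM (φ a) = φ (D a) := by
    intro a
    rw [hφ, hDM]
  have hsub : w.map φ - 1 = (w - 1).map φ := by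
    ext i j
    rw [Matrix.sub_apply, Matrix.map_apply, Matrix.map_apply, Matrix.sub_apply, map_sub]
    by_cases hij : i = j
    · rw [hij, Matrix.one_apply_eq, Matrix.one_apply_eq, map_one]
    · rw [Matrix.one_apply_ne hij, Matrix.one_apply_ne hij, map_zero]
  obtain ⟨X, hX1, -, hX3⟩ := mat_hensel hd vM hASM (u := w.map φ)
    (by
      rw [hsub]
      exact hwu.map φ (map_zero φ))
    (by
      intro i j
      rw [hsub, Matrix.map_apply, hvφ]
      exact hwv i j)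
  obtain ⟨g', hg'⟩ : ∃ g' : Matrix I I M, g' = g1.map φ * X := ⟨_, rfl⟩
  have hg1sub : g1.map φ - 1 = (g1 - 1).map φ := by
    ext i j
    rw [Matrix.sub_apply, Matrix.map_apply, Matrix.map_apply, Matrix.sub_apply, map_sub]
    by_cases hij : i = j
    · rw [hij, Matrix.one_apply_eq, Matrix.one_apply_eq, map_one]
    · rw [Matrix.one_apply_ne hij, Matrix.one_apply_ne hij, map_zero]
  have hg'u : JJ d 1 (g' - 1) := by
    rw [hg']
    refine uni_mul ?_ hX1
    rw [hg1sub]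
    exact hg1u.map φ (map_zero φ)
  have hmapmul : ∀ A C : Matrix I I L, (A * C).map φ = A.map φ * C.map φ := fun A C =>
    Matrix.map_mul
  have hExx : Ex p (x' • D1.map (algebraMap k L)) =
      Ex p (xL ^ q • D1.map (algebraMap k L)) * Ex p (y • D1.map (algebraMap k L)) := by
    have hJ : JJ d 1 (D1.map (algebraMap k L)) := hJD1.map _ (map_zero _)
    rw [hx', add_smul]
    refine Ex_add hd (hJ.smul _) (hJ.smul _) ?_
    rw [smul_mul_smul_comm, smul_mul_smul_comm, mul_comm]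
  have hFg' : Fr p g' = (Ex p (x' • D1.map (algebraMap k L))).map φ * g' := by
    rw [hg', Fr_mul, hX3, ← Fr_map, hFg1, hw, hmapmul, hmapmul, hmapmul, hExx, hmapmul]
    have h1 : g1.map φ * g1⁻¹.map φ = 1 := by
      rw [← hmapmul, Matrix.mul_nonsing_inv _ hdet]
      ext i j
      rw [Matrix.map_apply]
      by_cases hij : i = j
      · rw [hij, Matrix.one_apply_eq, Matrix.one_apply_eq, map_one]
      · rw [Matrix.one_apply_ne hij, Matrix.one_apply_ne hij, map_zero]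
    have h2 : ∀ A C E Y : Matrix I I M, A * g1.map φ * (g1⁻¹.map φ * C * E * Y) =
        A * (g1.map φ * g1⁻¹.map φ) * C * (E * Y) := by
      intro A C E Y
      noncomm_ring
    rw [h2, h1, mul_one]
  -- the embedding
  have hvx'M : vM (φ x') = exp ((q : ℤ) * (p : ℤ) ^ n) := by
    rw [hvφ, hvx']
  have htr : Transcendental k (φ x') := by
    intro halg
    have hint : IsIntegral k (φ x') := halg.isIntegral
    have h1 := IsAlgClosed.degree_eq_one_of_irreducible k (minpoly.irreducible hint)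
    obtain ⟨c, hcx⟩ := minpoly.mem_range_of_degree_eq_one k (φ x') h1
    have h2 : vM (φ x') ≤ 1 := by
      rw [← hcx, ← hφk, hvφ]
      exact hc c
    rw [hvx'M, ← exp_zero, exp_le_exp] at h2
    have h3 : (0 : ℤ) < (q : ℤ) * (p : ℤ) ^ n := by
      have : (0 : ℤ) < p := by exact_mod_cast hp.out.pos
      have : (0 : ℤ) < q := by exact_mod_cast hq0
      positivity
    omega
  obtain ⟨ψ₀, hψ1, hψ2⟩ := exists_psi0 B htr e
  have halg : Algebra.IsAlgebraic K L := inferInstance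
  obtain ⟨U, hU⟩ : ∃ U : Matrix I I K, U = Ex p (x • Dm.map (algebraMap k K)) := ⟨_, rfl⟩
  have hUu : JJ d 1 (U - 1) := by
    rw [hU]
    exact Ex_uni le_rfl ((hD.map _ (map_zero _)).smul _)
  have hUL : U.map (algebraMap K L) = Ex p (xL • Dm.map (algebraMap k L)) := by
    rw [hU, Ex_map]
    congr 1
    ext i j
    rw [Matrix.map_apply, Matrix.smul_apply, Matrix.smul_apply, Matrix.map_apply,
      Matrix.map_apply, smul_eq_mul, smul_eq_mul, map_mul, hxL,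
      ← IsScalarTower.algebraMap_apply]
  have hUM : U.map ψ₀ = (Ex p (x' • D1.map (algebraMap k L))).map φ := by
    rw [hU, Ex_map, Ex_map]
    congr 1
    ext i j
    rw [Matrix.map_apply, Matrix.smul_apply, Matrix.map_apply, Matrix.map_apply,
      Matrix.smul_apply, Matrix.map_apply, smul_eq_mul, smul_eq_mul, map_mul, map_mul, hψ1, hψ2,
      hφk, hD1]
    simp only [Fr, Matrix.map_apply, map_pow]
  obtain ⟨ψ, hψ, -⟩ := exists_psi hd ψ₀ hUu hg (by rw [hUL]; exact h) hgen hg'u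
    (by rw [hUM]; exact hFg')
  have hψk : ∀ c : k, ψ (algebraMap k L c) = algebraMap k M c ^ (p ^ e) := by
    intro c
    rw [IsScalarTower.algebraMap_apply k K L, hψ, hψ1]
  have hcM : ∀ c : k, vM (algebraMap k M c) ≤ 1 := by
    intro c
    rw [← hφk, hvφ]
    exact hc c
  have hψx : ψ xL = φ x' := by
    rw [hxL, hψ, hψ2]
  have hval := psi_val Lv vM hcM ψ e hψk (by
    rw [← hxL, hψx, hvx'M, hvx, hpl', ← exp_nsmul, nsmul_eq_mul, hq])
  have hder := psi_der B Lv.Dx DM ψ (by omega : 1 ≤ e) hψk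
  -- the derivative of `x'`
  have hDx : D xL = 1 := by
    rw [hxL]
    exact Lv.Dx
  have hDx' : D x' = -(xL⁻¹) ^ (s + 1) := by
    have h1 : (q : L) = 0 := by
      rw [CharP.cast_eq_zero_iff L p, hq]
      exact dvd_pow_self p (by omega)
    have h2 : (s : L) = 1 := by
      have h3 : (r : L) = 0 := by
        rw [CharP.cast_eq_zero_iff L p, hr]
        exact dvd_pow_self p (by omega)
      rw [hs, Nat.cast_add, Nat.cast_mul, h3, mul_zero, zero_add, Nat.cast_one]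
    obtain ⟨s', hs''⟩ : ∃ s', s = s' + 1 := ⟨s - 1, by omega⟩
    rw [hx', map_add, D.leibniz_pow, nsmul_eq_mul, h1, zero_mul, zero_add, hy, D.leibniz_pow,
      nsmul_eq_mul, h2, one_mul, D.leibniz_inv, hDx, smul_eq_mul, smul_eq_mul, mul_one, hs'',
      Nat.add_sub_cancel]
    ring
  have hvDx' : vM (DM (ψ xL)) = exp (-((p : ℤ) ^ n * (s + 1))) := by
    rw [hψx, hDφ, hvφ, hDx', Valuation.map_neg, map_pow, map_inv₀, hvx, hpl', ← exp_neg,
      ← exp_nsmul, nsmul_eq_mul]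
    congr 1
    push_cast
    ring
  -- conclusion
  obtain ⟨t, ht⟩ := hlv.v_unif
  have hp1 : ¬ (p : ℤ) ∣ -1 := by
    rw [dvd_neg]
    intro h1
    have h2 : p ∣ 1 := by exact_mod_cast h1
    exact hp.out.one_lt.ne' (Nat.dvd_one.1 h2)
  have hDt : v (D t) = exp (κ + -1) := Lv.eq t (-1) ht hp1
  have h1 := hleM (ψ t)
  rw [hder t, map_mul, ← hxL, hvDx', hval, hval, hDt, ht, ← exp_nsmul, ← exp_nsmul, ← exp_add,
    ← exp_add, exp_le_exp, nsmul_eq_mul, nsmul_eq_mul] at h1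
  rw [← hq, hs'] at h1
  have h2 : (p : ℤ) ^ e = q := by
    rw [hq]
    push_cast
    rfl
  have h3 : (p : ℤ) ^ (e - 1) = r := by
    rw [hr]
    push_cast
    rfl
  rw [h2, h3]
  linarith

end BAC
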