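import Pool.Agent.BAC.LangTT
import Pool.Agent.BAC.BigPol
import Pool.Agent.BAC.LBound

/-!
BAC / B8 (blueprint 4.4). Condition (N) for Lang torsors.

`L` is the field of `lang_uu` (`FieldOf c` twice: `le_of_fx` both ways), so it is generated by the `g i j ∈ L`.
`n = 0`: `L = ⊥` (rank `1`), `TT.bot`, `TT.unique`: `κ = -1`, `NN`: `0 < (p - 1)`.
`n = 1`: some `g i j ∉ K` hence `Dm ≠ 0` (otherwise `Fr g = g`, entries in `F_p`). Let `m ≥ 1` be the largest with
`JJ d m Dm` (exists since `JJ d p Dm` implies `Dm = 0`), and `(i, j)` with `Dm i j ≠ 0`, `d i = d j + m`.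
`y = g i j`: `y ^ p - y = ∑_a (Ex (x D) - 1) i a * g a j`; `Ex (xD) - 1 ∈ JJ d m` so only `a` with `d a + m ≤ d i`, i.e.
`d a ≤ d j`, and `g a j ≠ 0` needs `a = j` or `d a > d j`: only `a = j`, `g j j = 1`. `(Ex (x D) - 1) i j = x Dm i j`: the
powers `(xD)^s`, `s ≥ 2`, are in `JJ d (2m)`. So `y ^ p - y = x (Dm i j)`, `y ∉ ⊥` (order `1` is not divisible by `p`:
`vK`), `⊥ ⊔ K(y) ≤ L` both of degree `p`: equal. `TT.bot`, `TT.adj`: conductor `l` with
`v (f - (c^p - c)) = exp l`, `Red.unique`: `l = 1`, so `κ = -p + (p - 1) = -1` (`TT.unique`), `NN`: `0 < (p-1) p`.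
`n ≥ 2`: apply `lang_bound` to the field `L` (type `↥L`, matrix `gL` over `↥L` with `gL i j = ⟨g i j, _⟩`,
derivation from `U.lvl`, generation: `IntermediateField.adjoin K {..} = ⊤` in `↥L`), for all `e ≥ 2`. Arithmetic:
with `N = p^n ≥ p^2`, `q = p^e`: `p (q-1) κ ≤ N ((p-2) q + 2p)`, so
`p (q - 1)(κ + 1) ≤ N ((p - 2)(q - 1) + 3p - 2) + p (q - 1)`. If NN fails, `p (κ + 1) ≥ (p-1) N`, so
`(q-1)(p-1) N ≤ N (p-2)(q-1) + N (3p-2) + p (q-1)`, i.e. `(q - 1)(N - p) ≤ N (3p - 2)`: false for large `e`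
since `N > p` (e.g. `q - 1 ≥ 6 p`, `N - p ≥ N / 2`: `e = 6`).
-/

namespace BAC

open Polynomial WithZero IntermediateField Pool.Agent.Helper32

variable {p : ℕ} [hp : Fact p.Prime] {k K Ω : Type*} [Field k] [IsAlgClosed k] [Field K]
  [Field Ω] [Algebra k K] [Algebra K Ω] [Algebra k Ω] [IsScalarTower k K Ω] [CharP k p]
  [CharP K p] [CharP Ω p] [IsSepClosure K Ω] {x : K} {vK : VI K} {D : Derivation k Ω Ω}
  {I : Type*} [Fintype I] [DecidableEq I] {d : I → ℕ}

/-- the arithmetic for `n ≥ 2` -/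
private theorem lnn_arith {P N κ : ℤ} (hP : 2 ≤ P) (hN : P ^ 2 ≤ N)
    (h1 : (P ^ 4 - 1) * κ ≤ N * ((P - 2) * P ^ 3 + 2)) : P * (κ + 1) < (P - 1) * N := by
  by_contra h2
  push Not at h2
  have hP4 : 8 * P ≤ P ^ 4 := by
    have h3 : (8 : ℤ) ≤ P ^ 3 := by
      have := pow_le_pow_left₀ (by norm_num : (0 : ℤ) ≤ 2) hP 3
      linarith
    have h4 : P ^ 4 = P ^ 3 * P := by ring
    rw [h4]
    exact mul_le_mul_of_nonneg_right h3 (by omega)
  have h3 : (P ^ 4 - 1) * ((P - 1) * N) ≤ (P ^ 4 - 1) * (P * (κ + 1)) :=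
    mul_le_mul_of_nonneg_left h2 (by omega)
  have h4 : P * ((P ^ 4 - 1) * κ) ≤ P * (N * ((P - 2) * P ^ 3 + 2)) :=
    mul_le_mul_of_nonneg_left h1 (by omega)
  have h5 : N * (P ^ 4 - 3 * P + 1) ≤ P * (P ^ 4 - 1) := by
    have e1 : (P ^ 4 - 1) * (P * (κ + 1)) = P * ((P ^ 4 - 1) * κ) + P * (P ^ 4 - 1) := by ring
    have e2 : (P ^ 4 - 1) * ((P - 1) * N) - P * (N * ((P - 2) * P ^ 3 + 2)) =
        N * (P ^ 4 - 3 * P + 1) := by ring
    linarith
  have h6 : P ^ 2 * (P ^ 4 - 3 * P + 1) ≤ N * (P ^ 4 - 3 * P + 1) :=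
    mul_le_mul_of_nonneg_right hN (by omega)
  have h7 : P * (P * (P ^ 4 - 3 * P + 1)) ≤ P * (P ^ 4 - 1) := by
    have e1 : P * (P * (P ^ 4 - 3 * P + 1)) = P ^ 2 * (P ^ 4 - 3 * P + 1) := by ring
    linarith
  have h8 : P * (P ^ 4 - 3 * P + 1) ≤ P ^ 4 - 1 := le_of_mul_le_mul_left h7 (by omega)
  have h9 : 2 * (P ^ 4 - 3 * P + 1) ≤ P * (P ^ 4 - 3 * P + 1) :=
    mul_le_mul_of_nonneg_right hP (by omega)
  omega

/-- `y ^ p - y = e x` has no solution in `K` -/
private theorem lnn_not {p : ℕ} [hp : Fact p.Prime] {k K : Type*} [Field k] [Field K]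
    [Algebra k K] [CharP K p] {x : K} {vK : VI K} (B : Base p k x vK) {e : k} (he : e ≠ 0) (a : K) :
    a ^ p - a ≠ algebraMap k K e * x := by
  intro ha
  have hvx : vK x = exp (1 : ℤ) := by
    rw [B.lev.v_x, pow_zero]
  have hp1 : ¬ (p : ℤ) ∣ 1 := by
    intro h
    have h1 : p ∣ 1 := by exact_mod_cast h
    exact hp.out.one_lt.ne' (Nat.dvd_one.1 h1)
  have hvf₀ : vK (algebraMap k K e * x) = exp (1 : ℤ) := by
    rw [map_mul, B.lev.v_const e he, one_mul, hvx]
  have h1 : Red p vK (algebraMap k K e * x) 1 := ⟨one_pos, hp1, 0, by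
    rw [zero_pow hp.out.ne_zero, sub_zero, sub_zero]
    exact hvf₀⟩
  have h2 := Red.le_of_le h1 (c := a) (l := 0) (by
    rw [ha, sub_self, map_zero]
    exact zero_le)
  omega

/-- the case `n = 1` -/
private theorem lnn_one (B : Base p k x vK) (hD : D (algebraMap K Ω x) = 1)
    {L : IntermediateField K Ω} {κ : ℤ} {v : VI L}
    (U : UU p k x D L 1 κ v) {y : Ω} (hyL : y ∈ L) {e : k} (he : e ≠ 0)
    (hy : y ^ p - y = algebraMap k Ω e * algebraMap K Ω x) : κ = -1 := by
  obtain ⟨v₀, T₀, hv₀⟩ := TT.bot (p := p) (k := k) (x := x) (D := D) B hD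
  have hvx : vK x = exp (1 : ℤ) := by
    rw [B.lev.v_x, pow_zero]
  obtain ⟨f₀, hf₀⟩ : ∃ f₀ : K, f₀ = algebraMap k K e * x := ⟨_, rfl⟩
  have hvf₀ : vK f₀ = exp (1 : ℤ) := by
    rw [hf₀, map_mul, B.lev.v_const e he, one_mul, hvx]
  have hp1 : ¬ (p : ℤ) ∣ 1 := by
    intro h
    have h1 : p ∣ 1 := by exact_mod_cast h
    exact hp.out.one_lt.ne' (Nat.dvd_one.1 h1)
  have hf₀Ω : algebraMap K Ω f₀ = algebraMap k Ω e * algebraMap K Ω x := by
    rw [hf₀, map_mul, ← IsScalarTower.algebraMap_apply]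
  have hwbot : y ∉ (⊥ : IntermediateField K Ω) := by
    intro h
    obtain ⟨a, rfl⟩ := mem_bot.1 h
    apply lnn_not B he a
    apply (algebraMap K Ω).injective
    rw [map_sub, map_pow, hy, ← hf₀, hf₀Ω]
  obtain ⟨f₁, hf₁⟩ : ∃ f₁ : (⊥ : IntermediateField K Ω), f₁ = algebraMap K _ f₀ := ⟨_, rfl⟩
  have hf₁R : f₁ ∈ Rint k (algebraMap K (⊥ : IntermediateField K Ω) x) := by
    have h1 : f₁ = algebraMap k (⊥ : IntermediateField K Ω) e *
        algebraMap K (⊥ : IntermediateField K Ω) x := by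
      apply Subtype.ext
      rw [hf₁]
      exact hf₀Ω
    rw [h1]
    exact mul_mem (Subalgebra.algebraMap_mem _ e) (self_mem_Rint _)
  obtain ⟨l, c, v₁, hl0, hlp, hlc, hv₁, ⟨-, -⟩, T₁⟩ := T₀.adj B hD (w := y) (f := f₁) (by
    rw [hy, hf₁, ← hf₀Ω]
    rfl) hf₁R hwbot
  have hv₀f : v₀ f₁ = exp (1 : ℤ) := by
    rw [hf₁, hv₀, hvf₀]
  have hl1 : l = 1 := by
    have h1 : Red p v₀ f₁ 1 := ⟨one_pos, hp1, 0, by
      rw [zero_pow hp.out.ne_zero, sub_zero, sub_zero]
      exact hv₀f⟩
    exact Red.unique ⟨hl0, hlp, c, hlc⟩ h1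
  have hκ : (p : ℤ) * (-1) + (p - 1) * l = -1 := by
    rw [hl1]
    ring
  rw [hκ, zero_add] at T₁
  have hfL := U.fin
  have hle : (⊥ : IntermediateField K Ω) ⊔ IntermediateField.adjoin K {y} ≤ L := by
    rw [bot_sup_eq, adjoin_simple_le_iff]
    exact hyL
  have heq : (⊥ : IntermediateField K Ω) ⊔ IntermediateField.adjoin K {y} = L :=
    eq_of_le_of_finrank_eq hle (by rw [T₁.rank, U.rank])
  subst heq
  exact (T₁.unique U.toTT).2.1

/-- the field of a Lang torsor -/
private theorem lnn_field (B : Base p k x vK) (hD : D (algebraMap K Ω x) = 1)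
    (hd : ∀ i, d i < p)
    {Dm : Matrix I I k} {g : Matrix I I Ω} {c : (Ω ≃ₐ[K] Ω) →* Matrix I I (ZMod p)}
    (hL : Lang p x d Dm g c) {L : IntermediateField K Ω} (hF : FieldOf c L) :
    L = IntermediateField.adjoin K {a | ∃ i j, a = g i j} := by
  obtain ⟨n, κ, v, U, hF'⟩ := lang_uu B hD hd hL
  apply le_antisymm
  · exact le_of_fx fun σ h => (hF σ).1 ((hF' σ).2 h)
  · exact le_of_fx fun σ h => (hF' σ).1 ((hF σ).2 h)

theorem lang_NN (B : Base p k x vK) (hD : D (algebraMap K Ω x) = 1) (hd : ∀ i, d i < p)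
    {Dm : Matrix I I k} {g : Matrix I I Ω} {c : (Ω ≃ₐ[K] Ω) →* Matrix I I (ZMod p)}
    (hL : Lang p x d Dm g c) {L : IntermediateField K Ω} {n : ℕ} {κ : ℤ} {v : VI L}
    (U : UU p k x D L n κ v) (hF : FieldOf c L) : NN p n κ := by
  classical
  have hp2 : (2 : ℤ) ≤ p := by exact_mod_cast hp.out.two_le
  have hfield := lnn_field B hD hd hL hF
  have hgL : ∀ i j, g i j ∈ L := by
    intro i j
    rw [hfield]
    exact IntermediateField.subset_adjoin K _ ⟨i, j, rfl⟩
  rcases Nat.lt_or_ge n 2 with hn | hn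
  · have hn' : n = 0 ∨ n = 1 := by omega
    rcases hn' with rfl | rfl
    · -- `n = 0`
      have hbot : L = ⊥ := by
        rw [← IntermediateField.finrank_eq_one_iff, U.rank, pow_zero]
      subst hbot
      obtain ⟨v₀, T₀, hv₀⟩ := TT.bot (p := p) (k := k) (x := x) (D := D) B hD
      have hκ := (T₀.unique U.toTT).2.1
      unfold NN
      rw [hκ, pow_zero]
      omega
    · -- `n = 1`
      obtain ⟨u, hu⟩ : ∃ u, u = Ex p (algebraMap K Ω x • Dm.map (algebraMap k Ω)) := ⟨_, rfl⟩
      have hgeq : ∀ i j, (g i j) ^ p - g i j = ∑ l, (u - 1) i l * g l j := by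
        intro i j
        have h1 : Fr p g = u * g := by rw [hu]; exact hL.eq
        have h2 : (g i j) ^ p = (u * g) i j := by rw [← h1]; rfl
        have h3 : (u - 1) * g = u * g - g := by rw [sub_mul, one_mul]
        rw [h2, ← Matrix.mul_apply, h3]
        rfl
      have hD0 : Dm ≠ 0 := by
        intro h0
        have hu1 : u = 1 := by
          rw [hu, h0]
          have e1 : (algebraMap K Ω x • (0 : Matrix I I k).map (algebraMap k Ω)) = 0 := by
            ext i j
            rw [Matrix.smul_apply, Matrix.map_apply, Matrix.zero_apply, map_zero, smul_zero,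
              Matrix.zero_apply]
          rw [e1, Ex_zero]
        have hFr : Fr p g = g := by
          rw [hL.eq, ← hu, hu1, one_mul]
        obtain ⟨N, hN⟩ := exists_toM hFr
        have hLbot : L = ⊥ := by
          rw [eq_bot_iff, hfield, IntermediateField.adjoin_le_iff]
          rintro _ ⟨i, j, rfl⟩
          rw [hN]
          exact _root_.natCast_mem (⊥ : IntermediateField K Ω) _
        have h1 : Module.finrank K L = 1 := IntermediateField.finrank_eq_one_iff.2 hLbot
        rw [U.rank, pow_one] at h1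
        exact hp.out.one_lt.ne' h1
      have hex : ∃ m, ¬ JJ d (m + 1) Dm := by
        refine ⟨p - 1, fun h => hD0 ?_⟩
        have h1 : p - 1 + 1 = p := by have := hp.out.pos; omega
        rw [h1] at h
        exact JJ.eq_zero hd h
      obtain ⟨m, hm1, hm2⟩ : ∃ m, JJ d (m + 1) Dm ∧ ¬ JJ d (m + 2) Dm := by
        have h1 := Nat.find_spec hex
        have h2 : Nat.find hex ≠ 0 := by
          intro h0
          rw [h0] at h1
          exact h1 hL.hD
        obtain ⟨m, hm⟩ := Nat.exists_eq_succ_of_ne_zero h2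
        refine ⟨m, ?_, ?_⟩
        · have h3 := Nat.find_min hex (m := m) (by omega)
          push Not at h3
          exact h3
        · rw [hm] at h1
          exact h1
      obtain ⟨i, j, hij, hdij⟩ : ∃ i j, Dm i j ≠ 0 ∧ d i = d j + (m + 1) := by
        by_contra hne
        push Not at hne
        apply hm2
        intro i j hij
        have h1 := hm1 i j hij
        have h2 := hne i j hij
        omega
      have hM : JJ d (m + 1) (algebraMap K Ω x • Dm.map (algebraMap k Ω)) :=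
        (hm1.map (algebraMap k Ω) (map_zero _)).smul _
      have hu1 : JJ d (m + 1) (u - 1) := by
        rw [hu]
        exact Ex_uni (by omega) hM
      have hy : (g i j) ^ p - g i j = algebraMap k Ω (Dm i j) * algebraMap K Ω x := by
        rw [hgeq, Finset.sum_eq_single j]
        · rw [uni_diag hL.hg, mul_one]
          have h1 := Ex_mod (p := p) (d := d) (m := m + 1) (by omega) (JJ.zero (A := Ω)) hM
          rw [zero_add, Ex_zero, ← hu] at h1
          have h2 : (u - 1 - algebraMap K Ω x • Dm.map (algebraMap k Ω)) i j = 0 := by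
            by_contra h3
            have h4 := h1 i j h3
            omega
          rw [Matrix.sub_apply, sub_eq_zero] at h2
          rw [h2, Matrix.smul_apply, Matrix.map_apply, smul_eq_mul, mul_comm]
        · intro l _ hlj
          by_contra h0
          have h1 := hu1 i l (left_ne_zero_of_mul h0)
          have h2 := uni_off hL.hg hlj (right_ne_zero_of_mul h0)
          omega
        · intro h
          exact absurd (Finset.mem_univ j) h
      have hκ := lnn_one B hD U (hgL i j) hij hy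
      unfold NN
      rw [hκ, pow_one, neg_add_cancel, mul_zero]
      exact mul_pos (by omega) (by omega)
  · -- `n ≥ 2`
    obtain ⟨D', hD', Lv⟩ := U.lvl
    have hcL : CharP L p := charP_of_injective_algebraMap (algebraMap K L).injective p
    have hgal : IsGalois K L := U.gal
    have hsep : Algebra.IsSeparable K L := hgal.to_isSeparable
    obtain ⟨gL, hgLdef⟩ : ∃ gL : Matrix I I L, gL = Matrix.of fun i j => ⟨g i j, hgL i j⟩ :=
      ⟨_, rfl⟩
    have hval : ∀ i j, ((gL i j : L) : Ω) = g i j := by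
      intro i j
      rw [hgLdef]
      rfl
    obtain ⟨ι, hι⟩ : ∃ ι : L →+* Ω, ∀ a : L, ι a = (a : Ω) := ⟨algebraMap L Ω, fun a => rfl⟩
    have hinj : Function.Injective ι := ι.injective
    have hmapg : gL.map ι = g := by
      ext i j
      rw [Matrix.map_apply, hι, hval]
    have hg1 : JJ d 1 (gL - 1) := by
      intro i j hij
      refine hL.hg i j fun h => hij ?_
      apply hinj
      rw [Matrix.sub_apply, map_sub, hι, hval, map_zero]
      rw [Matrix.sub_apply] at h
      rw [← h]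
      congr 1
      rcases eq_or_ne i j with rfl | hij
      · rw [Matrix.one_apply_eq, Matrix.one_apply_eq, map_one]
      · rw [Matrix.one_apply_ne hij, Matrix.one_apply_ne hij, map_zero]
    have heq : Fr p gL = Ex p (algebraMap K L x • Dm.map (algebraMap k L)) * gL := by
      have h1 : (Fr p gL).map ι = (Ex p (algebraMap K L x • Dm.map (algebraMap k L)) * gL).map ι := by
        rw [Fr_map, hmapg, Matrix.map_mul, Ex_map, hmapg, hL.eq]
        congr 2
        ext i j
        rw [Matrix.smul_apply, Matrix.map_apply, Matrix.map_apply, Matrix.smul_apply,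
          Matrix.map_apply, smul_eq_mul, smul_eq_mul, map_mul, hι, hι]
        rfl
      ext i j
      have h2 := congrFun (congrFun h1 i) j
      rw [Matrix.map_apply, Matrix.map_apply] at h2
      exact congrArg _ (hinj h2)
    have hgen : IntermediateField.adjoin K {a : L | ∃ i j, a = gL i j} = ⊤ := by
      apply IntermediateField.map_injective L.val
      rw [IntermediateField.adjoin_map, ← AlgHom.fieldRange_eq_map, IntermediateField.fieldRange_val]
      conv_rhs => rw [hfield]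
      congr 1
      ext a
      constructor
      · rintro ⟨_, ⟨i, j, rfl⟩, rfl⟩
        exact ⟨i, j, hval i j⟩
      · rintro ⟨i, j, rfl⟩
        exact ⟨gL i j, ⟨i, j, rfl⟩, hval i j⟩
    have hb := lang_bound B Lv (by omega) hd hL.hD hg1 heq hgen (e := 4) (by norm_num)
    apply lnn_arith hp2 _ hb
    exact pow_le_pow_right₀ (by omega) hn

end BAC
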