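import Pool.Agent.BAC.CharAS
import Pool.Agent.BAC.BigPol

/-!
BAC / H3 (blueprint 1.6, 1.7, 2.4). Characters of the Galois group of `K = k(x)`.

`pol_reduce`: every `f ∈ k[X]` is `q + (c ^ p - c)` with `q` having no exponents divisible by `p`: strong induction
on the degree: a monomial `a X^(p i)` is `(b X^i)^p`, `b^p = a` (`k` algebraically closed), replace it by
`b X^i` (`i < p i` for `i > 0`); the constant `a` is `b^p - b` (`IsAlgClosed`, root of `X^p - X - a`).
`polC_of_uu`: `char_as` with `E = ⊥`: `w ∈ F` integral, `w ^ p - w ∈ ⊥`, so `w ^ p - w = algebraMap f`, `f ∈ K` integral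
over `k[x]`, so `f = aeval x f'`, `f' ∈ k[X]` (`k[x]` is integrally closed: `B.gen`, `B.trans`; or
`B.lev`: `Rint` of the base, see `mem_Rint_zero`-type lemmas of helper32, e.g. in AS24/AS25; alternatively:
`f` is a quotient of polynomials, `Polynomial` is integrally closed). `pol_reduce`: replace `w` by
`w - aeval x c`.
`linC_of_uu`: `polC_of_uu` gives `q`, `w`. `w ∈ F` (`mem_of_fx`: `Fx F σ` gives `χ σ = 0`). If `natDegree q ≥ 2`:
`big_pol` for `E = ⊥` (`TT.bot`, `NN p 0 (-1)`) gives `Big`; `⊥ ⊔ K(w) ≤ F` is Galois (`char_gal`), in `U` with `NN`, so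
`small_of_step`/`small_of_mem` gives `Small` for `q(x)`: contradiction `Big.not_small`. So `natDegree q ≤ 1`,
`q = e X` (`q.coeff 0 = 0`).
-/

namespace BAC

open Polynomial WithZero IntermediateField Pool.Agent.Helper32

variable {p : ℕ} [hp : Fact p.Prime] {k K Ω : Type*} [Field k] [IsAlgClosed k] [Field K]
  [Field Ω] [Algebra k K] [Algebra K Ω] [Algebra k Ω] [IsScalarTower k K Ω] [CharP k p]
  [CharP K p] [CharP Ω p] [IsSepClosure K Ω] {x : K} {vK : VI K} {D : Derivation k Ω Ω}

omit [IsSepClosure K Ω] in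
theorem pol_reduce (f : k[X]) : ∃ q c : k[X], (∀ i, p ∣ i → q.coeff i = 0) ∧
    f = q + (c ^ p - c) := by
  induction f using Polynomial.induction_on' with
  | add f g hf hg =>
    obtain ⟨q, c, h1, h2⟩ := hf
    obtain ⟨q', c', h1', h2'⟩ := hg
    refine ⟨q + q', c + c', fun i hi => ?_, ?_⟩
    · rw [coeff_add, h1 i hi, h1' i hi, add_zero]
    · rw [add_pow_char, h2, h2']; ring
  | monomial i a =>
    induction i using Nat.strong_induction_on generalizing a with
    | _ i ih =>
      by_cases hi : p ∣ i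
      · obtain ⟨j, rfl⟩ := hi
        rcases Nat.eq_zero_or_pos j with rfl | hj
        · obtain ⟨b, hb⟩ := exists_wp_eq (p := p) a
          refine ⟨0, C b, fun i _ => coeff_zero i, ?_⟩
          rw [mul_zero, monomial_zero_left, zero_add, ← C_pow, ← C_sub, hb]
        · obtain ⟨b, hb⟩ := IsAlgClosed.exists_pow_nat_eq a hp.out.pos
          have hjp : j < p * j := by
            have := hp.out.two_le
            nlinarith
          obtain ⟨q, c, h1, h2⟩ := ih j hjp b
          refine ⟨q, c + monomial j b, h1, ?_⟩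
          have h3 : (monomial (p * j) a : k[X]) = monomial j b ^ p := by
            rw [monomial_pow, hb, mul_comm]
          rw [h3, add_pow_char]
          linear_combination h2
      · refine ⟨monomial i a, 0, fun j hj => ?_, ?_⟩
        · rw [coeff_monomial, if_neg]
          rintro rfl
          exact hi hj
        · rw [zero_pow hp.out.ne_zero, sub_zero, add_zero]

omit [IsAlgClosed k] [CharP k p] [CharP K p] in
theorem rint_base (B : Base p k x vK) {r : K} (hr : r ∈ Rint k x) :
    ∃ f : k[X], r = aeval x f := by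
  have key : ∀ n : ℕ, ∀ r : K, r ∈ Rint k x → vK r ≤ exp (n : ℤ) → ∃ f : k[X], r = aeval x f := by
    intro n
    induction n with
    | zero =>
      intro r hr hv
      obtain ⟨c, hc⟩ := B.lev.R_inter r hr (by simpa using hv)
      exact ⟨C c, by rw [aeval_C]; exact hc⟩
    | succ n ih =>
      intro r hr hv
      have hx : vK (x ^ (n + 1)) = exp ((n + 1 : ℕ) : ℤ) := by
        rw [map_pow, B.lev.v_x, ← exp_nsmul]
        simp
      have hx0 : x ^ (n + 1) ≠ 0 := by
        intro h0
        rw [h0, map_zero] at hx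
        exact exp_ne_zero hx.symm
      obtain ⟨c, hc⟩ := B.lev.approx hx0 (a := r) (by rw [hx]; exact hv)
      have h1 : r - algebraMap k K c * x ^ (n + 1) ∈ Rint k x :=
        sub_mem hr (mul_mem ((Rint k x).algebraMap_mem c) (pow_mem (self_mem_Rint x) _))
      obtain ⟨f, hf⟩ := ih _ h1 (by
        have h2 := hc
        rw [hx] at h2
        have h3 := IsLevel.lt_exp_iff.mp h2
        refine h3.trans ?_
        rw [exp_le_exp]
        push_cast
        omega)
      refine ⟨f + C c * X ^ (n + 1), ?_⟩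
      rw [map_add, map_mul, map_pow, aeval_C, aeval_X, ← hf]
      ring
  by_cases h0 : r = 0
  · exact ⟨0, by rw [h0, map_zero]⟩
  · have h1 : vK r ≠ 0 := (Valuation.ne_zero_iff vK).mpr h0
    obtain ⟨j, hj⟩ : ∃ j : ℤ, vK r = exp j := ⟨_, (exp_log h1).symm⟩
    refine key j.toNat r hr ?_
    rw [hj, exp_le_exp]
    exact Int.self_le_toNat j

theorem polC_of_uu (B : Base p k x vK) (hD : D (algebraMap K Ω x) = 1)
    {F : IntermediateField K Ω} {n : ℕ} {κ : ℤ} {v : VI F} (U : UU p k x D F n κ v)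
    (χ : (Ω ≃ₐ[K] Ω) → ZMod p) (hadd : ∀ σ τ, χ (σ * τ) = χ σ + χ τ)
    (hF : ∀ σ, Fx F σ → χ σ = 0) : ∃ q : k[X], PolC p x q χ := by
  have hfin := U.fin
  have hgal := U.gal
  obtain ⟨w, hwF, hwR, hwE, hw⟩ := char_as (p := p) (k := k) (x := x) U.tr
    (bot_le : (⊥ : IntermediateField K Ω) ≤ F) χ (fun σ τ _ _ => hadd σ τ) hF
  have hall : ∀ σ : Ω ≃ₐ[K] Ω, Fx (⊥ : IntermediateField K Ω) σ := by
    intro σ a ha
    obtain ⟨y, rfl⟩ := IntermediateField.mem_bot.mp ha
    exact σ.commutes y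
  obtain ⟨f, hf⟩ := IntermediateField.mem_bot.mp hwE
  have hfR : f ∈ Rint k x := by
    have h1 : (⟨w, hwF⟩ : F) ^ p - ⟨w, hwF⟩ ∈ Rint k (algebraMap K F x) :=
      sub_mem (pow_mem hwR p) hwR
    have h2 : (⟨w, hwF⟩ : F) ^ p - ⟨w, hwF⟩ = algebraMap K F f := by
      apply Subtype.ext
      change w ^ p - w = algebraMap K Ω f
      exact hf.symm
    rw [h2] at h1
    exact mem_Rint_of_map (IsScalarTower.toAlgHom k K F) h1
  obtain ⟨g, hg⟩ := rint_base B hfR
  obtain ⟨q, c, hq, hqc⟩ := pol_reduce (p := p) g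
  refine ⟨q, hq, w - algebraMap K Ω (aeval x c), ?_, fun σ => ?_⟩
  · have h1 : (w - algebraMap K Ω (aeval x c)) ^ p = w ^ p - algebraMap K Ω (aeval x c) ^ p :=
      sub_pow_char _ _
    have h2 : algebraMap K Ω (aeval x g) = w ^ p - w := by rw [← hg]; exact hf
    rw [h1]
    rw [hqc, map_add, map_sub, map_pow, map_add, map_sub, map_pow] at h2
    linear_combination -h2
  · rw [map_sub, hw σ (hall σ), σ.commutes]
    ring

/-- a polynomial character of degree `≤ 1` is linear -/
theorem PolC.lin {q : k[X]} {χ : (Ω ≃ₐ[K] Ω) → ZMod p} (h : PolC p x q χ)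
    (hq : q.natDegree ≤ 1) : LinC (k := k) p x χ := by
  obtain ⟨h0, w, hw, hσ⟩ := h
  refine ⟨q.coeff 1, w, ?_, hσ⟩
  rw [hw]
  have h1 : q = C (q.coeff 1) * X := by
    have h2 := Polynomial.eq_X_add_C_of_natDegree_le_one hq
    rw [h0 0 (dvd_zero p), C_0, add_zero] at h2
    exact h2
  conv_lhs => rw [h1]
  rw [map_mul, aeval_C, aeval_X, map_mul, ← IsScalarTower.algebraMap_apply]

theorem linC_of_uu (B : Base p k x vK) (hD : D (algebraMap K Ω x) = 1)
    {F : IntermediateField K Ω} {n : ℕ} {κ : ℤ} {v : VI F} (U : UU p k x D F n κ v)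
    (hN : NN p n κ) (χ : (Ω ≃ₐ[K] Ω) → ZMod p) (hadd : ∀ σ τ, χ (σ * τ) = χ σ + χ τ)
    (hF : ∀ σ, Fx F σ → χ σ = 0) : LinC (k := k) p x χ := by
  obtain ⟨q, h⟩ := polC_of_uu B hD U χ hadd hF
  by_cases hd : q.natDegree ≤ 1
  · exact h.lin hd
  exfalso
  obtain ⟨hq, w, hw, hσ⟩ := h
  obtain ⟨v₀, T₀, -⟩ := TT.bot (Ω := Ω) (D := D) B hD
  have U₀ : UU p k x D (⊥ : IntermediateField K Ω) 0 (-1) v₀ := { T₀ with gal := isGalois_bot }
  have hN₀ : NN p 0 (-1) := by
    have := hp.out.two_le
    unfold NN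
    push_cast
    have h1 : (2 : ℤ) ≤ p := by exact_mod_cast this
    linarith
  have hbig := big_pol B hD U₀ hN₀ hq (by omega)
  apply hbig.not_small
  have hwm : w ^ p - w ∈ (⊥ : IntermediateField K Ω) := by
    rw [hw]; exact IntermediateField.algebraMap_mem _ _
  rw [← hw]
  by_cases hwb : w ∈ (⊥ : IntermediateField K Ω)
  · exact small_of_mem hwb
  · have hwF : w ∈ F := by
      apply mem_of_fx
      intro σ hs
      rw [hσ, hF σ hs]
      simp
    have hone : χ 1 = 0 := by
      have h1 := hadd 1 1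
      rw [mul_one] at h1
      exact left_eq_add.1 h1
    have hgal : IsGalois K ↥((⊥ : IntermediateField K Ω) ⊔ IntermediateField.adjoin K {w}) := by
      refine char_gal χ (fun τ σ _ => ?_) (fun σ _ => hσ σ)
      have h1 := hadd τ τ⁻¹
      rw [mul_inv_cancel, hone] at h1
      rw [hadd, hadd]
      linear_combination -h1
    have hle : (⊥ : IntermediateField K Ω) ⊔ IntermediateField.adjoin K {w} ≤ F := by
      rw [sup_le_iff]
      refine ⟨bot_le, ?_⟩
      rw [IntermediateField.adjoin_le_iff, Set.singleton_subset_iff]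
      exact hwF
    obtain ⟨n', κ', v', U'⟩ := UU.sub B hD U hle
    exact small_of_step B hD U₀ hwm hwb U' (UU.NN_mono B hD U' U hle hN)

end BAC
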