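import Pool.Agent.BAC.ApprStep
import Pool.Agent.BAC.LangNN
import Pool.Agent.BAC.PolChar
import Pool.Agent.BAC.ClassBd

/-!
BAC / S3 (blueprint 5.1). Every group of exponent `p` and class `< p` is the image of a Lang torsor.

`lin_chars`: for every `r` there are `e_1, ..., e_r ∈ k` linearly independent over `F_p` (`k` is infinite,
`F_p`-spans of finite sets are finite), `w_i ^ p - w_i = e_i x` (`exists_AS`), `σ w_i = w_i + χ_i σ`
(`exists_zmod_of_pow`). The map `(χ_i) : Gal → F_p^r` is onto: otherwise its image (a subgroup, so a subspace) is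
in the kernel of a nonzero functional `(a_i)`: `∑ a_i χ_i = 0`, `w = ∑ a_i w_i ∈ K` (`mem_of_fx` for `⊥`) with
`w ^ p - w = e x`, `e = ∑ a_i e_i ≠ 0`: impossible (`vK`: `vK (e x) = exp 1`, `vK (w^p - w)` is `≤ 1` or a `p`-th
power).
`ex_gamma`: `Γ / [Γ,Γ]` is an `F_p`-vector space with basis the classes of `γ_1, ..., γ_r`. Base: `lang_step` with
`m = 1`, the trivial torsor (`lang_trivial`), `Cc = {JJ d 2}`, `β σ = ∑ (χ_i σ) (u γ_i - 1)` (`Rep.one`); `lam (β σ)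
= ∑ lam (u γ_i - 1) χ_i σ` is `LinC` with `w = ∑ lam_i w_i`. It gives `c σ = 1 + β σ` mod `JJ d 2`, which is `u (γ)` mod
`JJ d 2` for `γ = ∏ γ_i ^ (χ_i σ)` (`uni_prod_mod`). So `Appr d u ⊤ 1 2 c` (`Z = ⊤`, `r = 1`).
Induction on `m ≥ 2`: `Appr d u ⊤ 1 m c` and `JJ d 2 (c σ - 1 - β σ)`. `appr_char` gives `b`; for `lam` killing `CZ` the
character `lam (b σ)` is additive and vanishes if `c σ = 1`, i.e. on `Fx L`, `L` the field of `lang_uu`, `NN` by
`lang_NN`; so it is `LinC` (`linC_of_uu`). `appr_step`. (`JJ d m (c' - c)` with `m ≥ 2` keeps the second property.)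
`m = p`: `appr_end`: `c σ = u (γ σ)`, `γ` a hom (`Rep.inj`), onto: `A = range γ`; for `γ₀ ∈ Γ` write
`γ₀ = ∏ γ_i ^ (a_i)` mod `[Γ,Γ]`, choose `σ` with `χ_i σ = a_i`; then `u (γ σ) = 1 + ∑ a_i (u γ_i - 1) = u γ₀` mod
`JJ d 2` (`u [Γ,Γ] ⊆ 1 + JJ d 2`: commutators of elements of `1 + JJ d 1`), so `γ σ * γ₀⁻¹ ∈ [Γ,Γ]` (`Rep.two`).
`frattini_sup` (`Γ` is a `p`-group: exponent `p`): `A = ⊤`.
-/

namespace BAC

open Polynomial WithZero IntermediateField Pool.Agent.Helper32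

variable {p : ℕ} [hp : Fact p.Prime] {k K Ω : Type*} [Field k] [IsAlgClosed k] [Field K]
  [Field Ω] [Algebra k K] [Algebra K Ω] [Algebra k Ω] [IsScalarTower k K Ω] [CharP k p]
  [CharP K p] [CharP Ω p] [IsSepClosure K Ω] {x : K} {vK : VI K} {D : Derivation k Ω Ω}
  {I : Type*} [Fintype I] [DecidableEq I] {d : I → ℕ} {Γ : Type*} [Group Γ]
  {u : Γ →* Matrix I I (ZMod p)}

private theorem exg_indep (p : ℕ) [hp : Fact p.Prime] (k : Type*) [Field k] [IsAlgClosed k]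
    [CharP k p] (r : ℕ) :
    ∃ e : Fin r → k, ∀ a : Fin r → ZMod p, ∑ i, ((a i).val : k) * e i = 0 → a = 0 := by
  let _ : Algebra (ZMod p) k := ZMod.algebra k p
  have hinf : Infinite k := inferInstance
  obtain ⟨b, -⟩ : ∃ b : Module.Basis (Module.Basis.ofVectorSpaceIndex (ZMod p) k) (ZMod p) k,
      b = Module.Basis.ofVectorSpace (ZMod p) k := ⟨_, rfl⟩
  have hι : Infinite (Module.Basis.ofVectorSpaceIndex (ZMod p) k) := by
    by_contra h
    rw [not_infinite_iff_finite] at h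
    have h1 : Module.Finite (ZMod p) k := Module.Finite.of_basis b
    have h2 : Finite k := Module.finite_of_finite (ZMod p)
    exact not_finite k
  obtain ⟨f, hf⟩ : ∃ f : ℕ → Module.Basis.ofVectorSpaceIndex (ZMod p) k, Function.Injective f :=
    ⟨Infinite.natEmbedding _, (Infinite.natEmbedding _).injective⟩
  refine ⟨fun i => b (f i), fun a ha => ?_⟩
  have hli : LinearIndependent (ZMod p) (fun i : Fin r => b (f i)) :=
    b.linearIndependent.comp (fun i : Fin r => f i) (hf.comp Fin.val_injective)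
  rw [Fintype.linearIndependent_iff] at hli
  funext i
  refine hli a ?_ i
  rw [← ha]
  refine Finset.sum_congr rfl fun i _ => ?_
  rw [Algebra.smul_def]
  congr 1
  conv_lhs => rw [← ZMod.natCast_zmod_val (a i)]
  exact map_natCast _ _

omit [IsAlgClosed k] [Algebra k K] [Algebra k Ω] [IsScalarTower k K Ω] [CharP k p] [CharP K p]
  [IsSepClosure K Ω] [Field k] in
private theorem exg_char {w : Ω} {f : K} (hw : w ^ p - w = algebraMap K Ω f) (σ : Ω ≃ₐ[K] Ω) :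
    ∃ b : ZMod p, σ w = w + ((b.val : ℕ) : Ω) := by
  have h1 : (σ w) ^ p - σ w = algebraMap K Ω f := by
    have h := congrArg σ hw
    rwa [map_sub, map_pow, σ.commutes] at h
  have h2 : (σ w - w) ^ p = σ w - w := by
    rw [sub_pow_char_of_commute _ (Commute.all _ _)]
    linear_combination h1 - hw
  obtain ⟨b, hb⟩ := exists_zmod_of_pow h2
  exact ⟨b, by rw [← hb]; ring⟩

private theorem exg_cast (p : ℕ) [hp : Fact p.Prime] (A : Type*) [Field A] [CharP A p]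
    (b : ZMod p) : ZMod.castHom (dvd_refl p) A b = ((b.val : ℕ) : A) := by
  conv_lhs => rw [← ZMod.natCast_zmod_val b]
  exact map_natCast _ _

omit [IsAlgClosed k] [IsScalarTower k K Ω] [CharP K p] [IsSepClosure K Ω] [Algebra k K] in
private theorem exg_lin {r : ℕ} {e : Fin r → k} {w : Fin r → Ω}
    {χ : Fin r → (Ω ≃ₐ[K] Ω) → ZMod p}
    (h1 : ∀ i, w i ^ p - w i = algebraMap k Ω (e i) * algebraMap K Ω x)
    (h2 : ∀ i σ, σ (w i) = w i + ((χ i σ).val : Ω)) (a : Fin r → ZMod p) :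
    (∑ i, ((a i).val : Ω) * w i) ^ p - (∑ i, ((a i).val : Ω) * w i) =
      algebraMap k Ω (∑ i, ((a i).val : k) * e i) * algebraMap K Ω x ∧
    ∀ σ : Ω ≃ₐ[K] Ω, σ (∑ i, ((a i).val : Ω) * w i) =
      (∑ i, ((a i).val : Ω) * w i) + (((∑ i, a i * χ i σ).val : ℕ) : Ω) := by
  constructor
  · rw [sum_pow_char, ← Finset.sum_sub_distrib, map_sum, Finset.sum_mul]
    refine Finset.sum_congr rfl fun i _ => ?_
    rw [mul_pow, val_cast_pow, ← mul_sub, h1, map_mul, map_natCast, mul_assoc]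
  · intro σ
    rw [map_sum, ← exg_cast p Ω (∑ i, a i * χ i σ), map_sum, ← Finset.sum_add_distrib]
    refine Finset.sum_congr rfl fun i _ => ?_
    rw [map_mul, map_natCast, h2, map_mul, exg_cast, exg_cast]
    ring

omit [Field Ω] [Algebra K Ω] [Algebra k Ω] [IsScalarTower k K Ω] [CharP Ω p]
  [IsSepClosure K Ω] [CharP k p] [IsAlgClosed k] in
private theorem exg_np (B : Base p k x vK) {e : k} (he : e ≠ 0) (y : K) :
    y ^ p - y ≠ algebraMap k K e * x := by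
  intro hy
  have hvx : vK x = exp (1 : ℤ) := by
    rw [B.lev.v_x, pow_zero]
  have hvf : vK (algebraMap k K e * x) = exp (1 : ℤ) := by
    rw [map_mul, B.lev.v_const e he, one_mul, hvx]
  have hp1 : ¬ (p : ℤ) ∣ 1 := by
    intro h
    have h1 : p ∣ 1 := by exact_mod_cast h
    exact hp.out.one_lt.ne' (Nat.dvd_one.1 h1)
  have h1 : Red p vK (algebraMap k K e * x) 1 := ⟨one_pos, hp1, 0, by
    rw [zero_pow hp.out.ne_zero, sub_zero, sub_zero]
    exact hvf⟩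
  have h2 := Red.le_of_le h1 (c := y) (l := 0) (by
    rw [hy, sub_self, map_zero]
    exact zero_le)
  omega

theorem lin_chars (B : Base p k x vK) (r : ℕ) :
    ∃ (e : Fin r → k) (w : Fin r → Ω) (χ : Fin r → (Ω ≃ₐ[K] Ω) → ZMod p),
      (∀ i, w i ^ p - w i = algebraMap k Ω (e i) * algebraMap K Ω x) ∧
      (∀ i σ, σ (w i) = w i + ((χ i σ).val : Ω)) ∧
      (∀ i σ τ, χ i (σ * τ) = χ i σ + χ i τ) ∧
      ∀ a : Fin r → ZMod p, ∃ σ, ∀ i, χ i σ = a i := by
  have hsc : IsSepClosed Ω := IsSepClosure.sep_closed K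
  obtain ⟨e, he⟩ := exg_indep p k r
  have hw : ∀ i, ∃ w : Ω, w ^ p - w = algebraMap k Ω (e i) * algebraMap K Ω x :=
    fun i => exists_AS _
  choose w hw using hw
  have hKx : ∀ c : k, algebraMap k Ω c * algebraMap K Ω x = algebraMap K Ω (algebraMap k K c * x) := by
    intro c
    rw [map_mul, ← IsScalarTower.algebraMap_apply]
  have hχ : ∀ i (σ : Ω ≃ₐ[K] Ω), ∃ b : ZMod p, σ (w i) = w i + ((b.val : ℕ) : Ω) := by
    intro i σ
    refine exg_char (f := algebraMap k K (e i) * x) ?_ σ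
    rw [hw, hKx]
  choose χ hχ using hχ
  have hadd : ∀ i σ τ, χ i (σ * τ) = χ i σ + χ i τ := by
    intro i σ τ
    apply val_cast_inj (A := Ω)
    rw [val_add_cast]
    have h1 : (σ * τ) (w i) = σ (τ (w i)) := rfl
    rw [hχ, hχ, map_add, map_natCast, hχ] at h1
    linear_combination h1
  have hone : ∀ i, χ i 1 = 0 := by
    intro i
    have h := hadd i 1 1
    rw [mul_one] at h
    simpa using h
  refine ⟨e, w, χ, hw, hχ, hadd, ?_⟩
  let R : AddSubgroup (Fin r → ZMod p) :=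
    { carrier := Set.range fun σ : Ω ≃ₐ[K] Ω => fun i => χ i σ
      zero_mem' := ⟨1, funext fun i => hone i⟩
      add_mem' := by
        rintro _ _ ⟨σ, rfl⟩ ⟨τ, rfl⟩
        exact ⟨σ * τ, funext fun i => hadd i σ τ⟩
      neg_mem' := by
        rintro _ ⟨σ, rfl⟩
        refine ⟨σ⁻¹, funext fun i => ?_⟩
        have h := hadd i σ⁻¹ σ
        rw [inv_mul_cancel, hone] at h
        exact eq_neg_of_add_eq_zero_left h.symm }
  have hR : AddSubgroup.toZModSubmodule p R = ⊤ := by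
    by_contra hne
    obtain ⟨f, hf0, hf⟩ := Submodule.exists_le_ker_of_lt_top _ (lt_top_iff_ne_top.2 hne)
    obtain ⟨a, ha⟩ : ∃ a : Fin r → ZMod p, ∀ v : Fin r → ZMod p, f v = ∑ i, v i * a i :=
      ⟨fun i => f fun j => if i = j then 1 else 0, fun v => LinearMap.pi_apply_eq_sum_univ f v⟩
    have ha0 : a ≠ 0 := by
      rintro rfl
      apply hf0
      ext i
      simp [ha]
    have hχ0 : ∀ σ : Ω ≃ₐ[K] Ω, ∑ i, a i * χ i σ = 0 := by
      intro σ
      have h1 : (fun i => χ i σ) ∈ AddSubgroup.toZModSubmodule p R := ⟨σ, rfl⟩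
      have h2 := LinearMap.mem_ker.1 (hf h1)
      rw [ha] at h2
      rw [← h2]
      exact Finset.sum_congr rfl fun i _ => mul_comm _ _
    obtain ⟨h3, h4⟩ := exg_lin hw hχ a
    have h5 : (∑ i, ((a i).val : Ω) * w i) ∈ (⊥ : IntermediateField K Ω) := by
      apply mem_of_fx
      intro σ _
      rw [h4, hχ0, ZMod.val_zero, Nat.cast_zero, add_zero]
    obtain ⟨y, hy⟩ := IntermediateField.mem_bot.1 h5
    have he0 : ∑ i, ((a i).val : k) * e i ≠ 0 := fun h => ha0 (he a h)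
    refine exg_np B he0 y ?_
    apply (algebraMap K Ω).injective
    rw [map_sub, map_pow, hy, h3, hKx]
  intro a
  have h1 : a ∈ AddSubgroup.toZModSubmodule p R := by
    rw [hR]
    exact Submodule.mem_top
  obtain ⟨σ, hσ⟩ := h1
  exact ⟨σ, fun i => congrFun hσ i⟩

/-- the first layer of the approximation -/
theorem ex_gamma_base (B : Base p k x vK) [Finite Γ] (hu : Rep p d u) (he : ∀ γ : Γ, γ ^ p = 1) :
    ∃ (Dm : Matrix I I k) (g : Matrix I I Ω) (c : (Ω ≃ₐ[K] Ω) →* Matrix I I (ZMod p)),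
      Lang p x d Dm g c ∧ (∀ σ, ∃ γ, JJ d 2 (c σ - u γ)) ∧
      ∀ γ, ∃ σ, JJ d 2 (c σ - u γ) := by
  classical
  obtain ⟨r, b, hb⟩ : ∃ (r : ℕ) (b : Module.Basis (Fin r) (ZMod p) (CZ d u ⊤ 1)), b = b :=
    ⟨_, Module.finBasis (ZMod p) (CZ d u ⊤ 1), rfl⟩
  obtain ⟨e, w, χ, hw, hχ, -, hsurj⟩ := lin_chars (Ω := Ω) B r
  have hbW : ∀ i, JJ d 1 (b i : Matrix I I (ZMod p)) :=
    fun i => ((mem_CZ hu le_rfl).1 (b i).2).1
  obtain ⟨β, hβ⟩ : ∃ β : (Ω ≃ₐ[K] Ω) → Matrix I I (ZMod p),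
      ∀ σ, β σ = ∑ i, χ i σ • (b i : Matrix I I (ZMod p)) := ⟨_, fun σ => rfl⟩
  obtain ⟨Cc, hCc⟩ : ∃ Cc : Submodule (ZMod p) (Matrix I I (ZMod p)), ∀ M, M ∈ Cc ↔ JJ d 2 M :=
    ⟨{ carrier := {M | JJ d 2 M}
       zero_mem' := JJ.zero
       add_mem' := fun h h' => JJ.add h h'
       smul_mem' := fun a _ h => JJ.smul a h }, fun M => Iff.rfl⟩
  obtain ⟨Dm, g, c, hL, hc⟩ := lang_step (k := k) (K := K) (Ω := Ω) (x := x) hu.lt
    (lang_trivial (p := p) (d := d)) (m := 1) le_rfl Cc (fun M h => (hCc M).2 h)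
    (fun M h => ((hCc M).1 h).mono (by omega)) β
    (fun σ => by
      rw [hβ]
      exact JJ.sum _ _ fun i _ => JJ.smul _ (hbW i))
    (fun lam _ => by
      obtain ⟨h1, h2⟩ := exg_lin hw hχ (fun i => lam (b i : Matrix I I (ZMod p)))
      refine ⟨_, _, h1, fun σ => ?_⟩
      rw [h2]
      have h3 : lam (β σ) = ∑ i, lam (b i : Matrix I I (ZMod p)) * χ i σ := by
        rw [hβ, map_sum]
        refine Finset.sum_congr rfl fun i _ => ?_
        rw [map_smul, smul_eq_mul, mul_comm]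
      simp only [h3])
  have hc2 : ∀ σ, JJ d 2 (c σ - 1 - β σ) := by
    intro σ
    obtain ⟨t, ht, h1⟩ := hc σ
    rw [MonoidHom.one_apply, one_mul] at h1
    have h2 : c σ - 1 - β σ = t := by
      rw [h1]
      abel
    rw [h2]
    exact (hCc t).1 ht
  refine ⟨Dm, g, c, hL, fun σ => ?_, fun γ => ?_⟩
  · have h1 : β σ ∈ CZ d u ⊤ 1 := by
      rw [hβ]
      exact Submodule.sum_mem _ fun i _ => Submodule.smul_mem _ _ (b i).2
    obtain ⟨-, γ, -, h2⟩ := (mem_CZ hu le_rfl).1 h1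
    refine ⟨γ, ?_⟩
    have h3 : c σ - u γ = (c σ - 1 - β σ) - (u γ - 1 - β σ) := by abel
    rw [h3]
    exact (hc2 σ).sub h2
  · have h1 : u γ - 1 ∈ CZ d u ⊤ 1 := by
      rw [mem_CZ hu le_rfl]
      refine ⟨hu.one γ, γ, Subgroup.mem_top γ, ?_⟩
      rw [sub_self]
      exact JJ.zero
    obtain ⟨σ, hσ⟩ := hsurj fun i => b.repr ⟨u γ - 1, h1⟩ i
    refine ⟨σ, ?_⟩
    have h2 : β σ = u γ - 1 := by
      rw [hβ]
      have h3 := congrArg (fun M : CZ d u ⊤ 1 => (M : Matrix I I (ZMod p)))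
        (b.sum_repr ⟨u γ - 1, h1⟩)
      simp only [Submodule.coe_sum, Submodule.coe_smul] at h3
      rw [← h3]
      exact Finset.sum_congr rfl fun i _ => by rw [hσ]
    have h4 : c σ - u γ = c σ - 1 - β σ := by
      rw [h2]
      abel
    rw [h4]
    exact hc2 σ

theorem ex_gamma (B : Base p k x vK) (hD : D (algebraMap K Ω x) = 1) [Finite Γ]
    (hu : Rep p d u) (he : ∀ γ : Γ, γ ^ p = 1) :
    ∃ (Dm : Matrix I I k) (g : Matrix I I Ω) (c : (Ω ≃ₐ[K] Ω) →* Matrix I I (ZMod p))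
      (r : (Ω ≃ₐ[K] Ω) →* Γ), Lang p x d Dm g c ∧ (∀ σ, c σ = u (r σ)) ∧
      Function.Surjective r := by
  have key : ∀ m : ℕ, ∃ (Dm : Matrix I I k) (g : Matrix I I Ω)
      (c : (Ω ≃ₐ[K] Ω) →* Matrix I I (ZMod p)), Lang p x d Dm g c ∧
      Appr d u ⊤ (1 : (Ω ≃ₐ[K] Ω) →* Γ) (m + 2) c ∧ ∀ γ, ∃ σ, JJ d 2 (c σ - u γ) := by
    intro m
    induction m with
    | zero =>
      obtain ⟨Dm, g, c, hL, h1, h2⟩ := ex_gamma_base (Ω := Ω) B hu he
      refine ⟨Dm, g, c, hL, fun σ => ?_, h2⟩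
      obtain ⟨γ, hγ⟩ := h1 σ
      refine ⟨γ, Subgroup.mem_top γ, ?_⟩
      rw [MonoidHom.one_apply, one_mul]
      have h3 : u γ⁻¹ * c σ - 1 = u γ⁻¹ * (c σ - u γ) := by
        rw [mul_sub, ← map_mul, inv_mul_cancel, map_one]
      rw [h3]
      have h4 := (JJ.zero_of_uni (hu.one γ⁻¹)).mul hγ
      exact h4.mono (by omega)
    | succ m ih =>
      obtain ⟨Dm, g, c, hL, h1, h2⟩ := ih
      obtain ⟨b, hb, hcb, hlam⟩ := appr_char hu (1 : (Ω ≃ₐ[K] Ω) →* Γ) c (by omega) h1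
      obtain ⟨n, κ, v, U, hF⟩ := lang_uu B hD hu.lt hL
      have hN := lang_NN B hD hu.lt hL U hF
      obtain ⟨Dm', g', c', hL', h3, h4⟩ := appr_step (k := k) hu hL (1 : (Ω ≃ₐ[K] Ω) →* Γ)
        (by omega) b hb hcb (fun lam hl => by
          obtain ⟨h5, h6⟩ := hlam lam hl
          exact linC_of_uu B hD U hN (fun σ => lam (b σ)) h5 fun σ hσ =>
            h6 σ (Subgroup.mem_top _) ((hF σ).2 hσ))
      refine ⟨Dm', g', c', hL', h3, fun γ => ?_⟩
      obtain ⟨σ, hσ⟩ := h2 γ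
      refine ⟨σ, ?_⟩
      have h5 : c' σ - u γ = (c' σ - c σ) + (c σ - u γ) := by abel
      rw [h5]
      exact ((h4 σ).mono (by omega)).add hσ
  obtain ⟨Dm, g, c, hL, h1, h2⟩ := key (p - 2)
  have hp2 : p - 2 + 2 = p := Nat.sub_add_cancel hp.out.two_le
  rw [hp2] at h1
  have h3 : ∀ σ, ∃ γ : Γ, c σ = u γ := by
    intro σ
    obtain ⟨z, -, hz⟩ := appr_end hu _ _ h1 σ
    exact ⟨_, hz⟩
  choose r hr using h3
  obtain ⟨r', hr'⟩ : ∃ r' : (Ω ≃ₐ[K] Ω) →* Γ, ∀ σ, r' σ = r σ := by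
    refine ⟨{ toFun := r, map_one' := ?_, map_mul' := fun σ τ => ?_ }, fun σ => rfl⟩
    · apply hu.inj
      rw [← hr, map_one, map_one]
    · apply hu.inj
      rw [← hr, map_mul, map_mul, ← hr, ← hr]
  refine ⟨Dm, g, c, r', hL, fun σ => by rw [hr', ← hr], ?_⟩
  have hpG : IsPGroup p Γ := fun γ => ⟨1, by rw [pow_one]; exact he γ⟩
  have htop : r'.range = ⊤ := by
    refine frattini_sup hpG r'.range ?_
    rw [eq_top_iff]
    intro γ _
    obtain ⟨σ, hσ⟩ := h2 γ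
    have h4 : (r' σ)⁻¹ * γ ∈ commutator Γ := by
      apply hu.two
      have h5 : u ((r' σ)⁻¹ * γ) - 1 = u (r' σ)⁻¹ * -(c σ - u γ) := by
        rw [hr σ, ← hr', map_mul, neg_sub, mul_sub, ← map_mul u (r' σ)⁻¹ (r' σ), inv_mul_cancel,
          map_one]
      rw [h5]
      exact ((JJ.zero_of_uni (hu.one _)).mul hσ.neg).mono (by omega)
    have h5 : γ = r' σ * ((r' σ)⁻¹ * γ) := by group
    rw [h5]
    exact Subgroup.mul_mem_sup ⟨σ, rfl⟩ h4
  exact MonoidHom.range_eq_top.1 htop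

end BAC
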