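import Pool.Agent.BAC.UExists
import Pool.Agent.Helper32.AS24
import Pool.Agent.Helper32.AS25

/-!
BAC / R6 (blueprint 1.5). The genus of the fields of `U`.

`genus_lvl`: `genus_eq` (helper32 AS24) for `E / K` finite separable, with `Rint_and_partial_fractions`.
-/

namespace BAC

open Polynomial WithZero IntermediateField Pool.Agent.Helper32

/-- `K = k(x)` is a fraction field of `k[X]` -/
theorem base_frac {k K : Type*} [Field k] [Field K] [Algebra k K] {x : K}
    (hgen : IntermediateField.adjoin k {x} = ⊤) (htr : Transcendental k x) :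
    letI : Algebra k[X] K := (aeval x : k[X] →ₐ[k] K).toRingHom.toAlgebra
    IsFractionRing k[X] K := by
  letI : Algebra k[X] K := (aeval x : k[X] →ₐ[k] K).toRingHom.toAlgebra
  have halg : ∀ q : k[X], algebraMap k[X] K q = aeval x q := fun q => rfl
  have hinj : Function.Injective (aeval x : k[X] →ₐ[k] K) :=
    transcendental_iff_injective.mp htr
  have : FaithfulSMul k[X] K := (faithfulSMul_iff_algebraMap_injective _ _).mpr hinj
  refine IsFractionRing.of_field k[X] K (fun z => ?_)
  have hz : z ∈ IntermediateField.adjoin k {x} := by rw [hgen]; trivial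
  obtain ⟨a, b, hab⟩ := (IntermediateField.mem_adjoin_simple_iff k z).mp hz
  exact ⟨a, b, hab⟩

theorem genus_lvl {p : ℕ} [hp : Fact p.Prime] {k K F : Type*} [Field k] [IsAlgClosed k]
    [Field K] [Field F] [Algebra k K] [Algebra K F] [Algebra k F] [IsScalarTower k K F]
    [CharP k p] [FiniteDimensional K F] [Algebra.IsSeparable K F] {x : K} {vK : VI K}
    (B : Base p k x vK) {D : Derivation k F F} {n : ℕ} {κ : ℤ} {v : VI F}
    (L : Lvl p k (algebraMap K F x) D n κ v) : 2 * (genus k F : ℤ) = κ + 1 := by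
  letI : Algebra k[X] K := (aeval x : k[X] →ₐ[k] K).toRingHom.toAlgebra
  have hfr : IsFractionRing k[X] K := base_frac B.gen B.trans
  have hst : IsScalarTower k k[X] K := IsScalarTower.of_algebraMap_eq fun c => by
    change algebraMap k K c = aeval x (C c)
    rw [aeval_C]
  have hx : algebraMap K F x = algebraMap K F (algebraMap (Polynomial k) K X) := by
    change _ = algebraMap K F (aeval x X)
    rw [aeval_X]
  obtain ⟨h1, h2⟩ := Rint_and_partial_fractions (k := k) (K := K) (F := F) hx
  obtain ⟨g, L'⟩ := L.lev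
  have hg := genus_eq L' h1 h2
  have hW : Wm k (algebraMap K F x) v 0 =
      Subalgebra.toSubmodule (Rint k (algebraMap K F x)) ⊔ Oint k v L'.v_const_le := by
    ext f
    rw [mem_Wm L']
    have h3 := @mem_Wsub p hp k F _ _ _ _ (algebraMap K F x) n g v L' f
    rw [Wsub] at h3
    rw [h3]
    simp
  rw [hg, ← hW]
  exact L.gen

theorem genus_uu {p : ℕ} [hp : Fact p.Prime] {k K Ω : Type*} [Field k] [IsAlgClosed k] [Field K]
    [Field Ω] [Algebra k K] [Algebra K Ω] [Algebra k Ω] [IsScalarTower k K Ω] [CharP k p]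
    [CharP K p] [CharP Ω p] [IsSepClosure K Ω] {x : K} {vK : VI K} {D : Derivation k Ω Ω}
    (B : Base p k x vK) {E : IntermediateField K Ω} {n : ℕ} {κ : ℤ} {v : VI E}
    (U : UU p k x D E n κ v) : 2 * (genus k E : ℤ) = κ + 1 := by
  have hfin := U.fin
  have hgal := U.gal
  obtain ⟨D', hD', Lv⟩ := U.lvl
  exact genus_lvl B Lv

end BAC
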