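import Pool.Agent.BAC.GDefs

/-!
BAC / G6. `[γ_i, γ_j] ≤ γ_(i+j)` for the lower central series.

Induction on `j`: `γ_(j+1) = [γ_j, G]` for `j ≥ 1`, and the three subgroups lemma modulo the normal subgroup
`γ_(i+j+1)`: `[[γ_j, G], γ_i] ≤ [[G, γ_i], γ_j] [[γ_i, γ_j], G] ≤ γ_(i+j+1)`
(`Subgroup.commutator_commutator_eq_bot_of_rotate` in the quotient, or directly).
`gam_normal`, `gam_anti`, `gam_succ`: from Mathlib (`Subgroup.lowerCentralSeries`).
`gam_map`: `gam` of a quotient/surjective image.
-/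

namespace BAC

variable {G : Type*} [Group G]

theorem gam_anti : Antitone (gam G) := fun _ _ h =>
  Subgroup.lowerCentralSeries_antitone _ (Nat.sub_le_sub_right h 1)

instance gam_normal (n : ℕ) : (gam G n).Normal := by
  unfold gam
  infer_instance

theorem gam_succ {n : ℕ} (hn : 1 ≤ n) : gam G (n + 1) = ⁅gam G n, (⊤ : Subgroup G)⁆ := by
  obtain ⟨m, rfl⟩ := Nat.exists_eq_add_of_le' hn
  rfl

/-- the three subgroups lemma modulo a normal subgroup -/
theorem three_sub {H₁ H₂ H₃ : Subgroup G} (N : Subgroup G) [N.Normal]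
    (h1 : ⁅⁅H₂, H₃⁆, H₁⁆ ≤ N) (h2 : ⁅⁅H₃, H₁⁆, H₂⁆ ≤ N) : ⁅⁅H₁, H₂⁆, H₃⁆ ≤ N := by
  have key : ∀ H : Subgroup G, H ≤ N ↔ H.map (QuotientGroup.mk' N) = ⊥ := by
    intro H
    rw [Subgroup.map_eq_bot_iff, QuotientGroup.ker_mk']
  rw [key, Subgroup.map_commutator, Subgroup.map_commutator] at h1 h2 ⊢
  exact Subgroup.commutator_commutator_eq_bot_of_rotate h1 h2

theorem gam_top (n : ℕ) : ⁅gam G n, (⊤ : Subgroup G)⁆ ≤ gam G (n + 1) := by
  rcases Nat.eq_zero_or_pos n with h | h
  · subst h
    exact le_top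
  · exact (gam_succ h).ge

theorem gam_comm (i j : ℕ) : ⁅gam G i, gam G j⁆ ≤ gam G (i + j) := by
  rcases Nat.eq_zero_or_pos j with h | h
  · subst h
    exact Subgroup.commutator_le_left _ _
  · induction j, h using Nat.le_induction generalizing i with
    | base => exact gam_top i
    | succ j hj ih =>
      have hj' : 1 ≤ j := hj
      rw [gam_succ hj', Subgroup.commutator_comm]
      refine three_sub _ ?_ ?_
      · refine (Subgroup.commutator_mono ?_ le_rfl).trans ((ih (i + 1)).trans ?_)
        · rw [Subgroup.commutator_comm]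
          exact gam_top i
        · exact gam_anti (by omega)
      · refine (Subgroup.commutator_mono (ih i) le_rfl).trans ((gam_top _).trans ?_)
        exact gam_anti (by omega)

/-- lower central series of a subgroup -/
theorem gam_subgroup (H : Subgroup G) (n : ℕ) : (gam H n).map H.subtype ≤ gam G n := by
  unfold gam
  rw [Subgroup.top_subtype_lowerCentralSeries]
  exact Subgroup.lowerCentralSeries_mono _ le_top

end BAC
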