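import Pool.Agent.BAC.JL
import Pool.Agent.BAC.GamComm
import Pool.Agent.BAC.AdBasis

/-!
BAC / G10 (blueprint 3.4). The unipotent representation.

`S_i = gam Γ i` is an `NSer` (`gam_comm`; `pow`: `g ^ p = 1`; `gam Γ p = ⊥`). `R = F_p[Γ]` (finite-dimensional),
`V = R / NJ p S p`, `W m = image of NJ p S m` for `m ≤ p`, (`W m = (NJ m).map mkQ` for all `m`; `W p = ⊥`,
`W 0 = ⊤`). Adapted basis `b`, `d < p`. `Γ` acts on `V` by left multiplication (`NJ_mul_left`);
`u γ :=` its matrix in the basis `b` (`LinearMap.toMatrix b b`), a monoid hom. `(of γ - 1) NJ m ⊆ NJ (m+1)`, so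
`(u γ - 1) e_j ∈ W (d j + 1) = span {e_i | d i ≥ d j + 1}`: `JJ d 1`. If `JJ d 2 (u γ - 1)` then
`(of γ - 1) W 0 ⊆ W 2` (`W 0` is spanned by the `e_j`, `(u γ - 1) e_j ∈ W (d j + 2)`), apply it to `1`:
`of γ - 1 ∈ NJ 2 + NJ p = NJ 2` (`p ≥ 2`), and JL gives `γ ∈ gam Γ 2 = commutator Γ`. Injective: `u γ = 1` gives
`of γ - 1 ∈ NJ p` and `γ ∈ gam Γ p = ⊥`.
-/

namespace BAC

section rep

variable {p : ℕ} [hp : Fact p.Prime] {Γ : Type*} [Group Γ] {S : ℕ → Subgroup Γ}

/-- the quotient of the group algebra -/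
private abbrev QV (p : ℕ) {Γ : Type*} [Group Γ] (S : ℕ → Subgroup Γ) :=
  MonoidAlgebra (ZMod p) Γ ⧸ NJ p S p

/-- the action on the quotient -/
private noncomputable def rAct (hS : NSer p S) : Γ →* Module.End (ZMod p) (QV p S) where
  toFun γ := (NJ p S p).mapQ (NJ p S p)
    (LinearMap.mulLeft (ZMod p) (MonoidAlgebra.of (ZMod p) Γ γ))
    (fun a ha => NJ_mul_left hS ha _)
  map_one' := by
    apply LinearMap.ext
    intro x
    obtain ⟨r, rfl⟩ := Submodule.mkQ_surjective _ x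
    rw [Submodule.mkQ_apply, Submodule.mapQ_apply, map_one, LinearMap.mulLeft_apply, one_mul]
    rfl
  map_mul' γ γ' := by
    apply LinearMap.ext
    intro x
    obtain ⟨r, rfl⟩ := Submodule.mkQ_surjective _ x
    rw [Module.End.mul_apply, Submodule.mkQ_apply, Submodule.mapQ_apply, Submodule.mapQ_apply,
      Submodule.mapQ_apply, map_mul, LinearMap.mulLeft_apply, LinearMap.mulLeft_apply,
      LinearMap.mulLeft_apply, mul_assoc]

private theorem rAct_sub (hS : NSer p S) (γ : Γ) (r : MonoidAlgebra (ZMod p) Γ) :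
    (rAct hS γ - 1) ((NJ p S p).mkQ r) =
      (NJ p S p).mkQ ((MonoidAlgebra.of (ZMod p) Γ γ - 1) * r) := by
  rw [sub_mul, one_mul, map_sub]
  rfl

end rep

theorem exists_rep {p : ℕ} [hp : Fact p.Prime] {Γ : Type*} [Group Γ] [Finite Γ]
    (hc : gam Γ p = ⊥) (he : ∀ γ : Γ, γ ^ p = 1) :
    ∃ (n : ℕ) (d : Fin n → ℕ) (u : Γ →* Matrix (Fin n) (Fin n) (ZMod p)), Rep p d u := by
  classical
  have hp2 := hp.out.two_le
  have hS : NSer p (gam Γ) :=
    { one := rfl
      anti := gam_anti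
      comm := gam_comm
      pow := fun i g _ => by rw [he]; exact Subgroup.one_mem _
      bot := ⟨p, hc⟩ }
  let W : ℕ → Submodule (ZMod p) (QV p (gam Γ)) :=
    fun m => (NJ p (gam Γ) m).map (NJ p (gam Γ) p).mkQ
  have hWa : Antitone W := fun m n h => Submodule.map_mono (NJ_anti h)
  have hW0 : W 0 = ⊤ := by
    change (NJ p (gam Γ) 0).map _ = ⊤
    rw [NJ_zero hS, Submodule.map_top, Submodule.range_mkQ]
  have hWp : W p = ⊥ := Submodule.mkQ_map_self _
  obtain ⟨n, b, d, hd, hWm⟩ := exists_adapted_basis W hWa hW0 hWp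
  have hmem : ∀ (m : ℕ) (x : QV p (gam Γ)), x ∈ W m ↔ ∀ i, b.repr x i ≠ 0 → m ≤ d i := by
    intro m x
    have h1 : {v | ∃ i, m ≤ d i ∧ v = b i} = b '' {i | m ≤ d i} := by
      ext v
      constructor
      · rintro ⟨i, hi, rfl⟩
        exact ⟨i, hi, rfl⟩
      · rintro ⟨i, hi, rfl⟩
        exact ⟨i, hi, rfl⟩
    rw [hWm, h1, Module.Basis.mem_span_image]
    constructor
    · intro h i hi
      exact h (Finsupp.mem_support_iff.2 hi)
    · intro h i hi
      exact h i (Finsupp.mem_support_iff.1 hi)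
  have hbW : ∀ j, b j ∈ W (d j) := by
    intro j
    rw [hWm]
    exact Submodule.subset_span ⟨j, le_rfl, rfl⟩
  let u : Γ →* Matrix (Fin n) (Fin n) (ZMod p) :=
    ((LinearMap.toMatrixAlgEquiv b : Module.End (ZMod p) (QV p (gam Γ)) ≃ₐ[ZMod p] _) :
      Module.End (ZMod p) (QV p (gam Γ)) →* _).comp (rAct hS)
  have hu : ∀ γ i j, (u γ - 1) i j = b.repr ((rAct hS γ - 1) (b j)) i := by
    intro γ i j
    have h1 : u γ - 1 = LinearMap.toMatrixAlgEquiv b (rAct hS γ - 1) := by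
      rw [map_sub, map_one]
      rfl
    rw [h1, LinearMap.toMatrixAlgEquiv_apply]
  have hJJ : ∀ γ m, JJ d m (u γ - 1) ↔ ∀ j, (rAct hS γ - 1) (b j) ∈ W (d j + m) := by
    intro γ m
    constructor
    · intro h j
      rw [hmem]
      intro i hi
      rw [← hu] at hi
      exact h i j hi
    · intro h i j hij
      rw [hu] at hij
      exact (hmem _ _).1 (h j) i hij
  refine ⟨n, d, u, hd, ?_, fun γ => ?_, fun γ hγ => ?_⟩
  · rw [injective_iff_map_eq_one]
    intro γ hγ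
    have h1 : rAct hS γ = 1 := by
      apply (LinearMap.toMatrixAlgEquiv b).injective
      rw [map_one]
      exact hγ
    have h2 := rAct_sub hS γ 1
    rw [h1, sub_self, LinearMap.zero_apply, mul_one] at h2
    have h3 := (Submodule.Quotient.mk_eq_zero _).1 h2.symm
    have h4 := (JL hS p γ).1 h3
    rw [hc, Subgroup.mem_bot] at h4
    exact h4
  · rw [hJJ]
    intro j
    obtain ⟨r, hr, hrj⟩ := hbW j
    rw [← hrj, rAct_sub, add_comm]
    refine ⟨_, NJ_mul (of_sub_one_mem ?_) hr, rfl⟩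
    exact Subgroup.mem_top γ
  · rw [hJJ] at hγ
    have h1 : ∀ x, (rAct hS γ - 1) x ∈ W 2 := by
      intro x
      rw [← b.sum_repr x, map_sum]
      refine Submodule.sum_mem _ fun j _ => ?_
      rw [map_smul]
      exact Submodule.smul_mem _ _ (hWa (Nat.le_add_left 2 (d j)) (hγ j))
    have h2 := h1 ((NJ p (gam Γ) p).mkQ 1)
    rw [rAct_sub, mul_one] at h2
    obtain ⟨r, hr, hr2⟩ := h2
    have h3 : MonoidAlgebra.of (ZMod p) Γ γ - 1 ∈ NJ p (gam Γ) 2 := by
      have h4 : r - (MonoidAlgebra.of (ZMod p) Γ γ - 1) ∈ NJ p (gam Γ) p := by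
        rw [← Submodule.Quotient.mk_eq_zero, Submodule.Quotient.mk_sub]
        exact sub_eq_zero.2 hr2
      have h5 := Submodule.sub_mem _ hr (NJ_anti hp2 h4)
      rwa [sub_sub_cancel] at h5
    have h4 := (JL hS 2 γ).1 h3
    exact h4

end BAC
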