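import Pool.Agent.BAC.RamE
import Pool.Agent.BAC.GenusU
import Pool.Agent.BAC.ExGamma
import Pool.Agent.BAC.RepEx
import Pool.Agent.Helper32.AS22
import Pool.Agent.Helper32.AS35

/-!
BAC / R7 (blueprint 8.6, (ii) => (i)). Construction of big actions.

`bigAction_of_uu`: `F = ↥E`, `G = {σ : E ≃ₐ[k] E | σ x = x}` (a subgroup; every element is `K`-linear since
`K = k(x)`: `exists_linear` of helper32 AS18 or directly from `B.gen`), so `G ≃* Gal(E/K)`, order `p^n`;
`P = L.place` (AS20) for the level `L` of `U.lvl`. `IsFunctionField k E`: `x` transcendental (`B.trans`), `E` finite over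
`adjoin k {x}` (which is the image of `K`, `B.gen`). Genus: `genus_uu`, `κ ≥ 5`. `fixesPlace`: `IsLevel.aut_mem`. Condition
(N): `NN` and `2 genus = κ + 1`. `ramGroup G P 2`: `IsLevel.mem_ramGroup` (AS20): `σ ∈ G` is in it iff the lift to `Ω`
satisfies `Ram E v 3`, iff `r σ ∈ commutator Γ` (`ram_iff`). `G ≃* Γ` by `FieldOf.gal_equiv`; it maps `ramGroup G P 2`
onto `commutator Γ`.
`exists_bigAction`: `K = RatFunc k`, `Ω = SeparableClosure K` (`IsSepClosure`), `x = X`, `vK` and `IsLevel`:
`base_level p` (AS22), `gen`, `trans`: `RatFunc.adjoin_X`, `RatFunc.transcendental_X`. `exists_der`. `Γ` is a `p`-group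
(exponent `p`), `class_bound`: `gam Γ p = ⊥`, `exists_rep`, `ex_gamma`: `c = u ∘ r`, `r` onto. `lang_uu`: field of `c` is the
field of `r` (`Rep.inj`), `lang_NN`. `kappa_nonabelian`, `bigAction_of_uu`.
-/

namespace BAC

open Polynomial WithZero IntermediateField Pool.Agent.Helper32

universe u w

/-- `K = k(x)`: maps on `K` are determined by the image of `x` -/
theorem gen_of_adjoin {k K Ω : Type*} [Field k] [Field K] [Field Ω] [Algebra k K] [Algebra k Ω]
    {x : K} (h : IntermediateField.adjoin k {x} = ⊤) : Gen k Ω x := by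
  intro f g hfg
  apply AlgHom.ext
  intro y
  have hy : y ∈ IntermediateField.adjoin k {x} := by rw [h]; trivial
  induction hy using adjoin_induction with
  | mem z hz =>
    rw [Set.mem_singleton_iff] at hz
    rw [hz, hfg]
  | algebraMap c => rw [AlgHom.commutes, AlgHom.commutes]
  | add y z _ _ hy hz => rw [map_add, map_add, hy, hz]
  | inv y _ hy => rw [map_inv₀, map_inv₀, hy]
  | mul y z _ _ hy hz => rw [map_mul, map_mul, hy, hz]

/-- with the isomorphism `G ≃* Γ` -/
theorem bigAction_of_uu_strong {p : ℕ} [hp : Fact p.Prime] {k K Ω : Type u} [Field k] [IsAlgClosed k]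
    [Field K] [Field Ω] [Algebra k K] [Algebra K Ω] [Algebra k Ω] [IsScalarTower k K Ω]
    [CharP k p] [CharP K p] [CharP Ω p] [IsSepClosure K Ω] {x : K} {vK : VI K}
    {D : Derivation k Ω Ω} (B : Base p k x vK) (hD : D (algebraMap K Ω x) = 1)
    {E : IntermediateField K Ω} {n : ℕ} {κ : ℤ} {v : VI E} (U : UU p k x D E n κ v)
    (hN : NN p n κ) (hκ : 3 ≤ κ) {Γ : Type w} [Group Γ] [Finite Γ] (he : ∀ γ : Γ, γ ^ p = 1)
    (r : (Ω ≃ₐ[K] Ω) →* Γ) (hr : Function.Surjective r) (hF : FieldOf r E) :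
    ∃ (G : Subgroup (E ≃ₐ[k] E)) (P : Place k E), IsBigAction p G P ∧
      Nonempty (G ≃* Γ) ∧ Nonempty (ramGroup G P 2 ≃* commutator Γ) := by
  have hgal : IsGalois K E := U.gal
  have hfin : FiniteDimensional K E := U.fin
  have hnorm : Normal K E := inferInstance
  have hgen : Gen k Ω x := gen_of_adjoin B.gen
  obtain ⟨D', hD', Lv⟩ := U.lvl
  obtain ⟨g, L⟩ := Lv.lev
  have hcard : Nat.card (fixG k (algebraMap K E x)) = p ^ n := by
    rw [card_fixG hgen E, U.rank]
  have hfinG : Finite (fixG k (algebraMap K E x)) := by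
    apply Nat.finite_of_card_ne_zero
    rw [hcard]
    exact pow_ne_zero _ hp.out.ne_zero
  have hgenus := genus_uu B U
  have hmem : ∀ σ ∈ fixG k (algebraMap K E x), ∀ z, v (σ z) ≤ 1 ↔ v z ≤ 1 := by
    intro σ hσ z
    exact L.aut_mem (a := 0) (by rw [mem_fixG.mp hσ, map_zero, add_zero]) z
  refine ⟨fixG k (algebraMap K E x), L.place, ⟨?_, ?_, hfinG, IsPGroup.of_card hcard, ?_, ?_⟩, ?_⟩
  · exact isFunctionField_of_finite B.trans (fun y => by rw [B.gen]; trivial) E
  · omega
  · intro σ hσ a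
    exact hmem σ hσ a
  · have h1 : (p : ℤ) * (κ + 1) < ((p : ℤ) - 1) * (p : ℤ) ^ n := hN
    rw [← hgenus] at h1
    have hp1 : 1 ≤ p := hp.out.one_lt.le
    rw [hcard]
    have h2 : ((2 * p * genus k E : ℕ) : ℤ) < (((p - 1) * p ^ n : ℕ) : ℤ) := by
      push_cast [Nat.cast_sub hp1]
      linarith
    exact_mod_cast h2
  · obtain ⟨e, hee⟩ := FieldOf.gal_equiv hr hF
    let Φ : (E ≃ₐ[K] E) →* (E ≃ₐ[k] E) :=
      { toFun := fun τ => τ.restrictScalars k
        map_one' := rfl
        map_mul' := fun _ _ => rfl }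
    have hΦ : Function.Injective Φ := by
      intro τ τ' h
      apply AlgEquiv.ext
      intro z
      exact DFunLike.congr_fun h z
    let f : Γ →* (E ≃ₐ[k] E) := Φ.comp e.symm.toMonoidHom
    have hf : Function.Injective f := hΦ.comp e.symm.injective
    have hfr : ∀ (σ : Ω ≃ₐ[K] Ω) (z : E), ((f (r σ) z : E) : Ω) = σ z := by
      intro σ z
      have h1 : e.symm (r σ) = σ.restrictNormal E := by
        rw [← hee, MulEquiv.symm_apply_apply]
      change ((e.symm (r σ) z : E) : Ω) = σ z
      rw [h1]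
      exact AlgEquiv.restrictNormal_commutes σ E z
    have hiff : ∀ γ : Γ, f γ ∈ ramGroup (fixG k (algebraMap K E x)) L.place 2 ↔
        γ ∈ commutator Γ := by
      intro γ
      obtain ⟨σ, rfl⟩ := hr γ
      rw [← ram_iff B hD U hN he r hr hF σ, L.mem_ramGroup]
      have hfix : f (r σ) ∈ fixG k (algebraMap K E x) := by
        rw [mem_fixG]
        apply Subtype.ext
        rw [hfr]
        exact σ.commutes x
      constructor
      · rintro ⟨-, -, h3⟩ a b hab ha
        have h4 := h3 a ha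
        have h5 : f (r σ) a = b := Subtype.ext (by rw [hfr, hab])
        rw [h5] at h4
        norm_num at h4 ⊢
        exact h4
      · intro h
        refine ⟨hfix, hmem _ hfix, fun z hz => ?_⟩
        have h4 := h z (f (r σ) z) (hfr σ z) hz
        norm_num at h4 ⊢
        exact h4
    have hrange : f.range = fixG k (algebraMap K E x) := by
      ext σ
      rw [MonoidHom.mem_range]
      constructor
      · rintro ⟨γ, rfl⟩
        obtain ⟨σ, rfl⟩ := hr γ
        rw [mem_fixG]
        apply Subtype.ext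
        rw [hfr]
        exact σ.commutes x
      · intro hσ
        obtain ⟨τ, hτ⟩ := exists_linear hgen E σ (mem_fixG.mp hσ)
        refine ⟨e τ, ?_⟩
        rw [← hτ]
        change (e.symm (e τ)).restrictScalars k = _
        rw [MulEquiv.symm_apply_apply]
    have hmap : (commutator Γ).map f = ramGroup (fixG k (algebraMap K E x)) L.place 2 := by
      ext σ
      rw [Subgroup.mem_map]
      constructor
      · rintro ⟨γ, hγ, rfl⟩
        exact (hiff γ).2 hγ
      · intro hσ
        have hσx : σ (algebraMap K E x) = algebraMap K E x := mem_fixG.mp (L.mem_ramGroup.mp hσ).1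
        obtain ⟨τ, hτ⟩ := exists_linear hgen E σ hσx
        have h1 : f (e τ) = σ := by
          rw [← hτ]
          change (e.symm (e τ)).restrictScalars k = _
          rw [MulEquiv.symm_apply_apply]
        refine ⟨e τ, ?_, h1⟩
        rw [← hiff, h1]
        exact hσ
    exact ⟨⟨((MonoidHom.ofInjective hf).trans (MulEquiv.subgroupCongr hrange)).symm⟩,
      ⟨((Subgroup.equivMapOfInjective (commutator Γ) f hf).trans
        (MulEquiv.subgroupCongr hmap)).symm⟩⟩

theorem bigAction_of_uu {p : ℕ} [hp : Fact p.Prime] {k K Ω : Type u} [Field k] [IsAlgClosed k]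
    [Field K] [Field Ω] [Algebra k K] [Algebra K Ω] [Algebra k Ω] [IsScalarTower k K Ω]
    [CharP k p] [CharP K p] [CharP Ω p] [IsSepClosure K Ω] {x : K} {vK : VI K}
    {D : Derivation k Ω Ω} (B : Base p k x vK) (hD : D (algebraMap K Ω x) = 1)
    {E : IntermediateField K Ω} {n : ℕ} {κ : ℤ} {v : VI E} (U : UU p k x D E n κ v)
    (hN : NN p n κ) (hκ : 3 ≤ κ) {Γ : Type w} [Group Γ] [Finite Γ] (he : ∀ γ : Γ, γ ^ p = 1)
    (r : (Ω ≃ₐ[K] Ω) →* Γ) (hr : Function.Surjective r) (hF : FieldOf r E) :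
    ∃ (G : Subgroup (E ≃ₐ[k] E)) (P : Place k E), IsBigAction p G P ∧
      Nonempty (ramGroup G P 2 ≃* commutator Γ) := by
  obtain ⟨G, P, h1, -, h2⟩ := bigAction_of_uu_strong B hD U hN hκ he r hr hF
  exact ⟨G, P, h1, h2⟩

end BAC
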