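import Pool.Agent.BAC.BigOf

/-!
BAC / R7, second part (blueprint 8.6). Big actions with a prescribed `G_2`: every group `Γ` of exponent `p` with
`|[Γ, Γ]| = p ^ n`, `1 ≤ n ≤ p - 2`, gives a big action with `G_2 ≃* [Γ, Γ]`.
-/

namespace BAC

open Polynomial WithZero IntermediateField Pool.Agent.Helper32

universe u w

theorem exists_bigAction_final (p : ℕ) [hp : Fact p.Prime] (k : Type u) [Field k] [IsAlgClosed k]
    [CharP k p] (Γ : Type w) [Group Γ] [Finite Γ] (he : ∀ γ : Γ, γ ^ p = 1) {n : ℕ}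
    (hn : Nat.card (commutator Γ) = p ^ n) (hnp : n + 2 ≤ p) (hn0 : 1 ≤ n) :
    ∃ (F : Type u) (_ : Field F) (_ : Algebra k F) (G : Subgroup (F ≃ₐ[k] F)) (P : Place k F),
      IsBigAction p G P ∧ Nonempty (ramGroup G P 2 ≃* commutator Γ) := by
  have hcK : CharP (RatFunc k) p :=
    charP_of_injective_algebraMap (algebraMap k (RatFunc k)).injective p
  have hcO : CharP (SeparableClosure (RatFunc k)) p :=
    charP_of_injective_algebraMap
      (algebraMap (RatFunc k) (SeparableClosure (RatFunc k))).injective p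
  let _ : Algebra k (SeparableClosure (RatFunc k)) :=
    ((algebraMap (RatFunc k) (SeparableClosure (RatFunc k))).comp
      (algebraMap k (RatFunc k))).toAlgebra
  have : IsScalarTower k (RatFunc k) (SeparableClosure (RatFunc k)) :=
    IsScalarTower.of_algebraMap_eq' rfl
  have B : Base p k (RatFunc.X : RatFunc k) (vInf k) :=
    ⟨base_level p, RatFunc.adjoin_X, RatFunc.transcendental_X⟩
  obtain ⟨D, hD⟩ := exists_der (Ω := SeparableClosure (RatFunc k)) B
  have hG : IsPGroup p Γ := fun γ => ⟨1, by rw [pow_one]; exact he γ⟩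
  have hc : gam Γ p = ⊥ := class_bound hG hn hnp
  obtain ⟨m, d, u, hu⟩ := exists_rep hc he
  obtain ⟨Dm, g, c, r, hL, hcr, hr⟩ := ex_gamma B hD hu he
  obtain ⟨n', κ, v, U, hF⟩ := lang_uu B hD hu.lt hL
  have hN := lang_NN B hD hu.lt hL U hF
  have hFr : FieldOf r (IntermediateField.adjoin (RatFunc k) {a | ∃ i j, a = g i j}) := by
    intro σ
    rw [← hF σ, hcr σ]
    constructor
    · intro h
      rw [h, map_one]
    · intro h
      exact hu.inj (by rw [h, map_one])
  have hna : commutator Γ ≠ ⊥ := by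
    intro h
    rw [h, Subgroup.card_bot] at hn
    have h1 : 1 < p ^ n := Nat.one_lt_pow (by omega) hp.out.one_lt
    omega
  have hκ := kappa_nonabelian B hD U hN he r hr hFr hna
  obtain ⟨G, P, h1, h2⟩ := bigAction_of_uu B hD U hN (by omega) he r hr hFr
  exact ⟨_, _, _, G, P, h1, h2⟩

end BAC
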