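import Pool.Agent.BAC.Defs

/-!
BAC / W1. The cocycle `CC p X Y = (X ^ p + Y ^ p - (X + Y) ^ p) / p`.

`CC_int`: in a commutative ring `p · CC p a b = a ^ p + b ^ p - (a + b) ^ p` (`add_pow`, `p ∣ choose p i` for
`0 < i < p`). The identities hold in `MvPolynomial (Fin 3) ℤ`, a domain of characteristic zero, by
`CC_int` (multiply by `p`); then map: `CC_map`.
* `CC_symm`, `CC_cocycle : CC a b + CC (a+b) c = CC b c + CC a (b+c)`, `CC_zero`.
* `CC_frob`: in characteristic `p`: `CC a b ^ p = CC (a ^ p) (b ^ p)` (Frobenius is a ring hom, coefficients are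
  natural numbers).
* `CC_sum`: `∑_{i<p} CC (i t) t = t` in `ZMod p`: in `ℤ`, `p ∑ = ∑ ((i t)^p + t^p - ((i+1) t)^p) = p t^p - (p t)^p`
  (telescoping), so `∑ = t ^ p - p^(p-1) t^p ≡ t ^ p ≡ t`.
-/

namespace BAC

theorem CC_int {p : ℕ} (hp : p.Prime) {A : Type*} [CommRing A] (a b : A) :
    (p : A) * CC p a b = a ^ p + b ^ p - (a + b) ^ p := by
  have h1 : (a + b) ^ p = a ^ p + b ^ p + ∑ i ∈ Finset.Ico 1 p, (p.choose i : A) * a ^ i * b ^ (p - i) := by
    rw [add_pow, Finset.sum_range_succ, Finset.range_eq_Ico,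
      Finset.sum_eq_sum_Ico_succ_bot hp.pos]
    simp only [pow_zero, Nat.sub_zero, one_mul, Nat.choose_zero_right, Nat.cast_one, mul_one,
      Nat.sub_self, Nat.choose_self, zero_add]
    have h2 : ∑ i ∈ Finset.Ico 1 p, a ^ i * b ^ (p - i) * (p.choose i : A) =
        ∑ i ∈ Finset.Ico 1 p, (p.choose i : A) * a ^ i * b ^ (p - i) :=
      Finset.sum_congr rfl fun i _ => by ring
    rw [h2]
    ring
  have h3 : (p : A) * ∑ i ∈ Finset.Ico 1 p, ((p.choose i / p : ℕ) : A) * a ^ i * b ^ (p - i) =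
      ∑ i ∈ Finset.Ico 1 p, (p.choose i : A) * a ^ i * b ^ (p - i) := by
    rw [Finset.mul_sum]
    refine Finset.sum_congr rfl fun i hi => ?_
    rw [Finset.mem_Ico] at hi
    have h4 : p ∣ p.choose i := hp.dvd_choose_self (by omega) hi.2
    have h5 : (p.choose i : A) = (p : A) * ((p.choose i / p : ℕ) : A) := by
      rw [← Nat.cast_mul, Nat.mul_div_cancel' h4]
    rw [h5]
    ring
  unfold CC
  rw [mul_neg, h3, h1]
  ring

theorem CC_map {p : ℕ} {A B : Type*} [CommRing A] [CommRing B] (φ : A →+* B) (a b : A) :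
    φ (CC p a b) = CC p (φ a) (φ b) := by
  unfold CC
  simp only [map_neg, map_sum, map_mul, map_pow, map_natCast]

/-- the generic point -/
private theorem gen {A : Type*} [CommRing A] (a b c : A) :
    ∃ φ : MvPolynomial (Fin 3) ℤ →+* A, φ (MvPolynomial.X 0) = a ∧ φ (MvPolynomial.X 1) = b ∧
      φ (MvPolynomial.X 2) = c := by
  refine ⟨MvPolynomial.eval₂Hom (Int.castRingHom A) ![a, b, c], ?_, ?_, ?_⟩ <;> simp

private theorem cancel {p : ℕ} (hp : p.Prime) {f g : MvPolynomial (Fin 3) ℤ}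
    (h : (p : MvPolynomial (Fin 3) ℤ) * f = (p : MvPolynomial (Fin 3) ℤ) * g) : f = g := by
  have h1 : (p : MvPolynomial (Fin 3) ℤ) ≠ 0 := Nat.cast_ne_zero.2 hp.ne_zero
  exact mul_left_cancel₀ h1 h

theorem CC_symm {p : ℕ} (hp : p.Prime) {A : Type*} [CommRing A] (a b : A) :
    CC p a b = CC p b a := by
  obtain ⟨φ, h0, h1, -⟩ := gen a b 0
  have h : CC p (MvPolynomial.X 0 : MvPolynomial (Fin 3) ℤ) (MvPolynomial.X 1) =
      CC p (MvPolynomial.X 1) (MvPolynomial.X 0) := by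
    apply cancel hp
    rw [CC_int hp, CC_int hp]
    ring
  have h2 := congrArg φ h
  rw [CC_map, CC_map, h0, h1] at h2
  exact h2

theorem CC_zero {p : ℕ} {A : Type*} [CommRing A] (a : A) : CC p a 0 = 0 ∧ CC p 0 a = 0 := by
  unfold CC
  constructor
  · rw [neg_eq_zero]
    refine Finset.sum_eq_zero fun i hi => ?_
    rw [Finset.mem_Ico] at hi
    rw [zero_pow (by omega), mul_zero]
  · rw [neg_eq_zero]
    refine Finset.sum_eq_zero fun i hi => ?_
    rw [Finset.mem_Ico] at hi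
    rw [zero_pow (by omega), mul_zero, zero_mul]

theorem CC_cocycle {p : ℕ} (hp : p.Prime) {A : Type*} [CommRing A] (a b c : A) :
    CC p a b + CC p (a + b) c = CC p b c + CC p a (b + c) := by
  obtain ⟨φ, h0, h1, h2⟩ := gen a b c
  have h : CC p (MvPolynomial.X 0 : MvPolynomial (Fin 3) ℤ) (MvPolynomial.X 1) +
      CC p (MvPolynomial.X 0 + MvPolynomial.X 1) (MvPolynomial.X 2) =
      CC p (MvPolynomial.X 1) (MvPolynomial.X 2) +
      CC p (MvPolynomial.X 0) (MvPolynomial.X 1 + MvPolynomial.X 2) := by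
    apply cancel hp
    rw [mul_add, mul_add, CC_int hp, CC_int hp, CC_int hp, CC_int hp]
    ring
  have h3 := congrArg φ h
  rw [map_add, map_add, CC_map, CC_map, CC_map, CC_map, map_add, map_add, h0, h1, h2] at h3
  exact h3

theorem CC_frob {p : ℕ} [Fact p.Prime] {A : Type*} [CommRing A] [CharP A p] (a b : A) :
    CC p a b ^ p = CC p (a ^ p) (b ^ p) := by
  have : ExpChar A p := ExpChar.prime Fact.out
  exact CC_map (frobenius A p) a b

theorem CC_sum {p : ℕ} [Fact p.Prime] (t : ZMod p) :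
    ∑ i ∈ Finset.range p, CC p ((i : ZMod p) * t) t = t := by
  have hp : p.Prime := Fact.out
  obtain ⟨T, rfl⟩ := ZMod.intCast_surjective t
  have h1 : (p : ℤ) * ∑ i ∈ Finset.range p, CC p ((i : ℤ) * T) T =
      (p : ℤ) * (T ^ p - (p : ℤ) ^ (p - 1) * T ^ p) := by
    rw [Finset.mul_sum]
    have h2 : ∀ i ∈ Finset.range p, (p : ℤ) * CC p ((i : ℤ) * T) T =
        T ^ p - ((((i + 1 : ℕ) : ℤ) * T) ^ p - ((i : ℤ) * T) ^ p) := by
      intro i _
      rw [CC_int hp]
      push_cast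
      ring
    rw [Finset.sum_congr rfl h2, Finset.sum_sub_distrib, Finset.sum_const, Finset.card_range,
      Finset.sum_range_sub (fun i : ℕ => ((i : ℤ) * T) ^ p), nsmul_eq_mul]
    have h3 : (p : ℤ) ^ p = (p : ℤ) * (p : ℤ) ^ (p - 1) := by
      rw [← pow_succ', Nat.sub_add_cancel hp.pos]
    rw [mul_pow, h3, Nat.cast_zero, zero_mul, zero_pow hp.ne_zero]
    ring
  have h4 := mul_left_cancel₀ (Int.natCast_ne_zero.2 hp.ne_zero) h1
  have h5 := congrArg (Int.castRingHom (ZMod p)) h4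
  rw [map_sum] at h5
  simp only [CC_map, map_mul, map_natCast, map_sub, map_pow] at h5
  have h6 : (p : ZMod p) ^ (p - 1) = 0 := by
    rw [CharP.cast_eq_zero, zero_pow]
    have := hp.two_le
    omega
  rw [h6, zero_mul, sub_zero, ZMod.pow_card] at h5
  exact h5

end BAC
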