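import Pool.Agent.BAC.MatJ

/-!
BAC / M3 (blueprint 4). Frobenius on matrices and matrices over `F_p`.

`Fr p M = M.map (frobenius A p)`, a ring hom on matrices (`RingHom.mapMatrix`). `toM p A` is the map of
`ZMod.castHom (dvd_refl p) A` (needs `CharP A p`; `ZMod.natCast_zmod_val`, `ZMod.cast`), also a ring hom.
`exists_toM`: `a ^ p = a` implies that `a` is in the prime field: the polynomial `X ^ p - X` has the `p` roots
`(i : A)`, `i < p`, hence no others (compare `FiniteField`/`ZMod` lemmas, or helper32's files, e.g.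
`exists_zmod` or the section on Artin-Schreier roots).
-/

namespace BAC

variable {p : ℕ} [hp : Fact p.Prime] {I : Type*} [Fintype I] [DecidableEq I] {d : I → ℕ}
  {A : Type*} [Field A] [CharP A p] {m : ℕ}

theorem Fr_eq (M : Matrix I I A) :
    Fr p M = (frobenius A p).mapMatrix M := rfl

theorem Fr_mul (M N : Matrix I I A) : Fr p (M * N) = Fr p M * Fr p N := by
  rw [Fr_eq, Fr_eq, Fr_eq, map_mul]

theorem Fr_one : Fr p (1 : Matrix I I A) = 1 := by
  rw [Fr_eq, map_one]

theorem Fr_add (M N : Matrix I I A) : Fr p (M + N) = Fr p M + Fr p N := by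
  rw [Fr_eq, Fr_eq, Fr_eq, map_add]

theorem Fr_sub (M N : Matrix I I A) : Fr p (M - N) = Fr p M - Fr p N := by
  rw [Fr_eq, Fr_eq, Fr_eq, map_sub]

theorem Fr_smul (a : A) (M : Matrix I I A) : Fr p (a • M) = a ^ p • Fr p M := by
  ext i j
  simp only [Fr, Matrix.map_apply, Matrix.smul_apply, smul_eq_mul, mul_pow]

theorem natCast_pow_p (n : ℕ) : (n : A) ^ p = (n : A) := map_natCast (frobenius A p) n

theorem Fr_Ex (M : Matrix I I A) : Fr p (Ex p M) = Ex p (Fr p M) := by
  unfold Ex
  rw [Fr_eq, map_sum]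
  refine Finset.sum_congr rfl fun i _ => ?_
  rw [← Fr_eq, Fr_smul, inv_pow, natCast_pow_p, Fr_eq, Fr_eq, map_pow]

theorem Fr_map {B : Type*} [Field B] (f : A →+* B) (M : Matrix I I A) :
    (Fr p M).map f = Fr p (M.map f) := by
  ext i j
  simp only [Fr, Matrix.map_apply, map_pow]

theorem JJ_Fr {M : Matrix I I A} (hM : JJ d m M) : JJ d m (Fr p M) := by
  intro i j h
  refine hM i j fun h0 => h ?_
  simp only [Fr, Matrix.map_apply, h0, zero_pow hp.out.ne_zero]

theorem uni_Fr {M : Matrix I I A} (hM : JJ d m (M - 1)) : JJ d m (Fr p M - 1) := by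
  have h := JJ_Fr (p := p) hM
  rwa [Fr_sub, Fr_one] at h

theorem val_eq_castHom (a : ZMod p) : ((a.val : ℕ) : A) = ZMod.castHom (dvd_refl p) A a := by
  rw [ZMod.castHom_apply, ZMod.natCast_val]

theorem toM_eq (M : Matrix I I (ZMod p)) :
    toM p A M = (ZMod.castHom (dvd_refl p) A).mapMatrix M := by
  ext i j
  simp only [toM, Matrix.map_apply, RingHom.mapMatrix_apply]
  exact val_eq_castHom _

theorem toM_one : toM p A (1 : Matrix I I (ZMod p)) = 1 := by
  rw [toM_eq, map_one]

theorem toM_mul (M N : Matrix I I (ZMod p)) : toM p A (M * N) = toM p A M * toM p A N := by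
  rw [toM_eq, toM_eq, toM_eq, map_mul]

theorem toM_add (M N : Matrix I I (ZMod p)) : toM p A (M + N) = toM p A M + toM p A N := by
  rw [toM_eq, toM_eq, toM_eq, map_add]

theorem toM_sub (M N : Matrix I I (ZMod p)) : toM p A (M - N) = toM p A M - toM p A N := by
  rw [toM_eq, toM_eq, toM_eq, map_sub]

/-- `a ↦ (a.val : A)` on `ZMod p` is additive -/
theorem val_add_cast (a b : ZMod p) : (((a + b).val : ℕ) : A) = (a.val : A) + (b.val : A) := by
  rw [val_eq_castHom, val_eq_castHom, val_eq_castHom, map_add]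

theorem val_mul_cast (a b : ZMod p) : (((a * b).val : ℕ) : A) = (a.val : A) * (b.val : A) := by
  rw [val_eq_castHom, val_eq_castHom, val_eq_castHom, map_mul]

theorem val_sub_cast (a b : ZMod p) : (((a - b).val : ℕ) : A) = (a.val : A) - (b.val : A) := by
  rw [val_eq_castHom, val_eq_castHom, val_eq_castHom, map_sub]

theorem val_cast_inj {a b : ZMod p} (h : ((a.val : ℕ) : A) = (b.val : A)) : a = b := by
  rw [val_eq_castHom, val_eq_castHom] at h
  exact (ZMod.castHom (dvd_refl p) A).injective h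

theorem toM_inj {M N : Matrix I I (ZMod p)} (h : toM p A M = toM p A N) : M = N := by
  ext i j
  have h1 := congrFun (congrFun h i) j
  simp only [toM, Matrix.map_apply] at h1
  rw [val_cast_inj h1]

theorem JJ_toM {M : Matrix I I (ZMod p)} : JJ d m (toM p A M) ↔ JJ d m M := by
  have h0 : ∀ i j, toM p A M i j ≠ 0 ↔ M i j ≠ 0 := by
    intro i j
    rw [not_iff_not]
    simp only [toM, Matrix.map_apply]
    constructor
    · intro h
      refine val_cast_inj (A := A) ?_
      rw [h, ZMod.val_zero, Nat.cast_zero]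
    · intro h
      rw [h, ZMod.val_zero, Nat.cast_zero]
  exact ⟨fun h i j hij => h i j ((h0 i j).mpr hij), fun h i j hij => h i j ((h0 i j).mp hij)⟩

theorem val_cast_pow (a : ZMod p) : ((a.val : ℕ) : A) ^ p = (a.val : A) := natCast_pow_p _

theorem Fr_toM (M : Matrix I I (ZMod p)) : Fr p (toM p A M) = toM p A M := by
  ext i j
  simp only [Fr, toM, Matrix.map_apply]
  exact val_cast_pow _

theorem map_toM {B : Type*} [Field B] [CharP B p] (f : A →+* B) (M : Matrix I I (ZMod p)) :
    (toM p A M).map f = toM p B M := by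
  ext i j
  simp only [toM, Matrix.map_apply, map_natCast]

theorem exists_zmod_of_pow {a : A} (h : a ^ p = a) : ∃ b : ZMod p, a = ((b.val : ℕ) : A) := by
  have h1 : a ∈ (⊥ : Subfield A) := (Subfield.mem_bot_iff_pow_eq_self A p).mpr h
  rw [← ZMod.fieldRange_castHom_eq_bot p] at h1
  obtain ⟨b, hb⟩ := h1
  exact ⟨b, by rw [val_eq_castHom, ← hb]⟩

theorem exists_toM {M : Matrix I I A} (h : Fr p M = M) : ∃ N, M = toM p A N := by
  have h1 : ∀ i j, ∃ b : ZMod p, M i j = ((b.val : ℕ) : A) := by
    intro i j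
    refine exists_zmod_of_pow ?_
    exact congrFun (congrFun h i) j
  choose N hN using h1
  refine ⟨N, ?_⟩
  ext i j
  exact hN i j

end BAC
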