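import Pool.Agent.BAC.HomField
import Pool.Agent.BAC.BigMono
import Pool.Agent.BAC.MatFr

/-!
BAC / H2 (blueprint 2.3, 4.5, 5.2). Additive characters and Artin-Schreier elements.

`char_as`: `F ∈ U`, `E ≤ F`, `χ : Gal → ZMod p` additive on `Fx E`, zero on `Fx F`. Let `H ≤ Gal(F/K)` be the
subgroup fixing `E`; by `tr_subgroup` there is `θ ∈ R_F` with `∑_{h ∈ H} h θ = 1`. `χ` restricted to `Fx E` factors
through `H` (restriction to `F`; every `h ∈ H` lifts to `Ω`, the lift fixes `E`). Put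
`w = - ∑_{h ∈ H} χ(h) h θ ∈ R_F`. For `σ ∈ Fx E`: `σ w = - ∑ χ(h) (σ h) θ = - ∑ (χ(h) - χ(σ)) h θ = w + χ(σ)`
(substitute `h → σ⁻¹ h`). `w ^ p - w` is fixed by `Fx E` (`val_cast_pow`), so it is in `E` (`mem_of_fx`), and
it is integral.
`char_gal`: `χ(τ σ τ⁻¹) = χ(σ)` for `σ ∈ Fx E`: for `τ ∈ Gal`, `τ w - w` is fixed by `Fx E`:
`σ (τ w) = τ ((τ⁻¹ σ τ) w) = τ w + χ(σ)`. So `τ w ∈ E ⊔ K(w)` and `isGalois_of_stable`.
`char_small`: `E ⊔ K(w) ≤ F` is in `U` (`UU.sub`) with `NN` (`UU.NN_mono`): `small_of_step`, `small_of_mem`.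
`mem_of_char_eq`: if `w` and `w'` transform by the same character on `Fx E` then `w - w' ∈ E`.
-/

namespace BAC

open Polynomial WithZero IntermediateField Pool.Agent.Helper32

variable {p : ℕ} [hp : Fact p.Prime] {k K Ω : Type*} [Field k] [IsAlgClosed k] [Field K]
  [Field Ω] [Algebra k K] [Algebra K Ω] [Algebra k Ω] [IsScalarTower k K Ω] [CharP k p]
  [CharP K p] [CharP Ω p] [IsSepClosure K Ω] {x : K} {vK : VI K} {D : Derivation k Ω Ω}

omit [IsAlgClosed k] [CharP k p] [CharP K p] [CharP Ω p] [IsSepClosure K Ω] in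
/-- The value of the character is determined by the restriction to `F`. -/
private theorem chi_congr {E F : IntermediateField K Ω} (hE : E ≤ F)
    (χ : (Ω ≃ₐ[K] Ω) → ZMod p)
    (hadd : ∀ σ τ, Fx E σ → Fx E τ → χ (σ * τ) = χ σ + χ τ) (hF : ∀ σ, Fx F σ → χ σ = 0)
    {σ τ : Ω ≃ₐ[K] Ω} (hτ : Fx E τ) (h : ∀ a ∈ F, σ a = τ a) : χ σ = χ τ := by
  have h1 : Fx F (τ⁻¹ * σ) := by
    intro a ha
    change τ.symm (σ a) = a
    rw [h a ha]
    exact τ.symm_apply_apply a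
  have h3 : Fx E (τ⁻¹ * σ) := fun a ha => h1 a (hE ha)
  have h4 := hadd _ _ hτ h3
  rw [hF _ h1, add_zero, mul_inv_cancel_left] at h4
  exact h4

theorem char_as {E F : IntermediateField K Ω} [FiniteDimensional K F] [IsGalois K F]
    (hT : TrOne k x F) (hE : E ≤ F) (χ : (Ω ≃ₐ[K] Ω) → ZMod p)
    (hadd : ∀ σ τ, Fx E σ → Fx E τ → χ (σ * τ) = χ σ + χ τ) (hF : ∀ σ, Fx F σ → χ σ = 0) :
    ∃ w : Ω, ∃ hwF : w ∈ F, (⟨w, hwF⟩ : F) ∈ Rint k (algebraMap K F x) ∧ w ^ p - w ∈ E ∧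
      ∀ σ, Fx E σ → σ w = w + ((χ σ).val : Ω) := by
  classical
  have hG : IsGalois K Ω := isGalois_sepClosure
  -- the subgroup fixing `E`
  let H : Subgroup (F ≃ₐ[K] F) :=
    { carrier := {τ | ∀ a : F, (a : Ω) ∈ E → τ a = a}
      mul_mem' := fun {σ τ} hσ hτ a ha => by
        change σ (τ a) = a
        rw [hτ a ha, hσ a ha]
      one_mem' := fun a _ => rfl
      inv_mem' := fun {σ} hσ a ha => by
        change σ.symm a = a
        rw [AlgEquiv.symm_apply_eq]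
        exact (hσ a ha).symm }
  have hmemH : ∀ τ : F ≃ₐ[K] F, τ ∈ H ↔ ∀ a : F, (a : Ω) ∈ E → τ a = a := fun τ => Iff.rfl
  have : Fintype H := Fintype.ofFinite _
  obtain ⟨θ, hθ, hθ1⟩ := tr_subgroup hT H
  -- lifts
  have hlift : ∀ τ : F ≃ₐ[K] F, ∃ σ : Ω ≃ₐ[K] Ω, ∀ a : F, σ (a : Ω) = (τ a : F) := by
    intro τ
    obtain ⟨σ, hσ⟩ := AlgEquiv.restrictNormalHom_surjective (F := K) (K₁ := F) Ω τ
    refine ⟨σ, fun a => ?_⟩
    rw [← hσ]
    exact (AlgEquiv.restrictNormalHom_apply F σ a).symm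
  choose lf hlf using hlift
  have hlfE : ∀ h : H, Fx E (lf h) := by
    intro h a ha
    have h1 := hlf h ⟨a, hE ha⟩
    rw [(hmemH _).1 h.2 ⟨a, hE ha⟩ ha] at h1
    exact h1
  have hχ1 : χ 1 = 0 := hF 1 fun a _ => rfl
  obtain ⟨W, hW⟩ : ∃ W : F, W = -∑ h : H, (((χ (lf h)).val : ℕ) : F) * (h : F ≃ₐ[K] F) θ :=
    ⟨_, rfl⟩
  have hc1 : CharP F p := charP_of_injective_algebraMap (algebraMap K F).injective p
  have hWR : W ∈ Rint k (algebraMap K F x) := by
    rw [hW]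
    refine neg_mem (sum_mem fun h _ => mul_mem (natCast_mem _ _) ?_)
    have h1 := map_mem_Rint (((h : F ≃ₐ[K] F) : F →ₐ[K] F).restrictScalars k) hθ
    have h2 : (((h : F ≃ₐ[K] F) : F →ₐ[K] F).restrictScalars k) (algebraMap K F x) =
        algebraMap K F x := (h : F ≃ₐ[K] F).commutes x
    rw [h2] at h1
    exact h1
  have hWσ : ∀ σ : Ω ≃ₐ[K] Ω, Fx E σ → σ (W : Ω) = (W : Ω) + ((χ σ).val : Ω) := by
    intro σ hσ
    -- the restriction
    obtain ⟨τ, hτ⟩ : ∃ τ : F ≃ₐ[K] F, τ = AlgEquiv.restrictNormalHom F σ := ⟨_, rfl⟩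
    have hτa : ∀ a : F, ((τ a : F) : Ω) = σ a := by
      intro a
      rw [hτ]
      exact AlgEquiv.restrictNormalHom_apply F σ a
    have hτH : τ ∈ H := by
      rw [hmemH]
      intro a ha
      apply Subtype.ext
      rw [hτa]
      exact hσ a ha
    have hsub : ∀ h : H, (((χ (lf ((⟨τ, hτH⟩ : H)⁻¹ * h : H))).val : ℕ) : F) =
        (((χ (lf h)).val : ℕ) : F) - (((χ σ).val : ℕ) : F) := by
      intro h
      have hσi : Fx E σ⁻¹ := by
        intro a ha
        change σ.symm a = a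
        rw [AlgEquiv.symm_apply_eq]
        exact (hσ a ha).symm
      have h1 : χ (lf ((⟨τ, hτH⟩ : H)⁻¹ * h : H)) = χ (σ⁻¹ * lf h) := by
        refine chi_congr hE χ hadd hF (fun a ha => ?_) fun a ha => ?_
        · change σ⁻¹ (lf h a) = a
          rw [hlfE h a ha]
          exact hσi a ha
        · have h2 := hlf ((⟨τ, hτH⟩ : H)⁻¹ * h : H) ⟨a, ha⟩
          rw [h2]
          change ((τ.symm ((h : F ≃ₐ[K] F) ⟨a, ha⟩) : F) : Ω) = σ.symm (lf h a)
          rw [eq_comm, AlgEquiv.symm_apply_eq, ← hτa, AlgEquiv.apply_symm_apply]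
          exact hlf h ⟨a, ha⟩
      have h3 : χ (σ⁻¹ * lf h) = χ (lf h) - χ σ := by
        rw [hadd _ _ hσi (hlfE h)]
        have h4 := hadd _ _ hσi hσ
        rw [inv_mul_cancel, hχ1] at h4
        linear_combination -h4
      rw [h1, h3, val_sub_cast]
    have h5 : τ W = W + (((χ σ).val : ℕ) : F) := by
      have h6 : τ W = -∑ h : H, (((χ (lf h)).val : ℕ) : F) *
          (((⟨τ, hτH⟩ : H) * h : H) : F ≃ₐ[K] F) θ := by
        rw [hW, map_neg, map_sum]
        congr 1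
        refine Finset.sum_congr rfl fun h _ => ?_
        rw [map_mul, map_natCast]
        rfl
      have h7 : ∑ h : H, (((χ (lf h)).val : ℕ) : F) *
          (((⟨τ, hτH⟩ : H) * h : H) : F ≃ₐ[K] F) θ =
          ∑ h : H, (((χ (lf ((⟨τ, hτH⟩ : H)⁻¹ * h : H))).val : ℕ) : F) *
            (h : F ≃ₐ[K] F) θ := by
        refine Fintype.sum_equiv (Equiv.mulLeft (⟨τ, hτH⟩ : H)) _ _ fun h => ?_
        rw [Equiv.coe_mulLeft, inv_mul_cancel_left]
      rw [h6, h7, hW]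
      have h8 : ∀ h ∈ (Finset.univ : Finset H),
          (((χ (lf ((⟨τ, hτH⟩ : H)⁻¹ * h : H))).val : ℕ) : F) * (h : F ≃ₐ[K] F) θ =
          (((χ (lf h)).val : ℕ) : F) * (h : F ≃ₐ[K] F) θ -
            (((χ σ).val : ℕ) : F) * (h : F ≃ₐ[K] F) θ := by
        intro h _
        rw [hsub, sub_mul]
      rw [Finset.sum_congr rfl h8, Finset.sum_sub_distrib, ← Finset.mul_sum, hθ1, mul_one]
      ring
    rw [← hτa, h5]
    push_cast
    rfl
  refine ⟨W, W.2, hWR, ?_, hWσ⟩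
  apply mem_of_fx
  intro σ hσ
  rw [map_sub, map_pow, hWσ σ hσ, add_pow_char, val_cast_pow]
  ring

omit [IsAlgClosed k] [Algebra k K] [Algebra k Ω] [IsScalarTower k K Ω] [CharP k p] [CharP K p]
  [Field k] [CharP Ω p] in
theorem char_gal {E : IntermediateField K Ω} [IsGalois K E] (χ : (Ω ≃ₐ[K] Ω) → ZMod p)
    (hconj : ∀ τ σ, Fx E σ → χ (τ * σ * τ⁻¹) = χ σ) {w : Ω}
    (hw : ∀ σ, Fx E σ → σ w = w + ((χ σ).val : Ω)) :
    IsGalois K ↥(E ⊔ IntermediateField.adjoin K {w}) := by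
  apply isGalois_of_stable
  intro τ
  have h1 : (E ⊔ IntermediateField.adjoin K {w}).map (τ : Ω →ₐ[K] Ω) ≤
      E ⊔ IntermediateField.adjoin K {w} := by
    rw [IntermediateField.map_sup, sup_le_iff]
    constructor
    · rintro _ ⟨a, ha, rfl⟩
      exact (le_sup_left : E ≤ _) (stable_of_isGalois τ ha)
    · rw [IntermediateField.adjoin_map, IntermediateField.adjoin_le_iff]
      rintro _ ⟨a, ha, rfl⟩
      rw [Set.mem_singleton_iff] at ha
      subst ha
      have h2 : τ a - a ∈ E := by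
        apply mem_of_fx
        intro σ hσ
        have h3 : Fx E (τ⁻¹ * σ * τ) := by
          intro b hb
          change τ.symm (σ (τ b)) = b
          rw [hσ _ (stable_of_isGalois τ hb)]
          exact τ.symm_apply_apply b
        have h4 : χ (τ⁻¹ * σ * τ) = χ σ := by
          have h5 := hconj τ⁻¹ σ hσ
          rw [inv_inv] at h5
          exact h5
        have h6 := hw _ h3
        rw [h4] at h6
        have h7 : τ ((τ⁻¹ * σ * τ) a) = σ (τ a) := by
          change τ (τ.symm (σ (τ a))) = σ (τ a)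
          exact τ.apply_symm_apply _
        rw [h6, map_add, map_natCast] at h7
        rw [map_sub, ← h7, hw σ hσ]
        ring
      have h8 : (τ : Ω →ₐ[K] Ω) a = (τ a - a) + a := by
        change τ a = _
        ring
      change (τ : Ω →ₐ[K] Ω) a ∈ E ⊔ IntermediateField.adjoin K {a}
      rw [h8]
      exact add_mem ((le_sup_left : E ≤ _) h2)
        ((le_sup_right : IntermediateField.adjoin K {a} ≤ _) (mem_adjoin_simple_self K a))
  intro a ha
  exact h1 ⟨a, ha, rfl⟩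

omit [IsAlgClosed k] [Algebra k K] [Algebra k Ω] [IsScalarTower k K Ω] [CharP k p] [CharP K p]
  [Field k] [CharP Ω p] in
theorem mem_of_char_eq {E : IntermediateField K Ω} {χ : (Ω ≃ₐ[K] Ω) → ZMod p} {w w' : Ω}
    (hw : ∀ σ, Fx E σ → σ w = w + ((χ σ).val : Ω))
    (hw' : ∀ σ, Fx E σ → σ w' = w' + ((χ σ).val : Ω)) : w - w' ∈ E := by
  apply mem_of_fx
  intro σ hσ
  rw [map_sub, hw σ hσ, hw' σ hσ]
  ring

/-- characters over `E` which live in a field of `U` with (N) are given by `Small` elements -/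
theorem char_small (B : Base p k x vK) (hD : D (algebraMap K Ω x) = 1)
    {E F : IntermediateField K Ω} {n nF : ℕ} {κ κF : ℤ} {v : VI E} {vF : VI F}
    (U : UU p k x D E n κ v) (UF : UU p k x D F nF κF vF) (hN : NN p nF κF) (hE : E ≤ F)
    (χ : (Ω ≃ₐ[K] Ω) → ZMod p)
    (hadd : ∀ σ τ, Fx E σ → Fx E τ → χ (σ * τ) = χ σ + χ τ) (hF : ∀ σ, Fx F σ → χ σ = 0)
    (hconj : ∀ τ σ, Fx E σ → χ (τ * σ * τ⁻¹) = χ σ) :
    ∃ w : Ω, w ^ p - w ∈ E ∧ (∀ σ, Fx E σ → σ w = w + ((χ σ).val : Ω)) ∧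
      Small p E n κ v (w ^ p - w) := by
  have hF1 := UF.fin
  have hF2 := UF.gal
  have hE2 := U.gal
  obtain ⟨w, hwF, -, hwE, hw⟩ := char_as UF.tr hE χ hadd hF
  refine ⟨w, hwE, hw, ?_⟩
  by_cases hmem : w ∈ E
  · exact small_of_mem hmem
  · have hg := char_gal χ hconj hw
    have hle : E ⊔ IntermediateField.adjoin K {w} ≤ F := by
      refine sup_le hE ?_
      rw [IntermediateField.adjoin_le_iff]
      rintro _ rfl
      exact hwF
    obtain ⟨n', κ', v', U'⟩ := UU.sub B hD UF hle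
    exact small_of_step B hD U hwE hmem U' (UU.NN_mono B hD U' UF hle hN)

end BAC
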