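import Pool.Agent.BAC.Defs

/-!
BAC / B1 (blueprint 4.3 (b)). Completion of a valued field with a bounded derivation.

Two possible constructions.
(A) Mathlib: give `L` the uniform structure of `v` (`Valued.mk' v`), `M = UniformSpace.Completion L`, a field
with `Valued` structure, extended valuation (`Valued.extensionValuation`), `D` is uniformly continuous
(`v (D a) ≤ exp κ * v a`) and extends; the Leibniz rule and the bounds by density.
(B) By hand: `A` = ring of Cauchy sequences of `L` for `v` (for all `N` there is `n₀` with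
`v (a_i - a_j) ≤ exp (-N)` for `i, j ≥ n₀`), null sequences form a maximal ideal (a non-null Cauchy sequence has
eventually constant value `v (a_i)`, and its inverse is Cauchy), `M` the quotient; `vM` = the eventual value
(`0` for null sequences); `D` acts termwise (maps Cauchy to Cauchy and null to null). Or use
`CauSeq.Completion` for the real absolute value `a ↦ c ^ (order)` (`0 < c`), if convenient.
Algebra structures: `k → L → M`.
Last statement: `M` is complete. `vM φ < 1`: `w_N = - ∑_{i<N} φ ^ (p^i)` is a Cauchy sequence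
(`vM φ ≤ exp (-1)`, `vM (φ^(p^i)) ≤ exp (-(i+1))`); its limit `w` satisfies `w ^ p - w = lim (φ - φ^(p^N)) = φ`
(Frobenius is additive) and `vM w ≤ vM φ < 1`. If `vM (w ^ p - w - φ)` is `≤ exp (-N)` for all `N` then it is zero.
-/

namespace BAC

open WithZero Topology Filter

universe u

section aux

open scoped WithZeroTopology

variable {F : Type u} [Field F] [hv : Valued F (WithZero (Multiplicative ℤ))]

private theorem cpl_surj (v : VI F) (ht : ∃ t, v t = exp (-1 : ℤ)) : Function.Surjective v := by
  intro γ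
  obtain ⟨t, ht⟩ := ht
  rcases eq_or_ne γ 0 with rfl | hγ
  · exact ⟨0, map_zero v⟩
  · obtain ⟨n, rfl⟩ : ∃ n : ℤ, γ = exp n := ⟨log γ, (exp_log hγ).symm⟩
    refine ⟨t ^ (-n), ?_⟩
    rw [map_zpow₀, ht, ← exp_zsmul]
    congr 1
    simp

private theorem cpl_mem {s : Set F} (hs : s ∈ 𝓝 (0 : F)) :
    ∃ n : ℤ, {x : F | hv.v x < exp n} ⊆ s := by
  obtain ⟨γ, hγ⟩ := Valued.mem_nhds_zero.1 hs
  have h0 : MonoidWithZeroHom.ValueGroup₀.embedding γ.1 ≠ 0 := by
    rw [Ne, map_eq_zero]
    exact γ.ne_zero
  refine ⟨log (MonoidWithZeroHom.ValueGroup₀.embedding γ.1), ?_⟩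
  intro x hx
  apply hγ
  have h1 : hv.v x < MonoidWithZeroHom.ValueGroup₀.embedding γ.1 := by
    have h2 : hv.v x < exp (log (MonoidWithZeroHom.ValueGroup₀.embedding γ.1)) := hx
    rwa [exp_log h0] at h2
  exact (Valuation.restrict_lt_iff_lt_embedding _).2 h1

private theorem cpl_nhds (hs : Function.Surjective hv.v) (n : ℤ) :
    {x : F | hv.v x < exp n} ∈ 𝓝 (0 : F) := by
  have hc := Valued.continuous_valuation_of_surjective hs
  have h1 : Set.Iio (exp n : WithZero (Multiplicative ℤ)) ∈ 𝓝 (hv.v (0 : F)) := by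
    rw [map_zero]
    exact WithZeroTopology.Iio_mem_nhds_zero exp_ne_zero
  exact hc.continuousAt h1

private theorem cpl_nonarch (hs : Function.Surjective hv.v) : NonarchimedeanAddGroup F := by
  refine ⟨fun U hU => ?_⟩
  obtain ⟨n, hn⟩ := cpl_mem hU
  let W : AddSubgroup F :=
    { carrier := {x : F | hv.v x < exp n}
      add_mem' := fun {a b} ha hb => hv.v.map_add_lt ha hb
      zero_mem' := by
        change hv.v 0 < exp n
        rw [map_zero]
        exact exp_pos
      neg_mem' := fun {a} ha => by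
        change hv.v (-a) < exp n
        rw [Valuation.map_neg]
        exact ha }
  have hW : (W : Set F) ∈ 𝓝 (0 : F) := cpl_nhds hs n
  exact ⟨⟨W, AddSubgroup.isOpen_of_mem_nhds W hW⟩, hn⟩

/-- solving `w ^ p - w = φ` in a complete field -/
private theorem cpl_solve {p : ℕ} [hp : Fact p.Prime] [CharP F p] [CompleteSpace F]
    (hs : Function.Surjective hv.v) {φ : F} (hφ : hv.v φ < 1) :
    ∃ w : F, hv.v w < 1 ∧ w ^ p - w = φ := by
  have hna := cpl_nonarch (F := F) hs
  have hc := Valued.continuous_valuation_of_surjective hs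
  have hφ1 : hv.v φ ≤ exp (-1 : ℤ) := by
    rcases eq_or_ne (hv.v φ) 0 with h | h
    · rw [h]
      exact exp_pos.le
    · rw [← exp_log h] at hφ ⊢
      rw [← exp_zero, exp_lt_exp] at hφ
      rw [exp_le_exp]
      omega
  have hpow : ∀ i : ℕ, hv.v (φ ^ p ^ i) ≤ exp (-((p ^ i : ℕ) : ℤ)) := by
    intro i
    rw [map_pow]
    refine (pow_le_pow_left₀ zero_le hφ1 _).trans (le_of_eq ?_)
    rw [← exp_nsmul]
    congr 1
    simp
  have hsum : Summable (fun i : ℕ => φ ^ p ^ i) := by
    apply NonarchimedeanAddGroup.summable_of_tendsto_cofinite_zero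
    rw [Nat.cofinite_eq_atTop]
    intro U hU
    obtain ⟨n, hn⟩ := cpl_mem hU
    rw [mem_map, mem_atTop_sets]
    refine ⟨(-n).toNat + 1, fun i hi => ?_⟩
    apply hn
    refine (hpow i).trans_lt ?_
    rw [exp_lt_exp]
    have h1 : i < p ^ i := Nat.lt_pow_self hp.out.one_lt
    have h2 : ((i : ℕ) : ℤ) < ((p ^ i : ℕ) : ℤ) := by exact_mod_cast h1
    have h3 : -n ≤ (((-n).toNat : ℕ) : ℤ) := Int.self_le_toNat _
    have h4 : (((-n).toNat : ℕ) : ℤ) + 1 ≤ (i : ℤ) := by exact_mod_cast hi
    omega
  obtain ⟨S, hS⟩ := hsum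
  have hSp : HasSum (fun i : ℕ => φ ^ p ^ (i + 1)) (S ^ p) := by
    have h1 := hS.map (frobenius F p) (by
      change Continuous fun x : F => x ^ p
      exact continuous_pow p)
    have h2 : (⇑(frobenius F p) ∘ fun i : ℕ => φ ^ p ^ i) = fun i : ℕ => φ ^ p ^ (i + 1) := by
      funext i
      simp only [Function.comp_apply, frobenius_def]
      rw [← pow_mul, pow_succ]
    rw [h2] at h1
    exact h1
  have hSe : S ^ p = S - φ := by
    have h1 : HasSum (fun i : ℕ => φ ^ p ^ (i + 1)) (S - φ) := by
      rw [hasSum_nat_add_iff (f := fun i : ℕ => φ ^ p ^ i) 1]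
      simpa using hS
    exact hSp.unique h1
  have hvS : hv.v S ≤ exp (-1 : ℤ) := by
    have hcl : IsClosed {x : F | hv.v x ≤ exp (-1 : ℤ)} := isClosed_le hc continuous_const
    refine hcl.mem_of_tendsto hS (Filter.Eventually.of_forall fun s => ?_)
    change hv.v (∑ i ∈ s, φ ^ p ^ i) ≤ exp (-1 : ℤ)
    apply Valuation.map_sum_le
    intro i _
    refine (hpow i).trans ?_
    rw [exp_le_exp]
    have : 0 < p ^ i := pow_pos hp.out.pos i
    omega
  refine ⟨-S, ?_, ?_⟩
  · rw [Valuation.map_neg]
    refine hvS.trans_lt ?_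
    rw [← exp_zero, exp_lt_exp]
    omega
  · have h1 : (-S) ^ p = -(S ^ p) := by
      have := map_neg (frobenius F p) S
      simpa only [frobenius_def] using this
    rw [h1, hSe]
    ring

end aux

open scoped WithZeroTopology in
private theorem cpl_main {p : ℕ} [hp : Fact p.Prime] {k : Type*} {L : Type u} [Field k] [Field L]
    [Algebra k L] [CharP L p] (v : VI L) (ht : ∃ t, v t = exp (-1 : ℤ)) (D : Derivation k L L)
    (κ : ℤ) (hD : ∀ a, v (D a) ≤ exp κ * v a) :
    ∃ (M : Type u) (_ : Field M) (ι : L →+* M) (vM : VI M) (D₁ : M →+ M),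
      (∀ a : L, vM (ι a) = v a) ∧ (∀ a : L, D₁ (ι a) = ι (D a)) ∧
      (∀ a b, D₁ (a * b) = a * D₁ b + b * D₁ a) ∧
      (∀ a, vM (D₁ a) ≤ exp κ * vM a) ∧
      ∀ φ : M, vM φ < 1 → ∃ w, vM w < 1 ∧ w ^ p - w = φ := by
  let hL : Valued L (WithZero (Multiplicative ℤ)) := Valued.mk' v
  have hs : Function.Surjective hL.v := cpl_surj v ht
  have hsM : Function.Surjective
      (Valued.v : UniformSpace.Completion L → WithZero (Multiplicative ℤ)) :=
    Valued.valuedCompletion_surjective_iff.2 hs
  have hcM := Valued.continuous_valuation_of_surjective hsM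
  -- continuity of the derivation
  have hDc : Continuous (D : L →+ L) := by
    apply continuous_of_continuousAt_zero
    intro U hU
    rw [map_zero] at hU
    obtain ⟨n, hn⟩ := cpl_mem hU
    rw [Filter.mem_map]
    refine mem_of_superset (cpl_nhds hs (n - κ)) ?_
    intro x hx
    apply hn
    change v (D x) < exp n
    have hx' : v x < exp (n - κ) := hx
    refine (hD x).trans_lt ?_
    have h1 : exp κ * v x < exp κ * exp (n - κ) :=
      (mul_lt_mul_iff_right₀ exp_pos).2 hx'
    rwa [← exp_add, add_sub_cancel] at h1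
  let D₁ : UniformSpace.Completion L →+ UniformSpace.Completion L :=
    AddMonoidHom.completion (D : L →+ L) hDc
  have hD₁c : Continuous D₁ := AddMonoidHom.continuous_completion _ hDc
  have hD₁ : ∀ a : L, D₁ (a : UniformSpace.Completion L) = ((D a : L) : UniformSpace.Completion L) :=
    fun a => AddMonoidHom.completion_coe _ hDc a
  have hchar : CharP (UniformSpace.Completion L) p :=
    charP_of_injective_ringHom
      (UniformSpace.Completion.coeRingHom : L →+* UniformSpace.Completion L).injective p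
  refine ⟨UniformSpace.Completion L, inferInstance, UniformSpace.Completion.coeRingHom, Valued.v,
    D₁, ?_, ?_, ?_, ?_, ?_⟩
  · intro a
    exact Valued.valuedCompletion_apply a
  · intro a
    exact hD₁ a
  · intro a b
    induction a, b using UniformSpace.Completion.induction_on₂ with
    | hp =>
      refine isClosed_eq (hD₁c.comp (continuous_fst.mul continuous_snd)) ?_
      exact (continuous_fst.mul (hD₁c.comp continuous_snd)).add
        (continuous_snd.mul (hD₁c.comp continuous_fst))
    | ih a b =>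
      rw [hD₁, hD₁, ← UniformSpace.Completion.coe_mul, hD₁, Derivation.leibniz, smul_eq_mul,
        smul_eq_mul, UniformSpace.Completion.coe_add, UniformSpace.Completion.coe_mul,
        UniformSpace.Completion.coe_mul]
  · intro a
    induction a using UniformSpace.Completion.induction_on with
    | hp => exact isClosed_le (hcM.comp hD₁c) (continuous_const.mul hcM)
    | ih a =>
      rw [hD₁, Valued.valuedCompletion_apply, Valued.valuedCompletion_apply]
      exact hD a
  · intro φ hφ
    exact cpl_solve hsM hφ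

theorem exists_completion {p : ℕ} [hp : Fact p.Prime] {k : Type*} {L : Type u} [Field k] [Field L]
    [Algebra k L] [CharP L p] (v : VI L) (ht : ∃ t, v t = exp (-1 : ℤ)) (D : Derivation k L L)
    (κ : ℤ) (hD : ∀ a, v (D a) ≤ exp κ * v a) :
    ∃ (M : Type u) (_ : Field M) (_ : Algebra k M) (_ : Algebra L M) (_ : IsScalarTower k L M)
      (vM : VI M) (DM : Derivation k M M),
      (∀ a : L, vM (algebraMap L M a) = v a) ∧
      (∀ a : L, DM (algebraMap L M a) = algebraMap L M (D a)) ∧
      (∀ a, vM (DM a) ≤ exp κ * vM a) ∧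
      ∀ φ : M, vM φ < 1 → ∃ w, vM w < 1 ∧ w ^ p - w = φ := by
  obtain ⟨M, hM, ι, vM, D₁, h1, h2, hleib, h3, h4⟩ := cpl_main (p := p) v ht D κ hD
  let _ : Algebra L M := ι.toAlgebra
  let _ : Algebra k M := (ι.comp (algebraMap k L)).toAlgebra
  have hsc : IsScalarTower k L M := IsScalarTower.of_algebraMap_eq fun a => rfl
  have hk : ∀ c : k, D₁ (ι (algebraMap k L c)) = 0 := by
    intro c
    rw [h2, Derivation.map_algebraMap, map_zero]
  have hsm : ∀ (c : k) (a : M), c • a = ι (algebraMap k L c) * a := fun c a => rfl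
  let D₂ : M →ₗ[k] M :=
    { toFun := D₁
      map_add' := map_add D₁
      map_smul' := fun c a => by
        rw [hsm, RingHom.id_apply, hsm, hleib, hk, mul_zero, add_zero] }
  have hD₂ : ∀ a, D₂ a = D₁ a := fun _ => rfl
  let DM : Derivation k M M := Derivation.mk' D₂ (fun a b => by
    rw [hD₂, hD₂, hD₂, hleib, smul_eq_mul, smul_eq_mul])
  exact ⟨M, hM, _, _, hsc, vM, DM, h1, h2, h3, h4⟩

end BAC
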