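import Mathlib
import Pool.Agent.Helper32.Curve
import Pool.Agent.Helper32.AS13
import Pool.Agent.Helper32.AS25

/-!
Project BAC (MP_aa31c6_ag, big actions with `|G_2| = p ^ n`, `n ≤ p - 2`), owner helper97.
Blueprint: /team-store/bac_blueprint.md. All definitions.

`v` are pole order valuations: `v f = exp j` for a pole of order `j`, uniformizers have `v t = exp (-1)`.
-/

namespace BAC

open Polynomial WithZero IntermediateField Pool.Agent.Helper32

/-- valuations with value group `ℤ` -/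
abbrev VI (E : Type*) [Field E] := Valuation E (WithZero (Multiplicative ℤ))

/-! ### Levels (abstract fields) -/

/-- `R + {v ≤ exp (-m)}` -/
def Wm (k : Type*) {E : Type*} [Field k] [Field E] [Algebra k E] (x : E) (v : VI E) (m : ℕ) :
    Submodule k E :=
  Submodule.span k {f | f ∈ Rint k x ∨ v f ≤ exp (-(m : ℤ))}

/-- one-point covers of the line with the derivation `d/dx`; `κ + 1` is twice the genus -/
structure Lvl (p : ℕ) (k : Type*) {E : Type*} [Field k] [Field E] [Algebra k E] (x : E)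
    (D : Derivation k E E) (n : ℕ) (κ : ℤ) (v : VI E) : Prop where
  lev : ∃ g, IsLevel p k x n g v
  Dx : D x = 1
  le : ∀ a, v (D a) ≤ exp κ * v a
  eq : ∀ (a : E) (j : ℤ), v a = exp j → ¬ (p : ℤ) ∣ j → v (D a) = exp (κ + j)
  fin : Module.Finite k (E ⧸ Wm k x v 0)
  gen : 2 * (Module.finrank k (E ⧸ Wm k x v 0) : ℤ) = κ + 1

/-- `f` is reduced to order exactly `m` modulo the `c ^ p - c` -/
def Red (p : ℕ) {E : Type*} [Field E] (v : VI E) (f : E) (m : ℤ) : Prop :=
  0 < m ∧ ¬ (p : ℤ) ∣ m ∧ ∃ c : E, v (f - (c ^ p - c)) = exp m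

/-! ### Intermediate fields of `Ω / K`, `K = k(x)` -/

section inter

variable (p : ℕ) (k : Type*) {K Ω : Type*} [Field k] [Field K] [Field Ω] [Algebra k K]
  [Algebra K Ω] [Algebra k Ω] [IsScalarTower k K Ω] (x : K) (D : Derivation k Ω Ω)

/-- there is an integral element of trace one -/
def TrOne (E : IntermediateField K Ω) : Prop :=
  ∃ θ : E, θ ∈ Rint k (algebraMap K E x) ∧ Algebra.trace K E θ = 1

/-- finite extensions with level structure and trace one element -/
structure TT (E : IntermediateField K Ω) (n : ℕ) (κ : ℤ) (v : VI E) : Prop where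
  fin : FiniteDimensional K E
  rank : Module.finrank K E = p ^ n
  lvl : ∃ D' : Derivation k E E, (∀ a : E, ((D' a : E) : Ω) = D a) ∧
    Lvl p k (algebraMap K E x) D' n κ v
  tr : TrOne k x E

/-- the class `U` of the blueprint, with all its data -/
structure UU (E : IntermediateField K Ω) (n : ℕ) (κ : ℤ) (v : VI E) : Prop
    extends TT p k x D E n κ v where
  gal : IsGalois K E

/-- `σ` fixes `E` pointwise -/
def Fx (E : IntermediateField K Ω) (σ : Ω ≃ₐ[K] Ω) : Prop := ∀ a ∈ E, σ a = a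

/-- condition (N) -/
def NN (n : ℕ) (κ : ℤ) : Prop := (p : ℤ) * (κ + 1) < ((p : ℤ) - 1) * (p : ℤ) ^ n

/-- `f ∈ E` is reduced to an order `≥ N_E - κ_E` -/
def Big (E : IntermediateField K Ω) (n : ℕ) (κ : ℤ) (v : VI E) (f : Ω) : Prop :=
  ∃ (hf : f ∈ E) (m : ℤ), (p : ℤ) ^ n - κ ≤ m ∧ Red p v ⟨f, hf⟩ m

/-- `f ∈ E` can be reduced to an order `< N_E - κ_E` -/
def Small (E : IntermediateField K Ω) (n : ℕ) (κ : ℤ) (v : VI E) (f : Ω) : Prop :=
  ∃ (hf : f ∈ E) (c : E) (l : ℤ), l < (p : ℤ) ^ n - κ ∧ v (⟨f, hf⟩ - (c ^ p - c)) ≤ exp l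

/-- the base of the tower: `K = k(x)` -/
structure Base (vK : VI K) : Prop where
  lev : IsLevel p k x 0 0 vK
  gen : IntermediateField.adjoin k {x} = ⊤
  trans : Transcendental k x

variable {k}

/-- the field of the function `r` on the Galois group (a hom to a group) is `F` -/
def FieldOf {G : Type*} [One G] (r : (Ω ≃ₐ[K] Ω) → G) (F : IntermediateField K Ω) : Prop :=
  ∀ σ : Ω ≃ₐ[K] Ω, r σ = 1 ↔ Fx F σ

/-- the character `χ` is given by `w ^ p - w = q(x)` for a polynomial `q` with exponents prime to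
`p` -/
def PolC (q : k[X]) (χ : (Ω ≃ₐ[K] Ω) → ZMod p) : Prop :=
  (∀ i, p ∣ i → q.coeff i = 0) ∧ ∃ w : Ω, w ^ p - w = algebraMap K Ω (aeval x q) ∧
    ∀ σ : Ω ≃ₐ[K] Ω, σ w = w + ((χ σ).val : Ω)

/-- the character `χ` is given by `w ^ p - w = e x` -/
def LinC (χ : (Ω ≃ₐ[K] Ω) → ZMod p) : Prop :=
  ∃ (e : k) (w : Ω), w ^ p - w = algebraMap k Ω e * algebraMap K Ω x ∧
    ∀ σ : Ω ≃ₐ[K] Ω, σ w = w + ((χ σ).val : Ω)

end inter

/-! ### Matrices with a degree function -/

section matrices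

variable {I : Type*} [Fintype I] [DecidableEq I]

/-- entries `M i j` vanish unless `d i ≥ d j + m` -/
def JJ (d : I → ℕ) (m : ℕ) {A : Type*} [Zero A] (M : Matrix I I A) : Prop :=
  ∀ i j, M i j ≠ 0 → d j + m ≤ d i

/-- truncated exponential -/
noncomputable def Ex (p : ℕ) {A : Type*} [Field A] (M : Matrix I I A) : Matrix I I A :=
  ∑ i ∈ Finset.range p, ((i.factorial : A)⁻¹) • M ^ i

/-- Frobenius on matrices -/
def Fr (p : ℕ) {A : Type*} [Field A] (M : Matrix I I A) : Matrix I I A := M.map (fun a => a ^ p)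

/-- the matrices over `F_p` -/
noncomputable def toM (p : ℕ) (A : Type*) [Field A] (M : Matrix I I (ZMod p)) :
    Matrix I I A := M.map (fun a => ((a.val : ℕ) : A))

variable (p : ℕ) {k K Ω : Type*} [Field k] [Field K] [Field Ω] [Algebra k K]
  [Algebra K Ω] [Algebra k Ω] [IsScalarTower k K Ω] (x : K)

/-- Lang torsor: `Fr g = Exp (x Dm) g`, and the hom `c` to the matrices over `F_p` -/
structure Lang (d : I → ℕ) (Dm : Matrix I I k) (g : Matrix I I Ω)
    (c : (Ω ≃ₐ[K] Ω) →* Matrix I I (ZMod p)) : Prop where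
  hD : JJ d 1 Dm
  hg : JJ d 1 (g - 1)
  eq : Fr p g = Ex p (algebraMap K Ω x • Dm.map (algebraMap k Ω)) * g
  hc : ∀ σ, JJ d 1 (c σ - 1)
  gal : ∀ σ : Ω ≃ₐ[K] Ω, g.map σ = g * toM p Ω (c σ)

end matrices

/-- faithful unipotent representation of a group of exponent `p` and class `< p` -/
structure Rep (p : ℕ) {I : Type*} [Fintype I] [DecidableEq I] (d : I → ℕ) {Γ : Type*} [Group Γ]
    (u : Γ →* Matrix I I (ZMod p)) : Prop where
  lt : ∀ i, d i < p
  inj : Function.Injective u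
  one : ∀ γ, JJ d 1 (u γ - 1)
  two : ∀ γ, JJ d 2 (u γ - 1) → γ ∈ commutator Γ

/-- the cocycle `(X ^ p + Y ^ p - (X + Y) ^ p) / p`, as a polynomial in two variables -/
noncomputable def CC (p : ℕ) {A : Type*} [CommRing A] (a b : A) : A :=
  -∑ i ∈ Finset.Ico 1 p, ((p.choose i / p : ℕ) : A) * a ^ i * b ^ (p - i)

end BAC
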