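import Pool.Agent.BAC.Defs

/-!
BAC / A1 (blueprint 1.5). The derivation on an Artin-Schreier step.

Put `w = w₀ - c`, `P = P₀ - (c ^ p - c)`, `v' = (h₀.shift c).valuation ..`, `h = h₀.shift c : ASData p w P`.
Every `y ∈ F` is `∑_{i<p} a_i w^i` (`h.eq_sum`) and `v' y = max_i v (a_i)^p exp (i l)` (`polVal`,
`h.valuation_monomial`, `h.term_le_val`/`h.valuation_term_le`, `h.exists_leading_val`).
`w ^ p - w = P` gives `- D' w = D P`, so `v' (D' w) = v (D P) ^ p = exp (p (κ + l))` (`L.eq`, `L.le`).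
For a monomial `D' (a w^i) = D a · w^i + i a w^(i-1) D' w`: the first term has
`v' ≤ exp (p κ) v' (a w^i)`, the second `v' = exp (p κ + (p-1) l) v' (a w^i)` if `0 < i < p`, `a ≠ 0`
(`natCast_ne_zero_of_lt`; constants of `E` coming from `ℕ` prime to `p` have `v = 1`: use
`L.lev.v_const`). As `(p-1) l > 0` the second one is strictly larger. So `v' (D' y) ≤ exp κ' v' y`
(ultrametric inequality, every monomial of `y` has `v' ≤ v' y`). If `v' y = exp j`, `p ∤ j`, take
the leading monomial `a w^i` (`exists_leading_val`): `i ≠ 0` because `v' (a w^0)` is a `p`-th power;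
`y = a w^i + y'`, `v' y' < v' (a w^i)`: `v' (D' y') ≤ exp κ' v' y' < exp κ' v' (a w^i) = v' (D' (a w^i))`.
-/

namespace BAC

open Polynomial WithZero Pool.Agent.Helper32

section aux

variable {p : ℕ} [hp : Fact p.Prime] {k E F : Type*} [Field k] [Field E] [Field F]
  [Algebra k E] [Algebra k F] [Algebra E F] [IsScalarTower k E F] [CharP k p] [CharP E p]
  [CharP F p] {x : E} {D : Derivation k E E} {n : ℕ} {κ : ℤ} {v : VI E}
  (L : Lvl p k x D n κ v) {w : F} {P : E} (h : ASData p w P) {l : ℤ}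
  (hl0 : 0 < l) (hl : ¬ (p : ℤ) ∣ l) (hP : v P = exp l)
  (D' : Derivation k F F) (hD' : ∀ a : E, D' (algebraMap E F a) = algebraMap E F (D a))

include hD' h in
omit [hp : Fact p.Prime] [IsScalarTower k E F] [CharP k p] [CharP E p] in
private theorem ders_w : D' w = - algebraMap E F (D P) := by
  have h1 := congrArg D' h.eq
  rw [map_sub, hD', Derivation.leibniz_pow, nsmul_eq_mul, CharP.cast_eq_zero, zero_mul, zero_sub] at h1
  rw [← h1, neg_neg]

omit [CharP F p] [CharP k p] [Algebra k F] [IsScalarTower k E F] [Algebra k E] in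
private theorem ders_mono {i : ℕ} (hi : i < p) (a : E) :
    h.valuation v hl0 hl hP (algebraMap E F a * w ^ i) = v a ^ p * exp ((i : ℤ) * l) :=
  h.val_monomial v l hi a

omit [CharP F p] [CharP k p] [Algebra k F] [IsScalarTower k E F] [Algebra k E] in
private theorem ders_alg (a : E) :
    h.valuation v hl0 hl hP (algebraMap E F a) = v a ^ p := by
  have h1 := ders_mono h hl0 hl hP (v := v) hp.out.pos a
  rw [pow_zero, mul_one, Nat.cast_zero, zero_mul, exp_zero, mul_one] at h1
  exact h1

omit [CharP F p] [CharP k p] [Algebra k F] [IsScalarTower k E F] [Algebra k E] in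
private theorem ders_gen :
    h.valuation v hl0 hl hP w = exp l := by
  have h1 := ders_mono h hl0 hl hP (v := v) hp.out.one_lt 1
  rw [pow_one, map_one, one_mul, map_one, one_pow, one_mul, Nat.cast_one, one_mul] at h1
  exact h1

include L hD' in
omit [CharP k p] [IsScalarTower k E F] in
private theorem ders_vw :
    h.valuation v hl0 hl hP (D' w) = exp (p * (κ + l)) := by
  rw [ders_w h D' hD', Valuation.map_neg, ders_alg, L.eq P l hP hl, ← exp_nsmul, nsmul_eq_mul]

include L in
omit [CharP F p] [Algebra k F] [IsScalarTower k E F] in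
private theorem ders_nat {i : ℕ} (hi0 : 0 < i) (hi : i < p) :
    h.valuation v hl0 hl hP ((i : ℕ) : F) = 1 := by
  obtain ⟨g, hg⟩ := L.lev
  have h1 : ((i : ℕ) : F) = algebraMap E F (algebraMap k E ((i : ℕ) : k)) := by
    rw [map_natCast, map_natCast]
  rw [h1, ders_alg, hg.v_const _ (natCast_ne_zero_of_lt hi0 hi), one_pow]

include hD' in
omit [hp : Fact p.Prime] [CharP k p] [CharP E p] [CharP F p] [IsScalarTower k E F] in
private theorem ders_dm (a : E) (i : ℕ) :
    D' (algebraMap E F a * w ^ i) = algebraMap E F (D a) * w ^ i +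
      algebraMap E F a * ((i : F) * w ^ (i - 1) * D' w) := by
  rw [Derivation.leibniz, hD', Derivation.leibniz_pow]
  simp only [smul_eq_mul, nsmul_eq_mul]
  ring

include L in
omit [CharP F p] [CharP k p] [Algebra k F] [IsScalarTower k E F] in
private theorem ders_one {i : ℕ} (hi : i < p) (a : E) :
    h.valuation v hl0 hl hP (algebraMap E F (D a) * w ^ i) ≤
      exp (p * κ) * h.valuation v hl0 hl hP (algebraMap E F a * w ^ i) := by
  rw [ders_mono h hl0 hl hP hi, ders_mono h hl0 hl hP hi, ← mul_assoc]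
  refine mul_le_mul_left ?_ _
  calc v (D a) ^ p ≤ (exp κ * v a) ^ p := pow_le_pow_left₀ zero_le (L.le a) p
    _ = exp (p * κ) * v a ^ p := by rw [mul_pow, ← exp_nsmul, nsmul_eq_mul]

include L hD' in
omit [IsScalarTower k E F] in
private theorem ders_two {i : ℕ} (hi0 : 0 < i) (hi : i < p) (a : E) :
    h.valuation v hl0 hl hP (algebraMap E F a * ((i : F) * w ^ (i - 1) * D' w)) =
      exp (p * κ + (p - 1) * l) * h.valuation v hl0 hl hP (algebraMap E F a * w ^ i) := by
  rw [ders_mono h hl0 hl hP hi, map_mul, map_mul, map_mul, ders_alg, ders_nat L h hl0 hl hP hi0 hi,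
    ders_vw L h hl0 hl hP D' hD', one_mul, map_pow, ders_gen, ← exp_nsmul, ← exp_add,
    mul_left_comm, ← exp_add]
  congr 2
  rw [nsmul_eq_mul, Nat.cast_sub (by omega : 1 ≤ i)]
  push_cast
  ring

include L hD' in
omit [IsScalarTower k E F] in
private theorem ders_le_mono {i : ℕ} (hi : i < p) (a : E) :
    h.valuation v hl0 hl hP (D' (algebraMap E F a * w ^ i)) ≤
      exp (p * κ + (p - 1) * l) * h.valuation v hl0 hl hP (algebraMap E F a * w ^ i) := by
  have hp1 : (1 : ℤ) < p := by exact_mod_cast hp.out.one_lt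
  have hpos : (0 : ℤ) < (p - 1) * l := mul_pos (by linarith) hl0
  rw [ders_dm D' hD']
  refine (Valuation.map_add _ _ _).trans (max_le ?_ ?_)
  · refine (ders_one L h hl0 hl hP hi a).trans ?_
    refine mul_le_mul_left ?_ _
    rw [exp_le_exp]
    linarith
  · rcases Nat.eq_zero_or_pos i with h0 | h0
    · subst h0
      rw [Nat.cast_zero, zero_mul, zero_mul, mul_zero, map_zero]
      exact zero_le
    · exact (ders_two L h hl0 hl hP D' hD' h0 hi a).le

include L hD' in
omit [IsScalarTower k E F] in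
private theorem ders_eq_mono {i : ℕ} (hi0 : 0 < i) (hi : i < p) {a : E} (ha : a ≠ 0) :
    h.valuation v hl0 hl hP (D' (algebraMap E F a * w ^ i)) =
      exp (p * κ + (p - 1) * l) * h.valuation v hl0 hl hP (algebraMap E F a * w ^ i) := by
  have hp1 : (1 : ℤ) < p := by exact_mod_cast hp.out.one_lt
  have hpos : (0 : ℤ) < (p - 1) * l := mul_pos (by linarith) hl0
  have hm0 : 0 < h.valuation v hl0 hl hP (algebraMap E F a * w ^ i) := by
    rw [ders_mono h hl0 hl hP hi]
    have h1 : v a ≠ 0 := (Valuation.ne_zero_iff v).2 ha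
    exact zero_lt_iff.2 (mul_ne_zero (pow_ne_zero _ h1) exp_ne_zero)
  have h2 := ders_two L h hl0 hl hP D' hD' hi0 hi a
  rw [ders_dm D' hD', Valuation.map_add_eq_of_lt_right, h2]
  rw [h2]
  refine (ders_one L h hl0 hl hP hi a).trans_lt ?_
  refine mul_lt_mul_of_pos_right ?_ hm0
  rw [exp_lt_exp]
  linarith

include L hD' in
omit [IsScalarTower k E F] in
private theorem ders_le (y : F) :
    h.valuation v hl0 hl hP (D' y) ≤
      exp (p * κ + (p - 1) * l) * h.valuation v hl0 hl hP y := by
  have h1 : D' y = ∑ i ∈ Finset.range p, D' (algebraMap E F ((h.rep y).coeff i) * w ^ i) := by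
    conv_lhs => rw [h.eq_sum y]
    rw [map_sum]
  rw [h1]
  refine Valuation.map_sum_le _ fun i hi => ?_
  have hi' := Finset.mem_range.1 hi
  refine (ders_le_mono L h hl0 hl hP D' hD' hi' _).trans ?_
  exact mul_le_mul_right (h.term_le_val v l y hi') _

include L hD' in
omit [IsScalarTower k E F] in
private theorem ders_eq (y : F) (j : ℤ) (hy : h.valuation v hl0 hl hP y = exp j)
    (hj : ¬ (p : ℤ) ∣ j) :
    h.valuation v hl0 hl hP (D' y) = exp (p * κ + (p - 1) * l + j) := by
  have hy0 : y ≠ 0 := by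
    rintro rfl
    rw [map_zero] at hy
    exact exp_ne_zero hy.symm
  obtain ⟨i, hi, a, ha, y', hyy, hlt, heq⟩ := h.exists_leading_val v hl hy0
  have hlt' : h.valuation v hl0 hl hP y' <
      h.valuation v hl0 hl hP (algebraMap E F a * w ^ i) := hlt
  have heq' : h.valuation v hl0 hl hP y =
      h.valuation v hl0 hl hP (algebraMap E F a * w ^ i) := heq
  have hva : v a ≠ 0 := (Valuation.ne_zero_iff v).2 ha
  have hi0 : 0 < i := by
    rcases Nat.eq_zero_or_pos i with h0 | h0
    · exfalso
      subst h0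
      rw [ders_mono h hl0 hl hP hi, hy, ← exp_log hva, ← exp_nsmul, ← exp_add, exp_inj] at heq'
      apply hj
      refine ⟨log (v a), ?_⟩
      rw [heq', nsmul_eq_mul]
      push_cast
      ring
    · exact h0
  have h1 := ders_eq_mono L h hl0 hl hP D' hD' hi0 hi ha
  have h2 : h.valuation v hl0 hl hP (D' y') <
      h.valuation v hl0 hl hP (D' (algebraMap E F a * w ^ i)) := by
    rw [h1]
    refine (ders_le L h hl0 hl hP D' hD' y').trans_lt ?_
    exact mul_lt_mul_of_pos_left hlt' exp_pos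
  have h3 : D' y = D' (algebraMap E F a * w ^ i) + D' y' := by
    rw [← map_add, ← hyy]
  rw [h3, Valuation.map_add_eq_of_lt_left _ h2, h1, ← heq', hy, ← exp_add]

end aux

theorem der_step {p : ℕ} [hp : Fact p.Prime] {k E F : Type*} [Field k] [Field E] [Field F]
    [Algebra k E] [Algebra k F] [Algebra E F] [IsScalarTower k E F] [CharP k p] [CharP E p]
    [CharP F p] {x : E} {D : Derivation k E E} {n : ℕ} {κ : ℤ} {v : VI E}
    (L : Lvl p k x D n κ v) {w₀ : F} {P₀ : E} (h₀ : ASData p w₀ P₀) (c : E) {l : ℤ}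
    (hl0 : 0 < l) (hl : ¬ (p : ℤ) ∣ l) (hP : v (P₀ - (c ^ p - c)) = exp l)
    (D' : Derivation k F F) (hD' : ∀ a : E, D' (algebraMap E F a) = algebraMap E F (D a)) :
    (∀ a : F, (h₀.shift c).valuation v hl0 hl hP (D' a) ≤
      exp (p * κ + (p - 1) * l) * (h₀.shift c).valuation v hl0 hl hP a) ∧
    (∀ (a : F) (j : ℤ), (h₀.shift c).valuation v hl0 hl hP a = exp j → ¬ (p : ℤ) ∣ j →
      (h₀.shift c).valuation v hl0 hl hP (D' a) = exp (p * κ + (p - 1) * l + j)) := by
  exact ⟨fun a => ders_le L (h₀.shift c) hl0 hl hP D' hD' a,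
    fun a j ha hj => ders_eq L (h₀.shift c) hl0 hl hP D' hD' a j ha hj⟩

end BAC
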