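import Pool.Agent.BAC.Defs

/-!
BAC / A8. Small facts on valuations.

`val_ext`: both valuations take the value `exp (-1)`. `v a ≤ 1 ↔ v' a ≤ 1` (same valuation ring), so also
`v a < 1 ↔ v' a < 1`, `v a = 1 ↔ v' a = 1`. Let `v t = exp (-1)`, then `v' t = exp (-r)` with `r > 0`;
for any `a ≠ 0`, `v a = exp j`: `v (a t ^ j) = 1` so `v' (a t ^ j) = 1` and `v' a = exp (r j)`. Hence
`v' = v ^ r` and `r = 1` since `exp (-1)` is a value of `v'`. `val_pow` is the general version, for a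
valuation `v'` which need not be surjective.
-/

namespace BAC

open WithZero

private theorem eq_one_iff {E : Type*} [Field E] (v : VI E) {a : E} (ha : a ≠ 0) :
    v a = 1 ↔ v a ≤ 1 ∧ v a⁻¹ ≤ 1 := by
  have h0 : v a ≠ 0 := (Valuation.ne_zero_iff v).2 ha
  rw [map_inv₀]
  constructor
  · intro h
    rw [h]
    simp
  · rintro ⟨h1, h2⟩
    refine le_antisymm h1 ?_
    have h3 := (inv_le_one₀ (zero_lt_iff.2 h0)).1 h2
    exact h3

theorem val_pow {E : Type*} [Field E] {v v' : VI E} (h : ∀ a, v' a ≤ 1 ↔ v a ≤ 1)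
    (ht : ∃ t, v t = exp (-1 : ℤ)) : ∃ r : ℕ, 0 < r ∧ ∀ a, v' a = v a ^ r := by
  obtain ⟨t, ht⟩ := ht
  have ht0 : t ≠ 0 := by
    intro h0
    rw [h0, map_zero] at ht
    exact exp_ne_zero ht.symm
  have h1 : ∀ a : E, a ≠ 0 → (v' a = 1 ↔ v a = 1) := by
    intro a ha
    rw [eq_one_iff v' ha, eq_one_iff v ha, h, h]
  have hv0 : v' t ≠ 0 := (Valuation.ne_zero_iff v').2 ht0
  have hv1 : v' t ≤ 1 := by
    rw [h, ht, ← exp_zero, exp_le_exp]
    norm_num
  have hv2 : v' t ≠ 1 := by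
    intro h2
    rw [h1 t ht0, ht, ← exp_zero, exp_inj] at h2
    norm_num at h2
  have hlog : v' t = exp (log (v' t)) := (exp_log hv0).symm
  have hr : log (v' t) < 0 := by
    have h3 : exp (log (v' t)) < exp (0 : ℤ) := by
      rw [← hlog, exp_zero]
      exact lt_of_le_of_ne hv1 hv2
    exact exp_lt_exp.1 h3
  obtain ⟨r, hr'⟩ : ∃ r : ℕ, log (v' t) = -(r : ℤ) :=
    ⟨(-log (v' t)).toNat, by rw [Int.toNat_of_nonneg (by omega)]; ring⟩
  refine ⟨r, by omega, fun a => ?_⟩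
  by_cases ha : a = 0
  · rw [ha, map_zero, map_zero, zero_pow (by omega)]
  · have hva : v a ≠ 0 := (Valuation.ne_zero_iff v).2 ha
    have ej : v a = exp (log (v a)) := (exp_log hva).symm
    set j := log (v a) with hj
    have hne : a * t ^ j ≠ 0 := mul_ne_zero ha (zpow_ne_zero _ ht0)
    have h4 : v (a * t ^ j) = 1 := by
      rw [map_mul, map_zpow₀, ht, ej, ← exp_zsmul, ← exp_add, ← exp_zero]
      congr 1
      simp
    have h5 := (h1 _ hne).2 h4
    rw [map_mul, map_zpow₀, hlog, hr', ← exp_zsmul] at h5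
    have h6 : v' a = exp ((r : ℤ) * j) := by
      have h7 : exp (j • (-(r : ℤ))) ≠ (0 : WithZero (Multiplicative ℤ)) := exp_ne_zero
      rw [← mul_right_cancel_iff_of_pos (zero_lt_iff.2 h7), h5, ← exp_add, ← exp_zero]
      congr 1
      rw [smul_eq_mul]
      ring
    rw [h6, ej, ← exp_nsmul, nsmul_eq_mul]

theorem val_ext {E : Type*} [Field E] {v v' : VI E} (h : ∀ a, v' a ≤ 1 ↔ v a ≤ 1)
    (ht : ∃ t, v t = exp (-1 : ℤ)) (ht' : ∃ t, v' t = exp (-1 : ℤ)) : v' = v := by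
  obtain ⟨r, hr, hv⟩ := val_pow h ht
  obtain ⟨t', ht'⟩ := ht'
  have h1 : v t' ≠ 0 := by
    intro h0
    have := hv t'
    rw [h0, ht', zero_pow hr.ne'] at this
    exact exp_ne_zero this
  have h2 := hv t'
  rw [ht', ← exp_log h1, ← exp_nsmul, exp_inj, nsmul_eq_mul] at h2
  have h3 : r = 1 := by
    have h4 : (r : ℤ) ∣ 1 := ⟨-log (v t'), by linarith⟩
    have h5 : (r : ℤ) = 1 := Int.eq_one_of_dvd_one (by positivity) h4
    exact_mod_cast h5
  ext a
  rw [hv, h3, pow_one]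

end BAC
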