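import Pool.Agent.BAC.FFDefs
import Pool.Agent.Helper32.AS21

/-!
BAC / F1 (blueprint 8.1). Function fields of one variable: residue fields and constants.

`ff_alg`: `F / k(x)` finite, `a` transcendental over `k`: `a` is algebraic over `k(x)`, so `x` is algebraic over
`k(a)` (exchange; transcendence degree `1`), `F` is finite over `k(x, a)`, which is finite over `k(a)`
(`F` is finitely generated over `k`, hence over `k(a)`, and algebraic over it).
`ff_res`: suppose no `c` works. Then the residue `ā` of `a` in the residue field of `P.1` is not in `k`, so it is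
transcendental over `k` (algebraically closed), so `a` is transcendental and every nonzero polynomial in `a`
with coefficients in `k` is a unit of `P.1`; so `k(a) ⊆ P.1`, `F / k(a)` is algebraic: `top_of_alg`.
`ff_const`: `a ∉ k` is transcendental over `k`. `k[a⁻¹] ⊆ F`, the ideal `(a⁻¹)` is proper (`a ∉ k[a⁻¹]`: otherwise `a`
is algebraic over `k`), so there is a valuation subring `V` of `F` containing `k[a⁻¹]` with `a⁻¹` in the maximal
ideal (Mathlib: `LocalSubring`, `exists_le_valuationSubring`, or `Ideal.image_subset_nonunits_valuationSubring`),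
so `a ∉ V`, and `V` is a place.
-/

namespace BAC

open Pool.Agent.Helper32 IntermediateField

variable {k F : Type*} [Field k] [Field F] [Algebra k F]

theorem ff_alg (hF : IsFunctionField k F) {a : F} (ha : Transcendental k a) :
    FiniteDimensional (IntermediateField.adjoin k {a}) F := by
  obtain ⟨x, hx, hfin⟩ := hF
  have h1 : IsAlgebraic (IntermediateField.adjoin k {x}) a := Algebra.IsAlgebraic.isAlgebraic a
  have h2 : IsAlgebraic (IntermediateField.adjoin k {a}) x :=
    isAlgebraic_adjoin_iff.mpr (.adjoin_singleton hx ha (isAlgebraic_adjoin_iff.mp h1))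
  let Fyx := restrictScalars k k⟮a⟯⟮x⟯
  let Fxy := restrictScalars k k⟮x⟯⟮a⟯
  let : Algebra k⟮a⟯ Fyx := k⟮a⟯⟮x⟯.algebra
  let : Module k⟮a⟯ Fyx := Algebra.toModule
  let : SMul k⟮a⟯ Fyx := Algebra.toSMul
  let : Algebra k⟮x⟯ Fxy := k⟮x⟯⟮a⟯.algebra
  let : Module k⟮x⟯ Fxy := Algebra.toModule
  let : SMul k⟮x⟯ Fxy := Algebra.toSMul
  have h3 : FiniteDimensional k⟮a⟯ Fyx :=
    adjoin.finiteDimensional (isAlgebraic_iff_isIntegral.mp h2)
  have h4 : FiniteDimensional Fyx F := by
    unfold Fyx
    rw [adjoin_simple_comm]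
    have : IsScalarTower k⟮x⟯ Fxy F := isScalarTower_mid' k⟮x⟯⟮a⟯
    exact .right k⟮x⟯ Fxy F
  have : IsScalarTower k⟮a⟯ Fyx F := isScalarTower_mid' k⟮a⟯⟮x⟯
  exact .trans k⟮a⟯ Fyx F

private theorem ffb_val [IsAlgClosed k] (P : Place k F) {a : F}
    (h : ∀ c : k, P.1.valuation (a - algebraMap k F c) = 1) (q : Polynomial k) (hq : q ≠ 0) :
    P.1.valuation (Polynomial.aeval a q) = 1 := by
  have hc : ∀ c : k, c ≠ 0 → P.1.valuation (algebraMap k F c) = 1 := by
    intro c hc
    apply le_antisymm
    · exact (P.1.valuation_le_one_iff _).2 (P.2.1 c)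
    · have h1 : P.1.valuation (algebraMap k F c⁻¹) ≤ 1 :=
        (P.1.valuation_le_one_iff _).2 (P.2.1 c⁻¹)
      rw [map_inv₀, map_inv₀] at h1
      have h2 : P.1.valuation (algebraMap k F c) ≠ 0 := by
        rw [Valuation.ne_zero_iff]
        exact fun h3 => hc ((algebraMap k F).injective (by rw [h3, map_zero]))
      exact (inv_le_one₀ (zero_lt_iff.2 h2)).1 h1
  have h1 := (IsAlgClosed.splits q).eq_prod_roots
  rw [h1, map_mul, Polynomial.aeval_C, map_mul, hc _ (Polynomial.leadingCoeff_ne_zero.2 hq),
    one_mul, map_multiset_prod, map_multiset_prod, Multiset.map_map, Multiset.map_map]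
  apply Multiset.prod_eq_one
  intro y hy
  obtain ⟨c, _, rfl⟩ := Multiset.mem_map.1 hy
  simp only [Function.comp_apply, map_sub, Polynomial.aeval_X, Polynomial.aeval_C]
  exact h c

theorem ff_res [IsAlgClosed k] (hF : IsFunctionField k F) (P : Place k F) {a : F}
    (ha : a ∈ P.1) : ∃ c : k, P.1.valuation (a - algebraMap k F c) < 1 := by
  by_contra hcon
  push Not at hcon
  have h : ∀ c : k, P.1.valuation (a - algebraMap k F c) = 1 := fun c =>
    le_antisymm ((P.1.valuation_le_one_iff _).2 (sub_mem ha (P.2.1 c))) (hcon c)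
  have hv := ffb_val P h
  have htr : Transcendental k a := by
    rintro ⟨q, hq, h0⟩
    have h1 := hv q hq
    rw [h0, map_zero] at h1
    exact zero_ne_one h1
  have hfin := ff_alg hF htr
  refine P.2.2 (top_of_alg (E := k⟮a⟯) fun y => ?_)
  obtain ⟨r, s, hy⟩ := mem_adjoin_simple_iff k (y : F) |>.1 y.2
  have e : algebraMap k⟮a⟯ F y = Polynomial.aeval a r / Polynomial.aeval a s := hy
  rw [e, ← P.1.valuation_le_one_iff, map_div₀]
  by_cases hr : r = 0
  · rw [hr, map_zero, map_zero, zero_div]
    exact zero_le_one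
  · rw [hv r hr]
    by_cases hs : s = 0
    · rw [hs, map_zero, map_zero, div_zero]
      exact zero_le_one
    · rw [hv s hs, div_one]

theorem ff_const [IsAlgClosed k] {a : F} (h : ∀ P : Place k F, a ∈ P.1) :
    ∃ c : k, a = algebraMap k F c := by
  by_contra hcon
  have ha : a ∉ (integralClosure k F).toSubring := by
    intro h1
    apply hcon
    have h2 : IsIntegral k a := h1
    have h3 := IsAlgClosed.degree_eq_one_of_irreducible k (minpoly.irreducible h2)
    obtain ⟨c, hc⟩ := minpoly.mem_range_of_degree_eq_one k a h3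
    exact ⟨c, hc.symm⟩
  obtain ⟨V, hV, haV⟩ := Subring.exists_le_valuationSubring_of_isIntegrallyClosedIn ha
  refine haV (h ⟨V, fun c => hV ?_, fun hV' => haV (by rw [hV']; trivial)⟩)
  show algebraMap k F c ∈ integralClosure k F
  exact (integralClosure k F).algebraMap_mem c

/-- intermediate fields of finite index are function fields -/
theorem ff_sub (hF : IsFunctionField k F) (E : IntermediateField k F) [FiniteDimensional E F] :
    IsFunctionField k E := by
  have hex : ∃ y : E, Transcendental k y := by
    by_contra hcon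
    push Not at hcon
    obtain ⟨x, hx, -⟩ := hF
    have h1 : Algebra.IsAlgebraic k E := ⟨fun y => by
      have := hcon y
      rwa [Transcendental, not_not] at this⟩
    have h2 : Algebra.IsAlgebraic k F := Algebra.IsAlgebraic.trans k E F
    exact hx (h2.isAlgebraic x)
  obtain ⟨y, hy⟩ := hex
  refine ⟨y, hy, ?_⟩
  have hy' : Transcendental k (y : F) := fun h => hy ((isAlgebraic_algebraMap_iff
    (algebraMap E F).injective).1 h)
  have h1 := ff_alg hF hy'
  have h2 : FiniteDimensional k⟮y⟯ F := by
    obtain ⟨S, hS⟩ := Module.finite_def.1 h1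
    refine Module.finite_def.2 ⟨S, ?_⟩
    rw [eq_top_iff]
    intro z _
    have hz : z ∈ Submodule.span k⟮(y : F)⟯ (S : Set F) := by
      rw [hS]
      trivial
    induction hz using Submodule.span_induction with
    | mem x hx => exact Submodule.subset_span hx
    | zero => exact Submodule.zero_mem _
    | add u v _ _ h3 h4 => exact Submodule.add_mem _ (h3 trivial) (h4 trivial)
    | smul c u _ h3 =>
      have h4 : (c : F) ∈ (k⟮y⟯).map E.val := by
        rw [adjoin_map, Set.image_singleton]
        exact c.2
      obtain ⟨d, hd, hdc⟩ := h4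
      have e : c • u = (⟨d, hd⟩ : k⟮y⟯) • u := by
        show (c : F) * u = _
        rw [← hdc]
        rfl
      rw [e]
      exact Submodule.smul_mem _ _ (h3 trivial)
  have h5 : IsNoetherian k⟮y⟯ F := inferInstance
  let f : E →ₗ[k⟮y⟯] F :=
    { toFun := fun z => (z : F)
      map_add' := fun _ _ => rfl
      map_smul' := fun _ _ => rfl }
  exact Module.Finite.of_injective f Subtype.val_injective

end BAC
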