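import Pool.Agent.BAC.Defs

/-!
BAC, section 8: places of function fields, definitions (with complete proofs).
-/

namespace BAC

open Pool.Agent.Helper32 IntermediateField

variable {k F : Type*} [Field k] [Field F] [Algebra k F]

/-- every repartition is the sum of an integral and a constant one -/
def H1Zero (k F : Type*) [Field k] [Field F] [Algebra k F] : Prop :=
  ∀ r : repartitions k F, r ∈ trivialRepartitions k F

/-- the first cohomology is finite-dimensional -/
def H1Fin (k F : Type*) [Field k] [Field F] [Algebra k F] : Prop :=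
  Module.Finite k (repartitions k F ⧸ trivialRepartitions k F)

/-- the action of an automorphism on places: `a ∈ σ P ↔ σ⁻¹ a ∈ P` -/
def actPl (σ : F ≃ₐ[k] F) (P : Place k F) : Place k F :=
  ⟨P.1.comap (σ.symm : F →+* F), fun c => by
      rw [ValuationSubring.mem_comap]
      simpa using P.2.1 c, fun h => P.2.2 (by
      rw [eq_top_iff]
      intro a _
      have h1 : σ a ∈ P.1.comap (σ.symm : F →+* F) := by rw [h]; trivial
      rw [ValuationSubring.mem_comap] at h1
      simpa using h1)⟩

theorem mem_actPl {σ : F ≃ₐ[k] F} {P : Place k F} {a : F} :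
    a ∈ (actPl σ P).1 ↔ σ.symm a ∈ P.1 := Iff.rfl

theorem top_of_alg {E F : Type*} [Field E] [Field F] [Algebra E F] [Algebra.IsAlgebraic E F]
    {P : ValuationSubring F} (h : ∀ y : E, algebraMap E F y ∈ P) : P = ⊤ := by
  rw [eq_top_iff]
  intro z _
  have hz : IsIntegral E z := Algebra.IsIntegral.isIntegral z
  let ι : E →+* P := (algebraMap E F).codRestrict P.toSubring h
  obtain ⟨q, hq, h0⟩ := hz
  have h1 : IsIntegral P z := by
    refine ⟨q.map ι, hq.map ι, ?_⟩
    rw [Polynomial.eval₂_map]
    exact h0
  obtain ⟨y, hy⟩ := (IsIntegrallyClosed.isIntegral_iff (R := P) (K := F)).mp h1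
  rw [← hy]
  exact y.2

/-- the restriction of a place -/
def resPl (E : IntermediateField k F) [Algebra.IsAlgebraic E F] (P : Place k F) : Place k E :=
  ⟨P.1.comap (algebraMap E F), fun c => by
      rw [ValuationSubring.mem_comap]
      exact P.2.1 c, fun h => P.2.2 (top_of_alg (E := E) fun y => by
      have h1 : y ∈ P.1.comap (algebraMap E F) := by rw [h]; trivial
      rwa [ValuationSubring.mem_comap] at h1)⟩

theorem mem_resPl {E : IntermediateField k F} [Algebra.IsAlgebraic E F] {P : Place k F} {a : E} :
    a ∈ (resPl E P).1 ↔ (a : F) ∈ P.1 := Iff.rfl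

instance finiteDimensional_fixedField (N : Subgroup (F ≃ₐ[k] F)) [Finite N] :
    FiniteDimensional (fixedField N) F :=
  inferInstanceAs (FiniteDimensional (FixedPoints.subfield N F) F)

instance isGalois_fixedField (N : Subgroup (F ≃ₐ[k] F)) [Finite N] :
    IsGalois (fixedField N) F :=
  inferInstanceAs (IsGalois (FixedPoints.subfield N F) F)

theorem fixesPlace_iff {σ : F ≃ₐ[k] F} {P : Place k F} : FixesPlace σ P ↔ actPl σ P = P := by
  constructor
  · intro h
    apply Subtype.ext
    ext a
    rw [mem_actPl]
    have h1 := h (σ.symm a)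
    rw [AlgEquiv.apply_symm_apply] at h1
    exact h1.symm
  · intro h a
    have h1 : σ a ∈ (actPl σ P).1 ↔ σ.symm (σ a) ∈ P.1 := mem_actPl
    rw [AlgEquiv.symm_apply_apply, h] at h1
    exact h1

end BAC
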