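import Pool.Agent.BAC.FFBasic
import Pool.Agent.Helper32.AS23
import Pool.Agent.Helper32.AS24

/-!
BAC / F2 (blueprint section 8). Separating element, discreteness of places, finiteness of poles.

`ff_sep`: Mathlib `exists_isTranscendenceBasis_and_isSeparable_of_perfectField` (file
`FieldTheory/SeparablyGenerated.lean`; `F` is essentially of finite type over `k`); the transcendence basis has
one element by `hF`; `ff_alg`.
`ded`: for `x` as in `ff_sep`: `k[X]` acts on `F` by `aeval x`, `K₀ = adjoin k {x}` is a fraction field of `k[X]`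
(`x` transcendental), `R = integralClosure k[X] F` (`= Rint k x`) is a Dedekind domain with fraction field `F`:
exactly the setting of `Rint_and_partial_fractions` (helper32 AS24) and AS23. A place `P` with `x ∈ P.1` contains `R`, so
`exists_prime_of_valuationSubring` gives `w : HeightOneSpectrum R`, `P.1 = (w.valuation F).valuationSubring`;
`w.valuation F` takes the value `exp (-1)` (`valuation_exists_uniformizer`). Finiteness: `a = b / c`, `b, c ∈ R`,
`c ≠ 0`: `a ∉ P.1` implies `c ∈ w`, and only finitely many `w` divide `(c)` (`Ideal.finite_factors`).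
`place_val`, `finite_poles`: a place contains `x` or `x⁻¹`, and `x⁻¹` has the same properties
(`adjoin k {x⁻¹} = adjoin k {x}`).
-/

namespace BAC

open Pool.Agent.Helper32 IntermediateField WithZero

variable {k F : Type*} [Field k] [IsAlgClosed k] [Field F] [Algebra k F]

open scoped IntermediateField.algebraAdjoinAdjoin in
omit [IsAlgClosed k] in
private theorem ffd_basis {x : F} (hx : Transcendental k x)
    (hfin : FiniteDimensional (IntermediateField.adjoin k {x}) F) :
    IsTranscendenceBasis k (fun _ : Unit => x) := by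
  rw [isTranscendenceBasis_iff_algebraicIndependent_isAlgebraic]
  refine ⟨algebraicIndependent_unique_type_iff.mpr hx, ?_⟩
  rw [Set.range_const]
  have h : Algebra.IsAlgebraic (IntermediateField.adjoin k {x}) F := inferInstance
  exact (IsFractionRing.comap_isAlgebraic_iff (A := Algebra.adjoin k {x})
    (K := IntermediateField.adjoin k {x}) (C := F)).mpr h

theorem ff_sep (hF : IsFunctionField k F) : ∃ x : F, Transcendental k x ∧
    FiniteDimensional (IntermediateField.adjoin k {x}) F ∧
    Algebra.IsSeparable (IntermediateField.adjoin k {x}) F := by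
  obtain ⟨x, hx, hfin⟩ := id hF
  have b1 := ffd_basis hx hfin
  have hE : Algebra.EssFiniteType k F := by
    have h1 : Algebra.EssFiniteType k (IntermediateField.adjoin k {x}) := by
      rw [IntermediateField.essFiniteType_iff]
      exact ⟨{x}, by simp⟩
    exact Algebra.EssFiniteType.comp k (IntermediateField.adjoin k {x}) F
  obtain ⟨s, hs, hsep⟩ := exists_isTranscendenceBasis_and_isSeparable_of_perfectField
    (k := k) (K := F)
  have hc := b1.lift_cardinalMk_eq hs
  have hc1 : s.card = 1 := by
    simpa using hc.symm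
  obtain ⟨y, rfl⟩ := Finset.card_eq_one.mp hc1
  have hy : Transcendental k y := by
    have h1 := hs.1
    exact h1.transcendental ⟨y, by simp⟩
  refine ⟨y, hy, ff_alg hF hy, ?_⟩
  rw [Finset.coe_singleton] at hsep
  exact hsep

theorem ded {x : F} (hx : Transcendental k x)
    [FiniteDimensional (IntermediateField.adjoin k {x}) F]
    [Algebra.IsSeparable (IntermediateField.adjoin k {x}) F] :
    (∀ P : Place k F, x ∈ P.1 → ∃ v : VI F, (∃ t, v t = exp (-1 : ℤ)) ∧
      P.1 = v.valuationSubring) ∧
    ∀ a : F, {P : Place k F | x ∈ P.1 ∧ a ∉ P.1}.Finite := by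
  classical
  let K := IntermediateField.adjoin k {x}
  let y : K := AdjoinSimple.gen k x
  have hy : (y : F) = x := AdjoinSimple.coe_gen k x
  let _ : Algebra (Polynomial k) K :=
    (Polynomial.aeval y : Polynomial k →ₐ[k] K).toRingHom.toAlgebra
  let _ : Algebra (Polynomial k) F :=
    (Polynomial.aeval x : Polynomial k →ₐ[k] F).toRingHom.toAlgebra
  have hmapK : ∀ q : Polynomial k, ((algebraMap (Polynomial k) K q : K) : F) =
      Polynomial.aeval x q := by
    intro q
    have h : (algebraMap (Polynomial k) K q : K) = Polynomial.aeval y q := rfl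
    have h2 : ((Polynomial.aeval y q : K) : F) = algebraMap K F (Polynomial.aeval y q) := rfl
    rw [h, h2, ← Polynomial.aeval_algebraMap_apply]
    rfl
  have hstF : IsScalarTower (Polynomial k) K F := by
    apply IsScalarTower.of_algebraMap_eq
    intro q
    exact (hmapK q).symm
  have hstK : IsScalarTower k (Polynomial k) K := by
    apply IsScalarTower.of_algebraMap_eq
    intro c
    have h : algebraMap (Polynomial k) K (algebraMap k (Polynomial k) c) =
      Polynomial.aeval y (Polynomial.C c) := rfl
    rw [h, Polynomial.aeval_C]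
  have hfaith : FaithfulSMul (Polynomial k) K := by
    rw [faithfulSMul_iff_algebraMap_injective]
    intro a b hab
    have h1 : Polynomial.aeval x a = Polynomial.aeval x b := by
      rw [← hmapK, ← hmapK, hab]
    exact transcendental_iff_injective.mp hx h1
  have hfrac : IsFractionRing (Polynomial k) K := by
    apply IsFractionRing.of_field
    rintro ⟨z, hz⟩
    obtain ⟨r, s, hrs⟩ := (IntermediateField.mem_adjoin_simple_iff k z).mp hz
    refine ⟨r, s, Subtype.ext ?_⟩
    rw [IntermediateField.coe_div, hmapK, hmapK]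
    exact hrs
  let R := integralClosure (Polynomial k) F
  have hD : IsDedekindDomain R := integralClosure.isDedekindDomain (Polynomial k) K F
  have hFr : IsFractionRing R F :=
    integralClosure.isFractionRing_of_finite_extension (A := Polynomial k) K F
  have hRV : ∀ V : ValuationSubring F, (∀ c : k, algebraMap k F c ∈ V) → x ∈ V →
      ∀ r : R, algebraMap R F r ∈ V := by
    intro V hk hxV r
    exact Rint_le_valuationSubring V hk hxV r.2
  have hVR : ∀ V : ValuationSubring F, (∀ r : R, algebraMap R F r ∈ V) →
      (∀ c : k, algebraMap k F c ∈ V) ∧ x ∈ V := by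
    intro V hr
    refine ⟨fun c => ?_, ?_⟩
    · exact hr ⟨algebraMap k F c, (Rint k x).algebraMap_mem c⟩
    · exact hr ⟨x, self_mem_Rint x⟩
  have hP : ∀ P : Place k F, x ∈ P.1 → ∃ w : IsDedekindDomain.HeightOneSpectrum R,
      P.1 = (w.valuation F).valuationSubring := by
    intro P hxP
    exact exists_prime_of_valuationSubring (R := R) (hRV P.1 P.2.1 hxP) P.2.2
  constructor
  · intro P hxP
    obtain ⟨w, hw⟩ := hP P hxP
    exact ⟨w.valuation F, w.valuation_exists_uniformizer F, hw⟩
  · intro a
    obtain ⟨b, c, hc, rfl⟩ := IsFractionRing.div_surjective (A := R) a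
    have hc0 : c ≠ 0 := nonZeroDivisors.ne_zero hc
    have hI : Ideal.span {c} ≠ 0 := by
      rw [ne_eq, Ideal.zero_eq_bot, Ideal.span_singleton_eq_bot]; exact hc0
    have hfin : {v : IsDedekindDomain.HeightOneSpectrum R |
        v.asIdeal ∣ Ideal.span {c}}.Finite := Ideal.finite_factors hI
    let g : IsDedekindDomain.HeightOneSpectrum R → Place k F := fun w =>
      ⟨(w.valuation F).valuationSubring, (hVR _ (algebraMap_mem_val w)).1, val_ne_top w⟩
    refine (hfin.image g).subset ?_
    rintro P ⟨hxP, haP⟩
    obtain ⟨w, hw⟩ := hP P hxP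
    refine ⟨w, ?_, Subtype.ext hw.symm⟩
    by_contra hcon
    apply haP
    have hcon' : ¬ w.asIdeal ∣ Ideal.span {c} := hcon
    rw [← w.intValuation_lt_one_iff_dvd, not_lt] at hcon'
    have h1 : w.intValuation c = 1 := le_antisymm (w.intValuation_le_one c) hcon'
    rw [hw, Valuation.mem_valuationSubring_iff, map_div₀, w.valuation_of_algebraMap,
      w.valuation_of_algebraMap, h1, div_one]
    exact w.intValuation_le_one b

private theorem ffd_pair (hF : IsFunctionField k F) : ∃ x : F,
    ((∀ P : Place k F, x ∈ P.1 → ∃ v : VI F, (∃ t, v t = exp (-1 : ℤ)) ∧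
      P.1 = v.valuationSubring) ∧ ∀ a : F, {P : Place k F | x ∈ P.1 ∧ a ∉ P.1}.Finite) ∧
    ((∀ P : Place k F, x⁻¹ ∈ P.1 → ∃ v : VI F, (∃ t, v t = exp (-1 : ℤ)) ∧
      P.1 = v.valuationSubring) ∧ ∀ a : F, {P : Place k F | x⁻¹ ∈ P.1 ∧ a ∉ P.1}.Finite) := by
  obtain ⟨x, hx, hfin, hsep⟩ := ff_sep hF
  refine ⟨x, ded hx, ?_⟩
  have hadj : IntermediateField.adjoin k {x⁻¹} = IntermediateField.adjoin k {x} := by
    apply le_antisymm
    · rw [IntermediateField.adjoin_simple_le_iff]
      exact inv_mem (IntermediateField.mem_adjoin_simple_self k x)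
    · rw [IntermediateField.adjoin_simple_le_iff]
      simpa using inv_mem (IntermediateField.mem_adjoin_simple_self k x⁻¹)
  have hx' : Transcendental k x⁻¹ := by
    intro h
    exact hx (by simpa using h.inv)
  have hfin' : FiniteDimensional (IntermediateField.adjoin k {x⁻¹}) F := by
    rw [hadj]; exact hfin
  have hsep' : Algebra.IsSeparable (IntermediateField.adjoin k {x⁻¹}) F := by
    rw [hadj]; exact hsep
  exact ded hx'

theorem place_val (hF : IsFunctionField k F) (P : Place k F) :
    ∃ v : VI F, (∃ t, v t = exp (-1 : ℤ)) ∧ P.1 = v.valuationSubring := by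
  obtain ⟨x, h1, h2⟩ := ffd_pair hF
  rcases P.1.mem_or_inv_mem x with h | h
  · exact h1.1 P h
  · exact h2.1 P h

theorem finite_poles (hF : IsFunctionField k F) (a : F) : {P : Place k F | a ∉ P.1}.Finite := by
  obtain ⟨x, h1, h2⟩ := ffd_pair hF
  refine ((h1.2 a).union (h2.2 a)).subset ?_
  intro P hP
  rcases P.1.mem_or_inv_mem x with h | h
  · exact Or.inl ⟨h, hP⟩
  · exact Or.inr ⟨h, hP⟩

end BAC
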