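import Pool.Agent.BAC.FFDefs
import Pool.Agent.Helper32.AS23
import Pool.Agent.Helper32.AS24

/-!
BAC / F10 (blueprint 8.5). The trace one element from a free action.

`K = k(x)`, `F / K` finite Galois with group `G` acting freely on the places containing `x`.
`R` = integral closure of `k[x]` in `F`. If no element of `R` has trace one, the traces of all
elements of `R` are in `(x - a)` for some `a ∈ k`; take a maximal ideal `Q` of `R` above `(x - a)`,
and `θ ∈ R`, `θ ∉ Q`, `g θ ∈ Q` for `g ≠ 1`: contradiction.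
-/

namespace BAC

open Polynomial Pool.Agent.Helper32 IntermediateField IsDedekindDomain

private theorem frac_poly {k K : Type*} [Field k] [Field K] [Algebra k K] {x : K}
    (hgen : IntermediateField.adjoin k {x} = ⊤) (htr : Transcendental k x)
    [Algebra k[X] K] (hA : ∀ q : k[X], algebraMap k[X] K q = aeval x q) :
    IsFractionRing k[X] K := by
  have hinj : Function.Injective (algebraMap k[X] K) := by
    rw [injective_iff_map_eq_zero]
    intro q hq
    rw [hA] at hq
    exact (transcendental_iff.1 htr) q hq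
  have : FaithfulSMul k[X] K := (faithfulSMul_iff_algebraMap_injective k[X] K).2 hinj
  refine IsFractionRing.of_field k[X] K ?_
  intro z
  have hz : z ∈ IntermediateField.adjoin k {x} := by rw [hgen]; trivial
  obtain ⟨r, s, hrs⟩ := (IntermediateField.mem_adjoin_simple_iff k z).1 hz
  exact ⟨r, s, by rw [hA, hA]; exact hrs⟩

section

variable {k K F : Type*} [Field k] [IsAlgClosed k] [Field K] [Field F]
    [Algebra K F] [Algebra k F] [FiniteDimensional K F] [IsGalois K F]
    {x : K} [Algebra k[X] K] [IsFractionRing k[X] K] [Algebra k[X] F] [IsScalarTower k[X] K F]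

open Classical in
private theorem aux
    (hF : ∀ q : k[X], algebraMap k[X] F q = aeval (algebraMap K F x) q)
    (hfree : ∀ σ : F ≃ₐ[K] F, σ ≠ 1 → ∀ V : ValuationSubring F,
      (∀ c : k, algebraMap k F c ∈ V) → V ≠ ⊤ → algebraMap K F x ∈ V →
      ¬ ∀ a, σ a ∈ V ↔ a ∈ V) :
    ∃ θ ∈ Rint k (algebraMap K F x), Algebra.trace K F θ = 1 := by
  let R := integralClosure k[X] F
  have hD : IsDedekindDomain R := integralClosure.isDedekindDomain k[X] K F
  have hFr : IsFractionRing R F := integralClosure.isFractionRing_of_finite_extension (A := k[X]) K F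
  have hmem : ∀ b : F, b ∈ Rint k (algebraMap K F x) ↔ b ∈ R := by
    intro b
    rw [mem_Rint, mem_integralClosure_iff]
    have : algebraMap k[X] F = (aeval (algebraMap K F x) : k[X] →ₐ[k] F).toRingHom := by
      ext q <;> simp [hF]
    rw [IsIntegral, this]
  -- the ideal of traces
  let I : Ideal k[X] :=
    { carrier := {q | ∃ b : R, Algebra.trace K F (b : F) = algebraMap k[X] K q}
      zero_mem' := ⟨0, by simp⟩
      add_mem' := by
        rintro q r ⟨b, hb⟩ ⟨c, hc⟩
        exact ⟨b + c, by simp [hb, hc]⟩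
      smul_mem' := by
        rintro q r ⟨b, hb⟩
        refine ⟨q • b, ?_⟩
        have h1 : ((q • b : R) : F) = algebraMap k[X] K q • (b : F) := by
          rw [algebraMap_smul]
          rfl
        rw [h1, map_smul, hb, smul_eq_mul, smul_eq_mul, map_mul] }
  have hI : ∀ q, q ∈ I ↔ ∃ b : R, Algebra.trace K F (b : F) = algebraMap k[X] K q :=
    fun q => Iff.rfl
  by_cases h1 : (1 : k[X]) ∈ I
  · obtain ⟨b, hb⟩ := (hI 1).1 h1
    exact ⟨b, (hmem b).2 b.2, by rw [hb, map_one]⟩
  exfalso
  -- a root of all traces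
  obtain ⟨a, ha⟩ : ∃ a : k, ∀ q ∈ I, q.eval a = 0 := by
    let g := Submodule.IsPrincipal.generator I
    have hg : ∀ q ∈ I, g ∣ q := fun q hq => (Submodule.IsPrincipal.mem_iff_generator_dvd I).1 hq
    by_cases h0 : g.degree = 0
    · exfalso
      have hu : IsUnit g := Polynomial.isUnit_iff_degree_eq_zero.2 h0
      have h2 : g ∈ I := Submodule.IsPrincipal.generator_mem I
      exact h1 ((Ideal.eq_top_iff_one I).1 (Ideal.eq_top_of_isUnit_mem I h2 hu))
    · obtain ⟨a, ha⟩ := IsAlgClosed.exists_root g h0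
      exact ⟨a, fun q hq => Polynomial.IsRoot.dvd ha (hg q hq)⟩
  -- a maximal ideal above
  let P : Ideal k[X] := RingHom.ker (evalRingHom a)
  have hP : P.IsMaximal := RingHom.ker_isMaximal_of_surjective _ (fun c => ⟨C c, by simp⟩)
  have hinjF : Function.Injective (algebraMap k[X] F) := by
    rw [IsScalarTower.algebraMap_eq k[X] K F]
    exact (algebraMap K F).injective.comp (IsFractionRing.injective k[X] K)
  have hinjR : Function.Injective (algebraMap k[X] R) := by
    intro u v huv
    apply hinjF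
    rw [IsScalarTower.algebraMap_apply k[X] R F, huv, ← IsScalarTower.algebraMap_apply k[X] R F]
  obtain ⟨Q, hQ, hQP⟩ := Ideal.exists_ideal_over_maximal_of_isIntegral (S := R) P (by
    rw [(RingHom.injective_iff_ker_eq_bot _).1 hinjR]; exact bot_le)
  have hQbot : Q ≠ ⊥ := by
    intro h
    have h2 : (X - C a : k[X]) ∈ Q.comap (algebraMap k[X] R) := by
      rw [hQP]
      simp [P, RingHom.mem_ker]
    rw [h, Ideal.mem_comap, Ideal.mem_bot] at h2
    have h3 := hinjR (h2.trans (map_zero _).symm)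
    exact X_sub_C_ne_zero a h3
  let w : HeightOneSpectrum R := ⟨Q, hQ.isPrime, hQbot⟩
  let V : ValuationSubring F := (w.valuation F).valuationSubring
  have hVk : ∀ c : k, algebraMap k F c ∈ V := by
    intro c
    exact algebraMap_mem_val w ⟨algebraMap k F c, (hmem _).1 ((Rint k _).algebraMap_mem c)⟩
  have hVx : algebraMap K F x ∈ V :=
    algebraMap_mem_val w ⟨algebraMap K F x, (hmem _).1 (self_mem_Rint _)⟩
  have hVtop : V ≠ ⊤ := val_ne_top w
  let gr := galRestrict k[X] K F R
  have hgr : ∀ (σ : F ≃ₐ[K] F) (r : R), ((gr σ r : R) : F) = σ (r : F) := by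
    intro σ r
    exact algebraMap_galRestrict_apply k[X] σ r
  -- automorphisms preserving Q preserve V
  have hpres : ∀ σ : F ≃ₐ[K] F, (∀ r : R, gr σ r ∈ Q ↔ r ∈ Q) → ∀ a, a ∈ V → σ a ∈ V := by
    intro σ hσ z hz
    obtain ⟨n, d, hnd⟩ := w.exists_primeCompl_mul_eq_of_integer z hz
    have h2 : σ z * algebraMap R F (gr σ d) = algebraMap R F (gr σ n) := by
      have := congrArg σ hnd
      rw [map_mul] at this
      rw [algebraMap_galRestrict_apply, algebraMap_galRestrict_apply]
      exact this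
    have hd : gr σ (d : R) ∉ Q := fun h => d.2 ((hσ d).1 h)
    have h3 : w.valuation F (algebraMap R F (gr σ d)) = 1 := by
      rw [w.valuation_of_algebraMap]
      apply le_antisymm (w.intValuation_le_one _)
      rw [← not_lt, w.intValuation_lt_one_iff_dvd, Ideal.dvd_span_singleton]
      exact hd
    show w.valuation F (σ z) ≤ 1
    have h4 : w.valuation F (σ z) = w.valuation F (algebraMap R F (gr σ n)) := by
      rw [← h2, map_mul, h3, mul_one]
    rw [h4]
    exact w.valuation_le_one _
  have hne : ∀ σ : F ≃ₐ[K] F, σ ≠ 1 → ∃ r : R, gr σ r ∈ Q ∧ r ∉ Q := by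
    intro σ hσ
    by_contra hcon
    push Not at hcon
    have hmax : (Q.comap (gr σ : R ≃+* R)).IsMaximal := Ideal.comap_isMaximal_of_equiv _
    have hle : Q.comap (gr σ : R ≃+* R) ≤ Q := fun r hr => hcon r hr
    have heq := hmax.eq_of_le hQ.ne_top hle
    have hiff : ∀ r : R, gr σ r ∈ Q ↔ r ∈ Q := by
      intro r
      constructor
      · exact hcon r
      · intro hr
        rw [← heq] at hr
        exact hr
    apply hfree σ hσ V hVk hVtop hVx
    intro z
    constructor
    · intro hz
      have h2 := hpres σ⁻¹ (fun r => by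
        have h3 := hiff (gr σ⁻¹ r)
        have h4 : gr σ (gr σ⁻¹ r) = r := by
          rw [← AlgEquiv.mul_apply, ← map_mul, mul_inv_cancel, map_one]
          rfl
        rw [h4] at h3
        exact h3.symm) _ hz
      have h5 : σ⁻¹ (σ z) = z := by
        rw [← AlgEquiv.mul_apply, inv_mul_cancel]
        rfl
      rwa [h5] at h2
    · exact hpres σ hiff z
  choose! r hr1 hr2 using hne
  let θ : R := ∏ σ ∈ Finset.univ.erase (1 : F ≃ₐ[K] F), r σ
  have hθ : θ ∉ Q := by
    intro h
    obtain ⟨σ, hσ, h2⟩ := (hQ.isPrime.prod_mem_iff).1 h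
    exact hr2 σ (Finset.ne_of_mem_erase hσ) h2
  have hθ' : ∀ σ : F ≃ₐ[K] F, σ ≠ 1 → gr σ θ ∈ Q := by
    intro σ hσ
    rw [map_prod]
    exact (hQ.isPrime.prod_mem_iff).2 ⟨σ, Finset.mem_erase.2 ⟨hσ, Finset.mem_univ _⟩, hr1 σ hσ⟩
  have hint : IsIntegral k[X] (Algebra.trace K F (θ : F)) := Algebra.isIntegral_trace θ.2
  obtain ⟨q, hq⟩ := (IsIntegrallyClosed.isIntegral_iff (R := k[X]) (K := K)).1 hint
  have hqI : q ∈ I := (hI q).2 ⟨θ, hq.symm⟩
  have hqQ : algebraMap k[X] R q ∈ Q := by
    have : q ∈ Q.comap (algebraMap k[X] R) := by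
      rw [hQP]
      exact ha q hqI
    exact this
  have hsum : algebraMap k[X] R q = θ + ∑ σ ∈ Finset.univ.erase (1 : F ≃ₐ[K] F), gr σ θ := by
    apply Subtype.ext
    have h2 := trace_eq_sum_automorphisms (K := K) (θ : F)
    rw [← hq, ← IsScalarTower.algebraMap_apply k[X] K F] at h2
    have h3 : ((algebraMap k[X] R q : R) : F) = algebraMap k[X] F q := rfl
    rw [h3, h2, ← Finset.add_sum_erase Finset.univ _ (Finset.mem_univ (1 : F ≃ₐ[K] F))]
    push_cast
    congr 1
    refine Finset.sum_congr rfl fun σ _ => ?_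
    rw [hgr]
  apply hθ
  have h4 : θ = algebraMap k[X] R q - ∑ σ ∈ Finset.univ.erase (1 : F ≃ₐ[K] F), gr σ θ := by
    rw [hsum]; ring
  rw [h4]
  exact Q.sub_mem hqQ (Q.sum_mem fun σ hσ => hθ' σ (Finset.ne_of_mem_erase hσ))

end

theorem trOne_free {k K F : Type*} [Field k] [IsAlgClosed k] [Field K] [Field F] [Algebra k K]
    [Algebra K F] [Algebra k F] [IsScalarTower k K F] [FiniteDimensional K F] [IsGalois K F]
    {x : K} (hgen : IntermediateField.adjoin k {x} = ⊤) (htr : Transcendental k x)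
    (hfree : ∀ σ : F ≃ₐ[K] F, σ ≠ 1 → ∀ V : ValuationSubring F,
      (∀ c : k, algebraMap k F c ∈ V) → V ≠ ⊤ → algebraMap K F x ∈ V →
      ¬ ∀ a, σ a ∈ V ↔ a ∈ V) :
    ∃ θ ∈ Rint k (algebraMap K F x), Algebra.trace K F θ = 1 := by
  let _ : Algebra k[X] K := (aeval x : k[X] →ₐ[k] K).toRingHom.toAlgebra
  let _ : Algebra k[X] F := (aeval (algebraMap K F x) : k[X] →ₐ[k] F).toRingHom.toAlgebra
  have hA : ∀ q : k[X], algebraMap k[X] K q = aeval x q := fun q => rfl
  have hF : ∀ q : k[X], algebraMap k[X] F q = aeval (algebraMap K F x) q := fun q => rfl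
  have : IsFractionRing k[X] K := frac_poly hgen htr hA
  have : IsScalarTower k[X] K F := IsScalarTower.of_algebraMap_eq fun q => by
    rw [hA, hF, aeval_algebraMap_apply]
  exact aux hF hfree

end BAC
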