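import Pool.Agent.BAC.FFDisc
import Pool.Agent.Helper32.AS12
import Pool.Agent.Helper32.AS22

/-!
BAC / F9 (blueprint 8.4). Genus zero: `K = k(x)`.

`gen_of_h1zero`: `v` = valuation of `P₀` (`place_val`), residue field `k` (`ff_res`). `R₀` = elements of `K` in all
`P.1`, `P ≠ P₀`. For `a ∈ K` the family `P₀ ↦ a`, `P ↦ 0` is a repartition, so `a = f + o` with `f ∈ R₀`, `o ∈ P₀.1`
(the constant is `f`; integral part at `P₀`: `a - f`, elsewhere `-f`). Take `a` with `v a = exp 1` (inverse of a
uniformizer): `x := f` has `v x = exp 1`, so `x ∉ P₀.1`, `x ∈ R₀`, transcendental (`x ∉ k`: `k ⊆ P₀.1`, `k`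
algebraically closed). `R₀ = k[x]`: for `f ∈ R₀` with `v f ≤ exp j`: induction on `j`: there is `c ∈ k` with
`v (f - c x^j) ≤ exp (j-1)` (`ff_res` for `f / x^j`); `j = 0`: `f` is in all places, `ff_const`. Let `a ∈ K`: it has finitely
many poles `P ≠ P₀` (`finite_poles`); for each there is `c_P ∈ k` with `x - c_P` in the maximal ideal of `P`
(`ff_res`), and `(x - c_P)^m a ∈ P.1` for large `m` (`place_val`). So `a ∏ (x - c_P)^m ∈ R₀ = k[x]` and
`a ∈ k(x)`.
`exists_base`: `K ≃ₐ[k] RatFunc k` sending `x` to `X`; transport `base_level p` (AS22) by `IsLevel.transport` (AS12).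
`base_place`: from `B.lev.unique`: a valuation subring containing `k` and not `x` is `vK.valuationSubring`.
-/

namespace BAC

open Pool.Agent.Helper32 IntermediateField

variable {k K : Type*} [Field k] [IsAlgClosed k] [Field K] [Algebra k K]

private lemma alg_const {x : K} (h : ¬ Transcendental k x) : ∃ c : k, x = algebraMap k K c := by
  have hx : IsIntegral k x := by
    have h1 : IsAlgebraic k x := not_not.mp h
    exact h1.isIntegral
  have h1 : (minpoly k x).degree = 1 :=
    IsAlgClosed.degree_eq_one_of_irreducible k (minpoly.irreducible hx)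
  obtain ⟨c, hc⟩ := minpoly.mem_range_of_degree_eq_one k x h1
  exact ⟨c, hc.symm⟩

omit [IsAlgClosed k] in
private lemma val_lt {P : Place k K} {v : VI K} (hPv : P.1 = v.valuationSubring) {z : K}
    (hz : P.1.valuation z < 1) : v z < 1 := by
  by_contra hlt
  have h1 : 1 ≤ v z := not_lt.mp hlt
  have hz0 : z ≠ 0 := by
    rintro rfl
    rw [map_zero] at h1
    exact absurd h1 (by simp)
  have h2 : v z⁻¹ ≤ 1 := by
    rw [map_inv₀]
    exact inv_le_one_of_one_le₀ h1
  have h3 : z⁻¹ ∈ P.1 := by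
    rw [hPv]
    exact (Valuation.mem_valuationSubring_iff v _).mpr h2
  have h4 := (ValuationSubring.valuation_le_one_iff P.1 z⁻¹).mpr h3
  rw [map_inv₀] at h4
  have h5 : P.1.valuation z ≠ 0 := (Valuation.ne_zero_iff _).mpr hz0
  have h6 : P.1.valuation z * (P.1.valuation z)⁻¹ < 1 := by
    calc P.1.valuation z * (P.1.valuation z)⁻¹ ≤ P.1.valuation z * 1 :=
          mul_le_mul_right h4 _
      _ < 1 := by rw [mul_one]; exact hz
  rw [mul_inv_cancel₀ h5] at h6
  exact lt_irrefl _ h6

omit [IsAlgClosed k] in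
private lemma split_fam (h : H1Zero k K) (P₀ : Place k K) (a : K) :
    ∃ f : K, (∀ P : Place k K, P ≠ P₀ → f ∈ P.1) ∧ a - f ∈ P₀.1 := by
  classical
  let r : Place k K → K := fun P => if P = P₀ then a else 0
  have hr : r ∈ repartitions k K := by
    change {P : Place k K | r P ∉ P.1}.Finite
    refine (Set.finite_singleton P₀).subset ?_
    intro P hP
    by_contra hne
    refine hP ?_
    have h1 : r P = 0 := if_neg hne
    rw [h1]
    exact zero_mem _
  have h1 := h ⟨r, hr⟩
  rw [trivialRepartitions, Submodule.mem_comap] at h1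
  obtain ⟨o, ho, g, ⟨f, hf⟩, hog⟩ := Submodule.mem_sup.mp h1
  have hrP : ∀ P, o P + f = r P := by
    intro P
    have h2 := congrFun hog P
    rw [Pi.add_apply, hf P] at h2
    exact h2
  refine ⟨f, ?_, ?_⟩
  · intro P hP
    have h2 := hrP P
    have h3 : r P = 0 := if_neg hP
    rw [h3] at h2
    have h4 : f = -o P := by linear_combination h2
    rw [h4]
    exact neg_mem (ho P)
  · have h2 := hrP P₀
    have h3 : r P₀ = a := if_pos rfl
    rw [h3] at h2
    have h4 : a - f = o P₀ := by linear_combination -h2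
    rw [h4]
    exact ho P₀

open WithZero in
private lemma poly_of (hK : IsFunctionField k K) (P₀ : Place k K) {v : VI K}
    (hPv : P₀.1 = v.valuationSubring) {x : K} (hvx : v x = exp (1 : ℤ))
    (hx : ∀ P : Place k K, P ≠ P₀ → x ∈ P.1) (j : ℕ) :
    ∀ f : K, (∀ P : Place k K, P ≠ P₀ → f ∈ P.1) → v f ≤ exp (j : ℤ) →
      f ∈ IntermediateField.adjoin k {x} := by
  have hmem : ∀ a, a ∈ P₀.1 ↔ v a ≤ 1 := by
    intro a
    rw [hPv]
    exact Valuation.mem_valuationSubring_iff v a
  have hx0 : x ≠ 0 := by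
    rintro rfl
    rw [map_zero] at hvx
    exact exp_ne_zero hvx.symm
  have hxF : x ∈ IntermediateField.adjoin k {x} := IntermediateField.mem_adjoin_simple_self k x
  induction j with
  | zero =>
    intro f hf hvf
    have h1 : ∀ P : Place k K, f ∈ P.1 := by
      intro P
      by_cases hP : P = P₀
      · subst hP
        rw [hmem]
        simpa using hvf
      · exact hf P hP
    obtain ⟨c, hc⟩ := ff_const h1
    rw [hc]
    exact (IntermediateField.adjoin k {x}).algebraMap_mem c
  | succ j ih =>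
    intro f hf hvf
    have hvxp : v (x ^ (j + 1)) = exp ((j : ℤ) + 1) := by
      rw [map_pow, hvx, ← exp_nsmul]
      congr 1
      simp
    have h1 : v (f / x ^ (j + 1)) ≤ 1 := by
      rw [map_div₀, hvxp]
      have h2 : v f ≤ exp ((j : ℤ) + 1) := by simpa using hvf
      exact div_le_one_of_le₀ h2 zero_le
    obtain ⟨c, hc⟩ := ff_res hK P₀ ((hmem _).mpr h1)
    have hc1 := val_lt hPv hc
    have h3 : f - algebraMap k K c * x ^ (j + 1) =
        (f / x ^ (j + 1) - algebraMap k K c) * x ^ (j + 1) := by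
      field_simp
    have h4 : v (f - algebraMap k K c * x ^ (j + 1)) ≤ exp (j : ℤ) := by
      rw [← lt_mul_exp_iff_le exp_ne_zero, ← exp_add, h3, map_mul, hvxp]
      calc v (f / x ^ (j + 1) - algebraMap k K c) * exp ((j : ℤ) + 1)
          < 1 * exp ((j : ℤ) + 1) := mul_lt_mul_of_pos_right hc1 exp_pos
        _ = exp ((j : ℤ) + 1) := one_mul _
    have h5 : ∀ P : Place k K, P ≠ P₀ → f - algebraMap k K c * x ^ (j + 1) ∈ P.1 := fun P hP =>
      sub_mem (hf P hP) (mul_mem (P.2.1 c) (pow_mem (hx P hP) _))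
    have h6 := ih _ h5 h4
    have h7 : f = (f - algebraMap k K c * x ^ (j + 1)) + algebraMap k K c * x ^ (j + 1) := by ring
    rw [h7]
    exact add_mem h6 (mul_mem ((IntermediateField.adjoin k {x}).algebraMap_mem c) (pow_mem hxF _))

open WithZero in
private lemma one_pole (hK : IsFunctionField k K) (P : Place k K) {x : K} (hxP : x ∈ P.1)
    (hxc : ∀ c : k, x ≠ algebraMap k K c) (a : K) :
    ∃ (c : k) (n : ℕ), x - algebraMap k K c ≠ 0 ∧ (x - algebraMap k K c) ^ n * a ∈ P.1 := by
  obtain ⟨w, -, hPw⟩ := place_val hK P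
  obtain ⟨c, hc⟩ := ff_res hK P hxP
  have hc1 := val_lt hPw hc
  have hne : x - algebraMap k K c ≠ 0 := sub_ne_zero.mpr (hxc c)
  have hle : w (x - algebraMap k K c) ≤ exp (-1 : ℤ) := by
    rw [← lt_mul_exp_iff_le exp_ne_zero, ← exp_add]
    simpa using hc1
  refine ⟨c, (log (w a)).toNat, hne, ?_⟩
  rw [hPw, Valuation.mem_valuationSubring_iff, map_mul, map_pow]
  have h1 : w (x - algebraMap k K c) ^ (log (w a)).toNat ≤ exp (-((log (w a)).toNat : ℤ)) := by
    calc w (x - algebraMap k K c) ^ (log (w a)).toNat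
        ≤ exp (-1 : ℤ) ^ (log (w a)).toNat := pow_le_pow_left₀ zero_le hle _
      _ = exp (-((log (w a)).toNat : ℤ)) := by
        rw [← exp_nsmul]
        congr 1
        simp
  have h2 : w a ≤ exp ((log (w a)).toNat : ℤ) := by
    refine le_trans le_exp_log ?_
    rw [exp_le_exp]
    exact Int.self_le_toNat _
  calc w (x - algebraMap k K c) ^ (log (w a)).toNat * w a
      ≤ exp (-((log (w a)).toNat : ℤ)) * exp ((log (w a)).toNat : ℤ) :=
        mul_le_mul' h1 h2
    _ = 1 := by rw [← exp_add]; simp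

theorem gen_of_h1zero (hK : IsFunctionField k K) (h : H1Zero k K) (P₀ : Place k K) :
    ∃ x : K, IntermediateField.adjoin k {x} = ⊤ ∧ Transcendental k x ∧ x ∉ P₀.1 ∧
      ∀ P : Place k K, P ≠ P₀ → x ∈ P.1 := by
  classical
  obtain ⟨v, ⟨t, ht⟩, hPv⟩ := place_val hK P₀
  have hmem : ∀ a, a ∈ P₀.1 ↔ v a ≤ 1 := by
    intro a
    rw [hPv]
    exact Valuation.mem_valuationSubring_iff v a
  obtain ⟨x, hx, hx0⟩ := split_fam h P₀ t⁻¹
  have hvt : v t⁻¹ = WithZero.exp (1 : ℤ) := by
    rw [map_inv₀, ht, ← WithZero.exp_neg]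
    simp
  have hvx : v x = WithZero.exp (1 : ℤ) := by
    have h1 : v (t⁻¹ - x) < v t⁻¹ := by
      refine lt_of_le_of_lt ((hmem _).mp hx0) ?_
      rw [hvt, ← WithZero.exp_zero, WithZero.exp_lt_exp]
      norm_num
    have h2 := Valuation.map_sub_eq_of_lt_right v h1
    have h3 : x = t⁻¹ - (t⁻¹ - x) := by ring
    rw [h3, Valuation.map_sub_swap, h2, hvt]
  have hxP : x ∉ P₀.1 := by
    rw [hmem, hvx, ← WithZero.exp_zero, WithZero.exp_le_exp]
    norm_num
  have hxc : ∀ c : k, x ≠ algebraMap k K c := by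
    intro c hc
    rw [hc] at hxP
    exact hxP (P₀.2.1 c)
  have htr : Transcendental k x := by
    by_contra hn
    obtain ⟨c, hc⟩ := alg_const hn
    exact hxc c hc
  refine ⟨x, ?_, htr, hxP, hx⟩
  have hxF : x ∈ IntermediateField.adjoin k {x} := IntermediateField.mem_adjoin_simple_self k x
  rw [eq_top_iff]
  intro a _
  have key : ∀ T : Finset (Place k K), (∀ P ∈ T, P ≠ P₀) →
      ∃ D : K, D ∈ IntermediateField.adjoin k {x} ∧ D ≠ 0 ∧
        (∀ P : Place k K, P ≠ P₀ → D ∈ P.1) ∧ ∀ P ∈ T, D * a ∈ P.1 := by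
    intro T
    induction T using Finset.induction_on with
    | empty =>
      intro _
      exact ⟨1, one_mem _, one_ne_zero, fun P _ => one_mem _, fun P hP => by simp at hP⟩
    | insert Q T hQ ih =>
      intro hT
      obtain ⟨D, hD, hD0, hDP, hDa⟩ := ih fun P hP => hT P (Finset.mem_insert_of_mem hP)
      obtain ⟨c, n, hne, hcn⟩ := one_pole hK Q (hx Q (hT Q (Finset.mem_insert_self Q T))) hxc a
      refine ⟨D * (x - algebraMap k K c) ^ n, ?_, mul_ne_zero hD0 (pow_ne_zero _ hne), ?_, ?_⟩
      · exact mul_mem hD (pow_mem (sub_mem hxF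
          ((IntermediateField.adjoin k {x}).algebraMap_mem c)) _)
      · intro P hP
        exact mul_mem (hDP P hP) (pow_mem (sub_mem (hx P hP) (P.2.1 c)) _)
      · intro P hP
        rcases Finset.mem_insert.mp hP with rfl | hP'
        · have h1 : D * (x - algebraMap k K c) ^ n * a = D * ((x - algebraMap k K c) ^ n * a) := by
            ring
          rw [h1]
          exact mul_mem (hDP P (hT P hP)) hcn
        · have h1 : D * (x - algebraMap k K c) ^ n * a = (x - algebraMap k K c) ^ n * (D * a) := by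
            ring
          rw [h1]
          exact mul_mem (pow_mem (sub_mem (hx P (hT P hP)) (P.2.1 c)) _) (hDa P hP')
  obtain ⟨D, hD, hD0, hDP, hDa⟩ := key ((finite_poles hK a).toFinset.erase P₀)
    (fun P hP => (Finset.mem_erase.mp hP).1)
  have hb : ∀ P : Place k K, P ≠ P₀ → D * a ∈ P.1 := by
    intro P hP
    by_cases haP : a ∈ P.1
    · exact mul_mem (hDP P hP) haP
    · exact hDa P (Finset.mem_erase.mpr ⟨hP, (Set.Finite.mem_toFinset _).mpr haP⟩)
  have hb2 : v (D * a) ≤ WithZero.exp (((WithZero.log (v (D * a))).toNat : ℕ) : ℤ) := by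
    refine le_trans WithZero.le_exp_log ?_
    rw [WithZero.exp_le_exp]
    exact Int.self_le_toNat _
  have hb3 := poly_of hK P₀ hPv hvx hx _ (D * a) hb hb2
  have h1 : a = D⁻¹ * (D * a) := by field_simp
  rw [h1]
  exact mul_mem (inv_mem hD) hb3

theorem exists_base {p : ℕ} [hp : Fact p.Prime] [CharP k p] {x : K}
    (hgen : IntermediateField.adjoin k {x} = ⊤) (htr : Transcendental k x) :
    ∃ vK : VI K, Base p k x vK := by
  let φ : RatFunc k ≃ₐ[k] K := (RatFunc.algEquivOfTranscendental x htr).trans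
    ((IntermediateField.equivOfEq hgen).trans IntermediateField.topEquiv)
  have hφ : φ (RatFunc.X : RatFunc k) = x := by
    have h2 : ((RatFunc.algEquivOfTranscendental x htr (RatFunc.X : RatFunc k) :
        IntermediateField.adjoin k {x}) : K) = x := by simp
    exact h2
  have h1 := (base_level (k := k) p).transport φ
  rw [hφ] at h1
  exact ⟨_, h1, hgen, htr⟩

end BAC
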