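import Pool.Agent.BAC.FFInd
import Pool.Agent.BAC.FFZero
import Pool.Agent.BAC.FFTr
import Pool.Agent.BAC.GenusU
import Pool.Agent.BAC.HomField

/-!
BAC / F11 (blueprint 8.6). From a big action to a field of the class `U`.
-/

namespace BAC

open Polynomial WithZero Pool.Agent.Helper32 IntermediateField

universe u

section general

variable {p : ℕ} [hp : Fact p.Prime] {k K F Ω : Type u} [Field k] [IsAlgClosed k] [CharP k p]
  [Field K] [Field F] [Field Ω] [Algebra k K] [Algebra K F] [Algebra k F] [IsScalarTower k K F]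
  [Algebra K Ω] [Algebra k Ω] [IsScalarTower k K Ω] [CharP K p] [CharP Ω p] [IsSepClosure K Ω]
  [FiniteDimensional K F] [IsGalois K F]

private theorem uu_gen {x : K} {vK : VI K} (B : Base p k x vK) {D : Derivation k Ω Ω}
    (hD : D (algebraMap K Ω x) = 1) (P : Place k F) (hxP : algebraMap K F x ∉ P.1)
    (hfree : ∀ σ : F ≃ₐ[K] F, σ ≠ 1 → ∀ V : ValuationSubring F,
      (∀ c : k, algebraMap k F c ∈ V) → V ≠ ⊤ → algebraMap K F x ∈ V →
      ¬ ∀ a, σ a ∈ V ↔ a ∈ V) {m : ℕ} (hm : Module.finrank K F = p ^ m) :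
    ∃ (E : IntermediateField K Ω) (e : F ≃ₐ[K] E) (n : ℕ) (κ : ℤ) (v : VI E)
      (r : (Ω ≃ₐ[K] Ω) →* (F ≃ₐ[K] F)),
      UU p k x D E n κ v ∧ Function.Surjective r ∧ FieldOf r E ∧
      (∀ σ (a : F), ((e (r σ a) : E) : Ω) = σ ((e a : E) : Ω)) ∧
      (∀ a : F, a ∈ P.1 ↔ v (e a) ≤ 1) ∧ 2 * (genus k F : ℤ) = κ + 1 ∧
      Module.finrank K F = p ^ n := by
  obtain ⟨θ, hθ, hθ1⟩ := trOne_free B.gen B.trans hfree
  have hsc : IsSepClosed Ω := IsSepClosure.sep_closed K
  let φ : F →ₐ[K] Ω := IsSepClosed.lift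
  let E : IntermediateField K Ω := φ.fieldRange
  let e : F ≃ₐ[K] E := φ.equivFieldRange
  let ek : F ≃ₐ[k] E := e.restrictScalars k
  have hfd : FiniteDimensional K E := e.toLinearEquiv.finiteDimensional
  have hgal : IsGalois K E := IsGalois.of_algEquiv e
  have hnor : Normal K E := inferInstance
  have hrank : Module.finrank K F = Module.finrank K E := e.toLinearEquiv.finrank_eq
  have hT : TrOne k x E := by
    refine ⟨e θ, ?_, ?_⟩
    · have h0 := map_mem_Rint (ek : F →ₐ[k] E) hθ
      have h1 : (ek : F →ₐ[k] E) (algebraMap K F x) = algebraMap K E x := e.commutes x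
      rw [h1] at h0
      exact h0
    · rw [Algebra.trace_eq_of_algEquiv e]
      exact hθ1
  obtain ⟨n, κ, v, U⟩ := exists_UU B hD E ⟨m, by rw [← hrank, hm]⟩ hT
  have hg := genus_uu B U
  rw [← genus_congr ek] at hg
  let r : (Ω ≃ₐ[K] Ω) →* (F ≃ₐ[K] F) :=
    (AlgEquiv.autCongr e.symm).toMonoidHom.comp (AlgEquiv.restrictNormalHom E)
  have hr : ∀ σ (a : F), ((e (r σ a) : E) : Ω) = σ ((e a : E) : Ω) := by
    intro σ a
    have h1 : r σ a = e.symm (AlgEquiv.restrictNormalHom E σ (e a)) := rfl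
    rw [h1, AlgEquiv.apply_symm_apply]
    exact AlgEquiv.restrictNormalHom_apply E σ (e a)
  refine ⟨E, e, n, κ, v, r, U, ?_, ?_, hr, ?_, hg, ?_⟩
  · intro τ
    obtain ⟨τ', hτ'⟩ := (AlgEquiv.autCongr e.symm).surjective τ
    obtain ⟨σ, hσ⟩ := AlgEquiv.restrictNormalHom_surjective (F := K) (K₁ := E) Ω τ'
    refine ⟨σ, ?_⟩
    rw [← hτ', ← hσ]
    rfl
  · intro σ
    constructor
    · intro h a ha
      obtain ⟨b, hb⟩ := e.surjective ⟨a, ha⟩
      have h1 := hr σ b
      rw [h, hb] at h1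
      have h2 : ((1 : F ≃ₐ[K] F) b) = b := rfl
      rw [h2, hb] at h1
      exact h1.symm
    · intro h
      ext a
      apply e.injective
      apply Subtype.ext
      rw [hr σ a, h _ (e a).2]
      rfl
  · obtain ⟨D', hD', L⟩ := U.lvl
    obtain ⟨g, L'⟩ := L.lev
    have h1 := L'.unique (P.1.comap (ek.symm : E →+* F)) (fun c => by
      rw [ValuationSubring.mem_comap]
      have h2 : (ek.symm : E →+* F) (algebraMap k E c) = algebraMap k F c := ek.symm.commutes c
      rw [h2]
      exact P.2.1 c) (fun h => by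
      rw [ValuationSubring.mem_comap] at h
      have h2 : (ek.symm : E →+* F) (algebraMap K E x) = algebraMap K F x := e.symm.commutes x
      rw [h2] at h
      exact hxP h)
    intro a
    rw [← Valuation.mem_valuationSubring_iff, ← h1, ValuationSubring.mem_comap]
    have h2 : (ek.symm : E →+* F) (e a) = a := e.symm_apply_apply a
    rw [h2]
  · rw [hrank]
    exact U.rank

end general

theorem uu_of_big {p : ℕ} [hp : Fact p.Prime] {k F : Type u} [Field k] [IsAlgClosed k]
    [CharP k p] [Field F] [Algebra k F] {G : Subgroup (F ≃ₐ[k] F)} {P : Place k F}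
    (hB : IsBigAction p G P) :
    ∃ (x : fixedField G) (vK : VI (fixedField G))
      (D : Derivation k (SeparableClosure (fixedField G)) (SeparableClosure (fixedField G)))
      (E : IntermediateField (fixedField G) (SeparableClosure (fixedField G)))
      (e : F ≃ₐ[fixedField G] E) (n : ℕ) (κ : ℤ) (v : VI E)
      (r : (SeparableClosure (fixedField G) ≃ₐ[fixedField G] SeparableClosure (fixedField G))
        →* G),
      Base p k x vK ∧ D (algebraMap (fixedField G) (SeparableClosure (fixedField G)) x) = 1 ∧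
      UU p k x D E n κ v ∧ NN p n κ ∧ Function.Surjective r ∧ FieldOf r E ∧
      (∀ σ (a : F), ((e ((r σ : F ≃ₐ[k] F) a) : E) : SeparableClosure (fixedField G)) =
        σ ((e a : E) : SeparableClosure (fixedField G))) ∧
      (∀ a : F, a ∈ P.1 ↔ v (e a) ≤ 1) ∧ 2 * (genus k F : ℤ) = κ + 1 := by
  have hfinG : Finite G := hB.finite
  have hfin : H1Fin k F := by
    have h1 := hB.two_le_genus
    rw [genus] at h1
    exact Module.finite_of_finrank_pos (by omega)
  obtain ⟨hfree, hz⟩ := big_free hB.isFunctionField G hB.isPGroup hB.fixesPlace hfin hB.conditionN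
  have hK : IsFunctionField k (fixedField G) := ff_sub hB.isFunctionField (fixedField G)
  obtain ⟨x, hgen, htr, hxP, -⟩ := gen_of_h1zero hK hz (resPl (fixedField G) P)
  obtain ⟨vK, B⟩ := exists_base (p := p) hgen htr
  obtain ⟨D, hD⟩ := exists_der (Ω := SeparableClosure (fixedField G)) B
  have hc1 : CharP (fixedField G) p := charP_of_injective_algebraMap
    (algebraMap k (fixedField G)).injective p
  have hc2 : CharP (SeparableClosure (fixedField G)) p := charP_of_injective_algebraMap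
    (algebraMap k (SeparableClosure (fixedField G))).injective p
  -- Artin
  let ε : G ≃* (F ≃ₐ[fixedField G] F) := FixedPoints.toAlgAutMulEquiv G F
  have hε : ∀ (g : G) (a : F), ε g a = (g : F ≃ₐ[k] F) a := fun g a => rfl
  have hfree' : ∀ σ : F ≃ₐ[fixedField G] F, σ ≠ 1 → ∀ V : ValuationSubring F,
      (∀ c : k, algebraMap k F c ∈ V) → V ≠ ⊤ → algebraMap (fixedField G) F x ∈ V →
      ¬ ∀ a, σ a ∈ V ↔ a ∈ V := by
    intro σ hσ V hVk hVt hVx h
    obtain ⟨g, rfl⟩ := ε.surjective σ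
    have hg : (g : F ≃ₐ[k] F) ≠ 1 := by
      intro h1
      apply hσ
      have h2 : g = 1 := Subtype.ext h1
      rw [h2, map_one]
    have h3 : (⟨V, hVk, hVt⟩ : Place k F) = P := hfree g g.2 hg ⟨V, hVk, hVt⟩ h
    apply hxP
    rw [mem_resPl, ← h3]
    exact hVx
  obtain ⟨m, hm⟩ := (IsPGroup.iff_card).1 hB.isPGroup
  have hrk : Module.finrank (fixedField G) F = Nat.card G := by
    have := Fintype.ofFinite G
    rw [Nat.card_eq_fintype_card]
    exact FixedPoints.finrank_eq_card G F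
  obtain ⟨E, e, n, κ, v, r, U, h1, h2, h3, h4, h5, h6⟩ := uu_gen
    (Ω := SeparableClosure (fixedField G)) B hD P (fun h => hxP (mem_resPl.2 h)) hfree'
    (hrk.trans hm)
  refine ⟨x, vK, D, E, e, n, κ, v, ε.symm.toMonoidHom.comp r, B, hD, U, ?_, ?_, ?_, ?_, h4, h5⟩
  · have h7 := hB.conditionN
    rw [← hrk, h6] at h7
    rw [NN, ← h5]
    have h8 : ((2 * p * genus k F : ℕ) : ℤ) < (((p - 1) * p ^ n : ℕ) : ℤ) := by exact_mod_cast h7
    rw [Nat.cast_mul, Nat.cast_mul, Nat.cast_mul, Nat.cast_sub hp.out.one_lt.le] at h8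
    push_cast at h8
    linarith
  · exact ε.symm.surjective.comp h1
  · intro σ
    rw [← h2 σ]
    exact map_eq_one_iff ε.symm ε.symm.injective
  · intro σ a
    rw [← h3 σ a]
    congr 2
    have h7 : ε (ε.symm (r σ)) a = r σ a := by rw [MulEquiv.apply_symm_apply]
    exact h7

end BAC
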