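import Pool.Agent.BAC.RamC

/-!
BAC / R4 (blueprint 7.3 (a)). The abelian case: `κ = -1`.

`step_gen_ram`: one step `E ≤ E'` with conductor `l` (`UU.step`: `w₀ = w - c`, `v' w₀ = exp l`), `σ ∈ Fx E`,
`σ w = w + i`. Every `f ∈ E'` is `∑_{j<p} a_j w₀^j`, `a_j ∈ E`, `v' f = max_j v' (a_j w₀^j)` (distinct values mod `p`; from
helper32's `ASData` for `asData_adjoin`, or directly: the values `exp (p · order (a_j) + j l)` are distinct for
different `j`); `σ` maps `w₀^j` to `(w₀ + i)^j`, `v' ((w₀ + i)^j - w₀^j) ≤ exp ((j-1) l)`. So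
`v' (σ f - f) ≤ exp (-l) v' f`. If `v' f ≤ 1`: subtract a constant (`residue`) to get `v' f ≤ exp (-1)`,
so `v' (σ f - f) ≤ exp (-l-1)`: `Ram E' v' (l + 1) σ`; for `2 ≤ l`: `Ram E' v' 3 σ`.
`kappa_abelian`: induction on `n`. `n = 0`: `E = ⊥`, `TT.bot`, `TT.unique`. Otherwise `UU.between` for
`⊥ ≤ E` (`⊥ ≠ E`): `E₁`, degree `p^(n-1)`; `NN` (`UU.NN_mono`); `κ₁ = -1` by induction (its Galois group is a quotient).
`UU.step`: `l`. If `l ≥ 2`: let `σ ∈ Fx E₁`, `σ w = w + 1` (`w ∉ E₁`, some `τ ∈ Fx E₁` moves `w`; take a power). Then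
`Ram E v 3 σ`. `Gal(E/K)` is abelian of exponent `p`: there is a character `χ` with `χ σ ≠ 0`, zero on `Fx E`
(`Gal(E/K)` is an `F_p`-vector space; `σ` is not trivial on `E`). `ram_char`: contradiction. So `l = 1`,
`κ = -p + (p - 1) = -1`.
-/

namespace BAC

open Polynomial WithZero IntermediateField Pool.Agent.Helper32

variable {p : ℕ} [hp : Fact p.Prime] {k K Ω : Type*} [Field k] [IsAlgClosed k] [Field K]
  [Field Ω] [Algebra k K] [Algebra K Ω] [Algebra k Ω] [IsScalarTower k K Ω] [CharP k p]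
  [CharP K p] [CharP Ω p] [IsSepClosure K Ω] {x : K} {vK : VI K} {D : Derivation k Ω Ω}

omit [IsAlgClosed k] [CharP k p] [CharP K p] [CharP Ω p] [IsSepClosure K Ω] hp in
private theorem ramd_mul {E : IntermediateField K Ω} {v : VI E} {s : E ≃ₐ[K] E}
    (hv : ∀ z, v (s z) = v z)
    {c : WithZero (Multiplicative ℤ)} {a b : E} (ha : v (s a - a) ≤ c * v a)
    (hb : v (s b - b) ≤ c * v b) : v (s (a * b) - a * b) ≤ c * v (a * b) := by
  have h1 : s (a * b) - a * b = (s a - a) * s b + a * (s b - b) := by rw [map_mul]; ring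
  rw [h1]
  refine (v.map_add _ _).trans (max_le ?_ ?_)
  · rw [map_mul, map_mul, hv, ← mul_assoc]
    gcongr
  · rw [map_mul, map_mul]
    calc v a * v (s b - b) ≤ v a * (c * v b) := by gcongr
      _ = _ := by rw [← mul_assoc, mul_comm (v a) c, mul_assoc]

omit [IsAlgClosed k] [CharP k p] [CharP K p] [CharP Ω p] [IsSepClosure K Ω] hp in
private theorem ramd_inv {E : IntermediateField K Ω} {v : VI E} {s : E ≃ₐ[K] E}
    (hv : ∀ z, v (s z) = v z)
    {c : WithZero (Multiplicative ℤ)} {a : E} (ha : v (s a - a) ≤ c * v a) :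
    v (s a⁻¹ - a⁻¹) ≤ c * v a⁻¹ := by
  by_cases h0 : a = 0
  · subst h0
    simp
  have hs0 : s a ≠ 0 := by simpa using h0
  have h1 : s a⁻¹ - a⁻¹ = -((s a - a) * (a⁻¹ * (s a)⁻¹)) := by
    rw [map_inv₀]
    field_simp
    ring
  have hva : v a ≠ 0 := (Valuation.ne_zero_iff v).2 h0
  rw [h1, Valuation.map_neg, map_mul, map_mul, map_inv₀, map_inv₀, hv]
  calc v (s a - a) * ((v a)⁻¹ * (v a)⁻¹) ≤ (c * v a) * ((v a)⁻¹ * (v a)⁻¹) := by gcongr
    _ = c * (v a)⁻¹ := by field_simp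

omit [IsAlgClosed k] [CharP k p] [CharP K p] [CharP Ω p] [IsSepClosure K Ω] hp in
private theorem ramd_zpow {E : IntermediateField K Ω} {v : VI E} {s : E ≃ₐ[K] E}
    (hv : ∀ z, v (s z) = v z)
    {c : WithZero (Multiplicative ℤ)} {a : E} (ha : v (s a - a) ≤ c * v a) (j : ℤ) :
    v (s (a ^ j) - a ^ j) ≤ c * v (a ^ j) := by
  have hn : ∀ m : ℕ, v (s (a ^ m) - a ^ m) ≤ c * v (a ^ m) := by
    intro m
    induction m with
    | zero => simp
    | succ m ih =>
      rw [pow_succ]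
      exact ramd_mul hv ih ha
  obtain ⟨m, rfl | rfl⟩ := j.eq_nat_or_neg
  · rw [zpow_natCast]
    exact hn m
  · rw [zpow_neg, zpow_natCast]
    exact ramd_inv hv (hn m)

theorem step_gen_ram (B : Base p k x vK) (hD : D (algebraMap K Ω x) = 1)
    {E E' : IntermediateField K Ω} {n : ℕ} {κ κ' l : ℤ} {v : VI E} {v' : VI E'}
    (U : UU p k x D E n κ v) (U' : UU p k x D E' (n + 1) κ' v') (hE : E ≤ E') (hl : 2 ≤ l)
    (hκ : κ' = p * κ + (p - 1) * l) {σ : Ω ≃ₐ[K] Ω} (hσ : Fx E σ) : Ram E' v' 3 σ := by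
  have hg' : IsGalois K E' := U'.gal
  obtain ⟨l', w, f, c, hl0, hpl, hκ', hwE', hwE, hwf, -, hc, hv, ⟨hw0, hw0v⟩, -⟩ :=
    UU.step B hD U U' hE
  have hp1 : (1 : ℤ) < p := by exact_mod_cast hp.out.one_lt
  obtain rfl : l' = l := by
    rw [hκ] at hκ'
    have h1 : ((p : ℤ) - 1) * l' = ((p : ℤ) - 1) * l := by linarith
    exact mul_left_cancel₀ (by omega) h1
  -- the restriction of `σ`
  set s : E' ≃ₐ[K] E' := σ.restrictNormal E' with hs
  have hsc : ∀ a : E', ((s a : E') : Ω) = σ a := fun a => AlgEquiv.restrictNormal_commutes σ E' a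
  have hsv : ∀ z, v' (s z) = v' z := fun z => ram_val U' (hsc z)
  -- the element `w₀`
  set w₀ : E' := ⟨w - c, hw0⟩ with hw₀
  have hfix : σ (w ^ p - w) = w ^ p - w := by
    rw [hwf]
    exact hσ _ f.2
  have hdiff : (σ w - w) ^ p = σ w - w := by
    rw [map_sub, map_pow] at hfix
    rw [sub_pow_char]
    linear_combination hfix
  have hw1 : v' (s w₀ - w₀) ≤ exp (-l') * v' w₀ := by
    have h1 : (s w₀ - w₀) ^ p = s w₀ - w₀ := by
      apply Subtype.ext
      have h2 : ((s w₀ - w₀ : E') : Ω) = σ w - w := by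
        have h3 : ((s w₀ - w₀ : E') : Ω) = (s w₀ : Ω) - (w₀ : Ω) := rfl
        rw [h3, hsc]
        have h4 : ((w₀ : E') : Ω) = w - c := rfl
        rw [h4, map_sub, hσ _ c.2]
        ring
      have h5 : (((s w₀ - w₀) ^ p : E') : Ω) = ((s w₀ - w₀ : E') : Ω) ^ p := rfl
      rw [h5, h2, hdiff]
    have h6 : v' (s w₀ - w₀) ≤ 1 := by
      by_contra h7
      have h7 := not_le.1 h7
      have h8 : v' (s w₀ - w₀) ^ p = v' (s w₀ - w₀) := by rw [← map_pow, h1]
      have h9 : v' (s w₀ - w₀) < v' (s w₀ - w₀) ^ p :=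
        lt_self_pow₀ h7 hp.out.one_lt
      rw [h8] at h9
      exact lt_irrefl _ h9
    have h10 : v' w₀ = exp l' := hw0v
    rw [h10, ← exp_add, neg_add_cancel, exp_zero]
    exact h6
  -- the uniformizer
  obtain ⟨D', hD', L⟩ := U.lvl
  obtain ⟨g, L⟩ := L.lev
  obtain ⟨t, ht⟩ := L.v_unif
  have ht1 : v' (inclusion hE t) = exp (-(p : ℤ)) := by
    rw [hv, ht, ← exp_nsmul, nsmul_eq_mul]
    congr 1
    ring
  have hcop : IsCoprime l' (p : ℤ) := by
    have h1 : IsCoprime (p : ℤ) l' :=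
      (Prime.coprime_iff_not_dvd (Nat.prime_iff_prime_int.1 hp.out)).2 hpl
    exact h1.symm
  obtain ⟨α, β, hαβ⟩ := hcop
  set u : E' := w₀ ^ (-α) * (inclusion hE t) ^ β with hu
  have hu1 : v' u = exp (-1 : ℤ) := by
    have h10 : v' w₀ = exp l' := hw0v
    rw [hu, map_mul, map_zpow₀, map_zpow₀, h10, ht1, ← exp_zsmul, ← exp_zsmul, ← exp_add]
    congr 1
    simp only [smul_eq_mul]
    linarith
  have hst : s (inclusion hE t) = inclusion hE t := by
    apply Subtype.ext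
    rw [hsc]
    exact hσ _ t.2
  have hu2 : v' (s u - u) ≤ exp (-l') * v' u := by
    rw [hu]
    refine ramd_mul hsv (ramd_zpow hsv hw1 _) (ramd_zpow hsv ?_ _)
    rw [hst, sub_self, map_zero]
    exact zero_le
  refine ram_of_unif' U' hu1 (b := s u) (hsc u) (hu2.trans ?_)
  rw [hu1, ← exp_add, exp_le_exp]
  push_cast
  omega

theorem kappa_abelian (B : Base p k x vK) (hD : D (algebraMap K Ω x) = 1)
    {E : IntermediateField K Ω} {n : ℕ} {κ : ℤ} {v : VI E} (U : UU p k x D E n κ v)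
    (hN : NN p n κ) (he : ∀ σ : Ω ≃ₐ[K] Ω, Fx E (σ ^ p))
    (hab : ∀ σ τ : Ω ≃ₐ[K] Ω, Fx E (σ * τ * σ⁻¹ * τ⁻¹)) : κ = -1 := by
  obtain ⟨v₀, T₀, -⟩ := TT.bot (p := p) (D := D) B hD
  have U₀ : UU p k x D (⊥ : IntermediateField K Ω) 0 (-1) v₀ :=
    { toTT := T₀, gal := inferInstance }
  induction n generalizing E κ with
  | zero =>
    by_cases hne : (⊥ : IntermediateField K Ω) = E
    · subst hne
      exact (T₀.unique U.toTT).2.1
    · obtain ⟨E₁, n₁, κ₁, v₁, -, -, h1, -⟩ := UU.between B hD U₀ U bot_le hne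
      omega
  | succ m ih =>
    have hne : (⊥ : IntermediateField K Ω) ≠ E := by
      rintro rfl
      have h1 := (T₀.unique U.toTT).1
      omega
    obtain ⟨E₁, n₁, κ₁, v₁, -, hle, h1, U₁⟩ := UU.between B hD U₀ U bot_le hne
    obtain rfl : n₁ = m := by omega
    have hN₁ := UU.NN_mono B hD U₁ U hle hN
    have hκ₁ : κ₁ = -1 := ih U₁ hN₁ (fun σ a ha => he σ a (hle ha))
      (fun σ τ a ha => hab σ τ a (hle ha))
    obtain ⟨l, w, f, c, hl0, hpl, hκ', hwE', hwE, -⟩ := UU.step B hD U₁ U hle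
    have hl1 : l = 1 := by
      by_contra hl1
      have hl2 : 2 ≤ l := by omega
      have hfd : FiniteDimensional K E := U.fin
      have hg : IsGalois K E := U.gal
      set r : (Ω ≃ₐ[K] Ω) →* (E ≃ₐ[K] E) := AlgEquiv.restrictNormalHom (F := K) (K₁ := Ω) E
        with hr
      have hrs : Function.Surjective r := AlgEquiv.restrictNormalHom_surjective Ω
      have hrF : FieldOf r E := by
        intro σ
        rw [← MonoidHom.mem_ker, hr, IntermediateField.restrictNormalHom_ker,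
          IntermediateField.mem_fixingSubgroup_iff]
        rfl
      have hrp : ∀ γ : E ≃ₐ[K] E, γ ^ p = 1 := by
        intro γ
        obtain ⟨σ, rfl⟩ := hrs γ
        rw [← map_pow]
        exact (hrF _).2 (he σ)
      have hfin : Finite (E ≃ₐ[K] E) := inferInstance
      have hcomm : commutator (E ≃ₐ[K] E) = ⊥ := by
        rw [eq_bot_iff, commutator_def, Subgroup.commutator_le]
        intro g₁ _ g₂ _
        obtain ⟨σ, rfl⟩ := hrs g₁
        obtain ⟨τ, rfl⟩ := hrs g₂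
        rw [Subgroup.mem_bot, commutatorElement_def, ← map_mul, ← map_inv, ← map_mul,
          ← map_inv, ← map_mul]
        exact (hrF _).2 (hab σ τ)
      apply hwE
      apply mem_of_fx
      intro σ hσ
      have h2 := step_gen_ram B hD U₁ U hle hl2 hκ' hσ
      rw [ram_iff B hD U hN hrp r hrs hrF, hcomm, Subgroup.mem_bot] at h2
      exact (hrF σ).1 h2 w hwE'
    rw [hκ', hκ₁, hl1]
    ring

end BAC
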