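import Pool.Agent.BAC.PHom

/-!
BAC / G8 (blueprint 3.3). Groups of class `≤ p - 1` with `G / Z` of exponent `p`.

Downward induction on `i ≥ 2`: all elements of `gam G i` have `p`-th power `1`. `i ≥ p`: clear. Assume it for
`i + 1`, `i ≥ 2`. Generators of `gam G i`: `b = [x, y]`, `x ∈ gam G (i-1)`, `y ∈ G` (`gam_succ`; take care of the
convention: `x y x⁻¹ y⁻¹`). `x ^ p ∈ Z` is central, so `(y x y⁻¹)^p = x^p`, and `y x y⁻¹ = b' x` with
`b' = [y, x] = b⁻¹ ∈ gam G i`. Let `A = (zpowers x) ⊔ gam G i ⊔ Z`. Modulo `gam G (i+1)` the subgroup `gam G i` is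
central in `G`, so `A / (A ∩ gam G (i+1))` is abelian: `[A, A] ≤ gam G (i+1)`, so elements of `gam A 2` have
`p`-th power `1`; `gam A p = ⊥` (`gam_subgroup`). `p_pow_mul` for the group `A` (and `Z ≤ A`):
`x^p = (b' x)^p = b'^p x^p`, so `b'^p = 1`. Now `p_pow_mul` for `A' = gam G i ⊔ Z` (`[A', A'] ≤ gam G (2 i) ≤
gam G (i+1)`): the `p`-power map is a hom on `A'`, it kills the generators of `gam G i`.
The end: `i = 2`, and `p_pow_mul` for `G`.
-/

namespace BAC

open scoped commutatorElement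

/-- `[A, A] ≤ gam G (i + 1)` for `A = ⟨x⟩ ⊔ gam G i ⊔ Z`. -/
private theorem ppow_comm {G : Type*} [Group G] (Z : Subgroup G) (hZ : Z ≤ Subgroup.center G)
    {i : ℕ} (hi : 1 ≤ i) (x : G) {a b : G} (ha : a ∈ Subgroup.zpowers x ⊔ (gam G i ⊔ Z))
    (hb : b ∈ Subgroup.zpowers x ⊔ (gam G i ⊔ Z)) : ⁅a, b⁆ ∈ gam G (i + 1) := by
  set N := gam G (i + 1) with hN
  set π := QuotientGroup.mk' N with hπ
  have hker : ∀ g : G, π g = 1 ↔ g ∈ N := by
    intro g
    rw [hπ, QuotientGroup.mk'_apply, QuotientGroup.eq_one_iff]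
  -- elements of `gam G i ⊔ Z` are central modulo `N`
  have hcen : ∀ g ∈ gam G i ⊔ Z, ∀ h : G, π g * π h = π h * π g := by
    have h1 : gam G i ⊔ Z ≤ (Subgroup.center (G ⧸ N)).comap π := by
      refine sup_le ?_ ?_
      · intro g hg
        rw [Subgroup.mem_comap, Subgroup.mem_center_iff]
        intro h
        obtain ⟨h, rfl⟩ := QuotientGroup.mk'_surjective N h
        have h2 : ⁅g, h⁆ ∈ N := by
          rw [hN, gam_succ hi]
          exact Subgroup.commutator_mem_commutator hg (Subgroup.mem_top h)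
        have h3 : π ⁅g, h⁆ = 1 := (hker _).2 h2
        rw [map_commutatorElement, commutatorElement_eq_one_iff_mul_comm] at h3
        exact h3.symm
      · intro g hg
        rw [Subgroup.mem_comap, Subgroup.mem_center_iff]
        intro h
        obtain ⟨h, rfl⟩ := QuotientGroup.mk'_surjective N h
        have h2 := Subgroup.mem_center_iff.1 (hZ hg) h
        rw [← map_mul, ← map_mul, h2]
    intro g hg h
    have h2 := h1 hg
    rw [Subgroup.mem_comap, Subgroup.mem_center_iff] at h2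
    exact (h2 (π h)).symm
  have hsub : ∀ g ∈ Subgroup.zpowers x ⊔ (gam G i ⊔ Z), ∃ (m : ℤ) (c : G), c ∈ gam G i ⊔ Z ∧
      g = x ^ m * c := by
    intro g hg
    have hnZ : Z.Normal := by
      constructor
      intro z hz g
      have h2 := Subgroup.mem_center_iff.1 (hZ hz) g
      rw [h2, mul_inv_cancel_right]
      exact hz
    have hn : (gam G i ⊔ Z).Normal := Subgroup.sup_normal _ _
    obtain ⟨u, hu, c, hc, rfl⟩ := Subgroup.mem_sup_of_normal_right.1 hg
    obtain ⟨m, rfl⟩ := Subgroup.mem_zpowers_iff.1 hu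
    exact ⟨m, c, hc, rfl⟩
  obtain ⟨m, c, hc, rfl⟩ := hsub a ha
  obtain ⟨n, d, hd, rfl⟩ := hsub b hb
  rw [← hker, map_commutatorElement, commutatorElement_eq_one_iff_mul_comm]
  have h1 : Commute (π c) (π (x ^ n * d)) := hcen c hc _
  have h2 : Commute (π (x ^ m)) (π d) := (hcen d hd _).symm
  have h3 : Commute (π (x ^ m)) (π (x ^ n)) := by
    rw [map_zpow, map_zpow]
    exact (Commute.refl (π x)).zpow_zpow m n
  have h4 : Commute (π (x ^ m)) (π (x ^ n * d)) := by
    rw [map_mul]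
    exact h3.mul_right h2
  have h5 : Commute (π (x ^ m * c)) (π (x ^ n * d)) := by
    rw [map_mul π (x ^ m) c]
    exact h4.mul_left h1
  exact h5

/-- The `p`-power map is multiplicative on `A = ⟨x⟩ ⊔ gam G i ⊔ Z`. -/
private theorem ppow_mul_A {p : ℕ} [hp : Fact p.Prime] {G : Type*} [Group G] [Finite G]
    (hc : gam G p = ⊥) (Z : Subgroup G) (hZ : Z ≤ Subgroup.center G) (hZp : ∀ z ∈ Z, z ^ p = 1)
    (hG : ∀ g : G, g ^ p ∈ Z) {i : ℕ} (hi : 1 ≤ i) (hP : ∀ g ∈ gam G (i + 1), g ^ p = 1) (x : G)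
    {a b : G} (ha : a ∈ Subgroup.zpowers x ⊔ (gam G i ⊔ Z))
    (hb : b ∈ Subgroup.zpowers x ⊔ (gam G i ⊔ Z)) : (a * b) ^ p = a ^ p * b ^ p := by
  set A := Subgroup.zpowers x ⊔ (gam G i ⊔ Z) with hA
  have hcA : gam A p = ⊥ := by
    have h1 := gam_subgroup A p
    rw [hc, le_bot_iff] at h1
    exact (Subgroup.map_eq_bot_iff_of_injective _ A.subtype_injective).1 h1
  have h2 : ∀ g ∈ gam A 2, g ^ p = 1 := by
    intro g hg
    have h3 : gam A 2 ≤ (gam G (i + 1)).comap A.subtype := by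
      rw [show (2 : ℕ) = 1 + 1 from rfl, gam_succ le_rfl, Subgroup.commutator_le]
      intro u _ v _
      rw [Subgroup.mem_comap, map_commutatorElement]
      exact ppow_comm Z hZ hi x u.2 v.2
    have h4 : (g : G) ^ p = 1 := hP _ (h3 hg)
    exact Subtype.ext (by simpa using h4)
  have h5 := p_pow_mul (p := p) (G := A) hcA (Z.subgroupOf A)
    (by
      intro z hz
      rw [Subgroup.mem_center_iff]
      intro g
      have h6 := Subgroup.mem_center_iff.1 (hZ (Subgroup.mem_subgroupOf.1 hz)) (g : G)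
      exact Subtype.ext (by simpa using h6))
    (by
      intro z hz
      have h6 := hZp _ (Subgroup.mem_subgroupOf.1 hz)
      exact Subtype.ext (by simpa using h6))
    (by
      intro g
      rw [Subgroup.mem_subgroupOf]
      simpa using hG (g : G))
    h2 ⟨a, ha⟩ ⟨b, hb⟩
  have h7 := congrArg (Subtype.val) h5
  simpa using h7

private theorem ppow_step {p : ℕ} [hp : Fact p.Prime] {G : Type*} [Group G] [Finite G]
    (hc : gam G p = ⊥) (Z : Subgroup G) (hZ : Z ≤ Subgroup.center G) (hZp : ∀ z ∈ Z, z ^ p = 1)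
    (hG : ∀ g : G, g ^ p ∈ Z) {i : ℕ} (hi : 2 ≤ i) (hP : ∀ g ∈ gam G (i + 1), g ^ p = 1) :
    ∀ g ∈ gam G i, g ^ p = 1 := by
  obtain ⟨j, rfl⟩ : ∃ j, i = j + 1 := ⟨i - 1, by omega⟩
  have hj : 1 ≤ j := by omega
  have hmemA : ∀ (x : G) {g : G}, g ∈ gam G (j + 1) →
      g ∈ Subgroup.zpowers x ⊔ (gam G (j + 1) ⊔ Z) := fun x g hg =>
    (le_sup_right : gam G (j + 1) ⊔ Z ≤ _) ((le_sup_left : gam G (j + 1) ≤ _) hg)
  -- the subgroup of elements with trivial `p`-th power
  let T : Subgroup G :=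
    { carrier := {g | g ∈ gam G (j + 1) ∧ g ^ p = 1}
      one_mem' := ⟨one_mem _, one_pow _⟩
      mul_mem' := by
        rintro a b ⟨ha, ha'⟩ ⟨hb, hb'⟩
        refine ⟨mul_mem ha hb, ?_⟩
        rw [ppow_mul_A hc Z hZ hZp hG (by omega) hP 1 (hmemA 1 ha) (hmemA 1 hb), ha', hb', one_mul]
      inv_mem' := by
        rintro a ⟨ha, ha'⟩
        exact ⟨inv_mem ha, by rw [inv_pow, ha', inv_one]⟩ }
  have hT : gam G (j + 1) ≤ T := by
    conv_lhs => rw [gam_succ hj]
    rw [Subgroup.commutator_le]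
    intro x hx y _
    have hb : ⁅x, y⁆ ∈ gam G (j + 1) := by
      rw [gam_succ hj]
      exact Subgroup.commutator_mem_commutator hx (Subgroup.mem_top y)
    refine ⟨hb, ?_⟩
    have hb' : ⁅y, x⁆ ∈ gam G (j + 1) := by
      rw [← commutatorElement_inv]
      exact inv_mem hb
    have h1 : y * x * y⁻¹ = ⁅y, x⁆ * x := by
      rw [commutatorElement_def]
      group
    have h2 : (y * x * y⁻¹) ^ p = x ^ p := by
      rw [conj_pow]
      have h3 := Subgroup.mem_center_iff.1 (hZ (hG x)) y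
      rw [h3, mul_inv_cancel_right]
    have h4 := ppow_mul_A hc Z hZ hZp hG (by omega) hP x (hmemA x hb')
      ((le_sup_left : Subgroup.zpowers x ≤ _) (Subgroup.mem_zpowers x))
    rw [← h1, h2] at h4
    have h5 : ⁅y, x⁆ ^ p = 1 := by
      have h6 : 1 * x ^ p = ⁅y, x⁆ ^ p * x ^ p := by rw [one_mul]; exact h4
      exact (mul_right_cancel h6).symm
    rw [← commutatorElement_inv, inv_pow, h5, inv_one]
  exact fun g hg => (hT hg).2

theorem gam_two_pow {p : ℕ} [hp : Fact p.Prime] {G : Type*} [Group G] [Finite G]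
    (hc : gam G p = ⊥) (Z : Subgroup G) (hZ : Z ≤ Subgroup.center G) (hZp : ∀ z ∈ Z, z ^ p = 1)
    (hG : ∀ g : G, g ^ p ∈ Z) : ∀ g ∈ gam G 2, g ^ p = 1 := by
  have h : ∀ k i : ℕ, 2 ≤ i → p ≤ i + k → ∀ g ∈ gam G i, g ^ p = 1 := by
    intro k
    induction k with
    | zero =>
      intro i _ hpi g hg
      have h1 := gam_anti (G := G) (show p ≤ i by omega) hg
      rw [hc, Subgroup.mem_bot] at h1
      rw [h1, one_pow]
    | succ k ih =>
      intro i hi hpi
      exact ppow_step hc Z hZ hZp hG hi (ih (i + 1) (by omega) (by omega))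
  exact h p 2 le_rfl (by omega)

theorem pow_hom {p : ℕ} [hp : Fact p.Prime] {G : Type*} [Group G] [Finite G]
    (hc : gam G p = ⊥) (Z : Subgroup G) (hZ : Z ≤ Subgroup.center G) (hZp : ∀ z ∈ Z, z ^ p = 1)
    (hG : ∀ g : G, g ^ p ∈ Z) (x y : G) : (x * y) ^ p = x ^ p * y ^ p :=
  p_pow_mul hc Z hZ hZp hG (gam_two_pow hc Z hZ hZp hG) x y

end BAC
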