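import Pool.Agent.BAC.CCs
import Pool.Agent.BAC.GDefs

/-!
BAC / G11 (blueprint 3.5). Twisting by the Witt cocycle.

`Gt` = the set `G` with `g * h := g h z (-(CC p (θ g) (θ h)))` (a structure/type synonym in the same
universe). Associativity: `CC_cocycle`; unit: `CC_zero`; inverse of `g`: `g⁻¹ z (CC p (θ g) (-(θ g)))`. Note
`θ (z a) = 0` (`z a ^ p = 1 = z (θ (z a))`), so `θ` is additive for the new product too. `φ = id`.
`g ^{*n} = g ^ n z (-∑_{i<n} CC p (i θ) θ)`, so for `n = p`: `z (θ) z (-θ) = 1` (`CC_sum`).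
Commutators are the same in both groups: `[g, h] * (h * g) = g * h` for the old commutator `[g, h]` (symmetry of
`CC`, `θ [g, h] = 0`), and on `ker θ` both products agree; so `gam Gt n = φ (gam G n)` as sets for `n ≥ 2`
(induction); `gam Gt p = ⊥` (`p ≥ 2`).
-/

namespace BAC

universe u

/-- the data of the twist -/
private structure TwH (p : ℕ) {G : Type u} [Group G] (z : ZMod p → G) (θ : G → ZMod p) :
    Prop where
  hz : ∀ a b, z (a + b) = z a * z b
  inj : Function.Injective z
  cen : ∀ a g, z a * g = g * z a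
  add : ∀ g h, θ (g * h) = θ g + θ h
  pw : ∀ g, g ^ p = z (θ g)

/-- the twisted group -/
private structure TwG (p : ℕ) {G : Type u} [Group G] (z : ZMod p → G) (θ : G → ZMod p) :
    Type u where
  v : G

section twist

open scoped commutatorElement

variable {p : ℕ} {G : Type u} [Group G] {z : ZMod p → G} {θ : G → ZMod p}

private theorem TwG.ext' {x y : TwG p z θ} (h : x.v = y.v) : x = y := by
  cases x
  cases y
  simp only at h
  rw [h]

private theorem TwH.z0 (H : TwH p z θ) : z 0 = 1 := by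
  have h := H.hz 0 0
  rw [add_zero] at h
  exact (mul_eq_left.1 h.symm)

private theorem TwH.t1 (H : TwH p z θ) : θ 1 = 0 := by
  have h := H.add 1 1
  rw [mul_one] at h
  exact (add_eq_left.1 h.symm)

private theorem TwH.tinv (H : TwH p z θ) (g : G) : θ g⁻¹ = -θ g := by
  have h := H.add g⁻¹ g
  rw [inv_mul_cancel, H.t1] at h
  exact eq_neg_of_add_eq_zero_left h.symm

private theorem TwH.zpow (H : TwH p z θ) (a : ZMod p) (n : ℕ) : z a ^ n = z (n * a) := by
  induction n with
  | zero => rw [pow_zero, Nat.cast_zero, zero_mul, H.z0]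
  | succ n ih => rw [pow_succ, ih, ← H.hz, Nat.cast_succ, add_mul, one_mul]

private theorem TwH.tz (H : TwH p z θ) (a : ZMod p) : θ (z a) = 0 := by
  have h := H.pw (z a)
  rw [H.zpow, CharP.cast_eq_zero, zero_mul] at h
  exact (H.inj h).symm

private theorem TwH.tpow (H : TwH p z θ) (g : G) (n : ℕ) : θ (g ^ n) = n * θ g := by
  induction n with
  | zero => rw [pow_zero, H.t1, Nat.cast_zero, zero_mul]
  | succ n ih => rw [pow_succ, H.add, ih, Nat.cast_succ, add_mul, one_mul]

private theorem TwH.tcomm (H : TwH p z θ) (g h : G) : θ ⁅g, h⁆ = 0 := by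
  rw [commutatorElement_def, H.add, H.add, H.add, H.tinv, H.tinv]
  ring

private noncomputable instance : Mul (TwG p z θ) :=
  ⟨fun x y => ⟨x.v * y.v * z (-(CC p (θ x.v) (θ y.v)))⟩⟩

private noncomputable instance : One (TwG p z θ) := ⟨⟨1⟩⟩

private noncomputable instance : Inv (TwG p z θ) :=
  ⟨fun x => ⟨x.v⁻¹ * z (CC p (θ x.v) (-(θ x.v)))⟩⟩

private theorem tw_mul_v (x y : TwG p z θ) :
    (x * y).v = x.v * y.v * z (-(CC p (θ x.v) (θ y.v))) := rfl

private theorem tw_one_v : (1 : TwG p z θ).v = 1 := rfl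

private theorem tw_inv_v (x : TwG p z θ) :
    (x⁻¹).v = x.v⁻¹ * z (CC p (θ x.v) (-(θ x.v))) := rfl

variable [hp : Fact p.Prime] [hT : Fact (TwH p z θ)]

private noncomputable instance : Group (TwG p z θ) :=
  Group.ofLeftAxioms
    (by
      intro x y w
      have H := hT.out
      apply TwG.ext'
      rw [tw_mul_v, tw_mul_v, tw_mul_v, tw_mul_v, H.add, H.add, H.tz, H.add, H.add, H.tz,
        add_zero, add_zero]
      have e : -(CC p (θ x.v) (θ y.v)) + -(CC p (θ x.v + θ y.v) (θ w.v)) =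
          -(CC p (θ y.v) (θ w.v)) + -(CC p (θ x.v) (θ y.v + θ w.v)) := by
        have := CC_cocycle hp.out (θ x.v) (θ y.v) (θ w.v)
        rw [← neg_add, ← neg_add, this]
      calc x.v * y.v * z (-(CC p (θ x.v) (θ y.v))) * w.v *
            z (-(CC p (θ x.v + θ y.v) (θ w.v)))
          = x.v * y.v * (z (-(CC p (θ x.v) (θ y.v))) * w.v) *
            z (-(CC p (θ x.v + θ y.v) (θ w.v))) := by group
        _ = x.v * y.v * w.v * (z (-(CC p (θ x.v) (θ y.v))) *
            z (-(CC p (θ x.v + θ y.v) (θ w.v)))) := by rw [H.cen]; group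
        _ = x.v * y.v * w.v * (z (-(CC p (θ y.v) (θ w.v))) *
            z (-(CC p (θ x.v) (θ y.v + θ w.v)))) := by rw [← H.hz, e, H.hz]
        _ = _ := by group)
    (by
      intro x
      have H := hT.out
      apply TwG.ext'
      rw [tw_mul_v, tw_one_v, H.t1, (CC_zero _).2, neg_zero, H.z0, one_mul, mul_one])
    (by
      intro x
      have H := hT.out
      apply TwG.ext'
      rw [tw_mul_v, tw_inv_v, tw_one_v, H.add, H.tz, add_zero, H.tinv,
        CC_symm hp.out (-θ x.v) (θ x.v)]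
      calc x.v⁻¹ * z (CC p (θ x.v) (-θ x.v)) * x.v * z (-(CC p (θ x.v) (-θ x.v)))
          = x.v⁻¹ * (z (CC p (θ x.v) (-θ x.v)) * x.v) * z (-(CC p (θ x.v) (-θ x.v))) := by group
        _ = z (CC p (θ x.v) (-θ x.v)) * z (-(CC p (θ x.v) (-θ x.v))) := by rw [H.cen]; group
        _ = 1 := by rw [← H.hz, add_neg_cancel, H.z0])

private theorem tw_pow (x : TwG p z θ) (n : ℕ) :
    (x ^ n).v = x.v ^ n * z (-∑ i ∈ Finset.range n, CC p ((i : ZMod p) * θ x.v) (θ x.v)) := by
  have H := hT.out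
  induction n with
  | zero => rw [pow_zero, tw_one_v, pow_zero, Finset.range_zero, Finset.sum_empty, neg_zero, H.z0,
      mul_one]
  | succ n ih =>
    rw [pow_succ, tw_mul_v, ih, H.add, H.tz, add_zero, H.tpow, Finset.sum_range_succ, neg_add,
      H.hz, pow_succ]
    calc x.v ^ n * z (-∑ i ∈ Finset.range n, CC p ((i : ZMod p) * θ x.v) (θ x.v)) * x.v *
          z (-(CC p ((n : ZMod p) * θ x.v) (θ x.v)))
        = x.v ^ n * (z (-∑ i ∈ Finset.range n, CC p ((i : ZMod p) * θ x.v) (θ x.v)) * x.v) *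
          z (-(CC p ((n : ZMod p) * θ x.v) (θ x.v))) := by group
      _ = _ := by rw [H.cen]; group

private theorem tw_comm (x y : TwG p z θ) : (⁅x, y⁆).v = ⁅x.v, y.v⁆ := by
  have H := hT.out
  have h1 : (⟨⁅x.v, y.v⁆⟩ : TwG p z θ) * (y * x) = x * y := by
    apply TwG.ext'
    rw [tw_mul_v, tw_mul_v, tw_mul_v]
    simp only
    rw [H.tcomm, (CC_zero _).2, neg_zero, H.z0, mul_one, CC_symm hp.out (θ y.v),
      commutatorElement_def]
    group
  have h2 : ⁅x, y⁆ = ⟨⁅x.v, y.v⁆⟩ := by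
    rw [commutatorElement_def, mul_assoc (x * y), ← mul_inv_rev, mul_inv_eq_iff_eq_mul]
    exact h1.symm
  rw [h2]

/-- subgroups of the twisted group -/
private noncomputable def twS (H : Subgroup G) (h0 : ∀ g ∈ H, θ g = 0) :
    Subgroup (TwG p z θ) where
  carrier := {x | x.v ∈ H}
  mul_mem' := by
    intro x y hx hy
    have hT' := hT.out
    change (x * y).v ∈ H
    rw [tw_mul_v, h0 _ hx, (CC_zero _).2, neg_zero, hT'.z0, mul_one]
    exact H.mul_mem hx hy
  one_mem' := H.one_mem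
  inv_mem' := by
    intro x hx
    have hT' := hT.out
    change (x⁻¹).v ∈ H
    rw [tw_inv_v, h0 _ hx, (CC_zero _).2, hT'.z0, mul_one]
    exact H.inv_mem hx

omit hT in
private theorem tw_lcs_zero (H : TwH p z θ) (n : ℕ) {g : G}
    (hg : g ∈ (⊤ : Subgroup G).lowerCentralSeries (n + 1)) : θ g = 0 := by
  let K : Subgroup G :=
    { carrier := {g | θ g = 0}
      mul_mem' := by
        intro a b ha hb
        change θ (a * b) = 0
        rw [H.add, ha, hb, add_zero]
      one_mem' := H.t1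
      inv_mem' := by
        intro a ha
        change θ a⁻¹ = 0
        rw [H.tinv, ha, neg_zero] }
  have h1 : (⊤ : Subgroup G).lowerCentralSeries 1 ≤ K := by
    rw [Subgroup.lowerCentralSeries_succ, Subgroup.commutator_le]
    intro a _ b _
    exact H.tcomm a b
  exact h1 (Subgroup.lowerCentralSeries_antitone ⊤ (Nat.le_add_left 1 n) hg)

private theorem tw_lcs (n : ℕ) : ∀ x ∈ (⊤ : Subgroup (TwG p z θ)).lowerCentralSeries (n + 1),
    x.v ∈ (⊤ : Subgroup G).lowerCentralSeries (n + 1) := by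
  induction n with
  | zero =>
    have h1 : (⊤ : Subgroup (TwG p z θ)).lowerCentralSeries (0 + 1) ≤
        twS ((⊤ : Subgroup G).lowerCentralSeries (0 + 1))
          (fun g hg => tw_lcs_zero hT.out 0 hg) := by
      rw [Subgroup.lowerCentralSeries_succ, Subgroup.commutator_le]
      intro a _ b _
      change (⁅a, b⁆).v ∈ (⊤ : Subgroup G).lowerCentralSeries (0 + 1)
      rw [tw_comm, Subgroup.lowerCentralSeries_succ]
      exact Subgroup.commutator_mem_commutator (Subgroup.mem_top _) (Subgroup.mem_top _)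
    exact h1
  | succ n ih =>
    have h1 : (⊤ : Subgroup (TwG p z θ)).lowerCentralSeries (n + 1 + 1) ≤
        twS ((⊤ : Subgroup G).lowerCentralSeries (n + 1 + 1))
          (fun g hg => tw_lcs_zero hT.out (n + 1) hg) := by
      rw [Subgroup.lowerCentralSeries_succ, Subgroup.commutator_le]
      intro a ha b _
      change (⁅a, b⁆).v ∈ (⊤ : Subgroup G).lowerCentralSeries (n + 1 + 1)
      rw [tw_comm, Subgroup.lowerCentralSeries_succ ⊤ (n + 1)]
      exact Subgroup.commutator_mem_commutator (ih a ha) (Subgroup.mem_top _)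
    exact h1

end twist

theorem exists_twist {p : ℕ} [hp : Fact p.Prime] {G : Type u} [Group G] [Finite G]
    (hc : gam G p = ⊥) (z : ZMod p → G) (hz : ∀ a b, z (a + b) = z a * z b)
    (hzi : Function.Injective z) (hzc : ∀ a g, z a * g = g * z a) (θ : G → ZMod p)
    (hθ : ∀ g h, θ (g * h) = θ g + θ h) (hp' : ∀ g, g ^ p = z (θ g)) :
    ∃ (Gt : Type u) (_ : Group Gt) (_ : Finite Gt) (φ : G ≃ Gt),
      (∀ g h, φ (g * h * z (-(CC p (θ g) (θ h)))) = φ g * φ h) ∧
      (∀ g a, φ (g * z a) = φ g * φ (z a)) ∧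
      (∀ g a, φ (z a) * φ g = φ g * φ (z a)) ∧
      (∀ y : Gt, y ^ p = 1) ∧ gam Gt p = ⊥ := by
  have H : TwH p z θ := ⟨hz, hzi, hzc, hθ, hp'⟩
  have : Fact (TwH p z θ) := ⟨H⟩
  let φ : G ≃ TwG p z θ := ⟨fun g => ⟨g⟩, fun x => x.v, fun _ => rfl, fun _ => rfl⟩
  refine ⟨TwG p z θ, inferInstance, Finite.of_equiv G φ, φ, fun g h => rfl, fun g a => ?_,
    fun g a => ?_, fun y => ?_, ?_⟩
  · apply TwG.ext'
    rw [tw_mul_v]
    change g * z a = g * z a * z (-(CC p (θ g) (θ (z a))))
    rw [H.tz, (CC_zero _).1, neg_zero, H.z0, mul_one]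
  · apply TwG.ext'
    rw [tw_mul_v, tw_mul_v]
    change z a * g * z (-(CC p (θ (z a)) (θ g))) = g * z a * z (-(CC p (θ g) (θ (z a))))
    rw [H.tz, (CC_zero _).1, (CC_zero _).2, H.cen]
  · apply TwG.ext'
    rw [tw_pow, CC_sum, H.pw, ← H.hz, add_neg_cancel, H.z0, tw_one_v]
  · rw [eq_bot_iff]
    intro y hy
    have h2 : p - 1 = p - 2 + 1 := by
      have := hp.out.two_le
      omega
    unfold gam at hy hc
    rw [h2] at hy hc
    have h3 := tw_lcs (p - 2) y hy
    rw [hc, Subgroup.mem_bot] at h3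
    rw [Subgroup.mem_bot]
    exact TwG.ext' h3

end BAC
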