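import Pool.Agent.BAC.MatEx
import Pool.Agent.BAC.MatFr

/-!
BAC / M4 (blueprint 4.1). Solving `Fr g = u g`.

`lang_solve`: claim: for `m ≤ s ≤ p` there is `g_s` with `JJ d m (g_s - 1)` and
`R_s := Fr g_s - u g_s ∈ JJ d s`. `s = m`: `g_s = 1`. Step: `h i j` with `h^p - h = - R_s i j`
(`exists_AS`: `X ^ p - X - a` is separable, so has a root in a separably closed field), `h i j = 0` if
`R_s i j = 0`; `g_(s+1) = g_s + h`: `R_(s+1) = R_s + Fr h - h - (u - 1) h = - (u - 1) h ∈ JJ d (s + 1)`. At `s = p`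
(take `s = max m p`; `JJ.eq_zero`) `R = 0`.
`lang_ker`: `N = g⁻¹ g'`: `Fr N = (u g)⁻¹ (u g') = N`, `exists_toM`, and `JJ_toM` for `N - 1`.
`exists_lang`: for `σ`, `g' = g.map σ` satisfies the same equation (`σ` fixes `K` and so the entries of `u`), so
`g.map σ = g * toM (c σ)` with `c σ` unique (`toM_inj`, `g` invertible); `c` is multiplicative:
`g.map (σ τ) = (g * toM (c τ)).map σ = g * toM (c σ) * toM (c τ)`.
-/

namespace BAC

open WithZero

section

variable {p : ℕ} [hp : Fact p.Prime] {I : Type*} [Fintype I] [DecidableEq I] {d : I → ℕ}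

theorem exists_AS {Ω : Type*} [Field Ω] [CharP Ω p] [IsSepClosed Ω] (a : Ω) :
    ∃ w : Ω, w ^ p - w = a := by
  obtain ⟨w, hw⟩ := IsSepClosed.exists_root_C_mul_X_pow_add_C_mul_X_add_C' (k := Ω) p p 1 (-1) (-a)
    (dvd_refl p) hp.out.two_le (neg_ne_zero.2 one_ne_zero)
  exact ⟨w, by linear_combination hw⟩

theorem lang_solve {Ω : Type*} [Field Ω] [CharP Ω p] [IsSepClosed Ω] (hd : ∀ i, d i < p) {m : ℕ}
    (hm : 1 ≤ m) {u : Matrix I I Ω} (hu : JJ d m (u - 1)) :
    ∃ g : Matrix I I Ω, JJ d m (g - 1) ∧ Fr p g = u * g := by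
  have main : ∀ e : ℕ, ∃ g : Matrix I I Ω, JJ d m (g - 1) ∧ JJ d (m + e) (Fr p g - u * g) := by
    intro e
    induction e with
    | zero =>
      refine ⟨1, ?_, ?_⟩
      · rw [sub_self]; exact JJ.zero
      · have e1 : Fr p (1 : Matrix I I Ω) - u * 1 = -(u - 1) := by
          rw [Fr_one, mul_one, neg_sub]
        rw [e1]
        exact hu.neg
    | succ e ih =>
      obtain ⟨g, hg, hR⟩ := ih
      classical
      choose w hw using fun a : Ω => exists_AS (p := p) a
      obtain ⟨h, hh⟩ : ∃ h : Matrix I I Ω, h = Matrix.of fun i j =>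
          if (Fr p g - u * g) i j = 0 then 0 else w (-((Fr p g - u * g) i j)) := ⟨_, rfl⟩
      have hhJ : JJ d (m + e) h := by
        intro i j hij
        apply hR i j
        intro h0
        apply hij
        rw [hh, Matrix.of_apply, if_pos h0]
      have hhF : Fr p h - h = -(Fr p g - u * g) := by
        ext i j
        rw [Matrix.sub_apply, Matrix.neg_apply]
        show (h i j) ^ p - h i j = _
        rw [hh, Matrix.of_apply]
        by_cases h0 : (Fr p g - u * g) i j = 0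
        · rw [if_pos h0, h0, zero_pow hp.out.ne_zero, sub_zero, neg_zero]
        · rw [if_neg h0]
          exact hw _
      refine ⟨g + h, ?_, ?_⟩
      · have e1 : g + h - 1 = (g - 1) + h := by abel
        rw [e1]
        exact hg.add (JJ.mono (Nat.le_add_right m e) hhJ)
      · have e1 : Fr p (g + h) - u * (g + h) = -((u - 1) * h) := by
          rw [Fr_add, mul_add, sub_mul, one_mul]
          have e2 : Fr p h = -(Fr p g - u * g) + h := by rw [← hhF, sub_add_cancel]
          rw [e2]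
          abel
        rw [e1]
        exact JJ.mono (by omega) (hu.mul hhJ).neg
  obtain ⟨g, hg, hR⟩ := main p
  refine ⟨g, hg, ?_⟩
  exact sub_eq_zero.1 (JJ.eq_zero hd (JJ.mono (Nat.le_add_left p m) hR))

theorem lang_ker {A : Type*} [Field A] [CharP A p] (hd : ∀ i, d i < p) {u g g' : Matrix I I A}
    (hu : JJ d 1 (u - 1)) (hg : JJ d 1 (g - 1)) (hg' : JJ d 1 (g' - 1)) (h : Fr p g = u * g)
    (h' : Fr p g' = u * g') :
    ∃ γ : Matrix I I (ZMod p), JJ d 1 (γ - 1) ∧ g' = g * toM p A γ := by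
  obtain ⟨N, hN⟩ : ∃ N : Matrix I I A, N = g⁻¹ * g' := ⟨_, rfl⟩
  have e1 : g' = g * N := by
    rw [hN, ← mul_assoc, uni_mul_inv hd hg, one_mul]
  have e2 : u * (g * Fr p N) = u * (g * N) := by
    have h1 : Fr p g' = u * g * Fr p N := by rw [e1, Fr_mul, h]
    rw [h', e1] at h1
    rw [← mul_assoc, ← h1]
  have e3 : Fr p N = N := by
    have h1 : g * Fr p N = g * N := by
      have := congrArg (fun M => u⁻¹ * M) e2
      rw [← mul_assoc, ← mul_assoc u⁻¹, uni_inv_mul hd hu, one_mul, one_mul] at this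
      exact this
    have := congrArg (fun M => g⁻¹ * M) h1
    rw [← mul_assoc, ← mul_assoc g⁻¹, uni_inv_mul hd hg, one_mul, one_mul] at this
    exact this
  obtain ⟨γ, hγ⟩ := exists_toM e3
  refine ⟨γ, ?_, ?_⟩
  · rw [← JJ_toM (A := A), toM_sub, toM_one, ← hγ, hN]
    exact uni_mul (uni_inv hd le_rfl hg) hg'
  · rw [← hγ]; exact e1

end

variable {p : ℕ} [hp : Fact p.Prime] {I : Type*} [Fintype I] [DecidableEq I] {d : I → ℕ}
  {k K Ω : Type*} [Field k] [Field K]
  [Field Ω] [Algebra k K] [Algebra K Ω] [Algebra k Ω] [IsScalarTower k K Ω] [CharP k p]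
  [CharP K p] [CharP Ω p] {x : K}

theorem exists_lang (hd : ∀ i, d i < p) {Dm : Matrix I I k} (hD : JJ d 1 Dm)
    {g : Matrix I I Ω} (hg : JJ d 1 (g - 1))
    (h : Fr p g = Ex p (algebraMap K Ω x • Dm.map (algebraMap k Ω)) * g) :
    ∃ c : (Ω ≃ₐ[K] Ω) →* Matrix I I (ZMod p), Lang p x d Dm g c := by
  have hM : JJ d 1 (algebraMap K Ω x • Dm.map (algebraMap k Ω)) :=
    (hD.map (algebraMap k Ω) (map_zero _)).smul _
  have hu : JJ d 1 (Ex p (algebraMap K Ω x • Dm.map (algebraMap k Ω)) - 1) := Ex_uni le_rfl hM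
  have hf : ∀ σ : Ω ≃ₐ[K] Ω, ∃ f : Ω →+* Ω, ∀ a, f a = σ a := fun σ =>
    ⟨(σ : Ω →+* Ω), fun a => rfl⟩
  have hmapeq : ∀ (σ : Ω ≃ₐ[K] Ω) (f : Ω →+* Ω), (∀ a, f a = σ a) → ∀ N : Matrix I I Ω,
      N.map σ = N.map f := by
    intro σ f hfσ N
    ext i j
    rw [Matrix.map_apply, Matrix.map_apply, hfσ]
  have hmul : ∀ (σ : Ω ≃ₐ[K] Ω) (M N : Matrix I I Ω), (M * N).map σ = M.map σ * N.map σ := by
    intro σ M N
    obtain ⟨f, hfσ⟩ := hf σ
    rw [hmapeq σ f hfσ, hmapeq σ f hfσ, hmapeq σ f hfσ, Matrix.map_mul]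
  have huσ : ∀ σ : Ω ≃ₐ[K] Ω, (Ex p (algebraMap K Ω x • Dm.map (algebraMap k Ω))).map σ =
      Ex p (algebraMap K Ω x • Dm.map (algebraMap k Ω)) := by
    intro σ
    obtain ⟨f, hfσ⟩ := hf σ
    rw [hmapeq σ f hfσ, Ex_map]
    congr 1
    ext i j
    rw [Matrix.map_apply, hfσ, Matrix.smul_apply, Matrix.map_apply, smul_eq_mul, map_mul,
      σ.commutes, IsScalarTower.algebraMap_apply k K Ω, σ.commutes]
  have hσ : ∀ σ : Ω ≃ₐ[K] Ω, ∃ γ : Matrix I I (ZMod p), JJ d 1 (γ - 1) ∧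
      g.map σ = g * toM p Ω γ := by
    intro σ
    obtain ⟨f, hfσ⟩ := hf σ
    apply lang_ker hd hu hg _ h
    · have e1 : Fr p (g.map σ) = (Fr p g).map σ := by
        rw [hmapeq σ f hfσ, hmapeq σ f hfσ, Fr_map]
      rw [e1, h, hmul, huσ]
    · have e1 : g.map σ - 1 = (g - 1).map σ := by
        ext i j
        rw [Matrix.sub_apply, Matrix.map_apply, Matrix.map_apply, Matrix.sub_apply, map_sub]
        congr 1
        rcases eq_or_ne i j with rfl | hij
        · rw [Matrix.one_apply_eq, map_one]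
        · rw [Matrix.one_apply_ne hij, map_zero]
      rw [e1]
      exact hg.map σ (map_zero σ)
  choose c hc1 hc2 using hσ
  have hcancel : ∀ γ γ' : Matrix I I (ZMod p), g * toM p Ω γ = g * toM p Ω γ' → γ = γ' := by
    intro γ γ' hγ
    have := congrArg (fun M => g⁻¹ * M) hγ
    rw [← mul_assoc, ← mul_assoc g⁻¹, uni_inv_mul hd hg, one_mul, one_mul] at this
    exact toM_inj this
  have htoMσ : ∀ (σ : Ω ≃ₐ[K] Ω) (γ : Matrix I I (ZMod p)), (toM p Ω γ).map σ = toM p Ω γ := by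
    intro σ γ
    obtain ⟨f, hfσ⟩ := hf σ
    rw [hmapeq σ f hfσ, map_toM]
  refine ⟨{ toFun := c, map_one' := ?_, map_mul' := ?_ }, ?_⟩
  · apply hcancel
    rw [← hc2, toM_one, mul_one]
    ext i j
    rw [Matrix.map_apply]
    rfl
  · intro σ τ
    apply hcancel
    rw [← hc2, toM_mul, ← mul_assoc, ← hc2]
    have e1 : g.map (σ * τ) = (g.map τ).map σ := by
      ext i j
      rw [Matrix.map_apply, Matrix.map_apply, Matrix.map_apply]
      rfl
    rw [e1, hc2 τ, hmul, htoMσ]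
  · exact { hD := hD, hg := hg, eq := h, hc := hc1, gal := hc2 }

/-- the trivial Lang torsor -/
theorem lang_trivial : Lang p x d (0 : Matrix I I k) (1 : Matrix I I Ω) 1 := by
  refine { hD := JJ.zero, hg := ?_, eq := ?_, hc := ?_, gal := ?_ }
  · rw [sub_self]; exact JJ.zero
  · have e1 : (algebraMap K Ω x • (0 : Matrix I I k).map (algebraMap k Ω)) = 0 := by
      ext i j
      rw [Matrix.smul_apply, Matrix.map_apply, Matrix.zero_apply, map_zero, smul_zero,
        Matrix.zero_apply]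
    rw [e1, Ex_zero, Fr_one, mul_one]
  · intro σ
    rw [MonoidHom.one_apply, sub_self]
    exact JJ.zero
  · intro σ
    rw [MonoidHom.one_apply, toM_one, mul_one]
    ext i j
    rw [Matrix.map_apply]
    rcases eq_or_ne i j with rfl | hij
    · rw [Matrix.one_apply_eq, map_one]
    · rw [Matrix.one_apply_ne hij, map_zero]

end BAC
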