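import Pool.Agent.BAC.ExtVal

/-!
BAC / U3. The data of a level are unique, and `κ ≥ -1`.

`n`: from `rank` (`Nat.pow_right_injective`). `v`: `IsLevel.unique` applied to `v'.valuationSubring` (it
does not contain `x`: `v' x = exp (p ^ n)`) and `val_ext`. `κ`: `gen`. `-1 ≤ κ`: `gen`, a finrank is
`≥ 0`.
-/

namespace BAC

open Polynomial WithZero IntermediateField Pool.Agent.Helper32

variable {p : ℕ} [hp : Fact p.Prime] {k K Ω : Type*} [Field k] [Field K]
  [Field Ω] [Algebra k K] [Algebra K Ω] [Algebra k Ω] [IsScalarTower k K Ω] [CharP k p]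
  {x : K} {D : Derivation k Ω Ω}

theorem TT.unique {E : IntermediateField K Ω} {n n' : ℕ} {κ κ' : ℤ} {v v' : VI E}
    (T : TT p k x D E n κ v) (T' : TT p k x D E n' κ' v') : n' = n ∧ κ' = κ ∧ v' = v := by
  have hn : n' = n := by
    have h1 : p ^ n' = p ^ n := by rw [← T'.rank, T.rank]
    exact Nat.pow_right_injective hp.out.two_le h1
  obtain ⟨D₁, -, L⟩ := T.lvl
  obtain ⟨D₂, -, L'⟩ := T'.lvl
  obtain ⟨g, hg⟩ := L.lev
  obtain ⟨g', hg'⟩ := L'.lev
  have h2 : v'.valuationSubring = v.valuationSubring := by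
    apply hg.unique
    · intro c
      rw [Valuation.mem_valuationSubring_iff]
      by_cases hc : c = 0
      · rw [hc, map_zero, map_zero]; exact zero_le_one
      · exact (hg'.v_const c hc).le
    · rw [Valuation.mem_valuationSubring_iff, hg'.v_x, not_le, ← exp_zero, exp_lt_exp]
      have : (0 : ℤ) < p := by exact_mod_cast hp.out.pos
      positivity
  have h3 : v' = v := by
    apply val_ext _ hg.v_unif hg'.v_unif
    intro a
    rw [← Valuation.mem_valuationSubring_iff, h2, Valuation.mem_valuationSubring_iff]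
  refine ⟨hn, ?_, h3⟩
  subst h3
  have h4 := L.gen
  have h5 := L'.gen
  linarith

theorem TT.kappa {E : IntermediateField K Ω} {n : ℕ} {κ : ℤ} {v : VI E}
    (T : TT p k x D E n κ v) : -1 ≤ κ := by
  obtain ⟨D₁, -, L⟩ := T.lvl
  have h := L.gen
  omega

end BAC
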