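import Pool.Agent.BAC.TTAdj
import Pool.Agent.BAC.TTUniq
import Pool.Agent.BAC.ASGen

/-!
BAC / U6 (blueprint 1.5). Finite Galois `p`-extensions with a trace one element are in `U`.

Induction on `[E:K]` (a power of `p`: `IsPGroup.iff_card`, `IsGalois.card_aut_eq_finrank`). Degree `1`:
`E = ⊥`, `TT.bot`. Otherwise `G = Gal(E/K)` is a nontrivial `p`-group, its center is nontrivial
(`IsPGroup.center_nontrivial`) and contains a subgroup `Z` of order `p`, normal in `G`; `E₁ = ` fixed field of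
`Z`, as an intermediate field of `Ω / K` (`IntermediateField.lift`); `E₁ ≤ E`, Galois over `K` with group
`G / Z` (`IsGalois.of_fixedField_normal_subgroup`), degree `[E:K]/p`, `TrOne.sub`. By induction `UU E₁`. `as_gen`
gives `E = E₁ ⊔ K(w)`, and `TT.adj` the data of `E`.
`UU.sub`: `E ≤ E'`, `E` Galois over `K`: `Gal(E/K)` is a quotient of the `p`-group `Gal(E'/K)` (order
`p ^ n'`), `TrOne.sub`.
`UU.sup`: `Gal(E₁ ⊔ E₂ / K)` embeds in the product (its order is a power of `p`: the degree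
`[E₁ ⊔ E₂ : K]` divides `[E₁:K] [E₂:K]` for Galois extensions), `TrOne.sup`.
-/

namespace BAC

open Polynomial WithZero IntermediateField Pool.Agent.Helper32

variable {p : ℕ} [hp : Fact p.Prime] {k K Ω : Type*} [Field k] [IsAlgClosed k] [Field K]
  [Field Ω] [Algebra k K] [Algebra K Ω] [Algebra k Ω] [IsScalarTower k K Ω] [CharP k p]
  [CharP K p] [CharP Ω p] [IsSepClosure K Ω] {x : K} {vK : VI K} {D : Derivation k Ω Ω}

omit [IsAlgClosed k] [CharP k p] [CharP K p] [CharP Ω p] [IsSepClosure K Ω] in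
/-- a central step in a finite Galois extension of degree `p ^ (n + 1)` -/
private theorem uex_step (E : IntermediateField K Ω) [FiniteDimensional K E] [IsGalois K E] {n : ℕ}
    (hn : Module.finrank K E = p ^ (n + 1)) : ∃ E₁ : IntermediateField K Ω, E₁ ≤ E ∧
      IsGalois K E₁ ∧ Module.finrank K E₁ = p ^ n := by
  have hcard : Nat.card (E ≃ₐ[K] E) = p ^ (n + 1) := by
    rw [IsGalois.card_aut_eq_finrank, hn]
  have hpG : IsPGroup p (E ≃ₐ[K] E) := IsPGroup.of_card hcard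
  haveI : Finite (E ≃ₐ[K] E) := inferInstance
  haveI : Nontrivial (E ≃ₐ[K] E) := by
    rw [← Finite.one_lt_card_iff_nontrivial, hcard]
    exact Nat.one_lt_pow (Nat.succ_ne_zero n) hp.out.one_lt
  haveI := hpG.center_nontrivial
  have hpc : IsPGroup p (Subgroup.center (E ≃ₐ[K] E)) := hpG.to_subgroup _
  have h1 : p ∣ Nat.card (Subgroup.center (E ≃ₐ[K] E)) := by
    obtain ⟨m, hm⟩ := IsPGroup.iff_card.1 hpc
    have h2 : 1 < Nat.card (Subgroup.center (E ≃ₐ[K] E)) :=
      Finite.one_lt_card_iff_nontrivial.2 inferInstance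
    rw [hm] at h2 ⊢
    refine dvd_pow_self p ?_
    rintro rfl
    simp at h2
  obtain ⟨z, hz⟩ := exists_prime_orderOf_dvd_card' p h1
  have hz' : orderOf (z : E ≃ₐ[K] E) = p := by
    rw [← hz]
    exact Subgroup.orderOf_coe z
  let Z : Subgroup (E ≃ₐ[K] E) := Subgroup.zpowers (z : E ≃ₐ[K] E)
  haveI : Z.Normal := by
    refine ⟨fun a ha g => ?_⟩
    have h2 : a ∈ Subgroup.center (E ≃ₐ[K] E) := by
      have h3 : Z ≤ Subgroup.center (E ≃ₐ[K] E) := by
        rw [Subgroup.zpowers_le]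
        exact z.2
      exact h3 ha
    rw [Subgroup.mem_center_iff] at h2
    rw [h2 g, mul_inv_cancel_right]
    exact ha
  let E₀ : IntermediateField K E := IntermediateField.fixedField Z
  haveI : IsGalois K E₀ := IsGalois.of_fixedField_normal_subgroup Z
  refine ⟨IntermediateField.lift E₀, IntermediateField.lift_le E₀,
    IsGalois.of_algEquiv (IntermediateField.liftAlgEquiv E₀), ?_⟩
  have h2 : Module.finrank K (IntermediateField.lift E₀) = Module.finrank K E₀ :=
    (IntermediateField.liftAlgEquiv E₀).toLinearEquiv.finrank_eq.symm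
  have h3 : Module.finrank E₀ E = p := by
    rw [IntermediateField.finrank_fixedField_eq_card]
    exact (Nat.card_zpowers _).trans hz'
  have h4 := Module.finrank_mul_finrank K E₀ E
  rw [h3, hn, pow_succ] at h4
  rw [h2]
  exact Nat.eq_of_mul_eq_mul_right hp.out.pos h4

theorem exists_UU (B : Base p k x vK) (hD : D (algebraMap K Ω x) = 1)
    (E : IntermediateField K Ω) [FiniteDimensional K E] [IsGalois K E]
    (hG : ∃ n, Module.finrank K E = p ^ n) (hT : TrOne k x E) :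
    ∃ (n : ℕ) (κ : ℤ) (v : VI E), UU p k x D E n κ v := by
  obtain ⟨n, hn⟩ := hG
  have hcongr : ∀ E E' : IntermediateField K Ω, E = E' →
      (∃ (n : ℕ) (κ : ℤ) (v : VI E'), TT p k x D E' n κ v) →
      ∃ (n : ℕ) (κ : ℤ) (v : VI E), TT p k x D E n κ v := by
    rintro E E' rfl h
    exact h
  have key : ∀ (n : ℕ) (E : IntermediateField K Ω), FiniteDimensional K E → IsGalois K E →
      Module.finrank K E = p ^ n → TrOne k x E →
      ∃ (n : ℕ) (κ : ℤ) (v : VI E), TT p k x D E n κ v := by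
    intro n
    induction n with
    | zero =>
      intro E _ _ hn _
      rw [pow_zero, IntermediateField.finrank_eq_one_iff] at hn
      obtain ⟨v, T, -⟩ := TT.bot B hD
      exact hcongr E ⊥ hn ⟨_, _, v, T⟩
    | succ n ih =>
      intro E _ _ hn hT
      obtain ⟨E₁, hle, hgal, hn₁⟩ := uex_step (p := p) E hn
      haveI := hgal
      haveI : FiniteDimensional K E₁ := by
        have h0 : 0 < Module.finrank K E₁ := by
          rw [hn₁]
          exact pow_pos hp.out.pos n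
        exact FiniteDimensional.of_finrank_pos h0
      obtain ⟨m, κ, v, T⟩ := ih E₁ inferInstance hgal hn₁ (TrOne.sub hle hT)
      obtain ⟨w, f, hwE, hwE₁, hf, hfR, he⟩ := as_gen (p := p) hle
        (by rw [hn, hn₁, pow_succ, mul_comm]) hT
      obtain ⟨l, c, v', -, -, -, -, -, T'⟩ := TT.adj B hD T hf hfR hwE₁
      exact hcongr E _ he ⟨_, _, v', T'⟩
  obtain ⟨m, κ, v, T⟩ := key n E inferInstance inferInstance hn hT
  exact ⟨m, κ, v, ⟨T, inferInstance⟩⟩

theorem UU.sub (B : Base p k x vK) (hD : D (algebraMap K Ω x) = 1)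
    {E E' : IntermediateField K Ω} {n' : ℕ} {κ' : ℤ} {v' : VI E'} (U' : UU p k x D E' n' κ' v')
    (hE : E ≤ E') [IsGalois K E] : ∃ (n : ℕ) (κ : ℤ) (v : VI E), UU p k x D E n κ v := by
  haveI := U'.fin
  haveI := U'.gal
  have h1 : Module.finrank K E ∣ Module.finrank K E' := by
    have h2 := Module.finrank_mul_finrank K (IntermediateField.restrict hE) E'
    have h3 : Module.finrank K (IntermediateField.restrict hE) = Module.finrank K E :=
      (IntermediateField.restrict_algEquiv hE).toLinearEquiv.finrank_eq.symm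
    rw [h3] at h2
    exact ⟨_, h2.symm⟩
  haveI : FiniteDimensional K E :=
    Module.Finite.of_injective (IntermediateField.inclusion hE).toLinearMap
      (IntermediateField.inclusion_injective hE)
  rw [U'.rank] at h1
  obtain ⟨m, -, hm⟩ := (Nat.dvd_prime_pow hp.out).1 h1
  exact exists_UU B hD E ⟨m, hm⟩ (TrOne.sub hE U'.tr)

theorem UU.sup (B : Base p k x vK) (hD : D (algebraMap K Ω x) = 1)
    {E₁ E₂ : IntermediateField K Ω} {n₁ n₂ : ℕ} {κ₁ κ₂ : ℤ} {v₁ : VI E₁} {v₂ : VI E₂}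
    (U₁ : UU p k x D E₁ n₁ κ₁ v₁) (U₂ : UU p k x D E₂ n₂ κ₂ v₂) :
    ∃ (n : ℕ) (κ : ℤ) (v : VI ↥(E₁ ⊔ E₂)), UU p k x D (E₁ ⊔ E₂) n κ v := by
  haveI := U₁.fin
  haveI := U₁.gal
  haveI := U₂.fin
  haveI := U₂.gal
  haveI : IsGalois K ↥(E₁ ⊔ E₂) := ⟨⟩
  refine exists_UU B hD _ ?_ (TrOne.sup U₁.tr U₂.tr)
  let F₁ : IntermediateField K ↥(E₁ ⊔ E₂) := IntermediateField.restrict (le_sup_left : E₁ ≤ E₁ ⊔ E₂)
  let F₂ : IntermediateField K ↥(E₁ ⊔ E₂) := IntermediateField.restrict (le_sup_right : E₂ ≤ E₁ ⊔ E₂)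
  let e₁ := IntermediateField.restrict_algEquiv (le_sup_left : E₁ ≤ E₁ ⊔ E₂)
  let e₂ := IntermediateField.restrict_algEquiv (le_sup_right : E₂ ≤ E₁ ⊔ E₂)
  haveI : IsGalois K F₁ := IsGalois.of_algEquiv e₁
  haveI : IsGalois K F₂ := IsGalois.of_algEquiv e₂
  have c₁ : Nat.card (F₁ ≃ₐ[K] F₁) = p ^ n₁ := by
    rw [IsGalois.card_aut_eq_finrank, ← U₁.rank]
    exact e₁.toLinearEquiv.finrank_eq.symm
  have c₂ : Nat.card (F₂ ≃ₐ[K] F₂) = p ^ n₂ := by
    rw [IsGalois.card_aut_eq_finrank, ← U₂.rank]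
    exact e₂.toLinearEquiv.finrank_eq.symm
  let r : (↥(E₁ ⊔ E₂) ≃ₐ[K] ↥(E₁ ⊔ E₂)) →* (F₁ ≃ₐ[K] F₁) × (F₂ ≃ₐ[K] F₂) :=
    (AlgEquiv.restrictNormalHom F₁).prod (AlgEquiv.restrictNormalHom F₂)
  have hr : Function.Injective r := by
    rw [injective_iff_map_eq_one]
    intro σ hσ
    have h1 : σ ∈ F₁.fixingSubgroup := by
      rw [← IntermediateField.restrictNormalHom_ker]
      exact congrArg Prod.fst hσ
    have h2 : σ ∈ F₂.fixingSubgroup := by
      rw [← IntermediateField.restrictNormalHom_ker]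
      exact congrArg Prod.snd hσ
    rw [IntermediateField.mem_fixingSubgroup_iff] at h1 h2
    let Fσ : IntermediateField K ↥(E₁ ⊔ E₂) := IntermediateField.fixedField (Subgroup.zpowers σ)
    have h3 : ∀ y : ↥(E₁ ⊔ E₂), σ y = y → y ∈ Fσ := by
      intro y hy
      rw [IntermediateField.mem_fixedField_iff]
      intro τ hτ
      have h4 : Subgroup.zpowers σ ≤ MulAction.stabilizer (↥(E₁ ⊔ E₂) ≃ₐ[K] ↥(E₁ ⊔ E₂)) y := by
        rw [Subgroup.zpowers_le, MulAction.mem_stabilizer_iff]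
        exact hy
      exact MulAction.mem_stabilizer_iff.1 (h4 hτ)
    have h4 : E₁ ⊔ E₂ ≤ IntermediateField.lift Fσ := by
      refine sup_le ?_ ?_
      · intro y hy
        have h5 : (⟨y, (le_sup_left : E₁ ≤ E₁ ⊔ E₂) hy⟩ : ↥(E₁ ⊔ E₂)) ∈ Fσ :=
          h3 _ (h1 _ ((IntermediateField.mem_restrict _ _).2 hy))
        exact (IntermediateField.mem_lift _).2 h5
      · intro y hy
        have h5 : (⟨y, (le_sup_right : E₂ ≤ E₁ ⊔ E₂) hy⟩ : ↥(E₁ ⊔ E₂)) ∈ Fσ :=
          h3 _ (h2 _ ((IntermediateField.mem_restrict _ _).2 hy))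
        exact (IntermediateField.mem_lift _).2 h5
    apply AlgEquiv.ext
    intro y
    have h5 : y ∈ Fσ := (IntermediateField.mem_lift y).1 (h4 y.2)
    rw [IntermediateField.mem_fixedField_iff] at h5
    exact h5 σ (Subgroup.mem_zpowers σ)
  have h1 : Nat.card (↥(E₁ ⊔ E₂) ≃ₐ[K] ↥(E₁ ⊔ E₂)) ∣ p ^ (n₁ + n₂) := by
    have h2 := Subgroup.card_dvd_of_injective r hr
    rwa [Nat.card_prod, c₁, c₂, ← pow_add] at h2
  obtain ⟨m, -, hm⟩ := (Nat.dvd_prime_pow hp.out).1 h1
  exact ⟨m, by rw [← IsGalois.card_aut_eq_finrank, hm]⟩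

end BAC
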