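import Pool.Agent.BAC.LangSolve
import Pool.Agent.BAC.HomField
import Pool.Agent.BAC.UExists

/-!
BAC / L1 (blueprint 4.2). The field of a Lang torsor is in `U`.

`rint_iff`: for `a : E`, `a ∈ Rint k (algebraMap K E x) ↔ (a : Ω) ∈ Rint k (algebraMap K Ω x)` (`map_mem_Rint`,
`mem_Rint_of_map`).
`TrOne.sub_gen`: for `E ≤ E'` (no Galois condition): `θ = Algebra.trace E E' θ'` is integral
(`Algebra.isIntegral_trace` or `isIntegral_trace`; `Rint` is integrality over `k[x]`: convert), trace one by
`Algebra.trace_trace` (`E'` is an `E`-algebra via `inclusion`).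
`tt_adj_fin`: for finitely many integral `f_i ∈ E` there is a `TT` field `E' ≥ E` containing all roots of all
`w ^ p - w = f_i`: one at a time: if one root is in `E` all are (`exists_zmod_of_pow` for differences), otherwise
`TT.adj` (`E ⊔ K(w)`).
`lang_tt`: for `s : ℕ` there is a `TT` field containing all `g i j` with `d i < d j + s`, and these are integral over
`k[x]`. `s = 0, 1`: `g i j` is `1` or `0` (`uni_diag`, `uni_off`), `TT.bot`. Step: for `d i = d j + s`:
`(g i j)^p - g i j = ∑_l (Ex (x D) - 1) i l * g l j`, where only `l` with `d l + 1 ≤ d i`, `d j ≤ d l` occur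
(`Ex_uni`), so `g l j` is in the field of the previous step; the entries of `Ex (x D)` are polynomials in `x`.
`g i j` is integral: root of a monic polynomial with integral coefficients. Then `tt_adj_fin`.
`lang_uu`: `L = adjoin K {g i j}`; `σ (g i j) = (g * toM (c σ)) i j ∈ L`, so Galois (`isGalois_of_stable`), contained
in a `TT` field, so finite and `TrOne` (`TrOne.sub_gen`); `FieldOf c L`: `c σ = 1` iff `g.map σ = g` (`g` is
invertible, `toM_inj`). Degree: `FieldOf.finrank`, `range c` consists of matrices `γ` with `JJ d 1 (γ - 1)`: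
`γ ^ (p ^ N) = 1` for `p ^ N ≥ p` (`(γ - 1)^(p^N) = 0`), so it is a finite `p`-group (its image in units; or: the
set of all `γ` with `JJ d 1 (γ - 1)` is a group of `p`-power order). `exists_UU`.
-/

namespace BAC

open Polynomial WithZero IntermediateField Pool.Agent.Helper32

section

variable {k K Ω : Type*} [Field k] [Field K]
  [Field Ω] [Algebra k K] [Algebra K Ω] [Algebra k Ω] [IsScalarTower k K Ω] {x : K}

theorem rint_iff {E : IntermediateField K Ω} (a : E) :
    a ∈ Rint k (algebraMap K E x) ↔ (a : Ω) ∈ Rint k (algebraMap K Ω x) := by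
  constructor
  · intro h
    exact map_mem_Rint (E.val.restrictScalars k) h
  · intro h
    exact mem_Rint_of_map (E.val.restrictScalars k) h

theorem TrOne.sub_gen {E E' : IntermediateField K Ω} [FiniteDimensional K E'] (hE : E ≤ E')
    (h : TrOne k x E') : TrOne k x E := by
  classical
  obtain ⟨θ, h1, h2⟩ := h
  let _ : Algebra E E' := (inclusion hE).toRingHom.toAlgebra
  have : IsScalarTower K E E' := IsScalarTower.of_algebraMap_eq fun a => rfl
  have : FiniteDimensional E E' := Module.Finite.of_restrictScalars_finite K E E'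
  have : FiniteDimensional K E := FiniteDimensional.left K E E'
  refine ⟨Algebra.trace E E' θ, ?_, ?_⟩
  · let _ : Algebra k[X] E := (aeval (algebraMap K E x) : k[X] →ₐ[k] E).toRingHom.toAlgebra
    let _ : Algebra k[X] E' := (aeval (algebraMap K E' x) : k[X] →ₐ[k] E').toRingHom.toAlgebra
    have ht : IsScalarTower k[X] E E' := IsScalarTower.of_algebraMap_eq fun q => by
      change aeval (algebraMap K E' x) q =
        ((inclusion hE).restrictScalars k) (aeval (algebraMap K E x) q)
      rw [← Polynomial.aeval_algHom_apply]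
      rfl
    exact Algebra.isIntegral_trace (R := k[X]) (L := E) (F := E') h1
  · rw [Algebra.trace_trace, h2]

/-- the entries of truncated exponentials stay in a subalgebra -/
private theorem Ex_mem {p : ℕ} {I : Type*} [Fintype I] [DecidableEq I] {A : Type*} [Field A]
    [Algebra k A] (S : Subalgebra k A) {M : Matrix I I A} (hM : ∀ i j, M i j ∈ S) (i j : I) :
    Ex p M i j ∈ S := by
  have hpow : ∀ (a : ℕ) (i j : I), (M ^ a) i j ∈ S := by
    intro a
    induction a with
    | zero =>
      intro i j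
      rw [pow_zero, Matrix.one_apply]
      split_ifs
      · exact one_mem S
      · exact zero_mem S
    | succ a ih =>
      intro i j
      rw [pow_succ, Matrix.mul_apply]
      exact sum_mem fun l _ => mul_mem (ih i l) (hM l j)
  unfold Ex
  rw [Matrix.sum_apply]
  refine sum_mem fun a _ => ?_
  rw [Matrix.smul_apply, smul_eq_mul]
  refine mul_mem ?_ (hpow a i j)
  have h1 : ((a.factorial : A))⁻¹ = algebraMap k A ((a.factorial : k)⁻¹) := by
    rw [map_inv₀, map_natCast]
  rw [h1]
  exact S.algebraMap_mem _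

end

variable {p : ℕ} [hp : Fact p.Prime] {k K Ω : Type*} [Field k] [IsAlgClosed k] [Field K]
  [Field Ω] [Algebra k K] [Algebra K Ω] [Algebra k Ω] [IsScalarTower k K Ω] [CharP k p]
  [CharP K p] [CharP Ω p] [IsSepClosure K Ω] {x : K} {vK : VI K} {D : Derivation k Ω Ω}
  {I : Type*} [Fintype I] [DecidableEq I] {d : I → ℕ}

theorem tt_adj_fin (B : Base p k x vK) (hD : D (algebraMap K Ω x) = 1)
    {E : IntermediateField K Ω} {n : ℕ} {κ : ℤ} {v : VI E} (T : TT p k x D E n κ v)
    (s : Finset Ω) (hs : ∀ f ∈ s, f ∈ E ∧ f ∈ Rint k (algebraMap K Ω x)) :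
    ∃ (E' : IntermediateField K Ω) (n' : ℕ) (κ' : ℤ) (v' : VI E'), TT p k x D E' n' κ' v' ∧
      E ≤ E' ∧ ∀ f ∈ s, ∀ w : Ω, w ^ p - w = f → w ∈ E' := by
  classical
  have hcl : IsSepClosed Ω := IsSepClosure.sep_closed K
  induction s using Finset.induction_on with
  | empty => exact ⟨E, n, κ, v, T, le_rfl, fun f hf => absurd hf (Finset.notMem_empty f)⟩
  | insert f s hfs ih =>
    obtain ⟨E', n', κ', v', T', hle, hs'⟩ :=
      ih (fun f hf => hs f (Finset.mem_insert_of_mem hf))
    obtain ⟨hfE, hfR⟩ := hs f (Finset.mem_insert_self f s)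
    obtain ⟨w₀, hw₀⟩ := exists_AS (p := p) f
    have hroots : ∀ L : IntermediateField K Ω, w₀ ∈ L → ∀ w : Ω, w ^ p - w = f → w ∈ L := by
      intro L hL w hw
      have h1 : (w - w₀) ^ p = w - w₀ := by
        rw [sub_pow_char]
        linear_combination hw - hw₀
      obtain ⟨b, hb⟩ := exists_zmod_of_pow h1
      have h2 : w = w₀ + ((b.val : ℕ) : Ω) := by rw [← hb]; ring
      rw [h2]
      exact add_mem hL (_root_.natCast_mem L _)
    by_cases hw : w₀ ∈ E'
    · refine ⟨E', n', κ', v', T', hle, ?_⟩
      intro f' hf' w hwf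
      rcases Finset.mem_insert.1 hf' with rfl | hf'
      · exact hroots E' hw w hwf
      · exact hs' f' hf' w hwf
    · have hfE' : f ∈ E' := hle hfE
      obtain ⟨l, c, v'', -, -, -, -, -, T''⟩ := TT.adj B hD T' (w := w₀) (f := ⟨f, hfE'⟩) hw₀
        ((rint_iff _).2 hfR) hw
      refine ⟨_, _, _, v'', T'', hle.trans le_sup_left, ?_⟩
      intro f' hf' w hwf
      rcases Finset.mem_insert.1 hf' with rfl | hf'
      · refine hroots _ ?_ w hwf
        exact (le_sup_right : IntermediateField.adjoin K {w₀} ≤ _) (mem_adjoin_simple_self K w₀)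
      · exact (le_sup_left : E' ≤ _) (hs' f' hf' w hwf)

theorem lang_tt (B : Base p k x vK) (hD : D (algebraMap K Ω x) = 1) (hd : ∀ i, d i < p)
    {Dm : Matrix I I k} {g : Matrix I I Ω} {c : (Ω ≃ₐ[K] Ω) →* Matrix I I (ZMod p)}
    (hL : Lang p x d Dm g c) :
    ∃ (E : IntermediateField K Ω) (n : ℕ) (κ : ℤ) (v : VI E), TT p k x D E n κ v ∧
      ∀ i j, g i j ∈ E ∧ g i j ∈ Rint k (algebraMap K Ω x) := by
  classical
  obtain ⟨u, hu⟩ : ∃ u, u = Ex p (algebraMap K Ω x • Dm.map (algebraMap k Ω)) := ⟨_, rfl⟩
  have hM : JJ d 1 (algebraMap K Ω x • Dm.map (algebraMap k Ω)) :=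
    (hL.hD.map (algebraMap k Ω) (map_zero _)).smul _
  have hu1 : JJ d 1 (u - 1) := by
    rw [hu]
    exact Ex_uni le_rfl hM
  have huR : ∀ i j, u i j ∈ Rint k (algebraMap K Ω x) := by
    rw [hu]
    apply Ex_mem
    intro i j
    rw [Matrix.smul_apply, Matrix.map_apply, smul_eq_mul]
    exact mul_mem (self_mem_Rint _) ((Rint k _).algebraMap_mem _)
  have huK : ∀ i j, ∃ a : K, u i j = algebraMap K Ω a := by
    intro i j
    have h1 : algebraMap K Ω x • Dm.map (algebraMap k Ω) =
        (x • Dm.map (algebraMap k K)).map (algebraMap K Ω) := by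
      ext i j
      rw [Matrix.smul_apply, Matrix.map_apply, Matrix.map_apply, Matrix.smul_apply,
        Matrix.map_apply, smul_eq_mul, smul_eq_mul, map_mul, ← IsScalarTower.algebraMap_apply]
    refine ⟨Ex p (x • Dm.map (algebraMap k K)) i j, ?_⟩
    rw [hu, h1, ← Ex_map]
    rfl
  have hgeq : ∀ i j, (g i j) ^ p - g i j = ∑ l, (u - 1) i l * g l j := by
    intro i j
    have h1 : Fr p g = u * g := by rw [hu]; exact hL.eq
    have h2 : (g i j) ^ p = (u * g) i j := by rw [← h1]; rfl
    have h3 : (u - 1) * g = u * g - g := by rw [sub_mul, one_mul]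
    rw [h2, ← Matrix.mul_apply, h3]
    rfl
  have main : ∀ s : ℕ, ∃ (E : IntermediateField K Ω) (n : ℕ) (κ : ℤ) (v : VI E),
      TT p k x D E n κ v ∧ ∀ i j, d i < d j + s → g i j ∈ E ∧ g i j ∈ Rint k (algebraMap K Ω x) := by
    intro s
    induction s with
    | zero =>
      obtain ⟨v, T, -⟩ := TT.bot B hD
      refine ⟨⊥, _, _, v, T, ?_⟩
      intro i j hij
      have h0 : g i j = 0 := by
        by_contra h
        have hne : i ≠ j := by
          rintro rfl
          omega
        have := uni_off hL.hg hne h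
        omega
      rw [h0]
      exact ⟨zero_mem _, zero_mem _⟩
    | succ s ih =>
      obtain ⟨E, n, κ, v, T, hE⟩ := ih
      have hf : ∀ i j, d i = d j + s → (g i j) ^ p - g i j ∈ E ∧
          (g i j) ^ p - g i j ∈ Rint k (algebraMap K Ω x) := by
        intro i j hij
        rw [hgeq]
        have h1 : ∀ l, (u - 1) i l * g l j ∈ E ∧
            (u - 1) i l * g l j ∈ Rint k (algebraMap K Ω x) := by
          intro l
          by_cases h0 : (u - 1) i l = 0
          · rw [h0, zero_mul]
            exact ⟨zero_mem _, zero_mem _⟩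
          · have h2 := hu1 i l h0
            have h3 := hE l j (by omega)
            have h4 : (u - 1) i l ∈ E := by
              rw [Matrix.sub_apply]
              obtain ⟨a, ha⟩ := huK i l
              rw [ha]
              refine sub_mem (E.algebraMap_mem a) ?_
              rw [Matrix.one_apply]
              split_ifs
              · exact one_mem _
              · exact zero_mem _
            have h5 : (u - 1) i l ∈ Rint k (algebraMap K Ω x) := by
              rw [Matrix.sub_apply]
              refine sub_mem (huR i l) ?_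
              rw [Matrix.one_apply]
              split_ifs
              · exact one_mem _
              · exact zero_mem _
            exact ⟨mul_mem h4 h3.1, mul_mem h5 h3.2⟩
        exact ⟨sum_mem fun l _ => (h1 l).1, sum_mem fun l _ => (h1 l).2⟩
      obtain ⟨E', n', κ', v', T', hle, hE'⟩ := tt_adj_fin B hD T
        (((Finset.univ : Finset (I × I)).filter (fun ij => d ij.1 = d ij.2 + s)).image
          (fun ij => (g ij.1 ij.2) ^ p - g ij.1 ij.2)) (by
          intro f hfs
          obtain ⟨ij, hij, rfl⟩ := Finset.mem_image.1 hfs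
          exact hf _ _ (Finset.mem_filter.1 hij).2)
      refine ⟨E', n', κ', v', T', ?_⟩
      intro i j hij
      rcases Nat.lt_or_ge (d i) (d j + s) with h | h
      · exact ⟨hle (hE i j h).1, (hE i j h).2⟩
      · have hij' : d i = d j + s := by omega
        refine ⟨hE' _ (Finset.mem_image.2 ⟨(i, j), Finset.mem_filter.2 ⟨Finset.mem_univ _, hij'⟩,
          rfl⟩) _ rfl, ?_⟩
        exact mem_Rint_of_wp (p := p) (hf i j hij').2
  obtain ⟨E, n, κ, v, T, hE⟩ := main p
  refine ⟨E, n, κ, v, T, fun i j => hE i j ?_⟩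
  have := hd i
  omega

theorem lang_uu (B : Base p k x vK) (hD : D (algebraMap K Ω x) = 1) (hd : ∀ i, d i < p)
    {Dm : Matrix I I k} {g : Matrix I I Ω} {c : (Ω ≃ₐ[K] Ω) →* Matrix I I (ZMod p)}
    (hL : Lang p x d Dm g c) :
    ∃ (n : ℕ) (κ : ℤ) (v : VI ↥(IntermediateField.adjoin K {a | ∃ i j, a = g i j})),
      UU p k x D (IntermediateField.adjoin K {a | ∃ i j, a = g i j}) n κ v ∧
      FieldOf c (IntermediateField.adjoin K {a | ∃ i j, a = g i j}) := by
  classical
  obtain ⟨E, n, κ, v, T, hE⟩ := lang_tt B hD hd hL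
  obtain ⟨L, hLdef⟩ : ∃ L, L = IntermediateField.adjoin K {a | ∃ i j, a = g i j} := ⟨_, rfl⟩
  rw [← hLdef]
  have hgL : ∀ i j, g i j ∈ L := by
    intro i j
    rw [hLdef]
    exact IntermediateField.subset_adjoin K _ ⟨i, j, rfl⟩
  have hLE : L ≤ E := by
    rw [hLdef, IntermediateField.adjoin_le_iff]
    rintro _ ⟨i, j, rfl⟩
    exact (hE i j).1
  have hfE := T.fin
  have hfL : FiniteDimensional K L :=
    FiniteDimensional.of_injective (IntermediateField.inclusion hLE).toLinearMap
      (IntermediateField.inclusion_injective hLE)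
  have htr : TrOne k x L := TrOne.sub_gen hLE T.tr
  have hσg : ∀ (σ : Ω ≃ₐ[K] Ω) i j, σ (g i j) = (g * toM p Ω (c σ)) i j := by
    intro σ i j
    rw [← hL.gal σ]
    rfl
  have hgal : IsGalois K L := by
    apply isGalois_of_stable
    intro σ a ha
    have h1 : L ≤ L.comap (σ : Ω →ₐ[K] Ω) := by
      conv_lhs => rw [hLdef]
      rw [IntermediateField.adjoin_le_iff]
      rintro _ ⟨i, j, rfl⟩
      change σ (g i j) ∈ L
      rw [hσg, Matrix.mul_apply]
      exact sum_mem fun l _ => mul_mem (hgL i l) (_root_.natCast_mem L _)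
    exact h1 ha
  have hfo : FieldOf c L := by
    intro σ
    rw [hLdef, fx_adjoin]
    constructor
    · rintro h _ ⟨i, j, rfl⟩
      rw [hσg, h, toM_one, mul_one]
    · intro h
      have h1 : g * toM p Ω (c σ) = g := by
        ext i j
        rw [← hσg]
        exact h _ ⟨i, j, rfl⟩
      have h2 : toM p Ω (c σ) = toM p Ω 1 := by
        have h3 := congrArg (fun M => g⁻¹ * M) h1
        rw [← mul_assoc, uni_inv_mul hd hL.hg, one_mul] at h3
        rw [h3, toM_one]
      exact toM_inj h2
  let c' : (Ω ≃ₐ[K] Ω) →* (Matrix I I (ZMod p))ˣ := c.toHomUnits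
  have hc' : ∀ σ, ((c' σ : (Matrix I I (ZMod p))ˣ) : Matrix I I (ZMod p)) = c σ := fun σ => rfl
  have hfo' : FieldOf c' L := by
    intro σ
    rw [← hfo σ, Units.ext_iff, hc']
    rfl
  have hp : IsPGroup p c'.range := by
    rintro ⟨_, σ, rfl⟩
    refine ⟨1, ?_⟩
    apply Subtype.ext
    apply Units.ext
    change (c σ) ^ (p ^ 1) = 1
    rw [pow_one]
    rcases isEmpty_or_nonempty I with hI | hI
    · exact Subsingleton.elim _ _
    · have h1 : (c σ - 1) ^ p = 0 := by
        have h2 := (hL.hc σ).pow p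
        rw [one_mul] at h2
        exact JJ.eq_zero hd h2
      have h3 : (c σ - 1) ^ p = c σ ^ p - 1 ^ p :=
        sub_pow_char_of_commute p (Commute.one_right (c σ))
      rw [h1, one_pow] at h3
      exact (sub_eq_zero.1 h3.symm)
  have hcard : ∃ m, Module.finrank K L = p ^ m := by
    rw [hfo'.finrank]
    exact IsPGroup.iff_card.1 hp
  obtain ⟨m, κ', v', U⟩ := exists_UU B hD L hcard htr
  exact ⟨m, κ', v', U, hfo⟩

end BAC
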