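import Pool.Agent.BAC.CCs
import Pool.Agent.BAC.LangSolve
import Pool.Agent.BAC.HomField
import Pool.Agent.BAC.UExists
import Pool.Agent.BAC.LangTT

/-!
BAC / T1 (blueprint section 6). The second Witt coordinate.

`w₁ ^ p - w₁ = f`, `σ w₁ = w₁ + a σ`, `f ∈ K`. `exists_AS`: `w₂ ^ p - w₂ = CC p w₁ f`. For `σ`, `a = a σ`:
`y = σ w₂ - w₂ - CC p w₁ a` satisfies `y ^ p = y`: `(σ w₂)^p - σ w₂ = CC p (w₁ + a) f`,
`(CC p w₁ a)^p = CC p (w₁^p) (a^p) = CC p (w₁ + f) a` (`CC_frob`, `val_cast_pow`), and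
`CC (w₁ + a) f - CC w₁ f = CC (w₁ + f) a - CC w₁ a` (`CC_cocycle` for `(w₁, f, a)` and `(w₁, a, f)`, `CC_symm`).
`exists_zmod_of_pow` gives `b σ`. Cocycle: compute `(σ τ) w₂` in two ways, `σ` fixes `a τ`, and
`CC w₁ a_σ + CC (w₁ + a_σ) a_τ = CC a_σ a_τ + CC w₁ (a_σ + a_τ)`; `CC_map` for `ZMod.castHom` transports
`CC p (a σ) (a τ)` from `ZMod p` to `Ω` (`val_add_cast`, `val_cast_inj`).
`witt_field`: `f = e x`. `TT.bot`, `TT.adj` (or `w₁ ∈ ⊥`) twice give a `TT` field containing `w₁, w₂` (`CC p w₁ f` is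
integral); `F' = adjoin K {w₁, w₂}` is finite, stable under `Gal` (`σ w₂ = w₂ + CC w₁ (a σ) + b σ`), so Galois
(`isGalois_of_stable`), its degree is a power of `p`: `Gal(F'/K)`: every `σ` satisfies `σ^(p^2) = 1` on `F'` (`σ^p`
fixes `w₁`, and then moves `w₂` by an element of `F_p`), so it is a `p`-group. `TrOne.sub_gen`-argument: it
is contained in a `TT` field with `TrOne`; `exists_UU`. (You may prove `TrOne` of the subfield by
`Algebra.trace_trace` and integrality of traces; the same statement is `TrOne.sub_gen` in `LangTT.lean`.)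
-/

namespace BAC

open Polynomial WithZero IntermediateField Pool.Agent.Helper32

variable {p : ℕ} [hp : Fact p.Prime] {k K Ω : Type*} [Field k] [IsAlgClosed k] [Field K]
  [Field Ω] [Algebra k K] [Algebra K Ω] [Algebra k Ω] [IsScalarTower k K Ω] [CharP k p]
  [CharP K p] [CharP Ω p] [IsSepClosure K Ω] {x : K} {vK : VI K} {D : Derivation k Ω Ω}

omit [IsAlgClosed k] [Algebra k K] [Algebra k Ω] [IsScalarTower k K Ω] [CharP k p] [CharP K p]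
  [IsSepClosure K Ω] [Field k] in
/-- the second coordinate of a given solution -/
private theorem witt_b {f : K} {w₁ w₂ : Ω} (hw : w₁ ^ p - w₁ = algebraMap K Ω f)
    (hw₂ : w₂ ^ p - w₂ = CC p w₁ (algebraMap K Ω f)) {σ : Ω ≃ₐ[K] Ω} {A : Ω} (hA : A ^ p = A)
    (ha : σ w₁ = w₁ + A) :
    ∃ b : ZMod p, σ w₂ = w₂ + CC p w₁ A + ((b.val : ℕ) : Ω) := by
  have h1 : (σ w₂) ^ p - σ w₂ = CC p (w₁ + A) (algebraMap K Ω f) := by
    have h := congrArg σ hw₂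
    have h2 : σ (CC p w₁ (algebraMap K Ω f)) = CC p (σ w₁) (σ (algebraMap K Ω f)) :=
      CC_map (σ : Ω →+* Ω) _ _
    rw [map_sub, map_pow, h2, ha, σ.commutes] at h
    exact h
  have h2 : (CC p w₁ A) ^ p = CC p (w₁ + algebraMap K Ω f) A := by
    rw [CC_frob, hA, ← hw]
    congr 1
    ring
  have h3 : (σ w₂ - w₂ - CC p w₁ A) ^ p = σ w₂ - w₂ - CC p w₁ A := by
    rw [sub_pow_char, sub_pow_char, h2]
    have c1 := CC_cocycle hp.out w₁ (algebraMap K Ω f) A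
    have c2 := CC_cocycle hp.out w₁ A (algebraMap K Ω f)
    have c3 := CC_symm hp.out (algebraMap K Ω f) A
    rw [add_comm (algebraMap K Ω f) A, c3] at c1
    linear_combination h1 - hw₂ - c1 + c2
  obtain ⟨b, hb⟩ := exists_zmod_of_pow h3
  exact ⟨b, by rw [← hb]; ring⟩

theorem exists_witt {f : K} {w₁ : Ω} (hw : w₁ ^ p - w₁ = algebraMap K Ω f)
    (a : (Ω ≃ₐ[K] Ω) → ZMod p) (ha : ∀ σ, σ w₁ = w₁ + ((a σ).val : Ω)) :
    ∃ (w₂ : Ω) (b : (Ω ≃ₐ[K] Ω) → ZMod p), w₂ ^ p - w₂ = CC p w₁ (algebraMap K Ω f) ∧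
      (∀ σ, σ w₂ = w₂ + CC p w₁ ((a σ).val : Ω) + ((b σ).val : Ω)) ∧
      ∀ σ τ, b (σ * τ) = b σ + b τ + CC p (a σ) (a τ) := by
  have hcl : IsSepClosed Ω := IsSepClosure.sep_closed K
  obtain ⟨w₂, hw₂⟩ := exists_AS (p := p) (CC p w₁ (algebraMap K Ω f))
  have hb : ∀ σ : Ω ≃ₐ[K] Ω, ∃ b : ZMod p,
      σ w₂ = w₂ + CC p w₁ (((a σ).val : ℕ) : Ω) + ((b.val : ℕ) : Ω) := fun σ =>
    witt_b hw hw₂ (val_cast_pow _) (ha σ)
  choose b hb using hb
  refine ⟨w₂, b, hw₂, hb, fun σ τ => ?_⟩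
  have hadd : (((a (σ * τ)).val : ℕ) : Ω) = ((a σ).val : Ω) + ((a τ).val : Ω) := by
    have h1 := ha (σ * τ)
    have h2 : (σ * τ) w₁ = σ (τ w₁) := rfl
    rw [h2, ha τ, map_add, map_natCast, ha σ] at h1
    linear_combination -h1
  have hC : (((CC p (a σ) (a τ)).val : ℕ) : Ω) = CC p ((a σ).val : Ω) ((a τ).val : Ω) := by
    rw [val_eq_castHom, val_eq_castHom, val_eq_castHom, CC_map]
  have h1 := hb (σ * τ)
  have h2 : (σ * τ) w₂ = σ (τ w₂) := rfl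
  have h3 : σ (CC p w₁ (((a τ).val : ℕ) : Ω)) = CC p (w₁ + ((a σ).val : Ω)) ((a τ).val : Ω) := by
    have h : σ (CC p w₁ (((a τ).val : ℕ) : Ω)) = CC p (σ w₁) (σ (((a τ).val : ℕ) : Ω)) :=
      CC_map (σ : Ω →+* Ω) _ _
    rw [h, ha, map_natCast]
  rw [h2, hb τ, map_add, map_add, map_natCast, hb σ, h3, hadd] at h1
  have c1 := CC_cocycle hp.out w₁ ((a σ).val : Ω) ((a τ).val : Ω)
  refine val_cast_inj (A := Ω) ?_
  rw [val_add_cast, val_add_cast, hC]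
  linear_combination -h1 + c1

omit [IsAlgClosed k] [Algebra k K] [Algebra k Ω] [IsScalarTower k K Ω] [CharP k p] [CharP K p]
  [IsSepClosure K Ω] [Field k] [CharP Ω p] hp in
private theorem CC_mem_if (L : IntermediateField K Ω) {a b : Ω} (ha : a ∈ L) (hb : b ∈ L) :
    CC p a b ∈ L := by
  unfold CC
  exact neg_mem (sum_mem fun i _ =>
    mul_mem (mul_mem (_root_.natCast_mem L _) (pow_mem ha _)) (pow_mem hb _))

omit [IsAlgClosed k] [Algebra k K] [IsScalarTower k K Ω] [CharP k p] [CharP K p]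
  [IsSepClosure K Ω] [CharP Ω p] hp [Field K] [Algebra K Ω] in
private theorem CC_mem_sub (L : Subalgebra k Ω) {a b : Ω} (ha : a ∈ L) (hb : b ∈ L) :
    CC p a b ∈ L := by
  unfold CC
  exact neg_mem (sum_mem fun i _ =>
    mul_mem (mul_mem (_root_.natCast_mem L _) (pow_mem ha _)) (pow_mem hb _))

private theorem tt_adj_one (B : Base p k x vK) (hD : D (algebraMap K Ω x) = 1)
    {E : IntermediateField K Ω} {n : ℕ} {κ : ℤ} {v : VI E} (T : TT p k x D E n κ v) {f w : Ω}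
    (hfE : f ∈ E) (hfR : f ∈ Rint k (algebraMap K Ω x)) (hw : w ^ p - w = f) :
    ∃ (E' : IntermediateField K Ω) (n' : ℕ) (κ' : ℤ) (v' : VI E'), TT p k x D E' n' κ' v' ∧
      E ≤ E' ∧ w ∈ E' ∧ ∀ L : IntermediateField K Ω, E ≤ L → w ∈ L → E' ≤ L := by
  by_cases hwE : w ∈ E
  · exact ⟨E, n, κ, v, T, le_rfl, hwE, fun L h _ => h⟩
  · obtain ⟨l, c, v'', -, -, -, -, -, T''⟩ := TT.adj B hD T (w := w) (f := ⟨f, hfE⟩) hw
      ((rint_iff _).2 hfR) hwE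
    refine ⟨_, _, _, v'', T'', le_sup_left, ?_, ?_⟩
    · exact (le_sup_right : IntermediateField.adjoin K {w} ≤ _) (mem_adjoin_simple_self K w)
    · intro L h1 h2
      refine sup_le h1 ?_
      rw [IntermediateField.adjoin_le_iff]
      rintro _ rfl
      exact h2

theorem witt_field (B : Base p k x vK) (hD : D (algebraMap K Ω x) = 1) {e : k} {w₁ w₂ : Ω}
    (hw : w₁ ^ p - w₁ = algebraMap k Ω e * algebraMap K Ω x)
    (hw₂ : w₂ ^ p - w₂ = CC p w₁ (algebraMap k Ω e * algebraMap K Ω x)) :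
    ∃ (F' : IntermediateField K Ω) (n : ℕ) (κ : ℤ) (v : VI F'), UU p k x D F' n κ v ∧
      w₁ ∈ F' ∧ w₂ ∈ F' := by
  obtain ⟨f, hf⟩ : ∃ f : K, f = algebraMap k K e * x := ⟨_, rfl⟩
  have hfΩ : algebraMap k Ω e * algebraMap K Ω x = algebraMap K Ω f := by
    rw [hf, map_mul, ← IsScalarTower.algebraMap_apply]
  have hfR : algebraMap K Ω f ∈ Rint k (algebraMap K Ω x) := by
    rw [← hfΩ]
    exact mul_mem ((Rint k _).algebraMap_mem _) (self_mem_Rint _)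
  rw [hfΩ] at hw hw₂
  obtain ⟨v₀, T₀, -⟩ := TT.bot (D := D) B hD
  obtain ⟨E₁, n₁, κ₁, v₁, T₁, -, hw₁E, hmin₁⟩ := tt_adj_one B hD T₀
    ((⊥ : IntermediateField K Ω).algebraMap_mem f) hfR hw
  have hw₁R : w₁ ∈ Rint k (algebraMap K Ω x) := mem_Rint_of_wp (p := p) (by rw [hw]; exact hfR)
  obtain ⟨E₂, n₂, κ₂, v₂, T₂, hle, hw₂E, hmin₂⟩ := tt_adj_one B hD T₁
    (CC_mem_if (p := p) E₁ hw₁E (E₁.algebraMap_mem f)) (CC_mem_sub (p := p) _ hw₁R hfR) hw₂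
  refine ⟨E₂, n₂, κ₂, v₂, ⟨T₂, ?_⟩, hle hw₁E, hw₂E⟩
  apply isGalois_of_stable
  intro σ a ha
  have h1 : (σ w₁ - w₁) ^ p = σ w₁ - w₁ := by
    have h := congrArg σ hw
    rw [map_sub, map_pow, σ.commutes] at h
    rw [sub_pow_char]
    linear_combination h - hw
  obtain ⟨b, hb⟩ := witt_b (σ := σ) (A := σ w₁ - w₁) hw hw₂ h1 (by ring)
  obtain ⟨c, hc⟩ := exists_zmod_of_pow h1
  have hσ₁ : σ w₁ ∈ E₂ := by
    have h : σ w₁ = w₁ + (((c.val : ℕ)) : Ω) := by rw [← hc]; ring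
    rw [h]
    exact add_mem (hle hw₁E) (_root_.natCast_mem E₂ _)
  have hσ₂ : σ w₂ ∈ E₂ := by
    rw [hb]
    exact add_mem (add_mem hw₂E (CC_mem_if _ (hle hw₁E) (sub_mem hσ₁ (hle hw₁E))))
      (_root_.natCast_mem E₂ _)
  have h2 : E₂ ≤ E₂.comap (σ : Ω →ₐ[K] Ω) :=
    hmin₂ _ (hmin₁ _ bot_le hσ₁) hσ₂
  exact h2 ha

end BAC
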