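import Pool.Agent.BAC.S2Main
import Pool.Agent.BAC.WittB
import Pool.Agent.BAC.PPow
import Pool.Agent.BAC.RepEx
import Pool.Agent.BAC.Twist

/-!
BAC / T2 (blueprint section 6). THEOREM A: condition (N) and class `< p` imply exponent `p`.

`thmA_step`: `z : F_p → G` additive, injective, central, `g ^ p = z (θ g)` (choice, `hq`); `θ` is additive by
`pow_hom` (`Z = range z`, exponent `p`) and injectivity. Suppose `θ g₀ ≠ 0`.
(1) `linC_of_uu` for `χ = θ ∘ r` (zero on `Fx F`): `e`, `w₁`, `w₁^p - w₁ = e x`, `σ w₁ = w₁ + θ(r σ)`. `e ≠ 0`: otherwise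
`w₁ ^ p = w₁`, `w₁` is fixed by all `σ` (`exists_zmod_of_pow`), so `θ ∘ r = 0`, `r` is onto.
(2) `exists_witt` (`f = e x ∈ K`): `w₂`, `b`. `witt_field`: `F'` in `U`, `w₁, w₂ ∈ F'`. `F ⊔ F'` in `U` (`UU.sup`).
(3) `exists_twist`: `Gt`, `φ`. `rt σ := φ (r σ * z (- b σ))` is a hom: `φ (r σ z(-b σ)) φ (r τ z (-b τ)) =
φ (r (σ τ) z (- b σ - b τ - CC (θ rσ) (θ rτ)))` (`θ (z a) = 0`). `rt σ = 1` on `Fx (F ⊔ F')` (there `r σ = 1`, `a σ = 0`,
`CC w₁ 0 = 0`, so `b σ = 0`; note `φ 1 = 1`: `φ (1 * 1 * z (-CC 0 0)) = φ 1 φ 1`).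
`Z' := {φ (z a)}` is a central subgroup of `Gt`.
(4) `E` := field of `r mod range z` (`exists_fieldOf`, `QuotientGroup.mk'`), `E ≤ F`, in `U`, `NN`. `Fx E σ ↔ r σ ∈ range z`.
`rt σ ∈ Z'` for `σ ∈ Fx E` (and conversely `rt σ ∈ Z'` implies `r σ ∈ range z`).
(5) `exists_rep` for `Gt`: `u`. `s2_main` with `r := rt`, `F := F ⊔ F'`, `F₁ := E`, `Z := Z'`: `c σ = u (rt σ * φ (z (χ σ)))`
for a function `χ : Gal → F_p`; `χ` is additive (`u` injective, `c`, `rt` homs, `Z'` central). `L` = field of `c`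
(`lang_uu`), `NN` by `lang_NN`. `χ` is zero on `Fx ((F ⊔ F') ⊔ L)`: `polC_of_uu` gives `q`, `w₀`.
`E ≤ L`: `c σ = 1` implies `rt σ ∈ Z'`.
(6) On `Fx E`: `r σ = z (μ_F σ)`, so `rt σ = φ (z (μ_F σ - b σ))` and `c σ = u (φ (z (μ_c σ)))`,
`μ_c = μ_F - b + χ`. Both `μ_F`, `μ_c` are additive on `Fx E`, invariant under conjugation (`z` central, `Z'`
central in `Gt`, `c τ ∈ u(Gt)`), zero on `Fx F` resp. `Fx L`. `char_small`: `w_F`, `w_c`.
(7) `w₁ ∈ E` (`mem_of_fx`: `r σ ∈ range z` gives `θ (r σ) = 0`). On `Fx E`: `σ w₂ = w₂ + b σ` (`a σ = 0`),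
`σ w₀ = w₀ + χ σ`, `b - χ = μ_F - μ_c`, so `e' := w₂ - w₀ - w_F + w_c ∈ E` (`mem_of_char_eq`) and
`CC w₁ (e x) - q(x) = (w_F^p - w_F) - (w_c^p - w_c) + (e'^p - e')` is `Small`; `big_witt` and `Big.not_small`:
contradiction. So `θ = 0`, `g ^ p = z 0 = 1`.
`thmA`: induction on `Nat.card G`. If `G` is trivial: clear. Otherwise the center contains a subgroup `Z` of order
`p` (`IsPGroup.center_nontrivial`), `Z = range z` for `z : F_p → G`, `z a = ζ ^ a.val`. `G / Z` with `mk' ∘ r`, its field `≤ F`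
(`exists_fieldOf`, `UU.sub`, `UU.NN_mono`), `gam (G/Z) p = ⊥`: by induction `G / Z` has exponent `p`; `thmA_step`.
(`thmA_step` and `thmA` may be proved by different people; say which one you take.)
-/

namespace BAC

open Polynomial WithZero IntermediateField Pool.Agent.Helper32

universe u

variable {p : ℕ} [hp : Fact p.Prime] {k K Ω : Type*} [Field k] [IsAlgClosed k] [Field K]
  [Field Ω] [Algebra k K] [Algebra K Ω] [Algebra k Ω] [IsScalarTower k K Ω] [CharP k p]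
  [CharP K p] [CharP Ω p] [IsSepClosure K Ω] {x : K} {vK : VI K} {D : Derivation k Ω Ω}

theorem thmA_step (B : Base p k x vK) (hD : D (algebraMap K Ω x) = 1) {G : Type u} [Group G]
    [Finite G] (hc : gam G p = ⊥) (r : (Ω ≃ₐ[K] Ω) →* G) (hr : Function.Surjective r)
    {F : IntermediateField K Ω} {n : ℕ} {κ : ℤ} {v : VI F} (UF : UU p k x D F n κ v)
    (hN : NN p n κ) (hF : ∀ σ, Fx F σ → r σ = 1) (z : ZMod p → G)
    (hz : ∀ a b, z (a + b) = z a * z b) (hzi : Function.Injective z)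
    (hzc : ∀ a g, z a * g = g * z a) (hq : ∀ g, ∃ a, g ^ p = z a) : ∀ g : G, g ^ p = 1 := by
  classical
  choose θ hθ using hq
  -- simple facts on `z` and `θ`
  have hz0 : z 0 = 1 := by
    have h := hz 0 0
    rw [add_zero] at h
    exact mul_eq_left.1 h.symm
  have hzneg : ∀ a, (z a)⁻¹ = z (-a) := by
    intro a
    rw [inv_eq_iff_mul_eq_one, ← hz, add_neg_cancel, hz0]
  have hznat : ∀ (a : ZMod p) (m : ℕ), z a ^ m = z (m * a) := by
    intro a m
    induction m with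
    | zero => rw [pow_zero, Nat.cast_zero, zero_mul, hz0]
    | succ m ih => rw [pow_succ, ih, ← hz, Nat.cast_succ, add_mul, one_mul]
  have hzp : ∀ a, z a ^ p = 1 := by
    intro a
    rw [hznat, CharP.cast_eq_zero, zero_mul, hz0]
  obtain ⟨Zr, hZr⟩ : ∃ Zr : Subgroup G, ∀ g, g ∈ Zr ↔ ∃ a, g = z a := by
    refine ⟨{ carrier := {g | ∃ a, g = z a}, mul_mem' := ?_, one_mem' := ?_, inv_mem' := ?_ },
      fun g => Iff.rfl⟩
    · rintro _ _ ⟨a, rfl⟩ ⟨b, rfl⟩
      exact ⟨a + b, (hz a b).symm⟩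
    · exact ⟨0, hz0.symm⟩
    · rintro _ ⟨a, rfl⟩
      exact ⟨-a, hzneg a⟩
  have hZc : Zr ≤ Subgroup.center G := by
    intro g hg
    obtain ⟨a, rfl⟩ := (hZr g).1 hg
    exact Subgroup.mem_center_iff.2 fun h => (hzc a h).symm
  have hZn : Zr.Normal := ⟨fun y hy g => by
    have h := Subgroup.mem_center_iff.1 (hZc hy) g
    rw [h, mul_inv_cancel_right]
    exact hy⟩
  have hθadd : ∀ g h, θ (g * h) = θ g + θ h := by
    intro g h
    apply hzi
    rw [hz, ← hθ, ← hθ, ← hθ]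
    refine pow_hom hc Zr hZc ?_ ?_ g h
    · intro y hy
      obtain ⟨a, rfl⟩ := (hZr y).1 hy
      exact hzp a
    · intro y
      exact (hZr _).2 ⟨_, hθ y⟩
  have hθz : ∀ a, θ (z a) = 0 := by
    intro a
    apply hzi
    rw [← hθ, hzp, hz0]
  have hθ1 : θ 1 = 0 := by
    rw [← hz0]
    exact hθz 0
  by_contra hcon
  push Not at hcon
  obtain ⟨g₀, hg₀⟩ := hcon
  have hθg : θ g₀ ≠ 0 := by
    intro h
    apply hg₀
    rw [hθ, h, hz0]
  -- the linear character `θ ∘ r`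
  obtain ⟨e, w₁, hw₁, hσ₁'⟩ := linC_of_uu B hD UF hN (fun σ => θ (r σ))
    (fun σ τ => by rw [map_mul, hθadd]) (fun σ hσ => by rw [hF σ hσ, hθ1])
  have hσ₁ : ∀ σ, σ w₁ = w₁ + ((θ (r σ)).val : Ω) := hσ₁'
  have he : e ≠ 0 := by
    rintro rfl
    rw [map_zero, zero_mul, sub_eq_zero] at hw₁
    obtain ⟨b, hb⟩ := exists_zmod_of_pow hw₁
    obtain ⟨σ, hσ⟩ := hr g₀
    have h1 := hσ₁ σ
    rw [hb, map_natCast, left_eq_add, hσ] at h1
    apply hθg
    apply val_cast_inj (A := Ω)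
    rw [h1, ZMod.val_zero, Nat.cast_zero]
  -- the Witt vector extension
  have hw₁' : w₁ ^ p - w₁ = algebraMap K Ω (algebraMap k K e * x) := by
    rw [hw₁, map_mul, ← IsScalarTower.algebraMap_apply]
  obtain ⟨w₂, b, hw₂', hσ₂, hb⟩ := exists_witt hw₁' (fun σ => θ (r σ)) hσ₁
  have hw₂ : w₂ ^ p - w₂ = CC p w₁ (algebraMap k Ω e * algebraMap K Ω x) := by
    rw [hw₂', ← hw₁', hw₁]
  obtain ⟨F', n', κ', v', UF', hw₁F', hw₂F'⟩ := witt_field B hD hw₁ hw₂
  obtain ⟨nS, κS, vS, US⟩ := UU.sup B hD UF UF'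
  have hFxS : ∀ σ, Fx (F ⊔ F') σ → Fx F σ ∧ Fx F' σ := fun σ hσ =>
    ⟨fun a ha => hσ a ((le_sup_left : F ≤ F ⊔ F') ha),
      fun a ha => hσ a ((le_sup_right : F' ≤ F ⊔ F') ha)⟩
  -- the twist
  obtain ⟨Gt, instG, instF, φ, hφ1, hφ2, hφ3, hGp, hGc⟩ := exists_twist hc z hz hzi hzc θ hθadd hθ
  have hφone : φ 1 = 1 := by
    have h := hφ1 1 1
    rw [hθ1, (CC_zero _).1, neg_zero, hz0, mul_one, mul_one] at h
    exact mul_eq_left.1 h.symm
  have hφz : ∀ a b, φ (z (a + b)) = φ (z a) * φ (z b) := by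
    intro a b
    rw [hz, hφ2]
  have hφzneg : ∀ a, (φ (z a))⁻¹ = φ (z (-a)) := by
    intro a
    rw [inv_eq_iff_mul_eq_one, ← hφz, add_neg_cancel, hz0, hφone]
  have hφzi : ∀ a b, φ (z a) = φ (z b) → a = b := fun a b h => hzi (φ.injective h)
  have hφz1 : ∀ a, φ (z a) = 1 → a = 0 := by
    intro a h
    apply hφzi
    rw [h, hz0, hφone]
  have hφc : ∀ (a : ZMod p) (y : Gt), φ (z a) * y = y * φ (z a) := by
    intro a y
    obtain ⟨g, rfl⟩ := φ.surjective y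
    exact hφ3 g a
  obtain ⟨rt, hrt⟩ : ∃ rt : (Ω ≃ₐ[K] Ω) →* Gt, ∀ σ, rt σ = φ (r σ * z (-b σ)) := by
    refine ⟨MonoidHom.mk' (fun σ => φ (r σ * z (-b σ))) ?_, fun σ => rfl⟩
    intro σ τ
    rw [← hφ1, hθadd, hθadd, hθz, hθz, add_zero, add_zero]
    congr 1
    rw [hb, map_mul, neg_add, neg_add, hz, hz]
    calc r σ * r τ * (z (-b σ) * z (-b τ) * z (-CC p (θ (r σ)) (θ (r τ))))
        = r σ * (r τ * z (-b σ)) * z (-b τ) * z (-CC p (θ (r σ)) (θ (r τ))) := by group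
      _ = r σ * (z (-b σ) * r τ) * z (-b τ) * z (-CC p (θ (r σ)) (θ (r τ))) := by
        rw [hzc (-b σ) (r τ)]
      _ = _ := by group
  have hbF : ∀ σ, r σ = 1 → σ w₂ = w₂ → b σ = 0 := by
    intro σ h1 h2
    have h3 := hσ₂ σ
    rw [h1, hθ1, ZMod.val_zero, Nat.cast_zero, (CC_zero _).1, add_zero, h2, left_eq_add] at h3
    apply val_cast_inj (A := Ω)
    rw [h3, ZMod.val_zero, Nat.cast_zero]
  have hrtF : ∀ σ, Fx (F ⊔ F') σ → rt σ = 1 := by
    intro σ hσ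
    obtain ⟨h1, h2⟩ := hFxS σ hσ
    rw [hrt, hbF σ (hF σ h1) (h2 _ hw₂F'), hF σ h1, neg_zero, hz0, mul_one, hφone]
  obtain ⟨Z', hZ'⟩ : ∃ Z' : Subgroup Gt, ∀ y, y ∈ Z' ↔ ∃ a, y = φ (z a) := by
    refine ⟨⟨⟨⟨{y | ∃ a, y = φ (z a)}, ?_⟩, ?_⟩, ?_⟩, fun g => Iff.rfl⟩
    · rintro _ _ ⟨a, rfl⟩ ⟨b, rfl⟩
      exact ⟨a + b, (hφz a b).symm⟩
    · exact ⟨0, by rw [hz0, hφone]⟩
    · rintro _ ⟨a, rfl⟩
      exact ⟨-a, hφzneg a⟩
  have hZ'c : Z' ≤ Subgroup.center Gt := by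
    intro y hy
    obtain ⟨a, rfl⟩ := (hZ' y).1 hy
    exact Subgroup.mem_center_iff.2 fun h => (hφc a h).symm
  -- the field `E`
  have hFfin : FiniteDimensional K F := UF.fin
  have hFgal : IsGalois K F := UF.gal
  obtain ⟨E, hEF, hEgal, hFE, -⟩ := exists_fieldOf ((QuotientGroup.mk' Zr).comp r) F
    (fun σ hσ => by rw [MonoidHom.comp_apply, hF σ hσ, map_one])
  have hFxE : ∀ σ, Fx E σ ↔ ∃ a, r σ = z a := by
    intro σ
    rw [← hFE σ, MonoidHom.comp_apply, QuotientGroup.mk'_apply, QuotientGroup.eq_one_iff]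
    exact hZr _
  obtain ⟨nE, κE, vE, UE⟩ := UU.sub B hD UF hEF
  have hNE : NN p nE κE := UU.NN_mono B hD UE UF hEF hN
  have hrtE : ∀ σ, Fx E σ → rt σ ∈ Z' := by
    intro σ hσ
    obtain ⟨a, ha⟩ := (hFxE σ).1 hσ
    rw [hZ']
    exact ⟨a + -b σ, by rw [hrt, ha, hz]⟩
  -- the representation and the Lang torsor
  obtain ⟨nr, d, u, hu⟩ := exists_rep hGc hGp
  obtain ⟨Dm, g, c, hL, hc'⟩ := s2_main B hD hu hZ'c rt US hrtF UE hNE hrtE
  have hχe : ∀ σ, ∃ a, c σ = u (rt σ * φ (z a)) := by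
    intro σ
    obtain ⟨y, hy, h⟩ := hc' σ
    obtain ⟨a, rfl⟩ := (hZ' y).1 hy
    exact ⟨a, h⟩
  choose χ hχ using hχe
  have hχadd : ∀ σ τ, χ (σ * τ) = χ σ + χ τ := by
    intro σ τ
    have h1 : c (σ * τ) = c σ * c τ := map_mul c σ τ
    rw [hχ, hχ, hχ, ← map_mul] at h1
    have h2 := hu.inj h1
    apply hφzi
    rw [hφz]
    have h3 : rt σ * φ (z (χ σ)) * (rt τ * φ (z (χ τ))) =
        rt (σ * τ) * (φ (z (χ σ)) * φ (z (χ τ))) := by
      rw [map_mul]
      calc rt σ * φ (z (χ σ)) * (rt τ * φ (z (χ τ)))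
          = rt σ * (φ (z (χ σ)) * rt τ) * φ (z (χ τ)) := by group
        _ = rt σ * (rt τ * φ (z (χ σ))) * φ (z (χ τ)) := by rw [hφc (χ σ) (rt τ)]
        _ = _ := by group
    rw [h3] at h2
    exact mul_left_cancel h2
  obtain ⟨nL, κL, vL, UL, hFL⟩ := lang_uu B hD hu.lt hL
  have hNL := lang_NN B hD hu.lt hL UL hFL
  generalize IntermediateField.adjoin K {a | ∃ i j, a = g i j} = L at vL UL hFL
  obtain ⟨n3, κ3, v3, U3⟩ := UU.sup B hD US UL
  have hχ0 : ∀ σ, Fx ((F ⊔ F') ⊔ L) σ → χ σ = 0 := by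
    intro σ hσ
    have h1 : Fx (F ⊔ F') σ := fun a ha => hσ a ((le_sup_left : F ⊔ F' ≤ _) ha)
    have h2 : Fx L σ := fun a ha => hσ a ((le_sup_right : L ≤ (F ⊔ F') ⊔ L) ha)
    have h3 := hχ σ
    rw [(hFL σ).2 h2, hrtF σ h1, one_mul, ← map_one u] at h3
    exact hφz1 _ (hu.inj h3).symm
  obtain ⟨q, hqexp, w₀, hw₀, hσ₀⟩ := polC_of_uu B hD U3 χ hχadd hχ0
  have hEL : E ≤ L := by
    refine le_of_fx fun σ hσ => ?_
    have h3 := hχ σ
    rw [(hFL σ).2 hσ, ← map_one u] at h3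
    have h4 := (hu.inj h3).symm
    rw [hrt, ← hφ2] at h4
    rw [← hφone] at h4
    have h5 := φ.injective h4
    rw [hFxE]
    refine ⟨b σ + -χ σ, ?_⟩
    rw [hz, ← hzneg (χ σ), eq_mul_inv_iff_mul_eq]
    rw [← hzneg (b σ)] at h5
    have h6 : r σ * (z (b σ))⁻¹ * z (χ σ) * z (b σ) = z (b σ) := by rw [h5, one_mul]
    rw [mul_assoc (r σ * (z (b σ))⁻¹), hzc (χ σ) (z (b σ)), ← mul_assoc,
      inv_mul_cancel_right] at h6
    exact h6
  -- the characters on `Fx E`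
  have hμe : ∀ σ, ∃ a, Fx E σ → r σ = z a := by
    intro σ
    by_cases h : Fx E σ
    · obtain ⟨a, ha⟩ := (hFxE σ).1 h
      exact ⟨a, fun _ => ha⟩
    · exact ⟨0, fun h' => absurd h' h⟩
  choose μF hμF using hμe
  have hcE : ∀ σ, Fx E σ → c σ = u (φ (z (μF σ - b σ + χ σ))) := by
    intro σ hσ
    rw [hχ, hrt, hμF σ hσ, sub_eq_add_neg, hφz, hφz, hφ2]
  have hmulE : ∀ σ τ, Fx E σ → Fx E τ → Fx E (σ * τ) := by
    intro σ τ h1 h2
    rw [hFxE] at h1 h2 ⊢
    obtain ⟨a1, h1⟩ := h1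
    obtain ⟨a2, h2⟩ := h2
    exact ⟨a1 + a2, by rw [map_mul, h1, h2, hz]⟩
  have hconjE : ∀ τ σ, Fx E σ → Fx E (τ * σ * τ⁻¹) := by
    intro τ σ h1
    rw [hFxE] at h1 ⊢
    obtain ⟨a1, h1⟩ := h1
    exact ⟨a1, by rw [map_mul, map_mul, h1, ← hzc, map_inv, mul_inv_cancel_right]⟩
  obtain ⟨wF, hwF1, hwF2, hwF3⟩ := char_small B hD UE UF hN hEF μF
    (by
      intro σ τ h1 h2
      apply hzi
      rw [← hμF _ (hmulE σ τ h1 h2), hz, ← hμF σ h1, ← hμF τ h2, map_mul])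
    (by
      intro σ h1
      have h2 : Fx E σ := fun a ha => h1 a (hEF ha)
      apply hzi
      rw [← hμF σ h2, hF σ h1, hz0])
    (by
      intro τ σ h1
      apply hzi
      rw [← hμF _ (hconjE τ σ h1), map_mul, map_mul, hμF σ h1, ← hzc, map_inv,
        mul_inv_cancel_right])
  obtain ⟨wc, hwc1, hwc2, hwc3⟩ := char_small B hD UE UL hNL hEL (fun σ => μF σ - b σ + χ σ)
    (by
      intro σ τ h1 h2
      apply hφzi
      apply hu.inj
      rw [← hcE _ (hmulE σ τ h1 h2), hφz, map_mul, map_mul, ← hcE σ h1, ← hcE τ h2])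
    (by
      intro σ h1
      have h2 : Fx E σ := fun a ha => h1 a (hEL ha)
      apply hφz1
      apply hu.inj
      rw [← hcE σ h2, map_one]
      exact (hFL σ).2 h1)
    (by
      intro τ σ h1
      apply hφzi
      apply hu.inj
      rw [← hcE _ (hconjE τ σ h1), map_mul, map_mul, hcE σ h1]
      have h2 := hχ τ
      have h3 : c τ * c τ⁻¹ = 1 := by rw [← map_mul, mul_inv_cancel, map_one]
      rw [h2, ← map_mul, ← hφc, map_mul, mul_assoc, ← h2, h3, mul_one])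
  -- conclusion
  have hθE : ∀ σ, Fx E σ → θ (r σ) = 0 := by
    intro σ hσ
    rw [hμF σ hσ, hθz]
  have hw₁E : w₁ ∈ E := by
    refine mem_of_fx fun σ hσ => ?_
    rw [hσ₁ σ, hθE σ hσ, ZMod.val_zero, Nat.cast_zero, add_zero]
  have he' : (w₂ - w₀) - (wF - wc) ∈ E := by
    refine mem_of_char_eq (χ := fun σ => b σ - χ σ) (fun σ hσ => ?_) (fun σ hσ => ?_)
    · rw [map_sub, hσ₂ σ, hθE σ hσ, ZMod.val_zero, Nat.cast_zero, (CC_zero _).1, add_zero,
        hσ₀ σ, val_sub_cast]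
      ring
    · have h1 : b σ - χ σ = μF σ - (μF σ - b σ + χ σ) := by ring
      rw [map_sub, hwF2 σ hσ, hwc2 σ hσ, h1, val_sub_cast]
      ring
  have hbig := big_witt B hD UE hNE he hw₁E hw₁ hqexp
  apply hbig.not_small
  have hfin : CC p w₁ (algebraMap k Ω e * algebraMap K Ω x) - algebraMap K Ω (aeval x q) =
      ((wF ^ p - wF) - (wc ^ p - wc)) +
        (((w₂ - w₀) - (wF - wc)) ^ p - ((w₂ - w₀) - (wF - wc))) := by
    rw [← hw₂, ← hw₀, sub_pow_char, sub_pow_char, sub_pow_char]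
    ring
  rw [hfin]
  exact (hwF3.sub hwc3).congr he'

private theorem thmA_aux (B : Base p k x vK) (hD : D (algebraMap K Ω x) = 1) (m : ℕ) :
    ∀ {G : Type u} [Group G] [Finite G] (_ : Nat.card G ≤ m) (_ : IsPGroup p G)
      (_ : gam G p = ⊥) (r : (Ω ≃ₐ[K] Ω) →* G) (_ : Function.Surjective r)
      {F : IntermediateField K Ω} {n : ℕ} {κ : ℤ} {v : VI F} (_ : UU p k x D F n κ v)
      (_ : NN p n κ) (_ : ∀ σ, Fx F σ → r σ = 1), ∀ g : G, g ^ p = 1 := by
  induction m with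
  | zero =>
    intro G _ _ hm
    have := Nat.card_pos (α := G)
    omega
  | succ m ih =>
    intro G _ _ hm hG hc r hr F n κ v UF hN hF
    by_cases htr : Nontrivial G
    · -- a central subgroup of order `p`
      have hcn : Nontrivial (Subgroup.center G) := hG.center_nontrivial
      have hdvd : p ∣ Nat.card (Subgroup.center G) := by
        rcases (hG.to_subgroup (Subgroup.center G)).card_eq_or_dvd with h | h
        · exfalso
          have h1 := (Finite.one_lt_card_iff_nontrivial (α := Subgroup.center G)).2 hcn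
          omega
        · exact h
      obtain ⟨ζ₀, hζ₀⟩ := exists_prime_orderOf_dvd_card' p hdvd
      obtain ⟨ζ, hζ⟩ : ∃ ζ : G, ζ = (ζ₀ : G) := ⟨_, rfl⟩
      have hζp : orderOf ζ = p := by
        rw [hζ, Subgroup.orderOf_coe, hζ₀]
      have hζc : ∀ g : G, ζ * g = g * ζ := by
        intro g
        have h1 := ζ₀.2
        rw [Subgroup.mem_center_iff] at h1
        rw [hζ]
        exact (h1 g).symm
      obtain ⟨z, hz⟩ : ∃ z : ZMod p → G, z = fun a => ζ ^ a.val := ⟨_, rfl⟩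
      have hzv : ∀ a, z a = ζ ^ a.val := fun a => by rw [hz]
      have hadd : ∀ a b, z (a + b) = z a * z b := by
        intro a b
        rw [hzv, hzv, hzv, ← pow_add, ZMod.val_add]
        conv_rhs => rw [← pow_mod_orderOf, hζp]
      have hinj : Function.Injective z := by
        intro a b hab
        rw [hzv, hzv] at hab
        have h1 := pow_inj_mod.1 hab
        rw [hζp, Nat.mod_eq_of_lt (ZMod.val_lt a), Nat.mod_eq_of_lt (ZMod.val_lt b)] at h1
        exact ZMod.val_injective p h1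
      have hcomm : ∀ a g, z a * g = g * z a := by
        intro a g
        rw [hzv]
        exact ((show Commute ζ g from hζc g).pow_left a.val)
      -- the quotient
      have hZn : (Subgroup.zpowers ζ).Normal := by
        refine ⟨fun y hy g => ?_⟩
        obtain ⟨j, rfl⟩ := Subgroup.mem_zpowers_iff.1 hy
        have h1 : Commute (ζ ^ j) g := (show Commute ζ g from hζc g).zpow_left j
        rw [← h1.eq, mul_inv_cancel_right]
        exact hy
      let r' : (Ω ≃ₐ[K] Ω) →* G ⧸ Subgroup.zpowers ζ := (QuotientGroup.mk' _).comp r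
      have hr' : Function.Surjective r' := (QuotientGroup.mk'_surjective _).comp hr
      have hfin := UF.fin
      have hgal := UF.gal
      obtain ⟨E, hEF, hEg, hEf, -⟩ := exists_fieldOf r' F (fun σ hσ => by
        change QuotientGroup.mk' _ (r σ) = 1
        rw [hF σ hσ, map_one])
      obtain ⟨n', κ', v', U'⟩ := UU.sub B hD UF hEF
      have hN' := UU.NN_mono B hD U' UF hEF hN
      have hcard : Nat.card (G ⧸ Subgroup.zpowers ζ) ≤ m := by
        have h1 := Subgroup.card_eq_card_quotient_mul_card_subgroup (Subgroup.zpowers ζ)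
        rw [Nat.card_zpowers, hζp] at h1
        have h2 := hp.out.two_le
        have h3 : 0 < Nat.card (G ⧸ Subgroup.zpowers ζ) := Nat.card_pos
        have h4 := Nat.mul_le_mul_left (Nat.card (G ⧸ Subgroup.zpowers ζ)) h2
        omega
      have hgam : gam (G ⧸ Subgroup.zpowers ζ) p = ⊥ := by
        unfold gam at hc ⊢
        have h1 := Subgroup.map_lowerCentralSeries (S := (⊤ : Subgroup G))
          (QuotientGroup.mk' (Subgroup.zpowers ζ)) (p - 1)
        rw [hc, Subgroup.map_bot,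
          Subgroup.map_top_of_surjective _ (QuotientGroup.mk'_surjective _)] at h1
        exact h1.symm
      have hq := ih hcard (hG.to_quotient _) hgam r' hr' U' hN' (fun σ hσ => (hEf σ).2 hσ)
      refine thmA_step B hD hc r hr UF hN hF z hadd hinj hcomm fun g => ?_
      have h1 := hq (QuotientGroup.mk' _ g)
      rw [← map_pow] at h1
      have h2 : g ^ p ∈ Subgroup.zpowers ζ := (QuotientGroup.eq_one_iff _).1 h1
      obtain ⟨j, hj⟩ := Subgroup.mem_zpowers_iff.1 h2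
      refine ⟨(j : ZMod p), ?_⟩
      rw [hzv, ← hj, ← zpow_natCast]
      rw [zpow_eq_zpow_iff_modEq, hζp]
      rw [← ZMod.intCast_eq_intCast_iff]
      push_cast
      rw [ZMod.natCast_zmod_val]
    · have h1 : Subsingleton G := not_nontrivial_iff_subsingleton.1 htr
      intro g
      exact Subsingleton.elim _ _

theorem thmA (B : Base p k x vK) (hD : D (algebraMap K Ω x) = 1) {G : Type u} [Group G]
    [Finite G] (hG : IsPGroup p G) (hc : gam G p = ⊥) (r : (Ω ≃ₐ[K] Ω) →* G)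
    (hr : Function.Surjective r) {F : IntermediateField K Ω} {n : ℕ} {κ : ℤ} {v : VI F}
    (UF : UU p k x D F n κ v) (hN : NN p n κ) (hF : ∀ σ, Fx F σ → r σ = 1) :
    ∀ g : G, g ^ p = 1 :=
  thmA_aux B hD (Nat.card G) le_rfl hG hc r hr UF hN hF

end BAC
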