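import Pool.Agent.BAC.FFEmb
import Pool.Agent.BAC.ThmA
import Pool.Agent.BAC.RamD
import Pool.Agent.BAC.ClassBd

/-!
BAC / F12 (blueprint 8.6). The second ramification group of a big action with `|G_2| = p^n`, `n ≤ p - 2`.

`g2_of_class`: `uu_of_big`. (1) `Ram E v 3 σ ↔ (r σ : Aut F) ∈ ramGroup G P 2`: `ramGroup` membership means: fixes `P` and changes
elements of `P.1` by elements of the cube of the maximal ideal; `a ∈ P.1 ↔ v (e a) ≤ 1`, the valuation of `P`
transported by `e` is discrete with uniformizer (`mem_maximalIdeal_pow`, helper32 AS20: for the level of `F` obtained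
by transport, `IsLevel.place`, `IsLevel.mem_ramGroup`). (2) `Ram.comm` and `r` onto: `⁅G, G⁆ ≤ ramGroup G P 2`
(this is `comm_le_of_big`; it does not need the class condition). (3) `thmA` (`hF`: `FieldOf`):
every `g : G` has `g ^ p = 1`. (4) `ram_iff`: `Ram E v 3 σ ↔ r σ ∈ commutator G`, so `ramGroup G P 2 = ⁅G, G⁆` (map of
`commutator G` by the inclusion). (5) If it is trivial then `G` is abelian of exponent `p`, `kappa_abelian`:
`κ = -1`, `genus = 0`: contradiction to `2 ≤ genus`.
`g2_of_big`: by `comm_le_of_big` `Nat.card (commutator G)` divides `p^n`, so it is `p^m`, `m ≤ n`; `class_bound`: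
`gam G p = ⊥`; `g2_of_class`.
-/

namespace BAC

open Polynomial WithZero Pool.Agent.Helper32 IntermediateField

universe u

private theorem mem_ram_iff {k F : Type*} [Field k] [Field F] [Algebra k F] {w : VI F}
    (hw : ∃ t, w t = exp (-1 : ℤ)) {P : Place k F} (hP : ∀ a : F, a ∈ P.1 ↔ w a ≤ 1)
    {G : Subgroup (F ≃ₐ[k] F)} {i : ℕ} {σ : F ≃ₐ[k] F} :
    σ ∈ ramGroup G P i ↔ σ ∈ G ∧ (∀ z, w (σ z) ≤ 1 ↔ w z ≤ 1) ∧
      ∀ z, w z ≤ 1 → w (σ z - z) ≤ exp (-((i : ℤ) + 1)) := by
  obtain ⟨V, hV⟩ := P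
  have hVw : V = w.valuationSubring := by
    ext a
    exact hP a
  subst hVw
  obtain ⟨t, ht⟩ := hw
  constructor
  · rintro ⟨h1, h2, h3⟩
    refine ⟨h1, h2, fun z hz => ?_⟩
    obtain ⟨b, hb, h4⟩ := h3 ⟨z, hz⟩
    have h5 := (mem_maximalIdeal_pow ht (i + 1) b).mp hb
    have h6 : σ z - z = b := by
      have : σ z = z + b := h4
      rw [this]; ring
    rw [h6]
    exact_mod_cast h5
  · rintro ⟨h1, h2, h3⟩
    refine ⟨h1, h2, fun a => ?_⟩
    have h4 := h3 a a.2
    have h5 : w (σ (a : F) - a) ≤ 1 := h4.trans (by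
      rw [← exp_zero, exp_le_exp]; omega)
    refine ⟨⟨σ (a : F) - a, h5⟩, ?_, ?_⟩
    · exact (mem_maximalIdeal_pow ht (i + 1) _).mpr (by push_cast; exact h4)
    · change σ (a : F) = a + (σ (a : F) - a)
      ring

/-- Step (1): membership in the second ramification group, for the data of `uu_of_big`. -/
theorem ram_mem_iff {p : ℕ} [hp : Fact p.Prime] {k F : Type u} [Field k] [IsAlgClosed k]
    [CharP k p] [Field F] [Algebra k F] {G : Subgroup (F ≃ₐ[k] F)} {P : Place k F}
    {x : fixedField G}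
    {D : Derivation k (SeparableClosure (fixedField G)) (SeparableClosure (fixedField G))}
    {E : IntermediateField (fixedField G) (SeparableClosure (fixedField G))}
    {e : F ≃ₐ[fixedField G] E} {n : ℕ} {κ : ℤ} {v : VI E}
    {r : (SeparableClosure (fixedField G) ≃ₐ[fixedField G] SeparableClosure (fixedField G))
      →* G} (U : UU p k x D E n κ v)
    (hre : ∀ σ (a : F), ((e ((r σ : F ≃ₐ[k] F) a) : E) : SeparableClosure (fixedField G)) =
        σ ((e a : E) : SeparableClosure (fixedField G)))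
    (hPv : ∀ a : F, a ∈ P.1 ↔ v (e a) ≤ 1)
    (σ : SeparableClosure (fixedField G) ≃ₐ[fixedField G] SeparableClosure (fixedField G)) :
    Ram E v 3 σ ↔ ((r σ : G) : F ≃ₐ[k] F) ∈ ramGroup G P 2 := by
  have hchK : CharP (fixedField G) p :=
    charP_of_injective_algebraMap (algebraMap k (fixedField G)).injective p
  have hchO : CharP (SeparableClosure (fixedField G)) p :=
    charP_of_injective_algebraMap
      (algebraMap (fixedField G) (SeparableClosure (fixedField G))).injective p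
  -- the valuation on `F`
  obtain ⟨w, hw⟩ : ∃ w : VI F, ∀ a, w a = v (e a) :=
    ⟨v.comap (e : F →+* E), fun a => rfl⟩
  have hunif : ∃ t, w t = exp (-1 : ℤ) := by
    obtain ⟨D', hD', L⟩ := U.lvl
    obtain ⟨g, L⟩ := L.lev
    obtain ⟨t, ht⟩ := L.v_unif
    exact ⟨e.symm t, by rw [hw, AlgEquiv.apply_symm_apply, ht]⟩
  have hPw : ∀ a : F, a ∈ P.1 ↔ w a ≤ 1 := fun a => by rw [hw]; exact hPv a
  rw [mem_ram_iff hunif hPw]
  constructor
  · intro h
    refine ⟨(r σ).2, fun z => ?_, fun z hz => ?_⟩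
    · rw [hw, hw, ram_val U (hre σ z)]
    · rw [hw, map_sub]
      rw [hw] at hz
      have h1 := h (e z) (e ((r σ : F ≃ₐ[k] F) z)) (hre σ z) hz
      exact_mod_cast h1
  · rintro ⟨-, -, h⟩ a b hab ha
    have h1 : b = e ((r σ : F ≃ₐ[k] F) (e.symm a)) := by
      apply Subtype.ext
      rw [hre, AlgEquiv.apply_symm_apply]
      exact hab
    have h2 := h (e.symm a) (by rw [hw, AlgEquiv.apply_symm_apply]; exact ha)
    rw [hw, map_sub, ← h1, AlgEquiv.apply_symm_apply] at h2
    exact_mod_cast h2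

theorem comm_le_of_big {p : ℕ} [hp : Fact p.Prime] {k F : Type u} [Field k] [IsAlgClosed k]
    [CharP k p] [Field F] [Algebra k F] {G : Subgroup (F ≃ₐ[k] F)} {P : Place k F}
    (hB : IsBigAction p G P) : ⁅G, G⁆ ≤ ramGroup G P 2 := by
  obtain ⟨x, vK, D, E, e, n', κ, v, r, B, hD, U, hN, hr, hF, hre, hPv, hgen⟩ := uu_of_big hB
  have hchK : CharP (fixedField G) p :=
    charP_of_injective_algebraMap (algebraMap k (fixedField G)).injective p
  have hchO : CharP (SeparableClosure (fixedField G)) p :=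
    charP_of_injective_algebraMap
      (algebraMap (fixedField G) (SeparableClosure (fixedField G))).injective p
  rw [Subgroup.commutator_le]
  intro g₁ hg₁ g₂ hg₂
  obtain ⟨σ, hσ⟩ := hr ⟨g₁, hg₁⟩
  obtain ⟨τ, hτ⟩ := hr ⟨g₂, hg₂⟩
  have h1 := (ram_mem_iff U hre hPv _).1 (Ram.comm U σ τ)
  rw [map_mul, map_mul, map_mul, map_inv, map_inv, hσ, hτ] at h1
  exact h1

private theorem sub_le_of_big {p : ℕ} [hp : Fact p.Prime] {k F : Type u} [Field k]
    [IsAlgClosed k] [CharP k p] [Field F] [Algebra k F] {G : Subgroup (F ≃ₐ[k] F)}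
    {P : Place k F} (hB : IsBigAction p G P) :
    commutator G ≤ (ramGroup G P 2).subgroupOf G := by
  rw [commutator_def, Subgroup.commutator_le]
  intro g₁ _ g₂ _
  refine Subgroup.mem_subgroupOf.2 (comm_le_of_big hB ?_)
  exact Subgroup.commutator_mem_commutator g₁.2 g₂.2

theorem g2_of_class {p : ℕ} [hp : Fact p.Prime] {k F : Type u} [Field k] [IsAlgClosed k]
    [CharP k p] [Field F] [Algebra k F] {G : Subgroup (F ≃ₐ[k] F)} {P : Place k F}
    (hB : IsBigAction p G P) (hc : gam G p = ⊥) :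
    (∀ σ ∈ G, σ ^ p = 1) ∧ ramGroup G P 2 = ⁅G, G⁆ ∧ ramGroup G P 2 ≠ ⊥ := by
  classical
  obtain ⟨x, vK, D, E, e, n', κ, v, r, B, hD, U, hN, hr, hF, hre, hPv, hgen⟩ := uu_of_big hB
  have hfin : Finite G := hB.finite
  have hchK : CharP (fixedField G) p :=
    charP_of_injective_algebraMap (algebraMap k (fixedField G)).injective p
  have hchO : CharP (SeparableClosure (fixedField G)) p :=
    charP_of_injective_algebraMap
      (algebraMap (fixedField G) (SeparableClosure (fixedField G))).injective p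
  have key := ram_mem_iff U hre hPv
  -- the commutator subgroup
  have hRle : ramGroup G P 2 ≤ G := fun σ hσ => hσ.1
  have hcle := sub_le_of_big hB
  have hexp : ∀ g : G, g ^ p = 1 :=
    thmA B hD hB.isPGroup hc r hr U hN (fun σ hσ => (hF σ).2 hσ)
  have hReq : (ramGroup G P 2).subgroupOf G = commutator G := by
    refine le_antisymm ?_ hcle
    intro g hg
    obtain ⟨σ, rfl⟩ := hr g
    exact (ram_iff B hD U hN hexp r hr hF σ).1 ((key σ).2 (Subgroup.mem_subgroupOf.1 hg))
  have hReq2 : ramGroup G P 2 = ⁅G, G⁆ := by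
    have h1 : (commutator G).map G.subtype = ⁅G, G⁆ := by
      rw [commutator_def, Subgroup.map_commutator, ← MonoidHom.range_eq_map,
        Subgroup.range_subtype]
    rw [← h1, ← hReq, Subgroup.map_subgroupOf_eq_of_le hRle]
  refine ⟨fun σ hσ => ?_, hReq2, fun hbot => ?_⟩
  · have h1 := congrArg (Subtype.val : G → (F ≃ₐ[k] F)) (hexp ⟨σ, hσ⟩)
    exact h1
  · have hcb : commutator G = ⊥ := by
      rw [← hReq, hbot]
      exact Subgroup.bot_subgroupOf G
    have hκ := kappa_abelian B hD U hN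
      (fun σ => (hF _).1 (by rw [map_pow]; exact hexp _))
      (fun σ τ => (hF _).1 (by
        have h1 : r σ * r τ * (r σ)⁻¹ * (r τ)⁻¹ ∈ commutator G :=
          Subgroup.commutator_mem_commutator (Subgroup.mem_top _) (Subgroup.mem_top _)
        rw [hcb, Subgroup.mem_bot] at h1
        rw [map_mul, map_mul, map_mul, map_inv, map_inv]
        exact h1))
    have h2 := hB.two_le_genus
    rw [hκ] at hgen
    omega

theorem g2_of_big {p : ℕ} [hp : Fact p.Prime] {k F : Type u} [Field k] [IsAlgClosed k]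
    [CharP k p] [Field F] [Algebra k F] {G : Subgroup (F ≃ₐ[k] F)} {P : Place k F}
    (hB : IsBigAction p G P) {n : ℕ} (hn : Nat.card (ramGroup G P 2) = p ^ n)
    (hnp : n + 2 ≤ p) :
    (∀ σ ∈ G, σ ^ p = 1) ∧ ramGroup G P 2 = ⁅G, G⁆ ∧ ramGroup G P 2 ≠ ⊥ := by
  have hfin : Finite G := hB.finite
  have hRle : ramGroup G P 2 ≤ G := fun σ hσ => hσ.1
  have hcle := sub_le_of_big hB
  have hRcard : Nat.card ((ramGroup G P 2).subgroupOf G) = p ^ n := by
    rw [← hn]
    exact Nat.card_congr (Subgroup.subgroupOfEquivOfLe hRle).toEquiv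
  obtain ⟨m, hm, hmc⟩ := (Nat.dvd_prime_pow hp.out).1
    (hRcard ▸ Subgroup.card_dvd_of_le hcle : Nat.card (commutator G) ∣ p ^ n)
  exact g2_of_class hB (class_bound hB.isPGroup hmc (by omega))

end BAC
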