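import Pool.Agent.BAC.FFFinal

/-!
BAC / F13. General statements for all big actions: `G ^ p ≤ γ_p (G)` and `G_2 = [G, G] ≠ 1`.
-/

namespace BAC

open Polynomial WithZero Pool.Agent.Helper32 IntermediateField

universe u

variable {p : ℕ} [hp : Fact p.Prime] {k F : Type u} [Field k] [IsAlgClosed k]
    [CharP k p] [Field F] [Algebra k F] {G : Subgroup (F ≃ₐ[k] F)} {P : Place k F}

theorem gam_quot {G : Type*} [Group G] (n : ℕ) (N : Subgroup G) [N.Normal] (h : gam G n ≤ N) :
    gam (G ⧸ N) n = ⊥ := by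
  have h1 : (gam G n).map (QuotientGroup.mk' N) = gam (G ⧸ N) n := by
    unfold gam
    rw [Subgroup.map_lowerCentralSeries, ← MonoidHom.range_eq_map,
      MonoidHom.range_eq_top.mpr (QuotientGroup.mk'_surjective N)]
  rw [← h1, Subgroup.map_eq_bot_iff, QuotientGroup.ker_mk']
  exact h

theorem big_pow (hB : IsBigAction p G P) (g : G) : g ^ p ∈ gam G p := by
  obtain ⟨x, vK, D, E, e, n, κ, v, r, B, hD, U, hN, hr, hF, -⟩ := uu_of_big hB
  have hfin : Finite G := hB.finite
  have hc1 : CharP (fixedField G) p :=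
    charP_of_injective_algebraMap (algebraMap k (fixedField G)).injective p
  have hc2 : CharP (SeparableClosure (fixedField G)) p :=
    charP_of_injective_algebraMap
      (algebraMap (fixedField G) (SeparableClosure (fixedField G))).injective p
  have h1 : ∀ y : G ⧸ gam G p, y ^ p = 1 := by
    refine thmA B hD (G := G ⧸ gam G p) ?_ (gam_quot p _ le_rfl)
      ((QuotientGroup.mk' (gam G p)).comp r) ?_ U hN ?_
    · exact hB.isPGroup.to_quotient _
    · exact (QuotientGroup.mk'_surjective _).comp hr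
    · intro σ hσ
      rw [MonoidHom.comp_apply, (hF σ).mpr hσ, map_one]
  have h2 := h1 (QuotientGroup.mk' (gam G p) g)
  rw [← map_pow] at h2
  exact (QuotientGroup.eq_one_iff (g ^ p)).mp h2

theorem gam_le_comm {G : Type*} [Group G] {n : ℕ} (hn : 2 ≤ n) : gam G n ≤ commutator G := by
  have h1 : gam G n ≤ gam G 2 := gam_anti hn
  exact h1

theorem ram_dual' {A : Type*} [AddCommGroup A] (hA : ∀ a : A, p • a = 0) {a : A}
    (h : ∀ φ : A →+ ZMod p, φ a = 0) : a = 0 := by
  let _i : Module (ZMod p) A := AddCommGroup.zmodModule hA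
  rw [← (Module.Basis.ofVectorSpace (ZMod p) A).forall_coord_eq_zero_iff]
  intro i
  exact h ((Module.Basis.ofVectorSpace (ZMod p) A).coord i).toAddMonoidHom

theorem ram_comm_of {K Ω : Type*} [Field K]
    [Field Ω] [Algebra k K] [Algebra K Ω] [Algebra k Ω] [IsScalarTower k K Ω]
    [CharP K p] [CharP Ω p] [IsSepClosure K Ω] {x : K} {vK : VI K} {D : Derivation k Ω Ω}
    (B : Base p k x vK) (hD : D (algebraMap K Ω x) = 1)
    {E : IntermediateField K Ω} {n : ℕ} {κ : ℤ} {v : VI E} (U : UU p k x D E n κ v)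
    (hN : NN p n κ) {Γ : Type*} [Group Γ] (he : ∀ γ : Γ, γ ^ p ∈ commutator Γ)
    (r : (Ω ≃ₐ[K] Ω) →* Γ) (hF : ∀ σ, Fx E σ → r σ = 1) {σ : Ω ≃ₐ[K] Ω}
    (h : Ram E v 3 σ) : r σ ∈ commutator Γ := by
  have h2 : ∀ φ : Additive (Abelianization Γ) →+ ZMod p,
      φ (Additive.ofMul (Abelianization.of (r σ))) = 0 := by
    intro φ
    refine ram_char B hD U hN h (fun τ => φ (Additive.ofMul (Abelianization.of (r τ))))
      (fun σ τ => ?_) (fun τ hτ => ?_)
    · simp only [map_mul, ofMul_mul, map_add]
    · have h3 : r τ = 1 := hF τ hτ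
      simp only [h3, map_one, ofMul_one, map_zero]
  have h2 : Additive.ofMul (Abelianization.of (r σ)) = 0 := ram_dual' (p := p) (by
    intro a
    obtain ⟨γ, hγ⟩ : ∃ γ, Abelianization.of γ = Additive.toMul a :=
      QuotientGroup.mk_surjective _
    have h1 : (Additive.toMul a) ^ p = 1 := by
      rw [← hγ, ← map_pow, ← MonoidHom.mem_ker, Abelianization.ker_of]
      exact he γ
    exact congrArg Additive.ofMul h1) h2
  have h3 : Abelianization.of (r σ) = 1 := Additive.ofMul.injective h2
  rw [← MonoidHom.mem_ker, Abelianization.ker_of] at h3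
  exact h3

theorem big_general (hB : IsBigAction p G P) : ramGroup G P 2 = ⁅G, G⁆ ∧ ⁅G, G⁆ ≠ ⊥ := by
  have hpow := big_pow hB
  have hle := comm_le_of_big hB
  obtain ⟨x, vK, D, E, e, n, κ, v, r, B, hD, U, hN, hr, hF, hre, hPv, hg⟩ := uu_of_big hB
  have hc1 : CharP (fixedField G) p :=
    charP_of_injective_algebraMap (algebraMap k (fixedField G)).injective p
  have hc2 : CharP (SeparableClosure (fixedField G)) p :=
    charP_of_injective_algebraMap
      (algebraMap (fixedField G) (SeparableClosure (fixedField G))).injective p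
  constructor
  · refine le_antisymm ?_ hle
    intro τ hτ
    have hτG : τ ∈ G := hτ.1
    obtain ⟨σ, hσ⟩ := hr ⟨τ, hτG⟩
    have h1 : Ram E v 3 σ := by
      rw [ram_mem_iff U hre hPv σ, hσ]
      exact hτ
    have h2 : r σ ∈ commutator G :=
      ram_comm_of B hD U hN (fun γ => gam_le_comm hp.out.two_le (hpow γ)) r
        (fun σ hσ => (hF σ).mpr hσ) h1
    rw [hσ] at h2
    rw [← Subgroup.map_subtype_commutator]
    exact ⟨_, h2, rfl⟩
  · intro h
    have hcomm : commutator G = ⊥ := by
      rw [← Subgroup.map_subtype_commutator, Subgroup.map_eq_bot_iff, Subgroup.ker_subtype] at h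
      exact le_bot_iff.mp h
    have h1 : κ = -1 := by
      refine kappa_abelian B hD U hN (fun σ => ?_) (fun σ τ => ?_)
      · rw [← hF, map_pow]
        have h2 := gam_le_comm hp.out.two_le (hpow (r σ))
        rw [hcomm] at h2
        exact Subgroup.mem_bot.mp h2
      · rw [← hF]
        have h2 : r σ * r τ * (r σ)⁻¹ * (r τ)⁻¹ ∈ commutator G :=
          Subgroup.commutator_mem_commutator (Subgroup.mem_top (r σ)) (Subgroup.mem_top (r τ))
        rw [hcomm, Subgroup.mem_bot] at h2
        rw [map_mul, map_mul, map_mul, map_inv, map_inv]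
        exact h2
    have h2 := hB.two_le_genus
    rw [h1] at hg
    omega

end BAC
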