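import Pool.Agent.BAC.FFDefs

/-!
BAC / F4. Isomorphic fields have the same places, repartitions and genus.

`e : F ≃ₐ[k] F'`: places correspond by `P ↦ P.1.comap e.symm`, families by `r ↦ e ∘ r ∘ (inverse)`; repartitions,
integral and constant families correspond, so the quotients are linearly equivalent. `ff_congr`: transport of
`IsFunctionField`.
-/

namespace BAC

open Pool.Agent.Helper32 IntermediateField

variable {k F F' : Type*} [Field k] [Field F] [Field F'] [Algebra k F] [Algebra k F']

/-- pull back of places -/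
private def pb (e : F ≃ₐ[k] F') (P : Place k F') : Place k F :=
  ⟨P.1.comap (e : F →+* F'), fun c => by
      rw [ValuationSubring.mem_comap]
      have h1 : (e : F →+* F') (algebraMap k F c) = algebraMap k F' c := e.commutes c
      rw [h1]
      exact P.2.1 c, fun h => P.2.2 (by
      rw [eq_top_iff]
      intro a _
      have h1 : e.symm a ∈ P.1.comap (e : F →+* F') := by rw [h]; trivial
      rw [ValuationSubring.mem_comap] at h1
      have h2 : (e : F →+* F') (e.symm a) = a := e.apply_symm_apply a
      rwa [h2] at h1)⟩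

private theorem mem_pb {e : F ≃ₐ[k] F'} {P : Place k F'} {a : F} :
    a ∈ (pb e P).1 ↔ e a ∈ P.1 := Iff.rfl

private theorem pb_symm (e : F ≃ₐ[k] F') (P : Place k F) : pb e (pb e.symm P) = P := by
  apply Subtype.ext
  ext a
  rw [mem_pb, mem_pb, AlgEquiv.symm_apply_apply]

private theorem pb_symm' (e : F ≃ₐ[k] F') (P : Place k F') : pb e.symm (pb e P) = P := by
  apply Subtype.ext
  ext a
  rw [mem_pb, mem_pb, AlgEquiv.apply_symm_apply]

private def fam (e : F ≃ₐ[k] F') : (Place k F → F) ≃ₗ[k] (Place k F' → F') where
  toFun r P := e (r (pb e P))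
  invFun r P := e.symm (r (pb e.symm P))
  map_add' r s := by
    funext P
    simp
  map_smul' c r := by
    funext P
    simp
  left_inv r := by
    funext P
    simp [pb_symm]
  right_inv r := by
    funext P
    simp [pb_symm']

private theorem fam_apply (e : F ≃ₐ[k] F') (r : Place k F → F) (P : Place k F') :
    fam e r P = e (r (pb e P)) := rfl

private theorem fam_mem (e : F ≃ₐ[k] F') {r : Place k F → F} :
    fam e r ∈ repartitions k F' ↔ r ∈ repartitions k F := by
  change {P : Place k F' | fam e r P ∉ P.1}.Finite ↔ {P : Place k F | r P ∉ P.1}.Finite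
  have h1 : ∀ P : Place k F', fam e r P ∉ P.1 ↔ r (pb e P) ∉ (pb e P).1 := by
    intro P
    rw [fam_apply, mem_pb]
  constructor
  · intro h
    refine (h.image (pb e)).subset ?_
    intro P hP
    refine ⟨pb e.symm P, ?_, pb_symm e P⟩
    rw [Set.mem_ofPred_eq] at *
    rw [h1, pb_symm]
    exact hP
  · intro h
    refine (h.image (pb e.symm)).subset ?_
    intro P hP
    refine ⟨pb e P, ?_, pb_symm' e P⟩
    rw [Set.mem_ofPred_eq] at *
    rw [← h1]
    exact hP

private theorem fam_triv (e : F ≃ₐ[k] F') {r : Place k F → F}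
    (h : r ∈ integralFamilies k F ⊔ constantFamilies k F) :
    fam e r ∈ integralFamilies k F' ⊔ constantFamilies k F' := by
  rw [Submodule.mem_sup] at *
  obtain ⟨s, hs, t, ⟨f, hf⟩, rfl⟩ := h
  refine ⟨fam e s, ?_, fam e t, ⟨e f, fun P => by rw [fam_apply, hf]⟩, (map_add _ _ _).symm⟩
  intro P
  rw [fam_apply]
  exact hs (pb e P)

private theorem fam_symm (e : F ≃ₐ[k] F') (r : Place k F → F) :
    fam e.symm (fam e r) = r := (fam e).left_inv r

private theorem fam_symm' (e : F ≃ₐ[k] F') (r : Place k F' → F') :
    fam e (fam e.symm r) = r := (fam e).right_inv r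

private def rep (e : F ≃ₐ[k] F') : repartitions k F ≃ₗ[k] repartitions k F' :=
  LinearEquiv.ofSubmodules (fam e) _ _ (by
    ext r
    rw [Submodule.mem_map]
    constructor
    · rintro ⟨s, hs, rfl⟩
      exact (fam_mem e).2 hs
    · intro hr
      exact ⟨fam e.symm r, (fam_mem e.symm).2 hr, fam_symm' e r⟩)

private theorem rep_coe (e : F ≃ₐ[k] F') (r : repartitions k F) :
    ((rep e r : repartitions k F') : Place k F' → F') = fam e r := rfl

private theorem rep_map (e : F ≃ₐ[k] F') :
    (trivialRepartitions k F).map (rep e : repartitions k F →ₗ[k] repartitions k F') =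
      trivialRepartitions k F' := by
  ext r
  rw [Submodule.mem_map]
  constructor
  · rintro ⟨s, hs, rfl⟩
    change ((rep e s : repartitions k F') : Place k F' → F') ∈
      integralFamilies k F' ⊔ constantFamilies k F'
    rw [rep_coe]
    exact fam_triv e hs
  · intro hr
    refine ⟨(rep e).symm r, ?_, (rep e).apply_symm_apply r⟩
    change (((rep e).symm r : repartitions k F) : Place k F → F) ∈
      integralFamilies k F ⊔ constantFamilies k F
    have h1 : (((rep e).symm r : repartitions k F) : Place k F → F) =
        fam e.symm (r : Place k F' → F') := by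
      have h2 : ((rep e ((rep e).symm r) : repartitions k F') : Place k F' → F') = r := by
        rw [LinearEquiv.apply_symm_apply]
      rw [← h2, rep_coe, fam_symm]
    rw [h1]
    exact fam_triv e.symm hr

theorem h1_congr (e : F ≃ₐ[k] F') : Nonempty ((repartitions k F ⧸ trivialRepartitions k F) ≃ₗ[k]
    (repartitions k F' ⧸ trivialRepartitions k F')) :=
  ⟨Submodule.Quotient.equiv _ _ (rep e) (rep_map e)⟩

theorem genus_congr (e : F ≃ₐ[k] F') : genus k F = genus k F' := by
  obtain ⟨φ⟩ := h1_congr e
  exact φ.finrank_eq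

theorem h1Zero_congr (e : F ≃ₐ[k] F') (h : H1Zero k F) : H1Zero k F' := by
  intro r
  have h1 := h ⟨fam e.symm r, (fam_mem e.symm).2 r.2⟩
  have h2 := fam_triv e h1
  rw [Submodule.subtype_apply] at h2
  change fam e (fam e.symm (r : Place k F' → F')) ∈ _ at h2
  rw [fam_symm'] at h2
  exact h2

theorem ff_congr (e : F ≃ₐ[k] F') (h : IsFunctionField k F) : IsFunctionField k F' := by
  obtain ⟨x, hx, hfd⟩ := h
  have hmap : (IntermediateField.adjoin k {x}).map (e : F →ₐ[k] F') =
      IntermediateField.adjoin k {e x} := by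
    rw [IntermediateField.adjoin_map, Set.image_singleton]
    rfl
  refine ⟨e x, ?_, ?_⟩
  · intro hcon
    apply hx
    have h1 := hcon.algHom (e.symm : F' →ₐ[k] F)
    have h2 : (e.symm : F' →ₐ[k] F) (e x) = x := e.symm_apply_apply x
    rwa [h2] at h1
  · rw [← hmap]
    let e₁ := (IntermediateField.adjoin k {x}).equivMap (e : F →ₐ[k] F')
    exact Module.Finite.of_equiv_equiv (A₁ := ↥(IntermediateField.adjoin k {x})) (B₁ := F)
      (A₂ := ↥((IntermediateField.adjoin k {x}).map (e : F →ₐ[k] F'))) (B₂ := F')
      e₁.toRingEquiv e.toRingEquiv (RingHom.ext fun a => rfl)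

/-- finite-dimensional and of dimension zero -/
theorem h1Zero_of_genus (hfin : H1Fin k F) (h : genus k F = 0) : H1Zero k F := by
  have hfin' : Module.Finite k (repartitions k F ⧸ trivialRepartitions k F) := hfin
  have h1 : Subsingleton (repartitions k F ⧸ trivialRepartitions k F) :=
    Module.finrank_zero_iff.1 h
  rw [Submodule.Quotient.subsingleton_iff] at h1
  intro r
  rw [h1]
  trivial

end BAC
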