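import Pool.Agent.BAC.FFTau

/-!
BAC / F7 (blueprint 8.2 (b)). `(p - 1) |S| ≤ genus F` for a set `S` of fixed places `≠ P`.

`w` with `τ w = w + 1`. `Φ : (S → Fin (p-1) → k) → H¹(F)`, `c ↦` class of the family `r_c`:
`r_c V = ∑_{j<p-1} c V j * w ^ (j+1)` if `V ∈ S`, `0` otherwise (a repartition: `S` is finite). Linear and
injective: suppose `r_c = b + f`, `c ≠ 0`, `d` (`1 ≤ d ≤ p - 1`) the largest exponent occurring. `τ V = V` for `V ∈ S`, so
`(actFam τ - 1)^d r_c` is `V ↦ d! c_V` (`c_V` = coefficient of `w^d`) for `V ∈ S` and `0` otherwise (`delta_pow`).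
So `d! c_V = b' V + h` on `S`, `0 = b' V + h` outside `S`, `b' = (actFam τ - 1)^d b`, `h = Δ^d f`. `h` is integral
everywhere, so a constant (`ff_const`); at `P ∉ S`: `h = - b' P` has valuation `< 1` (`d ≥ 1`, `fix_small`), so
`h = 0`. At `V ∈ S`: `d! c_V = b' V` has valuation `< 1` (`fix_small`), so `c_V = 0` (`const_eq_zero_of_lt`),
contradiction. So `(p - 1) |S| ≤ dim H¹(F)` (finite-dimensional).
-/

namespace BAC

open Pool.Agent.Helper32 IntermediateField

variable {p : ℕ} [hp : Fact p.Prime] {k F : Type*} [Field k] [IsAlgClosed k] [CharP k p]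
  [Field F] [Algebra k F]

/-- `τ - 1` on families -/
private def ffD (τ : F ≃ₐ[k] F) (r : Place k F → F) : Place k F → F :=
  fun V => actFam τ r V - r V

omit [IsAlgClosed k] in
private theorem fixes_inv {τ : F ≃ₐ[k] F} {V : Place k F} (h : FixesPlace τ V) :
    actPl τ⁻¹ V = V := by
  rw [← fixesPlace_iff]
  intro a
  have h1 := h (τ⁻¹ a)
  have h0 : τ (τ⁻¹ a) = a := by
    rw [← AlgEquiv.mul_apply, mul_inv_cancel]; rfl
  rw [h0] at h1
  exact h1.symm

omit [IsAlgClosed k] in
private theorem ffD_integral {τ : F ≃ₐ[k] F} {b : Place k F → F} (hb : ∀ V, b V ∈ V.1) (n : ℕ) :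
    ∀ V, (ffD τ)^[n] b V ∈ V.1 := by
  induction n with
  | zero => exact hb
  | succ n ih =>
    intro V
    rw [Function.iterate_succ_apply']
    exact sub_mem (act_integral ih V) (ih V)

omit [IsAlgClosed k] in
private theorem ffD_fixed {τ : F ≃ₐ[k] F} {V : Place k F} (h : FixesPlace τ V) (n : ℕ)
    (r : Place k F → F) : (ffD τ)^[n] r V = (fun y => τ y - y)^[n] (r V) := by
  induction n generalizing r with
  | zero => rfl
  | succ n ih =>
    rw [Function.iterate_succ_apply, Function.iterate_succ_apply, ih]
    congr 1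
    unfold ffD actFam
    rw [fixes_inv h]

omit [IsAlgClosed k] in
private theorem ffD_const (τ : F ≃ₐ[k] F) (n : ℕ) (f : F) :
    (ffD τ)^[n] (fun _ => f) = fun _ => (fun y => τ y - y)^[n] f := by
  induction n generalizing f with
  | zero => rfl
  | succ n ih =>
    rw [Function.iterate_succ_apply]
    have h1 : ffD τ (fun _ => f) = fun _ => (τ f - f) := rfl
    rw [h1, ih]
    rfl

omit [IsAlgClosed k] in
private theorem ffD_add (τ : F ≃ₐ[k] F) (n : ℕ) (r s : Place k F → F) :
    (ffD τ)^[n] (fun V => r V + s V) = fun V => (ffD τ)^[n] r V + (ffD τ)^[n] s V := by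
  induction n generalizing r s with
  | zero => rfl
  | succ n ih =>
    rw [Function.iterate_succ_apply, Function.iterate_succ_apply, Function.iterate_succ_apply,
      ← ih]
    congr 1
    funext V
    unfold ffD actFam
    rw [map_add]
    ring

omit [IsAlgClosed k] in
private theorem ffD_supp {τ : F ≃ₐ[k] F} {S : Finset (Place k F)}
    (hS : ∀ Q ∈ S, FixesPlace τ Q) (n : ℕ) (r : Place k F → F) (hr : ∀ V, V ∉ S → r V = 0) :
    ∀ V, V ∉ S → (ffD τ)^[n] r V = 0 := by
  induction n generalizing r with
  | zero => exact hr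
  | succ n ih =>
    rw [Function.iterate_succ_apply]
    apply ih
    intro V hV
    unfold ffD actFam
    have h1 : actPl τ⁻¹ V ∉ S := by
      intro h
      apply hV
      have h2 := fixesPlace_iff.1 (hS _ h)
      have h3 : actPl τ (actPl τ⁻¹ V) = V := by
        apply Subtype.ext
        ext a
        rw [mem_actPl, mem_actPl]
        have h4 : (τ⁻¹ : F ≃ₐ[k] F).symm (τ.symm a) = a := by
          have h5 : (τ⁻¹ : F ≃ₐ[k] F).symm = τ := by
            rw [← AlgEquiv.aut_inv, inv_inv]
          rw [h5, AlgEquiv.apply_symm_apply]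
        rw [h4]
      rw [h3] at h2
      rw [h2]
      exact h
    rw [hr _ h1, hr V hV, map_zero, sub_zero]

/-- the repartition of a family of coefficients -/
private noncomputable def ffR (S : Finset (Place k F)) (w : F) :
    (S → Fin (p - 1) → k) →ₗ[k] repartitions k F := by
  classical
  exact
  { toFun := fun c => ⟨fun V => if h : V ∈ S then
        ∑ j : Fin (p - 1), algebraMap k F (c ⟨V, h⟩ j) * w ^ ((j : ℕ) + 1) else 0, by
          refine S.finite_toSet.subset ?_
          intro V hV
          by_contra hcon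
          apply hV
          have h1 : V ∉ S := hcon
          show (if h : V ∈ S then _ else (0 : F)) ∈ V.1
          rw [dif_neg h1]
          exact zero_mem _⟩
    map_add' := by
      intro c c'
      apply Subtype.ext
      funext V
      show (if h : V ∈ S then _ else (0 : F)) = (if h : V ∈ S then _ else (0 : F)) +
        (if h : V ∈ S then _ else (0 : F))
      by_cases h : V ∈ S
      · rw [dif_pos h, dif_pos h, dif_pos h, ← Finset.sum_add_distrib]
        refine Finset.sum_congr rfl fun j _ => ?_
        rw [Pi.add_apply, Pi.add_apply, map_add, add_mul]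
      · rw [dif_neg h, dif_neg h, dif_neg h, add_zero]
    map_smul' := by
      intro a c
      apply Subtype.ext
      funext V
      show (if h : V ∈ S then _ else (0 : F)) = a • (if h : V ∈ S then _ else (0 : F))
      by_cases h : V ∈ S
      · rw [dif_pos h, dif_pos h, Finset.smul_sum]
        refine Finset.sum_congr rfl fun j _ => ?_
        rw [Pi.smul_apply, Pi.smul_apply, smul_eq_mul, map_mul, Algebra.smul_def, mul_assoc]
      · rw [dif_neg h, dif_neg h, smul_zero] }

omit [IsAlgClosed k] in
private theorem ffR_mem {S : Finset (Place k F)} {w : F} {c : S → Fin (p - 1) → k}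
    {V : Place k F} (h : V ∈ S) : (ffR (p := p) S w c : Place k F → F) V =
      ∑ j : Fin (p - 1), algebraMap k F (c ⟨V, h⟩ j) * w ^ ((j : ℕ) + 1) := by
  classical
  show (if h : V ∈ S then _ else (0 : F)) = _
  rw [dif_pos h]

omit [IsAlgClosed k] in
private theorem ffR_not_mem {S : Finset (Place k F)} {w : F} {c : S → Fin (p - 1) → k}
    {V : Place k F} (h : V ∉ S) : (ffR (p := p) S w c : Place k F → F) V = 0 := by
  classical
  show (if h : V ∈ S then _ else (0 : F)) = _
  rw [dif_neg h]

omit [IsAlgClosed k] in
private theorem delta_add (τ : F ≃ₐ[k] F) (n : ℕ) (x y : F) :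
    (fun y => τ y - y)^[n] (x + y) = (fun y => τ y - y)^[n] x + (fun y => τ y - y)^[n] y := by
  induction n generalizing x y with
  | zero => rfl
  | succ n ih =>
    rw [Function.iterate_succ_apply, Function.iterate_succ_apply, Function.iterate_succ_apply,
      ← ih]
    congr 1
    simp only [map_add]
    ring

omit [IsAlgClosed k] in
private theorem delta_zero (τ : F ≃ₐ[k] F) (n : ℕ) : (fun y => τ y - y)^[n] (0 : F) = 0 := by
  induction n with
  | zero => rfl
  | succ n ih =>
    rw [Function.iterate_succ_apply]
    simp only [map_zero, sub_zero]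
    exact ih

omit [IsAlgClosed k] in
private theorem delta_sum (τ : F ≃ₐ[k] F) (n : ℕ) {ι : Type*} (s : Finset ι) (g : ι → F) :
    (fun y => τ y - y)^[n] (∑ i ∈ s, g i) = ∑ i ∈ s, (fun y => τ y - y)^[n] (g i) := by
  classical
  induction s using Finset.induction_on with
  | empty => rw [Finset.sum_empty, Finset.sum_empty, delta_zero]
  | insert a s ha ih => rw [Finset.sum_insert ha, Finset.sum_insert ha, delta_add, ih]

private theorem ffR_inj (hF : IsFunctionField k F) {τ : F ≃ₐ[k] F} {w : F} (hw : τ w = w + 1)
    {P : Place k F} (hP : FixesPlace τ P) (S : Finset (Place k F))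
    (hS : ∀ Q ∈ S, FixesPlace τ Q ∧ Q ≠ P) (c : S → Fin (p - 1) → k)
    (h : ffR (p := p) S w c ∈ trivialRepartitions k F) : c = 0 := by
  have hPS : P ∉ S := fun h => (hS P h).2 rfl
  -- decomposition
  obtain ⟨b, hb, f0, hf0, hbf⟩ := Submodule.mem_sup.1 h
  obtain ⟨f, hf⟩ := hf0
  have hb' : ∀ V, b V ∈ V.1 := hb
  have hsum : (ffR (p := p) S w c : Place k F → F) = fun V => b V + (fun _ => f) V := by
    funext V
    have h1 := congrFun hbf V
    rw [← hf V]
    exact h1.symm
  have main : ∀ n : ℕ, ∀ j : Fin (p - 1), p - 1 - (j : ℕ) = n → ∀ V : S, c V j = 0 := by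
    intro n
    induction n using Nat.strong_induction_on with
    | _ n ih =>
      intro j hj V
      have hjp := j.2
      set d : ℕ := (j : ℕ) + 1 with hd
      have hbig : ∀ j' : Fin (p - 1), (j : ℕ) < j' → ∀ V : S, c V j' = 0 := by
        intro j' hj' V
        have := j'.2
        exact ih (p - 1 - (j' : ℕ)) (by omega) j' rfl V
      set h0 : F := (fun y => τ y - y)^[d] f with hh0
      -- the values of the family
      have hval : ∀ V : Place k F, (ffD τ)^[d] (ffR (p := p) S w c : Place k F → F) V =
          (ffD τ)^[d] b V + h0 := by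
        intro V
        rw [hsum, ffD_add, ffD_const]
      have hin : ∀ (V : Place k F) (hV : V ∈ S),
          (ffD τ)^[d] (ffR (p := p) S w c : Place k F → F) V =
            algebraMap k F ((d.factorial : k) * c ⟨V, hV⟩ j) := by
        intro V hV
        rw [ffD_fixed (hS V hV).1, ffR_mem hV, delta_sum, Finset.sum_eq_single j]
        · rw [← hd, (delta_pow hw (AlgEquiv.commutes τ _) d).2, map_mul, map_natCast]
        · intro j' _ hne
          rcases lt_trichotomy (j' : ℕ) (j : ℕ) with hlt | heq | hgt
          · exact (delta_pow hw (AlgEquiv.commutes τ _) d).1 ((j' : ℕ) + 1) (by omega)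
          · exact absurd (Fin.ext heq) hne
          · rw [hbig j' hgt ⟨V, hV⟩, map_zero, zero_mul, delta_zero]
        · intro hcon
          exact absurd (Finset.mem_univ j) hcon
      have hout : ∀ V : Place k F, V ∉ S →
          (ffD τ)^[d] (ffR (p := p) S w c : Place k F → F) V = 0 := by
        intro V hV
        exact ffD_supp (fun Q hQ => (hS Q hQ).1) d _ (fun V hV => ffR_not_mem hV) V hV
      have hbd : ∀ V, (ffD τ)^[d] b V ∈ V.1 := ffD_integral hb' d
      have hh : ∀ V : Place k F, h0 ∈ V.1 := by
        intro V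
        have h1 := hval V
        by_cases hV : V ∈ S
        · rw [hin V hV] at h1
          have h2 : h0 = algebraMap k F ((d.factorial : k) * c ⟨V, hV⟩ j) - (ffD τ)^[d] b V := by
            rw [h1]; ring
          rw [h2]
          exact sub_mem (V.2.1 _) (hbd V)
        · rw [hout V hV] at h1
          have h2 : h0 = -(ffD τ)^[d] b V := by linear_combination -h1
          rw [h2]
          exact neg_mem (hbd V)
      have hsmall : ∀ V : Place k F, FixesPlace τ V → V.1.valuation ((ffD τ)^[d] b V) < 1 := by
        intro V hV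
        rw [hd, Function.iterate_succ_apply']
        exact fix_small hF hV (ffD_integral hb' (j : ℕ))
      obtain ⟨c0, hc0⟩ := ff_const hh
      have hz : h0 = 0 := by
        have h1 := hval P
        rw [hout P hPS] at h1
        have h2 : (ffD τ)^[d] b P = algebraMap k F (-c0) := by
          rw [map_neg, ← hc0]
          linear_combination -h1
        have h3 := hsmall P hP
        rw [h2] at h3
        have h4 := const_eq_zero_of_lt P.2.1 h3
        have h5 : c0 = 0 := neg_eq_zero.1 h4
        rw [hc0, h5, map_zero]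
      have h1 := hval V.1
      rw [hin V.1 V.2, hz, add_zero] at h1
      have h3 := hsmall V.1 (hS V.1 V.2).1
      rw [← h1] at h3
      have h4 := const_eq_zero_of_lt V.1.2.1 h3
      rcases mul_eq_zero.1 h4 with h5 | h5
      · exfalso
        have h6 : p ∣ d.factorial := (CharP.cast_eq_zero_iff k p _).1 h5
        have h7 := (Nat.Prime.dvd_factorial hp.out).1 h6
        omega
      · exact h5
  funext V j
  exact main _ j rfl V

theorem h1_places (hF : IsFunctionField k F) {τ : F ≃ₐ[k] F} (hτ : orderOf τ = p)
    {P : Place k F} (hP : FixesPlace τ P) (hfin : H1Fin k F) (S : Finset (Place k F))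
    (hS : ∀ Q ∈ S, FixesPlace τ Q ∧ Q ≠ P) : (p - 1) * S.card ≤ genus k F := by
  haveI : CharP F p := charP_of_injective_algebraMap (algebraMap k F).injective p
  obtain ⟨w, hw⟩ := exists_w τ hτ
  haveI : Module.Finite k (repartitions k F ⧸ trivialRepartitions k F) := hfin
  set Φ : (S → Fin (p - 1) → k) →ₗ[k] (repartitions k F ⧸ trivialRepartitions k F) :=
    (trivialRepartitions k F).mkQ.comp (ffR (p := p) S w) with hΦ
  have hinj : Function.Injective Φ := by
    rw [← LinearMap.ker_eq_bot, LinearMap.ker_eq_bot']
    intro c hc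
    apply ffR_inj hF hw hP S hS c
    rw [hΦ, LinearMap.comp_apply, Submodule.mkQ_apply, Submodule.Quotient.mk_eq_zero] at hc
    exact hc
  have h1 := LinearMap.finrank_le_finrank_of_injective hinj
  have h2 : Module.finrank k (S → Fin (p - 1) → k) = (p - 1) * S.card := by
    rw [Module.finrank_pi_fintype]
    simp [mul_comm]
  rw [h2] at h1
  exact h1

end BAC
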