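import Pool.Agent.BAC.FFSub
import Pool.Agent.BAC.FFPlaces
import Pool.Agent.BAC.FFIso

/-!
BAC / F8 (blueprint 8.3). Condition (N) implies that `G` acts freely outside `P` and `F^G` has genus zero.

`exists_quot`: `E = fixedField N`; for `σ ∈ G`, `a ∈ E`: `σ a ∈ E` (`hnorm`); `ρ σ` = the restriction, `G'` = its range.
`ρ σ = 1` iff `σ` fixes `E` pointwise iff `σ ∈ N` (Artin: `IntermediateField.fixingSubgroup_fixedField` for finite
groups; or `FixedPoints.toAlgAut`). Cardinality: `N` is the kernel. `fixedField G'` (inside `E`) is isomorphic over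
`k` to `fixedField G` (inside `F`): `h1Zero_congr`.
`big_free`: induction on `Nat.card G = p ^ m` for all `F` (same universe). `m = 0`: `2 p genus < p - 1`, so
`genus = 0`; `fixedField G ≃ F` (`G = 1`: all elements are fixed): `h1Zero_of_genus`, `h1Zero_congr`; freeness is
empty. `m ≥ 1`: `N ≤ G` central of order `p` (`IsPGroup.center_nontrivial`), `N = zpowers τ`, `τ ∈ G` of order `p`.
`h1_sub`: `E = fixedField N`: `H1Fin k E`, `p genus E ≤ genus F`, `ff_sub`. `exists_quot`: `G'`, `Nat.card G' = p^(m-1)`,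
`2 p genus E ≤ 2 genus F < (p - 1) p^(m-1)` (from `2 p genus F < (p-1) p^m`). `G'` fixes `P_E = resPl E P`. By
induction `G'` is free outside `P_E` and `H1Zero k (fixedField G')`, so `H1Zero k (fixedField G)`.
Freeness: let `σ ∈ G`, `σ ≠ 1`, fix `P' ≠ P`. If `resPl E P' = P_E` then by `res_trans` `P' = ν P` with `ν ∈ N ≤ G`, but
`ν P = P`: contradiction. So `resPl E P' ≠ P_E`, and `ρ σ` fixes it, so `ρ σ = 1`, `σ ∈ N`, `N = zpowers σ` (order `p`
prime), so all of `N` fixes `P'`. Let `S` be the orbit `{g P' | g ∈ G}`: `N` is central, so `N` fixes all elements of `S`,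
none is `P` (`G` fixes `P`). The restrictions to `E` form the `G'`-orbit of `resPl E P'`, with `|G'|` elements
(`G'` is free outside `P_E`), so `|S| ≥ |G'| = p^(m-1)`. `h1_places`: `(p - 1) p^(m-1) ≤ genus F`, but
`2 p genus F < (p - 1) p^m`: contradiction.
-/

namespace BAC

open Pool.Agent.Helper32 IntermediateField

variable {p : ℕ} [hp : Fact p.Prime] {k F : Type*} [Field k] [Field F] [Algebra k F]

theorem fixed_stable (G N : Subgroup (F ≃ₐ[k] F)) (hnorm : ∀ σ ∈ G, ∀ τ ∈ N, σ * τ * σ⁻¹ ∈ N)
    {σ : F ≃ₐ[k] F} (hσ : σ ∈ G) {a : F} (ha : a ∈ fixedField N) : σ a ∈ fixedField N := by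
  rw [IntermediateField.mem_fixedField_iff] at ha ⊢
  intro τ hτ
  have h1 : σ⁻¹ * τ * σ⁻¹⁻¹ ∈ N := hnorm σ⁻¹ (G.inv_mem hσ) τ hτ
  have h2 := ha _ h1
  rw [inv_inv, AlgEquiv.mul_apply, AlgEquiv.mul_apply] at h2
  have h3 := congrArg σ h2
  have h4 : σ (σ⁻¹ (τ (σ a))) = τ (σ a) := σ.apply_symm_apply _
  rw [h4] at h3
  exact h3

/-- the restriction to the fixed field -/
def resAut (G N : Subgroup (F ≃ₐ[k] F)) (hnorm : ∀ σ ∈ G, ∀ τ ∈ N, σ * τ * σ⁻¹ ∈ N)
    (σ : G) : (fixedField N) ≃ₐ[k] (fixedField N) where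
  toFun a := ⟨(σ : F ≃ₐ[k] F) a, fixed_stable G N hnorm σ.2 a.2⟩
  invFun a := ⟨(σ⁻¹ : G).1 a, fixed_stable G N hnorm (σ⁻¹ : G).2 a.2⟩
  left_inv a := Subtype.ext ((σ : F ≃ₐ[k] F).symm_apply_apply _)
  right_inv a := Subtype.ext ((σ : F ≃ₐ[k] F).apply_symm_apply _)
  map_mul' a b := Subtype.ext (map_mul (σ : F ≃ₐ[k] F) (a : F) (b : F))
  map_add' a b := Subtype.ext (map_add (σ : F ≃ₐ[k] F) (a : F) (b : F))
  commutes' c := Subtype.ext ((σ : F ≃ₐ[k] F).commutes c)

theorem exists_quot (G N : Subgroup (F ≃ₐ[k] F)) [Finite G] [Finite N] (hNG : N ≤ G)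
    (hnorm : ∀ σ ∈ G, ∀ τ ∈ N, σ * τ * σ⁻¹ ∈ N) :
    ∃ (G' : Subgroup ((fixedField N) ≃ₐ[k] (fixedField N))) (ρ : G →* G'),
      Function.Surjective ρ ∧
      (∀ (σ : G) (a : fixedField N), ((((ρ σ : G') : (fixedField N) ≃ₐ[k] (fixedField N)) a :
        fixedField N) : F) = (σ : F ≃ₐ[k] F) a) ∧
      (∀ σ : G, ρ σ = 1 ↔ (σ : F ≃ₐ[k] F) ∈ N) ∧ Nat.card G = Nat.card N * Nat.card G' ∧
      (H1Zero k (fixedField G') → H1Zero k (fixedField G)) := by
  let ρ₀ : G →* ((fixedField N) ≃ₐ[k] (fixedField N)) :=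
    { toFun := resAut G N hnorm
      map_one' := AlgEquiv.ext fun a => Subtype.ext rfl
      map_mul' := fun σ τ => AlgEquiv.ext fun a => Subtype.ext rfl }
  have hρ₀ : ∀ (σ : G) (a : fixedField N), ((ρ₀ σ a : fixedField N) : F) =
      (σ : F ≃ₐ[k] F) a := fun σ a => rfl
  have hker : ∀ σ : G, ρ₀ σ = 1 ↔ (σ : F ≃ₐ[k] F) ∈ N := by
    intro σ
    constructor
    · intro h
      have h1 : ∀ a : fixedField N, (σ : F ≃ₐ[k] F) a = a := by
        intro a
        rw [← hρ₀, h]
        rfl
      let φ : F →ₐ[FixedPoints.subfield N F] F :=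
        { toFun := (σ : F ≃ₐ[k] F)
          map_one' := map_one _
          map_mul' := map_mul _
          map_zero' := map_zero _
          map_add' := map_add _
          commutes' := fun c => h1 ⟨(c : F), by
            rw [IntermediateField.mem_fixedField_iff]
            intro τ hτ
            exact c.2 ⟨τ, hτ⟩⟩ }
      obtain ⟨n, hn⟩ := (FixedPoints.toAlgHom_bijective N F).2 φ
      have h2 : (σ : F ≃ₐ[k] F) = n := by
        refine AlgEquiv.ext fun a => ?_
        exact (DFunLike.congr_fun hn a).symm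
      rw [h2]
      exact n.2
    · intro h
      refine AlgEquiv.ext fun a => Subtype.ext ?_
      rw [hρ₀]
      exact (IntermediateField.mem_fixedField_iff _ _).1 a.2 _ h
  refine ⟨ρ₀.range, ρ₀.rangeRestrict, ρ₀.rangeRestrict_surjective, fun σ a => rfl, ?_, ?_, ?_⟩
  · intro σ
    rw [← hker σ]
    constructor
    · intro h
      exact congrArg Subtype.val h
    · intro h
      exact Subtype.ext h
  · have h1 : ρ₀.ker = N.subgroupOf G := by
      ext σ
      rw [MonoidHom.mem_ker, hker, Subgroup.mem_subgroupOf]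
    rw [Subgroup.card_eq_card_quotient_mul_card_subgroup ρ₀.ker, mul_comm]
    congr 1
    · rw [h1]
      exact Nat.card_congr (Subgroup.subgroupOfEquivOfLe hNG).toEquiv
    · exact Nat.card_congr (QuotientGroup.quotientKerEquivRange ρ₀).toEquiv
  · refine h1Zero_congr ?_
    have hmem : ∀ a : fixedField ρ₀.range, ((a : fixedField N) : F) ∈ fixedField G := by
      intro a
      rw [IntermediateField.mem_fixedField_iff]
      intro σ hσ
      have h2 := (IntermediateField.mem_fixedField_iff _ _).1 a.2 (ρ₀ ⟨σ, hσ⟩) ⟨⟨σ, hσ⟩, rfl⟩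
      exact congrArg Subtype.val h2
    have hN : ∀ b : fixedField G, (b : F) ∈ fixedField N := by
      intro b
      rw [IntermediateField.mem_fixedField_iff]
      intro τ hτ
      exact (IntermediateField.mem_fixedField_iff _ _).1 b.2 τ (hNG hτ)
    have hG : ∀ b : fixedField G, (⟨(b : F), hN b⟩ : fixedField N) ∈ fixedField ρ₀.range := by
      intro b
      rw [IntermediateField.mem_fixedField_iff]
      rintro _ ⟨σ, rfl⟩
      refine Subtype.ext ?_
      rw [hρ₀]
      exact (IntermediateField.mem_fixedField_iff _ _).1 b.2 _ σ.2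
    exact
      { toFun := fun a => ⟨((a : fixedField N) : F), hmem a⟩
        invFun := fun b => ⟨⟨(b : F), hN b⟩, hG b⟩
        left_inv := fun a => rfl
        right_inv := fun b => rfl
        map_mul' := fun a b => rfl
        map_add' := fun a b => rfl
        commutes' := fun c => rfl }

universe u v

section basic

variable {k F : Type*} [Field k] [Field F] [Algebra k F]

private theorem actPl_inj {σ : F ≃ₐ[k] F} {P Q : Place k F} (h : actPl σ P = actPl σ Q) :
    P = Q := by
  apply Subtype.ext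
  ext a
  have h1 : σ a ∈ (actPl σ P).1 ↔ σ a ∈ (actPl σ Q).1 := by rw [h]
  rw [mem_actPl, mem_actPl, AlgEquiv.symm_apply_apply] at h1
  exact h1

/-- the stabiliser of a place -/
private def fixSub (P : Place k F) : Subgroup (F ≃ₐ[k] F) where
  carrier := {σ | FixesPlace σ P}
  one_mem' := fun a => Iff.rfl
  mul_mem' := by
    intro σ τ hσ hτ a
    rw [AlgEquiv.mul_apply, hσ, hτ]
  inv_mem' := by
    intro σ hσ a
    have h0 : σ (σ⁻¹ a) = a := by
      rw [← AlgEquiv.mul_apply, mul_inv_cancel]
      rfl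
    rw [← hσ (σ⁻¹ a), h0]

private theorem mem_fixSub {P : Place k F} {σ : F ≃ₐ[k] F} :
    σ ∈ fixSub P ↔ FixesPlace σ P := Iff.rfl

end basic

section quot

variable {k F : Type*} [Field k] [Field F] [Algebra k F]

private theorem quot_fixes {N : Subgroup (F ≃ₐ[k] F)} [Finite N]
    {g' : (fixedField N) ≃ₐ[k] (fixedField N)} {σ : F ≃ₐ[k] F}
    (h : ∀ a : fixedField N, ((g' a : fixedField N) : F) = σ a) {P : Place k F}
    (hP : FixesPlace σ P) : FixesPlace g' (resPl (fixedField N) P) := by
  intro a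
  rw [mem_resPl, mem_resPl, h]
  exact hP _

private theorem res_actPl {N : Subgroup (F ≃ₐ[k] F)} [Finite N]
    {g' : (fixedField N) ≃ₐ[k] (fixedField N)} {σ : F ≃ₐ[k] F}
    (h : ∀ a : fixedField N, ((g' a : fixedField N) : F) = σ a) (P : Place k F) :
    resPl (fixedField N) (actPl σ P) = actPl g' (resPl (fixedField N) P) := by
  apply Subtype.ext
  ext a
  rw [mem_resPl, mem_actPl, mem_actPl, mem_resPl]
  have h1 : ((g'.symm a : fixedField N) : F) = σ.symm a := by
    rw [AlgEquiv.eq_symm_apply]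
    exact (h (g'.symm a)).symm.trans (congrArg Subtype.val (g'.apply_symm_apply a))
  rw [h1]

end quot

private theorem big_free_aux {p : ℕ} [hp : Fact p.Prime] {k : Type u} [Field k]
    [IsAlgClosed k] [CharP k p] (m : ℕ) : ∀ (F : Type v) [Field F] [Algebra k F]
    (_ : IsFunctionField k F) (G : Subgroup (F ≃ₐ[k] F)) [Finite G] (_ : Nat.card G = p ^ m)
    (P : Place k F) (_ : ∀ σ ∈ G, FixesPlace σ P) (_ : H1Fin k F)
    (_ : 2 * p * genus k F < (p - 1) * Nat.card G),
    FreeOutside G P ∧ H1Zero k (fixedField G) := by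
  have hp2 := hp.out.two_le
  have hp0 := hp.out.pos
  induction m with
  | zero =>
    intro F _ _ hF G _ hG P hP hfin hN
    have hcard : Nat.card G = 1 := by rw [hG, pow_zero]
    have hbot : G = ⊥ := Subgroup.card_eq_one.1 hcard
    have hgen : genus k F = 0 := by
      rw [hcard, mul_one] at hN
      by_contra hne
      have h1 : 1 ≤ genus k F := Nat.one_le_iff_ne_zero.2 hne
      have h2 : 2 * p * 1 ≤ 2 * p * genus k F := Nat.mul_le_mul_left _ h1
      omega
    refine ⟨fun σ hσ hne => ?_, ?_⟩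
    · rw [hbot, Subgroup.mem_bot] at hσ
      exact absurd hσ hne
    · have h1 : H1Zero k F := h1Zero_of_genus hfin hgen
      have htop : (⊤ : IntermediateField k F) = fixedField G := by
        rw [eq_comm, eq_top_iff]
        intro a _
        rw [IntermediateField.mem_fixedField_iff]
        intro f hf
        rw [hbot, Subgroup.mem_bot] at hf
        rw [hf]
        rfl
      exact h1Zero_congr ((IntermediateField.topEquiv (F := k) (E := F)).symm.trans
        (IntermediateField.equivOfEq htop)) h1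
  | succ m ih =>
    intro F _ _ hF G _ hG P hP hfin hN
    classical
    -- a central element of order `p`
    have hGp : IsPGroup p G := IsPGroup.of_card hG
    have hnt : Nontrivial G := by
      rw [← Finite.one_lt_card_iff_nontrivial, hG]
      exact Nat.one_lt_pow (by omega) hp.out.one_lt
    have hcn := hGp.center_nontrivial
    have hcp : IsPGroup p (Subgroup.center G) := hGp.to_subgroup _
    have hdvd : p ∣ Nat.card (Subgroup.center G) := by
      obtain ⟨n, hn⟩ := IsPGroup.iff_card.1 hcp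
      rcases n with _ | n
      · rw [pow_zero] at hn
        have := (Finite.one_lt_card_iff_nontrivial (α := Subgroup.center G)).2 hcn
        omega
      · rw [hn]
        exact dvd_pow_self p (Nat.succ_ne_zero n)
    obtain ⟨τ₀, hτ₀⟩ := exists_prime_orderOf_dvd_card' (G := Subgroup.center G) p hdvd
    obtain ⟨τ, hτdef⟩ : ∃ τ : F ≃ₐ[k] F, τ = ((τ₀ : G) : F ≃ₐ[k] F) := ⟨_, rfl⟩
    have hτG : τ ∈ G := by
      rw [hτdef]
      exact (τ₀ : G).2
    have hτo : orderOf τ = p := by
      rw [hτdef, Subgroup.orderOf_coe, Subgroup.orderOf_coe, hτ₀]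
    have hτc : ∀ σ ∈ G, σ * τ = τ * σ := by
      intro σ hσ
      have h1 := Subgroup.mem_center_iff.1 τ₀.2 ⟨σ, hσ⟩
      have h2 := congrArg (Subtype.val : G → (F ≃ₐ[k] F)) h1
      rw [hτdef]
      exact h2
    have hNG : Subgroup.zpowers τ ≤ G := by
      rw [Subgroup.zpowers_le]
      exact hτG
    have hNfin : Finite (Subgroup.zpowers τ) :=
      Finite.of_injective _ (Subgroup.inclusion_injective hNG)
    have hNcard : Nat.card (Subgroup.zpowers τ) = p := by
      rw [Nat.card_zpowers, hτo]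
    have hcomm : ∀ σ ∈ G, ∀ ν ∈ Subgroup.zpowers τ, σ * ν = ν * σ := by
      intro σ hσ ν hν
      obtain ⟨i, rfl⟩ := Subgroup.mem_zpowers_iff.1 hν
      exact (Commute.zpow_right (show Commute σ τ from hτc σ hσ) i).eq
    have hnorm : ∀ σ ∈ G, ∀ ν ∈ Subgroup.zpowers τ, σ * ν * σ⁻¹ ∈ Subgroup.zpowers τ := by
      intro σ hσ ν hν
      rw [hcomm σ hσ ν hν, mul_inv_cancel_right]
      exact hν
    obtain ⟨hfinE, hgenE⟩ := h1_sub hF hτo (hP τ hτG) hfin
    obtain ⟨G', ρ, hρs, hρ, hρk, hcard, hzero⟩ := exists_quot G (Subgroup.zpowers τ) hNG hnorm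
    have hG'card : Nat.card G' = p ^ m := by
      rw [hG, hNcard, pow_succ'] at hcard
      exact (Nat.eq_of_mul_eq_mul_left hp0 hcard).symm
    have hG'fin : Finite G' := Finite.of_surjective ρ hρs
    have hlt : 2 * genus k F < (p - 1) * p ^ m := by
      rw [hG, pow_succ'] at hN
      have h1 : p * (2 * genus k F) < p * ((p - 1) * p ^ m) := by
        calc p * (2 * genus k F) = 2 * p * genus k F := by ring
          _ < (p - 1) * (p * p ^ m) := hN
          _ = p * ((p - 1) * p ^ m) := by ring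
      exact lt_of_mul_lt_mul_left h1 (Nat.zero_le _)
    have hNE : 2 * p * genus k (fixedField (Subgroup.zpowers τ)) <
        (p - 1) * Nat.card G' := by
      rw [hG'card]
      calc 2 * p * genus k (fixedField (Subgroup.zpowers τ))
          = 2 * (p * genus k (fixedField (Subgroup.zpowers τ))) := by ring
        _ ≤ 2 * genus k F := Nat.mul_le_mul_left _ hgenE
        _ < (p - 1) * p ^ m := hlt
    have hPE : ∀ g' ∈ G', FixesPlace g' (resPl (fixedField (Subgroup.zpowers τ)) P) := by
      intro g' hg'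
      obtain ⟨σ, hσ⟩ := hρs ⟨g', hg'⟩
      refine quot_fixes (σ := (σ : F ≃ₐ[k] F)) (fun a => ?_) (hP σ σ.2)
      rw [← hρ σ a, hσ]
    obtain ⟨ihfree, ihzero⟩ := ih (fixedField (Subgroup.zpowers τ)) (ff_sub hF _) G' hG'card
      (resPl (fixedField (Subgroup.zpowers τ)) P) hPE hfinE hNE
    refine ⟨?_, hzero ihzero⟩
    -- freeness
    intro σ hσ hσ1 P' hσP'
    by_contra hne
    have hQ : resPl (fixedField (Subgroup.zpowers τ)) P' ≠
        resPl (fixedField (Subgroup.zpowers τ)) P := by
      intro h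
      obtain ⟨ν, hν, hνP⟩ := res_trans hF (Subgroup.zpowers τ) h
      have h1 : actPl ν P = P := fixesPlace_iff.1 (hP ν (hNG hν))
      exact hne (actPl_inj (hνP.trans h1.symm))
    have hρσ : ρ ⟨σ, hσ⟩ = 1 := by
      by_contra hcon
      refine hQ (ihfree _ (ρ ⟨σ, hσ⟩).2 (fun h => hcon (Subtype.ext h)) _ ?_)
      exact quot_fixes (fun a => hρ ⟨σ, hσ⟩ a) hσP'
    have hσN : σ ∈ Subgroup.zpowers τ := (hρk ⟨σ, hσ⟩).1 hρσ
    have hNeq : Subgroup.zpowers σ = Subgroup.zpowers τ := by
      have hle : Subgroup.zpowers σ ≤ Subgroup.zpowers τ := by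
        rw [Subgroup.zpowers_le]
        exact hσN
      refine Subgroup.eq_of_le_of_card_ge hle ?_
      have h1 : Nat.card (Subgroup.zpowers σ) ∣ p := by
        rw [← hNcard]
        exact Subgroup.card_dvd_of_le hle
      rcases (Nat.dvd_prime hp.out).1 h1 with h2 | h2
      · exfalso
        rw [Nat.card_zpowers, orderOf_eq_one_iff] at h2
        exact hσ1 h2
      · rw [h2, hNcard]
    have hτP' : FixesPlace τ P' := by
      have h1 : Subgroup.zpowers σ ≤ fixSub P' := by
        rw [Subgroup.zpowers_le]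
        exact hσP'
      rw [hNeq] at h1
      exact h1 (Subgroup.mem_zpowers τ)
    have hFin : Fintype G := Fintype.ofFinite G
    have hFin' : Fintype G' := Fintype.ofFinite G'
    set S : Finset (Place k F) :=
      Finset.univ.image (fun g : G => actPl (g : F ≃ₐ[k] F) P') with hS
    have hSfix : ∀ Q ∈ S, FixesPlace τ Q ∧ Q ≠ P := by
      intro Q hQS
      rw [hS, Finset.mem_image] at hQS
      obtain ⟨g, -, rfl⟩ := hQS
      refine ⟨fun a => ?_, fun h => ?_⟩
      · rw [mem_actPl, mem_actPl]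
        have h1 : (g : F ≃ₐ[k] F).symm (τ a) = τ ((g : F ≃ₐ[k] F).symm a) := by
          rw [AlgEquiv.symm_apply_eq]
          have h2 := hτc g g.2
          have h3 : ((g : F ≃ₐ[k] F) * τ) ((g : F ≃ₐ[k] F).symm a) =
              (τ * (g : F ≃ₐ[k] F)) ((g : F ≃ₐ[k] F).symm a) := by rw [h2]
          rw [AlgEquiv.mul_apply, AlgEquiv.mul_apply, AlgEquiv.apply_symm_apply] at h3
          exact h3.symm
        rw [h1]
        exact hτP' _
      · have h1 : actPl (g : F ≃ₐ[k] F) P = P := fixesPlace_iff.1 (hP g g.2)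
        exact hne (actPl_inj (h.trans h1.symm))
    have hplaces := h1_places hF hτo (hP τ hτG) hfin S hSfix
    have hScard : p ^ m ≤ S.card := by
      have hinj : Function.Injective (fun g' : G' =>
          actPl (g' : (fixedField (Subgroup.zpowers τ)) ≃ₐ[k] (fixedField (Subgroup.zpowers τ)))
            (resPl (fixedField (Subgroup.zpowers τ)) P')) := by
        intro g₁ g₂ h12
        by_contra hcon
        have h0 : g₂⁻¹ * g₁ ≠ 1 := fun h => hcon (inv_mul_eq_one.1 h).symm
        refine hQ (ihfree _ (g₂⁻¹ * g₁).2 (fun h => h0 (Subtype.ext h)) _ ?_)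
        have h3 : ∀ g : G', ∀ a, (a ∈ (actPl (g : (fixedField (Subgroup.zpowers τ)) ≃ₐ[k]
            (fixedField (Subgroup.zpowers τ)))
            (resPl (fixedField (Subgroup.zpowers τ)) P')).1 ↔
            (g : (fixedField (Subgroup.zpowers τ)) ≃ₐ[k]
              (fixedField (Subgroup.zpowers τ))).symm a ∈
              (resPl (fixedField (Subgroup.zpowers τ)) P').1) := fun g a => mem_actPl
        intro a
        have h12' : actPl (g₁ : (fixedField (Subgroup.zpowers τ)) ≃ₐ[k]
            (fixedField (Subgroup.zpowers τ))) (resPl (fixedField (Subgroup.zpowers τ)) P') =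
            actPl (g₂ : (fixedField (Subgroup.zpowers τ)) ≃ₐ[k]
            (fixedField (Subgroup.zpowers τ)))
            (resPl (fixedField (Subgroup.zpowers τ)) P') := h12
        have h4 := h3 g₁ ((g₁ : (fixedField (Subgroup.zpowers τ)) ≃ₐ[k]
            (fixedField (Subgroup.zpowers τ))) a)
        have h5 := h3 g₂ ((g₁ : (fixedField (Subgroup.zpowers τ)) ≃ₐ[k]
            (fixedField (Subgroup.zpowers τ))) a)
        rw [h12', AlgEquiv.symm_apply_apply] at h4
        exact h5.symm.trans h4
      calc p ^ m = Nat.card G' := hG'card.symm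
        _ = (Finset.univ : Finset G').card := by
            rw [Finset.card_univ, Nat.card_eq_fintype_card]
        _ = (Finset.univ.image (fun g' : G' =>
              actPl (g' : (fixedField (Subgroup.zpowers τ)) ≃ₐ[k]
                (fixedField (Subgroup.zpowers τ)))
              (resPl (fixedField (Subgroup.zpowers τ)) P'))).card :=
            (Finset.card_image_of_injective _ hinj).symm
        _ ≤ (S.image (resPl (fixedField (Subgroup.zpowers τ)))).card := by
            refine Finset.card_le_card ?_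
            intro Q hQ'
            rw [Finset.mem_image] at hQ'
            obtain ⟨g', -, rfl⟩ := hQ'
            obtain ⟨g, rfl⟩ := hρs g'
            rw [Finset.mem_image]
            refine ⟨actPl (g : F ≃ₐ[k] F) P', ?_, ?_⟩
            · rw [hS, Finset.mem_image]
              exact ⟨g, Finset.mem_univ _, rfl⟩
            · exact res_actPl (fun a => hρ g a) P'
        _ ≤ S.card := Finset.card_image_le
    have h1 : (p - 1) * p ^ m ≤ genus k F := (Nat.mul_le_mul_left _ hScard).trans hplaces
    omega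

theorem big_free [IsAlgClosed k] [CharP k p] (hF : IsFunctionField k F)
    (G : Subgroup (F ≃ₐ[k] F)) [Finite G] (hG : IsPGroup p G) {P : Place k F}
    (hP : ∀ σ ∈ G, FixesPlace σ P) (hfin : H1Fin k F)
    (hN : 2 * p * genus k F < (p - 1) * Nat.card G) :
    FreeOutside G P ∧ H1Zero k (fixedField G) := by
  obtain ⟨m, hm⟩ := IsPGroup.iff_card.1 hG
  exact big_free_aux m F hF G hm P hP hfin hN

end BAC
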