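import Pool.Agent.BAC.FFDisc

/-!
BAC / F3 (blueprint 8.2). Restriction of places to a fixed field.

`res_surj`: extension of valuation rings (Mathlib: a local subring of a field is dominated by a valuation
subring, `LocalSubring.exists_le_valuationSubring`), `V ∩ E` dominates `Q`, so it is `Q` (valuation rings are
maximal for domination); it contains `k` and is not everything.
`res_trans`: `E = fixedField N`, finite Galois group `N`. Let `x ∈ E` be a separating element of `F` (`ff_sep` for `E`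
gives `x` with `E / k(x)` separable; `F / E` is Galois, so `F / k(x)` is separable), and replace it by `x⁻¹` if `x ∉ P.1`
(`P, P'` have the same restriction, so `x ∈ P.1 ↔ x ∈ P'.1`). `B = Rint k x ⊆ F` (integral closure of `k[x]`) is
stable under `N`, `A = B ∩ E` the elements fixed by `N`; `P.1, P'.1` are the valuation rings of the primes
`m_P ∩ B`, `m_P' ∩ B` (as in `ded`) which have the same intersection with `A`. By
`Algebra.IsInvariant.exists_smul_of_under_eq` some `σ ∈ N` maps one to the other, so `σ P = P'`. (Elementary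
version of this step: if no `σ⁻¹ (m_P') ∩ B` (`σ ∈ N`) is equal to `m_P ∩ B`, by prime avoidance / CRT (maximal
ideals) there is `b ∈ B` in `m_P` but not in any `σ⁻¹ m_P'`; then `∏_σ σ b ∈ A ∩ m_P = A ∩ m_P'`, contradiction.)
`fiber_finite`: `{P | resPl E P = Q}` is finite (an orbit of `N`).
-/

namespace BAC

open Pool.Agent.Helper32 IntermediateField WithZero

variable {k F : Type*} [Field k] [Field F] [Algebra k F]

theorem res_surj (E : IntermediateField k F) [Algebra.IsAlgebraic E F] (Q : Place k E) :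
    ∃ P : Place k F, resPl E P = Q := by
  obtain ⟨V, hV, hloc⟩ := IsLocalRing.exists_factor_valuationRing
    ((algebraMap E F).comp Q.1.subtype)
  have hcomap : V.comap (algebraMap E F) = Q.1 := by
    apply le_antisymm
    · intro a ha
      rw [ValuationSubring.mem_comap] at ha
      by_contra hcon
      have h1 : a⁻¹ ∈ Q.1 := (Q.1.mem_or_inv_mem a).resolve_left hcon
      have ha0 : a ≠ 0 := by
        rintro rfl
        exact hcon (zero_mem _)
      have h2 : IsUnit (((algebraMap E F).comp Q.1.subtype).codRestrict V.toSubring hV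
          ⟨a⁻¹, h1⟩) := by
        refine IsUnit.of_mul_eq_one ⟨algebraMap E F a, ha⟩ ?_
        apply Subtype.ext
        change algebraMap E F a⁻¹ * algebraMap E F a = 1
        rw [← map_mul, inv_mul_cancel₀ ha0, map_one]
      have h3 : IsUnit (⟨a⁻¹, h1⟩ : Q.1) := hloc.map_nonunit _ h2
      obtain ⟨u, hu⟩ := h3
      apply hcon
      have h4 : ((u⁻¹ : Q.1ˣ) : Q.1) * ⟨a⁻¹, h1⟩ = 1 := by rw [← hu, Units.inv_mul]
      have h5 := congrArg (Subtype.val) h4
      have h6 : (((u⁻¹ : Q.1ˣ) : Q.1) : E) * a⁻¹ = 1 := h5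
      have h7 : (((u⁻¹ : Q.1ˣ) : Q.1) : E) = a := by
        rw [← mul_one a, ← h6]
        field_simp
      rw [← h7]
      exact ((u⁻¹ : Q.1ˣ) : Q.1).2
    · intro a ha
      rw [ValuationSubring.mem_comap]
      exact hV ⟨a, ha⟩
  refine ⟨⟨V, fun c => ?_, fun h => ?_⟩, Subtype.ext hcomap⟩
  · have h1 : algebraMap k E c ∈ V.comap (algebraMap E F) := by
      rw [hcomap]
      exact Q.2.1 c
    exact h1
  · apply Q.2.2
    rw [← hcomap, h]
    rfl

/-- places of function fields are maximal subrings -/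
theorem place_le [IsAlgClosed k] (hF : IsFunctionField k F) {P P' : Place k F}
    (h : P.1 ≤ P'.1) : P = P' := by
  apply Subtype.ext
  apply le_antisymm h
  intro a ha
  by_contra hcon
  obtain ⟨v, -, hv⟩ := place_val hF P
  rw [hv, Valuation.mem_valuationSubring_iff, not_le] at hcon
  apply P'.2.2
  rw [eq_top_iff]
  intro b _
  have ha0 : a ≠ 0 := by
    rintro rfl
    rw [map_zero] at hcon
    exact absurd hcon (not_lt.2 zero_le)
  by_cases hb : b = 0
  · rw [hb]
    exact zero_mem _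
  have hva : v a ≠ 0 := (Valuation.ne_zero_iff v).2 ha0
  have hvb : v b ≠ 0 := (Valuation.ne_zero_iff v).2 hb
  obtain ⟨j, hj⟩ : ∃ j : ℤ, v a = exp j := ⟨log (v a), (exp_log hva).symm⟩
  obtain ⟨i, hi⟩ : ∃ i : ℤ, v b = exp i := ⟨log (v b), (exp_log hvb).symm⟩
  have hj0 : 1 ≤ j := by
    rw [hj, ← exp_zero, exp_lt_exp] at hcon
    omega
  have h1 : b / a ^ i.toNat ∈ P.1 := by
    rw [hv, Valuation.mem_valuationSubring_iff, map_div₀, map_pow, hj, hi, ← exp_nsmul,
      ← exp_sub, ← exp_zero, exp_le_exp, nsmul_eq_mul]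
    have h2 : i ≤ (i.toNat : ℤ) := Int.self_le_toNat i
    have h3 : (i.toNat : ℤ) ≤ (i.toNat : ℤ) * j := by
      nlinarith [Int.natCast_nonneg i.toNat]
    linarith
  have h2 : b = b / a ^ i.toNat * a ^ i.toNat := by field_simp
  rw [h2]
  exact mul_mem (h h1) (pow_mem ha _)

omit [Algebra k F] [Field k] in
private theorem prod_lt_one {ι : Type*} [Fintype ι] [DecidableEq ι] {Γ : Type*}
    [LinearOrderedCommGroupWithZero Γ] (v : Valuation F Γ) (f : ι → F) (h : ∀ i, v (f i) ≤ 1)
    (i : ι) (hi : v (f i) < 1) : v (∏ j, f j) < 1 := by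
  rw [← Finset.mul_prod_erase _ _ (Finset.mem_univ i), map_mul, map_prod]
  calc v (f i) * ∏ j ∈ Finset.univ.erase i, v (f j) ≤ v (f i) * 1 := by
        gcongr
        exact Finset.prod_le_one' fun j _ => h j
    _ = v (f i) := mul_one _
    _ < 1 := hi

/-- constants avoid residues -/
private theorem avoid (P : Place k F) (z : F) :
    {c : k | P.1.valuation (z - algebraMap k F c) < 1}.Subsingleton := by
  intro c hc c' hc'
  rw [Set.mem_ofPred_eq] at hc hc'
  by_contra hne
  have h1 : P.1.valuation (algebraMap k F (c' - c)) < 1 := by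
    have h2 : algebraMap k F (c' - c) =
        (z - algebraMap k F c) - (z - algebraMap k F c') := by
      rw [map_sub]
      ring
    rw [h2]
    exact lt_of_le_of_lt (Valuation.map_sub _ _ _) (max_lt hc hc')
  have h0 : algebraMap k F (c' - c) ≠ 0 := by
    rw [Ne, map_eq_zero, sub_eq_zero]
    exact fun h => hne h.symm
  have h2 : P.1.valuation (algebraMap k F (c' - c))⁻¹ ≤ 1 := by
    rw [ValuationSubring.valuation_le_one_iff, ← map_inv₀]
    exact P.2.1 _
  rw [map_inv₀] at h2
  have h3 : 0 < P.1.valuation (algebraMap k F (c' - c)) :=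
    zero_lt_iff.2 ((Valuation.ne_zero_iff _).2 h0)
  rw [inv_le_one₀ h3] at h2
  exact absurd h1 (not_lt.2 h2)

theorem res_trans [IsAlgClosed k] (hF : IsFunctionField k F) (N : Subgroup (F ≃ₐ[k] F))
    [Finite N] {P P' : Place k F} (h : resPl (fixedField N) P = resPl (fixedField N) P') :
    ∃ σ ∈ N, actPl σ P = P' := by
  classical
  have hinf : Infinite k := IsAlgClosed.instInfinite
  let hfin : Fintype N := Fintype.ofFinite N
  set u := P.1.valuation with hu
  set u' := P'.1.valuation with hu'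
  have hum : ∀ a, u a ≤ 1 ↔ a ∈ P.1 := fun a => ValuationSubring.valuation_le_one_iff _ _
  have hum' : ∀ a, u' a ≤ 1 ↔ a ∈ P'.1 := fun a => ValuationSubring.valuation_le_one_iff _ _
  let O : Subring F :=
    { carrier := {a | ∀ σ : N, u ((σ : F ≃ₐ[k] F) a) ≤ 1 ∧ u' ((σ : F ≃ₐ[k] F) a) ≤ 1}
      zero_mem' := fun σ => by simp
      one_mem' := fun σ => by simp
      add_mem' := fun {a b} ha hb σ => by
        rw [map_add]
        exact ⟨(u.map_add _ _).trans (max_le (ha σ).1 (hb σ).1),
          (u'.map_add _ _).trans (max_le (ha σ).2 (hb σ).2)⟩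
      mul_mem' := fun {a b} ha hb σ => by
        rw [map_mul, map_mul, map_mul]
        exact ⟨mul_le_one' (ha σ).1 (hb σ).1, mul_le_one' (ha σ).2 (hb σ).2⟩
      neg_mem' := fun {a} ha σ => by
        rw [map_neg, Valuation.map_neg, Valuation.map_neg]
        exact ha σ }
  have hO : ∀ a, a ∈ O ↔ ∀ σ : N, u ((σ : F ≃ₐ[k] F) a) ≤ 1 ∧ u' ((σ : F ≃ₐ[k] F) a) ≤ 1 :=
    fun a => Iff.rfl
  let f : N → Ideal O := fun σ =>
    { carrier := {a | u ((σ : F ≃ₐ[k] F) a) < 1}
      zero_mem' := by simp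
      add_mem' := fun {a b} ha hb => by
        rw [Set.mem_ofPred_eq] at *
        rw [Subring.coe_add, map_add]
        exact lt_of_le_of_lt (u.map_add _ _) (max_lt ha hb)
      smul_mem' := fun c a ha => by
        rw [Set.mem_ofPred_eq] at *
        rw [smul_eq_mul, Subring.coe_mul, map_mul, map_mul]
        exact lt_of_le_of_lt (mul_le_of_le_one_left' (c.2 σ).1) ha }
  have hf : ∀ (σ : N) (a : O), a ∈ f σ ↔ u ((σ : F ≃ₐ[k] F) a) < 1 := fun σ a => Iff.rfl
  let I : Ideal O :=
    { carrier := {a | u' (a : F) < 1}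
      zero_mem' := by simp
      add_mem' := fun {a b} ha hb => by
        rw [Set.mem_ofPred_eq] at *
        rw [Subring.coe_add]
        exact lt_of_le_of_lt (u'.map_add _ _) (max_lt ha hb)
      smul_mem' := fun c a ha => by
        rw [Set.mem_ofPred_eq] at *
        rw [smul_eq_mul, Subring.coe_mul, map_mul]
        have h1 := (c.2 1).2
        rw [Subgroup.coe_one, AlgEquiv.one_apply] at h1
        exact lt_of_le_of_lt (mul_le_of_le_one_left' h1) ha }
  have hI : ∀ a : O, a ∈ I ↔ u' (a : F) < 1 := fun a => Iff.rfl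
  have hprime : ∀ σ, (f σ).IsPrime := by
    intro σ
    constructor
    · rw [Ne, Ideal.eq_top_iff_one, hf]
      simp
    · intro a b hab
      rw [hf, Subring.coe_mul, map_mul, map_mul] at hab
      rw [hf, hf]
      by_contra hcon
      push Not at hcon
      have h1 := (a.2 σ).1
      have h2 := (b.2 σ).1
      rw [le_antisymm h1 hcon.1, le_antisymm h2 hcon.2, mul_one] at hab
      exact lt_irrefl _ hab
  -- prime avoidance
  obtain ⟨σ, hσ⟩ : ∃ σ, I ≤ f σ := by
    by_contra hcon
    have h1 : ¬ ((I : Set O) ⊆ ⋃ i ∈ ((Finset.univ : Finset N) : Set N), f i) := by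
      rw [Ideal.subset_union_prime (1 : N) 1 (fun i _ _ _ => hprime i)]
      rintro ⟨σ, -, hσ⟩
      exact hcon ⟨σ, hσ⟩
    rw [Set.not_subset] at h1
    obtain ⟨b, hb, hb'⟩ := h1
    have hbf : ∀ σ : N, u ((σ : F ≃ₐ[k] F) b) = 1 := by
      intro σ
      apply le_antisymm (b.2 σ).1
      by_contra hlt
      rw [not_le] at hlt
      apply hb'
      simp only [Set.mem_iUnion]
      exact ⟨σ, by simp, hlt⟩
    set m : F := ∏ σ : N, (σ : F ≃ₐ[k] F) (b : F) with hm
    have hmE : m ∈ fixedField N := by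
      rw [IntermediateField.mem_fixedField_iff]
      intro τ hτ
      rw [hm, map_prod]
      exact Equiv.prod_comp (Equiv.mulLeft (⟨τ, hτ⟩ : N)) (fun σ : N => (σ : F ≃ₐ[k] F) (b : F))
    have hum1 : u m = 1 := by
      rw [hm, map_prod]
      exact Finset.prod_eq_one fun σ _ => hbf σ
    have hum2 : u' m < 1 := by
      refine prod_lt_one u' _ (fun σ => (b.2 σ).2) 1 ?_
      exact hb
    have h2 : m⁻¹ ∈ P.1 := by
      rw [← hum, map_inv₀, hum1, inv_one]
    have h3 : (⟨m⁻¹, inv_mem hmE⟩ : fixedField N) ∈ (resPl (fixedField N) P).1 := h2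
    rw [h, mem_resPl, ← hum', map_inv₀] at h3
    have h4 : 0 < u' m := by
      rw [zero_lt_iff, Valuation.ne_zero_iff]
      rintro h0
      rw [h0, map_zero] at hum1
      exact zero_ne_one hum1
    rw [inv_le_one₀ h4] at h3
    exact absurd hum2 (not_lt.2 h3)
  -- `σ⁻¹ P ≤ P'`
  refine ⟨(σ : F ≃ₐ[k] F)⁻¹, inv_mem σ.2, ?_⟩
  apply place_le hF
  intro a ha
  have ha' : (σ : F ≃ₐ[k] F) a ∈ P.1 := ha
  obtain ⟨c, hc⟩ : ∃ c : k, ∀ τ : N, ¬ u ((τ : F ≃ₐ[k] F) a - algebraMap k F c) < 1 ∧
      ¬ u' ((τ : F ≃ₐ[k] F) a - algebraMap k F c) < 1 := by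
    have h1 : (⋃ τ : N, ({c : k | u ((τ : F ≃ₐ[k] F) a - algebraMap k F c) < 1} ∪
        {c : k | u' ((τ : F ≃ₐ[k] F) a - algebraMap k F c) < 1})).Finite := by
      apply Set.finite_iUnion
      intro τ
      exact (avoid P _).finite.union (avoid P' _).finite
    obtain ⟨c, hc⟩ := h1.exists_notMem
    refine ⟨c, fun τ => ?_⟩
    constructor
    · intro h2
      exact hc (Set.mem_iUnion.2 ⟨τ, Or.inl h2⟩)
    · intro h2
      exact hc (Set.mem_iUnion.2 ⟨τ, Or.inr h2⟩)
  set y : F := (a - algebraMap k F c)⁻¹ with hy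
  have hac : a - algebraMap k F c ≠ 0 := by
    intro h0
    apply (hc 1).1
    rw [Subgroup.coe_one, AlgEquiv.one_apply, h0, map_zero]
    exact zero_lt_one
  have hval : ∀ {Γ : Type _} [LinearOrderedCommGroupWithZero Γ] (w : Valuation F Γ) (z : F),
      ¬ w z < 1 → w z⁻¹ ≤ 1 := by
    intro Γ _ w z hz
    rw [not_lt] at hz
    rw [map_inv₀]
    exact inv_le_one_of_one_le₀ hz
  have hyO : y ∈ O := by
    rw [hO]
    intro τ
    rw [hy, map_inv₀, map_sub, AlgEquiv.commutes]
    exact ⟨hval u _ (hc τ).1, hval u' _ (hc τ).2⟩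
  have hcO : algebraMap k F c ∈ O := by
    rw [hO]
    intro τ
    rw [AlgEquiv.commutes, hum, hum']
    exact ⟨P.2.1 c, P'.2.1 c⟩
  have hxy : a * y = 1 + algebraMap k F c * y := by
    rw [hy]
    field_simp
    ring
  have hxyO : a * y ∈ O := by
    rw [hxy]
    exact add_mem (one_mem _) (mul_mem hcO hyO)
  have hyI : (⟨y, hyO⟩ : O) ∉ I := by
    intro hyI
    have h1 := hσ hyI
    rw [hf] at h1
    change u ((σ : F ≃ₐ[k] F) y) < 1 at h1
    rw [hy, map_inv₀, map_inv₀, map_sub, AlgEquiv.commutes] at h1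
    have h2 : u ((σ : F ≃ₐ[k] F) a - algebraMap k F c) ≤ 1 := by
      rw [hum]
      exact sub_mem ha' (P.2.1 c)
    have h3 : 0 < u ((σ : F ≃ₐ[k] F) a - algebraMap k F c) :=
      lt_of_lt_of_le zero_lt_one (not_lt.1 (hc σ).1)
    exact absurd h1 (not_lt.2 ((one_le_inv₀ h3).2 h2))
  rw [hI, not_lt] at hyI
  change 1 ≤ u' y at hyI
  have h1 : u' (a * y) ≤ 1 := by
    have := (hxyO 1).2
    rwa [Subgroup.coe_one, AlgEquiv.one_apply] at this
  change a ∈ P'.1
  rw [← hum']
  rw [map_mul] at h1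
  calc u' a = u' a * 1 := (mul_one _).symm
    _ ≤ u' a * u' y := by gcongr
    _ ≤ 1 := h1

theorem fiber_finite [IsAlgClosed k] (hF : IsFunctionField k F) (N : Subgroup (F ≃ₐ[k] F))
    [Finite N] (Q : Place k (fixedField N)) :
    {P : Place k F | resPl (fixedField N) P = Q}.Finite := by
  by_cases hne : ∃ P : Place k F, resPl (fixedField N) P = Q
  · obtain ⟨P₀, hP₀⟩ := hne
    refine (Set.finite_range fun σ : N => actPl (σ : F ≃ₐ[k] F) P₀).subset ?_
    intro P hP
    rw [Set.mem_ofPred_eq] at hP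
    obtain ⟨σ, hσ, h⟩ := res_trans hF N (hP₀.trans hP.symm)
    exact ⟨⟨σ, hσ⟩, h⟩
  · convert Set.finite_empty
    ext P
    simp only [Set.mem_ofPred_eq, Set.mem_empty_iff_false, iff_false]
    exact fun hP => hne ⟨P, hP⟩

/-- places are not changed by the group on the fixed field -/
theorem res_act (N : Subgroup (F ≃ₐ[k] F)) [Finite N] {σ : F ≃ₐ[k] F} (hσ : σ ∈ N)
    (P : Place k F) : resPl (fixedField N) (actPl σ P) = resPl (fixedField N) P := by
  apply Subtype.ext
  ext a
  rw [mem_resPl, mem_resPl, mem_actPl]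
  have h1 : σ⁻¹ (a : F) = a := (IntermediateField.mem_fixedField_iff N _).1 a.2 _ (inv_mem hσ)
  have h2 : σ.symm (a : F) = a := h1
  rw [h2]

end BAC
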