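import Pool.Agent.BAC.FFTau

/-!
BAC / F6 (blueprint 8.2 (a)). `p genus (F^τ) ≤ genus F`.

`E = F^τ`, `w` with `τ w = w + 1` (`exists_w`). For `β : Place k E → E` let `β^ V = β (resPl E V)`. Let `W` be a complement of
`trivialRepartitions k E` in `repartitions k E` (`Submodule.exists_isCompl`), `W ≃ H¹(E)`.
`Φ : (Fin p → W) → H¹(F)`, `(β_j) ↦ class of V ↦ ∑_j β_j^ V * w ^ j`: it is a repartition (`β_j^` is not integral at
finitely many `V` by `fiber_finite`; `w ∈ V.1` for almost all `V`: `finite_poles`). `Φ` is linear and injective: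
suppose `∑_j β_j^ w^j = b + f`, `b` integral, `f ∈ F`, not all `β_j = 0`, `d` the largest with `β_d ≠ 0`. Apply
`(actFam τ - 1)^d`: `τ` acts on `β^ w^j` as `β^ (w+1)^j` (`res_act`, `β^ V ∈ E`), so by `delta_pow`:
`d! β_d^ V = b' V + h` for all `V`, `b' = (actFam τ - 1)^d b` integral (`act_integral`), `h = Δ^d f`. Once more:
`0 = (actFam τ - 1) b' V + (τ h - h)`: so `τ h - h` is integral everywhere, a constant `c` (`ff_const`), and at `P`
(`fix_small`) it has valuation `< 1`: `c = 0` (`const_eq_zero_of_lt`, helper32 AS21). So `h ∈ E`, and `β_d - h / d!` is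
integral at all places of `E` (`res_surj`): `β_d` is in `trivialRepartitions k E`, so `β_d = 0`: contradiction
(`d < p`, `d! ≠ 0`).
So `p dim W ≤ dim H¹(F)` and `W` is finite-dimensional.
-/

namespace BAC

open Pool.Agent.Helper32 IntermediateField

section fam

variable {k F : Type*} [Field k] [Field F] [Algebra k F]

/-- the difference operator on families -/
private def dFam (τ : F ≃ₐ[k] F) (r : Place k F → F) : Place k F → F :=
  fun V => actFam τ r V - r V

private theorem dFam_add (τ : F ≃ₐ[k] F) (r s : Place k F → F) :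
    dFam τ (r + s) = dFam τ r + dFam τ s := by
  funext V
  simp only [dFam, actFam, Pi.add_apply, map_add]
  ring

private theorem dFam_iter_add (τ : F ≃ₐ[k] F) (d : ℕ) (r s : Place k F → F) :
    (dFam τ)^[d] (r + s) = (dFam τ)^[d] r + (dFam τ)^[d] s := by
  induction d generalizing r s with
  | zero => rfl
  | succ d ih =>
    rw [Function.iterate_succ_apply, dFam_add, ih]
    rfl

private theorem dFam_iter_const (τ : F ≃ₐ[k] F) (d : ℕ) (f : F) :
    (dFam τ)^[d] (fun _ => f) = fun _ => (fun y => τ y - y)^[d] f := by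
  induction d generalizing f with
  | zero => rfl
  | succ d ih =>
    rw [Function.iterate_succ_apply]
    have h1 : dFam τ (fun _ => f) = fun _ => τ f - f := rfl
    rw [h1, ih]
    rfl

private theorem dFam_iter_res (τ : F ≃ₐ[k] F) [Finite (Subgroup.zpowers τ)] (d : ℕ)
    (g : Place k (fixedField (Subgroup.zpowers τ)) → F) :
    (dFam τ)^[d] (fun V => g (resPl (fixedField (Subgroup.zpowers τ)) V)) =
      fun V => (fun y => τ y - y)^[d] (g (resPl (fixedField (Subgroup.zpowers τ)) V)) := by
  induction d generalizing g with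
  | zero => rfl
  | succ d ih =>
    rw [Function.iterate_succ_apply]
    have h1 : dFam τ (fun V => g (resPl (fixedField (Subgroup.zpowers τ)) V)) =
        fun V => (fun Q => τ (g Q) - g Q) (resPl (fixedField (Subgroup.zpowers τ)) V) := by
      funext V
      simp only [dFam, actFam]
      rw [res_act (Subgroup.zpowers τ) (inv_mem (Subgroup.mem_zpowers τ)) V]
    rw [h1]
    exact ih (fun Q => τ (g Q) - g Q)

private theorem dFam_iter_integral (τ : F ≃ₐ[k] F) (d : ℕ) (b : Place k F → F)
    (hb : ∀ V, b V ∈ V.1) (V : Place k F) : (dFam τ)^[d] b V ∈ V.1 := by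
  induction d generalizing b with
  | zero => exact hb V
  | succ d ih =>
    rw [Function.iterate_succ_apply]
    exact ih _ (fun V => sub_mem (act_integral hb V) (hb V))

end fam

variable {p : ℕ} [hp : Fact p.Prime] {k F : Type*} [Field k] [IsAlgClosed k] [CharP k p]
  [Field F] [Algebra k F]

/-- the top coefficient of a trivial family is trivial -/
private theorem top_trivial (hF : IsFunctionField k F) {τ : F ≃ₐ[k] F}
    [Finite (Subgroup.zpowers τ)] {P : Place k F} (hP : FixesPlace τ P) {w : F}
    (hw : τ w = w + 1) (β : Fin p → Place k (fixedField (Subgroup.zpowers τ)) →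
      fixedField (Subgroup.zpowers τ)) (b : Place k F → F) (hb : ∀ V, b V ∈ V.1) (f : F)
    (h : ∀ V : Place k F, ∑ j : Fin p, (β j (resPl (fixedField (Subgroup.zpowers τ)) V) : F) *
      w ^ (j : ℕ) = b V + f) (d : Fin p) (hd : ∀ j, d < j → β j = 0) :
    β d ∈ integralFamilies k (fixedField (Subgroup.zpowers τ)) ⊔
      constantFamilies k (fixedField (Subgroup.zpowers τ)) := by
  classical
  obtain ⟨b', hb'⟩ : ∃ b', b' = (dFam τ)^[(d : ℕ)] b := ⟨_, rfl⟩
  have hb'int : ∀ V, b' V ∈ V.1 := by
    rw [hb']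
    exact dFam_iter_integral τ d b hb
  obtain ⟨h', hh'⟩ : ∃ h', h' = (fun y => τ y - y)^[(d : ℕ)] f := ⟨_, rfl⟩
  have hfac : (((d : ℕ).factorial : ℕ) : k) ≠ 0 := by
    rw [Ne, CharP.cast_eq_zero_iff k p, hp.out.dvd_factorial]
    exact not_le.2 d.2
  have key : ∀ V : Place k F, ((d : ℕ).factorial : F) *
      (β d (resPl (fixedField (Subgroup.zpowers τ)) V) : F) = b' V + h' := by
    intro V
    have h1 : (fun V : Place k F => ∑ j : Fin p,
        (β j (resPl (fixedField (Subgroup.zpowers τ)) V) : F) * w ^ (j : ℕ)) =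
        b + fun _ => f := funext h
    have h2 := congrArg (fun r => (dFam τ)^[(d : ℕ)] r V) h1
    have h3 : (dFam τ)^[(d : ℕ)] (fun V : Place k F => ∑ j : Fin p,
        (β j (resPl (fixedField (Subgroup.zpowers τ)) V) : F) * w ^ (j : ℕ)) =
        fun V => (fun y => τ y - y)^[(d : ℕ)] (∑ j : Fin p,
        (β j (resPl (fixedField (Subgroup.zpowers τ)) V) : F) * w ^ (j : ℕ)) :=
      dFam_iter_res τ d (fun Q => ∑ j : Fin p, (β j Q : F) * w ^ (j : ℕ))
    have h4 : ∀ y : F, (fun y => τ y - y)^[(d : ℕ)] y =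
        (((τ : F →ₗ[k] F) - 1 : Module.End k F) ^ (d : ℕ)) y := by
      intro y
      rw [Module.End.pow_apply]
      rfl
    change (dFam τ)^[(d : ℕ)] _ V = (dFam τ)^[(d : ℕ)] _ V at h2
    rw [h3, dFam_iter_add, dFam_iter_const, ← hb', ← hh'] at h2
    change (fun y => τ y - y)^[(d : ℕ)] _ = b' V + h' at h2
    rw [← h2, h4, map_sum]
    rw [Finset.sum_eq_single d]
    · rw [← h4]
      exact ((delta_pow hw (mem_fixed_zpowers.1 (β d _).2) (d : ℕ)).2).symm
    · intro j _ hj
      rw [← h4]
      rcases lt_or_gt_of_ne hj with hj | hj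
      · exact (delta_pow hw (mem_fixed_zpowers.1 (β j _).2) (d : ℕ)).1 j hj
      · rw [hd j hj, h4]
        simp
    · intro hd'
      exact absurd (Finset.mem_univ d) hd'
  have hfix : τ h' = h' := by
    have h1 : ∀ V : Place k F, τ h' - h' = -(dFam τ b' V) := by
      intro V
      have h2 := key V
      have h3 := key (actPl τ⁻¹ V)
      rw [res_act (Subgroup.zpowers τ) (inv_mem (Subgroup.mem_zpowers τ)) V, h2] at h3
      have h4 := congrArg τ h2
      rw [map_mul, map_natCast, mem_fixed_zpowers.1 (β d _).2, h2, map_add] at h4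
      have h5 := congrArg τ h3
      rw [map_add, map_add] at h5
      have h6 : dFam τ b' V = τ (b' (actPl τ⁻¹ V)) - b' V := rfl
      rw [h6]
      linear_combination -h4 - h5
    obtain ⟨c, hc⟩ := ff_const (k := k) (a := τ h' - h') (fun V => by
      rw [h1 V]
      exact neg_mem (sub_mem (act_integral hb'int V) (hb'int V)))
    have h2 : P.1.valuation (algebraMap k F c) < 1 := by
      rw [← hc, h1 P, Valuation.map_neg]
      exact fix_small hF hP hb'int
    have h3 := const_eq_zero_of_lt P.2.1 h2
    rw [h3, map_zero] at hc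
    exact sub_eq_zero.1 hc
  have hE : h' ∈ fixedField (Subgroup.zpowers τ) := mem_fixed_zpowers.2 hfix
  obtain ⟨u, hu⟩ : ∃ u : k, u = (((d : ℕ).factorial : ℕ) : k)⁻¹ := ⟨_, rfl⟩
  have hu1 : algebraMap k F u * ((d : ℕ).factorial : F) = 1 := by
    rw [hu, ← map_natCast (algebraMap k F), ← map_mul, inv_mul_cancel₀ hfac, map_one]
  obtain ⟨e, he⟩ : ∃ e : fixedField (Subgroup.zpowers τ), (e : F) = algebraMap k F u * h' :=
    ⟨⟨algebraMap k F u * h', mul_mem ((fixedField (Subgroup.zpowers τ)).algebraMap_mem u) hE⟩, rfl⟩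
  rw [Submodule.mem_sup]
  refine ⟨fun Q => β d Q - e, ?_, fun _ => e, ⟨e, fun _ => rfl⟩, ?_⟩
  · intro Q
    obtain ⟨V, rfl⟩ := res_surj (fixedField (Subgroup.zpowers τ)) Q
    rw [mem_resPl]
    have h1 : ((β d (resPl (fixedField (Subgroup.zpowers τ)) V) - e :
        fixedField (Subgroup.zpowers τ)) : F) = algebraMap k F u * b' V := by
      push_cast
      rw [he]
      linear_combination (algebraMap k F u) * key V -
        (β d (resPl (fixedField (Subgroup.zpowers τ)) V) : F) * hu1
    rw [h1]
    exact mul_mem (V.2.1 u) (hb'int V)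
  · funext Q
    exact sub_add_cancel _ _

theorem h1_sub (hF : IsFunctionField k F) {τ : F ≃ₐ[k] F} (hτ : orderOf τ = p)
    {P : Place k F} (hP : FixesPlace τ P) (hfin : H1Fin k F) :
    H1Fin k (fixedField (Subgroup.zpowers τ)) ∧
      p * genus k (fixedField (Subgroup.zpowers τ)) ≤ genus k F := by
  classical
  have hfinτ : Finite (Subgroup.zpowers τ) := by
    have h1 : IsOfFinOrder τ := orderOf_pos_iff.1 (by rw [hτ]; exact hp.out.pos)
    exact (finite_zpowers.2 h1).to_subtype
  have hcF : CharP F p := charP_of_injective_algebraMap (algebraMap k F).injective p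
  obtain ⟨w, hw⟩ := exists_w τ hτ
  obtain ⟨W, hW⟩ := Submodule.exists_isCompl
    (trivialRepartitions k (fixedField (Subgroup.zpowers τ)))
  have eW := Submodule.quotientEquivOfIsCompl _ _ hW
  -- the map to the repartitions of `F`
  have hrep : ∀ β : Fin p → W, (fun V : Place k F => ∑ j : Fin p,
      (((β j).1.1 (resPl (fixedField (Subgroup.zpowers τ)) V) :
        fixedField (Subgroup.zpowers τ)) : F) * w ^ (j : ℕ)) ∈ repartitions k F := by
    intro β
    have h1 : ∀ j : Fin p, {V : Place k F | (β j).1.1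
        (resPl (fixedField (Subgroup.zpowers τ)) V) ∉
        (resPl (fixedField (Subgroup.zpowers τ)) V).1}.Finite := by
      intro j
      have h2 : {Q : Place k (fixedField (Subgroup.zpowers τ)) | (β j).1.1 Q ∉ Q.1}.Finite :=
        (β j).1.2
      exact h2.preimage' fun Q _ => fiber_finite hF (Subgroup.zpowers τ) Q
    refine ((finite_poles hF w).union (Set.finite_iUnion h1)).subset ?_
    intro V hV
    by_contra hcon
    rw [Set.mem_union, not_or, Set.mem_iUnion, not_exists] at hcon
    apply hV
    refine sum_mem fun j _ => mul_mem ?_ (pow_mem ?_ _)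
    · have h2 := hcon.2 j
      rw [Set.mem_ofPred_eq, not_not, mem_resPl] at h2
      exact h2
    · have h2 := hcon.1
      rw [Set.mem_ofPred_eq, not_not] at h2
      exact h2
  obtain ⟨ev, hev⟩ : ∃ ev : (Fin p → W) → Place k F → F, ∀ β V, ev β V = ∑ j : Fin p,
      (((β j).1.1 (resPl (fixedField (Subgroup.zpowers τ)) V) :
        fixedField (Subgroup.zpowers τ)) : F) * w ^ (j : ℕ) := ⟨_, fun β V => rfl⟩
  have hevr : ∀ β, ev β ∈ repartitions k F := by
    intro β
    have h1 : ev β = fun V => _ := funext (hev β)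
    rw [h1]
    exact hrep β
  have hadd : ∀ a b, ev (a + b) = ev a + ev b := by
    intro a b
    funext V
    rw [Pi.add_apply, hev, hev, hev, ← Finset.sum_add_distrib]
    refine Finset.sum_congr rfl fun j _ => ?_
    rw [← add_mul]
    rfl
  have hsmul : ∀ (c : k) a, ev (c • a) = c • ev a := by
    intro c a
    funext V
    rw [Pi.smul_apply, hev, hev, Finset.smul_sum]
    refine Finset.sum_congr rfl fun j _ => ?_
    rw [← smul_mul_assoc]
    rfl
  let Ψ : (Fin p → W) →ₗ[k] repartitions k F :=
    { toFun := fun β => ⟨ev β, hevr β⟩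
      map_add' := fun a b => Subtype.ext (hadd a b)
      map_smul' := fun c a => Subtype.ext (hsmul c a) }
  have hΨ : ∀ β V, (Ψ β).1 V = ∑ j : Fin p,
      (((β j).1.1 (resPl (fixedField (Subgroup.zpowers τ)) V) :
        fixedField (Subgroup.zpowers τ)) : F) * w ^ (j : ℕ) := fun β V => hev β V
  let Φ : (Fin p → W) →ₗ[k] (repartitions k F ⧸ trivialRepartitions k F) :=
    (trivialRepartitions k F).mkQ.comp Ψ
  have hinj : Function.Injective Φ := by
    rw [injective_iff_map_eq_zero]
    intro β hβ
    rw [LinearMap.comp_apply, Submodule.mkQ_apply,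
      Submodule.Quotient.mk_eq_zero] at hβ
    obtain ⟨b, hb, c, ⟨f, hf⟩, hbc⟩ := Submodule.mem_sup.1 (Submodule.mem_comap.1 hβ)
    have h1 : ∀ V : Place k F, ∑ j : Fin p,
        (((β j).1.1 (resPl (fixedField (Subgroup.zpowers τ)) V) :
        fixedField (Subgroup.zpowers τ)) : F) * w ^ (j : ℕ) = b V + f := by
      intro V
      rw [← hΨ, ← hf V]
      exact (congrFun hbc V).symm
    by_contra hne
    obtain ⟨j₀, hj₀⟩ : ∃ j, β j ≠ 0 := by
      by_contra hcon
      push Not at hcon
      exact hne (funext hcon)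
    obtain ⟨d, hd, hdmax⟩ := Finset.exists_max_image
      (Finset.univ.filter fun j : Fin p => β j ≠ 0) id
      ⟨j₀, Finset.mem_filter.2 ⟨Finset.mem_univ _, hj₀⟩⟩
    have hd0 := (Finset.mem_filter.1 hd).2
    have h2 := top_trivial hF hP hw (fun j => (β j).1.1) b hb f h1 d (fun j hj => by
      by_contra hcon
      have h3 := hdmax j (Finset.mem_filter.2 ⟨Finset.mem_univ _, fun h0 => hcon (by rw [h0]; rfl)⟩)
      exact absurd hj (not_lt.2 h3))
    have h3 : (β d).1 ∈ trivialRepartitions k (fixedField (Subgroup.zpowers τ)) := h2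
    have h4 : (β d).1 = 0 := by
      have h5 := hW.disjoint
      rw [Submodule.disjoint_def] at h5
      exact h5 _ h3 (β d).2
    exact hd0 (Subtype.ext h4)
  have hfin' : Module.Finite k (repartitions k F ⧸ trivialRepartitions k F) := hfin
  have hfp : Module.Finite k (Fin p → W) := Module.Finite.of_injective Φ hinj
  have hfW : Module.Finite k W :=
    Module.Finite.of_surjective (LinearMap.proj (⟨0, hp.out.pos⟩ : Fin p) : (Fin p → W) →ₗ[k] W)
      (LinearMap.proj_surjective _)
  refine ⟨Module.Finite.equiv eW.symm, ?_⟩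
  have h1 : genus k (fixedField (Subgroup.zpowers τ)) = Module.finrank k W := eW.finrank_eq
  have h2 := LinearMap.finrank_le_finrank_of_injective hinj
  rw [Module.finrank_pi_fintype, Finset.sum_const, Finset.card_univ, Fintype.card_fin,
    smul_eq_mul] at h2
  rw [h1]
  exact h2

end BAC
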