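import Pool.Agent.BAC.FFRes

/-!
BAC / F5 (blueprint 8.2). An automorphism `τ` of order `p`: common facts.

`exists_w`: `F / F^τ` is cyclic of degree `p` with group generated by `τ`; the trace is onto: `Tr θ = 1`,
`w = - ∑_{i<p} i τ^i θ` gives `τ w = w + 1`.
`actFam τ r V = τ (r (τ⁻¹ V))`. `delta_pow`: `Δ = τ - 1` on `F` satisfies `Δ^d (a w^j) = 0` for `j < d`, `a ∈ F^τ`, and
`Δ^d (a w^d) = d! a` (induction: `Δ` lowers the degree of polynomials in `w` with coefficients in `F^τ`, leading
coefficient multiplied by the degree).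
`fix_mod`: `σ` fixes the place `P`, `a ∈ P.1`: `valuation (σ a - a) < 1` (`ff_res`: `a = c + m`, `σ m` in the maximal
ideal; `fixes_sub_lt` of helper32 AS21).
`act_integral`: `actFam` preserves integral families. `fix_small`: if `b` is an integral family and `τ` fixes `P` then
`(actFam τ b - b) P = τ (b P) - b P` has valuation `< 1` at `P`.
-/

namespace BAC

open Pool.Agent.Helper32 IntermediateField

variable {p : ℕ} [hp : Fact p.Prime] {k F : Type*} [Field k] [Field F] [Algebra k F]

/-- action on families -/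
def actFam (τ : F ≃ₐ[k] F) (r : Place k F → F) : Place k F → F :=
  fun V => τ (r (actPl τ⁻¹ V))

theorem exists_w [CharP F p] (τ : F ≃ₐ[k] F) (hτ : orderOf τ = p) : ∃ w : F, τ w = w + 1 := by
  have hp0 : 0 < p := hp.out.pos
  -- an element of nonzero trace
  obtain ⟨θ₀, hθ₀⟩ : ∃ θ₀ : F, ∑ i ∈ Finset.range p, (τ ^ i) θ₀ ≠ 0 := by
    by_contra hcon
    push Not at hcon
    have hli := linearIndependent_monoidHom F F
    have hinj : Function.Injective
        (fun i : Fin p => (((τ ^ (i : ℕ) : F ≃ₐ[k] F) : F →* F))) := by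
      intro i j hij
      have h1 : τ ^ (i : ℕ) = τ ^ (j : ℕ) := by
        apply AlgEquiv.ext
        intro x
        exact DFunLike.congr_fun hij x
      have h2 := pow_injOn_Iio_orderOf (x := τ) (by rw [hτ]; exact i.2) (by rw [hτ]; exact j.2) h1
      exact Fin.ext h2
    have hli2 := hli.comp _ hinj
    rw [Fintype.linearIndependent_iff] at hli2
    have h3 := hli2 (fun _ => 1) (by
      funext x
      rw [Finset.sum_apply]
      simp only [Function.comp_apply, Pi.smul_apply, smul_eq_mul, one_mul, Pi.zero_apply]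
      have h4 := hcon x
      rw [Finset.sum_range] at h4
      exact h4) ⟨0, hp0⟩
    exact one_ne_zero h3
  have hτp : τ ^ p = 1 := by rw [← hτ]; exact pow_orderOf_eq_one τ
  have hshift : ∀ x : F, ∑ i ∈ Finset.range p, (τ ^ (i + 1)) x =
      ∑ i ∈ Finset.range p, (τ ^ i) x := by
    intro x
    have h1 := Finset.sum_range_succ (fun i => (τ ^ i) x) p
    have h2 := Finset.sum_range_succ' (fun i => (τ ^ i) x) p
    rw [hτp] at h1
    rw [pow_zero] at h2
    rw [h1] at h2
    exact (add_right_cancel h2).symm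
  have hcomp : ∀ (i : ℕ) (x : F), τ ((τ ^ i) x) = (τ ^ (i + 1)) x := by
    intro i x
    rw [pow_succ', AlgEquiv.mul_apply]
  set s : F := ∑ i ∈ Finset.range p, (τ ^ i) θ₀ with hs
  have hτs : τ s = s := by
    rw [hs, map_sum, Finset.sum_congr rfl fun i _ => hcomp i θ₀, hshift]
  have hτsi : ∀ i : ℕ, (τ ^ i) s = s := by
    intro i
    induction i with
    | zero => rw [pow_zero]; rfl
    | succ i ih => rw [← hcomp, ih, hτs]
  set θ : F := θ₀ / s with hθ
  have hθ1 : ∑ i ∈ Finset.range p, (τ ^ i) θ = 1 := by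
    have h1 : ∀ i ∈ Finset.range p, (τ ^ i) θ = (τ ^ i) θ₀ / s := by
      intro i _
      rw [hθ, map_div₀, hτsi]
    rw [Finset.sum_congr rfl h1, ← Finset.sum_div, ← hs, div_self hθ₀]
  refine ⟨-∑ i ∈ Finset.range p, (i : F) * (τ ^ i) θ, ?_⟩
  have h1 : τ (∑ i ∈ Finset.range p, (i : F) * (τ ^ i) θ) =
      ∑ i ∈ Finset.range p, (i : F) * (τ ^ (i + 1)) θ := by
    rw [map_sum]
    refine Finset.sum_congr rfl fun i _ => ?_
    rw [map_mul, map_natCast, hcomp]
  have h2 : ∑ i ∈ Finset.range p, (((i + 1 : ℕ) : F)) * (τ ^ (i + 1)) θ =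
      ∑ i ∈ Finset.range p, (i : F) * (τ ^ i) θ := by
    have h3 := Finset.sum_range_succ (fun i => ((i : ℕ) : F) * (τ ^ i) θ) p
    have h4 := Finset.sum_range_succ' (fun i => ((i : ℕ) : F) * (τ ^ i) θ) p
    rw [CharP.cast_eq_zero, zero_mul, add_zero] at h3
    rw [Nat.cast_zero, zero_mul, add_zero] at h4
    rw [← h4, h3]
  have h5 : ∑ i ∈ Finset.range p, (((i + 1 : ℕ) : F)) * (τ ^ (i + 1)) θ =
      ∑ i ∈ Finset.range p, (i : F) * (τ ^ (i + 1)) θ + 1 := by
    rw [← hθ1, ← hshift, ← Finset.sum_add_distrib]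
    refine Finset.sum_congr rfl fun i _ => ?_
    push_cast
    ring
  rw [map_neg, h1]
  rw [h2] at h5
  rw [h5]
  ring

theorem mem_fixed_zpowers {τ : F ≃ₐ[k] F} {a : F} :
    a ∈ fixedField (Subgroup.zpowers τ) ↔ τ a = a := by
  rw [IntermediateField.mem_fixedField_iff]
  constructor
  · intro h
    exact h τ (Subgroup.mem_zpowers τ)
  · intro h f hf
    have h1 : Subgroup.zpowers τ ≤ MulAction.stabilizer (F ≃ₐ[k] F) a := by
      rw [Subgroup.zpowers_le]
      exact h
    exact h1 hf

theorem delta_pow {τ : F ≃ₐ[k] F} {w : F} (hw : τ w = w + 1) {a : F} (ha : τ a = a) (d : ℕ) :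
    (∀ j < d, (fun y => τ y - y)^[d] (a * w ^ j) = 0) ∧
      (fun y => τ y - y)^[d] (a * w ^ d) = d.factorial * a := by
  set D : Module.End k F := τ.toLinearMap - LinearMap.id with hD
  have hDf : (fun y => τ y - y) = (⇑D : F → F) := rfl
  rw [hDf]
  have key : ∀ (d : ℕ) (a : F), τ a = a →
      (∀ j < d, (D ^ d) (a * w ^ j) = 0) ∧ (D ^ d) (a * w ^ d) = d.factorial * a := by
    intro d
    induction d with
    | zero =>
      intro a _
      refine ⟨fun j hj => absurd hj (Nat.not_lt_zero j), ?_⟩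
      simp
    | succ d ih =>
      intro a ha
      have h1 : ∀ j : ℕ, D (a * w ^ j) =
          ∑ i ∈ Finset.range j, ((j.choose i : ℕ) : F) * a * w ^ i := by
        intro j
        have h2 : D (a * w ^ j) = a * (w + 1) ^ j - a * w ^ j := by
          change τ (a * w ^ j) - a * w ^ j = _
          rw [map_mul, map_pow, ha, hw]
        rw [h2, add_pow, Finset.sum_range_succ, mul_add, Finset.mul_sum]
        simp only [one_pow, mul_one, Nat.choose_self, Nat.cast_one]
        rw [add_sub_cancel_right]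
        exact Finset.sum_congr rfl fun i _ => by ring
      have h3 : ∀ j : ℕ, (D ^ (d + 1)) (a * w ^ j) =
          ∑ i ∈ Finset.range j, (D ^ d) (((j.choose i : ℕ) : F) * a * w ^ i) := by
        intro j
        rw [pow_succ, Module.End.mul_apply, h1, map_sum]
      have h4 : ∀ n : ℕ, τ ((n : F) * a) = (n : F) * a := by
        intro n
        rw [map_mul, map_natCast, ha]
      constructor
      · intro j hj
        rw [h3]
        refine Finset.sum_eq_zero fun i hi => ?_
        exact (ih _ (h4 _)).1 i (lt_of_lt_of_le (Finset.mem_range.1 hi) (Nat.lt_succ_iff.1 hj))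
      · rw [h3, Finset.sum_range_succ, (ih _ (h4 _)).2, Finset.sum_eq_zero, zero_add,
          Nat.choose_succ_self_right, Nat.factorial_succ]
        · push_cast
          ring
        · intro i hi
          exact (ih _ (h4 _)).1 i (Finset.mem_range.1 hi)
  have h := key d a ha
  rw [Module.End.coe_pow] at h
  exact h

theorem fix_mod [IsAlgClosed k] (hF : IsFunctionField k F) {σ : F ≃ₐ[k] F} {P : Place k F}
    (h : FixesPlace σ P) {a : F} (ha : a ∈ P.1) : P.1.valuation (σ a - a) < 1 := by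
  obtain ⟨c, hc⟩ := ff_res hF P ha
  exact fixes_sub_lt (hP := P.2.1) h ⟨c, hc⟩

theorem act_integral {τ : F ≃ₐ[k] F} {b : Place k F → F} (hb : ∀ V, b V ∈ V.1) (V : Place k F) :
    actFam τ b V ∈ V.1 := by
  exact mem_actPl.1 (hb (actPl τ⁻¹ V))

theorem fix_small [IsAlgClosed k] (hF : IsFunctionField k F) {τ : F ≃ₐ[k] F} {P : Place k F}
    (h : FixesPlace τ P) {b : Place k F → F} (hb : ∀ V, b V ∈ V.1) :
    P.1.valuation (actFam τ b P - b P) < 1 := by
  have h1 : FixesPlace τ⁻¹ P := by
    intro a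
    have h2 := h (τ⁻¹ a)
    have h3 : τ (τ⁻¹ a) = a := τ.apply_symm_apply a
    rw [h3] at h2
    exact h2.symm
  have h4 : actFam τ b P = τ (b P) := by
    unfold actFam
    rw [fixesPlace_iff.1 h1]
  rw [h4]
  exact fix_mod hF h (hb P)

end BAC
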