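import Pool.Agent.BAC.WmDim

/-!
BAC / A4 (blueprint 1.5, genus). `dim F / (R_F + O_F)` for an Artin-Schreier step.

`w = w₀ - c`, `h = h₀.shift c`, `v' = h.valuation ..`, `R_F = Rint k (algebraMap E F x)`, `O_F = {v' ≤ 1}`,
`W_F = R_F + O_F` (`Wm .. 0`; `mem_Wm` for `E`; for `F` argue directly with the span of a union, `R_F`
and `O_F` are submodules, `h.valuation_const`).
For `i ≤ p` let `V_i = {y ∈ F | natDegree (h₀.rep y) < i}` (a `k`-subspace, the same with `h.rep`
because `h.rep y = taylor c (h₀.rep y)` (`rep_shift`)), `V_0 = 0`, `V_p = F`. Top coefficient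
`t_i : V_(i+1) → E`, `y ↦ (h₀.rep y).coeff i` (`= (h.rep y).coeff i` for `y ∈ V_(i+1)`), kernel `V_i`.
* `t_i (R_F ∩ V_(i+1)) = Rint k x` (`h₀.coeff_mem_Rint hP₀`, `h₀.aeval_mem_Rint hP₀`).
* `t_i (O_F ∩ V_(i+1)) = {v ≤ exp (-m_i)}`, `m_0 = 0`, `m_i = i l' / p + 1` for `0 < i < p`
  (`h.valuation_term_le`, `h.valuation_monomial`: `v a ^ p exp (i l) ≤ 1` iff `v a ≤ exp (-m_i)`, since
  `p ∤ i l'`).
* if `r ∈ R_F`, `o ∈ O_F`, `r + o ∈ V_(i+1)` then `r, o ∈ V_(i+1)`: otherwise let `j > i` be the degree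
  of `r` and `o`; the coefficients `r_j = - o_j` satisfy `r_j ∈ Rint k x`, `v r_j < 1`, so `r_j = 0`
  (`L.R_inter_lt`).
So `dim V_(i+1) / (W_F ∩ V_(i+1)) = dim V_i / (W_F ∩ V_i) + dim E / Wm k x v m_i`, and
`dim E / Wm k x v m_i` is given by `Wm_dim`. Sum over `i < p`.
-/

set_option linter.unusedSectionVars false

namespace BAC

open Polynomial WithZero Pool.Agent.Helper32

/-- one step of a filtration -/
private theorem dim_chain {k M N : Type*} [Field k] [AddCommGroup M] [Module k M] [AddCommGroup N]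
    [Module k N] {A B : Submodule k M} (hAB : A ≤ B) (g : N →ₗ[k] M) {W : Submodule k N}
    (hker : ∀ a, g a ∈ A ↔ a ∈ W) (hgB : ∀ a, g a ∈ B) (hran : ∀ b ∈ B, ∃ a, b - g a ∈ A)
    (hfN : Module.Finite k (N ⧸ W)) (hfB : Module.Finite k (M ⧸ B)) :
    Module.Finite k (M ⧸ A) ∧
      Module.finrank k (M ⧸ A) = Module.finrank k (N ⧸ W) + Module.finrank k (M ⧸ B) := by
  let f : (M ⧸ A) →ₗ[k] (M ⧸ B) := Submodule.factor hAB
  have hf : Function.Surjective f := Submodule.factor_surjective hAB
  let g' : (N ⧸ W) →ₗ[k] (M ⧸ A) := W.mapQ A g (fun a ha => (hker a).2 ha)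
  have hg' : Function.Injective g' := by
    rw [← LinearMap.ker_eq_bot, LinearMap.ker_eq_bot']
    intro m hm
    obtain ⟨a, rfl⟩ := Submodule.mkQ_surjective W m
    rw [Submodule.mkQ_apply] at hm ⊢
    have h1 : g' (Submodule.Quotient.mk a) = Submodule.Quotient.mk (g a) := rfl
    rw [h1, Submodule.Quotient.mk_eq_zero] at hm
    rw [Submodule.Quotient.mk_eq_zero]
    exact (hker a).1 hm
  have hex : LinearMap.range g' = LinearMap.ker f := by
    apply le_antisymm
    · rintro _ ⟨m, rfl⟩
      obtain ⟨a, rfl⟩ := Submodule.mkQ_surjective W m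
      rw [LinearMap.mem_ker]
      have h1 : f (g' (W.mkQ a)) = Submodule.Quotient.mk (g a) := rfl
      rw [h1, Submodule.Quotient.mk_eq_zero]
      exact hgB a
    · intro m hm
      obtain ⟨b, rfl⟩ := Submodule.mkQ_surjective A m
      rw [LinearMap.mem_ker] at hm
      have h1 : f (A.mkQ b) = Submodule.Quotient.mk b := rfl
      rw [h1, Submodule.Quotient.mk_eq_zero] at hm
      obtain ⟨a, ha⟩ := hran b hm
      refine ⟨W.mkQ a, ?_⟩
      have h2 : g' (W.mkQ a) = Submodule.Quotient.mk (g a) := rfl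
      rw [h2, Submodule.mkQ_apply, Submodule.Quotient.eq]
      have := A.neg_mem ha
      rwa [neg_sub] at this
  let e1 : (N ⧸ W) ≃ₗ[k] LinearMap.ker f :=
    (LinearEquiv.ofInjective g' hg').trans (LinearEquiv.ofEq _ _ hex)
  have hk : Module.Finite k (LinearMap.ker f) := Module.Finite.equiv e1
  let e2 : ((M ⧸ A) ⧸ LinearMap.ker f) ≃ₗ[k] (M ⧸ B) := f.quotKerEquivOfSurjective hf
  have hq : Module.Finite k ((M ⧸ A) ⧸ LinearMap.ker f) := Module.Finite.equiv e2.symm
  have hfin : Module.Finite k (M ⧸ A) := Module.Finite.of_submodule_quotient (LinearMap.ker f)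
  refine ⟨hfin, ?_⟩
  have h3 := Submodule.finrank_quotient_add_finrank (LinearMap.ker f)
  rw [← h3, ← e1.finrank_eq, e2.finrank_eq, add_comm]

/-- membership in `Wm .. 0`, for a valuation which is trivial on constants -/
private theorem mem_Wm_zero {k F : Type*} [Field k] [Field F] [Algebra k F] {y : F} {ν : VI F}
    (hc : ∀ c : k, ν (algebraMap k F c) ≤ 1) {f : F} :
    f ∈ Wm k y ν 0 ↔ ∃ r ∈ Rint k y, ν (f - r) ≤ 1 := by
  constructor
  · intro hf
    unfold Wm at hf
    induction hf using Submodule.span_induction with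
    | mem z hz =>
      rcases hz with hz | hz
      · exact ⟨z, hz, by simp⟩
      · exact ⟨0, zero_mem _, by simpa using hz⟩
    | zero => exact ⟨0, zero_mem _, by simp⟩
    | add a b _ _ iha ihb =>
      obtain ⟨r, hr, hr'⟩ := iha
      obtain ⟨s, hs, hs'⟩ := ihb
      refine ⟨r + s, add_mem hr hs, ?_⟩
      have : a + b - (r + s) = (a - r) + (b - s) := by ring
      rw [this]
      exact le_trans (ν.map_add _ _) (max_le hr' hs')
    | smul c a _ iha =>
      obtain ⟨r, hr, hr'⟩ := iha
      refine ⟨c • r, (Rint k y).smul_mem hr c, ?_⟩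
      rw [← smul_sub, Algebra.smul_def, map_mul]
      exact mul_le_one₀ (hc c) zero_le hr'
  · rintro ⟨r, hr, hr'⟩
    have h1 : r ∈ Wm k y ν 0 := Submodule.subset_span (Or.inl hr)
    have h2 : f - r ∈ Wm k y ν 0 := Submodule.subset_span (Or.inr (by simpa using hr'))
    have := add_mem h1 h2
    rwa [add_sub_cancel] at this

section filt

variable {p : ℕ} [hp : Fact p.Prime] {k E F : Type*} [Field k] [Field E] [Field F]
    [Algebra k E] [Algebra k F] [Algebra E F] [IsScalarTower k E F] [CharP E p] [CharP F p]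
    {w₀ : F} {P₀ : E} (h₀ : ASData p w₀ P₀)

/-- elements of degree `< i` -/
private noncomputable def Vs (k : Type*) {E F : Type*} [Field k] [Field E] [Field F]
    [Algebra k E] [Algebra k F] [Algebra E F] [IsScalarTower k E F] [CharP E p] [CharP F p]
    {w₀ : F} {P₀ : E} (h₀ : ASData p w₀ P₀) (i : ℕ) : Submodule k F where
  carrier := {y | ∀ j, i ≤ j → (h₀.rep y).coeff j = 0}
  add_mem' := fun {a b} ha hb j hj => by
    rw [h₀.rep_add, coeff_add, ha j hj, hb j hj, add_zero]
  zero_mem' := fun j _ => by rw [h₀.rep_zero, coeff_zero]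
  smul_mem' := fun c a ha j hj => by
    have h1 : h₀.rep (c • a) = C (algebraMap k E c) * h₀.rep a := by
      apply h₀.rep_eq
      · exact lt_of_le_of_lt (natDegree_C_mul_le _ _) (h₀.rep_natDegree a)
      · rw [map_mul, aeval_C, h₀.aeval_rep, ← IsScalarTower.algebraMap_apply, Algebra.smul_def]
    rw [h1, coeff_C_mul, ha j hj, mul_zero]

private theorem mem_Vs {i : ℕ} {y : F} : y ∈ Vs k h₀ i ↔ ∀ j, i ≤ j → (h₀.rep y).coeff j = 0 := Iff.rfl

private theorem Vs_mono {i j : ℕ} (h : i ≤ j) : Vs k h₀ i ≤ Vs k h₀ j :=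
  fun _ hy n hn => hy n (h.trans hn)

private theorem Vs_zero : Vs k h₀ 0 = ⊥ := by
  rw [eq_bot_iff]
  intro y hy
  rw [Submodule.mem_bot]
  apply h₀.rep_eq_zero
  ext j
  rw [hy j (Nat.zero_le j), coeff_zero]

private theorem Vs_top : Vs k h₀ p = ⊤ := by
  rw [eq_top_iff]
  intro y _ j hj
  exact coeff_eq_zero_of_natDegree_lt (lt_of_lt_of_le (h₀.rep_natDegree y) hj)

private theorem rep_mono {i : ℕ} (hi : i < p) (a : E) :
    h₀.rep (algebraMap E F a * w₀ ^ i) = monomial i a := by
  apply h₀.rep_eq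
  · exact lt_of_le_of_lt (natDegree_monomial_le _) hi
  · rw [aeval_monomial]

/-- the top coefficients of the two representations agree -/
private theorem coeff_shift (c : E) {y : F} {i : ℕ} (hy : y ∈ Vs k h₀ (i + 1)) :
    ((h₀.shift c).rep y).coeff i = (h₀.rep y).coeff i := by
  rw [rep_shift]
  have hd : (h₀.rep y).natDegree ≤ i := by
    rw [natDegree_le_iff_coeff_eq_zero]
    intro N hN
    exact hy N hN
  rcases lt_or_eq_of_le hd with h1 | h1
  · rw [coeff_eq_zero_of_natDegree_lt h1, coeff_eq_zero_of_natDegree_lt (by rwa [natDegree_taylor])]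
  · rw [← h1, coeff_taylor_natDegree]
    rfl

/-- `a ↦ a w₀ ^ i` -/
private noncomputable def gmap (k : Type*) {E F : Type*} [Field k] [Field E] [Field F]
    [Algebra k E] [Algebra k F] [Algebra E F] [IsScalarTower k E F] (w₀ : F) (i : ℕ) : E →ₗ[k] F :=
  (LinearMap.mulRight k (w₀ ^ i)).comp (IsScalarTower.toAlgHom k E F).toLinearMap

private theorem gmap_apply {w₀ : F} {i : ℕ} (a : E) : gmap k w₀ i a = algebraMap E F a * w₀ ^ i := rfl

private theorem gmap_mem {i : ℕ} (hi : i < p) (a : E) : gmap k w₀ i a ∈ Vs k h₀ (i + 1) := by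
  intro j hj
  rw [gmap_apply, rep_mono h₀ hi, coeff_monomial, if_neg (by omega)]

private theorem sub_gmap_mem {i : ℕ} (hi : i < p) {y : F} (hy : y ∈ Vs k h₀ (i + 1)) :
    y - gmap k w₀ i ((h₀.rep y).coeff i) ∈ Vs k h₀ i := by
  intro j hj
  rw [sub_eq_add_neg, h₀.rep_add, h₀.rep_neg, gmap_apply, rep_mono h₀ hi, coeff_add, coeff_neg,
    coeff_monomial]
  by_cases hij : i = j
  · subst hij
    rw [if_pos rfl, add_neg_cancel]
  · rw [if_neg hij, neg_zero, add_zero]
    exact hy j (by omega)

/-- the exponents -/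
private def mex (p l' i : ℕ) : ℕ := if i = 0 then 0 else i * l' / p + 1

private theorem le_mex {l : ℤ} (hl : ¬ (p : ℤ) ∣ l) {l' : ℕ} (hl' : (l' : ℤ) = l)
    {v : VI E} {i : ℕ} (hi : i < p) {a : E} :
    v a ^ p * exp ((i : ℤ) * l) ≤ 1 ↔ v a ≤ exp (-(mex p l' i : ℤ)) := by
  have hp0 := hp.out.pos
  by_cases ha : a = 0
  · subst ha
    simp [hp.out.ne_zero]
  have hva : v a ≠ 0 := (Valuation.ne_zero_iff v).mpr ha
  obtain ⟨j, hj⟩ : ∃ j : ℤ, v a = exp j := ⟨log (v a), (exp_log hva).symm⟩
  rw [hj, ← exp_nsmul, ← exp_add, nsmul_eq_mul, ← exp_zero, exp_le_exp, exp_le_exp]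
  subst hl'
  unfold mex
  have hp0' : (0 : ℤ) < p := by exact_mod_cast hp0
  split_ifs with hi0
  · subst hi0
    constructor
    · intro h
      push_cast at h ⊢
      nlinarith
    · intro h
      push_cast at h ⊢
      nlinarith
  · have h1 : ¬ (p : ℤ) ∣ (i : ℤ) * l' := by
      intro h2
      rcases (Nat.prime_iff_prime_int.mp hp.out).dvd_or_dvd h2 with h3 | h3
      · have := Int.eq_zero_of_abs_lt_dvd h3 (abs_lt.mpr ⟨by omega, by omega⟩)
        omega
      · exact hl h3
    have h2 : (p : ℤ) * (((i * l' / p : ℕ) : ℤ)) + ((i * l' % p : ℕ) : ℤ) = (i : ℤ) * l' := by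
      exact_mod_cast Nat.div_add_mod (i * l') p
    have h3 : ((i * l' % p : ℕ) : ℤ) < p := by exact_mod_cast Nat.mod_lt (i * l') hp0
    have h4 : 0 < ((i * l' % p : ℕ) : ℤ) := by
      rcases Nat.eq_zero_or_pos (i * l' % p) with h5 | h5
      · exfalso
        apply h1
        rw [h5] at h2
        exact ⟨_, by push_cast at h2 ⊢; linarith⟩
      · exact_mod_cast h5
    set q : ℤ := ((i * l' / p : ℕ) : ℤ) with hq
    rw [show (((i * l' / p + 1 : ℕ)) : ℤ) = q + 1 by rw [hq]; push_cast; ring]
    constructor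
    · intro h
      by_contra hcon
      push Not at hcon
      have : -q ≤ j := by omega
      nlinarith
    · intro h
      nlinarith

end filt

theorem filt_dim {p : ℕ} [hp : Fact p.Prime] {k E F : Type*} [Field k] [Field E] [Field F]
    [Algebra k E] [Algebra k F] [Algebra E F] [IsScalarTower k E F] [CharP k p] [CharP E p]
    [CharP F p] {x : E} {n g : ℕ} {v : VI E} (L : IsLevel p k x n g v)
    (hfin : Module.Finite k (E ⧸ Wm k x v 0)) {w₀ : F} {P₀ : E} (h₀ : ASData p w₀ P₀)
    (hP₀ : P₀ ∈ Rint k x) (c : E) {l : ℤ} (hl0 : 0 < l) (hl : ¬ (p : ℤ) ∣ l)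
    (hP : v (P₀ - (c ^ p - c)) = exp l) {l' : ℕ} (hl' : (l' : ℤ) = l) :
    Module.Finite k
      (F ⧸ Wm k (algebraMap E F x) ((h₀.shift c).valuation v hl0 hl hP) 0) ∧
    Module.finrank k
      (F ⧸ Wm k (algebraMap E F x) ((h₀.shift c).valuation v hl0 hl hP) 0) =
      p * Module.finrank k (E ⧸ Wm k x v 0) + ∑ i ∈ Finset.range p, (i * l') / p := by
  have hconst : ∀ a : k, (h₀.shift c).valuation v hl0 hl hP (algebraMap k F a) ≤ 1 := by
    intro a
    by_cases ha : a = 0
    · subst ha; simp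
    · exact ((h₀.shift c).valuation_const hl0 hl hP L a ha).le
  set ν := (h₀.shift c).valuation v hl0 hl hP with hν
  set WF := Wm k (algebraMap E F x) ν 0 with hWF
  have hmem : ∀ f : F, f ∈ WF ↔ ∃ r ∈ Rint k (algebraMap E F x), ν (f - r) ≤ 1 :=
    fun f => mem_Wm_zero hconst
  -- the quotients of `E`
  have hE : ∀ i, i < p → Module.Finite k (E ⧸ Wm k x v (mex p l' i)) ∧
      Module.finrank k (E ⧸ Wm k x v (mex p l' i)) =
        Module.finrank k (E ⧸ Wm k x v 0) + i * l' / p := by
    intro i hi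
    unfold mex
    by_cases hi0 : i = 0
    · subst hi0
      rw [if_pos rfl]
      exact ⟨hfin, by simp⟩
    · rw [if_neg hi0]
      exact Wm_dim L hfin _
  -- the key fact
  have hkey : ∀ i, i < p → ∀ a : E, gmap k w₀ i a ∈ WF ⊔ Vs k h₀ i ↔ a ∈ Wm k x v (mex p l' i) := by
    intro i hi a
    rw [mem_Wm L]
    constructor
    · intro h
      obtain ⟨f, hf, u, hu, hfu⟩ := Submodule.mem_sup.1 h
      obtain ⟨r, hr, hr'⟩ := (hmem f).1 hf
      set o := f - r with ho
      have hsum : r + o ∈ Vs k h₀ (i + 1) := by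
        have h1 : r + o = gmap k w₀ i a - u := by rw [ho, ← hfu]; ring
        rw [h1]
        exact sub_mem (gmap_mem h₀ hi a) (Vs_mono h₀ (Nat.le_succ i) hu)
      -- `r, o` have degree `≤ i`
      have hdesc : ∀ d, i + 1 ≤ d → d ≤ p → r ∈ Vs k h₀ d ∧ o ∈ Vs k h₀ d →
          r ∈ Vs k h₀ (i + 1) ∧ o ∈ Vs k h₀ (i + 1) := by
        intro d hd
        induction d, hd using Nat.le_induction with
        | base => exact fun _ h => h
        | succ d hd ih =>
          intro hdp hro
          apply ih (by omega)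
          have h1 : (h₀.rep r).coeff d + (h₀.rep o).coeff d = 0 := by
            rw [← coeff_add, ← h₀.rep_add]
            exact hsum d hd
          have h2 := (h₀.shift c).valuation_term_le hl0 hl hP o (i := d) (by omega)
          rw [coeff_shift h₀ c hro.2] at h2
          have h3 := (ASData.term_lt_one hl0 hl (by omega : 0 < d) (by omega) (le_trans h2 hr')).2
          have h4 : (h₀.rep r).coeff d = 0 := by
            apply L.R_inter_lt (h₀.coeff_mem_Rint hP₀ hr d)
            rw [eq_neg_of_add_eq_zero_left h1, Valuation.map_neg]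
            exact h3
          have h5 : (h₀.rep o).coeff d = 0 := by rwa [h4, zero_add] at h1
          constructor
          · intro j hj
            rcases Nat.eq_or_lt_of_le hj with h6 | h6
            · rw [← h6, h4]
            · exact hro.1 j h6
          · intro j hj
            rcases Nat.eq_or_lt_of_le hj with h6 | h6
            · rw [← h6, h5]
            · exact hro.2 j h6
      obtain ⟨hr1, ho1⟩ := hdesc p (by omega) le_rfl (by rw [Vs_top]; exact ⟨trivial, trivial⟩)
      refine ⟨(h₀.rep r).coeff i, h₀.coeff_mem_Rint hP₀ hr i, ?_⟩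
      have h1 : a - (h₀.rep r).coeff i = (h₀.rep o).coeff i := by
        have h2 : gmap k w₀ i a = r + o + u := by rw [← hfu, ho]; ring
        have h3 : (h₀.rep (gmap k w₀ i a)).coeff i = a := by
          rw [gmap_apply, rep_mono h₀ hi, coeff_monomial, if_pos rfl]
        rw [h2, h₀.rep_add, h₀.rep_add, coeff_add, coeff_add, hu i le_rfl] at h3
        rw [← h3]; ring
      rw [h1, ← le_mex hl hl' hi, ← coeff_shift h₀ c ho1]
      exact le_trans ((h₀.shift c).valuation_term_le hl0 hl hP o hi) hr'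
    · rintro ⟨r, hr, hr'⟩
      set o := a - r with ho
      have h1 : gmap k w₀ i a = gmap k w₀ i r +
          (algebraMap E F o * (w₀ - algebraMap E F c) ^ i +
            (gmap k w₀ i o - algebraMap E F o * (w₀ - algebraMap E F c) ^ i)) := by
        have h2 : a = r + o := by rw [ho]; ring
        rw [h2, map_add]; ring
      rw [h1]
      have hr1 : gmap k w₀ i r ∈ WF := by
        rw [hmem]
        refine ⟨gmap k w₀ i r, ?_, by simp⟩
        rw [gmap_apply]
        exact mul_mem (map_mem_Rint (IsScalarTower.toAlgHom k E F) hr)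
          (pow_mem (h₀.gen_mem_Rint hP₀) _)
      have hr2 : algebraMap E F o * (w₀ - algebraMap E F c) ^ i ∈ WF := by
        rw [hmem]
        refine ⟨0, zero_mem _, ?_⟩
        rw [sub_zero, hν, (h₀.shift c).valuation_monomial hl0 hl hP hi, le_mex hl hl' hi]
        exact hr'
      have hr3 : gmap k w₀ i o - algebraMap E F o * (w₀ - algebraMap E F c) ^ i ∈ Vs k h₀ i := by
        have h3 : algebraMap E F o * (w₀ - algebraMap E F c) ^ i =
            aeval w₀ (C o * (X - C c) ^ i) := by simp
        have h4 : (C o * (X - C c) ^ i : E[X]).natDegree ≤ i := by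
          refine le_trans (natDegree_C_mul_le _ _) (le_trans natDegree_pow_le ?_)
          rw [natDegree_X_sub_C, mul_one]
        have h5 : h₀.rep (algebraMap E F o * (w₀ - algebraMap E F c) ^ i) =
            C o * (X - C c) ^ i := h₀.rep_eq (by omega) h3.symm
        have h6 : algebraMap E F o * (w₀ - algebraMap E F c) ^ i ∈ Vs k h₀ (i + 1) := by
          intro j hj
          rw [h5]
          exact coeff_eq_zero_of_natDegree_lt (by omega)
        have h7 := sub_gmap_mem h₀ hi h6
        have h8 : (h₀.rep (algebraMap E F o * (w₀ - algebraMap E F c) ^ i)).coeff i = o := by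
          rw [h5, coeff_C_mul]
          have h9 : ((X - C c : E[X]) ^ i).coeff i = 1 := by
            have := (monic_X_sub_C c).pow i
            have h10 : ((X - C c : E[X]) ^ i).natDegree = i := by
              rw [(monic_X_sub_C c).natDegree_pow, natDegree_X_sub_C, mul_one]
            have h11 := this.coeff_natDegree
            rwa [h10] at h11
          rw [h9, mul_one]
        rw [h8] at h7
        have := neg_mem h7
        rwa [neg_sub] at this
      exact add_mem (Submodule.mem_sup_left hr1)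
        (add_mem (Submodule.mem_sup_left hr2) (Submodule.mem_sup_right hr3))
  -- the induction
  have hind : ∀ m, m ≤ p → Module.Finite k (F ⧸ (WF ⊔ Vs k h₀ (p - m))) ∧
      Module.finrank k (F ⧸ (WF ⊔ Vs k h₀ (p - m))) =
        ∑ i ∈ Finset.Ico (p - m) p, (Module.finrank k (E ⧸ Wm k x v 0) + i * l' / p) := by
    intro m
    induction m with
    | zero =>
      intro _
      rw [Nat.sub_zero, Vs_top, sup_top_eq, Finset.Ico_self, Finset.sum_empty]
      have : Subsingleton (F ⧸ (⊤ : Submodule k F)) := Submodule.Quotient.subsingleton_iff.mpr rfl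
      exact ⟨inferInstance, Module.finrank_zero_of_subsingleton⟩
    | succ m ih =>
      intro hm
      obtain ⟨ih1, ih2⟩ := ih (by omega)
      set i := p - (m + 1) with hi
      have hip : i < p := by omega
      have hsucc : p - m = i + 1 := by omega
      rw [hsucc] at ih1 ih2
      have h1 := dim_chain (A := WF ⊔ Vs k h₀ i) (B := WF ⊔ Vs k h₀ (i + 1))
        (sup_le_sup_left (Vs_mono h₀ (Nat.le_succ i)) _) (gmap k w₀ i) (hkey i hip)
        (fun a => Submodule.mem_sup_right (gmap_mem h₀ hip a))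
        (by
          intro b hb
          obtain ⟨f, hf, y, hy, rfl⟩ := Submodule.mem_sup.1 hb
          refine ⟨(h₀.rep y).coeff i, ?_⟩
          rw [add_sub_assoc]
          exact add_mem (Submodule.mem_sup_left hf)
            (Submodule.mem_sup_right (sub_gmap_mem h₀ hip hy)))
        (hE i hip).1 ih1
      refine ⟨h1.1, ?_⟩
      rw [h1.2, (hE i hip).2, ih2, Finset.sum_eq_sum_Ico_succ_bot hip]
  have h1 := hind p le_rfl
  rw [Nat.sub_self, Vs_zero, sup_bot_eq] at h1
  refine ⟨h1.1, ?_⟩
  rw [h1.2, ← Finset.range_eq_Ico, Finset.sum_add_distrib, Finset.sum_const, Finset.card_range,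
    smul_eq_mul]

end BAC
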