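import Mathlib

/-!
BAC / A3. `2 ∑_{i<p} ⌊i l / p⌋ = (p - 1) (l - 1)` for a prime `p` and `l` prime to `p`, `l > 0`.

Pair `i` with `p - i` (`1 ≤ i < p`): `i l / p + (p - i) l / p = l - 1` because
`(i l) % p + ((p - i) l) % p = p` (both remainders are nonzero and the sum `p l` is divisible by `p`).
(`Finset.sum_range_reflect`, `Nat.div_add_mod`.)
-/

namespace BAC

private theorem fs_pair {p : ℕ} (hp : p.Prime) {l : ℕ} (hl0 : 0 < l) (hl : ¬ p ∣ l)
    {i : ℕ} (hi0 : 0 < i) (hip : i < p) : (i * l) / p + ((p - i) * l) / p = l - 1 := by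
  have hp0 : 0 < p := hp.pos
  have hndvd : ¬ p ∣ i * l := by
    intro h
    rcases (hp.dvd_mul).1 h with h | h
    · exact absurd (Nat.le_of_dvd hi0 h) (by omega)
    · exact hl h
  have hr : 0 < (i * l) % p := Nat.pos_of_ne_zero fun h => hndvd (Nat.dvd_of_mod_eq_zero h)
  have hr' : (i * l) % p < p := Nat.mod_lt _ hp0
  have hs' : ((p - i) * l) % p < p := Nat.mod_lt _ hp0
  have h1 := Nat.div_add_mod (i * l) p
  have h2 := Nat.div_add_mod ((p - i) * l) p
  have h3 : i * l + (p - i) * l = p * l := by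
    rw [← Nat.add_mul]
    congr 1
    omega
  generalize (i * l) / p = A at *
  generalize ((p - i) * l) / p = B at *
  generalize (i * l) % p = r at *
  generalize ((p - i) * l) % p = s at *
  have h4 : p * (A + B) + (r + s) = p * l := by
    rw [Nat.mul_add]
    omega
  have h5 : A + B < l := by
    by_contra hcon
    have : p * l ≤ p * (A + B) := Nat.mul_le_mul_left p (by omega)
    omega
  have h6 : l < A + B + 2 := by
    by_contra hcon
    have : p * (A + B + 2) ≤ p * l := Nat.mul_le_mul_left p (by omega)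
    have h7 : p * (A + B + 2) = p * (A + B) + 2 * p := by ring
    omega
  omega

theorem floor_sum {p : ℕ} (hp : p.Prime) {l : ℕ} (hl0 : 0 < l) (hl : ¬ p ∣ l) :
    2 * ∑ i ∈ Finset.range p, (i * l) / p = (p - 1) * (l - 1) := by
  obtain ⟨q, rfl⟩ : ∃ q, p = q + 1 := ⟨p - 1, by have := hp.pos; omega⟩
  rw [Finset.sum_range_succ']
  have h0 : 0 * l / (q + 1) = 0 := by simp
  rw [h0, add_zero, two_mul]
  have h1 : ∑ i ∈ Finset.range q, ((i + 1) * l) / (q + 1) =
      ∑ i ∈ Finset.range q, ((q - 1 - i + 1) * l) / (q + 1) :=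
    (Finset.sum_range_reflect (fun i => ((i + 1) * l) / (q + 1)) q).symm
  nth_rewrite 2 [h1]
  rw [← Finset.sum_add_distrib]
  have h2 : ∀ i ∈ Finset.range q, ((i + 1) * l) / (q + 1) + ((q - 1 - i + 1) * l) / (q + 1) =
      l - 1 := by
    intro i hi
    have hi' := Finset.mem_range.1 hi
    have h3 : q - 1 - i + 1 = q + 1 - (i + 1) := by omega
    rw [h3]
    exact fs_pair hp hl0 hl (Nat.succ_pos i) (by omega)
  rw [Finset.sum_congr rfl h2, Finset.sum_const, Finset.card_range, smul_eq_mul]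
  simp

end BAC
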