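import Pool.Agent.BAC.NJRes

/-!
BAC / G4 (blueprint 3.1). Jennings-Lazard: `of g - 1 ∈ NJ m ↔ g ∈ S m`.

`NSer.isPGroup`: `g ^ (p ^ j) ∈ S (p ^ j)` by induction (`pow`), and `S (p ^ j) = ⊥` for large `j`.
`JL`: `←` is `of_sub_one_mem`. `→`: induction on `Nat.card G` (for all groups of the same universe and all
N-series). `G` trivial: clear. Otherwise `G` is a nontrivial finite `p`-group: it has a normal subgroup `H` of
index `p` (e.g. `Sylow.exists_subgroup_card_pow_prime` and index `p` subgroups of `p`-groups are normal, or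
a maximal subgroup of a nilpotent group). Let `w` be the largest `i` with `¬ S i ≤ H` (`S 1 = ⊤`, `S m = ⊥` for
large `m`), `1 ≤ w`, `t ∈ S w \ H`. By induction JL holds for `H` with `S' i = (S i).subgroupOf H`
(`NSer.restr`). Let `of g - 1 ∈ NJ m`, `g = h t ^ j`, `j < p` (`exists_pow_decomp`). By
`of t = 1 + T`: `of g - 1 = ι (of h - 1) + ∑_{1 ≤ i ≤ j} binom(j, i) ι (of h) T ^ i`. Compare with `NJ_decomp` by
`free_indep`: coefficient of `T^0`: `of h - 1 ∈ M_m`, so `h ∈ S m`. If `j = 0` done. If `1 ≤ j`: coefficient of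
`T^1`: `j of h ∈ M_(m - w)`, `j` is invertible mod `p`, so `1 ∈ M_(m - w)` (`NJ_mul_left`), so `m - w = 0`
(`one_notMem`), `m ≤ w`, `t ∈ S w ≤ S m` and `g = h t ^ j ∈ S m`.
-/

namespace BAC

variable {p : ℕ} [hp : Fact p.Prime] {G : Type*} [Group G] {S : ℕ → Subgroup G}

theorem NSer.isPGroup (hS : NSer p S) : IsPGroup p G := by
  intro g
  obtain ⟨m, hm⟩ := hS.bot
  have h1 : ∀ j, g ^ (p ^ j) ∈ S (p ^ j) := by
    intro j
    induction j with
    | zero =>
      rw [pow_zero, pow_one, hS.one]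
      trivial
    | succ j ih =>
      have h2 := hS.pow _ _ ih
      rw [← pow_mul, ← pow_succ, ← pow_succ'] at h2
      exact h2
  refine ⟨m, ?_⟩
  have h2 : S (p ^ m) ≤ S m := hS.anti (Nat.lt_pow_self hp.out.one_lt).le
  have h3 := h2 (h1 m)
  rw [hm, Subgroup.mem_bot] at h3
  exact h3

private theorem JL_aux.{u} {p : ℕ} [hp : Fact p.Prime] (n : ℕ) :
    ∀ (G : Type u) [Group G] [Finite G] (S : ℕ → Subgroup G), NSer p S → Nat.card G = n →
      ∀ (m : ℕ) (g : G), MonoidAlgebra.of (ZMod p) G g - 1 ∈ NJ p S m → g ∈ S m := by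
  classical
  induction n using Nat.strong_induction_on with
  | _ n ih =>
  intro G _ _ S hS hcard m g hg
  rcases subsingleton_or_nontrivial G with hsub | hnt
  · rw [Subsingleton.elim g 1]
    exact one_mem _
  -- a normal subgroup of index `p`
  obtain ⟨k, hk⟩ := (IsPGroup.iff_card (p := p) (G := G)).1 hS.isPGroup
  have hk0 : k ≠ 0 := by
    rintro rfl
    rw [pow_zero] at hk
    have := Finite.one_lt_card (α := G)
    omega
  obtain ⟨k, rfl⟩ := Nat.exists_eq_succ_of_ne_zero hk0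
  obtain ⟨H, hH⟩ := Sylow.exists_subgroup_card_pow_prime (G := G) p (n := k) (by
    rw [hk]
    exact pow_dvd_pow p (Nat.le_succ k))
  have hidx : H.index = p := by
    have h1 := H.card_mul_index
    rw [hH, hk, pow_succ] at h1
    exact Nat.eq_of_mul_eq_mul_left (pow_pos hp.out.pos k) h1
  have hnorm : H.Normal := by
    apply Subgroup.normal_of_index_eq_minFac_card
    rw [hidx, hk, Nat.succ_eq_add_one, Nat.Prime.pow_minFac hp.out (Nat.succ_ne_zero k)]
  have hHtop : H ≠ ⊤ := by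
    rintro rfl
    rw [Subgroup.index_top] at hidx
    exact hp.out.one_lt.ne hidx
  have hex : ∃ i, S i ≤ H := by
    obtain ⟨i, hi⟩ := hS.bot
    exact ⟨i, by rw [hi]; exact bot_le⟩
  obtain ⟨n₀, hn₀⟩ : ∃ n₀, n₀ = Nat.find hex := ⟨_, rfl⟩
  have hn1 : S n₀ ≤ H := hn₀ ▸ Nat.find_spec hex
  have hn2 : ∀ i < n₀, ¬ S i ≤ H := fun i hi => Nat.find_min hex (hn₀ ▸ hi)
  have hn3 : 2 ≤ n₀ := by
    by_contra hcon
    have h1 : S 1 ≤ S n₀ := hS.anti (by omega)
    rw [hS.one] at h1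
    exact hHtop (top_le_iff.1 (h1.trans hn1))
  obtain ⟨w, rfl⟩ : ∃ w, n₀ = w + 1 := ⟨n₀ - 1, by omega⟩
  have hw : ∀ i, w < i → S i ≤ H := fun i hi => (hS.anti hi).trans hn1
  obtain ⟨t, ht, htH⟩ := SetLike.not_le_iff_exists.1 (hn2 w (Nat.lt_succ_self w))
  have hlt : Nat.card H < n := by
    rw [← hcard, hH, hk]
    exact pow_lt_pow_right₀ hp.out.one_lt (Nat.lt_succ_self k)
  have hIH := ih (Nat.card H) hlt H (fun i => (S i).subgroupOf H) (hS.restr H) rfl
  obtain ⟨j, hj, h, rfl⟩ := exists_pow_decomp hidx htH g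
  obtain ⟨b, hb, hbsum⟩ := NJ_decomp hS hidx ht htH hw hg
  obtain ⟨T, hT⟩ : ∃ T, T = MonoidAlgebra.of (ZMod p) G t - 1 := ⟨_, rfl⟩
  have hiota : iotaH p H (MonoidAlgebra.of (ZMod p) H h) = MonoidAlgebra.of (ZMod p) G (h : G) := by
    unfold iotaH
    simp
  obtain ⟨a, ha⟩ : ∃ a : ℕ → MonoidAlgebra (ZMod p) H, ∀ i, a i =
      (j.choose i) • MonoidAlgebra.of (ZMod p) H h - (if i = 0 then 1 else 0) := ⟨_, fun i => rfl⟩
  have hasum : MonoidAlgebra.of (ZMod p) G ((h : G) * t ^ j) - 1 =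
      ∑ i ∈ Finset.range p, iotaH p H (a i) * T ^ i := by
    have h1 : MonoidAlgebra.of (ZMod p) G t = T + 1 := by rw [hT, sub_add_cancel]
    rw [map_mul, map_pow, h1, (Commute.one_right T).add_pow]
    have h2 : ∑ i ∈ Finset.range (j + 1), T ^ i * 1 ^ (j - i) * ((j.choose i : ℕ) :
        MonoidAlgebra (ZMod p) G) = ∑ i ∈ Finset.range p, T ^ i * 1 ^ (j - i) *
          ((j.choose i : ℕ) : MonoidAlgebra (ZMod p) G) := by
      refine Finset.sum_subset (Finset.range_mono hj) fun i _ hi => ?_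
      rw [Finset.mem_range, not_lt] at hi
      rw [Nat.choose_eq_zero_of_lt (by omega), Nat.cast_zero, mul_zero]
    rw [h2]
    have h3 : ∀ i ∈ Finset.range p, iotaH p H (a i) * T ^ i =
        iotaH p H (MonoidAlgebra.of (ZMod p) H h) * (T ^ i * 1 ^ (j - i) *
          ((j.choose i : ℕ) : MonoidAlgebra (ZMod p) G)) - (if i = 0 then 1 else 0) := by
      intro i _
      rw [ha, map_sub, map_nsmul, sub_mul, one_pow, mul_one]
      congr 1
      · rw [nsmul_eq_mul, (Nat.cast_commute _ _).eq, mul_assoc, (Nat.cast_commute _ (T ^ i)).eq]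
      · split_ifs with h4
        · rw [h4, map_one, pow_zero, mul_one]
        · rw [map_zero, zero_mul]
    rw [Finset.sum_congr rfl h3, Finset.sum_sub_distrib, ← Finset.mul_sum, hiota,
      Finset.sum_ite_eq' (Finset.range p) 0, if_pos (Finset.mem_range.2 hp.out.pos)]
  have heq : ∀ i < p, a i - b i = 0 := by
    apply free_indep hidx htH
    rw [← hT] at hbsum ⊢
    have h1 : ∑ i ∈ Finset.range p, iotaH p H (a i - b i) * T ^ i =
        ∑ i ∈ Finset.range p, iotaH p H (a i) * T ^ i -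
          ∑ i ∈ Finset.range p, iotaH p H (b i) * T ^ i := by
      rw [← Finset.sum_sub_distrib]
      refine Finset.sum_congr rfl fun i _ => ?_
      rw [map_sub, sub_mul]
    rw [h1, ← hasum, ← hbsum, sub_self]
  have hh : (h : G) ∈ S m := by
    have h1 := sub_eq_zero.1 (heq 0 hp.out.pos)
    have h2 := hb 0 hp.out.pos
    rw [← h1, ha, if_pos rfl, Nat.choose_zero_right, one_smul, mul_zero, Nat.sub_zero] at h2
    exact Subgroup.mem_subgroupOf.1 (hIH m h h2)
  rcases Nat.eq_zero_or_pos j with rfl | hj0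
  · rw [pow_zero, mul_one]
    exact hh
  · have h1 := sub_eq_zero.1 (heq 1 hp.out.one_lt)
    have h2 := hb 1 hp.out.one_lt
    rw [← h1, ha, if_neg one_ne_zero, Nat.choose_one_right, sub_zero, mul_one] at h2
    have hj1 : ((j : ℕ) : ZMod p) ≠ 0 := by
      rw [Ne, ZMod.natCast_eq_zero_iff]
      intro h3
      have := Nat.le_of_dvd hj0 h3
      omega
    have h3 : MonoidAlgebra.of (ZMod p) H h ∈ NJ p (fun i => (S i).subgroupOf H) (m - w) := by
      have h4 := Submodule.smul_mem _ (((j : ℕ) : ZMod p)⁻¹) h2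
      rw [← Nat.cast_smul_eq_nsmul (ZMod p), smul_smul, inv_mul_cancel₀ hj1, one_smul] at h4
      exact h4
    have h4 := NJ_mul_left (hS.restr H) h3 (MonoidAlgebra.of (ZMod p) H h⁻¹)
    rw [← map_mul, inv_mul_cancel, map_one] at h4
    have h5 : ¬ 1 ≤ m - w := fun h5 => one_notMem h5 h4
    have h6 : S w ≤ S m := hS.anti (by omega)
    exact mul_mem hh (pow_mem (h6 ht) j)

theorem JL [Finite G] (hS : NSer p S) (m : ℕ) (g : G) :
    MonoidAlgebra.of (ZMod p) G g - 1 ∈ NJ p S m ↔ g ∈ S m :=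
  ⟨fun h => JL_aux (Nat.card G) G S hS rfl m g h, fun h => of_sub_one_mem h⟩

end BAC
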