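import Mathlib

/-!
BAC / G5 (blueprint 3.2). Jacobson's formula modulo an additive subgroup.

`R` a ring of characteristic `p`, `A = X t + Y ∈ R[t]` (`t` = the polynomial variable, `A = C X * X + C Y`).
* `∑_{i<p} A^i B A^(p-1-i) = ad(A)^(p-1) (B)` in characteristic `p`, where `ad(A) B = A B - B A`: left and right
  multiplication by `A` commute, and `binom(p-1, i) = (-1)^i` in characteristic `p`.
* the derivative (`Polynomial.derivative`, product rule in a noncommutative ring) of `A ^ p` is
  `∑_i A^i (C X) A^(p-1-i)`, so it is `ad(A)^(p-1) (C X)`.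
* Expand: every coefficient of `ad(A)^(p-1) (C X)` is a sum of iterated brackets
  `[z_1, [z_2, ... [z_(p-1), X]]]`, `z_i ∈ {X, Y}`, hence in `I` (prove: for all `r ≤ p - 1`, every coefficient of
  `ad(A)^r (C X)` is in the additive subgroup generated by the brackets of length `r`).
* So for `1 ≤ i < p`: `i · coeff i (A ^ p) ∈ I` and (`i` is invertible modulo `p`) `coeff i (A ^ p) ∈ I`.
  `coeff 0 = Y ^ p`, `coeff p = X ^ p`, and `(X + Y) ^ p = eval 1 (A ^ p) = ∑ coeff`
  (`1` is central: evaluation at `1` is a ring hom: `eval₂RingHom'` or directly the sum of coefficients).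
-/

namespace BAC

open Polynomial

private theorem jac_choose {p : ℕ} [hp : Fact p.Prime] {R : Type*} [Ring R] [CharP R p] (m : ℕ)
    (hm : m < p) : (((p - 1).choose m : ℕ) : R) = (-1) ^ m := by
  induction m with
  | zero => rw [Nat.choose_zero_right, Nat.cast_one, pow_zero]
  | succ m ih =>
    have h1 : p = (p - 1) + 1 := (Nat.sub_add_cancel hp.out.one_le).symm
    have h2 : (p - 1).choose m + (p - 1).choose (m + 1) = p.choose (m + 1) := by
      conv_rhs => rw [h1]
      rw [Nat.choose_succ_succ]
    have h3 : ((p.choose (m + 1) : ℕ) : R) = 0 := by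
      rw [CharP.cast_eq_zero_iff R p]
      exact hp.out.dvd_choose_self (Nat.succ_ne_zero m) hm
    rw [← h2, Nat.cast_add, ih (by omega)] at h3
    rw [eq_neg_of_add_eq_zero_right h3, pow_succ, mul_neg, mul_one]

/-- in characteristic `p`: `(x - y) ^ (p - 1) = ∑ x ^ m y ^ (p - 1 - m)` for commuting `x`, `y` -/
private theorem jac_geom {p : ℕ} [hp : Fact p.Prime] {R : Type*} [Ring R] [CharP R p] {x y : R}
    (h : Commute x y) : (x - y) ^ (p - 1) = ∑ m ∈ Finset.range p, x ^ m * y ^ (p - 1 - m) := by
  have h1 : p - 1 + 1 = p := Nat.sub_add_cancel hp.out.one_le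
  rw [sub_eq_add_neg, (h.neg_right).add_pow, h1]
  refine Finset.sum_congr rfl fun m hm => ?_
  rw [Finset.mem_range] at hm
  have h3 : (p - 1).choose m = (p - 1).choose (p - 1 - m) := (Nat.choose_symm (by omega)).symm
  rw [h3, jac_choose (p - 1 - m) (by omega), neg_pow y]
  rcases neg_one_pow_eq_or R (p - 1 - m) with h4 | h4
  · rw [h4, one_mul, mul_one]
  · rw [h4, neg_mul, one_mul, mul_neg, mul_neg, mul_one, neg_neg]

/-- brackets of length `r` -/
private def jacS {R : Type*} [Ring R] (X Y : R) (r : ℕ) : AddSubgroup R :=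
  AddSubgroup.closure {x | ∃ l : List R, (∀ z ∈ l, z = X ∨ z = Y) ∧ l.length = r ∧
    l.foldr (fun z b => z * b - b * z) X = x}

private theorem jacS_succ {R : Type*} [Ring R] (X Y : R) (r : ℕ) {z x : R} (hz : z = X ∨ z = Y)
    (hx : x ∈ jacS X Y r) : z * x - x * z ∈ jacS X Y (r + 1) := by
  induction hx using AddSubgroup.closure_induction with
  | mem x hx =>
    obtain ⟨l, hl, hr, rfl⟩ := hx
    refine AddSubgroup.subset_closure ⟨z :: l, ?_, ?_, rfl⟩
    · intro y hy
      rcases List.mem_cons.1 hy with rfl | hy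
      · exact hz
      · exact hl y hy
    · rw [List.length_cons, hr]
  | zero => rw [mul_zero, zero_mul, sub_zero]; exact zero_mem _
  | add x y _ _ hx hy =>
    have h1 : z * (x + y) - (x + y) * z = (z * x - x * z) + (z * y - y * z) := by noncomm_ring
    rw [h1]
    exact add_mem hx hy
  | neg x _ hx =>
    have h1 : z * (-x) - (-x) * z = -(z * x - x * z) := by noncomm_ring
    rw [h1]
    exact neg_mem hx

/-- the linear polynomial -/
private noncomputable def jacA {R : Type*} [Ring R] (X Y : R) : R[X] := C X * Polynomial.X + C Y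

private theorem jac_coeff {R : Type*} [Ring R] (X Y : R) (B : R[X]) (n : ℕ) :
    (jacA X Y * B - B * jacA X Y).coeff n =
      (match n with
      | 0 => 0
      | n + 1 => X * B.coeff n - B.coeff n * X) + (Y * B.coeff n - B.coeff n * Y) := by
  have h1 : B * jacA X Y = B * C X * Polynomial.X + B * C Y := by
    unfold jacA
    rw [mul_add, ← mul_assoc]
  have h2 : jacA X Y * B = C X * B * Polynomial.X + C Y * B := by
    unfold jacA
    rw [add_mul, mul_assoc (C X), Polynomial.X_mul, ← mul_assoc]
  rw [h1, h2, coeff_sub, coeff_add, coeff_add, coeff_C_mul, coeff_mul_C]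
  rcases n with _ | n
  · rw [mul_coeff_zero, mul_coeff_zero (B * C X), coeff_X_zero, mul_zero, mul_zero]
    simp
  · rw [coeff_mul_X, coeff_mul_X, coeff_C_mul, coeff_mul_C]
    simp only
    abel

theorem jac {p : ℕ} [hp : Fact p.Prime] {R : Type*} [Ring R] [CharP R p] (I : AddSubgroup R)
    (X Y : R) (h : ∀ l : List R, (∀ z ∈ l, z = X ∨ z = Y) → l.length = p - 1 →
      l.foldr (fun z b => z * b - b * z) X ∈ I) :
    (X + Y) ^ p - X ^ p - Y ^ p ∈ I := by
  classical
  obtain ⟨A, hA⟩ : ∃ A, A = jacA X Y := ⟨_, rfl⟩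
  have hp1 : p - 1 + 1 = p := Nat.sub_add_cancel hp.out.one_le
  -- iterated brackets
  have hD : ∀ r n, ((fun B : R[X] => A * B - B * A)^[r] (C X)).coeff n ∈ jacS X Y r := by
    intro r
    induction r with
    | zero =>
      intro n
      rw [Function.iterate_zero, id, coeff_C]
      split_ifs
      · exact AddSubgroup.subset_closure ⟨[], by simp, rfl, rfl⟩
      · exact zero_mem _
    | succ r ih =>
      intro n
      rw [Function.iterate_succ_apply']
      simp only [hA]
      rw [jac_coeff]
      rw [hA] at ih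
      refine add_mem ?_ (jacS_succ X Y r (Or.inr rfl) (ih n))
      rcases n with _ | n
      · exact zero_mem _
      · exact jacS_succ X Y r (Or.inl rfl) (ih n)
  have hSI : jacS X Y (p - 1) ≤ I := by
    unfold jacS
    rw [AddSubgroup.closure_le]
    rintro x ⟨l, hl, hr, rfl⟩
    exact h l hl hr
  -- left and right multiplications
  have hchar : CharP R[X] p := inferInstance
  have hchar' : CharP (AddMonoid.End R[X]) p := by
    refine ⟨fun n => ?_⟩
    rw [← CharP.cast_eq_zero_iff R[X] p n]
    constructor
    · intro h1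
      have h2 := DFunLike.congr_fun h1 (1 : R[X])
      rw [AddMonoid.End.natCast_apply, nsmul_one] at h2
      exact h2
    · intro h1
      apply AddMonoidHom.ext
      intro f
      change ((n : AddMonoid.End R[X])) f = 0
      rw [AddMonoid.End.natCast_apply, nsmul_eq_mul, h1, zero_mul]
  have hgeom : (fun B : R[X] => A * B - B * A)^[p - 1] (C X) =
      ∑ m ∈ Finset.range p, A ^ m * C X * A ^ (p - 1 - m) := by
    obtain ⟨L, hL⟩ : ∃ L : AddMonoid.End R[X], ∀ f, L f = A * f :=
      ⟨AddMonoidHom.mulLeft A, fun f => rfl⟩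
    obtain ⟨M, hM⟩ : ∃ M : AddMonoid.End R[X], ∀ f, M f = f * A :=
      ⟨AddMonoidHom.mulRight A, fun f => rfl⟩
    have hc : Commute L M := by
      apply AddMonoidHom.ext
      intro f
      change L (M f) = M (L f)
      rw [hL, hM, hM, hL, mul_assoc]
    have hLp : ∀ (m : ℕ) f, (L ^ m) f = A ^ m * f := by
      intro m
      induction m with
      | zero => intro f; rw [pow_zero, pow_zero, one_mul]; rfl
      | succ m ih =>
        intro f
        rw [pow_succ, pow_succ, mul_assoc]
        change (L ^ m) (L f) = _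
        rw [hL, ih]
    have hMp : ∀ (m : ℕ) f, (M ^ m) f = f * A ^ m := by
      intro m
      induction m with
      | zero => intro f; rw [pow_zero, pow_zero, mul_one]; rfl
      | succ m ih =>
        intro f
        rw [pow_succ, pow_succ', ← mul_assoc]
        change (M ^ m) (M f) = _
        rw [hM, ih]
    have h1 : ((L - M) ^ (p - 1)) (C X) = (fun B : R[X] => A * B - B * A)^[p - 1] (C X) := by
      rw [AddMonoid.End.coe_pow]
      congr 2
      funext B
      change L B - M B = _
      rw [hL, hM]
    rw [← h1, jac_geom hc]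
    change (∑ m ∈ Finset.range p, L ^ m * M ^ (p - 1 - m) : R[X] →+ R[X]) (C X) = _
    rw [AddMonoidHom.finsetSum_apply]
    refine Finset.sum_congr rfl fun m _ => ?_
    change (L ^ m) ((M ^ (p - 1 - m)) (C X)) = _
    rw [hLp, hMp, mul_assoc]
  have hder : ∀ n : ℕ, derivative (A ^ n) = ∑ m ∈ Finset.range n, A ^ m * C X * A ^ (n - 1 - m) := by
    intro n
    induction n with
    | zero => simp
    | succ n ih =>
      have h1 : derivative A = C X := by
        rw [hA]
        unfold jacA
        simp
      rw [pow_succ, derivative_mul, ih, h1, Finset.sum_range_succ, Nat.add_sub_cancel,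
        Nat.sub_self, pow_zero, mul_one, Finset.sum_mul]
      congr 1
      refine Finset.sum_congr rfl fun m hm => ?_
      rw [Finset.mem_range] at hm
      rw [mul_assoc, ← pow_succ]
      congr 2
      omega
  have hcoef : ∀ n, n + 1 < p → (A ^ p).coeff (n + 1) ∈ I := by
    intro n hn
    have h1 : (derivative (A ^ p)).coeff n ∈ I := by
      rw [hder, ← hgeom]
      exact hSI (hD (p - 1) n)
    rw [coeff_derivative] at h1
    have h2 : Nat.Coprime (n + 1) p := by
      rw [Nat.coprime_comm]
      exact (Nat.Prime.coprime_iff_not_dvd hp.out).2 fun h => by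
        have := Nat.le_of_dvd (Nat.succ_pos n) h
        omega
    obtain ⟨u, -, hu⟩ := Nat.exists_mul_mod_eq_one_of_coprime h2 hp.out.one_lt
    have h3 := I.nsmul_mem h1 u
    have h4 : u • ((A ^ p).coeff (n + 1) * ((n : R) + 1)) = (A ^ p).coeff (n + 1) := by
      have h5 : (((n + 1) * u : ℕ) : R) = ((1 : ℕ) : R) := by
        rw [CharP.natCast_eq_natCast R p]
        unfold Nat.ModEq
        rw [hu, Nat.mod_eq_of_lt hp.out.one_lt]
      rw [nsmul_eq_mul, ← mul_assoc, (Nat.cast_commute u _).eq, mul_assoc]
      have h6 : (u : R) * ((n : R) + 1) = (((n + 1) * u : ℕ) : R) := by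
        push_cast
        rw [((Nat.cast_commute u ((n : R) + 1))).eq]
      rw [h6, h5, Nat.cast_one, mul_one]
    rw [h4] at h3
    exact h3
  -- the sum of the coefficients
  have hdeg : (A ^ p).natDegree < p + 1 := by
    rw [Nat.lt_succ_iff]
    have h1 : A.natDegree ≤ 1 := by
      rw [hA]
      exact natDegree_linear_le
    refine natDegree_pow_le.trans ?_
    calc p * A.natDegree ≤ p * 1 := Nat.mul_le_mul_left p h1
      _ = p := mul_one p
  have hev := map_pow (Polynomial.eval₂RingHom' (RingHom.id R) 1 (fun a => Commute.one_right _)) A p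
  have h1 : Polynomial.eval₂RingHom' (RingHom.id R) 1 (fun a => Commute.one_right _) A = X + Y := by
    change A.eval₂ (RingHom.id R) 1 = X + Y
    rw [hA]
    unfold jacA
    rw [Polynomial.eval₂_add, Polynomial.eval₂_C, Polynomial.eval₂_mul_X, Polynomial.eval₂_C]
    simp
  rw [h1] at hev
  have h2 : Polynomial.eval₂RingHom' (RingHom.id R) 1 (fun a => Commute.one_right _) (A ^ p) =
      ∑ i ∈ Finset.range (p + 1), (A ^ p).coeff i := by
    change (A ^ p).eval₂ (RingHom.id R) 1 = _
    rw [Polynomial.eval₂_eq_sum_range' _ hdeg]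
    refine Finset.sum_congr rfl fun i _ => ?_
    rw [one_pow, mul_one]
    rfl
  have h3 : (A ^ p).coeff 0 = Y ^ p := by
    have h4 : (A ^ p).coeff 0 = (constantCoeff A) ^ p := by
      rw [← map_pow]
      rfl
    rw [h4, hA]
    unfold jacA
    simp
  have h4 : (A ^ p).coeff p = X ^ p := by
    have h5 : A.natDegree ≤ 1 := by
      rw [hA]
      exact natDegree_linear_le
    have h6 := coeff_pow_of_natDegree_le (m := p) h5
    rw [mul_one] at h6
    rw [h6, hA]
    unfold jacA
    simp
  have h5 : (X + Y) ^ p - X ^ p - Y ^ p = ∑ i ∈ Finset.range (p - 1), (A ^ p).coeff (i + 1) := by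
    rw [← hev, h2, Finset.sum_range_succ, h4, ← hp1, Finset.sum_range_succ', hp1, h3]
    abel
  rw [h5]
  refine AddSubgroup.sum_mem _ fun i hi => ?_
  rw [Finset.mem_range] at hi
  exact hcoef i (by omega)

end BAC
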