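import Pool.Agent.BAC.DerStep
import Pool.Agent.BAC.FiltDim
import Pool.Agent.BAC.FloorSum

/-!
BAC / A5 (blueprint 1.5). The Artin-Schreier step with exact data.

`L.lev` gives `IsLevel`. Bound `v P₀ ≤ exp M`. `IsLevel.reduce` gives `c` with either
`v (P₀ - (c^p - c)) < 1`, impossible by `L.lev.prank` and `h₀.np`, or `= exp l`, `0 < l`, `p ∤ l`, `l ≤ M`.
Now `v' = (h₀.shift c).valuation v hl0 hl hP`. `IsLevel` for `F`: exactly the fields proved in the proof
of `IsLevel.step` in `Pool/Agent/Helper32/AS9.lean` (read that proof: after choosing `c, l` it uses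
`valuation_const`, `valuation_unif`, `valuation_residue`, `step_R_inter`, `step_prank`, `step_unique`,
`step_dim`; copy it, it is short). `le`, `eq`: `der_step`. `Dx`: `hD'`. `fin`, `gen`: `filt_dim`,
`floor_sum`: `2 dim' = 2 p dim + (p-1)(l-1) = p (κ+1) + (p-1)(l-1) = κ' + 1`.
`v' (algebraMap a) = v a ^ p`: `valuation_algebraMap`; `v' (w₀ - c) = exp l`: `valuation_gen`.
-/

namespace BAC

open Polynomial WithZero Pool.Agent.Helper32

theorem Lvl.step {p : ℕ} [hp : Fact p.Prime] {k E F : Type*} [Field k] [IsAlgClosed k] [Field E]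
    [Field F] [Algebra k E] [Algebra k F] [Algebra E F] [IsScalarTower k E F] [CharP k p]
    [CharP E p] [CharP F p] {x : E} {D : Derivation k E E} {n : ℕ} {κ : ℤ} {v : VI E}
    (L : Lvl p k x D n κ v) {w₀ : F} {P₀ : E} (h₀ : ASData p w₀ P₀) (hP₀ : P₀ ∈ Rint k x)
    (D' : Derivation k F F) (hD' : ∀ a : E, D' (algebraMap E F a) = algebraMap E F (D a)) :
    ∃ (l : ℤ) (c : E) (v' : VI F), 0 < l ∧ ¬ (p : ℤ) ∣ l ∧ v (P₀ - (c ^ p - c)) = exp l ∧
      v' (w₀ - algebraMap E F c) = exp l ∧ (∀ a : E, v' (algebraMap E F a) = v a ^ p) ∧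
      Lvl p k (algebraMap E F x) D' (n + 1) (p * κ + (p - 1) * l) v' := by
  obtain ⟨g, Lv⟩ := L.lev
  obtain ⟨M, hM⟩ : ∃ M : ℕ, v P₀ ≤ exp (M : ℤ) := by
    by_cases h0 : v P₀ = 0
    · exact ⟨0, by rw [h0]; exact zero_le⟩
    · refine ⟨(WithZero.log (v P₀)).toNat, ?_⟩
      conv_lhs => rw [← WithZero.exp_log h0]
      rw [exp_le_exp]
      exact Int.self_le_toNat _
  obtain ⟨c, hc⟩ := Lv.reduce M P₀ hM
  have hred : ∃ l : ℤ, 0 < l ∧ ¬ (p : ℤ) ∣ l ∧ l ≤ M ∧ v (P₀ - (c ^ p - c)) = exp l := by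
    rcases hc with hc | hc
    · exfalso
      obtain ⟨h', hh'⟩ := Lv.prank P₀ hP₀ c _ hc (by ring)
      exact h₀.np h' hh'.symm
    · exact hc
  obtain ⟨l, hl0, hl, -, hP⟩ := hred
  obtain ⟨l', hl'⟩ : ∃ l' : ℕ, (l' : ℤ) = l := ⟨l.toNat, Int.toNat_of_nonneg hl0.le⟩
  refine ⟨l, c, (h₀.shift c).valuation v hl0 hl hP, hl0, hl, hP,
    (h₀.shift c).valuation_gen hl0 hl hP,
    fun a => (h₀.shift c).valuation_algebraMap hl0 hl hP a, ?_⟩
  obtain ⟨hfin', hrank⟩ := filt_dim Lv L.fin h₀ hP₀ c hl0 hl hP hl'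
  have hder := der_step L h₀ c hl0 hl hP D' hD'
  refine
    { lev := ⟨p * g + ∑ i ∈ Finset.range p, (i * l') / p, ?_⟩
      Dx := ?_
      le := hder.1
      eq := hder.2
      fin := hfin'
      gen := ?_ }
  · refine
      { v_const := fun c' hc' => (h₀.shift c).valuation_const hl0 hl hP Lv c' hc'
        v_unif := ?_
        residue := fun a ha => (h₀.shift c).valuation_residue hl0 hl hP Lv ha
        v_x := ?_
        R_inter := fun r hr hv => step_R_inter h₀ hP₀ c hl0 hl hP Lv hr hv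
        prank := fun f hf y m hm hy => step_prank h₀ hP₀ c hl0 hl hP Lv _ f hf le_rfl y m hm hy
        unique := fun V' hk hx => step_unique (h₀.shift c) hl0 hl hP Lv V' hk hx
        dim := step_dim h₀ hP₀ c hl0 hl hP Lv hl' }
    · obtain ⟨t, ht⟩ := Lv.v_unif
      exact (h₀.shift c).valuation_unif hl0 hl hP ht
    · rw [(h₀.shift c).valuation_algebraMap, Lv.v_x, ← exp_nsmul, nsmul_eq_mul, pow_succ,
        mul_comm]
  · rw [hD', L.Dx, map_one]
  · have hl'0 : 0 < l' := by omega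
    have hl'p : ¬ p ∣ l' := by
      intro h
      apply hl
      rw [← hl']
      exact Int.natCast_dvd_natCast.2 h
    have h1 := floor_sum hp.out hl'0 hl'p
    have h2 := L.gen
    have hp1 : 1 ≤ p := hp.out.one_le
    have h3 : (2 : ℤ) * ((∑ i ∈ Finset.range p, (i * l') / p : ℕ) : ℤ) = (p - 1) * (l - 1) := by
      have h4 : ((2 * ∑ i ∈ Finset.range p, (i * l') / p : ℕ) : ℤ) =
          (((p - 1) * (l' - 1) : ℕ) : ℤ) := by rw [h1]
      rw [Nat.cast_mul, Nat.cast_mul, Nat.cast_sub hp1, Nat.cast_sub hl'0, hl'] at h4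
      simpa using h4
    rw [hrank, Nat.cast_add, Nat.cast_mul]
    linear_combination (p : ℤ) * h2 + h3

end BAC
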