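import Pool.Agent.BAC.FFGen
import Pool.Agent.BAC.BigOf3

/-!
BAC: assembly of the final theorem.
-/

namespace BAC

open Pool.Agent.Helper32

universe u w

/-- copy of a finite group in `Type` -/
theorem exists_type_copy (G : Type*) [Group G] [Finite G] :
    ∃ (Γ : Type) (_ : Group Γ) (_ : Finite Γ), Nonempty (G ≃* Γ) := by
  have : _root_.Small.{0} G := Countable.toSmall G
  exact ⟨Shrink.{0} G, inferInstance, Finite.of_equiv G (equivShrink G),
    ⟨Shrink.mulEquiv.symm⟩⟩

theorem comm_equiv {G : Type*} [Group G] (H : Subgroup G) : Nonempty ((⁅H, H⁆ : Subgroup G) ≃* commutator H) := by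
  have h1 : (commutator H).map H.subtype = ⁅H, H⁆ := Subgroup.map_subtype_commutator H
  rw [← h1]
  exact ⟨((commutator H).equivMapOfInjective _ H.subtype_injective).symm⟩

theorem comm_congr {G G' : Type*} [Group G] [Group G'] (e : G ≃* G') :
    Nonempty (commutator G ≃* commutator G') := by
  have h1 : (commutator G).map e.toMonoidHom = commutator G' := by
    rw [commutator_def, Subgroup.map_commutator, ← MonoidHom.range_eq_map,
      MonoidHom.range_eq_top.mpr e.surjective, commutator_def]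
  rw [← h1]
  exact ⟨(commutator G).equivMapOfInjective _ e.injective⟩

theorem gam_congr {G G' : Type*} [Group G] [Group G'] (e : G ≃* G') {n : ℕ} (h : gam G n = ⊥) :
    gam G' n = ⊥ := by
  have h1 : (gam G n).map e.toMonoidHom = gam G' n := by
    unfold gam
    rw [Subgroup.map_lowerCentralSeries, ← MonoidHom.range_eq_map,
      MonoidHom.range_eq_top.mpr e.surjective]
  rw [← h1, h, Subgroup.map_bot]

/-- a nilpotent group with `γ_2 ≤ γ_3` is abelian -/
theorem comm_eq_bot_of_le {G : Type*} [Group G] [Group.IsNilpotent G]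
    (h : gam G 2 ≤ gam G 3) : commutator G = ⊥ := by
  have h1 : ∀ m, gam G 2 ≤ gam G (m + 2) := by
    intro m
    induction m with
    | zero => exact le_rfl
    | succ m ih =>
      have h2 : gam G 3 ≤ gam G (m + 1 + 2) := by
        rw [show (3 : ℕ) = 2 + 1 from rfl, gam_succ (by norm_num),
          show m + 1 + 2 = (m + 2) + 1 by ring, gam_succ (by omega)]
        exact Subgroup.commutator_mono ih le_rfl
      exact h.trans h2
  obtain ⟨n, hn⟩ := Subgroup.nilpotent_iff_lowerCentralSeries.mp (inferInstance :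
    (Group.IsNilpotent G))
  have h3 : gam G (n + 2) ≤ gam G (n + 1) := gam_anti (by omega)
  have h4 : gam G (n + 1) = ⊥ := hn
  have h5 : gam G 2 ≤ ⊥ := by
    rw [← h4]
    exact (h1 n).trans h3
  exact le_bot_iff.mp h5

/-- classification of the groups `G_2` of order `p ^ n`, `n ≤ p - 2` -/
theorem mainA (p : ℕ) [Fact p.Prime] (k : Type u) [Field k] [IsAlgClosed k] [CharP k p]
    (H : Type w) [Group H] [Finite H] (n : ℕ) (hH : Nat.card H = p ^ n) (hn : n + 2 ≤ p) :
    (∃ (F : Type u) (_ : Field F) (_ : Algebra k F) (G : Subgroup (F ≃ₐ[k] F))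
      (P : Place k F), IsBigAction p G P ∧ Nonempty (ramGroup G P 2 ≃* H)) ↔
      Nontrivial H ∧ ∃ (Γ : Type) (_ : Group Γ) (_ : Finite Γ), (∀ γ : Γ, γ ^ p = 1) ∧
        Nonempty (commutator Γ ≃* H) := by
  have hp : p.Prime := Fact.out
  constructor
  · rintro ⟨F, _, _, G, P, hB, ⟨e⟩⟩
    obtain ⟨h1, h2⟩ := big_general hB
    have hfin : Finite G := hB.finite
    have h3 : Nat.card (⁅G, G⁆ : Subgroup (F ≃ₐ[k] F)) = p ^ n := by
      rw [← h1, ← hH]
      exact Nat.card_congr e.toEquiv
    constructor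
    · rw [← Finite.one_lt_card_iff_nontrivial, hH, ← h3]
      by_contra hcon
      have h9 : 0 < Nat.card (⁅G, G⁆ : Subgroup (F ≃ₐ[k] F)) := by
        rw [h3]; exact pow_pos hp.pos n
      exact h2 (Subgroup.card_eq_one.mp (by omega))
    · obtain ⟨e1⟩ := comm_equiv G
      have h4 : Nat.card (commutator G) = p ^ n := by
        rw [← h3]
        exact Nat.card_congr e1.symm.toEquiv
      have h5 : gam G p = ⊥ := class_bound hB.isPGroup h4 hn
      obtain ⟨Γ, j1, j2, ⟨e2⟩⟩ := exists_type_copy G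
      refine ⟨Γ, j1, j2, ?_, ?_⟩
      · intro γ
        have h6 := big_pow hB (e2.symm γ)
        rw [h5, Subgroup.mem_bot, ← map_pow] at h6
        exact (map_eq_one_iff e2.symm e2.symm.injective).mp h6
      · obtain ⟨e3⟩ := comm_congr e2
        have e4 : ramGroup G P 2 ≃* (⁅G, G⁆ : Subgroup (F ≃ₐ[k] F)) :=
          MulEquiv.subgroupCongr h1
        exact ⟨(e3.symm.trans (e1.symm.trans e4.symm)).trans e⟩
  · rintro ⟨hnt, Γ, _, _, he, ⟨e⟩⟩
    have hG : IsPGroup p Γ := fun γ => ⟨1, by rw [pow_one]; exact he γ⟩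
    have h4 : Nat.card (commutator Γ) = p ^ n := by
      rw [← hH]
      exact Nat.card_congr e.toEquiv
    have h5 : gam Γ p = ⊥ := class_bound hG h4 hn
    have h6 : commutator Γ ≠ ⊥ := by
      intro h
      have h7 := Finite.one_lt_card_iff_nontrivial.mpr hnt
      rw [hH, ← h4, h, Subgroup.card_bot] at h7
      exact lt_irrefl _ h7
    obtain ⟨F, i1, i2, G, P, hB, -, ⟨e'⟩⟩ := exists_bigAction_class p k Γ he h5 h6
    exact ⟨F, i1, i2, G, P, hB, ⟨e'.trans e⟩⟩

/-- classification of the quotients `G / γ_p (G)` -/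
theorem mainB (p : ℕ) [Fact p.Prime] (hp3 : 3 ≤ p) (k : Type u) [Field k] [IsAlgClosed k]
    [CharP k p] (Q : Type w) [Group Q] [Finite Q] :
    (∃ (F : Type u) (_ : Field F) (_ : Algebra k F) (G : Subgroup (F ≃ₐ[k] F))
      (P : Place k F), IsBigAction p G P ∧
        Nonempty (G ⧸ (⊤ : Subgroup G).lowerCentralSeries (p - 1) ≃* Q)) ↔
      commutator Q ≠ ⊥ ∧ (⊤ : Subgroup Q).lowerCentralSeries (p - 1) = ⊥ ∧
        ∀ q : Q, q ^ p = 1 := by
  constructor
  · rintro ⟨F, _, _, G, P, hB, ⟨e⟩⟩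
    have hfin : Finite G := hB.finite
    obtain ⟨h1, h2⟩ := big_general hB
    refine ⟨?_, ?_, ?_⟩
    · intro h
      have h3 : commutator (G ⧸ gam G p) = ⊥ := by
        obtain ⟨e2⟩ := comm_congr e
        have h4 : Nat.card (commutator (G ⧸ gam G p)) = Nat.card (commutator Q) :=
          Nat.card_congr e2.toEquiv
        rw [h, Subgroup.card_bot] at h4
        exact Subgroup.card_eq_one.mp h4
      have h5 : gam G 2 ≤ gam G p := by
        have h6 : (commutator G).map (QuotientGroup.mk' (gam G p)) ≤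
            commutator (G ⧸ gam G p) := by
          rw [commutator_def, Subgroup.map_commutator, commutator_def]
          exact Subgroup.commutator_mono le_top le_top
        rw [h3, le_bot_iff, Subgroup.map_eq_bot_iff, QuotientGroup.ker_mk'] at h6
        exact h6
      have h7 : Group.IsNilpotent G := hB.isPGroup.isNilpotent
      have h8 : commutator G = ⊥ := comm_eq_bot_of_le (h5.trans (gam_anti hp3))
      apply h2
      rw [← Subgroup.map_subtype_commutator, h8, Subgroup.map_bot]
    · exact gam_congr e (gam_quot p _ le_rfl)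
    · intro q
      obtain ⟨y, rfl⟩ := e.surjective q
      obtain ⟨g, rfl⟩ := QuotientGroup.mk_surjective y
      rw [← map_pow]
      have h3 : ((g ^ p : G) : G ⧸ gam G p) = 1 :=
        (QuotientGroup.eq_one_iff (g ^ p)).mpr (big_pow hB g)
      have h4 : ((g : G ⧸ gam G p)) ^ p = 1 := h3
      rw [show ((g : G ⧸ (⊤ : Subgroup G).lowerCentralSeries (p - 1))) ^ p = 1 from h4, map_one]
  · rintro ⟨h1, h2, h3⟩
    obtain ⟨F, i1, i2, G, P, hB, ⟨e⟩, -⟩ := exists_bigAction_class p k Q h3 h2 h1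
    refine ⟨F, i1, i2, G, P, hB, ?_⟩
    have h4 : gam G p = ⊥ := gam_congr e.symm h2
    have h5 : (⊤ : Subgroup G).lowerCentralSeries (p - 1) = ⊥ := h4
    exact ⟨((QuotientGroup.quotientMulEquivOfEq h5).trans QuotientGroup.quotientBot).trans e⟩

/-- classification of the quotients `G / γ_p (G)`, each of which is itself a group `G` -/
theorem mainC (p : ℕ) [Fact p.Prime] (hp3 : 3 ≤ p) (k : Type u) [Field k] [IsAlgClosed k]
    [CharP k p] (Q : Type w) [Group Q] [Finite Q] : List.TFAE [
      (∃ (F : Type u) (_ : Field F) (_ : Algebra k F) (G : Subgroup (F ≃ₐ[k] F))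
        (P : Place k F), IsBigAction p G P ∧
          Nonempty (G ⧸ (⊤ : Subgroup G).lowerCentralSeries (p - 1) ≃* Q)),
      (⊤ : Subgroup Q).lowerCentralSeries (p - 1) = ⊥ ∧
        ∃ (F : Type u) (_ : Field F) (_ : Algebra k F) (G : Subgroup (F ≃ₐ[k] F))
          (P : Place k F), IsBigAction p G P ∧ Nonempty (G ≃* Q),
      (⊤ : Subgroup Q).lowerCentralSeries (p - 1) = ⊥ ∧ commutator Q ≠ ⊥ ∧
        ∀ q : Q, q ^ p = 1] := by
  tfae_have 1 → 3 := by
    intro h
    obtain ⟨h1, h2, h3⟩ := (mainB p hp3 k Q).mp h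
    exact ⟨h2, h1, h3⟩
  tfae_have 3 → 2 := by
    rintro ⟨h1, h2, h3⟩
    obtain ⟨F, i1, i2, G, P, hB, he, -⟩ := exists_bigAction_class p k Q h3 h1 h2
    exact ⟨h1, F, i1, i2, G, P, hB, he⟩
  tfae_have 2 → 1 := by
    rintro ⟨h1, F, i1, i2, G, P, hB, ⟨e⟩⟩
    have h5 : (⊤ : Subgroup G).lowerCentralSeries (p - 1) = ⊥ :=
      gam_congr (n := p) e.symm h1
    exact ⟨F, i1, i2, G, P, hB,
      ⟨((QuotientGroup.quotientMulEquivOfEq h5).trans QuotientGroup.quotientBot).trans e⟩⟩
  tfae_finish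

end BAC
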