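import Pool.Agent.BAC.MatJ

/-!
BAC / M2 (blueprint 4). The truncated exponential `Ex p M = ∑_{i<p} M ^ i / i!` for `M ∈ JJ d 1`.

In characteristic `p` (prime) `(i ! : A) ≠ 0` for `i < p`. `Ex_add`: `Commute.add_pow`,
`M ^ i N ^ j = 0` if `i + j ≥ p` (`JJ.pow`, `JJ.mul`, `JJ.eq_zero`), and `binom (n, i) / n! = 1 / (i! (n - i)!)`.
`Ex_mod`: `(M + N) ^ i - M ^ i ∈ JJ d (m + i - 1)` (induction), so `∈ JJ d (m + 1)` for `i ≥ 2`; `i = 0, 1`
give exactly `N`. `Ex_conj`: `(h M g)^i = h M^i g` if `g h = 1`, `h g = 1`. `Ex_map`: ring homs of fields.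
-/

namespace BAC

variable {p : ℕ} [hp : Fact p.Prime] {I : Type*} [Fintype I] [DecidableEq I] {d : I → ℕ}
  {A : Type*} [Field A] {m : ℕ} {M N g h : Matrix I I A}

theorem Ex_zero : Ex p (0 : Matrix I I A) = 1 := by
  unfold Ex
  rw [Finset.sum_eq_single 0]
  · rw [pow_zero, Nat.factorial_zero, Nat.cast_one, inv_one, one_smul]
  · intro i _ hi
    rw [zero_pow hi, smul_zero]
  · intro h0
    exact absurd (Finset.mem_range.mpr hp.out.pos) h0

theorem Ex_uni (hm : 1 ≤ m) (hM : JJ d m M) : JJ d m (Ex p M - 1) := by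
  obtain ⟨q, hq⟩ : ∃ q, p = q + 1 := ⟨p - 1, by have := hp.out.pos; omega⟩
  have h1 : Ex p M - 1 = ∑ i ∈ Finset.range q, (((i + 1).factorial : A)⁻¹) • M ^ (i + 1) := by
    unfold Ex
    rw [hq, Finset.sum_range_succ', pow_zero, Nat.factorial_zero, Nat.cast_one, inv_one, one_smul,
      add_sub_cancel_right]
  rw [h1]
  refine JJ.sum _ _ fun i _ => JJ.smul _ (JJ.mono ?_ (JJ.pow hM (i + 1)))
  nlinarith [Nat.zero_le (m * i)]

theorem Ex_add [CharP A p] (hd : ∀ i, d i < p) (hM : JJ d 1 M) (hN : JJ d 1 N)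
    (hc : M * N = N * M) : Ex p (M + N) = Ex p M * Ex p N := by
  have hfac : ∀ i, i < p → ((i.factorial : ℕ) : A) ≠ 0 := by
    intro i hi h0
    rw [CharP.cast_eq_zero_iff A p, hp.out.dvd_factorial] at h0
    omega
  have hcom : Commute M N := hc
  let F : ℕ → ℕ → Matrix I I A := fun k l =>
    (((k.factorial : A)⁻¹) * ((l.factorial : A)⁻¹)) • (M ^ k * N ^ l)
  have h1 : Ex p (M + N) = ∑ n ∈ Finset.range p, ∑ k ∈ Finset.range (n + 1), F k (n - k) := by
    unfold Ex
    refine Finset.sum_congr rfl fun n hn => ?_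
    rw [hcom.add_pow, Finset.smul_sum]
    refine Finset.sum_congr rfl fun k hk => ?_
    have hn' := Finset.mem_range.mp hn
    have hk' : k ≤ n := Nat.lt_succ_iff.mp (Finset.mem_range.mp hk)
    have e1 : M ^ k * N ^ (n - k) * ((n.choose k : ℕ) : Matrix I I A) =
        ((n.choose k : ℕ) : A) • (M ^ k * N ^ (n - k)) := by
      rw [← nsmul_eq_mul', Nat.cast_smul_eq_nsmul]
    rw [e1, smul_smul]
    change _ = (((k.factorial : A)⁻¹) * (((n - k).factorial : A)⁻¹)) • (M ^ k * N ^ (n - k))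
    congr 1
    have e2 := hfac n hn'
    have e3 := hfac k (by omega)
    have e4 := hfac (n - k) (by omega)
    have e5 : ((n.choose k : ℕ) : A) * (k.factorial : A) * ((n - k).factorial : A) =
        (n.factorial : A) := by
      rw [← Nat.choose_mul_factorial_mul_factorial hk']
      push_cast
      ring
    rw [← e5]
    rw [← e5] at e2
    have e6 := left_ne_zero_of_mul (left_ne_zero_of_mul e2)
    field_simp
  rw [h1, Finset.sum_range_diag_flip]
  unfold Ex
  rw [Finset.sum_mul]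
  refine Finset.sum_congr rfl fun i hi => ?_
  rw [Finset.mul_sum]
  have h2 : ∀ j, (((i.factorial : A)⁻¹) • M ^ i) * (((j.factorial : A)⁻¹) • N ^ j) = F i j := by
    intro j
    rw [smul_mul_smul_comm]
  rw [Finset.sum_congr rfl fun j _ => h2 j]
  refine Finset.sum_subset ?_ ?_
  · intro j hj
    rw [Finset.mem_range] at hj ⊢
    omega
  · intro j _ hj
    rw [Finset.mem_range, not_lt] at hj
    have h3 : JJ d p (M ^ i * N ^ j) := by
      have h4 := JJ.mul (JJ.pow hM i) (JJ.pow hN j)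
      rw [one_mul, one_mul] at h4
      exact JJ.mono (by omega) h4
    change (((i.factorial : A)⁻¹) * ((j.factorial : A)⁻¹)) • (M ^ i * N ^ j) = 0
    rw [JJ.eq_zero hd h3, smul_zero]

theorem Ex_mod (hm : 1 ≤ m) (hM : JJ d 1 M) (hN : JJ d m N) :
    JJ d (m + 1) (Ex p (M + N) - Ex p M - N) := by
  have hMN : JJ d 1 (M + N) := JJ.add hM (JJ.mono hm hN)
  have key : ∀ i, JJ d (m + i) ((M + N) ^ (i + 1) - M ^ (i + 1)) := by
    intro i
    induction i with
    | zero =>
      rw [add_zero, zero_add, pow_one, pow_one, add_sub_cancel_left]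
      exact hN
    | succ i ih =>
      have e1 : (M + N) ^ (i + 1 + 1) - M ^ (i + 1 + 1) =
          (M + N) * ((M + N) ^ (i + 1) - M ^ (i + 1)) + N * M ^ (i + 1) := by
        rw [pow_succ' (M + N) (i + 1), pow_succ' M (i + 1), mul_sub, add_mul M N (M ^ (i + 1))]
        abel
      rw [e1]
      refine JJ.add (JJ.mono (by omega) (JJ.mul hMN ih)) ?_
      have h1 := JJ.mul hN (JJ.pow hM (i + 1))
      rw [one_mul] at h1
      exact JJ.mono (by omega) h1
  obtain ⟨q, hq⟩ : ∃ q, p = q + 1 + 1 := ⟨p - 2, by have := hp.out.two_le; omega⟩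
  have h1 : Ex p (M + N) - Ex p M - N = ∑ i ∈ Finset.range q,
      (((i + 1 + 1).factorial : A)⁻¹) • ((M + N) ^ (i + 1 + 1) - M ^ (i + 1 + 1)) := by
    unfold Ex
    rw [hq, Finset.sum_range_succ', Finset.sum_range_succ', Finset.sum_range_succ' _ (q + 1),
      Finset.sum_range_succ' _ q]
    simp only [smul_sub, Finset.sum_sub_distrib, zero_add, pow_one, pow_zero, Nat.factorial_one,
      Nat.factorial_zero, Nat.cast_one, inv_one, one_smul]
    abel
  rw [h1]
  refine JJ.sum _ _ fun i _ => JJ.smul _ (JJ.mono ?_ (key (i + 1)))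
  omega

theorem Ex_conj (h1 : g * h = 1) (h2 : h * g = 1) (M : Matrix I I A) :
    Ex p (h * M * g) = h * Ex p M * g := by
  have key : ∀ i, (h * M * g) ^ i = h * M ^ i * g := by
    intro i
    induction i with
    | zero => rw [pow_zero, pow_zero, mul_one, h2]
    | succ i ih =>
      rw [pow_succ, ih, pow_succ]
      calc h * M ^ i * g * (h * M * g) = h * M ^ i * (g * h) * M * g := by
            simp only [mul_assoc]
        _ = h * (M ^ i * M) * g := by
            rw [h1, mul_one, mul_assoc h]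
  unfold Ex
  rw [Finset.mul_sum, Finset.sum_mul]
  refine Finset.sum_congr rfl fun i _ => ?_
  rw [key, mul_smul_comm, smul_mul_assoc]

theorem Ex_map {B : Type*} [Field B] (f : A →+* B) (M : Matrix I I A) :
    (Ex p M).map f = Ex p (M.map f) := by
  have h1 : ∀ K : Matrix I I A, K.map f = f.mapMatrix K := fun _ => rfl
  rw [h1, h1]
  unfold Ex
  rw [map_sum]
  refine Finset.sum_congr rfl fun i _ => ?_
  rw [← map_pow]
  ext a b
  simp only [RingHom.mapMatrix_apply, Matrix.map_apply, Matrix.smul_apply, smul_eq_mul, map_mul,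
    map_inv₀, map_natCast]

end BAC
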