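import Pool.Agent.BAC.MatFr
import Pool.Agent.BAC.MatEx

/-!
BAC / B3. Iterated Frobenius on matrices, `q = p ^ e`: `Fr (p ^ e) M = M.map (iterateFrobenius A p e)`, a ring
hom of matrices (`RingHom.mapMatrix`), commutes with `Fr p`, with `Ex p` (`Ex_map`), with inverses
(`(g⁻¹) ↦ (..)⁻¹`: image of `g g⁻¹ = 1`).
-/

namespace BAC

variable {p : ℕ} [hp : Fact p.Prime] {I : Type*} [Fintype I] [DecidableEq I] {d : I → ℕ}
  {A : Type*} [Field A] [CharP A p] {m : ℕ}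

theorem Frq_eq (e : ℕ) (M : Matrix I I A) :
    Fr (p ^ e) M = (iterateFrobenius A p e).mapMatrix M := by
  ext i j
  simp only [Fr, Matrix.map_apply, RingHom.mapMatrix_apply, iterateFrobenius_def]

theorem Frq_mul (e : ℕ) (M N : Matrix I I A) :
    Fr (p ^ e) (M * N) = Fr (p ^ e) M * Fr (p ^ e) N := by
  rw [Frq_eq, Frq_eq, Frq_eq, map_mul]

theorem Frq_one (e : ℕ) : Fr (p ^ e) (1 : Matrix I I A) = 1 := by
  rw [Frq_eq, map_one]

theorem Frq_sub (e : ℕ) (M N : Matrix I I A) :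
    Fr (p ^ e) (M - N) = Fr (p ^ e) M - Fr (p ^ e) N := by
  rw [Frq_eq, Frq_eq, Frq_eq, map_sub]

theorem Frq_smul (e : ℕ) (a : A) (M : Matrix I I A) :
    Fr (p ^ e) (a • M) = a ^ (p ^ e) • Fr (p ^ e) M := by
  ext i j
  simp only [Fr, Matrix.map_apply, Matrix.smul_apply, smul_eq_mul, mul_pow]

theorem Frq_Ex (e : ℕ) (M : Matrix I I A) : Fr (p ^ e) (Ex p M) = Ex p (Fr (p ^ e) M) := by
  rw [Frq_eq, Frq_eq]
  exact Ex_map (iterateFrobenius A p e) M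

theorem Fr_Frq (e : ℕ) (M : Matrix I I A) : Fr p (Fr (p ^ e) M) = Fr (p ^ e) (Fr p M) := by
  ext i j
  simp only [Fr, Matrix.map_apply]
  rw [← pow_mul, ← pow_mul, mul_comm]

theorem JJ_Frq (e : ℕ) {M : Matrix I I A} (hM : JJ d m M) : JJ d m (Fr (p ^ e) M) := by
  intro i j h
  refine hM i j fun h0 => h ?_
  simp only [Fr, Matrix.map_apply, h0, zero_pow (pow_ne_zero e hp.out.ne_zero)]

theorem uni_Frq (e : ℕ) {M : Matrix I I A} (hM : JJ d m (M - 1)) :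
    JJ d m (Fr (p ^ e) M - 1) := by
  have h := JJ_Frq (p := p) e hM
  rwa [Frq_sub, Frq_one] at h

theorem Frq_inv (hd : ∀ i, d i < p) (e : ℕ) {g : Matrix I I A} (hg : JJ d 1 (g - 1)) :
    (Fr (p ^ e) g)⁻¹ = Fr (p ^ e) g⁻¹ := by
  have h1 : g * g⁻¹ = 1 := uni_mul_inv hd hg
  refine Matrix.inv_eq_right_inv ?_
  rw [← Frq_mul, h1, Frq_one]

end BAC
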