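import Pool.Agent.BAC.Defs

/-!
BAC / M1 (blueprint 3.4, 4). The filtration `JJ d m` of matrices.

`JJ.mul`: `(M N) i j ≠ 0` gives `l` with `M i l ≠ 0`, `N l j ≠ 0` (`Finset.exists_ne_zero_of_sum_ne_zero`).
`JJ.eq_zero`: `M i j ≠ 0` gives `p ≤ d j + p ≤ d i < p`. `uni_mul`: `g h - 1 = (g - 1) h + (h - 1)`.
`uni_inv`: `N = 1 - g ∈ JJ d m`, `N ^ p = 0` (`JJ.pow`, `JJ.eq_zero`), the inverse is `∑_{i<p} N ^ i`.
`conj_mod`: `M g - M = M (g - 1)`, `g M - M = (g - 1) M`, and `g⁻¹ M g - M = g⁻¹ (M g - g M)`.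
-/

namespace BAC

section ring

variable {p : ℕ} {I : Type*} [Fintype I] [DecidableEq I] {d : I → ℕ} {A : Type*} [CommRing A]
  {m n : ℕ} {M N g h : Matrix I I A}

theorem JJ.zero : JJ d m (0 : Matrix I I A) := by
  intro i j h
  exact absurd rfl h

theorem JJ.one : JJ d 0 (1 : Matrix I I A) := by
  intro i j h
  have hij : i = j := by
    by_contra hne
    exact h (Matrix.one_apply_ne hne)
  subst hij
  exact le_rfl

theorem JJ.mono (hmn : m ≤ n) (h : JJ d n M) : JJ d m M := by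
  intro i j hij
  have := h i j hij
  omega

theorem JJ.add (hM : JJ d m M) (hN : JJ d m N) : JJ d m (M + N) := by
  intro i j hij
  by_cases h : M i j = 0
  · refine hN i j ?_
    intro h'
    exact hij (by rw [Matrix.add_apply, h, h', add_zero])
  · exact hM i j h

theorem JJ.neg (hM : JJ d m M) : JJ d m (-M) := by
  intro i j hij
  refine hM i j ?_
  intro h'
  exact hij (by rw [Matrix.neg_apply, h', neg_zero])

theorem JJ.sub (hM : JJ d m M) (hN : JJ d m N) : JJ d m (M - N) := by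
  rw [sub_eq_add_neg]
  exact hM.add hN.neg

theorem JJ.smul {R : Type*} [CommRing R] [Algebra R A] (a : R) (hM : JJ d m M) :
    JJ d m (a • M) := by
  intro i j hij
  refine hM i j ?_
  intro h'
  exact hij (by rw [Matrix.smul_apply, h', smul_zero])

theorem JJ.sum {ι : Type*} (s : Finset ι) (f : ι → Matrix I I A) (h : ∀ i ∈ s, JJ d m (f i)) :
    JJ d m (∑ i ∈ s, f i) := by
  classical
  induction s using Finset.induction_on with
  | empty => rw [Finset.sum_empty]; exact JJ.zero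
  | insert a s ha ih =>
    rw [Finset.sum_insert ha]
    exact (h a (Finset.mem_insert_self a s)).add
      (ih fun i hi => h i (Finset.mem_insert_of_mem hi))

theorem JJ.mul (hM : JJ d m M) (hN : JJ d n N) : JJ d (m + n) (M * N) := by
  intro i j hij
  rw [Matrix.mul_apply] at hij
  obtain ⟨l, -, hl⟩ := Finset.exists_ne_zero_of_sum_ne_zero hij
  have h1 := hM i l (left_ne_zero_of_mul hl)
  have h2 := hN l j (right_ne_zero_of_mul hl)
  omega

theorem JJ.pow (hM : JJ d m M) (s : ℕ) : JJ d (m * s) (M ^ s) := by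
  induction s with
  | zero => rw [mul_zero, pow_zero]; exact JJ.one
  | succ s ih =>
    rw [pow_succ]
    have := ih.mul hM
    rwa [← Nat.mul_succ] at this

theorem JJ.eq_zero (hd : ∀ i, d i < p) (hM : JJ d p M) : M = 0 := by
  ext i j
  by_contra h
  have h1 := hM i j h
  have h2 := hd i
  omega

theorem JJ.map {B : Type*} [Zero B] (f : A → B) (hf : f 0 = 0) (hM : JJ d m M) :
    JJ d m (M.map f) := by
  intro i j hij
  refine hM i j ?_
  intro h'
  exact hij (by rw [Matrix.map_apply, h', hf])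

theorem JJ.of_map {B : Type*} [Zero B] (f : A → B) (hf : ∀ a, f a = 0 → a = 0)
    (hM : JJ d m (M.map f)) : JJ d m M := by
  intro i j hij
  refine hM i j ?_
  intro h'
  exact hij (hf _ (by rw [Matrix.map_apply] at h'; exact h'))

theorem JJ.zero_of_uni (hg : JJ d m (g - 1)) : JJ d 0 g := by
  have h := (hg.mono (Nat.zero_le m)).add (JJ.one (A := A))
  rwa [sub_add_cancel] at h

theorem uni_mul (hg : JJ d m (g - 1)) (hh : JJ d m (h - 1)) : JJ d m (g * h - 1) := by
  have h0 : g * h - 1 = (g - 1) * h + (h - 1) := by noncomm_ring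
  rw [h0]
  have h1 := hg.mul (JJ.zero_of_uni hh)
  rw [add_zero] at h1
  exact h1.add hh

theorem uni_diag (hg : JJ d 1 (g - 1)) (i : I) : g i i = 1 := by
  by_contra h
  have h1 : (g - 1) i i ≠ 0 := by
    rw [Matrix.sub_apply, Matrix.one_apply_eq]
    exact sub_ne_zero.mpr h
  have := hg i i h1
  omega

theorem uni_off (hg : JJ d 1 (g - 1)) {i j : I} (hij : i ≠ j) (h : g i j ≠ 0) :
    d j + 1 ≤ d i := by
  refine hg i j ?_
  rw [Matrix.sub_apply, Matrix.one_apply_ne hij, sub_zero]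
  exact h

theorem mul_uni_mod (hg : JJ d 1 (g - 1)) (hM : JJ d m M) : JJ d (m + 1) (M * g - M) := by
  have h0 : M * g - M = M * (g - 1) := by noncomm_ring
  rw [h0]
  exact hM.mul hg

theorem uni_mul_mod (hg : JJ d 1 (g - 1)) (hM : JJ d m M) : JJ d (m + 1) (g * M - M) := by
  have h0 : g * M - M = (g - 1) * M := by noncomm_ring
  rw [h0, add_comm]
  exact hg.mul hM

/-- `(1 + a) (1 + b) = 1 + a + b` modulo `JJ d (m + 1)` -/
theorem uni_prod_mod (hm : 1 ≤ m) (hg : JJ d m (g - 1)) (hh : JJ d m (h - 1)) :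
    JJ d (m + 1) (g * h - 1 - (g - 1) - (h - 1)) := by
  have h0 : g * h - 1 - (g - 1) - (h - 1) = (g - 1) * (h - 1) := by noncomm_ring
  rw [h0]
  exact (hg.mul hh).mono (by omega)

end ring

section field

variable {p : ℕ} {I : Type*} [Fintype I] [DecidableEq I] {d : I → ℕ} {A : Type*} [Field A]
  {m : ℕ} {M g : Matrix I I A}

private theorem geo_right (hd : ∀ i, d i < p) (hg : JJ d 1 (g - 1)) :
    g * (∑ i ∈ Finset.range p, (1 - g) ^ i) = 1 := by
  have hN : JJ d 1 (1 - g) := by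
    have := hg.neg
    rwa [neg_sub] at this
  have hp : (1 - g) ^ p = 0 := by
    have := hN.pow p
    rw [one_mul] at this
    exact JJ.eq_zero hd this
  have h1 := mul_neg_geom_sum (1 - g) p
  rw [hp, sub_zero, sub_sub_cancel] at h1
  exact h1

private theorem geo_left (hd : ∀ i, d i < p) (hg : JJ d 1 (g - 1)) :
    (∑ i ∈ Finset.range p, (1 - g) ^ i) * g = 1 := by
  have h := geo_right hd hg
  exact mul_eq_one_comm.mp h

/-- the inverse as a polynomial -/
private theorem inv_eq' (hd : ∀ i, d i < p) (hg : JJ d 1 (g - 1)) :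
    g⁻¹ = ∑ i ∈ Finset.range p, (1 - g) ^ i :=
  Matrix.inv_eq_right_inv (geo_right hd hg)

theorem uni_isUnit (hd : ∀ i, d i < p) (hg : JJ d 1 (g - 1)) : IsUnit g.det :=
  Matrix.isUnit_det_of_right_inverse (geo_right hd hg)

theorem uni_mul_inv (hd : ∀ i, d i < p) (hg : JJ d 1 (g - 1)) : g * g⁻¹ = 1 :=
  Matrix.mul_nonsing_inv g (uni_isUnit hd hg)

theorem uni_inv_mul (hd : ∀ i, d i < p) (hg : JJ d 1 (g - 1)) : g⁻¹ * g = 1 :=
  Matrix.nonsing_inv_mul g (uni_isUnit hd hg)

theorem uni_inv (hd : ∀ i, d i < p) (hm : 1 ≤ m) (hg : JJ d m (g - 1)) : JJ d m (g⁻¹ - 1) := by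
  have hg1 : JJ d 1 (g - 1) := hg.mono hm
  have hN : JJ d m (1 - g) := by
    have := hg.neg
    rwa [neg_sub] at this
  rcases Nat.eq_zero_or_pos p with hp | hp
  · intro i
    exact absurd (hd i) (by omega)
  · rw [inv_eq' hd hg1]
    obtain ⟨q, rfl⟩ : ∃ q, p = q + 1 := ⟨p - 1, by omega⟩
    rw [Finset.sum_range_succ', pow_zero, add_sub_cancel_right]
    refine JJ.sum _ _ fun i _ => ?_
    exact (hN.pow (i + 1)).mono (Nat.le_mul_of_pos_right m (Nat.succ_pos i))

theorem conj_mod (hd : ∀ i, d i < p) (hg : JJ d 1 (g - 1)) (hM : JJ d m M) :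
    JJ d (m + 1) (g⁻¹ * M * g - M) ∧ JJ d (m + 1) (g * M * g⁻¹ - M) := by
  have hi : JJ d 1 (g⁻¹ - 1) := uni_inv hd le_rfl hg
  have key : ∀ a b : Matrix I I A, JJ d 1 (a - 1) → JJ d 1 (b - 1) →
      JJ d (m + 1) (a * M * b - M) := by
    intro a b ha hb
    have h0 : a * M * b - M = (a * M - M) * b + (M * b - M) := by noncomm_ring
    rw [h0]
    have h1 := (uni_mul_mod ha hM).mul (JJ.zero_of_uni hb)
    rw [add_zero] at h1
    exact h1.add (mul_uni_mod hb hM)
  exact ⟨key _ _ hi hg, key _ _ hg hi⟩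

/-- the inverse as a polynomial -/
theorem uni_inv_eq (hd : ∀ i, d i < p) (hg : JJ d 1 (g - 1)) :
    g⁻¹ = ∑ i ∈ Finset.range p, (1 - g) ^ i :=
  inv_eq' hd hg

end field

end BAC
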