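import Pool.Agent.BAC.GDefs

/-!
BAC / G1 (blueprint 3.1). Elementary facts on the filtration `NJ` of `F_p[G]`.

`NJ_mul`: `Submodule.span_induction` twice (concatenate the lists). `NJ_zero`: `of g = (of g - 1) + 1`
(lists `[(0, g)]` and `[]`; `S 0 = ⊤` by `anti`). `NJ_mul_left`: `NJ_mul` with `b ∈ NJ 0`. `one_notMem`: the
augmentation `F_p[G] → F_p` (`MonoidAlgebra.lift` of the trivial hom) kills every product over a nonempty
list; for `1 ≤ m` the list is nonempty.
-/

namespace BAC

variable {p : ℕ} [hp : Fact p.Prime] {G : Type*} [Group G] {S : ℕ → Subgroup G}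

theorem NJ_anti : Antitone (NJ p S) := by
  intro m n hmn
  refine Submodule.span_mono ?_
  rintro a ⟨l, h1, h2, h3⟩
  exact ⟨l, h1, hmn.trans h2, h3⟩

theorem NJ_mul {m n : ℕ} {a b : MonoidAlgebra (ZMod p) G} (ha : a ∈ NJ p S m)
    (hb : b ∈ NJ p S n) : a * b ∈ NJ p S (m + n) := by
  unfold NJ at ha
  induction ha using Submodule.span_induction with
  | mem x hx =>
    obtain ⟨l, h1, h2, rfl⟩ := hx
    unfold NJ at hb
    induction hb using Submodule.span_induction with
    | mem y hy =>
      obtain ⟨l', h1', h2', rfl⟩ := hy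
      refine Submodule.subset_span ⟨l ++ l', ?_, ?_, ?_⟩
      · intro y hy
        rcases List.mem_append.1 hy with h | h
        · exact h1 y h
        · exact h1' y h
      · rw [List.map_append, List.sum_append]
        exact add_le_add h2 h2'
      · rw [List.map_append, List.prod_append]
    | zero =>
      rw [mul_zero]
      exact Submodule.zero_mem _
    | add x y _ _ hx hy =>
      rw [mul_add]
      exact Submodule.add_mem _ hx hy
    | smul c x _ hx =>
      rw [mul_smul_comm]
      exact Submodule.smul_mem _ _ hx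
  | zero =>
    rw [zero_mul]
    exact Submodule.zero_mem _
  | add x y _ _ hx hy =>
    rw [add_mul]
    exact Submodule.add_mem _ hx hy
  | smul c x _ hx =>
    rw [smul_mul_assoc]
    exact Submodule.smul_mem _ _ hx

theorem NJ_zero (hS : NSer p S) : NJ p S 0 = ⊤ := by
  rw [eq_top_iff]
  intro a _
  have h0 : S 0 = ⊤ := top_le_iff.1 (hS.one ▸ hS.anti (Nat.zero_le 1))
  induction a using MonoidAlgebra.induction_on with
  | of g =>
    have h1 : MonoidAlgebra.of (ZMod p) G g - 1 ∈ NJ p S 0 := by
      refine Submodule.subset_span ⟨[(0, g)], ?_, ?_, ?_⟩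
      · intro y hy
        rw [List.mem_singleton.1 hy]
        change g ∈ S 0
        rw [h0]
        exact Subgroup.mem_top g
      · exact Nat.zero_le _
      · simp
    have h2 : (1 : MonoidAlgebra (ZMod p) G) ∈ NJ p S 0 := by
      refine Submodule.subset_span ⟨[], ?_, ?_, ?_⟩
      · intro y hy
        exact absurd hy List.not_mem_nil
      · exact Nat.zero_le _
      · simp
    have h3 := Submodule.add_mem _ h1 h2
    rwa [sub_add_cancel] at h3
  | add x y hx hy => exact Submodule.add_mem _ (hx trivial) (hy trivial)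
  | smul r x hx => exact Submodule.smul_mem _ _ (hx trivial)

theorem NJ_mul_left (hS : NSer p S) {m : ℕ} {a : MonoidAlgebra (ZMod p) G}
    (ha : a ∈ NJ p S m) (b : MonoidAlgebra (ZMod p) G) : b * a ∈ NJ p S m := by
  have h1 : b ∈ NJ p S 0 := by
    rw [NJ_zero hS]
    exact Submodule.mem_top
  have h2 := NJ_mul h1 ha
  rwa [zero_add] at h2

theorem NJ_mul_right (hS : NSer p S) {m : ℕ} {a : MonoidAlgebra (ZMod p) G}
    (ha : a ∈ NJ p S m) (b : MonoidAlgebra (ZMod p) G) : a * b ∈ NJ p S m := by
  have h1 : b ∈ NJ p S 0 := by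
    rw [NJ_zero hS]
    exact Submodule.mem_top
  have h2 := NJ_mul ha h1
  rwa [add_zero] at h2

theorem of_sub_one_mem {m : ℕ} {g : G} (hg : g ∈ S m) :
    MonoidAlgebra.of (ZMod p) G g - 1 ∈ NJ p S m := by
  refine Submodule.subset_span ⟨[(m, g)], ?_, ?_, ?_⟩
  · intro y hy
    rw [List.mem_singleton.1 hy]
    exact hg
  · simp
  · simp

theorem one_notMem {m : ℕ} (hm : 1 ≤ m) : (1 : MonoidAlgebra (ZMod p) G) ∉ NJ p S m := by
  intro h
  let φ : MonoidAlgebra (ZMod p) G →ₐ[ZMod p] ZMod p :=
    MonoidAlgebra.lift (ZMod p) (ZMod p) G (1 : G →* ZMod p)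
  have hker : NJ p S m ≤ LinearMap.ker φ.toLinearMap := by
    refine Submodule.span_le.2 ?_
    rintro a ⟨l, h1, h2, rfl⟩
    rw [SetLike.mem_coe, LinearMap.mem_ker, AlgHom.toLinearMap_apply, map_list_prod, List.map_map]
    cases l with
    | nil =>
      simp only [List.map_nil, List.sum_nil] at h2
      omega
    | cons y l =>
      rw [List.map_cons, List.prod_cons]
      have h3 : (φ ∘ fun y : ℕ × G => MonoidAlgebra.of (ZMod p) G y.2 - 1) y = 0 := by
        change φ (MonoidAlgebra.of (ZMod p) G y.2 - 1) = 0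
        rw [map_sub, map_one, MonoidAlgebra.lift_of, MonoidHom.one_apply, sub_self]
      rw [h3, zero_mul]
  have h4 := hker h
  rw [LinearMap.mem_ker, AlgHom.toLinearMap_apply, map_one] at h4
  exact one_ne_zero h4

end BAC
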