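import Pool.Agent.BAC.GDefs

/-!
BAC / G2 (blueprint 3.1). `F_p[G]` as a free module over `F_p[H]`, `H` normal of index `p`.

`t ∉ H`, `[G:H] = p`: every `g` is uniquely `h t^j` with `h ∈ H`, `j < p` (`G / H` is cyclic of order `p`,
generated by the class of `t`). `T = of t - 1`, `ι = MonoidAlgebra.mapDomain` of the inclusion.
`free_indep`: the elements `of (t ^ j)`, `j < p`, are independent over `ι (F_p[H])` (disjoint supports
`H t^j`); `T ^ j = ∑_i ± binom(j, i) t ^ i` is a unitriangular change: take the largest `j` with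
`a j ≠ 0`; the part of `∑ ι (a i) T ^ i` supported on `H t^j` is `ι (a j) t ^ j`.
`tau_comm`: on the basis elements: `t h = (t h t⁻¹) t`.
-/

namespace BAC

open Finset

variable {p : ℕ} [hp : Fact p.Prime] {G : Type*} [Group G]

/-- the inclusion `F_p[H] → F_p[G]` -/
noncomputable def iotaH (p : ℕ) {G : Type*} [Group G] (H : Subgroup G) :
    MonoidAlgebra (ZMod p) H →+* MonoidAlgebra (ZMod p) G :=
  MonoidAlgebra.mapDomainRingHom (ZMod p) H.subtype

/-- conjugation by `t` on `F_p[H]` -/
noncomputable def tauH (p : ℕ) {G : Type*} [Group G] (H : Subgroup G) [H.Normal] (t : G) :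
    MonoidAlgebra (ZMod p) H →+* MonoidAlgebra (ZMod p) H :=
  MonoidAlgebra.mapDomainRingHom (ZMod p)
    ((MulAut.conjNormal t : H ≃* H) : H →* H)

private theorem q_ne {H : Subgroup G} [H.Normal] {t : G} (ht : t ∉ H) : (t : G ⧸ H) ≠ 1 := by
  rwa [Ne, QuotientGroup.eq_one_iff]

private theorem q_ord {H : Subgroup G} [H.Normal] (hi : H.index = p) {t : G} (ht : t ∉ H) :
    orderOf (t : G ⧸ H) = p := by
  refine orderOf_eq_prime ?_ (q_ne ht)
  have h1 : Nat.card (G ⧸ H) = p := hi
  rw [← h1]
  exact pow_card_eq_one'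

theorem exists_pow_decomp {H : Subgroup G} [H.Normal] (hi : H.index = p) {t : G} (ht : t ∉ H)
    (g : G) : ∃ j < p, ∃ h : H, g = h * t ^ j := by
  have h1 : Nat.card (G ⧸ H) = p := hi
  obtain ⟨n, hn⟩ := mem_powers_of_prime_card h1 (q_ne ht) (g' := (g : G ⧸ H))
  refine ⟨n % p, Nat.mod_lt _ hp.out.pos, ⟨g * (t ^ (n % p))⁻¹, ?_⟩, ?_⟩
  · rw [← QuotientGroup.eq_one_iff, QuotientGroup.mk_mul, QuotientGroup.mk_inv,
      QuotientGroup.mk_pow]
    change (t : G ⧸ H) ^ n = (g : G ⧸ H) at hn
    rw [← hn]
    have h2 : (t : G ⧸ H) ^ (n % p) = (t : G ⧸ H) ^ n := by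
      rw [← q_ord hi ht, pow_mod_orderOf]
    rw [h2, mul_inv_cancel]
  · simp

private theorem pow_notMem {H : Subgroup G} [H.Normal] (hi : H.index = p) {t : G} (ht : t ∉ H)
    {m : ℕ} (h0 : 0 < m) (hm : m < p) : t ^ m ∉ H := by
  intro h
  rw [← QuotientGroup.eq_one_iff, QuotientGroup.mk_pow] at h
  have h1 := orderOf_dvd_of_pow_eq_one h
  rw [q_ord hi ht] at h1
  exact absurd (Nat.le_of_dvd h0 h1) (by omega)

private theorem iota_coeff (H : Subgroup G) (a : MonoidAlgebra (ZMod p) H) (h : H) :
    (iotaH p H a).coeff (h : G) = a.coeff h := by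
  have h1 : (iotaH p H a).coeff = Finsupp.mapDomain H.subtype a.coeff := rfl
  rw [h1]
  exact Finsupp.mapDomain_apply H.subtype_injective _ _

private theorem iota_coeff_not (H : Subgroup G) (a : MonoidAlgebra (ZMod p) H) {g : G}
    (h : g ∉ H) : (iotaH p H a).coeff g = 0 := by
  have h1 : (iotaH p H a).coeff = Finsupp.mapDomain H.subtype a.coeff := rfl
  rw [h1]
  refine Finsupp.mapDomain_of_notMem_range _ _ ?_
  simpa using h

private theorem key {H : Subgroup G} [H.Normal] (hi : H.index = p) {t : G} (ht : t ∉ H)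
    (a : MonoidAlgebra (ZMod p) H) (j : ℕ) : ∀ m < p, j ≤ m → ∀ h : H,
      (iotaH p H a * (MonoidAlgebra.of (ZMod p) G t - 1) ^ j).coeff (h * t ^ m) =
        if j = m then a.coeff h else 0 := by
  induction j with
  | zero =>
    intro m hm _ h
    rw [pow_zero, mul_one]
    rcases Nat.eq_zero_or_pos m with h0 | h0
    · subst h0
      rw [pow_zero, mul_one, if_pos rfl, iota_coeff]
    · rw [if_neg (by omega), iota_coeff_not]
      intro hcon
      exact pow_notMem hi ht h0 hm ((H.mul_mem_cancel_left h.2).1 hcon)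
  | succ j ih =>
    intro m hm hj h
    obtain ⟨n, rfl⟩ : ∃ n, m = n + 1 := ⟨m - 1, by omega⟩
    rw [pow_succ, ← mul_assoc, mul_sub, mul_one, MonoidAlgebra.coeff_sub, Finsupp.sub_apply,
      MonoidAlgebra.of_apply, MonoidAlgebra.coeff_mul_single_apply, ← MonoidAlgebra.of_apply,
      ih (n + 1) hm (by omega) h]
    have e : (h : G) * t ^ (n + 1) * t⁻¹ = h * t ^ n := by
      rw [pow_succ, ← mul_assoc, mul_inv_cancel_right]
    rw [e, ih n (by omega) (by omega) h, mul_one, if_neg (show ¬ j = n + 1 by omega), sub_zero]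
    by_cases hjn : j = n
    · rw [if_pos hjn, if_pos (by omega)]
    · rw [if_neg hjn, if_neg (by omega)]

theorem free_indep {H : Subgroup G} [H.Normal] (hi : H.index = p) {t : G} (ht : t ∉ H)
    (a : ℕ → MonoidAlgebra (ZMod p) H)
    (h : ∑ j ∈ range p, iotaH p H (a j) * (MonoidAlgebra.of (ZMod p) G t - 1) ^ j = 0) :
    ∀ j < p, a j = 0 := by
  have h1 : ∀ n ≤ p,
      ∑ j ∈ range n, iotaH p H (a j) * (MonoidAlgebra.of (ZMod p) G t - 1) ^ j = 0 →
      ∀ j < n, a j = 0 := by
    intro n
    induction n with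
    | zero =>
      intro _ _ j hj
      omega
    | succ n ih =>
      intro hn hs j hj
      have h2 : a n = 0 := by
        ext g
        have h3 := congrArg (fun x : MonoidAlgebra (ZMod p) G => x.coeff ((g : G) * t ^ n)) hs
        rw [sum_range_succ] at h3
        simp only [MonoidAlgebra.coeff_add, Finsupp.add_apply, MonoidAlgebra.coeff_zero,
          Finsupp.zero_apply] at h3
        rw [key hi ht (a n) n n (by omega) le_rfl g, if_pos rfl] at h3
        have h4 : (∑ j ∈ range n, iotaH p H (a j) *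
            (MonoidAlgebra.of (ZMod p) G t - 1) ^ j).coeff ((g : G) * t ^ n) = 0 := by
          rw [MonoidAlgebra.coeff_sum, Finsupp.finsetSum_apply]
          refine sum_eq_zero fun i hi' => ?_
          have hin := mem_range.1 hi'
          rw [key hi ht (a i) i n (by omega) (by omega) g, if_neg (by omega)]
        rw [h4, zero_add] at h3
        rw [h3]
        rfl
      rcases Nat.lt_succ_iff_lt_or_eq.1 hj with h3 | h3
      · refine ih (by omega) ?_ j h3
        rw [sum_range_succ, h2, map_zero, zero_mul, add_zero] at hs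
        exact hs
      · rw [h3, h2]
  exact h1 p le_rfl h

theorem tau_comm {H : Subgroup G} [H.Normal] (t : G) (a : MonoidAlgebra (ZMod p) H) :
    MonoidAlgebra.of (ZMod p) G t * iotaH p H a =
      iotaH p H (tauH p H t a) * MonoidAlgebra.of (ZMod p) G t := by
  induction a using MonoidAlgebra.induction_linear with
  | zero => simp
  | add x y hx hy => rw [map_add, map_add, map_add, mul_add, add_mul, hx, hy]
  | single m r =>
    have h1 : iotaH p H (MonoidAlgebra.single m r) = MonoidAlgebra.single (m : G) r := by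
      unfold iotaH
      rw [MonoidAlgebra.mapDomainRingHom_apply, MonoidAlgebra.mapDomain_single]
      rfl
    have h2 : tauH p H t (MonoidAlgebra.single m r) =
        MonoidAlgebra.single (MulAut.conjNormal t m) r := by
      unfold tauH
      rw [MonoidAlgebra.mapDomainRingHom_apply, MonoidAlgebra.mapDomain_single]
      rfl
    have h3 : iotaH p H (MonoidAlgebra.single (MulAut.conjNormal t m) r) =
        MonoidAlgebra.single (t * m * t⁻¹) r := by
      unfold iotaH
      rw [MonoidAlgebra.mapDomainRingHom_apply, MonoidAlgebra.mapDomain_single]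
      rfl
    rw [h1, h2, h3, MonoidAlgebra.of_apply, MonoidAlgebra.single_mul_single,
      MonoidAlgebra.single_mul_single, inv_mul_cancel_right, one_mul, mul_one]

end BAC
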