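import Pool.Agent.BAC.NJBasic
import Pool.Agent.BAC.NJFree

/-!
BAC / G3 (blueprint 3.1). The filtration of `F_p[G]` in terms of the one of `F_p[H]`.

`H` normal of index `p`, `t ∈ S w`, `t ∉ H`, `S i ≤ H` for `i > w`; `S' i = (S i).subgroupOf H`, `M_m = NJ p S' m`,
`T = of t - 1`.
`NSer.restr`: clear (`t ^ p`-type conditions are about elements of `H` only; `comm`: commutators of elements
of `H ∩ S i`, `H ∩ S j`).
`tau_sub`: for `a ∈ M_l`, `τ a - a ∈ M_(l+w)`: for a product `(h_1 - 1) ... (h_r - 1)`, `h_s ∈ S' w_s`: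
`τ h_s = [t, h_s] h_s`, `c = [t, h_s] ∈ S' (w + w_s)`, `τ(h_s) - h_s = (c - 1) h_s`; telescope the product; for the
empty list it is `0`. (Use `NJ_mul`, `NJ_mul_left`.)
`NJ_decomp`: every `a ∈ NJ p S m` is `∑_{j<p} ι (b_j) T ^ j`, `b_j ∈ M_(m - w j)` (truncated subtraction). Let
`P_m` be the set of these sums. It is enough that `1 ∈ P_0` (clear) and `(of g - 1) P_a ⊆ P_(a+i)` for `g ∈ S i`
(then the product over a list is in `P_(sum)`, and `P` is antitone). If `i ≤ w`: `g = h t ^ j`, `j < p`,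
`h ∈ H ∩ S i` (as `t ∈ S w ≤ S i`); if `i > w`: `g ∈ H`. `of g - 1 = (of h - 1) + of h (of t ^ j - 1)` and
`of t ^ j - 1 = (1 + t + ... + t^(j-1)) T`. `(of h - 1) P_a ⊆ P_(a+i)`, `of h P_a ⊆ P_a`: clear. `T P_a ⊆ P_(a+w)`
(hence `of t P_a ⊆ P_a`): `T ι(b) T^j = ι(τ b - b) T^j + ι(τ b) T^(j+1)` (`tau_comm`),
`b ∈ M_(a - w j)`: `τ b - b ∈ M_(a - w j + w) ≤ M_(a + w - w j)`, `τ b ∈ M_(a - w j) = M_((a + w) - w (j+1))`; if
`j + 1 = p`: `T ^ p = of (t ^ p) - 1`, `t ^ p ∈ H ∩ S (p w)`, so `ι(τ b) T ^ p = ι(b')` with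
`b' ∈ M_(a - w (p-1) + p w) ≤ M_(a+w)`.
-/

namespace BAC

open Finset

variable {p : ℕ} [hp : Fact p.Prime] {G : Type*} [Group G] {S : ℕ → Subgroup G}

theorem NSer.restr (hS : NSer p S) (H : Subgroup G) : NSer p (fun i => (S i).subgroupOf H) := by
  refine ⟨?_, ?_, ?_, ?_, ?_⟩
  · simp only [hS.one, Subgroup.top_subgroupOf]
  · intro i j hij g hg
    exact hS.anti hij hg
  · intro i j
    rw [Subgroup.commutator_le]
    intro g₁ h₁ g₂ h₂
    rw [Subgroup.mem_subgroupOf] at h₁ h₂ ⊢
    exact hS.comm i j (Subgroup.commutator_mem_commutator h₁ h₂)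
  · intro i g hg
    rw [Subgroup.mem_subgroupOf] at hg ⊢
    exact hS.pow i g hg
  · obtain ⟨m, hm⟩ := hS.bot
    exact ⟨m, by simp only [hm, Subgroup.bot_subgroupOf]⟩

private theorem iota_of (H : Subgroup G) (h : H) :
    iotaH p H (MonoidAlgebra.of (ZMod p) H h) = MonoidAlgebra.of (ZMod p) G h := by
  unfold iotaH
  rw [MonoidAlgebra.of_apply, MonoidAlgebra.of_apply, MonoidAlgebra.mapDomainRingHom_apply,
    MonoidAlgebra.mapDomain_single]
  rfl

private theorem tau_of (H : Subgroup G) [H.Normal] (t : G) (h : H) :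
    tauH p H t (MonoidAlgebra.of (ZMod p) H h) =
      MonoidAlgebra.of (ZMod p) H (MulAut.conjNormal t h) := by
  unfold tauH
  rw [MonoidAlgebra.of_apply, MonoidAlgebra.of_apply, MonoidAlgebra.mapDomainRingHom_apply,
    MonoidAlgebra.mapDomain_single]
  rfl

private theorem tau_sub_of (hS : NSer p S) {H : Subgroup G} [H.Normal] {w : ℕ} {t : G}
    (ht : t ∈ S w) {i : ℕ} {h : H} (hh : h ∈ (S i).subgroupOf H) :
    tauH p H t (MonoidAlgebra.of (ZMod p) H h - 1) - (MonoidAlgebra.of (ZMod p) H h - 1) ∈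
      NJ p (fun i => (S i).subgroupOf H) (i + w) := by
  have hc : MulAut.conjNormal t h * h⁻¹ ∈ (S (i + w)).subgroupOf H := by
    rw [Subgroup.mem_subgroupOf] at hh ⊢
    have h1 := hS.comm w i (Subgroup.commutator_mem_commutator ht hh)
    rw [add_comm w i] at h1
    have h2 : ((MulAut.conjNormal t h * h⁻¹ : H) : G) = t * h * t⁻¹ * (h : G)⁻¹ := by
      rw [Subgroup.coe_mul, MulAut.conjNormal_apply, Subgroup.coe_inv]
    rw [h2]
    exact h1
  have h3 := NJ_mul_right (hS.restr H) (of_sub_one_mem (p := p)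
    (S := fun i => (S i).subgroupOf H) hc) (MonoidAlgebra.of (ZMod p) H h)
  have h4 : tauH p H t (MonoidAlgebra.of (ZMod p) H h - 1) - (MonoidAlgebra.of (ZMod p) H h - 1) =
      (MonoidAlgebra.of (ZMod p) H (MulAut.conjNormal t h * h⁻¹) - 1) *
        MonoidAlgebra.of (ZMod p) H h := by
    rw [map_sub, tau_of, map_one, sub_mul, ← map_mul, inv_mul_cancel_right, one_mul]
    abel
  rw [h4]
  exact h3

theorem tau_sub (hS : NSer p S) {H : Subgroup G} [H.Normal] {w : ℕ} {t : G} (ht : t ∈ S w)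
    {l : ℕ} {a : MonoidAlgebra (ZMod p) H} (ha : a ∈ NJ p (fun i => (S i).subgroupOf H) l) :
    tauH p H t a - a ∈ NJ p (fun i => (S i).subgroupOf H) (l + w) := by
  unfold NJ at ha
  induction ha using Submodule.span_induction with
  | mem a ha =>
    obtain ⟨L, hL, hl, rfl⟩ := ha
    refine NJ_anti (Nat.add_le_add_right hl w) ?_
    clear hl
    induction L with
    | nil => simp
    | cons y L ih =>
      have hL' : ∀ y ∈ L, y.2 ∈ (S y.1).subgroupOf H := fun z hz => hL z (List.mem_cons_of_mem _ hz)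
      have ih' := ih hL'
      have hy := hL y List.mem_cons_self
      have hPm : (L.map (fun y => MonoidAlgebra.of (ZMod p) H y.2 - 1)).prod ∈
          NJ p (fun i => (S i).subgroupOf H) (L.map Prod.fst).sum :=
        Submodule.subset_span ⟨L, hL', le_rfl, rfl⟩
      have hτ : tauH p H t (L.map (fun y => MonoidAlgebra.of (ZMod p) H y.2 - 1)).prod ∈
          NJ p (fun i => (S i).subgroupOf H) (L.map Prod.fst).sum := by
        have h1 := add_mem hPm (NJ_anti (Nat.le_add_right _ w) ih')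
        rwa [add_sub_cancel] at h1
      have h1 := NJ_mul (tau_sub_of hS ht hy) hτ
      have h2 := NJ_mul (of_sub_one_mem (p := p) (S := fun i => (S i).subgroupOf H) hy) ih'
      simp only [List.map_cons, List.prod_cons, List.sum_cons, map_mul]
      have e : ∀ A A' P P' : MonoidAlgebra (ZMod p) H, A' * P' - A * P =
          (A' - A) * P' + A * (P' - P) := by
        intro A A' P P'
        rw [sub_mul, mul_sub]
        abel
      rw [e]
      refine add_mem (NJ_anti (le_of_eq ?_) h1) (NJ_anti (le_of_eq ?_) h2)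
      · ring
      · ring
  | zero => simp
  | add x y hx hy h1 h2 =>
    rw [map_add]
    have e : tauH p H t x + tauH p H t y - (x + y) =
      (tauH p H t x - x) + (tauH p H t y - y) := by abel
    rw [e]
    exact add_mem h1 h2
  | smul c x hx h1 =>
    rw [ZMod.map_smul, ← smul_sub]
    exact Submodule.smul_mem _ c h1

/-- the sums `∑ ι (b j) T ^ j` with `b j ∈ M_(m - w j)` -/
private def PP (p : ℕ) {G : Type*} [Group G] (S : ℕ → Subgroup G) (H : Subgroup G) (w : ℕ) (t : G)
    (m : ℕ) (a : MonoidAlgebra (ZMod p) G) : Prop :=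
  ∃ b : ℕ → MonoidAlgebra (ZMod p) H,
    (∀ j < p, b j ∈ NJ p (fun i => (S i).subgroupOf H) (m - w * j)) ∧
    a = ∑ j ∈ range p, iotaH p H (b j) * (MonoidAlgebra.of (ZMod p) G t - 1) ^ j

private theorem PP.zero {H : Subgroup G} {w : ℕ} {t : G} {m : ℕ} : PP p S H w t m 0 :=
  ⟨0, fun _ _ => zero_mem _, by simp⟩

private theorem PP.add {H : Subgroup G} {w : ℕ} {t : G} {m : ℕ} {a a' : MonoidAlgebra (ZMod p) G}
    (h : PP p S H w t m a) (h' : PP p S H w t m a') : PP p S H w t m (a + a') := by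
  obtain ⟨b, hb, rfl⟩ := h
  obtain ⟨b', hb', rfl⟩ := h'
  refine ⟨b + b', fun j hj => add_mem (hb j hj) (hb' j hj), ?_⟩
  rw [← sum_add_distrib]
  refine sum_congr rfl fun j _ => ?_
  rw [Pi.add_apply, map_add, add_mul]

private theorem PP.sum {H : Subgroup G} {w : ℕ} {t : G} {m : ℕ} {n : ℕ}
    {f : ℕ → MonoidAlgebra (ZMod p) G} (h : ∀ j < n, PP p S H w t m (f j)) :
    PP p S H w t m (∑ j ∈ range n, f j) := by
  induction n with
  | zero =>
    rw [sum_range_zero]
    exact PP.zero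
  | succ n ih =>
    rw [sum_range_succ]
    exact (ih fun j hj => h j (by omega)).add (h n (by omega))

private theorem PP.smul {H : Subgroup G} {w : ℕ} {t : G} {m : ℕ} {a : MonoidAlgebra (ZMod p) G}
    (h : PP p S H w t m a) (c : ZMod p) : PP p S H w t m (c • a) := by
  obtain ⟨b, hb, rfl⟩ := h
  refine ⟨c • b, fun j hj => Submodule.smul_mem _ c (hb j hj), ?_⟩
  rw [smul_sum]
  refine sum_congr rfl fun j _ => ?_
  rw [Pi.smul_apply, ZMod.map_smul, smul_mul_assoc]

private theorem PP.anti {H : Subgroup G} {w : ℕ} {t : G} {m m' : ℕ} (hm : m ≤ m')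
    {a : MonoidAlgebra (ZMod p) G} (h : PP p S H w t m' a) : PP p S H w t m a := by
  obtain ⟨b, hb, rfl⟩ := h
  exact ⟨b, fun j hj => NJ_anti (Nat.sub_le_sub_right hm _) (hb j hj), rfl⟩

private theorem PP.single {H : Subgroup G} {w : ℕ} {t : G} {m j : ℕ} (hj : j < p)
    {x : MonoidAlgebra (ZMod p) H} (hx : x ∈ NJ p (fun i => (S i).subgroupOf H) (m - w * j)) :
    PP p S H w t m (iotaH p H x * (MonoidAlgebra.of (ZMod p) G t - 1) ^ j) := by
  classical
  refine ⟨fun i => if i = j then x else 0, fun i _ => ?_, ?_⟩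
  · by_cases h : i = j
    · simp only [h, if_true]
      exact hx
    · simp only [h, if_false]
      exact zero_mem _
  · rw [sum_eq_single j]
    · simp only [if_true]
    · intro i _ hi
      simp only [hi, if_false, map_zero, zero_mul]
    · intro h
      exact absurd (mem_range.2 hj) h

private theorem PP.left (hS : NSer p S) {H : Subgroup G} {w : ℕ} {t : G} {m i : ℕ}
    {a : MonoidAlgebra (ZMod p) G} (h : PP p S H w t m a) {x : MonoidAlgebra (ZMod p) H}
    (hx : x ∈ NJ p (fun i => (S i).subgroupOf H) i) : PP p S H w t (m + i) (iotaH p H x * a) := by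
  obtain ⟨b, hb, rfl⟩ := h
  refine ⟨fun j => x * b j, fun j hj => ?_, ?_⟩
  · refine NJ_anti ?_ (NJ_mul hx (hb j hj))
    omega
  · rw [mul_sum]
    refine sum_congr rfl fun j _ => ?_
    rw [map_mul, mul_assoc]

private theorem T_pow {H : Subgroup G} [H.Normal] (hi : H.index = p) (t : G) :
    ∃ h : H, (h : G) = t ^ p ∧ (MonoidAlgebra.of (ZMod p) G t - 1) ^ p =
      iotaH p H (MonoidAlgebra.of (ZMod p) H h - 1) := by
  have h1 : t ^ p ∈ H := by
    rw [← hi]
    exact H.pow_index_mem t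
  refine ⟨⟨t ^ p, h1⟩, rfl, ?_⟩
  have hc : CharP (MonoidAlgebra (ZMod p) G) p :=
    charP_of_injective_algebraMap (algebraMap (ZMod p) (MonoidAlgebra (ZMod p) G)).injective p
  rw [sub_pow_char_of_commute _ (Commute.one_right _), one_pow, map_sub, iota_of, map_one,
    ← map_pow]

private theorem PP.T (hS : NSer p S) {H : Subgroup G} [H.Normal] (hi : H.index = p) {w : ℕ} {t : G}
    (ht : t ∈ S w) {m : ℕ} {a : MonoidAlgebra (ZMod p) G} (h : PP p S H w t m a) :
    PP p S H w t (m + w) ((MonoidAlgebra.of (ZMod p) G t - 1) * a) := by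
  have hp := hp.out.pos
  obtain ⟨b, hb, rfl⟩ := h
  rw [mul_sum]
  refine PP.sum fun j hj => ?_
  have hτ := tau_sub hS ht (hb j hj)
  have hτ' : tauH p H t (b j) ∈ NJ p (fun i => (S i).subgroupOf H) (m - w * j) := by
    have h1 := add_mem (hb j hj) (NJ_anti (Nat.le_add_right _ w) hτ)
    rwa [add_sub_cancel] at h1
  have e : (MonoidAlgebra.of (ZMod p) G t - 1) *
      (iotaH p H (b j) * (MonoidAlgebra.of (ZMod p) G t - 1) ^ j) =
      iotaH p H (tauH p H t (b j) - b j) * (MonoidAlgebra.of (ZMod p) G t - 1) ^ j +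
        iotaH p H (tauH p H t (b j)) * (MonoidAlgebra.of (ZMod p) G t - 1) ^ (j + 1) := by
    rw [← mul_assoc, sub_mul, one_mul, tau_comm, map_sub, pow_succ']
    generalize (MonoidAlgebra.of (ZMod p) G t) = T
    generalize iotaH p H (tauH p H t (b j)) = A
    generalize iotaH p H (b j) = A'
    generalize (T - 1) ^ j = U
    rw [sub_mul, sub_mul, ← mul_assoc, mul_sub, mul_one, sub_mul]
    abel
  rw [e]
  refine PP.add (PP.single hj (NJ_anti ?_ hτ)) ?_
  · omega
  · rcases Nat.lt_or_ge (j + 1) p with h1 | h1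
    · refine PP.single h1 (NJ_anti (le_of_eq ?_) hτ')
      rw [mul_add, mul_one]
      omega
    · have h2 : j + 1 = p := by omega
      rw [h2]
      obtain ⟨h, hh, hT⟩ := T_pow (p := p) hi t
      rw [hT, ← map_mul, ← mul_one (iotaH p H _), ← pow_zero (MonoidAlgebra.of (ZMod p) G t - 1)]
      have h3 : h ∈ (S (p * w)).subgroupOf H := by
        rw [Subgroup.mem_subgroupOf, hh]
        exact hS.pow w t ht
      refine PP.single hp (NJ_anti ?_ (NJ_mul hτ'
        (of_sub_one_mem (p := p) (S := fun i => (S i).subgroupOf H) h3)))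
      have h4 : p * w = w * j + w := by
        rw [← h2]
        ring
      rw [h4, mul_zero]
      omega

private theorem PP.tpow (hS : NSer p S) {H : Subgroup G} [H.Normal] (hi : H.index = p) {w : ℕ}
    {t : G} (ht : t ∈ S w) (j : ℕ) : ∀ {m : ℕ} {a : MonoidAlgebra (ZMod p) G},
      PP p S H w t m a → PP p S H w t (m + w) ((MonoidAlgebra.of (ZMod p) G (t ^ j) - 1) * a) := by
  induction j with
  | zero =>
    intro m a _
    rw [pow_zero, map_one, sub_self, zero_mul]
    exact PP.zero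
  | succ j ih =>
    intro m a h
    have h1 := PP.T hS hi ht h
    have e : (MonoidAlgebra.of (ZMod p) G (t ^ (j + 1)) - 1) * a =
        ((MonoidAlgebra.of (ZMod p) G (t ^ j) - 1) * ((MonoidAlgebra.of (ZMod p) G t - 1) * a) +
        (MonoidAlgebra.of (ZMod p) G t - 1) * a) +
        (MonoidAlgebra.of (ZMod p) G (t ^ j) - 1) * a := by
      rw [pow_succ, map_mul]
      generalize (MonoidAlgebra.of (ZMod p) G (t ^ j)) = U
      generalize (MonoidAlgebra.of (ZMod p) G t) = T
      rw [sub_mul U, one_mul, sub_add_cancel, ← mul_assoc, mul_sub, mul_one, sub_mul, sub_mul,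
        sub_mul]
      abel
    rw [e]
    exact (((ih h1).anti (Nat.le_add_right _ _)).add h1).add (ih h)

private theorem PP.of (hS : NSer p S) {H : Subgroup G} [H.Normal] (hi : H.index = p) {w : ℕ}
    {t : G} (ht : t ∈ S w) (htH : t ∉ H) (hw : ∀ i, w < i → S i ≤ H) {m i : ℕ} {g : G}
    (hg : g ∈ S i) {a : MonoidAlgebra (ZMod p) G} (h : PP p S H w t m a) :
    PP p S H w t (m + i) ((MonoidAlgebra.of (ZMod p) G g - 1) * a) := by
  have key : ∀ h' : H, (h' : G) ∈ S i → ∀ {m : ℕ} {a : MonoidAlgebra (ZMod p) G},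
      PP p S H w t m a → PP p S H w t (m + i) ((MonoidAlgebra.of (ZMod p) G h' - 1) * a) := by
    intro h' hh' m a ha
    have h1 := PP.left hS ha (of_sub_one_mem (p := p) (S := fun i => (S i).subgroupOf H)
      (m := i) (g := h') hh')
    rwa [map_sub, iota_of, map_one] at h1
  rcases Nat.lt_or_ge w i with hwi | hwi
  · exact key ⟨g, hw i hwi hg⟩ hg h
  · obtain ⟨j, _, h', rfl⟩ := exists_pow_decomp hi htH g
    have ht' : t ^ j ∈ S i := pow_mem (hS.anti hwi ht) j
    have hh' : (h' : G) ∈ S i := by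
      have := mul_mem hg (inv_mem ht')
      rwa [mul_inv_cancel_right] at this
    have h1 := (PP.tpow hS hi ht j h).anti (Nat.add_le_add_left hwi m)
    have e : (MonoidAlgebra.of (ZMod p) G (h' * t ^ j) - 1) * a =
        ((MonoidAlgebra.of (ZMod p) G h' - 1) * ((MonoidAlgebra.of (ZMod p) G (t ^ j) - 1) * a) +
        (MonoidAlgebra.of (ZMod p) G (t ^ j) - 1) * a) +
        (MonoidAlgebra.of (ZMod p) G h' - 1) * a := by
      rw [map_mul]
      generalize (MonoidAlgebra.of (ZMod p) G (t ^ j)) = U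
      generalize (MonoidAlgebra.of (ZMod p) G (h' : G)) = V
      rw [sub_mul V, one_mul, sub_add_cancel, ← mul_assoc, mul_sub, mul_one, sub_mul, sub_mul,
        sub_mul]
      abel
    rw [e]
    exact (((key h' hh' h1).anti (Nat.le_add_right _ _)).add h1).add (key h' hh' h)

private theorem PP.one (hS : NSer p S) {H : Subgroup G} {w : ℕ} {t : G} :
    PP p S H w t 0 1 := by
  have h1 : (1 : MonoidAlgebra (ZMod p) H) ∈ NJ p (fun i => (S i).subgroupOf H) (0 - w * 0) := by
    rw [Nat.zero_sub, NJ_zero (hS.restr H)]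
    exact Submodule.mem_top
  have h2 := PP.single (S := S) (t := t) (w := w) (m := 0) hp.out.pos h1
  rwa [map_one, one_mul, pow_zero] at h2

theorem NJ_decomp (hS : NSer p S) {H : Subgroup G} [H.Normal] (hi : H.index = p) {w : ℕ} {t : G}
    (ht : t ∈ S w) (htH : t ∉ H) (hw : ∀ i, w < i → S i ≤ H) {m : ℕ}
    {a : MonoidAlgebra (ZMod p) G} (ha : a ∈ NJ p S m) :
    ∃ b : ℕ → MonoidAlgebra (ZMod p) H,
      (∀ j < p, b j ∈ NJ p (fun i => (S i).subgroupOf H) (m - w * j)) ∧
      a = ∑ j ∈ range p, iotaH p H (b j) * (MonoidAlgebra.of (ZMod p) G t - 1) ^ j := by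
  change PP p S H w t m a
  unfold NJ at ha
  induction ha using Submodule.span_induction with
  | mem a ha =>
    obtain ⟨L, hL, hl, rfl⟩ := ha
    refine PP.anti hl ?_
    clear hl
    induction L with
    | nil => simpa using PP.one hS
    | cons y L ih =>
      have ih' := ih fun z hz => hL z (List.mem_cons_of_mem _ hz)
      simp only [List.map_cons, List.prod_cons, List.sum_cons]
      rw [add_comm]
      exact PP.of hS hi ht htH hw (hL y List.mem_cons_self) ih'
  | zero => exact PP.zero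
  | add x y hx hy h1 h2 => exact h1.add h2
  | smul c x hx h1 => exact h1.smul c

end BAC
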