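import Pool.Agent.BAC.JL
import Pool.Agent.BAC.Jac
import Pool.Agent.BAC.GamComm

/-!
BAC / G7 (blueprint 3.2). The `p`-power map is a homomorphism.

`S_i := gam G i ⊔ Z` for `i ≤ p`, `S_i := ⊥` for `i > p` (`Z` is central, so normal). It is an `NSer`: `one` clear;
`comm`: if `i + j ≤ p`, commutators of `γ_i Z` and `γ_j Z` are commutators of `γ_i`, `γ_j` (`Z` central),
`gam_comm`; if `i + j > p` (and `i, j ≤ p`) they are in `γ_(i+j) ≤ γ_p = 1`. `pow`: `i = 0, 1`: `g ^ p ∈ Z ≤ S_p`;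
`2 ≤ i ≤ p`: `(g z)^p = g^p z^p = 1`.
Let `X = of x - 1`, `Y = of y - 1`, `N_m = NJ p S m`. A bracket `[z_1, [..., [z_r, X]]]` (`z_i ∈ {X, Y}`) is
`≡ of c - 1` modulo `N_(r+2)` for some `c ∈ γ_(r+1)`: for `b ≡ of c - 1 mod N_(r+1)`, `c ∈ γ_r`:
`[of z - 1, of c - 1] = (of [z,c] - 1) (of c of z) = (of [z,c] - 1) + (of [z,c] - 1)(of (c z) - 1)`, the last
summand in `N_(r+2)`. For `r = p - 1`, `γ_p = 1`: the bracket is in `N_(p+1)`. `jac` with `I = N_(p+1)`:
`(X + Y)^p - X^p - Y^p ∈ N_(p+1)`. `of (x y) - 1 = X + Y + X Y`, and `(X + Y + X Y)^p - (X + Y)^p ∈ N_(p+1)`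
(`X Y ∈ N_2`, `X, Y ∈ N_1`). In characteristic `p`: `(of g - 1)^p = of (g^p) - 1`. So
`of ((x y)^p) - 1 - (of (x^p) - 1) - (of (y^p) - 1) ∈ N_(p+1)`, and
`of (x^p y^p) - 1 - (of (x^p) - 1) - (of (y^p) - 1) = (of (x^p) - 1)(of (y^p) - 1) ∈ N_(2p) ≤ N_(p+1)`. So
`of ((x y)^p (x^p y^p)⁻¹) - 1 ∈ N_(p+1)` (`NJ_mul_right`), and JL gives `(x y)^p = x^p y^p`.
-/

namespace BAC

open scoped commutatorElement

open Classical in
/-- the N-series -/
private def phS (p : ℕ) {G : Type*} [Group G] (Z : Subgroup G) (i : ℕ) : Subgroup G :=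
  if i ≤ p then gam G i ⊔ Z else ⊥

section

variable {p : ℕ} [hp : Fact p.Prime] {G : Type*} [Group G] {Z : Subgroup G}

private theorem phS_le {i : ℕ} (h : i ≤ p) : phS p Z i = gam G i ⊔ Z := if_pos h

private theorem phS_gt {i : ℕ} (h : p < i) : phS p Z i = ⊥ := if_neg (not_le.2 h)

private theorem ph_normal (hZ : Z ≤ Subgroup.center G) : Z.Normal := by
  refine ⟨fun a ha g => ?_⟩
  have h2 := Subgroup.mem_center_iff.1 (hZ ha) g
  rw [h2, mul_inv_cancel_right]
  exact ha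

private theorem ph_mem (hZ : Z ≤ Subgroup.center G) {i : ℕ} {g : G} (hg : g ∈ gam G i ⊔ Z) :
    ∃ a ∈ gam G i, ∃ z ∈ Z, a * z = g := by
  have := ph_normal hZ
  exact Subgroup.mem_sup_of_normal_right.1 hg

private theorem ph_comm (hZ : Z ≤ Subgroup.center G) (i j : ℕ) :
    ⁅gam G i ⊔ Z, gam G j ⊔ Z⁆ ≤ gam G (i + j) := by
  rw [Subgroup.commutator_le]
  intro g hg h hh
  obtain ⟨a, ha, z, hz, rfl⟩ := ph_mem hZ hg
  obtain ⟨b, hb, w, hw, rfl⟩ := ph_mem hZ hh
  have hz' := Subgroup.mem_center_iff.1 (hZ hz)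
  have hw' := Subgroup.mem_center_iff.1 (hZ hw)
  have h1 : ⁅a * z, b * w⁆ = ⁅a, b⁆ := by
    have e1 : a * z * (b * w) = a * b * (z * w) := by
      rw [mul_assoc a z, ← mul_assoc z b, ← hz' b, mul_assoc b z, ← mul_assoc]
    have e2 : b * w * (a * z) = b * a * (z * w) := by
      rw [mul_assoc b w, ← mul_assoc w a, ← hw' a, mul_assoc a w, ← mul_assoc, hw' z]
    rw [commutatorElement_def, commutatorElement_def]
    have e3 : a * z * (b * w) * (a * z)⁻¹ * (b * w)⁻¹ =
        (a * z * (b * w)) * (b * w * (a * z))⁻¹ := by group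
    have e4 : a * b * a⁻¹ * b⁻¹ = (a * b) * (b * a)⁻¹ := by group
    rw [e3, e4, e1, e2]
    group
  rw [h1]
  exact gam_comm i j (Subgroup.commutator_mem_commutator ha hb)

private theorem ph_nser (hc : gam G p = ⊥) (hZ : Z ≤ Subgroup.center G)
    (hZp : ∀ z ∈ Z, z ^ p = 1) (hG : ∀ g : G, g ^ p ∈ Z) (h2 : ∀ g ∈ gam G 2, g ^ p = 1) :
    NSer p (phS p Z) := by
  have hp2 := hp.out.two_le
  have htop : ∀ i, i ≤ 1 → gam G i = ⊤ := by
    intro i hi
    have : i - 1 = 0 := by omega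
    unfold gam
    rw [this]
    rfl
  refine ⟨?_, ?_, ?_, ?_, ?_⟩
  · rw [phS_le (by omega), htop 1 le_rfl, top_sup_eq]
  · intro i j hij
    by_cases hj : j ≤ p
    · rw [phS_le hj, phS_le (hij.trans hj)]
      exact sup_le_sup_right (gam_anti hij) _
    · rw [phS_gt (not_le.1 hj)]
      exact bot_le
  · intro i j
    by_cases hi : i ≤ p
    · by_cases hj : j ≤ p
      · rw [phS_le hi, phS_le hj]
        refine (ph_comm hZ i j).trans ?_
        by_cases hij : i + j ≤ p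
        · rw [phS_le hij]
          exact le_sup_left
        · refine (gam_anti (not_le.1 hij).le).trans ?_
          rw [hc]
          exact bot_le
      · rw [phS_gt (not_le.1 hj), Subgroup.commutator_bot_right]
        exact bot_le
    · rw [phS_gt (not_le.1 hi), Subgroup.commutator_bot_left]
      exact bot_le
  · intro i g hg
    by_cases hi : i ≤ p
    · rcases Nat.lt_or_ge i 2 with hi2 | hi2
      · rcases Nat.eq_zero_or_pos i with h0 | h0
        · subst h0
          rw [mul_zero, phS_le (Nat.zero_le p), htop 0 (Nat.zero_le 1), top_sup_eq]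
          trivial
        · have h1 : i = 1 := by omega
          subst h1
          rw [mul_one, phS_le le_rfl]
          exact (le_sup_right : Z ≤ _) (hG g)
      · rw [phS_le hi] at hg
        obtain ⟨a, ha, z, hz, rfl⟩ := ph_mem hZ hg
        have h3 : Commute a z := Subgroup.mem_center_iff.1 (hZ hz) a
        rw [h3.mul_pow, h2 a (gam_anti hi2 ha), hZp z hz, one_mul]
        exact Subgroup.one_mem _
    · rw [phS_gt (not_le.1 hi), Subgroup.mem_bot] at hg
      rw [hg, one_pow]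
      exact Subgroup.one_mem _
  · exact ⟨p + 1, phS_gt (Nat.lt_succ_self p)⟩

/-- iterated brackets -/
private theorem ph_brack {S : ℕ → Subgroup G} (hS : NSer p S)
    (hle : ∀ i, i ≤ p → gam G i ≤ S i) (x y : G) (l : List (MonoidAlgebra (ZMod p) G))
    (hl : ∀ z ∈ l, z = MonoidAlgebra.of (ZMod p) G x - 1 ∨ z = MonoidAlgebra.of (ZMod p) G y - 1)
    (hlen : l.length + 1 ≤ p) : ∃ c ∈ gam G (l.length + 1),
      l.foldr (fun z b => z * b - b * z) (MonoidAlgebra.of (ZMod p) G x - 1) -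
        (MonoidAlgebra.of (ZMod p) G c - 1) ∈ NJ p S (l.length + 2) := by
  induction l with
  | nil =>
    refine ⟨x, ?_, ?_⟩
    · exact Subgroup.mem_top x
    · rw [List.foldr_nil, sub_self]
      exact Submodule.zero_mem _
  | cons z l ih =>
    obtain ⟨c, hc, hn⟩ := ih (fun z hz => hl z (List.mem_cons_of_mem _ hz))
      (by rw [List.length_cons] at hlen; omega)
    obtain ⟨w, hw⟩ : ∃ w : G, z = MonoidAlgebra.of (ZMod p) G w - 1 := by
      rcases hl z List.mem_cons_self with h | h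
      · exact ⟨x, h⟩
      · exact ⟨y, h⟩
    rw [List.length_cons] at hlen
    have hz1 : z ∈ NJ p S 1 := by
      rw [hw]
      exact of_sub_one_mem (by rw [hS.one]; trivial)
    set B := l.foldr (fun z b => z * b - b * z) (MonoidAlgebra.of (ZMod p) G x - 1) with hB
    set n := B - (MonoidAlgebra.of (ZMod p) G c - 1) with hn'
    have hu : ⁅w, c⁆ ∈ gam G (l.length + 1 + 1) := by
      refine gam_top _ ?_
      rw [Subgroup.commutator_comm]
      exact Subgroup.commutator_mem_commutator (Subgroup.mem_top w) hc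
    refine ⟨⁅w, c⁆, hu, ?_⟩
    rw [List.foldr_cons, ← hB, List.length_cons]
    have e1 : MonoidAlgebra.of (ZMod p) G w * MonoidAlgebra.of (ZMod p) G c =
        MonoidAlgebra.of (ZMod p) G ⁅w, c⁆ * MonoidAlgebra.of (ZMod p) G (c * w) := by
      rw [← map_mul, ← map_mul]
      congr 1
      rw [commutatorElement_def]
      group
    have e2 : MonoidAlgebra.of (ZMod p) G (c * w) =
        MonoidAlgebra.of (ZMod p) G c * MonoidAlgebra.of (ZMod p) G w := map_mul _ _ _
    have e3 : B = MonoidAlgebra.of (ZMod p) G c - 1 + n := by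
      rw [hn']
      abel
    have e4 : z * B - B * z - (MonoidAlgebra.of (ZMod p) G ⁅w, c⁆ - 1) =
        (MonoidAlgebra.of (ZMod p) G ⁅w, c⁆ - 1) * (MonoidAlgebra.of (ZMod p) G (c * w) - 1) +
        (z * n - n * z) := by
      have e5 : (MonoidAlgebra.of (ZMod p) G w - 1) * (MonoidAlgebra.of (ZMod p) G c - 1) -
          (MonoidAlgebra.of (ZMod p) G c - 1) * (MonoidAlgebra.of (ZMod p) G w - 1) -
          (MonoidAlgebra.of (ZMod p) G ⁅w, c⁆ - 1) =
          (MonoidAlgebra.of (ZMod p) G ⁅w, c⁆ - 1) *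
            (MonoidAlgebra.of (ZMod p) G (c * w) - 1) := by
        have e6 : (MonoidAlgebra.of (ZMod p) G w - 1) * (MonoidAlgebra.of (ZMod p) G c - 1) =
            MonoidAlgebra.of (ZMod p) G w * MonoidAlgebra.of (ZMod p) G c -
            MonoidAlgebra.of (ZMod p) G w - MonoidAlgebra.of (ZMod p) G c + 1 := by
          noncomm_ring
        rw [e6, e1, e2]
        noncomm_ring
      rw [← e5, e3, hw]
      noncomm_ring
    rw [e4]
    have hS1 : ∀ g : G, MonoidAlgebra.of (ZMod p) G g - 1 ∈ NJ p S 1 := fun g =>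
      of_sub_one_mem (by rw [hS.one]; trivial)
    refine Submodule.add_mem _ ?_ (Submodule.sub_mem _ ?_ ?_)
    · have h5 : l.length + 1 + 1 ≤ p := hlen
      exact NJ_mul (m := l.length + 1 + 1) (n := 1) (of_sub_one_mem (hle _ h5 hu)) (hS1 _)
    · exact NJ_anti (by omega) (NJ_mul hz1 hn)
    · exact NJ_anti (by omega) (NJ_mul hn hz1)

private theorem ph_pow {S : ℕ → Subgroup G} (hS : NSer p S) {a b : MonoidAlgebra (ZMod p) G}
    (ha : a ∈ NJ p S 1) (hb : b ∈ NJ p S 2) (n : ℕ) :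
    a ^ n ∈ NJ p S n ∧ (a + b) ^ n - a ^ n ∈ NJ p S (n + 1) := by
  induction n with
  | zero =>
    rw [pow_zero, pow_zero, sub_self, NJ_zero hS]
    exact ⟨trivial, Submodule.zero_mem _⟩
  | succ n ih =>
    constructor
    · rw [pow_succ]
      exact NJ_mul ih.1 ha
    · have e : (a + b) ^ (n + 1) - a ^ (n + 1) = (a + b) * ((a + b) ^ n - a ^ n) + b * a ^ n := by
        rw [pow_succ', pow_succ' a]
        noncomm_ring
      rw [e]
      have hab : a + b ∈ NJ p S 1 := Submodule.add_mem _ ha (NJ_anti (by omega) hb)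
      exact Submodule.add_mem _ (NJ_anti (by omega) (NJ_mul hab ih.2))
        (NJ_anti (by omega) (NJ_mul hb ih.1))

end

theorem p_pow_mul {p : ℕ} [hp : Fact p.Prime] {G : Type*} [Group G] [Finite G]
    (hc : gam G p = ⊥) (Z : Subgroup G) (hZ : Z ≤ Subgroup.center G) (hZp : ∀ z ∈ Z, z ^ p = 1)
    (hG : ∀ g : G, g ^ p ∈ Z) (h2 : ∀ g ∈ gam G 2, g ^ p = 1) (x y : G) :
    (x * y) ^ p = x ^ p * y ^ p := by
  have hp2 := hp.out.two_le
  have hS := ph_nser hc hZ hZp hG h2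
  have hle : ∀ i, i ≤ p → gam G i ≤ phS p Z i := by
    intro i hi
    rw [phS_le hi]
    exact le_sup_left
  haveI : CharP (MonoidAlgebra (ZMod p) G) p :=
    charP_of_injective_algebraMap (algebraMap (ZMod p) (MonoidAlgebra (ZMod p) G)).injective p
  set o := MonoidAlgebra.of (ZMod p) G with ho
  have h1 : ∀ g : G, o g - 1 ∈ NJ p (phS p Z) 1 := fun g =>
    of_sub_one_mem (by rw [hS.one]; trivial)
  have hpw : ∀ g : G, (o g - 1) ^ p = o (g ^ p) - 1 := by
    intro g
    rw [sub_pow_char_of_commute p (Commute.one_right _), one_pow, map_pow]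
  have hj := jac (NJ p (phS p Z) (p + 1)).toAddSubgroup (o x - 1) (o y - 1) fun l hl hlen => by
    obtain ⟨c, hc', hn⟩ := ph_brack hS hle x y l hl (by omega)
    have e1 : l.length + 1 = p := by omega
    rw [e1, hc, Subgroup.mem_bot] at hc'
    rw [hc', map_one, sub_self, sub_zero] at hn
    have e2 : l.length + 2 = p + 1 := by omega
    rw [e2] at hn
    exact hn
  have hj' : (o x - 1 + (o y - 1)) ^ p - (o x - 1) ^ p - (o y - 1) ^ p ∈
    NJ p (phS p Z) (p + 1) := hj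
  have hxy : o (x * y) - 1 = (o x - 1 + (o y - 1)) + (o x - 1) * (o y - 1) := by
    rw [map_mul]
    noncomm_ring
  have hA : o x - 1 + (o y - 1) ∈ NJ p (phS p Z) 1 := Submodule.add_mem _ (h1 x) (h1 y)
  have hB : (o x - 1) * (o y - 1) ∈ NJ p (phS p Z) 2 := NJ_mul (m := 1) (n := 1) (h1 x) (h1 y)
  have h3 := (ph_pow hS hA hB p).2
  rw [← hxy] at h3
  have h4 := Submodule.add_mem _ h3 hj'
  have h5 : (o (x * y) - 1) ^ p - (o x - 1 + (o y - 1)) ^ p +
      ((o x - 1 + (o y - 1)) ^ p - (o x - 1) ^ p - (o y - 1) ^ p) =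
      (o ((x * y) ^ p) - 1) - (o (x ^ p) - 1) - (o (y ^ p) - 1) := by
    rw [hpw, hpw, hpw]
    abel
  rw [h5] at h4
  have hZS : ∀ g : G, g ^ p ∈ phS p Z p := by
    intro g
    rw [phS_le le_rfl]
    exact (le_sup_right : Z ≤ _) (hG g)
  have h6 : (o (x ^ p) - 1) * (o (y ^ p) - 1) ∈ NJ p (phS p Z) (p + 1) :=
    NJ_anti (by omega) (NJ_mul (of_sub_one_mem (hZS x)) (of_sub_one_mem (hZS y)))
  have h7 := NJ_mul_right hS (Submodule.sub_mem _ h4 h6) (o (x ^ p * y ^ p)⁻¹)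
  have h8 : ((o ((x * y) ^ p) - 1) - (o (x ^ p) - 1) - (o (y ^ p) - 1) -
      (o (x ^ p) - 1) * (o (y ^ p) - 1)) * o (x ^ p * y ^ p)⁻¹ =
      o ((x * y) ^ p * (x ^ p * y ^ p)⁻¹) - 1 := by
    have e1 : (o ((x * y) ^ p) - 1) - (o (x ^ p) - 1) - (o (y ^ p) - 1) -
      (o (x ^ p) - 1) * (o (y ^ p) - 1) = o ((x * y) ^ p) - o (x ^ p * y ^ p) := by
      rw [map_mul o (x ^ p) (y ^ p)]
      noncomm_ring
    rw [e1, sub_mul, ← map_mul, ← map_mul, mul_inv_cancel, map_one]
  rw [h8] at h7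
  have h9 := (JL hS (p + 1) _).1 h7
  rw [phS_gt (Nat.lt_succ_self p), Subgroup.mem_bot] at h9
  exact mul_inv_eq_one.1 h9

end BAC
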