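import Mathlib
import Pool.Agent.Helper32.Curve

/-!
Definitions for the statement of the hand-in `MP_aa31c6_ag.QuotientsBelowP`.
-/

namespace BAC

open Pool.Agent.Helper32

universe u w

/-- the term `γ_p` of the lower central series of `Q`, where `γ_1 = Q` and
`γ_(i+1) = [γ_i, Q]` -/
def gammaP (p : ℕ) (Q : Type*) [Group Q] : Subgroup Q :=
  (⊤ : Subgroup Q).lowerCentralSeries (p - 1)

instance gammaP_normal (p : ℕ) (Q : Type*) [Group Q] : (gammaP p Q).Normal := by
  unfold gammaP
  infer_instance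

/-- `Q` is isomorphic to `G / γ_p (G)` -/
def IsQuotientByGammaP (p : ℕ) (G Q : Type*) [Group G] [Group Q] : Prop :=
  Nonempty (G ⧸ gammaP p G ≃* Q)

/-- `Q` is isomorphic to the group `G` of a big action `(F, G, P)` over `k` -/
def IsBigGroup (p : ℕ) (k : Type u) [Field k] (Q : Type w) [Group Q] : Prop :=
  ∃ (F : Type u) (_ : Field F) (_ : Algebra k F) (G : Subgroup (F ≃ₐ[k] F)) (P : Place k F),
    IsBigAction p G P ∧ Nonempty (G ≃* Q)

/-- `Q` is isomorphic to `G / γ_p (G)` for a big action `(F, G, P)` over `k` -/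
def IsBigQuotient (p : ℕ) (k : Type u) [Field k] (Q : Type w) [Group Q] : Prop :=
  ∃ (F : Type u) (_ : Field F) (_ : Algebra k F) (G : Subgroup (F ≃ₐ[k] F)) (P : Place k F),
    IsBigAction p G P ∧ IsQuotientByGammaP p G Q

end BAC
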