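import Pool.Agent.BAC.UExists

/-!
BAC / U7 (blueprint 1.3, 1.5, 1.6). The step between two fields of `U`, chains, and condition (N).

`UU.step`: `as_gen`, `TT.adj`, `TT.unique`.
`UU.between`: `E < E'` in `U`: `N = Gal(E'/E)` is a nontrivial normal subgroup of the `p`-group
`G = Gal(E'/K)`, so `N ∩ Z(G) ≠ 1` contains `Z` of order `p`, and `E'' = (E')^Z` is Galois over `K`,
`E ≤ E'' ≤ E'`, `[E':E''] = p`; `UU.sub`. (Fixed fields as intermediate fields of `Ω / K`:
`IntermediateField.lift`.)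
`cond_lt`: from `κ' = p κ + (p-1) l`, `l > 0`, `κ ≥ -1` and `NN p (n+1) κ'`, i.e.
`p (κ' + 1) < (p-1) p^(n+1)`, so `κ' + 1 < (p-1) p^n`: `(p-1) l = κ' - p κ < (p-1) p^n - 1 - p κ
≤ (p-1) (p^n - κ)`. And `NN p n κ`: `κ' + 1 ≥ p (κ + 1)`.
`UU.NN_mono`: induction with `UU.between`, `UU.step`, `cond_lt`.
-/

namespace BAC

open Polynomial WithZero IntermediateField Pool.Agent.Helper32

variable {p : ℕ} [hp : Fact p.Prime] {k K Ω : Type*} [Field k] [IsAlgClosed k] [Field K]
  [Field Ω] [Algebra k K] [Algebra K Ω] [Algebra k Ω] [IsScalarTower k K Ω] [CharP k p]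
  [CharP K p] [CharP Ω p] [IsSepClosure K Ω] {x : K} {vK : VI K} {D : Derivation k Ω Ω}

omit [IsAlgClosed k] [Field k] [Field K] [Field Ω] [Algebra k K] [Algebra K Ω] [Algebra k Ω]
  [IsScalarTower k K Ω] [CharP k p] [CharP K p] [CharP Ω p] [IsSepClosure K Ω] in
private theorem ust_central {G : Type*} [Group G] [Finite G] (hG : IsPGroup p G)
    (N : Subgroup G) [hN : N.Normal] (hne : N ≠ ⊥) :
    ∃ Z : Subgroup G, Z ≤ N ∧ Z.Normal ∧ Nat.card Z = p := by
  have hG' : IsPGroup p (ConjAct G) := hG.of_equiv ConjAct.toConjAct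
  have hd : p ∣ Nat.card N := by
    rcases (hG.to_subgroup N).card_eq_or_dvd with h | h
    · exact absurd (Subgroup.card_eq_one.1 h) hne
    · exact h
  have h1 : (1 : N) ∈ MulAction.fixedPoints (ConjAct G) N := fun g => smul_one g
  obtain ⟨b, hb, hb1⟩ := hG'.exists_fixed_point_of_prime_dvd_card_of_fixed_point N hd h1
  have hbc : (b : G) ∈ Subgroup.center G := by
    rw [Subgroup.mem_center_iff]
    intro g
    have h2 := congrArg Subtype.val (hb (ConjAct.toConjAct g))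
    rw [ConjAct.Subgroup.val_conj_smul, ConjAct.toConjAct_smul] at h2
    rw [← mul_inv_eq_iff_eq_mul]
    exact h2
  have hM : (b : G) ∈ N ⊓ Subgroup.center G := ⟨b.2, hbc⟩
  have hMd : p ∣ Nat.card (N ⊓ Subgroup.center G : Subgroup G) := by
    rcases (hG.to_subgroup (N ⊓ Subgroup.center G)).card_eq_or_dvd with h | h
    · exfalso
      rw [Subgroup.card_eq_one] at h
      rw [h, Subgroup.mem_bot] at hM
      exact hb1 (Subtype.ext hM.symm)
    · exact h
  obtain ⟨z, hz⟩ := exists_prime_orderOf_dvd_card' p hMd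
  refine ⟨Subgroup.zpowers (z : G), ?_, ⟨fun n hn g => ?_⟩, ?_⟩
  · rw [Subgroup.zpowers_le]
    exact z.2.1
  · have h2 : n ∈ Subgroup.center G := by
      have h3 : Subgroup.zpowers (z : G) ≤ Subgroup.center G := by
        rw [Subgroup.zpowers_le]
        exact z.2.2
      exact h3 hn
    rw [Subgroup.mem_center_iff] at h2
    rw [h2 g, mul_inv_cancel_right]
    exact hn
  · rw [Nat.card_zpowers, Subgroup.orderOf_coe, hz]

theorem UU.step (B : Base p k x vK) (hD : D (algebraMap K Ω x) = 1)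
    {E E' : IntermediateField K Ω} {n : ℕ} {κ κ' : ℤ} {v : VI E} {v' : VI E'}
    (U : UU p k x D E n κ v) (U' : UU p k x D E' (n + 1) κ' v') (hE : E ≤ E') :
    ∃ (l : ℤ) (w : Ω) (f c : E), 0 < l ∧ ¬ (p : ℤ) ∣ l ∧ κ' = p * κ + (p - 1) * l ∧ w ∈ E' ∧
      w ∉ E ∧ w ^ p - w = (f : Ω) ∧ f ∈ Rint k (algebraMap K E x) ∧
      v (f - (c ^ p - c)) = exp l ∧ (∀ a : E, v' (inclusion hE a) = v a ^ p) ∧
      (∃ h : w - (c : Ω) ∈ E', v' ⟨w - c, h⟩ = exp l) ∧
      E' = E ⊔ IntermediateField.adjoin K {w} := by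
  have hfd : FiniteDimensional K E' := U'.fin
  have hg : IsGalois K E := U.gal
  have hg' : IsGalois K E' := U'.gal
  obtain ⟨w, f, hwE', hwE, hwf, hf, rfl⟩ := as_gen (p := p) hE
    (by rw [U.rank, U'.rank, pow_succ, mul_comm]) U'.tr
  obtain ⟨l, c, v'', hl0, hl, hc, hv, hw', T⟩ := TT.adj B hD U.toTT hwf hf hwE
  obtain ⟨-, hκ, hvv⟩ := T.unique U'.toTT
  subst hvv
  exact ⟨l, w, f, c, hl0, hl, hκ, hwE', hwE, hwf, hf, hc, hv, hw', rfl⟩

theorem UU.between (B : Base p k x vK) (hD : D (algebraMap K Ω x) = 1)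
    {E E' : IntermediateField K Ω} {n n' : ℕ} {κ κ' : ℤ} {v : VI E} {v' : VI E'}
    (U : UU p k x D E n κ v) (U' : UU p k x D E' n' κ' v') (hE : E ≤ E') (hne : E ≠ E') :
    ∃ (E₁ : IntermediateField K Ω) (n₁ : ℕ) (κ₁ : ℤ) (v₁ : VI E₁), E ≤ E₁ ∧ E₁ ≤ E' ∧
      n' = n₁ + 1 ∧ UU p k x D E₁ n₁ κ₁ v₁ := by
  have hfd : FiniteDimensional K E' := U'.fin
  have hg : IsGalois K E := U.gal
  have hg' : IsGalois K E' := U'.gal
  have hcard : Nat.card (E' ≃ₐ[K] E') = p ^ n' := by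
    rw [IsGalois.card_aut_eq_finrank, U'.rank]
  have hG : IsPGroup p (E' ≃ₐ[K] E') := IsPGroup.of_card hcard
  set E₀ : IntermediateField K E' := IntermediateField.restrict hE with hE₀
  have hE₀g : IsGalois K E₀ := IsGalois.of_algEquiv (IntermediateField.restrictAlgEquiv hE)
  have hNn : E₀.fixingSubgroup.Normal := inferInstance
  have hNne : E₀.fixingSubgroup ≠ ⊥ := by
    intro h
    apply hne
    have h1 : E₀ = ⊤ := by
      rw [← IsGalois.fixedField_fixingSubgroup E₀, h, IntermediateField.fixedField_bot]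
    refine le_antisymm hE fun a ha => ?_
    have h2 : (⟨a, ha⟩ : E') ∈ E₀ := by
      rw [h1]
      exact IntermediateField.mem_top
    exact (IntermediateField.mem_restrict hE _).1 h2
  obtain ⟨Z, hZN, hZn, hZc⟩ := ust_central hG E₀.fixingSubgroup hNne
  have hFg : IsGalois K (IntermediateField.fixedField Z) := inferInstance
  have hLg : IsGalois K (IntermediateField.lift (IntermediateField.fixedField Z)) :=
    IsGalois.of_algEquiv (IntermediateField.liftAlgEquiv (IntermediateField.fixedField Z))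
  have hLE : IntermediateField.lift (IntermediateField.fixedField Z) ≤ E' :=
    IntermediateField.lift_le _
  obtain ⟨n₁, κ₁, v₁, U₁⟩ := UU.sub B hD U' hLE
  refine ⟨_, n₁, κ₁, v₁, ?_, hLE, ?_, U₁⟩
  · intro a ha
    have h1 : (⟨a, hE ha⟩ : E') ∈ IntermediateField.fixedField Z := by
      rw [IntermediateField.mem_fixedField_iff]
      intro z hz
      have h2 := (IntermediateField.mem_fixingSubgroup_iff E₀ z).1 (hZN hz) ⟨a, hE ha⟩
        ((IntermediateField.mem_restrict hE _).2 ha)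
      exact h2
    exact (IntermediateField.mem_lift (⟨a, hE ha⟩ : E')).2 h1
  · have h1 := IntermediateField.finrank_fixedField_eq_card Z
    have h2 := Module.finrank_mul_finrank K (IntermediateField.fixedField Z) E'
    rw [h1, hZc, U'.rank, (IntermediateField.liftAlgEquiv
      (IntermediateField.fixedField Z)).toLinearEquiv.finrank_eq, U₁.rank, ← pow_succ] at h2
    exact (Nat.pow_right_injective hp.out.two_le h2).symm

theorem cond_lt {n : ℕ} {κ κ' l : ℤ} (hp2 : 2 ≤ p) (hκ : -1 ≤ κ) (hl : 0 < l)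
    (h : κ' = p * κ + (p - 1) * l) (hN : NN p (n + 1) κ') :
    NN p n κ ∧ l < (p : ℤ) ^ n - κ := by
  unfold NN at *
  have hp0 : (0 : ℤ) < p := by exact_mod_cast hp.out.pos
  have hp1 : (2 : ℤ) ≤ p := by exact_mod_cast hp2
  have h1 : κ' + 1 < ((p : ℤ) - 1) * (p : ℤ) ^ n := by
    have h2 : (p : ℤ) * (κ' + 1) < p * (((p : ℤ) - 1) * (p : ℤ) ^ n) := by
      calc (p : ℤ) * (κ' + 1) < ((p : ℤ) - 1) * (p : ℤ) ^ (n + 1) := hN
        _ = p * (((p : ℤ) - 1) * (p : ℤ) ^ n) := by rw [pow_succ]; ring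
    exact lt_of_mul_lt_mul_left h2 hp0.le
  constructor
  · have h3 : ((p : ℤ) - 1) * 1 ≤ (p - 1) * l := mul_le_mul_of_nonneg_left (by omega) (by omega)
    linarith
  · have h4 : ((p : ℤ) - 1) * l < (p - 1) * ((p : ℤ) ^ n - κ) := by
      linarith
    exact lt_of_mul_lt_mul_left h4 (by omega)

theorem UU.NN_mono (B : Base p k x vK) (hD : D (algebraMap K Ω x) = 1)
    {E E' : IntermediateField K Ω} {n n' : ℕ} {κ κ' : ℤ} {v : VI E} {v' : VI E'}
    (U : UU p k x D E n κ v) (U' : UU p k x D E' n' κ' v') (hE : E ≤ E') (hN : NN p n' κ') :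
    NN p n κ := by
  induction n' generalizing E' κ' with
  | zero =>
    by_cases hne : E = E'
    · subst hne
      obtain ⟨h1, h2, -⟩ := U'.toTT.unique U.toTT
      subst h1 h2
      exact hN
    · obtain ⟨E₁, n₁, κ₁, v₁, -, -, h1, -⟩ := UU.between B hD U U' hE hne
      omega
  | succ m ih =>
    by_cases hne : E = E'
    · subst hne
      obtain ⟨h1, h2, -⟩ := U'.toTT.unique U.toTT
      subst h1 h2
      exact hN
    · obtain ⟨E₁, n₁, κ₁, v₁, h1, h2, h3, U₁⟩ := UU.between B hD U U' hE hne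
      have h4 : n₁ = m := by omega
      subst h4
      obtain ⟨l, w, f, c, hl0, -, hκ, -⟩ := UU.step B hD U₁ U' h2
      exact ih U₁ h1 (cond_lt hp.out.two_le U₁.toTT.kappa hl0 hκ hN).1

end BAC
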