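import Pool.Agent.BAC.HomField
import Pool.Agent.BAC.UStep
import Pool.Agent.Helper32.AS25

/-!
BAC / R1 (blueprint section 7). Ramification on the fields of `U`, basic facts.

For `E ∈ U` (Galois) and `σ ∈ Gal(Ω/K)` the restriction `σ_E : E ≃ₐ[k] E` (`stable_of_isGalois`,
`σ.restrictNormal E` with scalars restricted to `k`) fixes `x`, so `IsLevel.aut_mem` (`a = 0`), `aut_val` (helper32 AS19)
apply to `U.lvl`'s level: `ram_val`. `σ_E` has `p`-power order (`Gal(E/K)` has order `p ^ n`): `IsLevel.wild`,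
`IsLevel.ram_of_unif`: `ram_two`. `ram_two_mul`: `IsLevel.wild_mul` (AS25). `Ram.comm`: `IsLevel.comm_ram` and
`ram_of_unif`, as in `IsLevel.commutator_le` (AS20). `ram_of_unif'`: `IsLevel.ram_of_unif`.
`ram_three_mul`: `f = t ^ (-j) y` with `v y = 1`: `σ f / f = (σ t / t)^(-j) (σ y / y)`, `v (σ t / t - 1) ≤ exp (-2)`
(`v (σ t - t) ≤ exp (-3)`), `v (σ y / y - 1) ≤ exp (-3)`, and the elements `1 + z`, `v z ≤ exp (-2)`, form a group.
`ram_order`: `s` with `v s = exp (-1)`, `b_s = σ s`, `v (b_s - s) = exp (-2)`, i.e. `ε = σ s / s - 1`, `v ε = exp (-1)`;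
`f = s^(-j) y`, `v y = 1`, `v (σ y - y) ≤ exp (-2)` (`ram_two`): `σ f / f - 1 = (1 + ε)^(-j) (1 + z) - 1` with
`v z ≤ exp (-2)`, `= - j ε` modulo `v ≤ exp (-2)`, and `v (j) = 1` as `p ∤ j`. So `v (σ f - f) = exp (j - 1)`.
-/

namespace BAC

open Polynomial WithZero IntermediateField Pool.Agent.Helper32

/-- `σ` acts trivially on the valuation ring of `E` modulo the `i`-th power of the maximal ideal -/
def Ram {K Ω : Type*} [Field K] [Field Ω] [Algebra K Ω] (E : IntermediateField K Ω) (v : VI E)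
    (i : ℕ) (σ : Ω ≃ₐ[K] Ω) : Prop :=
  ∀ a b : E, (b : Ω) = σ a → v a ≤ 1 → v (b - a) ≤ exp (-(i : ℤ))

set_option linter.unusedSectionVars false

variable {p : ℕ} [hp : Fact p.Prime] {k K Ω : Type*} [Field k] [IsAlgClosed k] [Field K]
  [Field Ω] [Algebra k K] [Algebra K Ω] [Algebra k Ω] [IsScalarTower k K Ω] [CharP k p]
  [CharP K p] [CharP Ω p] [IsSepClosure K Ω] {x : K} {vK : VI K} {D : Derivation k Ω Ω}
  {E : IntermediateField K Ω} {n : ℕ} {κ : ℤ} {v : VI E} {σ τ : Ω ≃ₐ[K] Ω}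

omit [IsAlgClosed k] [CharP K p] [CharP Ω p] [IsSepClosure K Ω] in
private theorem ram_res (U : UU p k x D E n κ v) (σ : Ω ≃ₐ[K] Ω) :
    ∃ s : E ≃ₐ[k] E, (∀ a : E, ((s a : E) : Ω) = σ a) ∧ (∀ z, v (s z) = v z) ∧
      (∃ m, s ^ p ^ m = 1) := by
  have hg : IsGalois K E := U.gal
  have hfd : FiniteDimensional K E := U.fin
  obtain ⟨D', hD', L⟩ := U.lvl
  obtain ⟨g, L⟩ := L.lev
  let s0 : E ≃ₐ[K] E := σ.restrictNormal E
  have hs0 : ∀ a : E, ((s0 a : E) : Ω) = σ a := fun a => AlgEquiv.restrictNormal_commutes σ E a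
  let s : E ≃ₐ[k] E := s0.restrictScalars k
  have hs : ∀ a : E, s a = s0 a := fun a => rfl
  have hx : s (algebraMap K E x) = algebraMap K E x + algebraMap k E 0 := by
    rw [hs, AlgEquiv.commutes, map_zero, add_zero]
  obtain ⟨t, ht⟩ := L.v_unif
  refine ⟨s, fun a => by rw [hs, hs0], fun z => aut_val (L.aut_mem hx) ht z, n, ?_⟩
  have h1 : s0 ^ p ^ n = 1 := by
    have h2 : Nat.card (E ≃ₐ[K] E) = p ^ n := by
      rw [IsGalois.card_aut_eq_finrank, U.rank]
    rw [← h2]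
    exact pow_card_eq_one'
  have h3 : ∀ (m : ℕ) (a : E), (s ^ m) a = (s0 ^ m) a := by
    intro m
    induction m with
    | zero => intro a; rfl
    | succ m ih =>
      intro a
      rw [pow_succ, pow_succ]
      change (s ^ m) (s a) = (s0 ^ m) (s0 a)
      rw [ih, hs]
  ext a
  rw [h3, h1]
  rfl

private theorem ram_iff {s : E ≃ₐ[k] E} (hs : ∀ a : E, ((s a : E) : Ω) = σ a) {i : ℕ} :
    Ram E v i σ ↔ ∀ a : E, v a ≤ 1 → v (s a - a) ≤ exp (-(i : ℤ)) := by
  constructor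
  · intro h a ha
    exact h a (s a) (hs a) ha
  · intro h a b hb ha
    have h1 : b = s a := Subtype.ext (by rw [hb, hs])
    rw [h1]
    exact h a ha

theorem ram_val (U : UU p k x D E n κ v) {a b : E} (h : (b : Ω) = σ a) : v b = v a := by
  obtain ⟨s, hs, hv, -⟩ := ram_res U σ
  have h1 : b = s a := Subtype.ext (by rw [h, hs])
  rw [h1, hv]

theorem ram_two (U : UU p k x D E n κ v) (σ : Ω ≃ₐ[K] Ω) : Ram E v 2 σ := by
  obtain ⟨s, hs, hv, m, hm⟩ := ram_res U σ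
  obtain ⟨D', hD', L⟩ := U.lvl
  obtain ⟨g, L⟩ := L.lev
  obtain ⟨t, ht⟩ := L.v_unif
  rw [ram_iff hs]
  intro a ha
  exact L.ram_of_unif hv ht (i := 2) (by simpa using L.wild hv hm ht) ha

theorem ram_two_mul (U : UU p k x D E n κ v) {a b : E} (h : (b : Ω) = σ a) :
    v (b - a) ≤ exp (-1 : ℤ) * v a := by
  obtain ⟨s, hs, hv, m, hm⟩ := ram_res U σ
  obtain ⟨D', hD', L⟩ := U.lvl
  obtain ⟨g, L⟩ := L.lev
  have h1 : b = s a := Subtype.ext (by rw [h, hs])
  rw [h1]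
  by_cases ha : a = 0
  · subst ha
    simp
  · exact L.wild_mul hv (fun t ht => L.wild hv hm ht) ha

theorem Ram.mul (U : UU p k x D E n κ v) {i : ℕ} (h : Ram E v i σ) (h' : Ram E v i τ) :
    Ram E v i (σ * τ) := by
  obtain ⟨s, hs, hv, -⟩ := ram_res U σ
  obtain ⟨t, ht, htv, -⟩ := ram_res U τ
  intro a b hb ha
  have h1 : b = s (t a) := Subtype.ext (by rw [hb, hs, ht]; rfl)
  have h2 := (ram_iff hs).1 h (t a) (by rw [htv]; exact ha)
  have h3 := (ram_iff ht).1 h' a ha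
  have h4 : b - a = (s (t a) - t a) + (t a - a) := by rw [h1]; ring
  rw [h4]
  exact (v.map_add _ _).trans (max_le h2 h3)

theorem Ram.inv (U : UU p k x D E n κ v) {i : ℕ} (h : Ram E v i σ) : Ram E v i σ⁻¹ := by
  intro a b hb ha
  have h1 : (a : Ω) = σ b := by
    rw [hb]
    exact (AlgEquiv.apply_symm_apply σ (a : Ω)).symm
  have h2 := ram_val U h1
  have h3 := h b a h1 (by rw [← h2]; exact ha)
  rwa [Valuation.map_sub_swap] at h3

theorem ram_fx {i : ℕ} (h : Fx E σ) : Ram E v i σ := by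
  intro a b hb ha
  have h1 : b = a := Subtype.ext (by rw [hb]; exact h a a.2)
  rw [h1, sub_self, map_zero]
  exact zero_le

theorem ram_of_unif' (U : UU p k x D E n κ v) {i : ℕ} {s b : E} (hs : v s = exp (-1 : ℤ))
    (hb : (b : Ω) = σ s) (h : v (b - s) ≤ exp (-(i : ℤ))) : Ram E v i σ := by
  obtain ⟨r, hr, hv, -⟩ := ram_res U σ
  obtain ⟨D', hD', L⟩ := U.lvl
  obtain ⟨g, L⟩ := L.lev
  have h1 : b = r s := Subtype.ext (by rw [hb, hr])
  rw [ram_iff hr]
  intro a ha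
  exact L.ram_of_unif hv hs (by rw [← h1]; exact h) ha

theorem Ram.comm (U : UU p k x D E n κ v) (σ τ : Ω ≃ₐ[K] Ω) : Ram E v 3 (σ * τ * σ⁻¹ * τ⁻¹) := by
  obtain ⟨s, hs, hv, m, hm⟩ := ram_res U σ
  obtain ⟨t, ht, htv, m', hm'⟩ := ram_res U τ
  obtain ⟨D', hD', L⟩ := U.lvl
  obtain ⟨g, L⟩ := L.lev
  obtain ⟨r, hr⟩ := L.v_unif
  set u : E := s.symm (t.symm r) with hu
  have h1 : t (s u) = r := by rw [hu, AlgEquiv.apply_symm_apply, AlgEquiv.apply_symm_apply]
  have h2 : v u = exp (-1 : ℤ) := by rw [← hv, ← htv, h1, hr]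
  have h3 := L.comm_ram hv htv (fun z hz => L.wild hv hm hz) (fun z hz => L.wild htv hm' hz) h2
  rw [h1] at h3
  refine ram_of_unif' U hr (b := s (t u)) ?_ (by simpa using h3)
  rw [hs, ht]
  change σ (τ u) = σ (τ (σ.symm (τ.symm r)))
  rw [← h1, ht, hs, AlgEquiv.symm_apply_apply, AlgEquiv.symm_apply_apply]

private theorem rel_mul {s : E ≃ₐ[k] E} (hv : ∀ z, v (s z) = v z)
    {c : WithZero (Multiplicative ℤ)} {a b : E} (ha : v (s a - a) ≤ c * v a)
    (hb : v (s b - b) ≤ c * v b) : v (s (a * b) - a * b) ≤ c * v (a * b) := by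
  have h1 : s (a * b) - a * b = (s a - a) * s b + a * (s b - b) := by rw [map_mul]; ring
  rw [h1]
  refine (v.map_add _ _).trans (max_le ?_ ?_)
  · rw [map_mul, map_mul, hv, ← mul_assoc]
    gcongr
  · rw [map_mul, map_mul]
    calc v a * v (s b - b) ≤ v a * (c * v b) := by gcongr
      _ = _ := by rw [← mul_assoc, mul_comm (v a) c, mul_assoc]

private theorem rel_inv {s : E ≃ₐ[k] E} (hv : ∀ z, v (s z) = v z)
    {c : WithZero (Multiplicative ℤ)} {a : E} (ha : v (s a - a) ≤ c * v a) :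
    v (s a⁻¹ - a⁻¹) ≤ c * v a⁻¹ := by
  by_cases h0 : a = 0
  · subst h0
    simp
  have hs0 : s a ≠ 0 := by simpa using h0
  have h1 : s a⁻¹ - a⁻¹ = -((s a - a) * (a⁻¹ * (s a)⁻¹)) := by
    rw [map_inv₀]
    field_simp
    ring
  have hva : v a ≠ 0 := (Valuation.ne_zero_iff v).2 h0
  rw [h1, Valuation.map_neg, map_mul, map_mul, map_inv₀, map_inv₀, hv]
  calc v (s a - a) * ((v a)⁻¹ * (v a)⁻¹) ≤ (c * v a) * ((v a)⁻¹ * (v a)⁻¹) := by gcongr
    _ = c * (v a)⁻¹ := by field_simp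

private theorem rel_zpow {s : E ≃ₐ[k] E} (hv : ∀ z, v (s z) = v z)
    {c : WithZero (Multiplicative ℤ)} {a : E} (ha : v (s a - a) ≤ c * v a) (j : ℤ) :
    v (s (a ^ j) - a ^ j) ≤ c * v (a ^ j) := by
  have hn : ∀ m : ℕ, v (s (a ^ m) - a ^ m) ≤ c * v (a ^ m) := by
    intro m
    induction m with
    | zero => simp
    | succ m ih =>
      rw [pow_succ]
      exact rel_mul hv ih ha
  obtain ⟨m, rfl | rfl⟩ := j.eq_nat_or_neg
  · rw [zpow_natCast]
    exact hn m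
  · rw [zpow_neg, zpow_natCast]
    exact rel_inv hv (hn m)

private theorem exists_dec {t a : E} (ht : v t = exp (-1 : ℤ)) {j : ℤ} (ha : v a = exp j) :
    ∃ y : E, v y = 1 ∧ a = t ^ (-j) * y := by
  have ht0 : t ≠ 0 := by
    intro h0
    rw [h0, map_zero] at ht
    exact exp_ne_zero ht.symm
  refine ⟨a * t ^ j, ?_, ?_⟩
  · rw [map_mul, map_zpow₀, ha, ht, ← exp_zsmul, ← exp_add]
    simp
  · rw [mul_comm a, ← mul_assoc, ← zpow_add₀ ht0, neg_add_cancel, zpow_zero, one_mul]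

theorem ram_three_mul (U : UU p k x D E n κ v) (h : Ram E v 3 σ) {a b : E}
    (hab : (b : Ω) = σ a) : v (b - a) ≤ exp (-2 : ℤ) * v a := by
  obtain ⟨s, hs, hv, m, hm⟩ := ram_res U σ
  obtain ⟨D', hD', L⟩ := U.lvl
  obtain ⟨g, L⟩ := L.lev
  obtain ⟨t, ht⟩ := L.v_unif
  have h1 : b = s a := Subtype.ext (by rw [hab, hs])
  rw [h1]
  rw [ram_iff hs] at h
  by_cases ha : a = 0
  · subst ha
    simp
  have hva : v a ≠ 0 := (Valuation.ne_zero_iff v).2 ha
  obtain ⟨j, hj⟩ : ∃ j : ℤ, v a = exp j := ⟨log (v a), (exp_log hva).symm⟩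
  obtain ⟨y, hy, rfl⟩ := exists_dec ht hj
  apply rel_mul hv
  · apply rel_zpow hv
    have h2 := h t (by rw [ht, ← exp_zero, exp_le_exp]; norm_num)
    rw [ht, ← exp_add]
    simpa using h2
  · have h2 := h y hy.le
    rw [hy, mul_one]
    refine h2.trans ?_
    rw [exp_le_exp]
    norm_num

/-- exact change of an element of order prime to `p` if `σ` is not in the second ramification
group -/
theorem ram_order (U : UU p k x D E n κ v) (h : ¬ Ram E v 3 σ) {a b : E} (hab : (b : Ω) = σ a)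
    {j : ℤ} (hj : ¬ (p : ℤ) ∣ j) (ha : v a = exp j) : v (b - a) = exp (j - 1) := by
  obtain ⟨s, hs, hv, m, hm⟩ := ram_res U σ
  have hU := ram_two U σ
  rw [ram_iff hs] at hU
  obtain ⟨D', hD', L⟩ := U.lvl
  obtain ⟨g, L⟩ := L.lev
  obtain ⟨t, ht⟩ := L.v_unif
  have ht0 : t ≠ 0 := by
    intro h0
    rw [h0, map_zero] at ht
    exact exp_ne_zero ht.symm
  have h1 : b = s a := Subtype.ext (by rw [hab, hs])
  rw [h1]
  have ht1 : v (s t - t) = exp (-2 : ℤ) := by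
    apply le_antisymm (L.wild hv hm ht)
    by_contra hcon
    rw [not_le] at hcon
    have h2 := le_exp_pred hcon
    apply h
    exact ram_of_unif' U ht (hs t) (by simpa using h2)
  set ε : E := (s t - t) / t with hε
  have hvε : v ε = exp (-1 : ℤ) := by
    rw [hε, map_div₀, ht1, ht, ← exp_sub]
    norm_num
  -- logarithmic differences modulo `exp (-2)`
  have e1 : v (1 : E) = 1 := v.map_one
  have hm1 : exp (-1 : ℤ) ≤ (1 : WithZero (Multiplicative ℤ)) := by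
    rw [← exp_zero, exp_le_exp]; norm_num
  have hsm : ∀ {y z : E}, v y ≤ exp (-1 : ℤ) → v z ≤ exp (-1 : ℤ) → v (y * z) ≤ exp (-2 : ℤ) := by
    intro y z hy hz
    rw [map_mul]
    calc v y * v z ≤ exp (-1 : ℤ) * exp (-1 : ℤ) := by gcongr
      _ = exp (-2 : ℤ) := by rw [← exp_add]; norm_num
  have hP1 : ∀ (y : E) (q : ℤ), v ((s y - y) / y - (q : E) * ε) ≤ exp (-2 : ℤ) →
      v ((s y - y) / y) ≤ exp (-1 : ℤ) := by
    intro y q hq
    have h3 : (s y - y) / y = ((s y - y) / y - (q : E) * ε) + (q : E) * ε := by ring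
    rw [h3]
    refine (v.map_add _ _).trans (max_le (hq.trans ?_) ?_)
    · rw [exp_le_exp]; norm_num
    · rw [map_mul, hvε]
      have h4 : v (q : E) ≤ 1 := by
        have h5 := L.v_const_le (q : k)
        rwa [map_intCast] at h5
      calc v (q : E) * exp (-1 : ℤ) ≤ 1 * exp (-1 : ℤ) := by gcongr
        _ = _ := one_mul _
  have hPmul : ∀ (y z : E) (q r : ℤ), y ≠ 0 → z ≠ 0 →
      v ((s y - y) / y - (q : E) * ε) ≤ exp (-2 : ℤ) →
      v ((s z - z) / z - (r : E) * ε) ≤ exp (-2 : ℤ) →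
      v ((s (y * z) - y * z) / (y * z) - ((q + r : ℤ) : E) * ε) ≤ exp (-2 : ℤ) := by
    intro y z q r hy hz hq hr
    have h3 : (s (y * z) - y * z) / (y * z) - ((q + r : ℤ) : E) * ε =
        ((s y - y) / y - (q : E) * ε) + ((s z - z) / z - (r : E) * ε) +
        (s y - y) / y * ((s z - z) / z) := by
      rw [map_mul]
      push_cast
      field_simp
      ring
    rw [h3]
    exact (v.map_add _ _).trans (max_le ((v.map_add _ _).trans (max_le hq hr))
      (hsm (hP1 y q hq) (hP1 z r hr)))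
  have hPinv : ∀ (y : E) (q : ℤ), y ≠ 0 → v ((s y - y) / y - (q : E) * ε) ≤ exp (-2 : ℤ) →
      v ((s y⁻¹ - y⁻¹) / y⁻¹ - ((-q : ℤ) : E) * ε) ≤ exp (-2 : ℤ) := by
    intro y q hy hq
    have hsy : s y ≠ 0 := by simpa using hy
    have h3 : (s y⁻¹ - y⁻¹) / y⁻¹ - ((-q : ℤ) : E) * ε =
        -((s y - y) / y - (q : E) * ε) + ((s y - y) / y * ((s y - y) / y)) * (y * (s y)⁻¹) := by
      rw [map_inv₀]
      push_cast
      field_simp
      ring
    rw [h3]
    refine (v.map_add _ _).trans (max_le ?_ ?_)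
    · rw [Valuation.map_neg]
      exact hq
    · have h4 : v (y * (s y)⁻¹) = 1 := by
        rw [map_mul, map_inv₀, hv]
        exact mul_inv_cancel₀ ((Valuation.ne_zero_iff v).2 hy)
      rw [map_mul, h4, mul_one]
      exact hsm (hP1 y q hq) (hP1 y q hq)
  have hPt : v ((s t - t) / t - ((1 : ℤ) : E) * ε) ≤ exp (-2 : ℤ) := by
    rw [← hε, Int.cast_one, one_mul, sub_self, map_zero]
    exact zero_le
  have hPn : ∀ q : ℕ, v ((s (t ^ q) - t ^ q) / t ^ q - ((q : ℤ) : E) * ε) ≤ exp (-2 : ℤ) := by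
    intro q
    induction q with
    | zero => simp
    | succ q ih =>
      rw [pow_succ]
      have := hPmul (t ^ q) t q 1 (pow_ne_zero _ ht0) ht0 ih hPt
      exact_mod_cast this
  have hPz : ∀ q : ℤ, v ((s (t ^ q) - t ^ q) / t ^ q - (q : E) * ε) ≤ exp (-2 : ℤ) := by
    intro q
    obtain ⟨m, rfl | rfl⟩ := q.eq_nat_or_neg
    · rw [zpow_natCast]
      exact hPn m
    · rw [zpow_neg, zpow_natCast]
      exact hPinv _ _ (pow_ne_zero _ ht0) (hPn m)
  obtain ⟨y, hy, hay⟩ := exists_dec ht ha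
  have hy0 : y ≠ 0 := by
    intro h0
    rw [h0, map_zero] at hy
    exact zero_ne_one hy
  have hPy : v ((s y - y) / y - ((0 : ℤ) : E) * ε) ≤ exp (-2 : ℤ) := by
    rw [Int.cast_zero, zero_mul, sub_zero, map_div₀, hy, div_one]
    simpa using hU y hy.le
  have h5 := hPmul _ y (-j) 0 (zpow_ne_zero (-j) ht0) hy0 (hPz (-j)) hPy
  rw [← hay, add_zero] at h5
  have hvj : v (((-j : ℤ) : E) * ε) = exp (-1 : ℤ) := by
    have h6 : ((-j : ℤ) : k) ≠ 0 := by
      intro h0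
      rw [CharP.intCast_eq_zero_iff k p] at h0
      exact hj ((dvd_neg).1 h0)
    have h7 := L.v_const _ h6
    rw [map_intCast] at h7
    rw [map_mul, h7, hvε, one_mul]
  have h8 : v ((s a - a) / a) = exp (-1 : ℤ) := by
    have h9 : (s a - a) / a = ((-j : ℤ) : E) * ε + ((s a - a) / a - ((-j : ℤ) : E) * ε) := by ring
    rw [h9, Valuation.map_add_eq_of_lt_left, hvj]
    rw [hvj]
    refine lt_of_le_of_lt h5 ?_
    rw [exp_lt_exp]
    norm_num
  have ha0 : a ≠ 0 := by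
    intro h0
    rw [h0, map_zero] at ha
    exact exp_ne_zero ha.symm
  have h10 : s a - a = (s a - a) / a * a := by field_simp
  rw [h10, map_mul, h8, ha, ← exp_add]
  congr 1
  ring

end BAC
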