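import Pool.Agent.BAC.RamA

/-!
BAC / R2 (blueprint 7.1). The second ramification group under restriction.

`step_h`: `χ τ := τ w - w` for `τ ∈ Fx E` is a hom `Fx E → F_p` (`exists_zmod_of_pow`), nonzero with kernel `Fx E'` (as
`E' = E ⊔ K(w)`, degree `p`). Conjugation by `σ` maps `Fx E` and `Fx E'` to themselves (`E`, `E'` Galois), so
`χ (σ⁻¹ τ σ) = a χ(τ)` with `a ∈ F_p^*`; `σ ^ (p^(n+1)) ∈ Fx E'` (`Gal(E'/K)` has order `p^(n+1)`), conjugation by an
element of `Fx E'` is trivial on `Fx E / Fx E'` (for `ρ ∈ Fx E'`: `χ (ρ⁻¹ τ ρ) = χ τ`), so `a ^ (p^(n+1)) = 1`, `a = 1`. Then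
`τ (σ w) = σ (σ⁻¹ τ σ w) = σ w + χ τ`, so `σ w - w` is fixed by `Fx E`.
`ram_step`: `UU.step`: `l, w, f, c`; `w₀ = w - c`, `v' (w₀) = exp l`, `φ = w₀^p - w₀ = f - (c^p - c) ∈ E`, `v φ = exp l`.
`h = σ w₀ - w₀ ∈ E` (`step_h`). `ram_three_mul`: `v' (h) ≤ exp (l - 2)`, `v' (h) = v (h)^p`. Suppose `¬ Ram E v 3 σ`:
`ram_order`: `v (σ φ - φ) = exp (l - 1)`, and `σ φ - φ = h ^ p - h`. `l = 1`: `v (h^p - h) = 1` but
`v (h)^p ≤ exp (-1)` gives `v h < 1`, `v (h^p - h) < 1`. `l ≥ 2`: `v (h^p - h) > 1` so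
`v (h)^p = v (h^p - h) = exp (l - 1)`, against `≤ exp (l - 2)`.
`ram_down`: induction on `n'` with `UU.between`, `TT.unique`.
-/

namespace BAC

open Polynomial WithZero IntermediateField Pool.Agent.Helper32

set_option linter.unusedSectionVars false

variable {p : ℕ} [hp : Fact p.Prime] {k K Ω : Type*} [Field k] [IsAlgClosed k] [Field K]
  [Field Ω] [Algebra k K] [Algebra K Ω] [Algebra k Ω] [IsScalarTower k K Ω] [CharP k p]
  [CharP K p] [CharP Ω p] [IsSepClosure K Ω] {x : K} {vK : VI K} {D : Derivation k Ω Ω}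

omit [IsAlgClosed k] [CharP k p] [CharP K p] [Field k] [Field K] [Algebra k K] [Algebra K Ω]
  [Algebra k Ω] [IsScalarTower k K Ω] [IsSepClosure K Ω] in
private theorem rb_nat {a : Ω} (h : a ^ p = a) : ∃ i : ℕ, a = (i : Ω) := by
  obtain ⟨i, hi⟩ := exists_zmod_of_pow_eq (p := p) h
  refine ⟨i.val, ?_⟩
  rw [hi, ZMod.castHom_apply, ZMod.natCast_val]

omit [IsAlgClosed k] [CharP k p] [CharP K p] in
private theorem rb_diff {w : Ω} {τ : Ω ≃ₐ[K] Ω} (h : τ (w ^ p - w) = w ^ p - w) :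
    ∃ i : ℕ, τ w = w + (i : Ω) := by
  have h1 : (τ w - w) ^ p = τ w - w := by
    rw [map_sub, map_pow] at h
    rw [sub_pow_char]
    linear_combination h
  obtain ⟨i, hi⟩ := rb_nat (p := p) h1
  exact ⟨i, by rw [← hi]; ring⟩

theorem step_h (B : Base p k x vK) (hD : D (algebraMap K Ω x) = 1)
    {E E' : IntermediateField K Ω} {n : ℕ} {κ κ' : ℤ} {v : VI E} {v' : VI E'}
    (U : UU p k x D E n κ v) (U' : UU p k x D E' (n + 1) κ' v') (hE : E ≤ E') {w : Ω}
    (hw : w ∈ E') (hwE : w ∉ E) (hf : w ^ p - w ∈ E) (σ : Ω ≃ₐ[K] Ω) : σ w - w ∈ E := by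
  have hfd : FiniteDimensional K E' := U'.fin
  have hg : IsGalois K E := U.gal
  have hg' : IsGalois K E' := U'.gal
  -- `E' = E(w)`
  have hEw : E ⊔ IntermediateField.adjoin K {w} = E' := by
    have hle : E ⊔ IntermediateField.adjoin K {w} ≤ E' := by
      refine sup_le hE ?_
      rw [IntermediateField.adjoin_le_iff]
      intro b hb
      rw [Set.mem_singleton_iff.1 hb]
      exact hw
    apply IntermediateField.eq_of_le_of_finrank_eq hle
    have h1 := IntermediateField.finrank_dvd_of_le_right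
      (le_sup_left : E ≤ E ⊔ IntermediateField.adjoin K {w})
    have h2 := IntermediateField.finrank_dvd_of_le_right hle
    rw [U'.rank] at h2
    rw [U.rank] at h1
    obtain ⟨m, hm, hm'⟩ := (Nat.dvd_prime_pow hp.out).1 h2
    rw [hm'] at h1
    have h3 : n ≤ m := (Nat.pow_dvd_pow_iff_le_right hp.out.one_lt).1 h1
    have h4 : m ≠ n := by
      rintro rfl
      have hfd2 : FiniteDimensional K ↥(E ⊔ IntermediateField.adjoin K {w}) :=
        FiniteDimensional.of_injective (IntermediateField.inclusion hle).toLinearMap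
          (IntermediateField.inclusion_injective hle)
      have h5 : E = E ⊔ IntermediateField.adjoin K {w} := by
        apply IntermediateField.eq_of_le_of_finrank_eq le_sup_left
        rw [hm', U.rank]
      apply hwE
      rw [h5]
      exact (le_sup_right : IntermediateField.adjoin K {w} ≤ _)
        (IntermediateField.mem_adjoin_simple_self K w)
    have h6 : m = n + 1 := by omega
    rw [hm', h6, U'.rank]
  -- an automorphism over `E` moving `w`
  obtain ⟨τ₀, hτ₀, hτ₀w⟩ : ∃ τ : Ω ≃ₐ[K] Ω, Fx E τ ∧ τ w ≠ w := by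
    by_contra hcon
    push Not at hcon
    exact hwE (mem_of_fx hcon)
  have hσf : σ (w ^ p - w) ∈ E := stable_of_isGalois σ hf
  have hd : ∀ τ : Ω ≃ₐ[K] Ω, Fx E τ → ∃ i : ℕ, τ w = w + (i : Ω) :=
    fun τ hτ => rb_diff (hτ _ hf)
  have hd' : ∀ τ : Ω ≃ₐ[K] Ω, Fx E τ → ∃ i : ℕ, τ (σ w) = σ w + (i : Ω) := by
    intro τ hτ
    apply rb_diff (p := p)
    rw [← map_pow, ← map_sub]
    exact hτ _ hσf
  obtain ⟨c, hc⟩ := hd τ₀ hτ₀
  obtain ⟨c', hc'⟩ := hd' τ₀ hτ₀
  have hc0 : (c : Ω) ≠ 0 := by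
    intro h0
    rw [h0, add_zero] at hc
    exact hτ₀w hc
  -- `a = c' / c` as a natural number
  have hnat : ∀ i : ℕ, (i : Ω) ^ p = i := by
    intro i
    exact map_natCast (frobenius Ω p) i
  obtain ⟨a, ha⟩ : ∃ a : ℕ, (a : Ω) * c = c' := by
    have h1 : ((c' : Ω) / c) ^ p = (c' : Ω) / c := by
      rw [div_pow, hnat, hnat]
    obtain ⟨i, hi⟩ := rb_nat (p := p) h1
    refine ⟨i, ?_⟩
    rw [← hi]
    field_simp
  -- `σ w - a w ∈ E`
  have key : σ w - (a : Ω) * w ∈ E := by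
    apply mem_of_fx
    intro τ hτ
    obtain ⟨i, hi⟩ := hd τ hτ
    obtain ⟨i', hi'⟩ := hd' τ hτ
    obtain ⟨b, hb⟩ : ∃ b : ℕ, (b : Ω) * c = i := by
      have h1 : ((i : Ω) / c) ^ p = (i : Ω) / c := by
        rw [div_pow, hnat, hnat]
      obtain ⟨j, hj⟩ := rb_nat (p := p) h1
      refine ⟨j, ?_⟩
      rw [← hj]
      field_simp
    have hpw : ∀ m : ℕ, (τ₀ ^ m) w = w + (m : Ω) * c ∧
        (τ₀ ^ m) (σ w) = σ w + (m : Ω) * c' := by
      intro m
      induction m with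
      | zero => simp
      | succ m ih =>
        rw [pow_succ']
        constructor
        · change τ₀ ((τ₀ ^ m) w) = _
          rw [ih.1, map_add, hc, map_mul, map_natCast, map_natCast]
          push_cast
          ring
        · change τ₀ ((τ₀ ^ m) (σ w)) = _
          rw [ih.2, map_add, hc', map_mul, map_natCast, map_natCast]
          push_cast
          ring
    have hfx : Fx E ((τ₀ ^ b)⁻¹ * τ) := by
      intro e he
      have h1 : ∀ m : ℕ, (τ₀ ^ m) e = e := by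
        intro m
        induction m with
        | zero => rfl
        | succ m ih =>
          rw [pow_succ']
          change τ₀ ((τ₀ ^ m) e) = e
          rw [ih, hτ₀ e he]
      change (τ₀ ^ b).symm (τ e) = e
      rw [hτ e he, AlgEquiv.symm_apply_eq, h1]
    have hfx' : Fx E' ((τ₀ ^ b)⁻¹ * τ) := by
      rw [← hEw, fx_sup]
      refine ⟨hfx, ?_⟩
      rw [fx_adjoin]
      intro e he
      rw [Set.mem_singleton_iff.1 he]
      change (τ₀ ^ b).symm (τ w) = w
      rw [AlgEquiv.symm_apply_eq, (hpw b).1, hi, hb]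
    have hσw : σ w ∈ E' := stable_of_isGalois σ hw
    have h2 := hfx' _ hσw
    change (τ₀ ^ b).symm (τ (σ w)) = σ w at h2
    rw [AlgEquiv.symm_apply_eq, (hpw b).2] at h2
    rw [map_sub, map_mul, map_natCast, h2, hi, ← hb, ← ha]
    ring
  -- iterate
  have hit : ∀ m : ℕ, (σ ^ m) w - (a : Ω) ^ m * w ∈ E := by
    intro m
    induction m with
    | zero => simp [zero_mem]
    | succ m ih =>
      have h1 : (σ ^ (m + 1)) w - (a : Ω) ^ (m + 1) * w =
          σ ((σ ^ m) w - (a : Ω) ^ m * w) + (a : Ω) ^ m * (σ w - (a : Ω) * w) := by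
        rw [pow_succ' σ]
        change σ ((σ ^ m) w) - _ = _
        rw [map_sub, map_mul, map_pow, map_natCast]
        ring
      rw [h1]
      exact add_mem (stable_of_isGalois σ ih) (mul_mem (pow_mem (_root_.natCast_mem E a) m) key)
  have h1 : (σ ^ p ^ (n + 1)) w = w := by
    have h2 : Nat.card (E' ≃ₐ[K] E') = p ^ (n + 1) := by
      rw [IsGalois.card_aut_eq_finrank, U'.rank]
    have h3 : (AlgEquiv.restrictNormalHom (F := K) (K₁ := Ω) E' σ) ^ p ^ (n + 1) = 1 := by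
      rw [← h2]
      exact pow_card_eq_one'
    rw [← map_pow] at h3
    have h4 := congrArg (fun s => ((s ⟨w, hw⟩ : E') : Ω)) h3
    simp only [AlgEquiv.restrictNormalHom_apply] at h4
    exact h4
  have h2 : ∀ m : ℕ, (a : Ω) ^ p ^ m = a := by
    intro m
    induction m with
    | zero => simp
    | succ m ih => rw [pow_succ, pow_mul, ih, hnat]
  have h3 := hit (p ^ (n + 1))
  rw [h1, h2] at h3
  by_cases h4 : (a : Ω) = 1
  · rw [h4, one_mul] at key
    exact key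
  · exfalso
    apply hwE
    have h5 : w = (w - (a : Ω) * w) * (1 - (a : Ω))⁻¹ := by
      have h6 : 1 - (a : Ω) ≠ 0 := fun h => h4 (sub_eq_zero.1 h).symm
      field_simp
    rw [h5]
    exact mul_mem h3 (inv_mem (sub_mem (one_mem E) (_root_.natCast_mem E a)))

theorem ram_step (B : Base p k x vK) (hD : D (algebraMap K Ω x) = 1)
    {E E' : IntermediateField K Ω} {n : ℕ} {κ κ' : ℤ} {v : VI E} {v' : VI E'}
    (U : UU p k x D E n κ v) (U' : UU p k x D E' (n + 1) κ' v') (hE : E ≤ E')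
    {σ : Ω ≃ₐ[K] Ω} (h : Ram E' v' 3 σ) : Ram E v 3 σ := by
  have hg : IsGalois K E := U.gal
  obtain ⟨l, w, f, c, hl0, hl, -, hwE', hwE, hwf, -, hc, hv, ⟨hw0, hw0v⟩, -⟩ :=
    UU.step B hD U U' hE
  by_contra hcon
  set w₀ : Ω := w - (c : Ω) with hw₀
  have hw₀E : w₀ ∉ E := by
    intro h0
    apply hwE
    have h1 : w = w₀ + (c : Ω) := by rw [hw₀]; ring
    rw [h1]
    exact add_mem h0 c.2
  have hφ : w₀ ^ p - w₀ = ((f - (c ^ p - c) : E) : Ω) := by
    rw [hw₀, sub_pow_char]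
    push_cast
    linear_combination hwf
  set φ : E := f - (c ^ p - c) with hφd
  have hh : σ w₀ - w₀ ∈ E := step_h B hD U U' hE hw0 hw₀E (by rw [hφ]; exact φ.2) σ
  set h' : E := ⟨σ w₀ - w₀, hh⟩ with hh'
  have hσw₀ : σ w₀ ∈ E' := by
    have hg' : IsGalois K E' := U'.gal
    exact stable_of_isGalois σ hw0
  have h1 := ram_three_mul U' h (a := ⟨w₀, hw0⟩) (b := ⟨σ w₀, hσw₀⟩) rfl
  rw [hw0v, ← exp_add] at h1
  have h2 : (⟨σ w₀, hσw₀⟩ - ⟨w₀, hw0⟩ : E') = inclusion hE h' := Subtype.ext rfl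
  rw [h2, hv] at h1
  -- `σ φ - φ = h' ^ p - h'`
  have hσφ : σ (φ : Ω) ∈ E := stable_of_isGalois σ φ.2
  have h3 := ram_order U hcon (a := φ) (b := ⟨σ φ, hσφ⟩) rfl hl hc
  have h4 : (⟨σ φ, hσφ⟩ - φ : E) = h' ^ p - h' := by
    apply Subtype.ext
    change σ (φ : Ω) - (φ : Ω) = (σ w₀ - w₀) ^ p - (σ w₀ - w₀)
    have h7 : (σ w₀ - w₀) ^ p = σ w₀ ^ p - w₀ ^ p := sub_pow_char (σ w₀) w₀
    rw [← hφ, map_sub, map_pow, h7]
    ring
  rw [h4] at h3
  have hp0 : p ≠ 0 := hp.out.ne_zero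
  rcases lt_trichotomy (v h') 1 with h5 | h5 | h5
  · -- `v h' < 1`
    have h6 : v (h' ^ p - h') < 1 := by
      refine lt_of_le_of_lt (v.map_sub _ _) (max_lt ?_ h5)
      rw [map_pow]
      exact pow_lt_one₀ zero_le h5 hp0
    rw [h3, ← exp_zero, exp_lt_exp] at h6
    omega
  · rw [h5, one_pow, ← exp_zero, exp_le_exp] at h1
    have h6 : v (h' ^ p - h') ≤ 1 := by
      refine (v.map_sub _ _).trans (max_le ?_ h5.le)
      rw [map_pow, h5, one_pow]
    rw [h3, ← exp_zero, exp_le_exp] at h6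
    omega
  · have h6 : v (h' ^ p - h') = v h' ^ p := by
      rw [Valuation.map_sub_eq_of_lt_left, map_pow]
      rw [map_pow]
      calc v h' = v h' ^ 1 := (pow_one _).symm
        _ < v h' ^ p := pow_lt_pow_right₀ h5 hp.out.one_lt
    rw [← h6, h3, exp_le_exp] at h1
    omega

theorem ram_down (B : Base p k x vK) (hD : D (algebraMap K Ω x) = 1)
    {E E' : IntermediateField K Ω} {n n' : ℕ} {κ κ' : ℤ} {v : VI E} {v' : VI E'}
    (U : UU p k x D E n κ v) (U' : UU p k x D E' n' κ' v') (hE : E ≤ E')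
    {σ : Ω ≃ₐ[K] Ω} (h : Ram E' v' 3 σ) : Ram E v 3 σ := by
  induction n' generalizing E' κ' with
  | zero =>
    by_cases hne : E = E'
    · subst hne
      obtain ⟨-, -, rfl⟩ := U.toTT.unique U'.toTT
      exact h
    · obtain ⟨E₁, n₁, κ₁, v₁, -, -, h1, -⟩ := UU.between B hD U U' hE hne
      omega
  | succ n' ih =>
    by_cases hne : E = E'
    · subst hne
      obtain ⟨-, -, rfl⟩ := U.toTT.unique U'.toTT
      exact h
    · obtain ⟨E₁, n₁, κ₁, v₁, hE1, hE1', h1, U₁⟩ := UU.between B hD U U' hE hne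
      obtain rfl : n' = n₁ := by omega
      exact ih U₁ hE1 (ram_step B hD U₁ U' hE1' h)

end BAC
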