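import Pool.Agent.BAC.RamB
import Pool.Agent.BAC.PolChar

/-!
BAC / R3 (blueprint 7.2). `G_2 = [G, G]`.

`ram_char`: suppose `χ σ ≠ 0`. `linC_of_uu` (with `NN`): `w ^ p - w = e x`, `τ w = w + χ τ`. `w ∉ ⊥`, so `E₁ = ⊥ ⊔ K(w) ≤ E`
(`w` is fixed by `Fx E`) is Galois, in `U` (`UU.sub`), and by `TT.adj` (conductor `1`: `e ≠ 0`, `v (e x) = exp 1`,
`Red.unique`) of degree `p` with `v₁ w = exp 1`: `v₁ (w)^p = v₁ (w^p) = v₁ (w + e x) = v₁ (e x) = exp p` (as `v₁ w > 1`;
`v₁ (algebraMap x) = exp (p^1)`, `U.lvl`). `ram_down`: `Ram E₁ v₁ 3 σ`; apply it to `a = w⁻¹`,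
`b = (w + χ σ)⁻¹`: `b - a = - (χ σ) / (w (w + χ σ))`, `v₁ = exp (-2)`: contradiction.
`ram_iff`: `→`: if `r σ ∉ [Γ,Γ]`, as `Γ` has exponent `p`, `Γ/[Γ,Γ]` is an `F_p`-vector space and there is a hom
`χ₀ : Γ → F_p` with `χ₀ (r σ) ≠ 0`; `χ = χ₀ ∘ r`, `ram_char`. `←`: `{γ | ∀ σ, r σ = γ → Ram E v 3 σ}`: commutators
of `Γ` are the images of commutators (`r` onto) and `Ram.comm`; if `r σ = r τ` then `σ = τ ρ`, `ρ ∈ Fx E` (`FieldOf`),
`ram_fx`, `Ram.mul`. (`Subgroup.closure_induction` for the commutator subgroup.)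
-/

namespace BAC

open Polynomial WithZero IntermediateField Pool.Agent.Helper32

variable {p : ℕ} [hp : Fact p.Prime] {k K Ω : Type*} [Field k] [IsAlgClosed k] [Field K]
  [Field Ω] [Algebra k K] [Algebra K Ω] [Algebra k Ω] [IsScalarTower k K Ω] [CharP k p]
  [CharP K p] [CharP Ω p] [IsSepClosure K Ω] {x : K} {vK : VI K} {D : Derivation k Ω Ω}

theorem ram_char (B : Base p k x vK) (hD : D (algebraMap K Ω x) = 1)
    {E : IntermediateField K Ω} {n : ℕ} {κ : ℤ} {v : VI E} (U : UU p k x D E n κ v)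
    (hN : NN p n κ) {σ : Ω ≃ₐ[K] Ω} (h : Ram E v 3 σ) (χ : (Ω ≃ₐ[K] Ω) → ZMod p)
    (hadd : ∀ σ τ, χ (σ * τ) = χ σ + χ τ) (hF : ∀ σ, Fx E σ → χ σ = 0) : χ σ = 0 := by
  by_contra hne
  obtain ⟨e, w, hwe, hw⟩ := linC_of_uu B hD U hN χ hadd hF
  have hone : χ 1 = 0 := by
    have h1 := hadd 1 1
    rw [mul_one] at h1
    exact left_eq_add.1 h1
  have hconj : ∀ τ σ, Fx (⊥ : IntermediateField K Ω) σ → χ (τ * σ * τ⁻¹) = χ σ := by
    intro τ σ _
    have h1 : χ τ + χ τ⁻¹ = 0 := by rw [← hadd, mul_inv_cancel, hone]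
    rw [hadd, hadd, add_right_comm, h1, zero_add]
  have hwE : w ∈ E := mem_of_fx fun τ hτ => by
    rw [hw τ, hF τ hτ, ZMod.val_zero, Nat.cast_zero, add_zero]
  have hcast : (((χ σ).val : ℕ) : Ω) ≠ 0 := by
    intro h1
    rw [CharP.cast_eq_zero_iff Ω p] at h1
    have h2 := Nat.eq_zero_of_dvd_of_lt h1 (ZMod.val_lt (χ σ))
    exact hne ((ZMod.val_eq_zero _).1 h2)
  have hcastk : (((χ σ).val : ℕ) : k) ≠ 0 := by
    intro h1
    rw [CharP.cast_eq_zero_iff k p] at h1
    have h2 := Nat.eq_zero_of_dvd_of_lt h1 (ZMod.val_lt (χ σ))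
    exact hne ((ZMod.val_eq_zero _).1 h2)
  have hwbot : w ∉ (⊥ : IntermediateField K Ω) := by
    intro h1
    obtain ⟨y, hy⟩ := IntermediateField.mem_bot.1 h1
    have h2 : σ w = w := by rw [← hy, AlgEquiv.commutes]
    rw [hw σ] at h2
    exact hcast (left_eq_add.1 h2.symm)
  have he0 : e ≠ 0 := by
    rintro rfl
    rw [map_zero, zero_mul, sub_eq_zero] at hwe
    obtain ⟨i, hi⟩ := exists_zmod_of_pow (p := p) hwe
    apply hwbot
    rw [hi]
    exact IntermediateField.natCast_mem _ _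
  obtain ⟨v₀, T₀, hv₀⟩ := TT.bot (p := p) (D := D) B hD
  obtain ⟨f, hfdef⟩ : ∃ f : (⊥ : IntermediateField K Ω),
      f = algebraMap K (⊥ : IntermediateField K Ω) (algebraMap k K e * x) := ⟨_, rfl⟩
  have hfΩ : w ^ p - w = (f : Ω) := by
    rw [hwe, hfdef]
    have h1 : ((algebraMap K (⊥ : IntermediateField K Ω) (algebraMap k K e * x) :
        (⊥ : IntermediateField K Ω)) : Ω) = algebraMap K Ω (algebraMap k K e * x) := rfl
    rw [h1, map_mul, ← IsScalarTower.algebraMap_apply k K Ω]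
  have hfR : f ∈ Rint k (algebraMap K (⊥ : IntermediateField K Ω) x) := by
    rw [hfdef, map_mul]
    refine mul_mem ?_ ?_
    · have h1 : algebraMap K (⊥ : IntermediateField K Ω) (algebraMap k K e) =
          algebraMap k (⊥ : IntermediateField K Ω) e := by
        apply Subtype.ext
        exact (IsScalarTower.algebraMap_apply k K Ω e).symm
      rw [h1]
      exact (Rint k (algebraMap K (⊥ : IntermediateField K Ω) x)).algebraMap_mem _
    · rw [mem_Rint]
      have h1 := (aeval (algebraMap K (⊥ : IntermediateField K Ω) x) :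
        k[X] →ₐ[k] (⊥ : IntermediateField K Ω)).toRingHom.isIntegralElem_map (x := X)
      have h2 : (aeval (algebraMap K (⊥ : IntermediateField K Ω) x) :
        k[X] →ₐ[k] (⊥ : IntermediateField K Ω)).toRingHom X =
          algebraMap K (⊥ : IntermediateField K Ω) x := aeval_X _
      rw [h2] at h1
      exact h1
  have hvf : v₀ f = exp 1 := by
    rw [hfdef, hv₀, map_mul, B.lev.v_const e he0, one_mul]
    have h1 := B.lev.v_x
    rwa [pow_zero] at h1
  obtain ⟨l, c, v', -, -, -, hv', -, T'⟩ := TT.adj B hD T₀ hfΩ hfR hwbot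
  have hgal : IsGalois K ↥((⊥ : IntermediateField K Ω) ⊔ IntermediateField.adjoin K {w}) :=
    char_gal χ hconj (fun τ _ => hw τ)
  have hle : (⊥ : IntermediateField K Ω) ⊔ IntermediateField.adjoin K {w} ≤ E := by
    refine sup_le bot_le ?_
    rw [IntermediateField.adjoin_le_iff, Set.singleton_subset_iff]
    exact hwE
  have U' : UU p k x D ((⊥ : IntermediateField K Ω) ⊔ IntermediateField.adjoin K {w}) (0 + 1)
      (p * -1 + (p - 1) * l) v' := { toTT := T', gal := hgal }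
  have hR := ram_down B hD U' U hle h
  have hwM : w ∈ (⊥ : IntermediateField K Ω) ⊔ IntermediateField.adjoin K {w} :=
    (le_sup_right : IntermediateField.adjoin K {w} ≤ _) (mem_adjoin_simple_self K w)
  obtain ⟨W, hW⟩ : ∃ W : ↥((⊥ : IntermediateField K Ω) ⊔ IntermediateField.adjoin K {w}),
      W = ⟨w, hwM⟩ := ⟨_, rfl⟩
  have hWw : (W : Ω) = w := by rw [hW]
  have hvW : v' W = exp 1 := by
    have h1 : v' (W ^ p - W) = exp (p : ℤ) := by
      have h2 : W ^ p - W = inclusion (le_sup_left : (⊥ : IntermediateField K Ω) ≤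
          (⊥ : IntermediateField K Ω) ⊔ IntermediateField.adjoin K {w}) f := by
        apply Subtype.ext
        have h3 : ((W ^ p - W : ↥((⊥ : IntermediateField K Ω) ⊔
          IntermediateField.adjoin K {w})) : Ω) = (W : Ω) ^ p - (W : Ω) := rfl
        rw [h3, hWw, hfΩ]
        rfl
      rw [h2, hv', hvf, ← exp_nsmul, nsmul_eq_mul, mul_one]
    have h4 : 1 < v' W := by
      by_contra h5
      have h6 := wp_val_le_one (p := p) (not_lt.1 h5)
      rw [h1, ← exp_zero, exp_le_exp] at h6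
      have := hp.out.pos
      omega
    rw [wp_val_of_gt h4] at h1
    have h7 : v' W ^ p = (exp 1 : WithZero (Multiplicative ℤ)) ^ p := by
      rw [h1, ← exp_nsmul, nsmul_eq_mul, mul_one]
    exact (pow_left_inj₀ zero_le zero_le hp.out.ne_zero).1 h7
  obtain ⟨g, L⟩ := T'.lvl.choose_spec.2.lev
  obtain ⟨C, hC⟩ : ∃ C : ↥((⊥ : IntermediateField K Ω) ⊔ IntermediateField.adjoin K {w}),
      C = (((χ σ).val : ℕ) : ↥((⊥ : IntermediateField K Ω) ⊔ IntermediateField.adjoin K {w})) :=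
    ⟨_, rfl⟩
  have hvC : v' C = 1 := by
    have h1 := L.v_const _ hcastk
    rw [map_natCast, ← hC] at h1
    exact h1
  have hW0 : W ≠ 0 := by
    intro h1
    rw [h1, map_zero] at hvW
    exact exp_ne_zero hvW.symm
  have hvWC : v' (W + C) = exp 1 := by
    rw [Valuation.map_add_eq_of_lt_left _ (by rw [hvC, hvW, ← exp_zero, exp_lt_exp]; omega), hvW]
  have hWC0 : W + C ≠ 0 := by
    intro h1
    rw [h1, map_zero] at hvWC
    exact exp_ne_zero hvWC.symm
  have h1 := hR W⁻¹ (W + C)⁻¹ (by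
    have h2 : (((W + C)⁻¹ : ↥((⊥ : IntermediateField K Ω) ⊔ IntermediateField.adjoin K {w})) : Ω) =
      ((W : Ω) + (C : Ω))⁻¹ := rfl
    have h3 : ((W⁻¹ : ↥((⊥ : IntermediateField K Ω) ⊔ IntermediateField.adjoin K {w})) : Ω) =
      (W : Ω)⁻¹ := rfl
    have h4 : (C : Ω) = (((χ σ).val : ℕ) : Ω) := by rw [hC]; rfl
    rw [h2, h3, hWw, h4, map_inv₀, hw σ]) (by
    rw [map_inv₀, hvW, ← exp_neg, ← exp_zero, exp_le_exp]
    omega)
  have h2 : (W + C)⁻¹ - W⁻¹ = - (C * (W⁻¹ * (W + C)⁻¹)) := by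
    field_simp
    ring
  rw [h2, Valuation.map_neg, map_mul, map_mul, map_inv₀, map_inv₀, hvC, hvW, hvWC, one_mul,
    ← exp_neg, ← exp_add, exp_le_exp] at h1
  omega

omit [IsAlgClosed k] [Field k] [Field K] [Field Ω] [Algebra k K] [Algebra K Ω] [Algebra k Ω]
  [IsScalarTower k K Ω] [CharP k p] [CharP K p] [CharP Ω p] [IsSepClosure K Ω] in
private theorem ramc_dual {A : Type*} [AddCommGroup A] (hA : ∀ a : A, p • a = 0) {a : A}
    (h : ∀ φ : A →+ ZMod p, φ a = 0) : a = 0 := by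
  let _i : Module (ZMod p) A := AddCommGroup.zmodModule hA
  rw [← (Module.Basis.ofVectorSpace (ZMod p) A).forall_coord_eq_zero_iff]
  intro i
  exact h ((Module.Basis.ofVectorSpace (ZMod p) A).coord i).toAddMonoidHom

theorem ram_iff (B : Base p k x vK) (hD : D (algebraMap K Ω x) = 1)
    {E : IntermediateField K Ω} {n : ℕ} {κ : ℤ} {v : VI E} (U : UU p k x D E n κ v)
    (hN : NN p n κ) {Γ : Type*} [Group Γ] [Finite Γ] (he : ∀ γ : Γ, γ ^ p = 1)
    (r : (Ω ≃ₐ[K] Ω) →* Γ) (hr : Function.Surjective r) (hF : FieldOf r E) (σ : Ω ≃ₐ[K] Ω) :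
    Ram E v 3 σ ↔ r σ ∈ commutator Γ := by
  constructor
  · intro h
    have h2 : ∀ φ : Additive (Abelianization Γ) →+ ZMod p,
        φ (Additive.ofMul (Abelianization.of (r σ))) = 0 := by
      intro φ
      refine ram_char B hD U hN h (fun τ => φ (Additive.ofMul (Abelianization.of (r τ))))
        (fun σ τ => ?_) (fun τ hτ => ?_)
      · simp only [map_mul, ofMul_mul, map_add]
      · have h3 : r τ = 1 := (hF τ).2 hτ
        simp only [h3, map_one, ofMul_one, map_zero]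
    have h2 : Additive.ofMul (Abelianization.of (r σ)) = 0 := ramc_dual (p := p) (by
      intro a
      obtain ⟨γ, hγ⟩ : ∃ γ, Abelianization.of γ = Additive.toMul a :=
        QuotientGroup.mk_surjective _
      have h1 : (Additive.toMul a) ^ p = 1 := by rw [← hγ, ← map_pow, he, map_one]
      exact congrArg Additive.ofMul h1) h2
    have h3 : Abelianization.of (r σ) = 1 := Additive.ofMul.injective h2
    rw [← MonoidHom.mem_ker, Abelianization.ker_of] at h3
    exact h3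
  · intro h
    let S : Subgroup (Ω ≃ₐ[K] Ω) :=
      { carrier := {τ | Ram E v 3 τ}
        mul_mem' := fun h1 h2 => Ram.mul U h1 h2
        one_mem' := ram_fx fun a _ => rfl
        inv_mem' := fun h1 => Ram.inv U h1 }
    have hS : commutator (Ω ≃ₐ[K] Ω) ≤ S := by
      rw [commutator_def, Subgroup.commutator_le]
      intro g₁ _ g₂ _
      exact Ram.comm U g₁ g₂
    have h1 : commutator Γ = (commutator (Ω ≃ₐ[K] Ω)).map r := by
      rw [commutator_def, commutator_def, Subgroup.map_commutator,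
        Subgroup.map_top_of_surjective r hr]
    rw [h1] at h
    obtain ⟨τ, hτ, hτσ⟩ := h
    have h2 : τ⁻¹ * σ ∈ S := by
      refine ram_fx ((hF _).1 ?_)
      rw [map_mul, map_inv, hτσ, inv_mul_cancel]
    have h3 : σ ∈ S := by
      have h4 := S.mul_mem (hS hτ) h2
      rwa [mul_inv_cancel_left] at h4
    exact h3

end BAC
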