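import Pool.Agent.BAC.RamD

/-!
BAC / R5 (blueprint 7.3 (b)). The non-abelian case: the genus is large.

`UU.above`: iterate `UU.between` until the degree is `p^(n+1)`.
`kappa_nonabelian`: `Γ` exponent `p`, not abelian (`p ≥ 3` since groups of exponent `2` are abelian). `E_a` := field
of `r mod [Γ,Γ]` (`exists_fieldOf`), in `U` with `NN`, `κ_a = -1` (`kappa_abelian`). `E_a ≠ E`: `[Γ,Γ] ≠ 1`.
`UU.above`: `E_a ≤ E' ≤ E`, degree `p [E_a:K]`. `UU.step`: `l`, `w`, `c`, `w₀ = w - c`, `φ = w₀^p - w₀`, `v φ = exp l`,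
`v' w₀ = exp l`; `κ' = - p + (p - 1) l`.
`l ≥ 2`: there is `σ ∈ Fx E_a` with `σ w = w + 1`; `r σ ∈ [Γ,Γ]`, so `Ram E v 3 σ` (`ram_iff`), `Ram E' v' 3 σ`
(`ram_down`), `ram_three_mul`: `1 = v' (σ w₀ - w₀) ≤ exp (-2) exp l`.
`E_a ≠ ⊥` (`[Γ,Γ] ≠ Γ`: `Γ` is a nontrivial `p`-group, solvable/nilpotent); take `τ` not trivial on `E_a`, i.e.
`r τ ∉ [Γ,Γ]`. `ram_iff` for `E_a` with `r_a : Gal → Γ/[Γ,Γ]` (commutator subgroup trivial): `¬ Ram E_a v_a 3 τ`.
`ram_order`: `v_a (τ φ - φ) = exp (l - 1)`. `h = τ w₀ - w₀ ∈ E_a` (`step_h`), `τ φ - φ = h^p - h`, `l - 1 ≥ 1` so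
`v_a (h)^p = exp (l-1)`: `p ∣ l - 1`, `l ≥ p + 1`. `κ' + 1 = 1 - p + (p-1) l ≥ (p - 1) p ≥ 6`.
`κ + 1 ≥ κ' + 1` (`kappa_mono`: each step multiplies `κ + 1` by at least `p` (`UU.step`, `κ ≥ -1`)).
-/

namespace BAC

open Polynomial WithZero IntermediateField Pool.Agent.Helper32

variable {p : ℕ} [hp : Fact p.Prime] {k K Ω : Type*} [Field k] [IsAlgClosed k] [Field K]
  [Field Ω] [Algebra k K] [Algebra K Ω] [Algebra k Ω] [IsScalarTower k K Ω] [CharP k p]
  [CharP K p] [CharP Ω p] [IsSepClosure K Ω] {x : K} {vK : VI K} {D : Derivation k Ω Ω}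

private theorem rame_exp_three {Γ : Type*} [Group Γ] (he : ∀ γ : Γ, γ ^ p = 1)
    (hna : commutator Γ ≠ ⊥) : 3 ≤ p := by
  rcases Nat.lt_or_ge p 3 with h | h
  · exfalso
    have h2 : p = 2 := le_antisymm (by omega) hp.out.two_le
    apply hna
    rw [commutator_def, Subgroup.commutator_eq_bot_iff_le_centralizer]
    intro g _
    rw [Subgroup.mem_centralizer_iff]
    intro t _
    have e : ∀ γ : Γ, γ⁻¹ = γ := by
      intro γ
      have h3 := he γ
      rw [h2, pow_two] at h3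
      exact inv_eq_of_mul_eq_one_left h3
    have h4 := e (t * g)
    rw [mul_inv_rev, e, e] at h4
    exact h4.symm
  · exact h

private theorem rame_comm_quot (Γ : Type*) [Group Γ] : commutator (Γ ⧸ commutator Γ) = ⊥ := by
  rw [eq_bot_iff]
  change ⁅(⊤ : Subgroup (Γ ⧸ commutator Γ)), ⊤⁆ ≤ ⊥
  rw [Subgroup.commutator_le]
  intro g _ h _
  obtain ⟨g', rfl⟩ := QuotientGroup.mk_surjective g
  obtain ⟨h', rfl⟩ := QuotientGroup.mk_surjective h
  rw [Subgroup.mem_bot, ← QuotientGroup.mk'_apply, ← QuotientGroup.mk'_apply,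
    ← map_commutatorElement, QuotientGroup.mk'_apply, QuotientGroup.eq_one_iff, commutator_def]
  exact Subgroup.commutator_mem_commutator (Subgroup.mem_top _) (Subgroup.mem_top _)

private theorem rame_val_one {E : Type*} [Field E] (v : VI E) {a : E} (ha : a ^ p = a)
    (h0 : a ≠ 0) : v a = 1 := by
  have h1 : v a ^ p = v a := by rw [← map_pow, ha]
  have h2 : v a ≠ 0 := (Valuation.ne_zero_iff v).2 h0
  obtain ⟨j, hj⟩ : ∃ j : ℤ, v a = exp j := ⟨log (v a), (exp_log h2).symm⟩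
  rw [hj, ← exp_nsmul, nsmul_eq_mul] at h1
  have h3 : (p : ℤ) * j = j := exp_injective h1
  have h4 : (2 : ℤ) ≤ p := by exact_mod_cast hp.out.two_le
  have h5 : j = 0 := by
    have h6 : ((p : ℤ) - 1) * j = 0 := by linear_combination h3
    rcases mul_eq_zero.1 h6 with h7 | h7
    · omega
    · exact h7
  rw [hj, h5, exp_zero]

private theorem rame_wp {E : Type*} [Field E] (v : VI E) {h : E} {m : ℤ} (hm : 0 < m)
    (hv : v (h ^ p - h) = exp m) : ∃ j : ℤ, 0 < j ∧ m = p * j := by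
  have hp2 : (2 : ℤ) ≤ p := by exact_mod_cast hp.out.two_le
  have h0 : h ≠ 0 := by
    rintro rfl
    rw [zero_pow hp.out.ne_zero, sub_zero, map_zero] at hv
    exact exp_ne_zero hv.symm
  have h2 : v h ≠ 0 := (Valuation.ne_zero_iff v).2 h0
  obtain ⟨j, hj⟩ : ∃ j : ℤ, v h = exp j := ⟨log (v h), (exp_log h2).symm⟩
  have hpw : v (h ^ p) = exp (p * j) := by
    rw [map_pow, hj, ← exp_nsmul, nsmul_eq_mul]
  rcases lt_or_ge 0 j with h3 | h3
  · refine ⟨j, h3, ?_⟩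
    have h4 : v h < v (h ^ p) := by
      rw [hj, hpw, exp_lt_exp]
      nlinarith
    have h5 := Valuation.map_sub_eq_of_lt_right v h4
    rw [Valuation.map_sub_swap] at h5
    rw [hv, hpw] at h5
    exact exp_injective h5
  · exfalso
    have h4 : v (h ^ p - h) ≤ 1 := by
      refine (Valuation.map_sub v _ _).trans (max_le ?_ ?_)
      · rw [hpw, ← exp_zero, exp_le_exp]
        nlinarith
      · rw [hj, ← exp_zero, exp_le_exp]
        exact h3
    rw [hv, ← exp_zero, exp_le_exp] at h4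
    omega

theorem UU.above (B : Base p k x vK) (hD : D (algebraMap K Ω x) = 1)
    {E E' : IntermediateField K Ω} {n n' : ℕ} {κ κ' : ℤ} {v : VI E} {v' : VI E'}
    (U : UU p k x D E n κ v) (U' : UU p k x D E' n' κ' v') (hE : E ≤ E') (hne : E ≠ E') :
    ∃ (E₁ : IntermediateField K Ω) (κ₁ : ℤ) (v₁ : VI E₁), E ≤ E₁ ∧ E₁ ≤ E' ∧
      UU p k x D E₁ (n + 1) κ₁ v₁ := by
  induction n' generalizing E' κ' with
  | zero =>
    obtain ⟨E₁, n₁, κ₁, v₁, -, -, h1, -⟩ := UU.between B hD U U' hE hne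
    omega
  | succ m ih =>
    obtain ⟨E₁, n₁, κ₁, v₁, h1, h2, h3, U₁⟩ := UU.between B hD U U' hE hne
    have h4 : n₁ = m := by omega
    subst h4
    by_cases h5 : E = E₁
    · subst h5
      obtain ⟨h6, -, -⟩ := U₁.toTT.unique U.toTT
      subst h6
      exact ⟨E', κ', v', hE, le_rfl, U'⟩
    · obtain ⟨E₂, κ₂, v₂, h6, h7, U₂⟩ := ih U₁ h1 h5
      exact ⟨E₂, κ₂, v₂, h6, h7.trans h2, U₂⟩

theorem kappa_mono (B : Base p k x vK) (hD : D (algebraMap K Ω x) = 1)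
    {E E' : IntermediateField K Ω} {n n' : ℕ} {κ κ' : ℤ} {v : VI E} {v' : VI E'}
    (U : UU p k x D E n κ v) (U' : UU p k x D E' n' κ' v') (hE : E ≤ E') : κ ≤ κ' := by
  induction n' generalizing E' κ' with
  | zero =>
    by_cases hne : E = E'
    · subst hne
      obtain ⟨-, h2, -⟩ := U'.toTT.unique U.toTT
      exact h2.le
    · obtain ⟨E₁, n₁, κ₁, v₁, -, -, h1, -⟩ := UU.between B hD U U' hE hne
      omega
  | succ m ih =>
    by_cases hne : E = E'
    · subst hne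
      obtain ⟨-, h2, -⟩ := U'.toTT.unique U.toTT
      exact h2.le
    · obtain ⟨E₁, n₁, κ₁, v₁, h1, h2, h3, U₁⟩ := UU.between B hD U U' hE hne
      have h4 : n₁ = m := by omega
      subst h4
      obtain ⟨l, w, f, c, hl0, -, hκ, -⟩ := UU.step B hD U₁ U' h2
      refine (ih U₁ h1).trans ?_
      have h5 : -1 ≤ κ₁ := U₁.toTT.kappa
      have hp2 : (2 : ℤ) ≤ p := by exact_mod_cast hp.out.two_le
      rw [hκ]
      nlinarith

theorem kappa_nonabelian (B : Base p k x vK) (hD : D (algebraMap K Ω x) = 1)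
    {E : IntermediateField K Ω} {n : ℕ} {κ : ℤ} {v : VI E} (U : UU p k x D E n κ v)
    (hN : NN p n κ) {Γ : Type*} [Group Γ] [Finite Γ] (he : ∀ γ : Γ, γ ^ p = 1)
    (r : (Ω ≃ₐ[K] Ω) →* Γ) (hr : Function.Surjective r) (hF : FieldOf r E)
    (hna : commutator Γ ≠ ⊥) : 5 ≤ κ := by
  have hp3 : 3 ≤ p := rame_exp_three he hna
  have hfinE : FiniteDimensional K E := U.fin
  have hgalE : IsGalois K E := U.gal
  obtain ⟨ra, hra⟩ : ∃ ra : (Ω ≃ₐ[K] Ω) →* Γ ⧸ commutator Γ,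
      ra = (QuotientGroup.mk' (commutator Γ)).comp r := ⟨_, rfl⟩
  have hraσ : ∀ σ, ra σ = 1 ↔ r σ ∈ commutator Γ := by
    intro σ
    rw [hra, MonoidHom.comp_apply, QuotientGroup.mk'_apply, QuotientGroup.eq_one_iff]
  have hras : Function.Surjective ra := by
    rw [hra]
    exact (QuotientGroup.mk'_surjective _).comp hr
  obtain ⟨Ea, hEa, hgala, hFa, -⟩ := exists_fieldOf ra E (fun σ hσ => by
    rw [hraσ, (hF σ).2 hσ]
    exact one_mem _)
  obtain ⟨na, κa, va, Ua⟩ := UU.sub B hD U hEa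
  have hNa : NN p na κa := UU.NN_mono B hD Ua U hEa hN
  have hκa : κa = -1 := by
    refine kappa_abelian B hD Ua hNa (fun σ => (hFa _).1 ?_) (fun σ τ => (hFa _).1 ?_)
    · rw [hraσ, map_pow, he]
      exact one_mem _
    · rw [hraσ, map_mul, map_mul, map_mul, map_inv, map_inv, commutator_def]
      exact Subgroup.commutator_mem_commutator (Subgroup.mem_top _) (Subgroup.mem_top _)
  have hne : Ea ≠ E := by
    intro h
    apply hna
    rw [eq_bot_iff]
    intro γ hγ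
    obtain ⟨σ, rfl⟩ := hr γ
    have h1 : Fx E σ := by
      rw [← h]
      exact (hFa σ).1 ((hraσ σ).2 hγ)
    exact (hF σ).2 h1
  obtain ⟨E₁, κ₁, v₁, hE₁, hE₁', U₁⟩ := UU.above B hD Ua U hEa hne
  have hgal1 : IsGalois K E₁ := U₁.gal
  obtain ⟨l, w, f, c, hl0, hpl, hκ₁, hwE₁, hwEa, hwf, -, hfc, hvv, ⟨hwc, hvw⟩, -⟩ :=
    UU.step B hD Ua U₁ hE₁
  have hκκ : κ₁ ≤ κ := kappa_mono B hD U₁ U hE₁'
  have hcE₁ : (c : Ω) ∈ E₁ := hE₁ c.2
  -- `l ≥ 2`
  have hl2 : 2 ≤ l := by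
    obtain ⟨σ, hσ, hσw⟩ : ∃ σ : Ω ≃ₐ[K] Ω, Fx Ea σ ∧ σ w ≠ w := by
      by_contra hcon
      push Not at hcon
      exact hwEa (mem_of_fx hcon)
    have hR : Ram E v 3 σ := (ram_iff B hD U hN he r hr hF σ).2 ((hraσ σ).1 ((hFa σ).2 hσ))
    have hR₁ : Ram E₁ v₁ 3 σ := ram_down B hD U₁ U hE₁' hR
    have hmem : σ (w - c) ∈ E₁ := stable_of_isGalois σ hwc
    have h1 := ram_three_mul U₁ hR₁ (a := ⟨w - c, hwc⟩) (b := ⟨σ (w - c), hmem⟩) rfl
    have h2 : v₁ (⟨σ (w - c), hmem⟩ - ⟨w - c, hwc⟩) = 1 := by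
      have h3 : σ (w - c) - (w - c) = σ w - w := by
        rw [map_sub, hσ c c.2]; ring
      have h4 : (σ w) ^ p - σ w = w ^ p - w := by
        rw [← map_pow, ← map_sub, hwf, hσ f f.2]
      refine rame_val_one (p := p) v₁ (Subtype.ext ?_) ?_
      · change (σ (w - c) - (w - c)) ^ p = σ (w - c) - (w - c)
        rw [h3, sub_pow_char]
        linear_combination h4
      · intro h5
        have h6 : σ (w - c) - (w - c) = 0 := congrArg Subtype.val h5
        rw [h3] at h6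
        exact hσw (sub_eq_zero.1 h6)
    rw [h2, hvw, ← exp_add, ← exp_zero, exp_le_exp] at h1
    omega
  -- an element which is not in the commutator subgroup
  have hntop : commutator Γ ≠ ⊤ := by
    have : Nontrivial Γ := by
      by_contra hcon
      rw [not_nontrivial_iff_subsingleton] at hcon
      apply hna
      rw [eq_bot_iff]
      intro γ _
      exact Subsingleton.elim γ 1
    have hpg : IsPGroup p Γ := fun γ => ⟨1, by rw [pow_one]; exact he γ⟩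
    have : Group.IsNilpotent Γ := hpg.isNilpotent
    exact (Group.IsSolvable.commutator_lt_top_of_nontrivial Γ).ne
  obtain ⟨γ, hγ⟩ : ∃ γ, γ ∉ commutator Γ := by
    by_contra hcon
    push Not at hcon
    exact hntop (eq_top_iff.2 fun γ _ => hcon γ)
  obtain ⟨τ, rfl⟩ := hr γ
  have hnR : ¬ Ram Ea va 3 τ := by
    intro h
    have hea : ∀ γ : Γ ⧸ commutator Γ, γ ^ p = 1 := by
      intro γ
      obtain ⟨g, rfl⟩ := QuotientGroup.mk_surjective γ
      rw [← QuotientGroup.mk_pow, he, QuotientGroup.mk_one]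
    have h1 := (ram_iff B hD Ua hNa hea ra hras hFa τ).1 h
    rw [rame_comm_quot, Subgroup.mem_bot, hraσ] at h1
    exact hγ h1
  -- the change of `φ`
  have hφ : (w - c) ^ p - (w - c) = ((f - (c ^ p - c) : Ea) : Ω) := by
    have h1 : ((f - (c ^ p - c) : Ea) : Ω) = (f : Ω) - ((c : Ω) ^ p - c) := rfl
    rw [h1, sub_pow_char, ← hwf]
    ring
  have hτφ : τ ((f - (c ^ p - c) : Ea) : Ω) ∈ Ea := stable_of_isGalois τ (f - (c ^ p - c) : Ea).2
  have h1 := ram_order Ua hnR (a := f - (c ^ p - c)) (b := ⟨_, hτφ⟩) rfl hpl hfc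
  have hw0 : w - c ∉ Ea := fun h => hwEa (by
    have := Ea.add_mem h c.2
    rwa [sub_add_cancel] at this)
  have hh : τ (w - c) - (w - c) ∈ Ea := step_h B hD Ua U₁ hE₁ hwc hw0 (by
    rw [hφ]; exact (f - (c ^ p - c) : Ea).2) τ
  have h2 : (⟨_, hτφ⟩ - (f - (c ^ p - c)) : Ea) =
      (⟨_, hh⟩ : Ea) ^ p - ⟨_, hh⟩ := by
    apply Subtype.ext
    change τ ((f - (c ^ p - c) : Ea) : Ω) - ((f - (c ^ p - c) : Ea) : Ω) =
      (τ (w - c) - (w - c)) ^ p - (τ (w - c) - (w - c))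
    have hgen : ∀ y : Ω, τ (y ^ p - y) - (y ^ p - y) = (τ y - y) ^ p - (τ y - y) := by
      intro y
      rw [map_sub, map_pow, sub_pow_char]
      ring
    rw [← hφ]
    exact hgen _
  rw [h2] at h1
  obtain ⟨j, hj, hlj⟩ := rame_wp (p := p) va (by omega) h1
  have hp3' : (3 : ℤ) ≤ p := by exact_mod_cast hp3
  have hl : (p : ℤ) + 1 ≤ l := by nlinarith
  rw [hκa] at hκ₁
  nlinarith

end BAC
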