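import Pool.Agent.BAC.Appr
import Pool.Agent.BAC.LangNN
import Pool.Agent.BAC.PolChar

/-!
BAC / S4 (blueprint 5.2, the main point). The obstruction characters are linear.

`Z` central in `Γ`. `L` = the field of `c` (`lang_uu`), `NN` by `lang_NN`. `F ⊔ L` is in `U` (`UU.sup`), `χ σ = lam (b σ)` is
additive and zero on `Fx (F ⊔ L)` (`hlam`): `polC_of_uu` gives `q`, `w₀` with `w₀ ^ p - w₀ = q(x)`. If `natDegree q ≤ 1`:
`PolC.lin`. Suppose `2 ≤ natDegree q`. Let `N ≤ Γ` be the set of the `z g`, `z ∈ Z`, `JJ d m (u g - 1)`: a normal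
subgroup (`uni_mul`, `uni_inv`, conjugation: `uni_mul_mod`, `mul_uni_mod`). `E` := field of `σ ↦ r σ mod N`
(`exists_fieldOf` with `F₁`; `FieldOf (QuotientGroup.mk' N ∘ r) E`), `E ≤ F₁`, in `U` (`UU.sub`), `NN` (`UU.NN_mono`).
`E ≤ L` (`le_of_fx`): if `c σ = 1` then `u (r σ z) (1 + b) = 1`, so `u (r σ z) - 1 ∈ JJ d m`, `r σ ∈ N`.
For `σ ∈ Fx E`: `r σ = z₂ g₂`, `z₂ ∈ Z`, `JJ d m (u g₂ - 1)`; choose them and put `a₂ σ = u g₂ - 1`,
`μ_r σ = lam (a₂ σ)`. `c σ = u (r σ z)(1 + b σ) = u (z₂ z) u (g₂) (1 + b σ) = u (z₂ z) (1 + a₁ σ)`,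
`a₁ σ = a₂ σ + b σ` mod `JJ d (m+1)`, `μ_c σ = lam (a₁ σ)`. So `χ = μ_c - μ_r` on `Fx E`.
By `cz_wd` (`γ = 1`): `μ_c σ = lam a` whenever `c σ = u z (1 + a)`, `z ∈ Z`, `JJ d m a`; and `μ_r σ = lam a` whenever
`u (r σ) = u z (1 + a)`. Hence both are additive on `Fx E` (`u z (1+a) u z' (1+a') = u (z z') (1 + a + a')` mod
`JJ d (m+1)`, conjugation by `u z'` is trivial on `JJ d m / JJ d (m+1)`: `conj_mod`; the exact matrix `a''` with
`(..) = u (z z') (1 + a'')` is `a + a'` mod `JJ d (m+1)`), invariant under conjugation by all `τ`: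
`c τ (u z (1 + a)) (c τ)⁻¹`: `c τ = u (γ) (1 + b')`, `u γ` commutes with `u z`, and
`(1 + b') u z (1 + b')⁻¹ = u z` mod `JJ d (m+1)`, the rest by `conj_mod`; `μ_c` is zero on `Fx L` (`c σ = 1 = u 1 (1 + 0)`)
and `μ_r` is zero on `Fx F₁` (`r σ = z ∈ Z`: `u (r σ) = u z (1 + 0)`).
`char_small` for `(E, L, μ_c)` and `(E, F₁, μ_r)`: `w_c, w_r`. On `Fx E`: `w₀` transforms by `χ`, `w_c - w_r` by
`μ_c - μ_r = χ` (`val_sub_cast`): `e := w₀ - (w_c - w_r) ∈ E` (`mem_of_char_eq`). So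
`q(x) = (w_c^p - w_c) - (w_r^p - w_r) + (e^p - e)` is `Small` (`Small.sub`, `Small.congr`), against `big_pol`,
`Big.not_small`.
-/

namespace BAC

open Polynomial WithZero IntermediateField Pool.Agent.Helper32

section aux

variable {p : ℕ} [hp : Fact p.Prime] {I : Type*} [Fintype I] [DecidableEq I] {d : I → ℕ}
  {Γ : Type*} [Group Γ] {u : Γ →* Matrix I I (ZMod p)} {Z : Subgroup Γ}

private theorem s2_J0 (hu : Rep p d u) (γ : Γ) : JJ d 0 (u γ) := JJ.zero_of_uni (hu.one γ)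

private theorem s2_inv (γ : Γ) : u γ * u γ⁻¹ = 1 := by
  rw [← map_mul, mul_inv_cancel, map_one]

private theorem s2_inv' (γ : Γ) : u γ⁻¹ * u γ = 1 := by
  rw [← map_mul, inv_mul_cancel, map_one]

/-- `M = u z (1 + a)` -/
private def sQ (d : I → ℕ) (u : Γ →* Matrix I I (ZMod p)) (Z : Subgroup Γ) (m : ℕ)
    (M a : Matrix I I (ZMod p)) : Prop :=
  JJ d m a ∧ ∃ z ∈ Z, M = u z * (1 + a)

private theorem sQ_wd (hu : Rep p d u) {m : ℕ} (hm : 1 ≤ m)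
    {lam : Matrix I I (ZMod p) →ₗ[ZMod p] ZMod p} (hlam : ∀ M ∈ CZ d u Z m, lam M = 0)
    {M a a' : Matrix I I (ZMod p)} (h : sQ d u Z m M a) (h' : sQ d u Z m M a') :
    lam a = lam a' := by
  obtain ⟨ha, z, hz, hM⟩ := h
  obtain ⟨ha', z', hz', hM'⟩ := h'
  have h1 := cz_wd hu hm (γ := 1) hz hz' ha ha' (by rw [one_mul, one_mul, ← hM, ← hM'])
  have h2 := hlam _ h1
  rw [map_sub] at h2
  exact sub_eq_zero.1 h2

private theorem sQ_near (hu : Rep p d u) {m : ℕ}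
    {lam : Matrix I I (ZMod p) →ₗ[ZMod p] ZMod p} (hlam : ∀ M ∈ CZ d u Z m, lam M = 0)
    {M M' a : Matrix I I (ZMod p)} (h : sQ d u Z m M a) (h' : JJ d (m + 1) (M' - M)) :
    ∃ a', sQ d u Z m M' a' ∧ lam a' = lam a := by
  obtain ⟨ha, z, hz, hM⟩ := h
  have h1 : JJ d (m + 1) (u z⁻¹ * (M' - M)) := by
    have := (s2_J0 hu z⁻¹).mul h'
    rwa [zero_add] at this
  refine ⟨a + u z⁻¹ * (M' - M), ⟨ha.add (JJ.mono (Nat.le_succ m) h1), z, hz, ?_⟩, ?_⟩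
  · have e1 : u z * (1 + (a + u z⁻¹ * (M' - M))) =
        u z * (1 + a) + (u z * u z⁻¹) * (M' - M) := by noncomm_ring
    rw [e1, s2_inv, one_mul, ← hM]
    abel
  · rw [map_add, hlam _ (JJ_mem_CZ h1), add_zero]

private theorem sQ_mul (hu : Rep p d u) {m : ℕ} (hm : 1 ≤ m)
    {lam : Matrix I I (ZMod p) →ₗ[ZMod p] ZMod p} (hlam : ∀ M ∈ CZ d u Z m, lam M = 0)
    {M M' a a' : Matrix I I (ZMod p)} (h : sQ d u Z m M a) (h' : sQ d u Z m M' a') :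
    ∃ a'', sQ d u Z m (M * M') a'' ∧ lam a'' = lam a + lam a' := by
  obtain ⟨ha, z, hz, hM⟩ := h
  obtain ⟨ha', z', hz', hM'⟩ := h'
  have h1 : sQ d u Z m (u (z * z') * (1 + (a + a'))) (a + a') :=
    ⟨ha.add ha', z * z', Z.mul_mem hz hz', rfl⟩
  have h2 : JJ d (m + 1) (M * M' - u (z * z') * (1 + (a + a'))) := by
    have e1 : M * M' - u (z * z') * (1 + (a + a')) =
        u z * (a * (u z' - 1) + a * (u z' * a') - (u z' - 1) * a) := by
      rw [hM, hM', map_mul]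
      noncomm_ring
    rw [e1]
    have j1 : JJ d (m + 1) (a * (u z' - 1)) := ha.mul (hu.one z')
    have j2 : JJ d (m + 1) (a * (u z' * a')) := by
      have := ha.mul ((s2_J0 hu z').mul ha')
      exact JJ.mono (by omega) this
    have j3 : JJ d (m + 1) ((u z' - 1) * a) := by
      have := (hu.one z').mul ha
      rwa [add_comm] at this
    have := (s2_J0 hu z).mul ((j1.add j2).sub j3)
    rwa [zero_add] at this
  obtain ⟨a'', h3, h4⟩ := sQ_near hu hlam h1 h2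
  exact ⟨a'', h3, by rw [h4, map_add]⟩

private theorem sQ_conj (hu : Rep p d u) (hZ : Z ≤ Subgroup.center Γ) {m : ℕ}
    {lam : Matrix I I (ZMod p) →ₗ[ZMod p] ZMod p} (hlam : ∀ M ∈ CZ d u Z m, lam M = 0)
    {M a b C C' : Matrix I I (ZMod p)} (h : sQ d u Z m M a) (γ : Γ) (hb : JJ d m b)
    (hC : C = u γ * (1 + b)) (hC1 : JJ d 1 (C - 1)) (hC' : JJ d 0 C') (hCC : C * C' = 1) :
    ∃ a', sQ d u Z m (C * M * C') a' ∧ lam a' = lam a := by
  refine sQ_near hu hlam h ?_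
  obtain ⟨ha, z, hz, hM⟩ := h
  have hzc : u γ * u z = u z * u γ := by
    rw [← map_mul, ← map_mul, Subgroup.mem_center_iff.1 (hZ hz) γ]
  have e1 : C * M * C' - M = (C * M - M * C) * C' := by
    rw [sub_mul, mul_assoc M C C', hCC, mul_one]
  have e2 : C * M - M * C = (C * u z - u z * C) * (1 + a) + u z * ((C - 1) * a - a * (C - 1)) := by
    rw [hM]
    noncomm_ring
  have e3 : C * u z - u z * C = u γ * (b * (u z - 1) - (u z - 1) * b) := by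
    rw [hC]
    have e4 : u γ * (1 + b) * u z - u z * (u γ * (1 + b)) =
        u γ * (b * (u z - 1) - (u z - 1) * b) + (u γ * u z - u z * u γ) +
          (u γ * u z - u z * u γ) * b := by
      noncomm_ring
    rw [e4, hzc, sub_self, zero_mul, add_zero, add_zero]
  have j1 : JJ d (m + 1) (C * u z - u z * C) := by
    rw [e3]
    have k1 : JJ d (m + 1) (b * (u z - 1)) := hb.mul (hu.one z)
    have k2 : JJ d (m + 1) ((u z - 1) * b) := by
      have := (hu.one z).mul hb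
      rwa [add_comm] at this
    have := (s2_J0 hu γ).mul (k1.sub k2)
    rwa [zero_add] at this
  have j2 : JJ d (m + 1) ((C - 1) * a - a * (C - 1)) := by
    have k1 : JJ d (m + 1) ((C - 1) * a) := by
      have := hC1.mul ha
      rwa [add_comm] at this
    exact k1.sub (ha.mul hC1)
  have j3 : JJ d 0 (1 + a) := JJ.one.add (JJ.mono (Nat.zero_le m) ha)
  have j4 : JJ d (m + 1) (C * M - M * C) := by
    rw [e2]
    have k1 := j1.mul j3
    rw [add_zero] at k1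
    have k2 := (s2_J0 hu z).mul j2
    rw [zero_add] at k2
    exact k1.add k2
  rw [e1]
  have := j4.mul hC'
  rwa [add_zero] at this

open Classical in
/-- the value of `lam` on `M` -/
private noncomputable def sMu (d : I → ℕ) (u : Γ →* Matrix I I (ZMod p)) (Z : Subgroup Γ) (m : ℕ)
    (lam : Matrix I I (ZMod p) →ₗ[ZMod p] ZMod p) (M : Matrix I I (ZMod p)) : ZMod p :=
  if h : ∃ a, sQ d u Z m M a then lam h.choose else 0

private theorem sMu_eq (hu : Rep p d u) {m : ℕ} (hm : 1 ≤ m)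
    {lam : Matrix I I (ZMod p) →ₗ[ZMod p] ZMod p} (hlam : ∀ M ∈ CZ d u Z m, lam M = 0)
    {M a : Matrix I I (ZMod p)} (h : sQ d u Z m M a) : sMu d u Z m lam M = lam a := by
  have hex : ∃ a, sQ d u Z m M a := ⟨a, h⟩
  unfold sMu
  rw [dif_pos hex]
  exact sQ_wd hu hm hlam hex.choose_spec h

/-- the elements `z g`, `z ∈ Z`, `u g - 1 ∈ JJ d m` -/
private def sN (hu : Rep p d u) (hZ : Z ≤ Subgroup.center Γ) (m : ℕ) : Subgroup Γ where
  carrier := {γ | ∃ z ∈ Z, ∃ g : Γ, JJ d m (u g - 1) ∧ γ = z * g}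
  mul_mem' := by
    rintro _ _ ⟨z, hz, g, hg, rfl⟩ ⟨z', hz', g', hg', rfl⟩
    refine ⟨z * z', Z.mul_mem hz hz', g * g', ?_, ?_⟩
    · rw [map_mul]; exact uni_mul hg hg'
    · have := Subgroup.mem_center_iff.1 (hZ hz') g
      rw [mul_assoc, ← mul_assoc g, this]
      simp only [mul_assoc]
  one_mem' := ⟨1, Z.one_mem, 1, by rw [map_one, sub_self]; exact JJ.zero, by rw [mul_one]⟩
  inv_mem' := by
    rintro _ ⟨z, hz, g, hg, rfl⟩
    refine ⟨z⁻¹, Z.inv_mem hz, g⁻¹, ?_, ?_⟩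
    · have e1 : u g⁻¹ - 1 = -(u g⁻¹ * (u g - 1)) := by
        rw [mul_sub, s2_inv', mul_one]; abel
      rw [e1]
      have := (s2_J0 hu g⁻¹).mul hg
      rw [zero_add] at this
      exact this.neg
    · have := Subgroup.mem_center_iff.1 (hZ (Z.inv_mem hz)) g⁻¹
      rw [mul_inv_rev, this]

private theorem sN_mem {hu : Rep p d u} {hZ : Z ≤ Subgroup.center Γ} {m : ℕ} {γ : Γ} :
    γ ∈ sN hu hZ m ↔ ∃ z ∈ Z, ∃ g : Γ, JJ d m (u g - 1) ∧ γ = z * g := Iff.rfl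

private theorem sN_normal (hu : Rep p d u) (hZ : Z ≤ Subgroup.center Γ) (m : ℕ) :
    (sN hu hZ m).Normal := by
  constructor
  rintro _ ⟨z, hz, g, hg, rfl⟩ τ
  refine sN_mem.2 ⟨z, hz, τ * g * τ⁻¹, ?_, ?_⟩
  · have e1 : u (τ * g * τ⁻¹) - 1 = u τ * (u g - 1) * u τ⁻¹ := by
      rw [map_mul, map_mul, mul_sub, sub_mul, mul_one, s2_inv]
    rw [e1]
    have := ((s2_J0 hu τ).mul hg).mul (s2_J0 hu τ⁻¹)
    rwa [zero_add, add_zero] at this
  · have := Subgroup.mem_center_iff.1 (hZ hz) τ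
    rw [← mul_assoc, this]
    simp only [mul_assoc]

end aux

variable {p : ℕ} [hp : Fact p.Prime] {k K Ω : Type*} [Field k] [IsAlgClosed k] [Field K]
  [Field Ω] [Algebra k K] [Algebra K Ω] [Algebra k Ω] [IsScalarTower k K Ω] [CharP k p]
  [CharP K p] [CharP Ω p] [IsSepClosure K Ω] {x : K} {vK : VI K} {D : Derivation k Ω Ω}
  {I : Type*} [Fintype I] [DecidableEq I] {d : I → ℕ} {Γ : Type*} [Group Γ]
  {u : Γ →* Matrix I I (ZMod p)} {Z : Subgroup Γ}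

theorem s2_char (B : Base p k x vK) (hD : D (algebraMap K Ω x) = 1) (hu : Rep p d u)
    (hZ : Z ≤ Subgroup.center Γ) (r : (Ω ≃ₐ[K] Ω) →* Γ)
    {F F₁ : IntermediateField K Ω} {n n₁ : ℕ} {κ κ₁ : ℤ} {v : VI F} {v₁ : VI F₁}
    (UF : UU p k x D F n κ v) (hF : ∀ σ, Fx F σ → r σ = 1)
    (U₁ : UU p k x D F₁ n₁ κ₁ v₁) (hN : NN p n₁ κ₁) (hF₁ : ∀ σ, Fx F₁ σ → r σ ∈ Z)
    {Dm : Matrix I I k} {g : Matrix I I Ω} {c : (Ω ≃ₐ[K] Ω) →* Matrix I I (ZMod p)}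
    (hL : Lang p x d Dm g c) {m : ℕ} (hm : 1 ≤ m)
    (b : (Ω ≃ₐ[K] Ω) → Matrix I I (ZMod p)) (hb : ∀ σ, JJ d m (b σ))
    (hcb : ∀ σ, ∃ z ∈ Z, c σ = u (r σ * z) * (1 + b σ))
    (lam : Matrix I I (ZMod p) →ₗ[ZMod p] ZMod p) (hlam : ∀ M ∈ CZ d u Z m, lam M = 0)
    (hadd : ∀ σ τ, lam (b (σ * τ)) = lam (b σ) + lam (b τ))
    (h0 : ∀ σ, r σ ∈ Z → c σ = 1 → lam (b σ) = 0) :
    LinC (k := k) p x (fun σ => lam (b σ)) := by
  obtain ⟨nL, κL, vL, UL, FL⟩ := lang_uu B hD hu.lt hL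
  have NL : NN p nL κL := lang_NN B hD hu.lt hL UL FL
  obtain ⟨L, hLdef⟩ : ∃ L : IntermediateField K Ω,
      L = IntermediateField.adjoin K {a | ∃ i j, a = g i j} := ⟨_, rfl⟩
  subst hLdef
  obtain ⟨n₂, κ₂, v₂, U₂⟩ := UU.sup B hD UF UL
  obtain ⟨q, hq1, w₀, hw₀, hw₀σ⟩ := polC_of_uu B hD U₂ (fun σ => lam (b σ)) hadd (by
    intro σ hσ
    apply h0
    · rw [hF σ (fun a ha => hσ a ((le_sup_left : F ≤ F ⊔ _) ha))]
      exact Z.one_mem
    · exact (FL σ).2 (fun a ha => hσ a ((le_sup_right : _ ≤ F ⊔ _) ha)))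
  by_cases hdeg : q.natDegree ≤ 1
  · exact PolC.lin ⟨hq1, w₀, hw₀, hw₀σ⟩ hdeg
  exfalso
  haveI hNn : (sN hu hZ m).Normal := sN_normal hu hZ m
  haveI := U₁.fin
  haveI := U₁.gal
  obtain ⟨E, hEF, hEgal, hEfld, -⟩ := exists_fieldOf
    ((QuotientGroup.mk' (sN hu hZ m)).comp r) F₁ (by
      intro σ hσ
      rw [MonoidHom.comp_apply, QuotientGroup.mk'_apply, QuotientGroup.eq_one_iff]
      exact sN_mem.2 ⟨r σ, hF₁ σ hσ, 1, by rw [map_one, sub_self]; exact JJ.zero, by rw [mul_one]⟩)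
  have hEN : ∀ σ, Fx E σ ↔ r σ ∈ sN hu hZ m := by
    intro σ
    rw [← hEfld σ, MonoidHom.comp_apply, QuotientGroup.mk'_apply, QuotientGroup.eq_one_iff]
  obtain ⟨nE, κE, vE, UE⟩ := UU.sub B hD U₁ hEF
  have NE : NN p nE κE := UU.NN_mono B hD UE U₁ hEF hN
  have hEL : E ≤ IntermediateField.adjoin K {a | ∃ i j, a = g i j} := by
    apply le_of_fx
    intro σ hσ
    rw [hEN]
    obtain ⟨z, hz, hc⟩ := hcb σ
    rw [(FL σ).2 hσ] at hc
    have h1 : u (r σ * z)⁻¹ = 1 + b σ := by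
      have := congrArg (fun M => u (r σ * z)⁻¹ * M) hc
      rw [mul_one, ← mul_assoc, s2_inv', one_mul] at this
      exact this
    have h2 : (r σ * z)⁻¹ ∈ sN hu hZ m :=
      sN_mem.2 ⟨1, Z.one_mem, (r σ * z)⁻¹, by rw [h1, add_sub_cancel_left]; exact hb σ,
        by rw [one_mul]⟩
    have h3 : r σ * z ∈ sN hu hZ m := by
      have := (sN hu hZ m).inv_mem h2
      rwa [inv_inv] at this
    have h4 : z⁻¹ ∈ sN hu hZ m :=
      sN_mem.2 ⟨z⁻¹, Z.inv_mem hz, 1, by rw [map_one, sub_self]; exact JJ.zero, by rw [mul_one]⟩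
    have := (sN hu hZ m).mul_mem h3 h4
    rwa [mul_inv_cancel_right] at this
  -- the two characters
  have hex : ∀ σ, Fx E σ → ∃ a₁ a₂ : Matrix I I (ZMod p), sQ d u Z m (c σ) a₁ ∧
      sQ d u Z m (u (r σ)) a₂ ∧ lam (b σ) = lam a₁ - lam a₂ := by
    intro σ hσ
    obtain ⟨z₂, hz₂, g₂, hg₂, hr⟩ := sN_mem.1 ((hEN σ).1 hσ)
    obtain ⟨z, hz, hc⟩ := hcb σ
    refine ⟨(u g₂ - 1) + b σ + (u g₂ - 1) * b σ, u g₂ - 1, ⟨?_, z₂ * z, Z.mul_mem hz₂ hz, ?_⟩,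
      ⟨hg₂, z₂, hz₂, ?_⟩, ?_⟩
    · refine (hg₂.add (hb σ)).add (JJ.mono ?_ (hg₂.mul (hb σ)))
      omega
    · rw [hc, hr]
      have e1 : z₂ * g₂ * z = z₂ * z * g₂ := by
        rw [mul_assoc, Subgroup.mem_center_iff.1 (hZ hz) g₂, mul_assoc]
      rw [e1, map_mul u (z₂ * z) g₂]
      noncomm_ring
    · rw [hr, map_mul]
      noncomm_ring
    · have h1 : lam ((u g₂ - 1) * b σ) = 0 := by
        apply hlam
        apply JJ_mem_CZ
        exact JJ.mono (by omega) (hg₂.mul (hb σ))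
      rw [map_add, map_add, h1]
      ring
  obtain ⟨wc, hwcE, hwcσ, hwcS⟩ := char_small B hD UE UL NL hEL
    (fun σ => sMu d u Z m lam (c σ))
    (by
      intro σ τ hσ hτ
      obtain ⟨a₁, -, h1, -, -⟩ := hex σ hσ
      obtain ⟨a₁', -, h1', -, -⟩ := hex τ hτ
      obtain ⟨a'', h2, h3⟩ := sQ_mul hu hm hlam h1 h1'
      show sMu d u Z m lam (c (σ * τ)) = sMu d u Z m lam (c σ) + sMu d u Z m lam (c τ)
      rw [map_mul, sMu_eq hu hm hlam h2, sMu_eq hu hm hlam h1, sMu_eq hu hm hlam h1', h3])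
    (by
      intro σ hσ
      show sMu d u Z m lam (c σ) = 0
      rw [(FL σ).2 hσ]
      have h1 : sQ d u Z m 1 0 := ⟨JJ.zero, 1, Z.one_mem, by rw [map_one, add_zero, mul_one]⟩
      rw [sMu_eq hu hm hlam h1, map_zero])
    (by
      intro τ σ hσ
      obtain ⟨a₁, -, h1, -, -⟩ := hex σ hσ
      obtain ⟨z, hz, hc⟩ := hcb τ
      obtain ⟨a', h2, h3⟩ := sQ_conj hu hZ hlam h1 (r τ * z) (hb τ) hc (hL.hc τ)
        (JJ.zero_of_uni (hL.hc τ⁻¹)) (by rw [← map_mul, mul_inv_cancel, map_one])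
      show sMu d u Z m lam (c (τ * σ * τ⁻¹)) = sMu d u Z m lam (c σ)
      rw [map_mul, map_mul, sMu_eq hu hm hlam h2, sMu_eq hu hm hlam h1, h3])
  obtain ⟨wr, hwrE, hwrσ, hwrS⟩ := char_small B hD UE U₁ hN hEF
    (fun σ => sMu d u Z m lam (u (r σ)))
    (by
      intro σ τ hσ hτ
      obtain ⟨-, a₂, -, h1, -⟩ := hex σ hσ
      obtain ⟨-, a₂', -, h1', -⟩ := hex τ hτ
      obtain ⟨a'', h2, h3⟩ := sQ_mul hu hm hlam h1 h1'
      show sMu d u Z m lam (u (r (σ * τ))) = sMu d u Z m lam (u (r σ)) + sMu d u Z m lam (u (r τ))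
      rw [map_mul, map_mul, sMu_eq hu hm hlam h2, sMu_eq hu hm hlam h1, sMu_eq hu hm hlam h1', h3])
    (by
      intro σ hσ
      show sMu d u Z m lam (u (r σ)) = 0
      have h1 : sQ d u Z m (u (r σ)) 0 := ⟨JJ.zero, r σ, hF₁ σ hσ, by rw [add_zero, mul_one]⟩
      rw [sMu_eq hu hm hlam h1, map_zero])
    (by
      intro τ σ hσ
      obtain ⟨-, a₂, -, h1, -⟩ := hex σ hσ
      obtain ⟨a', h2, h3⟩ := sQ_conj hu hZ hlam h1 (r τ) (b := 0) JJ.zero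
        (by rw [add_zero, mul_one]) (hu.one (r τ)) (s2_J0 hu (r τ)⁻¹) (s2_inv (r τ))
      show sMu d u Z m lam (u (r (τ * σ * τ⁻¹))) = sMu d u Z m lam (u (r σ))
      rw [map_mul r, map_mul r, map_inv r, map_mul u, map_mul u, sMu_eq hu hm hlam h2,
        sMu_eq hu hm hlam h1, h3])
  have he : w₀ - (wc - wr) ∈ E := by
    apply mem_of_char_eq (p := p) (χ := fun σ => lam (b σ)) (fun σ _ => hw₀σ σ)
    intro σ hσ
    obtain ⟨a₁, a₂, h1, h2, h3⟩ := hex σ hσ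
    have h4 : lam (b σ) = sMu d u Z m lam (c σ) - sMu d u Z m lam (u (r σ)) := by
      rw [sMu_eq hu hm hlam h1, sMu_eq hu hm hlam h2, h3]
    show σ (wc - wr) = wc - wr + ((lam (b σ)).val : Ω)
    rw [h4, val_sub_cast, map_sub, hwcσ σ hσ, hwrσ σ hσ]
    ring
  have hbig := big_pol B hD UE NE hq1 (by omega : 2 ≤ q.natDegree)
  have hsm := (hwcS.sub hwrS).congr he
  have e1 : (wc ^ p - wc) - (wr ^ p - wr) + ((w₀ - (wc - wr)) ^ p - (w₀ - (wc - wr))) =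
      algebraMap K Ω (aeval x q) := by
    rw [← hw₀, sub_pow_char, sub_pow_char]
    ring
  rw [e1] at hsm
  exact hbig.not_small hsm

end BAC
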