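import Pool.Agent.BAC.S2Char
import Pool.Agent.BAC.ApprStep

/-!
BAC / S5 (blueprint 5.2). Lifting modulo a central subgroup.

Induction on `m`, `1 ≤ m ≤ p`: there is a Lang torsor with `Appr d u Z r m c`. `m = 1`: `lang_trivial`, `appr_one`.
Step: `appr_char` (`Z` is normal as it is central), `s2_char`, `appr_step`. End: `appr_end`.
-/

namespace BAC

open Polynomial WithZero IntermediateField Pool.Agent.Helper32

variable {p : ℕ} [hp : Fact p.Prime] {k K Ω : Type*} [Field k] [IsAlgClosed k] [Field K]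
  [Field Ω] [Algebra k K] [Algebra K Ω] [Algebra k Ω] [IsScalarTower k K Ω] [CharP k p]
  [CharP K p] [CharP Ω p] [IsSepClosure K Ω] {x : K} {vK : VI K} {D : Derivation k Ω Ω}
  {I : Type*} [Fintype I] [DecidableEq I] {d : I → ℕ} {Γ : Type*} [Group Γ]
  {u : Γ →* Matrix I I (ZMod p)} {Z : Subgroup Γ}

theorem s2_main (B : Base p k x vK) (hD : D (algebraMap K Ω x) = 1) (hu : Rep p d u)
    (hZ : Z ≤ Subgroup.center Γ) (r : (Ω ≃ₐ[K] Ω) →* Γ)
    {F F₁ : IntermediateField K Ω} {n n₁ : ℕ} {κ κ₁ : ℤ} {v : VI F} {v₁ : VI F₁}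
    (UF : UU p k x D F n κ v) (hF : ∀ σ, Fx F σ → r σ = 1)
    (U₁ : UU p k x D F₁ n₁ κ₁ v₁) (hN : NN p n₁ κ₁) (hF₁ : ∀ σ, Fx F₁ σ → r σ ∈ Z) :
    ∃ (Dm : Matrix I I k) (g : Matrix I I Ω) (c : (Ω ≃ₐ[K] Ω) →* Matrix I I (ZMod p)),
      Lang p x d Dm g c ∧ ∀ σ, ∃ z ∈ Z, c σ = u (r σ * z) := by
  have hZn : Z.Normal := ⟨fun z hz g => by
    have h := Subgroup.mem_center_iff.1 (hZ hz) g
    rw [h, mul_inv_cancel_right]
    exact hz⟩
  have key : ∀ m : ℕ, 1 ≤ m → ∃ (Dm : Matrix I I k) (g : Matrix I I Ω)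
      (c : (Ω ≃ₐ[K] Ω) →* Matrix I I (ZMod p)), Lang p x d Dm g c ∧ Appr d u Z r m c := by
    intro m hm
    induction m, hm using Nat.le_induction with
    | base =>
      have hL : Lang p x d (0 : Matrix I I k) (1 : Matrix I I Ω) 1 := lang_trivial
      exact ⟨0, 1, 1, hL, appr_one hu r _ hL.hc⟩
    | succ m hm ih =>
      obtain ⟨Dm, g, c, hL, hA⟩ := ih
      obtain ⟨b, hb, hcb, hlam⟩ := appr_char hu r c hm hA
      obtain ⟨Dm', g', c', hL', hA', -⟩ := appr_step hu hL r hm b hb hcb fun lam hl =>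
        s2_char B hD hu hZ r UF hF U₁ hN hF₁ hL hm b hb hcb lam hl (hlam lam hl).1
          (hlam lam hl).2
      exact ⟨Dm', g', c', hL', hA'⟩
  obtain ⟨Dm, g, c, hL, hA⟩ := key p hp.out.one_lt.le
  exact ⟨Dm, g, c, hL, appr_end hu r c hA⟩

end BAC
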