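import Pool.Agent.BAC.Defs

/-!
BAC / U1 (blueprint 1.4). Traces in Artin-Schreier extensions.

`trace_AS`: `Algebra.trace E F (w ^ j)` for `0 ≤ j < p - 1` is `0` and for `j = p - 1` it is `-1`
(if `p = 2`: `w ^ 1` has trace `1 = -1`). Proof: `F / E` is Galois (`ASData.isGalois` in helper32's
files) with the automorphisms `w ↦ w + i`, so the trace of `w ^ (p-1)` is `∑_{i ∈ F_p} (w + i) ^ (p-1)`, which is
`-1` (`sum_add_pow` in `Pool/Agent/Helper32/AS27.lean`); or use Newton's identities for
`X ^ p - X - P` and the power basis.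
-/

namespace BAC

open Polynomial WithZero Pool.Agent.Helper32

private theorem trTop_zmod {p : ℕ} [hp : Fact p.Prime] : ∑ i : ZMod p, i ^ (p - 1) = -1 := by
  classical
  have hp1 : p - 1 ≠ 0 := by have := hp.out.two_le; omega
  have h1 : ∀ i : ZMod p, i ^ (p - 1) = 1 - if i = 0 then 1 else 0 := by
    intro i
    by_cases hi : i = 0
    · subst hi; simp [hp1]
    · rw [ZMod.pow_card_sub_one_eq_one hi, if_neg hi, sub_zero]
  rw [Finset.sum_congr rfl (fun i _ => h1 i), Finset.sum_sub_distrib]
  simp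

private theorem trTop_add_pow {p : ℕ} [hp : Fact p.Prime] {F : Type*} [Field F] [CharP F p]
    (y : F) : ∑ i ∈ Finset.range p, (y + (i : F)) ^ (p - 1) = -1 := by
  have hp2 := hp.out.two_le
  let _ : Algebra (ZMod p) F := ZMod.algebra F p
  have h0 : ∑ i ∈ Finset.range p, (y + (i : F)) ^ (p - 1) =
      ∑ i : ZMod p, (y + algebraMap (ZMod p) F i) ^ (p - 1) := by
    refine Finset.sum_nbij' (fun i => (i : ZMod p)) (fun i => i.val) ?_ ?_ ?_ ?_ ?_
    · intro i _
      exact Finset.mem_univ _
    · intro i _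
      exact Finset.mem_range.mpr (ZMod.val_lt i)
    · intro i hi
      exact ZMod.val_cast_of_lt (Finset.mem_range.mp hi)
    · intro i _
      exact ZMod.natCast_zmod_val i
    · intro i _
      rw [map_natCast]
  rw [h0]
  have h1 : ∀ i : ZMod p, (y + algebraMap (ZMod p) F i) ^ (p - 1) =
      ∑ m ∈ Finset.range p, y ^ m * ((p - 1).choose m : F) *
        algebraMap (ZMod p) F (i ^ (p - 1 - m)) := by
    intro i
    rw [add_pow, Nat.sub_add_cancel (by omega)]
    refine Finset.sum_congr rfl fun m _ => ?_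
    rw [map_pow]; ring
  rw [Finset.sum_congr rfl (fun i _ => h1 i), Finset.sum_comm]
  have h2 : ∀ m ∈ Finset.range p, ∑ i : ZMod p, y ^ m * ((p - 1).choose m : F) *
        algebraMap (ZMod p) F (i ^ (p - 1 - m)) = if m = 0 then -1 else 0 := by
    intro m hm
    rw [← Finset.mul_sum, ← map_sum]
    by_cases hm0 : m = 0
    · subst hm0
      simp [trTop_zmod]
    · rw [if_neg hm0, FiniteField.sum_pow_lt_card_sub_one, map_zero, mul_zero]
      rw [ZMod.card]; omega
  rw [Finset.sum_congr rfl h2, Finset.sum_ite_eq']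
  simp [hp.out.pos]

theorem trace_AS {p : ℕ} [hp : Fact p.Prime] {E F : Type*} [Field E] [Field F] [Algebra E F]
    [CharP E p] [CharP F p] {w : F} {P : E} (h : ASData p w P) :
    Algebra.trace E F (w ^ (p - 1)) = -1 := by
  have hfin : Module.Finite E F := h.finite
  have hG : IsGalois E F := h.isGalois
  obtain ⟨τ, hτ⟩ := h.exists_tauEquiv
  apply (algebraMap E F).injective
  rw [trace_eq_sum_automorphisms, h.sum_aut hτ, map_neg, map_one]
  rw [← trTop_add_pow (p := p) w]
  refine Finset.sum_congr rfl fun i _ => ?_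
  rw [map_pow, ASData.tau_pow hτ]

end BAC
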