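import Pool.Agent.BAC.LvlStep
import Pool.Agent.BAC.BaseLvl
import Pool.Agent.BAC.Der
import Pool.Agent.BAC.TrTop

/-!
BAC / U2 (blueprint 1.4, 1.5). Adjoining a root of `w ^ p - w = f`, `f` integral.

`TT.bot`: `⊥` is isomorphic to `K` (`IntermediateField.botEquiv`): transport `base_lvl`
(`IsLevel.transport`, helper32 AS12; `Wm` and `Rint` are transported by a `k`-algebra isomorphism
which maps `x` to `x`: `map_mem_Rint`, `mem_Rint_of_map`). `TrOne`: `θ = 1`. The derivation is
`der_restr`.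
`TT.adj`: `F₁ = IntermediateField.adjoin E {w}` is an `E`-algebra with `asData_adjoin` (helper32 AS13),
`D` restricts to `F₁` (`der_mem` for `F₁.restrictScalars K`) and extends the derivation of `E`; apply
`Lvl.step`; then transport along `adjEquiv E w : F₁ ≃ₐ[K] ↥(E ⊔ adjoin K {w})`, as in `tow_step_in`
(helper32 AS13, copy from there). `rank`: `ASData.finrank` and the tower law. `TrOne`: if `θ` has trace
`1` for `E` then `- θ w ^ (p-1)` has trace `1` (`Algebra.trace_trace`, `trace_AS`), and it is integral.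
-/

namespace BAC

open Polynomial WithZero IntermediateField Pool.Agent.Helper32

variable {p : ℕ} [hp : Fact p.Prime] {k K Ω : Type*} [Field k] [IsAlgClosed k] [Field K]
  [Field Ω] [Algebra k K] [Algebra K Ω] [Algebra k Ω] [IsScalarTower k K Ω] [CharP k p]
  [CharP K p] [CharP Ω p] [IsSepClosure K Ω] {x : K} {vK : VI K} {D : Derivation k Ω Ω}

/-- conjugation of a derivation -/
private lemma conj_der {k E E' : Type*} [Field k] [Field E] [Field E'] [Algebra k E]
    [Algebra k E'] (φ : E ≃ₐ[k] E') (D' : Derivation k E' E') :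
    ∃ D : Derivation k E E, ∀ a, D' (φ a) = φ (D a) := by
  refine ⟨Derivation.mk' (φ.symm.toLinearMap ∘ₗ (D' : E' →ₗ[k] E') ∘ₗ φ.toLinearMap)
    (fun a b => ?_), fun a => ?_⟩
  · change φ.symm (D' (φ (a * b))) = a • φ.symm (D' (φ b)) + b • φ.symm (D' (φ a))
    rw [map_mul, Derivation.leibniz]
    simp only [smul_eq_mul, map_add, map_mul, AlgEquiv.symm_apply_apply]
  · change D' (φ a) = φ (φ.symm (D' (φ a)))
    rw [AlgEquiv.apply_symm_apply]

/-- transport of levels with derivations -/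
private lemma lvl_transport {p : ℕ} {k E E' : Type*} [Field k] [Field E] [Field E'] [Algebra k E]
    [Algebra k E'] {x : E} {D : Derivation k E E} {D' : Derivation k E' E'} {n : ℕ} {κ : ℤ}
    {v : VI E} (L : Lvl p k x D n κ v) (φ : E ≃ₐ[k] E') (hD : ∀ a, D' (φ a) = φ (D a)) :
    Lvl p k (φ x) D' n κ (v.comap (φ.symm : E' →+* E)) := by
  have hv : ∀ a : E', (v.comap (φ.symm : E' →+* E)) a = v (φ.symm a) := fun a => rfl
  have hD2 : ∀ a : E', φ.symm (D' a) = D (φ.symm a) := by
    intro a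
    obtain ⟨b, rfl⟩ := φ.surjective a
    rw [hD, AlgEquiv.symm_apply_apply, AlgEquiv.symm_apply_apply]
  have hW : (Wm k x v 0).map φ.toLinearMap = Wm k (φ x) (v.comap (φ.symm : E' →+* E)) 0 := by
    unfold Wm
    rw [Submodule.map_span]
    congr 1
    ext a
    constructor
    · rintro ⟨b, hb, rfl⟩
      rcases hb with hb | hb
      · exact Or.inl (map_mem_Rint (φ : E →ₐ[k] E') hb)
      · refine Or.inr ?_
        rw [hv]
        change v (φ.symm (φ b)) ≤ _
        rw [AlgEquiv.symm_apply_apply]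
        exact hb
    · intro ha
      refine ⟨φ.symm a, ?_, φ.apply_symm_apply a⟩
      rcases ha with ha | ha
      · left
        have := map_mem_Rint (φ.symm : E' →ₐ[k] E) ha
        simpa using this
      · right
        rw [hv] at ha
        exact ha
  have e : (E ⧸ Wm k x v 0) ≃ₗ[k] (E' ⧸ Wm k (φ x) (v.comap (φ.symm : E' →+* E)) 0) :=
    Submodule.Quotient.equiv _ _ φ.toLinearEquiv hW
  obtain ⟨g, hg⟩ := L.lev
  refine ⟨⟨g, hg.transport φ⟩, ?_, fun a => ?_, fun a j ha hj => ?_, ?_, ?_⟩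
  · rw [hD, L.Dx, map_one]
  · rw [hv, hv, hD2]
    exact L.le _
  · rw [hv] at ha ⊢
    rw [hD2]
    exact L.eq _ j ha hj
  · have := L.fin
    exact Module.Finite.equiv e
  · rw [← e.finrank_eq]
    exact L.gen

theorem TT.bot (B : Base p k x vK) (hD : D (algebraMap K Ω x) = 1) :
    ∃ v, TT p k x D (⊥ : IntermediateField K Ω) 0 (-1) v ∧
      ∀ a : K, v (algebraMap K (⊥ : IntermediateField K Ω) a) = vK a := by
  have hsep : Algebra.IsSeparable K Ω := IsSepClosure.separable
  obtain ⟨D', hD'⟩ := der_restr B hD (⊥ : IntermediateField K Ω)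
  obtain ⟨φ, hφ⟩ : ∃ φ : K ≃ₐ[k] (⊥ : IntermediateField K Ω),
      ∀ a : K, φ a = algebraMap K (⊥ : IntermediateField K Ω) a :=
    ⟨(botEquiv K Ω).symm.restrictScalars k, fun a => botEquiv_symm a⟩
  obtain ⟨D₀, hD₀⟩ := conj_der φ D'
  have hx : D₀ x = 1 := by
    apply φ.injective
    rw [← hD₀, hφ, map_one]
    apply Subtype.ext
    rw [hD']
    exact hD
  have L := lvl_transport (base_lvl B D₀ hx) φ hD₀
  rw [hφ] at L
  refine ⟨_, ⟨?_, ?_, ⟨D', hD', L⟩, ?_⟩, ?_⟩
  · exact FiniteDimensional.of_finrank_pos (by rw [IntermediateField.finrank_bot]; exact one_pos)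
  · rw [IntermediateField.finrank_bot, pow_zero]
  · refine ⟨1, one_mem _, ?_⟩
    have h1 : (1 : (⊥ : IntermediateField K Ω)) =
      algebraMap K (⊥ : IntermediateField K Ω) 1 := (map_one _).symm
    rw [h1, Algebra.trace_algebraMap, IntermediateField.finrank_bot, one_smul]
  · intro a
    rw [Valuation.comap_apply, ← hφ]
    change vK (φ.symm (φ a)) = _
    rw [AlgEquiv.symm_apply_apply]

theorem TT.adj (B : Base p k x vK) (hD : D (algebraMap K Ω x) = 1) {E : IntermediateField K Ω}
    {n : ℕ} {κ : ℤ} {v : VI E} (T : TT p k x D E n κ v) {w : Ω} {f : E}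
    (hw : w ^ p - w = (f : Ω)) (hf : f ∈ Rint k (algebraMap K E x)) (hwE : w ∉ E) :
    ∃ (l : ℤ) (c : E) (v' : VI ↥(E ⊔ IntermediateField.adjoin K {w})), 0 < l ∧ ¬ (p : ℤ) ∣ l ∧
      v (f - (c ^ p - c)) = exp l ∧
      (∀ a : E, v' (inclusion (le_sup_left : E ≤ E ⊔ IntermediateField.adjoin K {w}) a) =
        v a ^ p) ∧
      (∃ h : w - (c : Ω) ∈ E ⊔ IntermediateField.adjoin K {w}, v' ⟨w - c, h⟩ = exp l) ∧
      TT p k x D (E ⊔ IntermediateField.adjoin K {w}) (n + 1) (p * κ + (p - 1) * l) v' := by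
  have hsep : Algebra.IsSeparable K Ω := IsSepClosure.separable
  have hc1 : CharP E p := charP_of_injective_algebraMap (algebraMap K E).injective p
  have hc2 : CharP ↥(IntermediateField.adjoin E {w}) p :=
    charP_of_injective_algebraMap (algebraMap E ↥(IntermediateField.adjoin E {w})).injective p
  have hs : IsScalarTower k E Ω := isScalarTower_kE E
  have hs2 : IsScalarTower k K ↥(IntermediateField.adjoin E {w}) :=
    IsScalarTower.of_algebraMap_eq (fun c => by
      apply Subtype.ext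
      exact IsScalarTower.algebraMap_apply k K Ω c)
  have h₀ := asData_adjoin (p := p) hw hwE
  obtain ⟨D', hD', L⟩ := T.lvl
  obtain ⟨D₂, hD₂⟩ := der_restr B hD (E ⊔ IntermediateField.adjoin K {w})
  obtain ⟨φ, hφ⟩ : ∃ φ : ↥(IntermediateField.adjoin E {w}) ≃ₐ[k]
      ↥(E ⊔ IntermediateField.adjoin K {w}), ∀ z, ((φ z : _) : Ω) = (z : Ω) :=
    ⟨(adjEquiv E w).restrictScalars k, fun z => rfl⟩
  obtain ⟨D₁, hD₁⟩ := conj_der φ D₂
  have hD₁' : ∀ a : E, D₁ (algebraMap E ↥(IntermediateField.adjoin E {w}) a) =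
      algebraMap E ↥(IntermediateField.adjoin E {w}) (D' a) := by
    intro a
    apply φ.injective
    rw [← hD₁]
    apply Subtype.ext
    rw [hD₂, hφ, hφ]
    exact (hD' a).symm
  obtain ⟨l, c, v', hl0, hl, hfl, hwc, hv', L'⟩ := L.step h₀ hf D₁ hD₁'
  have L'' := lvl_transport L' φ hD₁
  have hx : φ (algebraMap E ↥(IntermediateField.adjoin E {w}) (algebraMap K E x)) =
      algebraMap K ↥(E ⊔ IntermediateField.adjoin K {w}) x := by
    apply Subtype.ext
    rw [hφ]
    rfl
  rw [hx] at L''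
  have hfE := T.fin
  have hfF : Module.Finite E ↥(IntermediateField.adjoin E {w}) := h₀.finite
  have hfK : Module.Finite K ↥(IntermediateField.adjoin E {w}) := Module.Finite.trans E _
  refine ⟨l, c, _, hl0, hl, hfl, ?_, ⟨?_, ?_⟩, ⟨?_, ?_, ⟨D₂, hD₂, L''⟩, ?_⟩⟩
  · intro a
    rw [Valuation.comap_apply, ← hv']
    congr 1
    apply φ.injective
    rw [RingHom.coe_coe, AlgEquiv.apply_symm_apply]
    apply Subtype.ext
    rw [hφ]
    rfl
  · refine sub_mem ?_ ?_
    · exact (le_sup_right : IntermediateField.adjoin K {w} ≤ E ⊔ IntermediateField.adjoin K {w})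
        (mem_adjoin_simple_self K w)
    · exact (le_sup_left : E ≤ E ⊔ IntermediateField.adjoin K {w}) c.2
  · rw [Valuation.comap_apply, ← hwc]
    congr 1
    apply φ.injective
    rw [RingHom.coe_coe, AlgEquiv.apply_symm_apply]
    apply Subtype.ext
    rw [hφ]
    rfl
  · exact Module.Finite.equiv (adjEquiv E w).toLinearEquiv
  · rw [← (adjEquiv E w).toLinearEquiv.finrank_eq, ← Module.finrank_mul_finrank K E
      ↥(IntermediateField.adjoin E {w}), T.rank, h₀.finrank, pow_succ]
  · obtain ⟨θ, hθ, hθ1⟩ := T.tr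
    refine ⟨φ (algebraMap E ↥(IntermediateField.adjoin E {w}) (-θ) * (⟨w, mem_adjoin_simple_self E w⟩ : ↥(IntermediateField.adjoin E {w})) ^ (p - 1)), ?_, ?_⟩
    · rw [← hx]
      have e1 : algebraMap E ↥(IntermediateField.adjoin E {w}) (-θ) ∈ Rint k (algebraMap E ↥(IntermediateField.adjoin E {w}) (algebraMap K E x)) :=
        map_mem_Rint (IsScalarTower.toAlgHom k E ↥(IntermediateField.adjoin E {w})) (neg_mem hθ)
      have e2 : (⟨w, mem_adjoin_simple_self E w⟩ : ↥(IntermediateField.adjoin E {w})) ∈ Rint k (algebraMap E ↥(IntermediateField.adjoin E {w}) (algebraMap K E x)) := by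
        apply mem_Rint_of_wp (p := p)
        rw [h₀.eq]
        exact map_mem_Rint (IsScalarTower.toAlgHom k E ↥(IntermediateField.adjoin E {w})) hf
      exact map_mem_Rint (φ : ↥(IntermediateField.adjoin E {w}) →ₐ[k]
        ↥(E ⊔ IntermediateField.adjoin K {w})) (mul_mem e1 (pow_mem e2 _))
    · have e3 : φ (algebraMap E ↥(IntermediateField.adjoin E {w}) (-θ) * (⟨w, mem_adjoin_simple_self E w⟩ : ↥(IntermediateField.adjoin E {w})) ^ (p - 1)) =
          adjEquiv E w (algebraMap E ↥(IntermediateField.adjoin E {w}) (-θ) * (⟨w, mem_adjoin_simple_self E w⟩ : ↥(IntermediateField.adjoin E {w})) ^ (p - 1)) := by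
        apply Subtype.ext
        rw [hφ]
        rfl
      rw [e3, Algebra.trace_eq_of_algEquiv (adjEquiv E w), ← Algebra.trace_trace (S := E),
        ← Algebra.smul_def, map_smul, trace_AS h₀, smul_eq_mul, mul_neg_one, neg_neg, hθ1]

end BAC
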