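import Pool.Agent.BAC.Defs

/-!
BAC / U4 (blueprint 1.1, 1.2). The trace one element for subfields and composita.

`tr_subgroup`: `θ ∈ R_E` with `∑_{σ ∈ G} σ θ = 1`, `G = Gal(E/K)` (`Algebra.trace_eq_sum_automorphisms` or
`trace_eq_sum_embeddings`; `algebraMap` is injective). `H ≤ G`: choose representatives of the right cosets,
`G = ⊔ H g_j`, `θ_H = ∑_j g_j θ`: `∑_{h ∈ H} h θ_H = ∑_{σ ∈ G} σ θ = 1`. Integral: `map_mem_Rint`.
(Right cosets: `Quotient (QuotientGroup.rightRel H)`, or use `H ⧸`-cosets for the inverses.)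
`TrOne.sub`: `E ≤ E'` both Galois, `θ' ∈ R_E'` of trace one: `θ = Tr_(E'/E) θ' ∈ R_E` has trace one by
`Algebra.trace_trace` (`E'` as an `E`-algebra via `inclusion`; the trace is `∑_{σ ∈ Gal(E'/E)} σ θ'`, which is
integral; `mem_Rint_of_map`).
`TrOne.sup`: `L = E₁ ⊔ E₂`, Galois over `K`. `H = Gal(L/E₁)`; restriction to `E₂` is injective on `H`, with
image `H₂ ≤ Gal(E₂/K)`; by `tr_subgroup` there is `θ₂ ∈ R_E₂` with `∑_{h ∈ H₂} h θ₂ = 1`, so
`Tr_(L/E₁) θ₂ = 1`; `θ₁ θ₂` has trace `Tr_(E₁/K) (θ₁ Tr_(L/E₁) θ₂) = 1`.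
-/

namespace BAC

open Polynomial WithZero IntermediateField Pool.Agent.Helper32

variable {k K Ω : Type*} [Field k] [Field K]
  [Field Ω] [Algebra k K] [Algebra K Ω] [Algebra k Ω] [IsScalarTower k K Ω] {x : K}

private theorem sum_cosets {G A : Type*} [Group G] [Fintype G] [AddCommMonoid A] (H : Subgroup G) [Fintype H]
    [Fintype (G ⧸ H)] (F : G → A) :
    ∑ g, F g = ∑ h : H, ∑ q : G ⧸ H, F ((h : G) * (q.out)⁻¹) := by
  classical
  rw [← Fintype.sum_prod_type']
  refine (Fintype.sum_bijective (fun p : H × (G ⧸ H) => (p.1 : G) * (p.2.out)⁻¹) ⟨?_, ?_⟩ _ _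
    (fun p => rfl)).symm
  · rintro ⟨h, q⟩ ⟨h', q'⟩ e
    simp only at e
    have e1 : q.out * (h : G)⁻¹ = q'.out * (h' : G)⁻¹ := by
      have := congrArg (fun g => g⁻¹) e
      simpa using this
    have e2 : q = q' := by
      have e3 : ((q.out * (h : G)⁻¹ : G) : G ⧸ H) = ((q'.out * (h' : G)⁻¹ : G) : G ⧸ H) := by rw [e1]
      rw [QuotientGroup.mk_mul_of_mem _ (H.inv_mem h.2), QuotientGroup.mk_mul_of_mem _ (H.inv_mem h'.2),
        QuotientGroup.out_eq', QuotientGroup.out_eq'] at e3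
      exact e3
    subst e2
    have e4 : h = h' := by
      apply Subtype.ext
      exact mul_right_cancel e
    rw [e4]
  · intro g
    have hm : (g * ((g⁻¹ : G) : G ⧸ H).out) ∈ H := by
      have : ((g⁻¹ : G) : G ⧸ H) = ((((g⁻¹ : G) : G ⧸ H).out : G) : G ⧸ H) := by
        rw [QuotientGroup.out_eq']
      have h2 := QuotientGroup.eq.1 this
      rwa [inv_inv] at h2
    refine ⟨(⟨_, hm⟩, ((g⁻¹ : G) : G ⧸ H)), ?_⟩
    simp

private theorem aut_Rint {E : IntermediateField K Ω} (σ : E ≃ₐ[K] E) {θ : E}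
    (h : θ ∈ Rint k (algebraMap K E x)) : σ θ ∈ Rint k (algebraMap K E x) := by
  have h1 := map_mem_Rint ((σ : E →ₐ[K] E).restrictScalars k) h
  have h2 : ((σ : E →ₐ[K] E).restrictScalars k) (algebraMap K E x) = algebraMap K E x := σ.commutes x
  rw [h2] at h1
  exact h1

theorem tr_subgroup {E : IntermediateField K Ω} [FiniteDimensional K E] [IsGalois K E]
    (h : TrOne k x E) (H : Subgroup (E ≃ₐ[K] E)) [Fintype H] :
    ∃ θ : E, θ ∈ Rint k (algebraMap K E x) ∧ ∑ σ : H, (σ : E ≃ₐ[K] E) θ = 1 := by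
  classical
  obtain ⟨θ, h1, h2⟩ := h
  have : Fintype ((E ≃ₐ[K] E) ⧸ H) := Fintype.ofFinite _
  have h3 : ∑ σ : (E ≃ₐ[K] E), σ θ = 1 := by
    rw [← trace_eq_sum_automorphisms, h2, map_one]
  refine ⟨∑ q : (E ≃ₐ[K] E) ⧸ H, (q.out)⁻¹ θ, sum_mem fun q _ => aut_Rint _ h1, ?_⟩
  rw [← h3, sum_cosets H (fun σ => σ θ)]
  refine Finset.sum_congr rfl fun σ _ => ?_
  rw [map_sum]
  rfl

theorem TrOne.sub {E E' : IntermediateField K Ω} [FiniteDimensional K E'] [IsGalois K E]
    [IsGalois K E'] (hE : E ≤ E') (h : TrOne k x E') : TrOne k x E := by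
  classical
  obtain ⟨θ, h1, h2⟩ := h
  let : Algebra E E' := (inclusion hE).toRingHom.toAlgebra
  have : IsScalarTower K E E' := IsScalarTower.of_algebraMap_eq fun a => rfl
  have : FiniteDimensional E E' := Module.Finite.of_restrictScalars_finite K E E'
  have : FiniteDimensional K E := FiniteDimensional.left K E E'
  have : IsGalois E E' := IsGalois.tower_top_of_isGalois K E E'
  refine ⟨Algebra.trace E E' θ, ?_, ?_⟩
  · refine mem_Rint_of_map ((inclusion hE).restrictScalars k) ?_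
    have e1 : ((inclusion hE).restrictScalars k) (algebraMap K E x) = algebraMap K E' x := rfl
    have e2 : ((inclusion hE).restrictScalars k) (Algebra.trace E E' θ) =
        algebraMap E E' (Algebra.trace E E' θ) := rfl
    rw [e1, e2, trace_eq_sum_automorphisms]
    refine sum_mem fun σ _ => ?_
    exact aut_Rint (σ.restrictScalars K) h1
  · rw [Algebra.trace_trace, h2]

theorem TrOne.sup {E₁ E₂ : IntermediateField K Ω} [FiniteDimensional K E₁]
    [FiniteDimensional K E₂] [IsGalois K E₁] [IsGalois K E₂] (h₁ : TrOne k x E₁)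
    (h₂ : TrOne k x E₂) : TrOne k x (E₁ ⊔ E₂) := by
  classical
  obtain ⟨L, hL⟩ : ∃ L : IntermediateField K Ω, L = E₁ ⊔ E₂ := ⟨_, rfl⟩
  rw [← hL]
  have hE₁ : E₁ ≤ L := hL ▸ le_sup_left
  have hE₂ : E₂ ≤ L := hL ▸ le_sup_right
  have : FiniteDimensional K L := by rw [hL]; infer_instance
  have : IsGalois K L := by
    rw [hL]
    exact { }
  let : Algebra E₁ L := (inclusion hE₁).toRingHom.toAlgebra
  have : IsScalarTower K E₁ L := IsScalarTower.of_algebraMap_eq fun a => rfl
  let : Algebra E₂ L := (inclusion hE₂).toRingHom.toAlgebra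
  have : IsScalarTower K E₂ L := IsScalarTower.of_algebraMap_eq fun a => rfl
  have : FiniteDimensional E₁ L := Module.Finite.of_restrictScalars_finite K E₁ L
  have : IsGalois E₁ L := IsGalois.tower_top_of_isGalois K E₁ L
  let ψ : (L ≃ₐ[E₁] L) → (E₂ ≃ₐ[K] E₂) := fun τ => (τ.restrictScalars K).restrictNormal E₂
  have hψ : ∀ τ a, algebraMap E₂ L (ψ τ a) = τ (algebraMap E₂ L a) := fun τ a =>
    AlgEquiv.restrictNormal_commutes (τ.restrictScalars K) E₂ a
  let Ψ : (L ≃ₐ[E₁] L) →* (E₂ ≃ₐ[K] E₂) :=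
    { toFun := ψ
      map_one' := by
        apply AlgEquiv.ext
        intro a
        apply (algebraMap E₂ L).injective
        rw [hψ]
        rfl
      map_mul' := fun σ τ => by
        apply AlgEquiv.ext
        intro a
        apply (algebraMap E₂ L).injective
        rw [hψ]
        show _ = algebraMap E₂ L (ψ σ (ψ τ a))
        rw [hψ, hψ]
        rfl }
  have hinj : Function.Injective Ψ := by
    rw [injective_iff_map_eq_one]
    intro τ hτ
    have h2 : ∀ a : E₂, τ (algebraMap E₂ L a) = algebraMap E₂ L a := by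
      intro a
      rw [← hψ]
      show algebraMap E₂ L (Ψ τ a) = _
      rw [hτ]
      rfl
    let S : IntermediateField K L :=
      { carrier := {z | τ z = z}
        mul_mem' := fun {a b} ha hb => by
          show τ (a * b) = a * b
          rw [map_mul, show τ a = a from ha, show τ b = b from hb]
        add_mem' := fun {a b} ha hb => by
          show τ (a + b) = a + b
          rw [map_add, show τ a = a from ha, show τ b = b from hb]
        algebraMap_mem' := fun a => by
          show τ (algebraMap K L a) = algebraMap K L a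
          exact (τ.restrictScalars K).commutes a
        inv_mem' := fun a ha => by
          show τ a⁻¹ = a⁻¹
          rw [map_inv₀, show τ a = a from ha] }
    have hS : L ≤ lift S := by
      conv_lhs => rw [hL]
      refine sup_le ?_ ?_
      · intro e he
        refine (mem_lift (F := L) (E := S) ⟨e, hE₁ he⟩).2 ?_
        exact τ.commutes ⟨e, he⟩
      · intro e he
        refine (mem_lift (F := L) (E := S) ⟨e, hE₂ he⟩).2 ?_
        exact h2 ⟨e, he⟩
    apply AlgEquiv.ext
    intro z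
    exact (mem_lift (F := L) (E := S) z).1 (hS z.2)
  have : Fintype Ψ.range := Fintype.ofFinite _
  obtain ⟨θ₁, hθ₁, ht₁⟩ := h₁
  obtain ⟨θ₂, hθ₂, ht₂⟩ := tr_subgroup h₂ Ψ.range
  have h4 : Algebra.trace E₁ L (algebraMap E₂ L θ₂) = 1 := by
    apply (algebraMap E₁ L).injective
    rw [trace_eq_sum_automorphisms, map_one, ← map_one (algebraMap E₂ L), ← ht₂, map_sum]
    refine Fintype.sum_bijective (fun τ => (⟨Ψ τ, τ, rfl⟩ : Ψ.range)) ⟨?_, ?_⟩ _ _ ?_
    · intro σ τ h
      exact hinj (Subtype.ext_iff.1 h)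
    · rintro ⟨_, τ, rfl⟩
      exact ⟨τ, rfl⟩
    · intro τ
      exact (hψ τ θ₂).symm
  refine ⟨θ₁ • algebraMap E₂ L θ₂, ?_, ?_⟩
  · rw [Algebra.smul_def]
    refine mul_mem ?_ ?_
    · exact map_mem_Rint ((inclusion hE₁).restrictScalars k) hθ₁
    · exact map_mem_Rint ((inclusion hE₂).restrictScalars k) hθ₂
  · rw [← Algebra.trace_trace (S := E₁), map_smul, h4, smul_eq_mul, mul_one, ht₁]

end BAC
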