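import Pool.Agent.BAC.Defs

/-!
BAC / A2 (blueprint 1.5, genus). `dim E / (R + {v ≤ exp (-(m+1))}) = dim E / (R + {v ≤ 1}) + m`.

`R = Rint k x`. `Wm k x v m` is the set of the `r + o`, `r ∈ R`, `v o ≤ exp (-m)` (`Submodule.span` of a
union of two submodules). `Wm 0 = Wm 1`: if `v o ≤ 1` there is a constant `c` with `v (o - c) < 1`
(`L.residue`), and constants are in `R`. For `m ≥ 1`: `Wm (m+1) ≤ Wm m` and `Wm m / Wm (m+1)` is
one-dimensional: spanned by `t ^ m`, `v t = exp (-1)` (`L.approx`), and `t ^ m ∉ Wm (m+1)`: if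
`t ^ m = r + o`, then `v r < 1`, so `r = 0` (`L.R_inter_lt`), contradiction. Then use
`finrank (E / A) = finrank (E / B) + finrank (B / A)` for `A ≤ B` (e.g. the surjection
`E / A → E / B` with kernel the image of `B`, one-dimensional).
-/

namespace BAC

open Polynomial WithZero Pool.Agent.Helper32

private theorem wmd_mem {p : ℕ} [hp : Fact p.Prime] {k E : Type*} [Field k] [Field E] [Algebra k E]
    {x : E} {n g : ℕ} {v : VI E} (L : IsLevel p k x n g v) {m : ℕ} {f : E} :
    f ∈ Wm k x v m ↔ ∃ r ∈ Rint k x, v (f - r) ≤ exp (-(m : ℤ)) := by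
  constructor
  · intro hf
    unfold Wm at hf
    induction hf using Submodule.span_induction with
    | mem f hf =>
      rcases hf with hf | hf
      · exact ⟨f, hf, by rw [sub_self, map_zero]; exact zero_le⟩
      · exact ⟨0, Subalgebra.zero_mem _, by rw [sub_zero]; exact hf⟩
    | zero => exact ⟨0, Subalgebra.zero_mem _, by rw [sub_self, map_zero]; exact zero_le⟩
    | add a b _ _ ha hb =>
      obtain ⟨r, hr, hr'⟩ := ha
      obtain ⟨s, hs, hs'⟩ := hb
      refine ⟨r + s, Subalgebra.add_mem _ hr hs, ?_⟩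
      rw [show a + b - (r + s) = (a - r) + (b - s) by ring]
      exact (Valuation.map_add v _ _).trans (max_le hr' hs')
    | smul c a _ ha =>
      obtain ⟨r, hr, hr'⟩ := ha
      refine ⟨c • r, Subalgebra.smul_mem _ hr c, ?_⟩
      rw [← smul_sub, Algebra.smul_def, map_mul]
      calc v (algebraMap k E c) * v (a - r) ≤ 1 * exp (-(m : ℤ)) :=
            mul_le_mul' (L.v_const_le c) hr'
        _ = exp (-(m : ℤ)) := one_mul _
  · rintro ⟨r, hr, hr'⟩
    have h1 : f = r + (f - r) := by ring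
    rw [h1]
    exact Submodule.add_mem _ (Submodule.subset_span (Or.inl hr))
      (Submodule.subset_span (Or.inr hr'))

private theorem wmd_step {k E : Type*} [Field k] [AddCommGroup E] [Module k E]
    {A B : Submodule k E} (hAB : A ≤ B) {t : E} (htB : t ∈ B) (htA : t ∉ A)
    (hB : ∀ b ∈ B, ∃ c : k, b - c • t ∈ A) (hf : Module.Finite k (E ⧸ B)) :
    Module.Finite k (E ⧸ A) ∧ Module.finrank k (E ⧸ A) = Module.finrank k (E ⧸ B) + 1 := by
  have hN : B.map A.mkQ = Submodule.span k {A.mkQ t} := by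
    apply le_antisymm
    · rintro _ ⟨b, hb, rfl⟩
      obtain ⟨c, hc⟩ := hB b hb
      rw [Submodule.mem_span_singleton]
      refine ⟨c, ?_⟩
      rw [← map_smul, ← sub_eq_zero, ← map_sub, ← neg_sub, map_neg, neg_eq_zero,
        Submodule.mkQ_apply, Submodule.Quotient.mk_eq_zero]
      exact hc
    · rw [Submodule.span_singleton_le_iff_mem]
      exact ⟨t, htB, rfl⟩
  have ht0 : A.mkQ t ≠ 0 := by
    rw [Submodule.mkQ_apply, Ne, Submodule.Quotient.mk_eq_zero]
    exact htA
  have e := Submodule.quotientQuotientEquivQuotient A B hAB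
  have hf1 : Module.Finite k ((E ⧸ A) ⧸ B.map A.mkQ) := Module.Finite.equiv e.symm
  have hf2 : Module.Finite k (B.map A.mkQ) := by
    rw [hN]
    infer_instance
  have hf3 : Module.Finite k (E ⧸ A) := Module.Finite.of_submodule_quotient (B.map A.mkQ)
  refine ⟨hf3, ?_⟩
  have h1 := Submodule.finrank_quotient_add_finrank (B.map A.mkQ)
  rw [← h1, e.finrank_eq, hN, finrank_span_singleton ht0]

theorem Wm_dim {p : ℕ} [hp : Fact p.Prime] {k E : Type*} [Field k] [Field E] [Algebra k E]
    {x : E} {n g : ℕ} {v : VI E} (L : IsLevel p k x n g v)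
    (hfin : Module.Finite k (E ⧸ Wm k x v 0)) (m : ℕ) :
    Module.Finite k (E ⧸ Wm k x v (m + 1)) ∧
    Module.finrank k (E ⧸ Wm k x v (m + 1)) = Module.finrank k (E ⧸ Wm k x v 0) + m := by
  have hanti : ∀ m, Wm k x v (m + 1) ≤ Wm k x v m := by
    intro m f hf
    rw [wmd_mem L] at hf ⊢
    obtain ⟨r, hr, hr'⟩ := hf
    refine ⟨r, hr, hr'.trans ?_⟩
    rw [exp_le_exp]
    push_cast
    omega
  obtain ⟨t, ht⟩ := L.v_unif
  have htm : ∀ m : ℕ, v (t ^ m) = exp (-(m : ℤ)) := by
    intro m
    rw [map_pow, ht, ← exp_nsmul]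
    congr 1
    simp
  induction m with
  | zero =>
    have h1 : Wm k x v (0 + 1) = Wm k x v 0 := by
      apply le_antisymm (hanti 0)
      intro f hf
      rw [wmd_mem L] at hf ⊢
      obtain ⟨r, hr, hr'⟩ := hf
      have h2 : v (f - r) ≤ 1 := by
        rw [← exp_zero]
        simpa using hr'
      obtain ⟨c, hc⟩ := L.residue _ h2
      refine ⟨r + algebraMap k E c, Subalgebra.add_mem _ hr (Subalgebra.algebraMap_mem _ c), ?_⟩
      rw [← sub_sub]
      rw [← exp_zero, IsLevel.lt_exp_iff] at hc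
      simpa using hc
    rw [h1]
    exact ⟨hfin, rfl⟩
  | succ m ih =>
    obtain ⟨ih1, ih2⟩ := ih
    have h1 := wmd_step (k := k) (hanti (m + 1)) (t := t ^ (m + 1))
      ((wmd_mem L).2 ⟨0, Subalgebra.zero_mem _, by rw [sub_zero, htm]⟩) ?_ ?_ ih1
    · refine ⟨h1.1, ?_⟩
      rw [h1.2, ih2, add_assoc]
    · intro hmem
      rw [wmd_mem L] at hmem
      obtain ⟨r, hr, hr'⟩ := hmem
      have h2 : v r ≤ exp (-((m + 1 : ℕ) : ℤ)) := by
        have h3 : r = t ^ (m + 1) - (t ^ (m + 1) - r) := by ring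
        rw [h3]
        refine (Valuation.map_sub v _ _).trans (max_le (htm (m + 1)).le (hr'.trans ?_))
        rw [exp_le_exp]
        push_cast
        omega
      have h4 : v r < 1 := by
        refine lt_of_le_of_lt h2 ?_
        rw [← exp_zero, exp_lt_exp]
        push_cast
        omega
      have h5 := L.R_inter_lt hr h4
      rw [h5, sub_zero, htm, exp_le_exp] at hr'
      push_cast at hr'
      omega
    · intro b hb
      rw [wmd_mem L] at hb
      obtain ⟨r, hr, hr'⟩ := hb
      have ht0 : t ^ (m + 1) ≠ 0 := by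
        intro h0
        have := htm (m + 1)
        rw [h0, map_zero] at this
        exact exp_ne_zero this.symm
      rw [← htm (m + 1)] at hr'
      obtain ⟨c, hc⟩ := L.approx ht0 hr'
      refine ⟨c, (wmd_mem L).2 ⟨r, hr, ?_⟩⟩
      rw [htm, IsLevel.lt_exp_iff] at hc
      rw [Algebra.smul_def, show b - algebraMap k E c * t ^ (m + 1) - r =
        b - r - algebraMap k E c * t ^ (m + 1) by ring]
      refine hc.trans ?_
      rw [exp_le_exp]
      push_cast
      omega

theorem mem_Wm {p : ℕ} [hp : Fact p.Prime] {k E : Type*} [Field k] [Field E] [Algebra k E]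
    {x : E} {n g : ℕ} {v : VI E} (L : IsLevel p k x n g v) {m : ℕ} {f : E} :
    f ∈ Wm k x v m ↔ ∃ r ∈ Rint k x, v (f - r) ≤ exp (-(m : ℤ)) := by
  exact wmd_mem L

end BAC
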